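import Pool.Agent.Helper67.Inj.Spec

set_option autoImplicit false

open scoped InnerProductSpace ComplexOrder TensorProduct Topology

namespace Pool.Agent.Helper67.Inj

universe u

variable {H : Type u} [NormedAddCommGroup H] [InnerProductSpace ℂ H] [CompleteSpace H]

private theorem abel_proj {M : VonNeumannAlgebra H} {p : H →L[ℂ] H} (hp : IsStarProjection p)
    (hpM : p ∈ M)
    (hno : ¬ ∃ v ∈ M, v ≠ 0 ∧ IsPI v ∧ p * v = v ∧ v * p = v ∧ v * v = 0)
    {e : H →L[ℂ] H} (he : IsStarProjection e) (heM : e ∈ M) (hpe : p * e = e)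
    {x : H →L[ℂ] H} (hx : x ∈ M) (hpx : p * x = x) (hxp : x * p = x) : e * x = x * e := by
  have hep : e * p = e := by
    have := congrArg star hpe
    rwa [star_mul, he.isSelfAdjoint.star_eq, hp.isSelfAdjoint.star_eq] at this
  have hee : e * e = e := he.isIdempotentElem
  have hpp : p * p = p := hp.isIdempotentElem
  have hq : IsStarProjection (p - e) := by
    refine ⟨?_, ?_⟩
    · show (p - e) * (p - e) = p - e
      rw [sub_mul, mul_sub, mul_sub, hpp, hpe, hep, hee]
      abel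
    · show star (p - e) = p - e
      rw [star_sub, he.isSelfAdjoint.star_eq, hp.isSelfAdjoint.star_eq]
  have key : ∀ z ∈ M, e * z * (p - e) = 0 := by
    intro z hz
    by_contra hne
    obtain ⟨v, hvM, hv0, hvP, h1, h2⟩ := exists_pi M (e * z * (p - e)) (p - e) e
      (mul_mem (mul_mem heM hz) (sub_mem hpM heM)) hne hq he (sub_mem hpM heM) heM (by
        have h3 : (p - e) * (p - e) = p - e := hq.isIdempotentElem
        calc e * (e * z * (p - e)) * (p - e) = (e * e) * z * ((p - e) * (p - e)) := by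
              simp only [mul_assoc]
          _ = e * z * (p - e) := by rw [hee, h3])
    apply hno
    refine ⟨v, hvM, hv0, hvP, ?_, ?_, ?_⟩
    · rw [← h1, ← mul_assoc, hpe]
    · rw [← h2, mul_assoc, sub_mul, hpp, hep]
    · have h3 : (p - e) * e = 0 := by rw [sub_mul, hpe, hee, sub_self]
      calc v * v = (v * (p - e)) * (e * v) := by rw [h1, h2]
        _ = v * ((p - e) * e) * v := by simp only [mul_assoc]
        _ = 0 := by rw [h3, mul_zero, zero_mul]
  have k1 := key x hx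
  have k2 := congrArg star (key (star x) (star_mem hx))
  rw [star_mul, star_mul, star_star, star_zero, he.isSelfAdjoint.star_eq,
    hq.isSelfAdjoint.star_eq] at k2
  rw [mul_sub, mul_assoc, hxp] at k1
  rw [← mul_assoc, sub_mul, hpx] at k2
  rw [sub_mul] at k2
  rw [sub_eq_zero.mp k1, sub_eq_zero.mp k2]

private theorem abel_pos1 {M : VonNeumannAlgebra H} {p : H →L[ℂ] H} (hp : IsStarProjection p)
    (hpM : p ∈ M)
    (hno : ¬ ∃ v ∈ M, v ≠ 0 ∧ IsPI v ∧ p * v = v ∧ v * p = v ∧ v * v = 0)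
    {h : H →L[ℂ] H} (hM : h ∈ M) (h0 : 0 ≤ h) (h1 : ‖h‖ ≤ 1) (hph : p * h = h)
    {x : H →L[ℂ] H} (hx : x ∈ M) (hpx : p * x = x) (hxp : x * p = x) : h * x = x * h := by
  have key : ∀ n : ℕ, 0 < n → ‖h * x - x * h‖ ≤ (2 * ‖x‖) * (n : ℝ)⁻¹ := by
    intro n hn
    obtain ⟨e, he, hne⟩ := spec_approx M h hM h0 h1 n hn
    set s := ((n : ℂ)⁻¹) • ∑ k, e k with hs
    have hsx : s * x = x * s := by
      rw [hs, smul_mul_assoc, mul_smul_comm, Finset.sum_mul, Finset.mul_sum]
      congr 1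
      refine Finset.sum_congr rfl fun k _ => ?_
      obtain ⟨hk1, hk2, hk3⟩ := he k
      have hk4 : p * e k = e k := by
        have := hk3 (1 - p) (by rw [sub_mul, one_mul, hph, sub_self])
        rw [sub_mul, one_mul] at this
        exact (sub_eq_zero.mp this).symm
      exact abel_proj hp hpM hno hk2 hk1 hk4 hx hpx hxp
    have h2 : h * x - x * h = (h - s) * x - x * (h - s) := by
      rw [sub_mul, mul_sub, hsx]; abel
    rw [h2]
    have h3 : ‖(h - s) * x‖ ≤ ‖h - s‖ * ‖x‖ := norm_mul_le _ _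
    have h4 : ‖x * (h - s)‖ ≤ ‖x‖ * ‖h - s‖ := norm_mul_le _ _
    have h5 := norm_sub_le ((h - s) * x) (x * (h - s))
    nlinarith [norm_nonneg x]
  have h2 : ‖h * x - x * h‖ ≤ 0 := by
    have h3 : Filter.Tendsto (fun n : ℕ => (2 * ‖x‖) * (n : ℝ)⁻¹) Filter.atTop (𝓝 0) := by
      have := (tendsto_inv_atTop_nhds_zero_nat (𝕜 := ℝ)).const_mul (2 * ‖x‖)
      simpa using this
    refine ge_of_tendsto h3 ?_
    filter_upwards [Filter.eventually_gt_atTop 0] with n hn using key n hn
  exact sub_eq_zero.mp (norm_le_zero_iff.mp h2)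

private theorem abel_pos {M : VonNeumannAlgebra H} {p : H →L[ℂ] H} (hp : IsStarProjection p)
    (hpM : p ∈ M)
    (hno : ¬ ∃ v ∈ M, v ≠ 0 ∧ IsPI v ∧ p * v = v ∧ v * p = v ∧ v * v = 0)
    {h : H →L[ℂ] H} (hM : h ∈ M) (h0 : 0 ≤ h) (hph : p * h = h)
    {x : H →L[ℂ] H} (hx : x ∈ M) (hpx : p * x = x) (hxp : x * p = x) : h * x = x * h := by
  set c : ℝ := (‖h‖ + 1)⁻¹ with hc
  have hc0 : 0 < c := by positivity
  have h1 := abel_pos1 hp hpM hno (h := (c : ℂ) • h)
    (M.toStarSubalgebra.smul_mem hM (c : ℂ))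
    (by
      have : (c : ℂ) • h = c • h := by
        ext ξ; simp
      rw [this]
      exact smul_nonneg hc0.le h0)
    (by
      rw [norm_smul, Complex.norm_real, Real.norm_eq_abs, abs_of_pos hc0, hc,
        inv_mul_le_iff₀ (by positivity)]
      linarith)
    (by rw [mul_smul_comm, hph]) hx hpx hxp
  rw [smul_mul_assoc, mul_smul_comm] at h1
  exact smul_right_injective _ (by exact_mod_cast hc0.ne' : (c : ℂ) ≠ 0) h1

private theorem abel_sa {M : VonNeumannAlgebra H} {p : H →L[ℂ] H} (hp : IsStarProjection p)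
    (hpM : p ∈ M)
    (hno : ¬ ∃ v ∈ M, v ≠ 0 ∧ IsPI v ∧ p * v = v ∧ v * p = v ∧ v * v = 0)
    {a : H →L[ℂ] H} (hM : a ∈ M) (ha : star a = a)
    {x : H →L[ℂ] H} (hx : x ∈ M) (hpx : p * x = x) (hxp : x * p = x) :
    (p * a * p) * x = x * (p * a * p) := by
  have hpp : p * p = p := hp.isIdempotentElem
  have h1 : 0 ≤ a + algebraMap ℝ (H →L[ℂ] H) ‖a‖ := by
    have := IsSelfAdjoint.neg_algebraMap_norm_le_self (a := a) ha
    rw [neg_le_iff_add_nonneg] at this
    exact this
  have h2 : 0 ≤ p * (a + algebraMap ℝ (H →L[ℂ] H) ‖a‖) * p := by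
    have := star_left_conjugate_nonneg h1 p
    rwa [hp.isSelfAdjoint.star_eq] at this
  have h3 : p * (a + algebraMap ℝ (H →L[ℂ] H) ‖a‖) * p = p * a * p + (‖a‖ : ℂ) • p := by
    rw [mul_add, add_mul]
    congr 1
    rw [Algebra.algebraMap_eq_smul_one, mul_smul_comm, mul_one, smul_mul_assoc, hpp]
    ext ξ; simp
  rw [h3] at h2
  have h4 := abel_pos hp hpM hno (h := p * a * p + (‖a‖ : ℂ) • p)
    (add_mem (mul_mem (mul_mem hpM hM) hpM) (M.toStarSubalgebra.smul_mem hpM _)) h2
    (by rw [mul_add, mul_smul_comm, hpp, mul_assoc, ← mul_assoc p p, hpp]) hx hpx hxp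
  rw [add_mul, mul_add, smul_mul_assoc, mul_smul_comm, hpx, hxp] at h4
  exact add_right_cancel h4

/-- ABEL -/
theorem exists_nilpotent (M : VonNeumannAlgebra H) (p : H →L[ℂ] H) (hp : IsStarProjection p)
    (hpM : p ∈ M) (h : ∃ x ∈ M, ∃ y ∈ M, (p * x * p) * (p * y * p) ≠ (p * y * p) * (p * x * p)) :
    ∃ v ∈ M, v ≠ 0 ∧ IsPI v ∧ p * v = v ∧ v * p = v ∧ v * v = 0 := by
  by_contra hno
  obtain ⟨x, hx, y, hy, hxy⟩ := h
  apply hxy
  have hpp : p * p = p := hp.isIdempotentElem
  set z := p * y * p with hz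
  have hzM : z ∈ M := mul_mem (mul_mem hpM hy) hpM
  have hpz : p * z = z := by rw [hz, mul_assoc, ← mul_assoc p p, hpp]
  have hzp : z * p = z := by rw [hz, mul_assoc, hpp]
  have h1 : star (x + star x) = x + star x := by rw [star_add, star_star, add_comm]
  have h2 : star (Complex.I • (x - star x)) = Complex.I • (x - star x) := by
    rw [star_smul, star_sub, star_star]
    have : star Complex.I = -Complex.I := Complex.conj_I
    rw [this]
    module
  have k1 := abel_sa hp hpM hno (a := x + star x) (add_mem hx (star_mem hx)) h1 hzM hpz hzp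
  have k2 := abel_sa hp hpM hno (a := Complex.I • (x - star x))
    (M.toStarSubalgebra.smul_mem (sub_mem hx (star_mem hx)) _) h2 hzM hpz hzp
  have h3 : p * x * p = (1 / 2 : ℂ) • (p * (x + star x) * p) +
      (-Complex.I / 2 : ℂ) • (p * (Complex.I • (x - star x)) * p) := by
    simp only [mul_add, add_mul, mul_sub, sub_mul, mul_smul_comm, smul_mul_assoc, smul_sub,
      smul_add, smul_smul]
    match_scalars <;> ring_nf <;> simp [Complex.I_sq] <;> ring_nf
  rw [h3]
  generalize p * (x + star x) * p = A at k1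
  generalize p * (Complex.I • (x - star x)) * p = B at k2
  rw [add_mul, mul_add, smul_mul_assoc, smul_mul_assoc, mul_smul_comm, mul_smul_comm, k1, k2]

end Pool.Agent.Helper67.Inj
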