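import Pool.Agent.Helper67.Inj.Defs

set_option autoImplicit false

open scoped InnerProductSpace ComplexOrder TensorProduct Topology

namespace Pool.Agent.Helper67.Inj

universe u

variable {H : Type u} [NormedAddCommGroup H] [InnerProductSpace ℂ H] [CompleteSpace H]

section avg

variable {G : Type*} [Group G] [Fintype G]

/-- a finite group of unitaries of `M` -/
private structure URep (M : VonNeumannAlgebra H) (U : G → (H →L[ℂ] H)) : Prop where
  one : U 1 = 1
  mul : ∀ g h, U (g * h) = U g * U h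
  mem : ∀ g, U g ∈ M
  st : ∀ g, star (U g) = U g⁻¹

omit [Fintype G] in
private lemma URep.norm_le {M : VonNeumannAlgebra H} {U : G → (H →L[ℂ] H)} (hU : URep M U)
    (g : G) : ‖U g‖ ≤ 1 := by
  have h1 : star (U g) * U g = 1 := by
    rw [hU.st, ← hU.mul, inv_mul_cancel, hU.one]
  have h2 : ‖U g‖ * ‖U g‖ ≤ 1 := by
    rw [← CStarRing.norm_star_mul_self, h1]
    exact ContinuousLinearMap.norm_id_le
  nlinarith [norm_nonneg (U g)]

/-- left average -/
private noncomputable def avgL (U : G → (H →L[ℂ] H)) (P : (H →L[ℂ] H) →L[ℂ] (H →L[ℂ] H)) :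
    (H →L[ℂ] H) →L[ℂ] (H →L[ℂ] H) :=
  ((Fintype.card G : ℂ)⁻¹) • ∑ g : G, (ContinuousLinearMap.mul ℂ (H →L[ℂ] H) (U g⁻¹)) ∘L P ∘L
    (ContinuousLinearMap.mul ℂ (H →L[ℂ] H) (U g))

private lemma avgL_apply (U : G → (H →L[ℂ] H)) (P : (H →L[ℂ] H) →L[ℂ] (H →L[ℂ] H))
    (x : H →L[ℂ] H) :
    avgL U P x = ((Fintype.card G : ℂ)⁻¹) • ∑ g : G, U g⁻¹ * P (U g * x) := by
  unfold avgL
  rw [smul_apply, sum_apply]
  rfl

private lemma card_ne : (Fintype.card G : ℂ) ≠ 0 := by
  exact_mod_cast Fintype.card_ne_zero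

private lemma avgL_proj {M : VonNeumannAlgebra H} {U : G → (H →L[ℂ] H)} (hU : URep M U)
    {P : (H →L[ℂ] H) →L[ℂ] (H →L[ℂ] H)} (hP : IsBProj M P) : IsBProj M (avgL U P) := by
  constructor
  · intro x
    rw [avgL_apply]
    exact M.toStarSubalgebra.toSubalgebra.smul_mem
      (sum_mem fun g _ => mul_mem (hU.mem _) (hP.mem _)) _
  · intro m hm
    rw [avgL_apply]
    have h1 : ∀ g ∈ (Finset.univ : Finset G), U g⁻¹ * P (U g * m) = m := by
      intro g _
      rw [hP.id _ (mul_mem (hU.mem g) hm), ← mul_assoc, ← hU.mul, inv_mul_cancel, hU.one,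
        one_mul]
    rw [Finset.sum_congr rfl h1, Finset.sum_const, Finset.card_univ, ← Nat.cast_smul_eq_nsmul ℂ,
      smul_smul, inv_mul_cancel₀ card_ne, one_smul]

private lemma avgL_norm {M : VonNeumannAlgebra H} {U : G → (H →L[ℂ] H)} (hU : URep M U)
    (P : (H →L[ℂ] H) →L[ℂ] (H →L[ℂ] H)) : ‖avgL U P‖ ≤ ‖P‖ := by
  refine ContinuousLinearMap.opNorm_le_bound _ (norm_nonneg _) fun x => ?_
  rw [avgL_apply, norm_smul, norm_inv, Complex.norm_natCast]
  have hpos : (0 : ℝ) < Fintype.card G := by exact_mod_cast Fintype.card_pos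
  rw [inv_mul_le_iff₀ hpos]
  refine (norm_sum_le _ _).trans ?_
  have h1 : ∀ g ∈ (Finset.univ : Finset G), ‖U g⁻¹ * P (U g * x)‖ ≤ ‖P‖ * ‖x‖ := by
    intro g _
    calc ‖U g⁻¹ * P (U g * x)‖ ≤ ‖U g⁻¹‖ * ‖P (U g * x)‖ := norm_mul_le _ _
      _ ≤ 1 * (‖P‖ * ‖U g * x‖) := by
          gcongr
          · exact hU.norm_le _
          · exact P.le_opNorm _
      _ ≤ 1 * (‖P‖ * (‖U g‖ * ‖x‖)) := by
          gcongr
          exact norm_mul_le _ _
      _ ≤ 1 * (‖P‖ * (1 * ‖x‖)) := by
          gcongr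
          exact hU.norm_le _
      _ = _ := by ring
  refine (Finset.sum_le_sum h1).trans ?_
  rw [Finset.sum_const, Finset.card_univ, nsmul_eq_mul]

private lemma avgL_equiv {M : VonNeumannAlgebra H} {U : G → (H →L[ℂ] H)} (hU : URep M U)
    (P : (H →L[ℂ] H) →L[ℂ] (H →L[ℂ] H)) (h : G) (x : H →L[ℂ] H) :
    avgL U P (U h * x) = U h * avgL U P x := by
  rw [avgL_apply, avgL_apply, mul_smul_comm, Finset.mul_sum]
  congr 1
  refine Fintype.sum_equiv (Equiv.mulRight h) _ _ fun g => ?_
  change U g⁻¹ * P (U g * (U h * x)) = U h * (U (g * h)⁻¹ * P (U (g * h) * x))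
  rw [mul_inv_rev, hU.mul g h, ← mul_assoc (U h), ← hU.mul h, ← mul_assoc h, mul_inv_cancel,
    one_mul, mul_assoc (U g)]

private lemma avgL_right (U : G → (H →L[ℂ] H))
    (P : (H →L[ℂ] H) →L[ℂ] (H →L[ℂ] H)) (b : H →L[ℂ] H) (hb : ∀ x, P (x * b) = P x * b)
    (x : H →L[ℂ] H) : avgL U P (x * b) = avgL U P x * b := by
  rw [avgL_apply, avgL_apply, smul_mul_assoc, Finset.sum_mul]
  congr 1
  refine Finset.sum_congr rfl fun g _ => ?_
  rw [← mul_assoc, hb, mul_assoc]

private lemma avgL_left {M : VonNeumannAlgebra H} {U : G → (H →L[ℂ] H)} (hU : URep M U)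
    (P : (H →L[ℂ] H) →L[ℂ] (H →L[ℂ] H)) (d : H →L[ℂ] H)
    (hd : ∀ g x, P (U g * d * U g⁻¹ * x) = U g * d * U g⁻¹ * P x)
    (x : H →L[ℂ] H) : avgL U P (d * x) = d * avgL U P x := by
  rw [avgL_apply, avgL_apply, mul_smul_comm, Finset.mul_sum]
  congr 1
  refine Finset.sum_congr rfl fun g _ => ?_
  have h1 : U g * (d * x) = U g * d * U g⁻¹ * (U g * x) := by
    have : U g⁻¹ * U g = 1 := by rw [← hU.mul, inv_mul_cancel, hU.one]
    calc U g * (d * x) = U g * d * 1 * x := by simp only [mul_one, mul_assoc]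
      _ = U g * d * (U g⁻¹ * U g) * x := by rw [this]
      _ = _ := by simp only [mul_assoc]
  have h2 : U g⁻¹ * U g = 1 := by rw [← hU.mul, inv_mul_cancel, hU.one]
  rw [h1, hd]
  calc U g⁻¹ * (U g * d * U g⁻¹ * P (U g * x)) = (U g⁻¹ * U g) * d * (U g⁻¹ * P (U g * x)) := by
        simp only [mul_assoc]
    _ = d * (U g⁻¹ * P (U g * x)) := by rw [h2, one_mul]

end avg

section frame

variable {n : ℕ} {W : Fin n → (H →L[ℂ] H)} {e : H →L[ℂ] H}

private lemma W_mul_e (he : IsStarProjection e)
    (hWW : ∀ s t, star (W s) * W t = if s = t then e else 0) (s : Fin n) : W s * e = W s := by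
  have hee : e * e = e := he.isIdempotentElem
  have hes : star e = e := he.isSelfAdjoint
  have h1 : star (W s * e - W s) * (W s * e - W s) = 0 := by
    have h2 : star (W s) * W s = e := by rw [hWW, if_pos rfl]
    calc star (W s * e - W s) * (W s * e - W s)
        = e * (star (W s) * W s) * e - e * (star (W s) * W s) -
          (star (W s) * W s) * e + star (W s) * W s := by
          rw [star_sub, star_mul, hes]
          simp only [sub_mul, mul_sub, mul_assoc]
          abel
      _ = 0 := by rw [h2, hee, hee]; abel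
  have h3 : W s * e - W s = 0 := by
    rwa [CStarRing.star_mul_self_eq_zero_iff] at h1
  exact sub_eq_zero.1 h3

private lemma e_mul_W (he : IsStarProjection e)
    (hWW : ∀ s t, star (W s) * W t = if s = t then e else 0) (s : Fin n) :
    e * star (W s) = star (W s) := by
  have h := congrArg star (W_mul_e he hWW s)
  rw [star_mul, he.isSelfAdjoint.star_eq] at h
  exact h

private lemma unit_mul (he : IsStarProjection e)
    (hWW : ∀ s t, star (W s) * W t = if s = t then e else 0) (s t a b : Fin n) :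
    (W s * star (W t)) * (W a * star (W b)) = if t = a then W s * star (W b) else 0 := by
  calc (W s * star (W t)) * (W a * star (W b)) = W s * (star (W t) * W a) * star (W b) := by
        simp only [mul_assoc]
    _ = _ := by
      rw [hWW]
      split_ifs with h
      · rw [W_mul_e he hWW]
      · rw [mul_zero, zero_mul]

private lemma unit_mul_W (he : IsStarProjection e)
    (hWW : ∀ s t, star (W s) * W t = if s = t then e else 0) (s t a : Fin n) :
    (W s * star (W t)) * W a = if t = a then W s else 0 := by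
  rw [mul_assoc, hWW]
  split_ifs with h
  · rw [W_mul_e he hWW]
  · rw [mul_zero]

/-- diagonal unitaries -/
private noncomputable def dg (W : Fin n → (H →L[ℂ] H)) (ε : Fin n → ℤˣ) : H →L[ℂ] H :=
  1 + ∑ s, ((((ε s : ℤ) : ℂ)) - 1) • (W s * star (W s))

/-- permutation unitaries -/
private noncomputable def pm (W : Fin n → (H →L[ℂ] H)) (π : Equiv.Perm (Fin n)) : H →L[ℂ] H :=
  ∑ s, W (π s) * star (W s) + (1 - ∑ s, W s * star (W s))

private lemma dg_rep (M : VonNeumannAlgebra H) (he : IsStarProjection e) (hW : ∀ s, W s ∈ M)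
    (hWW : ∀ s t, star (W s) * W t = if s = t then e else 0) : URep M (dg W) := by
  constructor
  · unfold dg
    simp
  · intro g h
    unfold dg
    rw [mul_add, mul_one, add_mul, one_mul, Finset.sum_mul]
    have h1 : ∀ s ∈ (Finset.univ : Finset (Fin n)),
        ((((g s : ℤ) : ℂ)) - 1) • (W s * star (W s)) *
          ∑ t, ((((h t : ℤ) : ℂ)) - 1) • (W t * star (W t)) =
        (((((g s : ℤ) : ℂ)) - 1) * ((((h s : ℤ) : ℂ)) - 1)) • (W s * star (W s)) := by
      intro s _
      rw [Finset.mul_sum]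
      have h2 : ∀ t ∈ (Finset.univ : Finset (Fin n)),
          ((((g s : ℤ) : ℂ)) - 1) • (W s * star (W s)) *
            (((((h t : ℤ) : ℂ)) - 1) • (W t * star (W t))) =
          if s = t then (((((g s : ℤ) : ℂ)) - 1) * ((((h t : ℤ) : ℂ)) - 1)) •
            (W s * star (W t)) else 0 := by
        intro t _
        rw [smul_mul_smul_comm, unit_mul he hWW]
        split_ifs
        · rfl
        · rw [smul_zero]
      rw [Finset.sum_congr rfl h2, Finset.sum_ite_eq, if_pos (Finset.mem_univ s)]
    rw [Finset.sum_congr rfl h1, add_assoc, ← Finset.sum_add_distrib,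
      ← Finset.sum_add_distrib]
    congr 1
    refine Finset.sum_congr rfl fun s _ => ?_
    rw [← add_smul, ← add_smul]
    congr 1
    rw [Pi.mul_apply, Units.val_mul]
    push_cast
    ring
  · intro g
    unfold dg
    refine add_mem (one_mem _) (sum_mem fun s _ => ?_)
    have hm : W s * star (W s) ∈ M := mul_mem (hW s) (star_mem (hW s))
    exact M.toStarSubalgebra.toSubalgebra.smul_mem hm _
  · intro g
    unfold dg
    rw [star_add, star_one, star_sum]
    congr 1
    refine Finset.sum_congr rfl fun s _ => ?_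
    rw [star_smul, star_mul, star_star]
    congr 1
    rw [star_sub, star_one, Pi.inv_apply, Int.units_inv_eq_self]
    congr 1
    rw [Complex.star_def, map_intCast]

private lemma W_mul_comp (he : IsStarProjection e)
    (hWW : ∀ s t, star (W s) * W t = if s = t then e else 0) (t : Fin n) :
    (1 - ∑ s, W s * star (W s)) * W t = 0 := by
  rw [sub_mul, one_mul, Finset.sum_mul]
  have h1 : ∀ s ∈ (Finset.univ : Finset (Fin n)), W s * star (W s) * W t =
      if s = t then W s else 0 := fun s _ => unit_mul_W he hWW s s t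
  rw [Finset.sum_congr rfl h1, Finset.sum_ite_eq', if_pos (Finset.mem_univ t), sub_self]

private lemma star_comp (W : Fin n → (H →L[ℂ] H)) :
    star (1 - ∑ s, W s * star (W s)) = 1 - ∑ s, W s * star (W s) := by
  rw [star_sub, star_one, star_sum]
  simp only [star_mul, star_star]

private lemma comp_mul_W (he : IsStarProjection e)
    (hWW : ∀ s t, star (W s) * W t = if s = t then e else 0) (t : Fin n) :
    star (W t) * (1 - ∑ s, W s * star (W s)) = 0 := by
  have h := congrArg star (W_mul_comp he hWW t)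
  rwa [star_mul, star_comp, star_zero] at h

private lemma pm_mul_W (he : IsStarProjection e)
    (hWW : ∀ s t, star (W s) * W t = if s = t then e else 0) (π : Equiv.Perm (Fin n))
    (t : Fin n) : pm W π * W t = W (π t) := by
  unfold pm
  rw [add_mul, W_mul_comp he hWW, add_zero, Finset.sum_mul]
  have h1 : ∀ s ∈ (Finset.univ : Finset (Fin n)), W (π s) * star (W s) * W t =
      if s = t then W (π s) else 0 := fun s _ => unit_mul_W he hWW (π s) s t
  rw [Finset.sum_congr rfl h1, Finset.sum_ite_eq', if_pos (Finset.mem_univ t)]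

private lemma pm_mul_comp (he : IsStarProjection e)
    (hWW : ∀ s t, star (W s) * W t = if s = t then e else 0) (π : Equiv.Perm (Fin n)) :
    pm W π * (1 - ∑ s, W s * star (W s)) = 1 - ∑ s, W s * star (W s) := by
  have h2 : (1 - ∑ s, W s * star (W s)) * (1 - ∑ s, W s * star (W s)) =
      1 - ∑ s, W s * star (W s) := by
    conv_lhs => rw [mul_sub, mul_one, Finset.mul_sum]
    have h3 : ∀ s ∈ (Finset.univ : Finset (Fin n)),
        (1 - ∑ s, W s * star (W s)) * (W s * star (W s)) = 0 := by
      intro s _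
      rw [← mul_assoc, W_mul_comp he hWW, zero_mul]
    rw [Finset.sum_congr rfl h3, Finset.sum_const_zero, sub_zero]
  unfold pm
  rw [add_mul, h2, Finset.sum_mul]
  have h1 : ∀ s ∈ (Finset.univ : Finset (Fin n)), W (π s) * star (W s) *
      (1 - ∑ s, W s * star (W s)) = 0 := by
    intro s _
    rw [mul_assoc, comp_mul_W he hWW, mul_zero]
  rw [Finset.sum_congr rfl h1, Finset.sum_const_zero, zero_add]

private lemma pm_rep (M : VonNeumannAlgebra H) (he : IsStarProjection e) (hW : ∀ s, W s ∈ M)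
    (hWW : ∀ s t, star (W s) * W t = if s = t then e else 0) : URep M (pm W) := by
  constructor
  · unfold pm
    simp
  · intro g h
    have h1 : pm W g * pm W h = ∑ s, pm W g * (W (h s) * star (W s)) +
        pm W g * (1 - ∑ s, W s * star (W s)) := by
      conv_lhs => rw [pm.eq_def W h]
      rw [mul_add, Finset.mul_sum]
    rw [h1, pm_mul_comp he hWW]
    conv_lhs => rw [pm.eq_def W (g * h)]
    congr 1
    refine Finset.sum_congr rfl fun s _ => ?_
    rw [← mul_assoc, pm_mul_W he hWW, Equiv.Perm.mul_apply]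
  · intro g
    unfold pm
    exact add_mem (sum_mem fun s _ => mul_mem (hW _) (star_mem (hW s)))
      (sub_mem (one_mem _) (sum_mem fun s _ => mul_mem (hW s) (star_mem (hW s))))
  · intro g
    unfold pm
    rw [star_add, star_comp, star_sum]
    congr 1
    refine Fintype.sum_equiv g _ _ fun s => ?_
    rw [star_mul, star_star]
    simp

private lemma average_left (M : VonNeumannAlgebra H) (P : (H →L[ℂ] H) →L[ℂ] (H →L[ℂ] H))
    (hP : IsBProj M P) (he : IsStarProjection e) (hW : ∀ s, W s ∈ M)
    (hWW : ∀ s t, star (W s) * W t = if s = t then e else 0) :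
    ∃ P' : (H →L[ℂ] H) →L[ℂ] (H →L[ℂ] H), IsBProj M P' ∧ ‖P'‖ ≤ ‖P‖ ∧
      (∀ s t x, P' (W s * star (W t) * x) = W s * star (W t) * P' x) ∧
      (∀ b, (∀ x, P (x * b) = P x * b) → ∀ x, P' (x * b) = P' x * b) := by
  have hD := dg_rep M he hW hWW
  have hPi := pm_rep M he hW hWW
  set P1 := avgL (dg W) P with hP1
  have hdiag : ∀ s x, P1 (W s * star (W s) * x) = W s * star (W s) * P1 x := by
    intro s x
    set ε : Fin n → ℤˣ := Function.update 1 s (-1) with hε
    have h1 : dg W ε = 1 - (2 : ℂ) • (W s * star (W s)) := by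
      unfold dg
      rw [Finset.sum_eq_single s]
      · rw [hε, Function.update_self]
        push_cast
        rw [sub_eq_add_neg 1 ((2 : ℂ) • (W s * star (W s))), ← neg_smul]
        norm_num
      · intro t _ ht
        rw [hε, Function.update_of_ne ht]
        simp
      · intro h
        exact absurd (Finset.mem_univ s) h
    have h2 := avgL_equiv hD P ε x
    rw [h1, ← hP1, sub_mul, sub_mul, one_mul, one_mul, map_sub, smul_mul_assoc, smul_mul_assoc,
      map_smul] at h2
    have h3 : (2 : ℂ) • P1 (W s * star (W s) * x) = (2 : ℂ) • (W s * star (W s) * P1 x) :=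
      sub_right_injective h2
    have h4 := congrArg (fun z => ((2 : ℂ)⁻¹) • z) h3
    simpa using h4
  refine ⟨avgL (pm W) P1, avgL_proj hPi (avgL_proj hD hP),
    (avgL_norm hPi _).trans (avgL_norm hD _), ?_, ?_⟩
  · have hd2 : ∀ s x, avgL (pm W) P1 (W s * star (W s) * x) =
        W s * star (W s) * avgL (pm W) P1 x := by
      intro s x
      apply avgL_left hPi
      intro g y
      have h1 : pm W g * (W s * star (W s)) * pm W g⁻¹ = W (g s) * star (W (g s)) := by
        rw [← hPi.st, ← mul_assoc, pm_mul_W he hWW, mul_assoc, ← star_mul, pm_mul_W he hWW]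
      rw [h1]
      exact hdiag (g s) y
    intro s t x
    have h1 : W s * star (W t) = pm W (Equiv.swap s t) * (W t * star (W t)) := by
      rw [← mul_assoc, pm_mul_W he hWW, Equiv.swap_apply_right]
    rw [h1, mul_assoc, avgL_equiv hPi, hd2, ← mul_assoc]
  · intro b hb x
    exact avgL_right _ _ b (avgL_right _ _ b hb) x

/-- the adjoint projection -/
private noncomputable def sharp (P : (H →L[ℂ] H) →L[ℂ] (H →L[ℂ] H)) :
    (H →L[ℂ] H) →L[ℂ] (H →L[ℂ] H) :=
  LinearMap.mkContinuous
    { toFun := fun x => star (P (star x))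
      map_add' := fun x y => by rw [star_add, map_add, star_add]
      map_smul' := fun c x => by
        rw [star_smul, map_smul, star_smul, star_star, RingHom.id_apply] } ‖P‖ (by
    intro x
    change ‖star (P (star x))‖ ≤ ‖P‖ * ‖x‖
    rw [norm_star]
    refine (P.le_opNorm _).trans ?_
    rw [norm_star])

private lemma sharp_apply (P : (H →L[ℂ] H) →L[ℂ] (H →L[ℂ] H)) (x : H →L[ℂ] H) :
    sharp P x = star (P (star x)) := rfl

private lemma sharp_norm (P : (H →L[ℂ] H) →L[ℂ] (H →L[ℂ] H)) : ‖sharp P‖ ≤ ‖P‖ :=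
  LinearMap.mkContinuous_norm_le _ (norm_nonneg _) _

private lemma sharp_proj {M : VonNeumannAlgebra H} {P : (H →L[ℂ] H) →L[ℂ] (H →L[ℂ] H)}
    (hP : IsBProj M P) : IsBProj M (sharp P) := by
  constructor
  · intro x
    rw [sharp_apply]
    exact star_mem (hP.mem _)
  · intro m hm
    rw [sharp_apply, hP.id _ (star_mem hm), star_star]

end frame

/-- AVG -/
theorem average (M : VonNeumannAlgebra H) (P : (H →L[ℂ] H) →L[ℂ] (H →L[ℂ] H))
    (hP : IsBProj M P) (n : ℕ) (W : Fin n → (H →L[ℂ] H)) (e : H →L[ℂ] H)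
    (he : IsStarProjection e) (hW : ∀ s, W s ∈ M)
    (hWW : ∀ s t, star (W s) * W t = if s = t then e else 0) :
    ∃ P' : (H →L[ℂ] H) →L[ℂ] (H →L[ℂ] H), IsBProj M P' ∧ ‖P'‖ ≤ ‖P‖ ∧
      (∀ s t x, P' (W s * star (W t) * x) = W s * star (W t) * P' x) ∧
      (∀ s t x, P' (x * (W s * star (W t))) = P' x * (W s * star (W t))) := by
  obtain ⟨P1, h1a, h1b, h1c, -⟩ := average_left M P hP he hW hWW
  have h2 : ∀ s t x, sharp P1 (x * (W s * star (W t))) = sharp P1 x * (W s * star (W t)) := by
    intro s t x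
    rw [sharp_apply, sharp_apply, star_mul, star_mul, star_star, h1c, star_mul, star_mul,
      star_star]
  obtain ⟨P3, h3a, h3b, h3c, h3d⟩ := average_left M (sharp P1) (sharp_proj h1a) he hW hWW
  refine ⟨sharp P3, sharp_proj h3a,
    (sharp_norm _).trans (h3b.trans ((sharp_norm _).trans h1b)), ?_, ?_⟩
  · intro s t x
    rw [sharp_apply, sharp_apply, star_mul, star_mul, star_star,
      h3d (W t * star (W s)) (h2 t s), star_mul, star_mul, star_star]
  · intro s t x
    rw [sharp_apply, sharp_apply, star_mul, star_mul, star_star, h3c, star_mul, star_mul,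
      star_star]

end Pool.Agent.Helper67.Inj
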