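import Pool.Agent.Helper67.Inj.Main

/-!
# Completely positive unital maps are completely contractive; the main theorem in this form
-/

set_option autoImplicit false

open scoped InnerProductSpace ComplexOrder TensorProduct Topology

namespace Pool.Agent.Helper67.Inj

universe u

variable {H : Type u} [NormedAddCommGroup H] [InnerProductSpace ℂ H] [CompleteSpace H]

/-- sum of the inner products -/
private theorem cc_norm_le {n : ℕ} (ξ η : Fin n → H) :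
    ‖∑ i, ⟪ξ i, η i⟫_ℂ‖ ≤ Real.sqrt (∑ i, ‖ξ i‖ ^ 2) * Real.sqrt (∑ i, ‖η i‖ ^ 2) := by
  calc ‖∑ i, ⟪ξ i, η i⟫_ℂ‖ ≤ ∑ i, ‖⟪ξ i, η i⟫_ℂ‖ := norm_sum_le _ _
    _ ≤ ∑ i, ‖ξ i‖ * ‖η i‖ := Finset.sum_le_sum fun i _ => norm_inner_le_norm _ _
    _ ≤ Real.sqrt (∑ i, ‖ξ i‖ ^ 2) * Real.sqrt (∑ i, ‖η i‖ ^ 2) :=
        Real.sum_mul_le_sqrt_mul_sqrt _ _ _

theorem cp_cc (E : (H →L[ℂ] H) →ₗ[ℂ] (H →L[ℂ] H)) (hE : IsCP E) (h1 : E 1 = 1) (n : ℕ)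
    (x : Fin n → Fin n → (H →L[ℂ] H)) (c : ℝ) (hc : 0 ≤ c)
    (hx : ∀ η : Fin n → H, ∑ i, ‖∑ j, x i j (η j)‖ ^ 2 ≤ c ^ 2 * ∑ j, ‖η j‖ ^ 2)
    (η : Fin n → H) : ∑ i, ‖∑ j, E (x i j) (η j)‖ ^ 2 ≤ c ^ 2 * ∑ j, ‖η j‖ ^ 2 := by
  -- the operator matrix of size `2n`
  let X : Fin n ⊕ Fin n → Fin n ⊕ Fin n → (H →L[ℂ] H) := fun a b =>
    match a, b with
    | Sum.inl i, Sum.inl j => if i = j then ((c : ℝ) : ℂ) • 1 else 0
    | Sum.inl i, Sum.inr j => x i j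
    | Sum.inr i, Sum.inl j => star (x j i)
    | Sum.inr i, Sum.inr j => if i = j then ((c : ℝ) : ℂ) • 1 else 0
  have hXe : ∀ ξ : Fin n ⊕ Fin n → H, (∑ a, ∑ b, ⟪ξ a, X a b (ξ b)⟫_ℂ) =
      (c : ℂ) * (∑ i, ⟪ξ (Sum.inl i), ξ (Sum.inl i)⟫_ℂ) +
      (∑ i, ⟪ξ (Sum.inl i), ∑ j, x i j (ξ (Sum.inr j))⟫_ℂ) +
      ((starRingEnd ℂ) (∑ i, ⟪ξ (Sum.inl i), ∑ j, x i j (ξ (Sum.inr j))⟫_ℂ) +
      (c : ℂ) * (∑ i, ⟪ξ (Sum.inr i), ξ (Sum.inr i)⟫_ℂ)) := by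
    intro ξ
    have e1 : ∀ i, ∑ j, ⟪ξ (Sum.inl i), X (Sum.inl i) (Sum.inl j) (ξ (Sum.inl j))⟫_ℂ =
        (c : ℂ) * ⟪ξ (Sum.inl i), ξ (Sum.inl i)⟫_ℂ := by
      intro i
      rw [Finset.sum_eq_single i]
      · simp [X, inner_smul_right]
      · intro b _ hb
        simp [X, Ne.symm hb]
      · simp
    have e2 : ∀ i, ∑ j, ⟪ξ (Sum.inr i), X (Sum.inr i) (Sum.inr j) (ξ (Sum.inr j))⟫_ℂ =
        (c : ℂ) * ⟪ξ (Sum.inr i), ξ (Sum.inr i)⟫_ℂ := by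
      intro i
      rw [Finset.sum_eq_single i]
      · simp [X, inner_smul_right]
      · intro b _ hb
        simp [X, Ne.symm hb]
      · simp
    have e3 : ∀ i, ∑ j, ⟪ξ (Sum.inl i), X (Sum.inl i) (Sum.inr j) (ξ (Sum.inr j))⟫_ℂ =
        ⟪ξ (Sum.inl i), ∑ j, x i j (ξ (Sum.inr j))⟫_ℂ := by
      intro i
      rw [inner_sum]
    have e4 : ∑ i, ∑ j, ⟪ξ (Sum.inr i), X (Sum.inr i) (Sum.inl j) (ξ (Sum.inl j))⟫_ℂ =
        (starRingEnd ℂ) (∑ i, ⟪ξ (Sum.inl i), ∑ j, x i j (ξ (Sum.inr j))⟫_ℂ) := by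
      rw [map_sum, Finset.sum_comm]
      refine Finset.sum_congr rfl fun j _ => ?_
      rw [inner_sum, map_sum]
      refine Finset.sum_congr rfl fun i _ => ?_
      show ⟪ξ (Sum.inr i), star (x j i) (ξ (Sum.inl j))⟫_ℂ = _
      rw [ContinuousLinearMap.star_eq_adjoint, ContinuousLinearMap.adjoint_inner_right,
        inner_conj_symm]
    rw [Fintype.sum_sum_type]
    simp only [Fintype.sum_sum_type, Finset.sum_add_distrib]
    rw [e4]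
    simp only [e1, e2, e3, ← Finset.mul_sum]
  have hXpos : PosMat X := by
    intro ξ
    rw [hXe]
    set z := ∑ i, ⟪ξ (Sum.inl i), ∑ j, x i j (ξ (Sum.inr j))⟫_ℂ with hz
    have hz1 : ‖z‖ ≤ c * (Real.sqrt (∑ i, ‖ξ (Sum.inl i)‖ ^ 2) *
        Real.sqrt (∑ i, ‖ξ (Sum.inr i)‖ ^ 2)) := by
      refine (cc_norm_le (fun i => ξ (Sum.inl i)) (fun i => ∑ j, x i j (ξ (Sum.inr j)))).trans ?_
      have h2 : Real.sqrt (∑ i, ‖∑ j, x i j (ξ (Sum.inr j))‖ ^ 2) ≤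
          c * Real.sqrt (∑ i, ‖ξ (Sum.inr i)‖ ^ 2) := by
        refine (Real.sqrt_le_sqrt (hx fun j => ξ (Sum.inr j))).trans ?_
        rw [Real.sqrt_mul (sq_nonneg c), Real.sqrt_sq hc]
      calc _ ≤ Real.sqrt (∑ i, ‖ξ (Sum.inl i)‖ ^ 2) * (c * Real.sqrt (∑ i, ‖ξ (Sum.inr i)‖ ^ 2)) :=
            mul_le_mul_of_nonneg_left h2 (Real.sqrt_nonneg _)
        _ = _ := by ring
    have e5 : ∀ ζ : Fin n → H, (∑ i, ⟪ζ i, ζ i⟫_ℂ) = ((∑ i, ‖ζ i‖ ^ 2 : ℝ) : ℂ) := by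
      intro ζ
      push_cast
      refine Finset.sum_congr rfl fun i _ => ?_
      rw [inner_self_eq_norm_sq_to_K]; rfl
    rw [e5 fun i => ξ (Sum.inl i), e5 fun i => ξ (Sum.inr i)]
    set a := ∑ i, ‖ξ (Sum.inl i)‖ ^ 2
    set b := ∑ i, ‖ξ (Sum.inr i)‖ ^ 2
    have ha : 0 ≤ a := Finset.sum_nonneg fun i _ => sq_nonneg _
    have hb : 0 ≤ b := Finset.sum_nonneg fun i _ => sq_nonneg _
    have hr : z + (starRingEnd ℂ) z = ((2 * z.re : ℝ) : ℂ) := Complex.add_conj _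
    have e6 : (c : ℂ) * (a : ℂ) + z + ((starRingEnd ℂ) z + (c : ℂ) * (b : ℂ)) =
        ((c * a + c * b + 2 * z.re : ℝ) : ℂ) := by
      push_cast at hr ⊢
      linear_combination hr
    rw [e6]
    have h3 : -(c * (Real.sqrt a * Real.sqrt b)) ≤ z.re :=
      (abs_le.1 ((Complex.abs_re_le_norm z).trans hz1)).1
    have h4 : 0 ≤ c * a + c * b + 2 * z.re := by
      have h5 := Real.sq_sqrt ha
      have h6 := Real.sq_sqrt hb
      have h7 := mul_nonneg hc (sq_nonneg (Real.sqrt a - Real.sqrt b))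
      nlinarith
    exact_mod_cast h4
  have hEX := hE.fintype X hXpos
  let A : (Fin n → H) → (Fin n → H) → ℂ := fun ξ η => ∑ i, ∑ j, ⟪ξ i, E (x i j) (η j)⟫_ℂ
  let B : (Fin n → H) → (Fin n → H) → ℂ := fun η ξ => ∑ i, ∑ j, ⟪η i, E (star (x j i)) (ξ j)⟫_ℂ
  have key : ∀ ξ η : Fin n → H, 0 ≤ (c : ℂ) * ((∑ i, ‖ξ i‖ ^ 2 : ℝ) : ℂ) + A ξ η +
      (B η ξ + (c : ℂ) * ((∑ i, ‖η i‖ ^ 2 : ℝ) : ℂ)) := by
    intro ξ η
    have h := hEX (Sum.elim ξ η)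
    refine h.trans_eq ?_
    have e1 : ∀ ζ : Fin n → H, ∀ i, ∑ j, ⟪ζ i, (E (if i = j then ((c : ℝ) : ℂ) • 1 else 0)) (ζ j)⟫_ℂ =
        (c : ℂ) * ((‖ζ i‖ ^ 2 : ℝ) : ℂ) := by
      intro ζ i
      rw [Finset.sum_eq_single i]
      · rw [if_pos rfl, map_smul, h1, ContinuousLinearMap.smul_apply,
          ContinuousLinearMap.one_apply, inner_smul_right, inner_self_eq_norm_sq_to_K]
        push_cast; rfl
      · intro b _ hb
        rw [if_neg (Ne.symm hb), map_zero, ContinuousLinearMap.zero_apply, inner_zero_right]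
      · simp
    rw [Fintype.sum_sum_type]
    simp only [Fintype.sum_sum_type, Finset.sum_add_distrib, Sum.elim_inl, Sum.elim_inr]
    have e2 : (∑ i, ∑ j, ⟪ξ i, (E (X (Sum.inl i) (Sum.inl j))) (ξ j)⟫_ℂ) =
        (c : ℂ) * ((∑ i, ‖ξ i‖ ^ 2 : ℝ) : ℂ) := by
      rw [Complex.ofReal_sum, Finset.mul_sum]
      exact Finset.sum_congr rfl fun i _ => e1 ξ i
    have e3 : (∑ i, ∑ j, ⟪η i, (E (X (Sum.inr i) (Sum.inr j))) (η j)⟫_ℂ) =
        (c : ℂ) * ((∑ i, ‖η i‖ ^ 2 : ℝ) : ℂ) := by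
      rw [Complex.ofReal_sum, Finset.mul_sum]
      exact Finset.sum_congr rfl fun i _ => e1 η i
    rw [e2, e3]
  have him1 : ∀ ξ η : Fin n → H, (A ξ η).im + (B η ξ).im = 0 := by
    intro ξ η
    have h := (Complex.nonneg_iff.1 (key ξ η)).2
    simp only [Complex.add_im, Complex.mul_im, Complex.ofReal_re, Complex.ofReal_im, mul_zero,
      zero_mul, add_zero, zero_add] at h
    linarith
  have hre : ∀ ξ η : Fin n → H, (A ξ η).re = (B η ξ).re := by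
    intro ξ η
    have h := him1 ξ (fun j => Complex.I • η j)
    have eA : A ξ (fun j => Complex.I • η j) = Complex.I * A ξ η := by
      show ∑ i, ∑ j, ⟪ξ i, E (x i j) (Complex.I • η j)⟫_ℂ = Complex.I * ∑ i, ∑ j, _
      rw [Finset.mul_sum]
      refine Finset.sum_congr rfl fun i _ => ?_
      rw [Finset.mul_sum]
      refine Finset.sum_congr rfl fun j _ => ?_
      rw [map_smul, inner_smul_right]
    have eB : B (fun j => Complex.I • η j) ξ = -Complex.I * B η ξ := by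
      show ∑ i, ∑ j, ⟪Complex.I • η i, E (star (x j i)) (ξ j)⟫_ℂ = -Complex.I * ∑ i, ∑ j, _
      rw [Finset.mul_sum]
      refine Finset.sum_congr rfl fun i _ => ?_
      rw [Finset.mul_sum]
      refine Finset.sum_congr rfl fun j _ => ?_
      rw [inner_smul_left, Complex.conj_I]
    rw [eA, eB] at h
    simp only [Complex.mul_im, Complex.I_re, Complex.I_im, Complex.neg_im, Complex.neg_re] at h
    linarith
  have main : ∀ ξ η : Fin n → H, 0 ≤ c * (∑ i, ‖ξ i‖ ^ 2) + c * (∑ i, ‖η i‖ ^ 2) +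
      2 * (A ξ η).re := by
    intro ξ η
    have h := (Complex.nonneg_iff.1 (key ξ η)).1
    simp only [Complex.add_re, Complex.re_ofReal_mul, Complex.ofReal_re] at h
    have h2 := hre ξ η
    linarith
  set ζ : Fin n → H := fun i => ∑ j, E (x i j) (η j) with hζ
  show ∑ i, ‖ζ i‖ ^ 2 ≤ c ^ 2 * ∑ j, ‖η j‖ ^ 2
  set S := ∑ i, ‖ζ i‖ ^ 2 with hS
  set N := ∑ j, ‖η j‖ ^ 2 with hN
  have hS0 : 0 ≤ S := Finset.sum_nonneg fun i _ => sq_nonneg _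
  have hN0 : 0 ≤ N := Finset.sum_nonneg fun i _ => sq_nonneg _
  have hAe : ∀ a b : ℝ, A (fun i => ((-a : ℝ) : ℂ) • ζ i) (fun j => ((b : ℝ) : ℂ) • η j) =
      ((-(a * b * S) : ℝ) : ℂ) := by
    intro a b
    show ∑ i, ∑ j, ⟪((-a : ℝ) : ℂ) • ζ i, E (x i j) (((b : ℝ) : ℂ) • η j)⟫_ℂ = _
    have e1 : ∀ i, ∑ j, ⟪((-a : ℝ) : ℂ) • ζ i, E (x i j) (((b : ℝ) : ℂ) • η j)⟫_ℂ =
        ((-(a * b) * ‖ζ i‖ ^ 2 : ℝ) : ℂ) := by
      intro i
      rw [← inner_sum]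
      have e2 : ∑ j, E (x i j) (((b : ℝ) : ℂ) • η j) = ((b : ℝ) : ℂ) • ζ i := by
        rw [hζ, Finset.smul_sum]
        exact Finset.sum_congr rfl fun j _ => map_smul _ _ _
      rw [e2, inner_smul_left, inner_smul_right, inner_self_eq_norm_sq_to_K, Complex.conj_ofReal]
      have e3 : ((RCLike.ofReal ‖ζ i‖ : ℂ)) = ((‖ζ i‖ : ℝ) : ℂ) := rfl
      rw [e3]
      push_cast
      ring
    rw [Finset.sum_congr rfl fun i _ => e1 i, ← Complex.ofReal_sum, ← Finset.mul_sum]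
    congr 1
    ring
  have hns : ∀ (a : ℝ) (θ : Fin n → H), ∑ i, ‖((a : ℝ) : ℂ) • θ i‖ ^ 2 = a ^ 2 * ∑ i, ‖θ i‖ ^ 2 := by
    intro a θ
    rw [Finset.mul_sum]
    refine Finset.sum_congr rfl fun i _ => ?_
    rw [norm_smul, Complex.norm_real, Real.norm_eq_abs, mul_pow, sq_abs]
  have h := main (fun i => ((-(Real.sqrt N) : ℝ) : ℂ) • ζ i) (fun j => ((Real.sqrt S : ℝ) : ℂ) • η j)
  rw [hAe, hns, hns, Complex.ofReal_re, neg_sq, Real.sq_sqrt hN0, Real.sq_sqrt hS0] at h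
  have hN1 := Real.sq_sqrt hN0
  have hS1 := Real.sq_sqrt hS0
  have hn0 := Real.sqrt_nonneg N
  have hs0 := Real.sqrt_nonneg S
  set a := Real.sqrt N
  set b := Real.sqrt S
  by_cases hS2 : S = 0
  · rw [hS2]; positivity
  have hS3 : 0 < S := lt_of_le_of_ne hS0 (Ne.symm hS2)
  have hb : 0 < b := by
    rcases hs0.eq_or_lt with h5 | h5
    · exfalso; apply hS2; rw [← hS1, ← h5]; simp
    · exact h5
  have ha : 0 < a := by
    rcases hn0.eq_or_lt with h5 | h5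
    · exfalso
      have hN2 : N = 0 := by rw [← hN1, ← h5]; simp
      have hη : ∀ j, η j = 0 := by
        intro j
        have h6 := (Finset.sum_eq_zero_iff_of_nonneg (fun i _ => sq_nonneg ‖η i‖)).1
          (hN.symm.trans hN2) j (Finset.mem_univ j)
        exact norm_eq_zero.1 (pow_eq_zero_iff (two_ne_zero)|>.1 h6)
      apply hS2
      rw [hS]
      refine Finset.sum_eq_zero fun i _ => ?_
      rw [hζ]
      simp [hη]
    · exact h5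
  have h8 : a * b * S ≤ c * N * S := by nlinarith
  have h9 : a * b ≤ c * N := le_of_mul_le_mul_right h8 hS3
  have h10 : b ≤ c * a := by
    have : a * b ≤ a * (c * a) := by nlinarith
    exact le_of_mul_le_mul_left this ha
  calc S = b ^ 2 := hS1.symm
    _ ≤ (c * a) ^ 2 := pow_le_pow_left₀ hb.le h10 2
    _ = c ^ 2 * N := by rw [mul_pow, hN1]

theorem main_cc (M : VonNeumannAlgebra H)
    (h : ∃ P : (H →L[ℂ] H) →L[ℂ] (H →L[ℂ] H), (∀ x, P x ∈ M) ∧ (∀ m ∈ M, P m = m)) :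
    ∃ E : (H →L[ℂ] H) →L[ℂ] (H →L[ℂ] H), ((∀ x, E x ∈ M) ∧ (∀ m ∈ M, E m = m)) ∧
      (∀ (n : ℕ) (X : Fin n → Fin n → (H →L[ℂ] H)), PosMat X → PosMat (fun i j => E (X i j))) ∧
      ∀ (n : ℕ) (x : Fin n → Fin n → (H →L[ℂ] H)) (c : ℝ), 0 ≤ c →
        (∀ η : Fin n → H, ∑ i, ‖∑ j, x i j (η j)‖ ^ 2 ≤ c ^ 2 * ∑ j, ‖η j‖ ^ 2) →
        ∀ η : Fin n → H, ∑ i, ‖∑ j, E (x i j) (η j)‖ ^ 2 ≤ c ^ 2 * ∑ j, ‖η j‖ ^ 2 := by
  obtain ⟨P, hP1, hP2⟩ := h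
  obtain ⟨E, hcp, hM, -, hE⟩ := glob M (fun r hrM hr hr0 =>
    local_theorem' M P ⟨hP1, hP2⟩ r hr hrM hr0)
  have hE1 : E 1 = 1 := hE 1 (one_mem M) (by simp) (by simp)
  have hb : ∀ x, ‖E x‖ ≤ ‖x‖ := cp_contractive E hcp (by
    rw [hE1]; exact ContinuousLinearMap.norm_id_le)
  refine ⟨E.mkContinuous 1 (fun x => by simpa using hb x), ⟨fun x => hM x,
    fun m hm => hE m hm (by simp) (by simp)⟩, fun n X hX => hcp n X hX, ?_⟩
  intro n x c hc hx η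
  exact cp_cc E hcp hE1 n x c hc hx η

end Pool.Agent.Helper67.Inj
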