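import Pool.Agent.Helper67.Inj.Lim

set_option autoImplicit false

open scoped InnerProductSpace ComplexOrder TensorProduct Topology

namespace Pool.Agent.Helper67.Inj

universe u

variable {H : Type u} [NormedAddCommGroup H] [InnerProductSpace ℂ H] [CompleteSpace H]

private theorem pi_proj {v : H →L[ℂ] H} (hv : IsPI v) :
    (star v * v) * (star v * v) = star v * v := by
  have h : v * star v * v = v := hv
  calc (star v * v) * (star v * v) = star v * (v * star v * v) := by simp only [mul_assoc]
    _ = _ := by rw [h]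

/-- key relations for `v ≤ w` -/
private theorem pi_le {v w : H →L[ℂ] H} (hv : IsPI v) (hw : IsPI w)
    (h : w * (star v * v) = v) :
    (star w * w) * (star v * v) = star v * v ∧ (star v * v) * (star w * w) = star v * v := by
  have he := pi_proj hv
  have hf := pi_proj hw
  set e := star v * v with hedef
  set f := star w * w with hfdef
  have hes : star e = e := by rw [hedef, star_mul, star_star]
  have hfs : star f = f := by rw [hfdef, star_mul, star_star]
  have h1 : e * f * e = e := by
    calc e * f * e = star (w * e) * (w * e) := by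
          rw [star_mul, hes, hfdef]; simp only [mul_assoc]
      _ = star v * v := by rw [h]
      _ = e := rfl
  have h2 : star ((1 - f) * e) * ((1 - f) * e) = 0 := by
    rw [star_mul, star_sub, star_one, hes, hfs]
    have : e * (1 - f) * ((1 - f) * e) = e * e - e * f * e - e * f * e + e * (f * f) * e := by
      noncomm_ring
    rw [this, hf, he, h1]
    abel
  have h3 : (1 - f) * e = 0 := (CStarRing.star_mul_self_eq_zero_iff _).1 h2
  have h4 : f * e = e := by
    rw [sub_mul, one_mul, sub_eq_zero] at h3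
    exact h3.symm
  refine ⟨h4, ?_⟩
  have h5 := congrArg star h4
  rwa [star_mul, hes, hfs] at h5

theorem ext_pi (v w : H →L[ℂ] H) (hv : IsPI v) (hw : IsPI w) (h : w * (star v * v) = v) :
    star (w - v) * (w - v) = star w * w - star v * v ∧
    (w - v) * star (w - v) = w * star w - v * star v ∧ IsPI (w - v) ∧
    star v * (w - v) = 0 ∧ (w - v) * star v = 0 := by
  obtain ⟨h1, h2⟩ := pi_le hv hw h
  have hv' : v * star v * v = v := hv
  have hw' : w * star w * w = w := hw
  have hs : star v = star v * v * star w := by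
    have := congrArg star h
    rw [star_mul, star_mul, star_star] at this
    exact this.symm
  have hwv : star w * v = star v * v := by
    calc star w * v = star w * (w * (star v * v)) := by rw [h]
      _ = star v * v := by rw [← mul_assoc, h1]
  have hvw : star v * w = star v * v := by
    calc star v * w = (star v * v * star w) * w := by rw [← hs]
      _ = star v * v := by rw [mul_assoc, h2]
  have hwvs : w * star v = v * star v := by
    calc w * star v = w * (star v * v * star w) := by rw [← hs]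
      _ = (w * (star v * v)) * star w := by simp only [mul_assoc]
      _ = v * star w := by rw [h]
      _ = (v * star v * v) * star w := by rw [hv']
      _ = v * (star v * v * star w) := by simp only [mul_assoc]
      _ = v * star v := by rw [← hs]
  have hvws : v * star w = v * star v := by
    have := congrArg star hwvs
    rwa [star_mul, star_star, star_mul, star_star] at this
  have hA : (w - v) * star (w - v) = w * star w - v * star v := by
    rw [star_sub, sub_mul, mul_sub, mul_sub, hwvs, hvws]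
    abel
  refine ⟨?_, hA, ?_, ?_, ?_⟩
  · rw [star_sub, sub_mul, mul_sub, mul_sub, hwv, hvw]
    abel
  · change (w - v) * star (w - v) * (w - v) = w - v
    rw [hA, sub_mul, mul_sub, mul_sub, hw', hv']
    have e1 : w * star w * v = v := by rw [mul_assoc, hwv, h]
    have e2 : v * star v * w = v := by rw [mul_assoc, hvw, ← mul_assoc, hv']
    rw [e1, e2]
    abel
  · rw [mul_sub, hvw, sub_self]
  · rw [sub_mul, hwvs, sub_self]

private theorem pi_norm_le {v : H →L[ℂ] H} (hv : IsPI v) : ‖v‖ ≤ 1 := by
  have h1 := pi_proj hv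
  have h2 : ‖star v * v‖ = ‖v‖ * ‖v‖ := CStarRing.norm_star_mul_self
  have hes : star (star v * v) = star v * v := by rw [star_mul, star_star]
  have h3 : ‖star v * v‖ * ‖star v * v‖ = ‖star v * v‖ := by
    have : ‖star (star v * v) * (star v * v)‖ = ‖star v * v‖ * ‖star v * v‖ :=
      CStarRing.norm_star_mul_self
    rw [hes, h1] at this
    exact this.symm
  by_contra hcon
  push Not at hcon
  have h4 : 1 < ‖star v * v‖ := by rw [h2]; nlinarith
  nlinarith

private theorem norm_sq_diff {x y : H →L[ℂ] H} (h : star (y - x) * (y - x) =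
    star y * y - star x * x) (ξ : H) : ‖y ξ - x ξ‖ ^ 2 = ‖y ξ‖ ^ 2 - ‖x ξ‖ ^ 2 := by
  have key : ∀ z : H →L[ℂ] H, ((‖z ξ‖ ^ 2 : ℝ) : ℂ) = ⟪ξ, (star z * z) ξ⟫_ℂ := by
    intro z
    have : (star z * z) ξ = (ContinuousLinearMap.adjoint z) (z ξ) := rfl
    rw [this, ContinuousLinearMap.adjoint_inner_right, inner_self_eq_norm_sq_to_K]
    push_cast
    rfl
  have h1 := key (y - x)
  rw [h] at h1
  have h2 : ⟪ξ, (star y * y - star x * x) ξ⟫_ℂ = ⟪ξ, (star y * y) ξ⟫_ℂ - ⟪ξ, (star x * x) ξ⟫_ℂ := by
    rw [← inner_sub_right]; rfl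
  rw [h2, ← key y, ← key x] at h1
  have h3 : (y - x) ξ = y ξ - x ξ := rfl
  rw [h3] at h1
  exact_mod_cast h1

/-- monotone nets converge strongly -/
private theorem strong_conv {ι : Type*} [Preorder ι] [IsDirectedOrder ι] [Nonempty ι]
    (x : ι → (H →L[ℂ] H)) (hx : ∀ i, ‖x i‖ ≤ 1)
    (hmono : ∀ i j, i ≤ j → star (x j - x i) * (x j - x i) = star (x j) * x j - star (x i) * x i)
    (ξ : H) : ∃ y : H, Filter.Tendsto (fun i => x i ξ) Filter.atTop (𝓝 y) := by
  have hb : ∀ i, ‖x i ξ‖ ^ 2 ≤ ‖ξ‖ ^ 2 := by
    intro i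
    apply pow_le_pow_left₀ (norm_nonneg _)
    calc ‖x i ξ‖ ≤ ‖x i‖ * ‖ξ‖ := (x i).le_opNorm ξ
      _ ≤ 1 * ‖ξ‖ := mul_le_mul_of_nonneg_right (hx i) (norm_nonneg _)
      _ = _ := one_mul _
  have hbdd : BddAbove (Set.range fun i => ‖x i ξ‖ ^ 2) := ⟨‖ξ‖ ^ 2, by
    rintro _ ⟨i, rfl⟩; exact hb i⟩
  have hc : CauchySeq (fun i => x i ξ) := by
    have hnb : (Filter.atTop : Filter ι).NeBot := Filter.atTop_neBot
    refine Metric.cauchy_iff.2 ⟨Filter.map_neBot, ?_⟩
    intro ε hε
    set s := ⨆ i, ‖x i ξ‖ ^ 2 with hs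
    obtain ⟨i, hi⟩ : ∃ i, s - (ε / 2) ^ 2 < ‖x i ξ‖ ^ 2 := exists_lt_of_lt_ciSup (by
      have : 0 < (ε / 2) ^ 2 := by positivity
      linarith)
    have key : ∀ j, i ≤ j → ‖x j ξ - x i ξ‖ < ε / 2 := by
      intro j hj
      have h1 := norm_sq_diff (hmono i j hj) ξ
      have h2 : ‖x j ξ‖ ^ 2 ≤ s := le_ciSup hbdd j
      have h3 : ‖x j ξ - x i ξ‖ ^ 2 < (ε / 2) ^ 2 := by rw [h1]; linarith
      exact lt_of_pow_lt_pow_left₀ 2 (by positivity) h3
    refine ⟨(fun i => x i ξ) '' Set.Ici i, Filter.image_mem_map (Filter.Ici_mem_atTop i), ?_⟩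
    rintro _ ⟨j, hj, rfl⟩ _ ⟨k, hk, rfl⟩
    rw [dist_eq_norm]
    have h1 := key j hj
    have h2 := key k hk
    have h3 : x j ξ - x k ξ = (x j ξ - x i ξ) - (x k ξ - x i ξ) := by abel
    calc ‖x j ξ - x k ξ‖ = ‖(x j ξ - x i ξ) - (x k ξ - x i ξ)‖ := by rw [← h3]
      _ ≤ ‖x j ξ - x i ξ‖ + ‖x k ξ - x i ξ‖ := norm_sub_le _ _
      _ < ε := by linarith
  exact cauchySeq_tendsto_of_complete hc

/-- index type of a chain of partial isometries (own order) -/
private structure CIdx (c : Set (H →L[ℂ] H)) where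
  val : H →L[ℂ] H
  property : val ∈ c

/-- CHAIN -/
theorem chain_sup (M : VonNeumannAlgebra H) (c : Set (H →L[ℂ] H)) (hne : c.Nonempty)
    (hM : ∀ v ∈ c, v ∈ M ∧ IsPI v)
    (hc : ∀ v ∈ c, ∀ w ∈ c, w * (star v * v) = v ∨ v * (star w * w) = w) :
    ∃ V ∈ M, IsPI V ∧ (∀ v ∈ c, V * (star v * v) = v) ∧
      ∀ ξ η : H, ∀ ε > 0, ∃ v ∈ c, ‖V ξ - v ξ‖ < ε ∧ ‖star V η - star v η‖ < ε := by
  let P : Preorder (CIdx c) :=
    { le := fun v w => w.val * (star v.val * v.val) = v.val
      lt := fun v w => w.val * (star v.val * v.val) = v.val ∧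
        ¬ (v.val * (star w.val * w.val) = w.val)
      lt_iff_le_not_ge := fun _ _ => Iff.rfl
      le_refl := by
        intro v
        have h : v.val * star v.val * v.val = v.val := (hM v.val v.property).2
        change v.val * (star v.val * v.val) = v.val
        rw [← mul_assoc, h]
      le_trans := by
        intro u v w huv hvw
        change v.val * (star u.val * u.val) = u.val at huv
        change w.val * (star v.val * v.val) = v.val at hvw
        obtain ⟨h1, -⟩ := pi_le (hM u.val u.property).2 (hM v.val v.property).2 huv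
        calc w.val * (star u.val * u.val)
            = w.val * ((star v.val * v.val) * (star u.val * u.val)) := by rw [h1]
          _ = (w.val * (star v.val * v.val)) * (star u.val * u.val) := by
              simp only [mul_assoc]
          _ = u.val := by rw [hvw, huv] }
  have hne' : Nonempty (CIdx c) := by
    obtain ⟨v, hv⟩ := hne
    exact ⟨⟨v, hv⟩⟩
  have hdir : IsDirectedOrder (CIdx c) := by
    refine ⟨fun v w => ?_⟩
    rcases hc v.val v.property w.val w.property with h | h
    · exact ⟨w, h, P.le_refl w⟩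
    · exact ⟨v, P.le_refl v, h⟩
  let x : CIdx c → (H →L[ℂ] H) := fun v => v.val
  have hx1 : ∀ i, ‖x i‖ ≤ 1 := fun i => pi_norm_le (hM i.val i.property).2
  have hxs1 : ∀ i, ‖star (x i)‖ ≤ 1 := fun i => by rw [norm_star]; exact hx1 i
  have hle : ∀ i j : CIdx c, i ≤ j → x j * (star (x i) * x i) = x i := fun i j h => h
  have hmono : ∀ i j : CIdx c, i ≤ j →
      star (x j - x i) * (x j - x i) = star (x j) * x j - star (x i) * x i := fun i j h =>
    (ext_pi (x i) (x j) (hM i.val i.property).2 (hM j.val j.property).2 (hle i j h)).1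
  have hmono' : ∀ i j : CIdx c, i ≤ j →
      star (star (x j) - star (x i)) * (star (x j) - star (x i)) =
        star (star (x j)) * star (x j) - star (star (x i)) * star (x i) := by
    intro i j h
    have := (ext_pi (x i) (x j) (hM i.val i.property).2 (hM j.val j.property).2 (hle i j h)).2.1
    rw [← star_sub, star_star, star_star, star_star, this]
  -- the ultrafilter and the weak limit
  let U : Ultrafilter (CIdx c) := Ultrafilter.of Filter.atTop
  have hU : (U : Filter (CIdx c)) ≤ Filter.atTop := Ultrafilter.of_le _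
  obtain ⟨V, hV1, hV⟩ := exists_wot_limit U x 1 hx1
  have hVM : V ∈ M := mem_of_wot_limit U M x V (fun i => (hM i.val i.property).1) hV
  have hstr : ∀ ξ, Filter.Tendsto (fun i => x i ξ) Filter.atTop (𝓝 (V ξ)) := by
    intro ξ
    obtain ⟨y, hy⟩ := strong_conv x hx1 hmono ξ
    have : y = V ξ := by
      refine ext_inner_left ℂ fun η => ?_
      have h1 : Filter.Tendsto (fun i => ⟪η, x i ξ⟫_ℂ) U (𝓝 ⟪η, y⟫_ℂ) :=
        Filter.Tendsto.inner (𝕜 := ℂ) tendsto_const_nhds (hy.mono_left hU)
      exact tendsto_nhds_unique h1 (hV η ξ)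
    rw [← this]; exact hy
  have hstr' : ∀ ξ, Filter.Tendsto (fun i => star (x i) ξ) Filter.atTop (𝓝 (star V ξ)) := by
    intro ξ
    obtain ⟨y, hy⟩ := strong_conv (fun i => star (x i)) hxs1 hmono' ξ
    have : y = star V ξ := by
      refine ext_inner_left ℂ fun η => ?_
      have h1 : Filter.Tendsto (fun i => ⟪η, star (x i) ξ⟫_ℂ) Filter.atTop (𝓝 ⟪η, y⟫_ℂ) :=
        Filter.Tendsto.inner (𝕜 := ℂ) tendsto_const_nhds hy
      have h2 : Filter.Tendsto (fun i => ⟪x i η, ξ⟫_ℂ) Filter.atTop (𝓝 ⟪V η, ξ⟫_ℂ) :=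
        Filter.Tendsto.inner (𝕜 := ℂ) (hstr η) tendsto_const_nhds
      have h3 : (fun i => ⟪η, star (x i) ξ⟫_ℂ) = fun i => ⟪x i η, ξ⟫_ℂ := by
        funext i
        rw [ContinuousLinearMap.star_eq_adjoint, ContinuousLinearMap.adjoint_inner_right]
      rw [h3] at h1
      rw [tendsto_nhds_unique h1 h2, ContinuousLinearMap.star_eq_adjoint,
        ContinuousLinearMap.adjoint_inner_right]
    rw [← this]; exact hy
  -- relations
  have hVv : ∀ i : CIdx c, V * (star (x i) * x i) = x i := by
    intro i
    ext ξ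
    have h1 := hstr ((star (x i) * x i) ξ)
    have h2 : Filter.Tendsto (fun j => x j ((star (x i) * x i) ξ)) Filter.atTop (𝓝 (x i ξ)) := by
      refine tendsto_const_nhds.congr' ?_
      filter_upwards [Filter.eventually_ge_atTop i] with j hj
      have := hle i j hj
      calc x i ξ = (x j * (star (x i) * x i)) ξ := by rw [this]
        _ = _ := rfl
    exact tendsto_nhds_unique h1 h2
  have hvV : ∀ i : CIdx c, star (x i) * V = star (x i) * x i := by
    intro i
    ext ξ
    have h1 : Filter.Tendsto (fun j => star (x i) (x j ξ)) Filter.atTop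
        (𝓝 (star (x i) (V ξ))) := ((star (x i)).continuous.tendsto _).comp (hstr ξ)
    have h2 : Filter.Tendsto (fun j => star (x i) (x j ξ)) Filter.atTop
        (𝓝 (star (x i) (x i ξ))) := by
      refine tendsto_const_nhds.congr' ?_
      filter_upwards [Filter.eventually_ge_atTop i] with j hj
      have h3 := (ext_pi (x i) (x j) (hM i.val i.property).2 (hM j.val j.property).2 (hle i j hj)).2.2.2.1
      rw [mul_sub, sub_eq_zero] at h3
      calc star (x i) (x i ξ) = (star (x i) * x i) ξ := rfl
        _ = (star (x i) * x j) ξ := by rw [h3]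
        _ = _ := rfl
    exact tendsto_nhds_unique h1 h2
  refine ⟨V, hVM, ?_, fun v hv => hVv ⟨v, hv⟩, ?_⟩
  · change V * star V * V = V
    ext ξ
    have h1 : Filter.Tendsto (fun i => V (star (x i) (V ξ))) Filter.atTop
        (𝓝 (V (star V (V ξ)))) := (V.continuous.tendsto _).comp (hstr' (V ξ))
    have h2 : (fun i => V (star (x i) (V ξ))) = fun i => x i ξ := by
      funext i
      have hpi : x i * star (x i) * x i = x i := (hM i.val i.property).2
      have e1 : V * (star (x i) * V) = x i := by
        calc V * (star (x i) * V) = V * (star (x i) * x i) := by rw [hvV]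
          _ = x i := hVv i
      calc V (star (x i) (V ξ)) = (V * (star (x i) * V)) ξ := rfl
        _ = x i ξ := by rw [e1]
    rw [h2] at h1
    exact tendsto_nhds_unique h1 (hstr ξ)
  · intro ξ η ε hε
    have h1 := (hstr ξ).eventually (Metric.ball_mem_nhds (V ξ) hε)
    have h2 := (hstr' η).eventually (Metric.ball_mem_nhds (star V η) hε)
    obtain ⟨i, hi1, hi2⟩ := (h1.and h2).exists
    refine ⟨x i, i.property, ?_, ?_⟩
    · rw [← dist_eq_norm, dist_comm]; exact hi1
    · rw [← dist_eq_norm, dist_comm]; exact hi2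

end Pool.Agent.Helper67.Inj
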