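import Pool.Agent.Helper67.Inj.Defs

set_option autoImplicit false

open scoped InnerProductSpace ComplexOrder TensorProduct Topology

namespace Pool.Agent.Helper67.Inj

universe u

variable {H : Type u} [NormedAddCommGroup H] [InnerProductSpace ℂ H] [CompleteSpace H]

/-- CONJ -/
theorem exists_conj : ∃ C : H ≃ₗᵢ⋆[ℂ] H, ∀ ξ, C (C ξ) = ξ := by
  obtain ⟨w, b, -⟩ := exists_hilbertBasis ℂ H
  let e : H ≃ₗᵢ[ℂ] lp (fun _ : w => ℂ) 2 := b.repr
  let s : lp (fun _ : w => ℂ) 2 ≃ₗᵢ⋆[ℂ] lp (fun _ : w => ℂ) 2 := starₗᵢ ℂ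
  refine ⟨(e.trans s).trans e.symm, fun ξ => ?_⟩
  simp only [LinearIsometryEquiv.trans_apply, LinearIsometryEquiv.apply_symm_apply]
  have h : s (s (e ξ)) = e ξ := by
    simp only [s, starₗᵢ_apply, star_star]
  rw [h, LinearIsometryEquiv.symm_apply_apply]

end Pool.Agent.Helper67.Inj
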