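import Pool.Agent.Helper67.Inj.Lim

set_option autoImplicit false

open scoped InnerProductSpace ComplexOrder TensorProduct Topology

namespace Pool.Agent.Helper67.Inj

universe u

variable {H : Type u} [NormedAddCommGroup H] [InnerProductSpace ℂ H] [CompleteSpace H]

section lemmas

set_option linter.unusedSectionVars false

variable (S : Submodule ℂ H) [CompleteSpace S]

private theorem c_ext_apply (z : S →L[ℂ] S) (ξ : H) :
    ext S z ξ = ((z (S.orthogonalProjectionOnto ξ) : S) : H) := rfl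

private theorem c_cmp_apply (x : H →L[ℂ] H) (ξ : S) :
    cmp S x ξ = S.orthogonalProjectionOnto (x (ξ : H)) := rfl

private theorem c_ext_mul (z w : S →L[ℂ] S) : ext S (z * w) = ext S z * ext S w := by
  apply ContinuousLinearMap.ext
  intro ξ
  simp only [c_ext_apply, mul_apply_eq_comp]
  rw [Submodule.orthogonalProjectionOnto_mem_subspace_eq_self]

private theorem c_ext_one : ext S (1 : S →L[ℂ] S) = S.starProjection := by
  apply ContinuousLinearMap.ext
  intro ξ
  simp [c_ext_apply]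

private theorem c_inner_left (s : S) (ξ : H) : ⟪(s : H), ξ⟫_ℂ = ⟪s, S.orthogonalProjectionOnto ξ⟫_ℂ := by
  simp

private theorem c_inner_right (s : S) (ξ : H) : ⟪ξ, (s : H)⟫_ℂ = ⟪S.orthogonalProjectionOnto ξ, s⟫_ℂ := by
  simp

private theorem c_ext_star (z : S →L[ℂ] S) : ext S (star z) = star (ext S z) := by
  rw [ContinuousLinearMap.star_eq_adjoint, ContinuousLinearMap.star_eq_adjoint,
    ContinuousLinearMap.eq_adjoint_iff]
  intro ξ η
  rw [c_ext_apply, c_ext_apply, c_inner_left, c_inner_right, ContinuousLinearMap.adjoint_inner_left]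

private theorem c_cmp_ext (z : S →L[ℂ] S) : cmp S (ext S z) = z := by
  apply ContinuousLinearMap.ext
  intro ξ
  rw [c_cmp_apply, c_ext_apply, Submodule.orthogonalProjectionOnto_mem_subspace_eq_self,
    Submodule.orthogonalProjectionOnto_mem_subspace_eq_self]

private theorem c_ext_cmp (x : H →L[ℂ] H) :
    ext S (cmp S x) = S.starProjection * x * S.starProjection := by
  apply ContinuousLinearMap.ext
  intro ξ
  simp only [c_ext_apply, c_cmp_apply, mul_apply_eq_comp]
  rfl

private theorem c_p_ext (z : S →L[ℂ] S) : S.starProjection * ext S z = ext S z := by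
  rw [← c_ext_one, ← c_ext_mul, one_mul]

private theorem c_ext_p (z : S →L[ℂ] S) : ext S z * S.starProjection = ext S z := by
  rw [← c_ext_one, ← c_ext_mul, mul_one]

private theorem c_cmp_posMat {ι : Type*} [Fintype ι] (X : ι → ι → (H →L[ℂ] H)) (hX : PosMat X) :
    PosMat (fun i j => cmp S (X i j)) := by
  intro ξ
  have := hX (fun i => (ξ i : H))
  convert this using 3 with i _ j _
  rw [c_cmp_apply, ← c_inner_left]

private theorem c_ext_posMat {ι : Type*} [Fintype ι] (X : ι → ι → (S →L[ℂ] S)) (hX : PosMat X) :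
    PosMat (fun i j => ext S (X i j)) := by
  intro ξ
  have := hX (fun i => S.orthogonalProjectionOnto (ξ i))
  convert this using 3 with i _ j _
  rw [c_ext_apply, c_inner_right]

private theorem c_norm_ext (z : S →L[ℂ] S) : ‖ext S z‖ ≤ ‖z‖ := by
  refine ContinuousLinearMap.opNorm_le_bound (ext S z) (norm_nonneg z) ?_
  intro ξ
  rw [c_ext_apply]
  calc ‖((z (S.orthogonalProjectionOnto ξ) : S) : H)‖ = ‖z (S.orthogonalProjectionOnto ξ)‖ := rfl
    _ ≤ ‖z‖ * ‖S.orthogonalProjectionOnto ξ‖ := z.le_opNorm _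
    _ ≤ ‖z‖ * ‖ξ‖ := by
      gcongr
      exact Submodule.norm_orthogonalProjectionOnto_apply_le S ξ

private theorem c_norm_cmp (x : H →L[ℂ] H) : ‖cmp S x‖ ≤ ‖x‖ := by
  refine ContinuousLinearMap.opNorm_le_bound (cmp S x) (norm_nonneg x) ?_
  intro ξ
  rw [c_cmp_apply]
  calc ‖S.orthogonalProjectionOnto (x (ξ : H))‖ ≤ ‖x (ξ : H)‖ :=
      Submodule.norm_orthogonalProjectionOnto_apply_le S _
    _ ≤ ‖x‖ * ‖(ξ : H)‖ := x.le_opNorm _

end lemmas

private theorem c_smul_mem (M : VonNeumannAlgebra H) (c : ℂ) {x : H →L[ℂ] H} (hx : x ∈ M) :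
    c • x ∈ M :=
  M.toStarSubalgebra.smul_mem hx c

private theorem c_mem_of_comm (M : VonNeumannAlgebra H) (x : H →L[ℂ] H)
    (h : ∀ b ∈ M.commutant, b * x = x * b) : x ∈ M := by
  rw [← M.commutant_commutant]
  exact VonNeumannAlgebra.mem_commutant_iff.2 h

/-- CORNER -/
theorem exists_corner (M : VonNeumannAlgebra H) (S : Submodule ℂ H) [CompleteSpace S]
    (hS : S.starProjection ∈ M) :
    ∃ N : VonNeumannAlgebra S, ∀ z : S →L[ℂ] S, z ∈ N ↔ ext S z ∈ M := by
  let A : StarSubalgebra ℂ (S →L[ℂ] S) :=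
    { carrier := {z | ext S z ∈ M}
      mul_mem' := by
        intro a b ha hb
        simp only [Set.mem_ofPred_eq] at *
        rw [c_ext_mul]
        exact mul_mem ha hb
      add_mem' := by
        intro a b ha hb
        simp only [Set.mem_ofPred_eq] at *
        rw [map_add]
        exact add_mem ha hb
      algebraMap_mem' := by
        intro r
        simp only [Set.mem_ofPred_eq]
        rw [Algebra.algebraMap_eq_smul_one, map_smul, c_ext_one]
        exact c_smul_mem M r hS
      star_mem' := by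
        intro a ha
        simp only [Set.mem_ofPred_eq] at *
        rw [c_ext_star]
        exact star_mem ha }
  have hA : ∀ z : S →L[ℂ] S, z ∈ A ↔ ext S z ∈ M := fun z => Iff.rfl
  have key : Set.centralizer (Set.centralizer (A.carrier)) = A.carrier := by
    apply Set.Subset.antisymm _ Set.subset_centralizer_centralizer
    intro z hz
    show ext S z ∈ M
    apply c_mem_of_comm
    intro b hb
    have hpb : S.starProjection * b = b * S.starProjection :=
      VonNeumannAlgebra.mem_commutant_iff.1 hb _ hS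
    have hcb : cmp S b ∈ Set.centralizer A.carrier := by
      rw [Set.mem_centralizer_iff]
      intro w hw
      have hw' : ext S w ∈ M := hw
      have h1 : ext S w * b = b * ext S w := VonNeumannAlgebra.mem_commutant_iff.1 hb _ hw'
      rw [← c_cmp_ext S (w * cmp S b), ← c_cmp_ext S (cmp S b * w), c_ext_mul, c_ext_mul, c_ext_cmp]
      congr 1
      rw [← mul_assoc, ← mul_assoc, c_ext_p, h1, mul_assoc, c_ext_p, mul_assoc, c_p_ext, hpb,
        mul_assoc, c_p_ext]
    have h2 : cmp S b * z = z * cmp S b := (Set.mem_centralizer_iff.1 hz) _ hcb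
    have h3 : ext S (cmp S b * z) = ext S (z * cmp S b) := by rw [h2]
    rw [c_ext_mul, c_ext_mul, c_ext_cmp] at h3
    have h4 : S.starProjection * b * S.starProjection * ext S z = b * ext S z := by
      rw [hpb, mul_assoc, mul_assoc, c_p_ext, c_p_ext]
    have h5 : ext S z * (S.starProjection * b * S.starProjection) = ext S z * b := by
      rw [mul_assoc, ← hpb, ← mul_assoc, ← mul_assoc, c_ext_p, c_ext_p]
    rw [h4, h5] at h3
    exact h3
  exact ⟨⟨A, key⟩, fun z => Iff.rfl⟩

/-- transfer of injectivity from the corner -/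
theorem injAt_of_corner (M : VonNeumannAlgebra H) (S : Submodule ℂ H) [CompleteSpace S]
    (hS : S.starProjection ∈ M) (N : VonNeumannAlgebra S)
    (hN : ∀ z : S →L[ℂ] S, z ∈ N ↔ ext S z ∈ M) (q : S →L[ℂ] S) (hq : IsStarProjection q)
    (hqN : q ∈ N) (h : InjAt N q) : InjAt M (ext S q) := by
  obtain ⟨E, hcp, hmem, hqE, hid⟩ := h
  refine ⟨(ext S) ∘ₗ E ∘ₗ (cmp S), ?_, ?_, ?_, ?_⟩
  · intro n X hX
    exact c_ext_posMat S _ (hcp n _ (c_cmp_posMat S X hX))
  · intro x
    exact (hN _).1 (hmem _)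
  · intro x
    simp only [LinearMap.comp_apply]
    rw [← c_ext_mul, ← c_ext_mul, (hqE _).1, (hqE _).2]
    exact ⟨rfl, rfl⟩
  · intro m hm h1 h2
    have hmc : ext S (cmp S m) = m := by
      have h3 : S.starProjection * m = m := by rw [← h1, ← mul_assoc, c_p_ext]
      have h4 : m * S.starProjection = m := by rw [← h2, mul_assoc, c_ext_p]
      rw [c_ext_cmp, h3, h4]
    simp only [LinearMap.comp_apply]
    have h5 : E (cmp S m) = cmp S m := by
      apply hid
      · rw [hN, hmc]; exact hm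
      · rw [← c_cmp_ext S (q * cmp S m), c_ext_mul, hmc, h1]
      · rw [← c_cmp_ext S (cmp S m * q), c_ext_mul, hmc, h2]
    rw [h5, hmc]

theorem bproj_corner (M : VonNeumannAlgebra H) (P : (H →L[ℂ] H) →L[ℂ] (H →L[ℂ] H))
    (hP : IsBProj M P) (S : Submodule ℂ H) [CompleteSpace S]
    (hS : S.starProjection ∈ M) (N : VonNeumannAlgebra S)
    (hN : ∀ z : S →L[ℂ] S, z ∈ N ↔ ext S z ∈ M) :
    ∃ P' : (S →L[ℂ] S) →L[ℂ] (S →L[ℂ] S), IsBProj N P' := by
  let P0 : (S →L[ℂ] S) →ₗ[ℂ] (S →L[ℂ] S) := (cmp S) ∘ₗ P.toLinearMap ∘ₗ (ext S)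
  have hb : ∀ z : S →L[ℂ] S, ‖P0 z‖ ≤ ‖P‖ * ‖z‖ := by
    intro z
    show ‖cmp S (P (ext S z))‖ ≤ ‖P‖ * ‖z‖
    calc ‖cmp S (P (ext S z))‖ ≤ ‖P (ext S z)‖ := c_norm_cmp S _
      _ ≤ ‖P‖ * ‖ext S z‖ := P.le_opNorm _
      _ ≤ ‖P‖ * ‖z‖ := by
        gcongr
        exact c_norm_ext S z
  refine ⟨⟨P0, AddMonoidHomClass.continuous_of_bound P0 ‖P‖ hb⟩, ?_, ?_⟩
  · intro z
    show cmp S (P (ext S z)) ∈ N
    rw [hN, c_ext_cmp]
    exact mul_mem (mul_mem hS (hP.mem _)) hS
  · intro z hz
    show cmp S (P (ext S z)) = z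
    rw [hP.id _ ((hN z).1 hz), c_cmp_ext]

end Pool.Agent.Helper67.Inj
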