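import Pool.Agent.Helper67.Inj.Defs

set_option autoImplicit false

open scoped InnerProductSpace ComplexOrder TensorProduct Topology

namespace Pool.Agent.Helper67.Inj

universe u

variable {H : Type u} [NormedAddCommGroup H] [InnerProductSpace ℂ H] [CompleteSpace H]

theorem lim_aux_exists {ι : Type*} (U : Ultrafilter ι) (x : ι → (H →L[ℂ] H)) (C : ℝ)
    (hC : ∀ i, ‖x i‖ ≤ C) (v w : H) :
    ∃ z : ℂ, ‖z‖ ≤ C * ‖v‖ * ‖w‖ ∧ Filter.Tendsto (fun i => ⟪x i v, w⟫_ℂ) U (𝓝 z) := by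
  have hb : ∀ i, ‖⟪x i v, w⟫_ℂ‖ ≤ C * ‖v‖ * ‖w‖ := by
    intro i
    refine (norm_inner_le_norm _ _).trans ?_
    have h1 := (x i).le_opNorm v
    have h2 : ‖x i v‖ ≤ C * ‖v‖ := h1.trans (mul_le_mul_of_nonneg_right (hC i) (norm_nonneg _))
    exact mul_le_mul_of_nonneg_right h2 (norm_nonneg _)
  obtain ⟨z, hz, hzU⟩ := (isCompact_closedBall (0 : ℂ) (C * ‖v‖ * ‖w‖)).ultrafilter_le_nhds'
    (U.map (fun i => ⟪x i v, w⟫_ℂ)) (by
      rw [Ultrafilter.mem_map]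
      exact Filter.univ_mem' (fun i => by simpa using hb i))
  refine ⟨z, by simpa using hz, ?_⟩
  exact hzU

/-- LIM-A -/
theorem exists_wot_limit {ι : Type*} (U : Ultrafilter ι) (x : ι → (H →L[ℂ] H)) (C : ℝ)
    (hC : ∀ i, ‖x i‖ ≤ C) :
    ∃ y : H →L[ℂ] H, ‖y‖ ≤ C ∧
      ∀ ξ η, Filter.Tendsto (fun i => ⟪ξ, x i η⟫_ℂ) U (𝓝 ⟪ξ, y η⟫_ℂ) := by
  have hC0 : 0 ≤ C := by
    obtain ⟨i⟩ : Nonempty ι := (Filter.NeBot.nonempty (U : Filter ι))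
    exact (norm_nonneg _).trans (hC i)
  choose B hBn hB using lim_aux_exists U x C hC
  let L : H →ₗ⋆[ℂ] H →ₗ[ℂ] ℂ := LinearMap.mk₂'ₛₗ (starRingEnd ℂ) (RingHom.id ℂ) B
    (by
      intro v v' w
      refine tendsto_nhds_unique (hB (v + v') w) ?_
      refine ((hB v w).add (hB v' w)).congr ?_
      intro i
      simp [inner_add_left])
    (by
      intro c v w
      refine tendsto_nhds_unique (hB (c • v) w) ?_
      refine ((hB v w).const_mul ((starRingEnd ℂ) c)).congr ?_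
      intro i
      simp [inner_smul_left, mul_comm])
    (by
      intro v w w'
      refine tendsto_nhds_unique (hB v (w + w')) ?_
      refine ((hB v w).add (hB v w')).congr ?_
      intro i
      simp [inner_add_right])
    (by
      intro c v w
      refine tendsto_nhds_unique (hB v (c • w)) ?_
      refine ((hB v w).const_mul c).congr ?_
      intro i
      simp [inner_smul_right])
  let L' : H →L⋆[ℂ] H →L[ℂ] ℂ := L.mkContinuous₂ C (by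
    intro v w
    exact hBn v w)
  let y : H →L[ℂ] H := InnerProductSpace.continuousLinearMapOfBilin L'
  have hy : ∀ v w, ⟪y v, w⟫_ℂ = B v w := by
    intro v w
    exact InnerProductSpace.continuousLinearMapOfBilin_apply L' v w
  refine ⟨y, ?_, ?_⟩
  · refine ContinuousLinearMap.opNorm_le_bound _ hC0 (fun v => ?_)
    by_cases h0 : ‖y v‖ = 0
    · rw [h0]
      positivity
    · have h1 : ‖y v‖ * ‖y v‖ ≤ C * ‖v‖ * ‖y v‖ := by
        have h2 := hBn v (y v)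
        rw [← hy] at h2
        have h3 : ‖⟪y v, y v⟫_ℂ‖ = ‖y v‖ * ‖y v‖ := by
          rw [inner_self_eq_norm_sq_to_K]
          simp [sq]
        rwa [h3] at h2
      exact le_of_mul_le_mul_right h1 (lt_of_le_of_ne (norm_nonneg _) (Ne.symm h0))
  · intro ξ η
    have h1 := (Complex.continuous_conj.tendsto _).comp (hB η ξ)
    rw [← hy] at h1
    have e : (starRingEnd ℂ) ⟪y η, ξ⟫_ℂ = ⟪ξ, y η⟫_ℂ := inner_conj_symm _ _
    rw [e] at h1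
    refine h1.congr ?_
    intro i
    exact inner_conj_symm _ _

/-- LIM-B -/
theorem mem_of_wot_limit {ι : Type*} (U : Ultrafilter ι) (M : VonNeumannAlgebra H)
    (x : ι → (H →L[ℂ] H)) (y : H →L[ℂ] H) (hx : ∀ i, x i ∈ M)
    (h : ∀ ξ η, Filter.Tendsto (fun i => ⟪ξ, x i η⟫_ℂ) U (𝓝 ⟪ξ, y η⟫_ℂ)) : y ∈ M := by
  rw [← M.commutant_commutant, VonNeumannAlgebra.mem_commutant_iff]
  intro b hb
  rw [VonNeumannAlgebra.mem_commutant_iff] at hb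
  ext η
  refine ext_inner_left ℂ (fun ξ => ?_)
  show ⟪ξ, b (y η)⟫_ℂ = ⟪ξ, y (b η)⟫_ℂ
  have h1 : ⟪ξ, b (y η)⟫_ℂ = ⟪star b ξ, y η⟫_ℂ := by
    rw [ContinuousLinearMap.star_eq_adjoint, ContinuousLinearMap.adjoint_inner_left]
  rw [h1]
  refine tendsto_nhds_unique ((h (star b ξ) η).congr ?_) (h ξ (b η))
  intro i
  rw [ContinuousLinearMap.star_eq_adjoint, ContinuousLinearMap.adjoint_inner_left]
  have := congrArg (fun T : H →L[ℂ] H => T η) (hb (x i) (hx i))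
  simp only [ContinuousLinearMap.mul_apply] at this
  rw [this]

/-- reindexing for complete positivity -/
theorem IsCP.fintype {E : (H →L[ℂ] H) →ₗ[ℂ] (H →L[ℂ] H)} (hE : IsCP E) {ι : Type*} [Fintype ι]
    (X : ι → ι → (H →L[ℂ] H)) (hX : PosMat X) : PosMat (fun i j => E (X i j)) := by
  have e := Fintype.equivFin ι
  have h1 : PosMat (fun i j : Fin (Fintype.card ι) => X (e.symm i) (e.symm j)) := by
    intro ξ
    have h2 := hX (fun i => ξ (e i))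
    rw [← Equiv.sum_comp e.symm] at h2
    refine h2.trans_eq ?_
    refine Finset.sum_congr rfl fun i _ => ?_
    rw [← Equiv.sum_comp e.symm]
    simp
  intro ξ
  have h3 := hE _ _ h1 (fun i => ξ (e.symm i))
  rw [← Equiv.sum_comp e.symm]
  refine h3.trans_eq ?_
  refine Finset.sum_congr rfl fun i _ => ?_
  rw [← Equiv.sum_comp e.symm]

/-- LIM-C : limits of linear maps -/
theorem exists_map_limit {ι : Type*} (U : Ultrafilter ι)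
    (E : ι → ((H →L[ℂ] H) →ₗ[ℂ] (H →L[ℂ] H))) (C : ℝ) (hC : ∀ i x, ‖E i x‖ ≤ C * ‖x‖) :
    ∃ F : (H →L[ℂ] H) →ₗ[ℂ] (H →L[ℂ] H), (∀ x, ‖F x‖ ≤ C * ‖x‖) ∧
      (∀ x ξ η, Filter.Tendsto (fun i => ⟪ξ, E i x η⟫_ℂ) U (𝓝 ⟪ξ, F x η⟫_ℂ)) ∧
      ((∀ i, IsCP (E i)) → IsCP F) := by
  choose F hFn hF using fun x => exists_wot_limit U (fun i => E i x) (C * ‖x‖)
    (fun i => hC i x)
  have hadd : ∀ x y, F (x + y) = F x + F y := by
    intro x y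
    ext η
    refine ext_inner_left ℂ (fun ξ => ?_)
    refine tendsto_nhds_unique (hF (x + y) ξ η) ?_
    have := (hF x ξ η).add (hF y ξ η)
    rw [ContinuousLinearMap.add_apply, inner_add_right]
    refine this.congr ?_
    intro i
    simp [inner_add_right]
  have hsmul : ∀ (c : ℂ) x, F (c • x) = c • F x := by
    intro c x
    ext η
    refine ext_inner_left ℂ (fun ξ => ?_)
    refine tendsto_nhds_unique (hF (c • x) ξ η) ?_
    have := (hF x ξ η).const_mul c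
    rw [ContinuousLinearMap.smul_apply, inner_smul_right]
    refine this.congr ?_
    intro i
    simp [inner_smul_right]
  refine ⟨{ toFun := F, map_add' := hadd, map_smul' := hsmul }, hFn, hF, ?_⟩
  intro hcp n X hX ξ
  have h1 : Filter.Tendsto (fun i => ∑ a, ∑ b, ⟪ξ a, E i (X a b) (ξ b)⟫_ℂ) U
      (𝓝 (∑ a, ∑ b, ⟪ξ a, F (X a b) (ξ b)⟫_ℂ)) :=
    tendsto_finset_sum _ fun a _ => tendsto_finset_sum _ fun b _ => hF (X a b) (ξ a) (ξ b)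
  exact ge_of_tendsto' h1 (fun i => hcp i n X hX ξ)

/-- CPC : cp maps with `E 1 ≤ 1`-type bound are contractive -/
theorem cp_contractive (E : (H →L[ℂ] H) →ₗ[ℂ] (H →L[ℂ] H)) (hE : IsCP E) (h1 : ‖E 1‖ ≤ 1)
    (x : H →L[ℂ] H) : ‖E x‖ ≤ ‖x‖ := by
  -- positivity of `E 1`
  have hp1 : ∀ ξ : H, 0 ≤ ⟪ξ, E 1 ξ⟫_ℂ := by
    intro ξ
    have h := hE 1 (fun _ _ => (1 : H →L[ℂ] H)) (by
      intro ζ
      simp only [Fin.sum_univ_one, ContinuousLinearMap.one_apply]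
      have e0 : ⟪ζ 0, ζ 0⟫_ℂ = ((‖ζ 0‖ ^ 2 : ℝ) : ℂ) := by
        rw [inner_self_eq_norm_sq_to_K]; push_cast; rfl
      rw [e0]
      exact_mod_cast sq_nonneg ‖ζ 0‖) (fun _ => ξ)
    simpa using h
  have hp2 : ∀ ξ : H, (⟪ξ, E 1 ξ⟫_ℂ).re ≤ ‖ξ‖ ^ 2 := by
    intro ξ
    calc (⟪ξ, E 1 ξ⟫_ℂ).re ≤ ‖⟪ξ, E 1 ξ⟫_ℂ‖ := Complex.re_le_norm _
      _ ≤ ‖ξ‖ * ‖E 1 ξ‖ := norm_inner_le_norm _ _
      _ ≤ ‖ξ‖ * (1 * ‖ξ‖) := by
          refine mul_le_mul_of_nonneg_left ?_ (norm_nonneg _)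
          exact ((E 1).le_opNorm ξ).trans (mul_le_mul_of_nonneg_right h1 (norm_nonneg _))
      _ = ‖ξ‖ ^ 2 := by ring
  -- the 2x2 matrix
  let X : Fin 2 → Fin 2 → (H →L[ℂ] H) :=
    ![![((‖x‖ : ℝ) : ℂ) • 1, x], ![star x, ((‖x‖ : ℝ) : ℂ) • 1]]
  have hXpos : PosMat X := by
    intro ξ
    have e : (∑ i, ∑ j, ⟪ξ i, X i j (ξ j)⟫_ℂ) =
        ((‖x‖ * (‖ξ 0‖ ^ 2 + ‖ξ 1‖ ^ 2) + 2 * (⟪ξ 0, x (ξ 1)⟫_ℂ).re : ℝ) : ℂ) := by
      have hc : ⟪ξ 1, star x (ξ 0)⟫_ℂ = (starRingEnd ℂ) ⟪ξ 0, x (ξ 1)⟫_ℂ := by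
        rw [ContinuousLinearMap.star_eq_adjoint, ContinuousLinearMap.adjoint_inner_right,
          inner_conj_symm]
      have hr : ⟪ξ 0, x (ξ 1)⟫_ℂ + (starRingEnd ℂ) ⟪ξ 0, x (ξ 1)⟫_ℂ =
          ((2 * (⟪ξ 0, x (ξ 1)⟫_ℂ).re : ℝ) : ℂ) := Complex.add_conj _
      simp only [Fin.sum_univ_two, X, Matrix.cons_val_zero, Matrix.cons_val_one,
        ContinuousLinearMap.smul_apply, ContinuousLinearMap.one_apply, inner_smul_right,
        inner_self_eq_norm_sq_to_K]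
      rw [hc]
      push_cast at hr ⊢
      linear_combination hr
    rw [e]
    have h2 : -(‖ξ 0‖ * (‖x‖ * ‖ξ 1‖)) ≤ (⟪ξ 0, x (ξ 1)⟫_ℂ).re := by
      have h3 : |(⟪ξ 0, x (ξ 1)⟫_ℂ).re| ≤ ‖ξ 0‖ * (‖x‖ * ‖ξ 1‖) :=
        (Complex.abs_re_le_norm _).trans ((norm_inner_le_norm _ _).trans
          (mul_le_mul_of_nonneg_left (x.le_opNorm _) (norm_nonneg _)))
      exact (abs_le.1 h3).1
    have h4 : 0 ≤ ‖x‖ * (‖ξ 0‖ ^ 2 + ‖ξ 1‖ ^ 2) + 2 * (⟪ξ 0, x (ξ 1)⟫_ℂ).re := by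
      nlinarith [sq_nonneg (‖ξ 0‖ - ‖ξ 1‖), norm_nonneg x, norm_nonneg (ξ 0), norm_nonneg (ξ 1)]
    exact_mod_cast h4
  have key : ∀ ξ ζ : H, 0 ≤ ((‖x‖ : ℝ) : ℂ) * ⟪ξ, E 1 ξ⟫_ℂ + ⟪ξ, E x ζ⟫_ℂ +
      (⟪ζ, E (star x) ξ⟫_ℂ + ((‖x‖ : ℝ) : ℂ) * ⟪ζ, E 1 ζ⟫_ℂ) := by
    intro ξ ζ
    have h := hE 2 X hXpos ![ξ, ζ]
    simp only [Fin.sum_univ_two, X, Matrix.cons_val_zero, Matrix.cons_val_one, map_smul,
      ContinuousLinearMap.smul_apply, inner_smul_right] at h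
    exact h
  have him1 : ∀ ξ ζ : H, (⟪ξ, E x ζ⟫_ℂ).im + (⟪ζ, E (star x) ξ⟫_ℂ).im = 0 := by
    intro ξ ζ
    have h := (Complex.nonneg_iff.1 (key ξ ζ)).2
    have h2 := (Complex.nonneg_iff.1 (hp1 ξ)).2
    have h3 := (Complex.nonneg_iff.1 (hp1 ζ)).2
    simp only [Complex.add_im, Complex.mul_im, Complex.ofReal_re, Complex.ofReal_im] at h
    rw [← h2, ← h3] at h
    linarith
  have hre : ∀ ξ ζ : H, (⟪ξ, E x ζ⟫_ℂ).re = (⟪ζ, E (star x) ξ⟫_ℂ).re := by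
    intro ξ ζ
    have h := him1 ξ (Complex.I • ζ)
    rw [map_smul, inner_smul_right, inner_smul_left] at h
    simp only [Complex.conj_I, Complex.mul_im, Complex.I_re, Complex.I_im, Complex.neg_im,
      Complex.neg_re] at h
    linarith
  refine ContinuousLinearMap.opNorm_le_bound _ (norm_nonneg _) (fun η => ?_)
  by_cases h0 : ‖E x η‖ = 0
  · rw [h0]; positivity
  have hpos : 0 < ‖E x η‖ := lt_of_le_of_ne (norm_nonneg _) (Ne.symm h0)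
  have hη : 0 < ‖η‖ := by
    rcases (norm_nonneg η).eq_or_lt with h | h
    · exfalso
      apply h0
      rw [norm_eq_zero.1 h.symm]
      simp
    · exact h
  have h := (Complex.nonneg_iff.1 (key ((((-‖η‖ : ℝ)) : ℂ) • E x η)
    (((‖E x η‖ : ℝ) : ℂ) • η))).1
  have e1 : (⟪(((-‖η‖ : ℝ)) : ℂ) • E x η, E x (((‖E x η‖ : ℝ) : ℂ) • η)⟫_ℂ).re =
      - (‖η‖ * ‖E x η‖ ^ 3) := by
    rw [map_smul, inner_smul_right, inner_smul_left, inner_self_eq_norm_sq_to_K]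
    simp only [Complex.conj_ofReal]
    have : ((‖E x η‖ : ℝ) : ℂ) * (((-‖η‖ : ℝ) : ℂ) * ((‖E x η‖ : ℝ) : ℂ) ^ 2) =
      ((-(‖η‖ * ‖E x η‖ ^ 3) : ℝ) : ℂ) := by push_cast; ring
    rw [show (((RCLike.ofReal ‖E x η‖ : ℂ))) = ((‖E x η‖ : ℝ) : ℂ) from rfl, this,
      Complex.ofReal_re]
  have e2 := hre ((((-‖η‖ : ℝ)) : ℂ) • E x η) (((‖E x η‖ : ℝ) : ℂ) • η)
  rw [e1] at e2
  simp only [Complex.add_re, Complex.re_ofReal_mul] at h
  rw [e1, ← e2] at h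
  have h5 := hp2 ((((-‖η‖ : ℝ)) : ℂ) • E x η)
  have h6 := hp2 (((‖E x η‖ : ℝ) : ℂ) • η)
  rw [norm_smul, Complex.norm_real, Real.norm_eq_abs, abs_neg, abs_of_pos hη] at h5
  rw [norm_smul, Complex.norm_real, Real.norm_eq_abs, abs_of_pos hpos] at h6
  have h7 : 2 * (‖η‖ * ‖E x η‖ ^ 3) ≤ ‖x‖ * (2 * (‖η‖ * ‖E x η‖) ^ 2) := by
    have h8 := mul_le_mul_of_nonneg_left h5 (norm_nonneg x)
    have h9 := mul_le_mul_of_nonneg_left h6 (norm_nonneg x)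
    nlinarith
  have h10 : (‖η‖ * ‖E x η‖ ^ 2) * ‖E x η‖ ≤ (‖η‖ * ‖E x η‖ ^ 2) * (‖x‖ * ‖η‖) := by
    nlinarith
  exact le_of_mul_le_mul_left h10 (by positivity)

end Pool.Agent.Helper67.Inj
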