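import Pool.Agent.Helper67.Inj.DecFin
import Pool.Agent.Helper67.Inj.Lim

set_option autoImplicit false

open scoped InnerProductSpace ComplexOrder TensorProduct Topology

namespace Pool.Agent.Helper67.Inj

universe u

variable {H : Type u} [NormedAddCommGroup H] [InnerProductSpace ℂ H] [CompleteSpace H]

omit [CompleteSpace H] in
/-- square sums are lower semicontinuous for weak limits -/
theorem dec_limit_sq {ι : Type*} (U : Ultrafilter ι) {K : ℕ} (x : ι → Fin K → (H →L[ℂ] H))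
    (y : Fin K → (H →L[ℂ] H))
    (h : ∀ i ξ η, Filter.Tendsto (fun F => ⟪ξ, x F i η⟫_ℂ) U (𝓝 ⟪ξ, y i η⟫_ℂ)) (c : ℝ) (ξ : H)
    (hc : ∀ F, ∑ i, ‖x F i ξ‖ ^ 2 ≤ c * ‖ξ‖ ^ 2) : ∑ i, ‖y i ξ‖ ^ 2 ≤ c * ‖ξ‖ ^ 2 := by
  have h1 : Filter.Tendsto (fun F => ∑ i, (⟪y i ξ, x F i ξ⟫_ℂ).re) U
      (𝓝 (∑ i, (⟪y i ξ, y i ξ⟫_ℂ).re)) :=
    tendsto_finsetSum _ fun i _ => (Complex.continuous_re.tendsto _).comp (h i (y i ξ) ξ)
  have h2 : ∑ i, (⟪y i ξ, y i ξ⟫_ℂ).re = ∑ i, ‖y i ξ‖ ^ 2 := by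
    refine Finset.sum_congr rfl fun i _ => ?_
    rw [inner_self_eq_norm_sq_to_K]
    norm_cast
  rw [h2] at h1
  have h3 : ∀ F, ∑ i, (⟪y i ξ, x F i ξ⟫_ℂ).re ≤ (∑ i, ‖y i ξ‖ ^ 2 + c * ‖ξ‖ ^ 2) / 2 := fun F => by
    have h4 : ∀ i, (⟪y i ξ, x F i ξ⟫_ℂ).re ≤ (‖y i ξ‖ ^ 2 + ‖x F i ξ‖ ^ 2) / 2 := fun i => by
      have h5 : (⟪y i ξ, x F i ξ⟫_ℂ).re ≤ ‖⟪y i ξ, x F i ξ⟫_ℂ‖ := Complex.re_le_norm _
      have h6 : ‖⟪y i ξ, x F i ξ⟫_ℂ‖ ≤ ‖y i ξ‖ * ‖x F i ξ‖ := norm_inner_le_norm _ _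
      nlinarith [sq_nonneg (‖y i ξ‖ - ‖x F i ξ‖)]
    calc ∑ i, (⟪y i ξ, x F i ξ⟫_ℂ).re ≤ ∑ i, (‖y i ξ‖ ^ 2 + ‖x F i ξ‖ ^ 2) / 2 :=
          Finset.sum_le_sum fun i _ => h4 i
      _ = (∑ i, ‖y i ξ‖ ^ 2 + ∑ i, ‖x F i ξ‖ ^ 2) / 2 := by
          rw [← Finset.sum_div, Finset.sum_add_distrib]
      _ ≤ (∑ i, ‖y i ξ‖ ^ 2 + c * ‖ξ‖ ^ 2) / 2 := by
          have := hc F
          linarith
  have h4 := le_of_tendsto h1 (Filter.Eventually.of_forall h3)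
  linarith

/-- DEC -/
theorem dec (C : H ≃ₗᵢ⋆[ℂ] H) (K : ℕ)
    (hK : 1 ≤ K) (y : Fin K → (H →L[ℂ] H)) (ρ : ℝ) (hρ : ‖Phi C y‖ < ρ) (L : ℕ)
    (hL : Real.log K ≤ L) :
    ∃ Y : Fin (2 * L + 3) → Fin K → (H →L[ℂ] H), (∀ i, y i = ∑ k, Y k i) ∧
      ∀ k, rowSq (Y k) * colSq (Y k) ≤ (20 * ρ) ^ 2 := by
  classical
  have hρ0 : 0 ≤ ρ := (ContinuousLinearMap.opNorm_nonneg (Phi C y)).trans hρ.le
  let V : Finset H → Submodule ℂ H := fun F => Submodule.span ℂ (F : Set H)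
  have hV : ∀ F, FiniteDimensional ℂ (V F) := fun F =>
    FiniteDimensional.span_finset ℂ F
  have hD : ∀ F : Finset H, ∃ Y : Fin (2 * L + 3) → Fin K → (H →L[ℂ] H),
      (∀ i, (V F).starProjection * y i * (V F).starProjection = ∑ k, Y k i) ∧
      ∀ k, rowSq (Y k) ≤ 20 * ρ * Real.exp ((k : ℝ) - L - 1) ∧
        colSq (Y k) ≤ 20 * ρ * Real.exp ((L : ℝ) + 1 - k) := fun F =>
    dec_fin C (V F) K hK y ρ hρ L hL
  choose Y hYs hYb using hD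
  let U : Ultrafilter (Finset H) := Ultrafilter.of Filter.atTop
  have hU : (U : Filter (Finset H)) ≤ Filter.atTop := Ultrafilter.of_le _
  -- uniform bound
  let c : ℝ := Real.sqrt (20 * ρ * Real.exp ((L : ℝ) + 1))
  have hb : ∀ (k : Fin (2 * L + 3)) (i : Fin K) (F : Finset H), ‖Y F k i‖ ≤ c := fun k i F => by
    have h1 := (hYb F k).2
    have h2 : 20 * ρ * Real.exp ((L : ℝ) + 1 - k) ≤ 20 * ρ * Real.exp ((L : ℝ) + 1) := by
      refine mul_le_mul_of_nonneg_left (Real.exp_le_exp.2 ?_) (by positivity)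
      have : (0 : ℝ) ≤ ((k : ℕ) : ℝ) := Nat.cast_nonneg _
      linarith
    have h3 := (colSq_eq_sup (Y F k) (20 * ρ * Real.exp ((L : ℝ) + 1)) (by positivity)).1
      (h1.trans h2)
    refine ContinuousLinearMap.opNorm_le_bound _ (Real.sqrt_nonneg _) fun ξ => ?_
    have h4 : ‖Y F k i ξ‖ ^ 2 ≤ 20 * ρ * Real.exp ((L : ℝ) + 1) * ‖ξ‖ ^ 2 :=
      (Finset.single_le_sum (f := fun i => ‖Y F k i ξ‖ ^ 2) (fun _ _ => sq_nonneg _)
        (Finset.mem_univ i)).trans (h3 ξ)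
    have h5 : ‖Y F k i ξ‖ = Real.sqrt (‖Y F k i ξ‖ ^ 2) := (Real.sqrt_sq (norm_nonneg _)).symm
    rw [h5]
    refine (Real.sqrt_le_sqrt h4).trans (le_of_eq ?_)
    rw [Real.sqrt_mul (by positivity), Real.sqrt_sq (norm_nonneg _)]
  choose Z hZb hZ using fun (k : Fin (2 * L + 3)) (i : Fin K) =>
    exists_wot_limit U (fun F => Y F k i) c (hb k i)
  refine ⟨Z, fun i => ?_, fun k => ?_⟩
  · -- the sum
    refine ContinuousLinearMap.ext fun η => ext_inner_left ℂ fun ξ => ?_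
    have h1 : Filter.Tendsto (fun F => ∑ k, ⟪ξ, Y F k i η⟫_ℂ) U (𝓝 (∑ k, ⟪ξ, Z k i η⟫_ℂ)) :=
      tendsto_finsetSum _ fun k _ => hZ k i ξ η
    have h2 : ∀ᶠ F in (U : Filter (Finset H)), ∑ k, ⟪ξ, Y F k i η⟫_ℂ = ⟪ξ, y i η⟫_ℂ := by
      have h3 : ∀ᶠ F in (Filter.atTop : Filter (Finset H)), ({ξ, η} : Finset H) ≤ F :=
        Filter.eventually_ge_atTop _
      refine (h3.filter_mono hU).mono fun F hF => ?_
      have hξ : ξ ∈ V F := Submodule.subset_span (hF (by simp))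
      have hη : η ∈ V F := Submodule.subset_span (hF (by simp))
      have h4 : (V F).starProjection η = η := Submodule.starProjection_eq_self_iff.2 hη
      have h5 : (V F).starProjection ξ = ξ := Submodule.starProjection_eq_self_iff.2 hξ
      have h6 : (∑ k, Y F k i) η = (V F).starProjection (y i ((V F).starProjection η)) := by
        rw [← hYs F i]; rfl
      rw [← inner_sum, ← _root_.sum_apply, h6, h4,
        ← Submodule.inner_starProjection_left_eq_right, h5]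
    have h3 : Filter.Tendsto (fun F => ∑ k, ⟪ξ, Y F k i η⟫_ℂ) U (𝓝 ⟪ξ, y i η⟫_ℂ) :=
      (Filter.tendsto_congr' h2).2 tendsto_const_nhds
    have h4 := tendsto_nhds_unique h1 h3
    rw [← h4, _root_.sum_apply, inner_sum]
  · -- the bounds
    have hr : rowSq (Z k) ≤ 20 * ρ * Real.exp ((k : ℝ) - L - 1) := by
      rw [rowSq_eq_sup _ _ (by positivity)]
      intro ξ
      refine dec_limit_sq U (fun F i => star (Y F k i)) (fun i => star (Z k i)) ?_ _ ξ ?_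
      · intro i ζ η
        have h1 : ∀ T : H →L[ℂ] H, ⟪ζ, star T η⟫_ℂ = (starRingEnd ℂ) ⟪η, T ζ⟫_ℂ := fun T => by
          rw [ContinuousLinearMap.star_eq_adjoint, ContinuousLinearMap.adjoint_inner_right,
            inner_conj_symm]
        simp only [h1]
        exact (Complex.continuous_conj.tendsto _).comp (hZ k i η ζ)
      · intro F
        exact (rowSq_eq_sup _ _ (by positivity)).1 (hYb F k).1 ξ
    have hcl : colSq (Z k) ≤ 20 * ρ * Real.exp ((L : ℝ) + 1 - k) := by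
      rw [colSq_eq_sup _ _ (by positivity)]
      intro ξ
      refine dec_limit_sq U (fun F i => Y F k i) (fun i => Z k i) (fun i ζ η => hZ k i ζ η) _ ξ ?_
      intro F
      exact (colSq_eq_sup _ _ (by positivity)).1 (hYb F k).2 ξ
    calc rowSq (Z k) * colSq (Z k)
        ≤ (20 * ρ * Real.exp ((k : ℝ) - L - 1)) * (20 * ρ * Real.exp ((L : ℝ) + 1 - k)) :=
          mul_le_mul hr hcl (colSq_nonneg _) (by positivity)
      _ = (20 * ρ) ^ 2 * (Real.exp ((k : ℝ) - L - 1) * Real.exp ((L : ℝ) + 1 - k)) := by ring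
      _ = (20 * ρ) ^ 2 := by
          rw [← Real.exp_add, show (k : ℝ) - L - 1 + ((L : ℝ) + 1 - k) = 0 by ring,
            Real.exp_zero, mul_one]

end Pool.Agent.Helper67.Inj
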