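import Pool.Agent.Helper67.Inj.Defs

set_option autoImplicit false

open scoped InnerProductSpace ComplexOrder TensorProduct Topology

namespace Pool.Agent.Helper67.Inj

universe u

variable {H : Type u} [NormedAddCommGroup H] [InnerProductSpace ℂ H] [CompleteSpace H]

section DecA

attribute [local instance] Matrix.frobeniusNormedAddCommGroup Matrix.frobeniusNormedSpace

private theorem frob_eq {d : ℕ} (A : Matrix (Fin d) (Fin d) ℂ) :
    ‖A‖ = Real.sqrt (∑ i, ∑ j, ‖A i j‖ ^ 2) := by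
  rw [Matrix.frobenius_norm_def, Real.sqrt_eq_rpow]
  simp

private theorem trace_self {d : ℕ} (A : Matrix (Fin d) (Fin d) ℂ) :
    (A.conjTranspose * A).trace = ((‖A‖ ^ 2 : ℝ) : ℂ) := by
  rw [frob_eq, Real.sq_sqrt (Finset.sum_nonneg fun i _ => Finset.sum_nonneg fun j _ => sq_nonneg _)]
  simp only [Matrix.trace, Matrix.diag, Matrix.mul_apply, Matrix.conjTranspose_apply]
  rw [Finset.sum_comm]
  push_cast
  refine Finset.sum_congr rfl fun i _ => Finset.sum_congr rfl fun j _ => ?_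
  rw [← Complex.conj_mul']
  rfl

private noncomputable def mapL {d K : ℕ} (Y : Fin K → Matrix (Fin d) (Fin d) ℂ) :
    Matrix (Fin d) (Fin d) ℂ →ₗ[ℂ] Matrix (Fin d) (Fin d) ℂ where
  toFun T := ∑ i, Y i * T * (Y i).conjTranspose
  map_add' A B := by
    simp only [mul_add, add_mul, Finset.sum_add_distrib]
  map_smul' c A := by
    simp only [Algebra.mul_smul_comm, Algebra.smul_mul_assoc, RingHom.id_apply, Finset.smul_sum]

private theorem mapL_bound {d K : ℕ} (Y : Fin K → Matrix (Fin d) (Fin d) ℂ) {ρ₀ : ℝ}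
    (hY : ∀ a b : Matrix (Fin d) (Fin d) ℂ,
      ‖∑ i, (b.conjTranspose * Y i * a * (Y i).conjTranspose).trace‖ ≤ ρ₀ * ‖a‖ * ‖b‖)
    (A : Matrix (Fin d) (Fin d) ℂ) : ‖mapL Y A‖ ≤ ρ₀ * ‖A‖ := by
  have h := hY A (mapL Y A)
  have e : ∑ i, ((mapL Y A).conjTranspose * Y i * A * (Y i).conjTranspose).trace =
      ((‖mapL Y A‖ ^ 2 : ℝ) : ℂ) := by
    rw [← trace_self]
    conv_rhs => rw [show mapL Y A = ∑ i, Y i * A * (Y i).conjTranspose from rfl]
    rw [Finset.mul_sum, Matrix.trace_sum]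
    refine Finset.sum_congr rfl fun i _ => ?_
    rw [show (∑ i, Y i * A * (Y i).conjTranspose) = mapL Y A from rfl]
    congr 1
    simp only [Matrix.mul_assoc]
  rw [e, Complex.norm_real, Real.norm_of_nonneg (sq_nonneg _)] at h
  by_cases h0 : ‖mapL Y A‖ = 0
  · rw [h0]
    by_contra hc
    push Not at hc
    -- use the hypothesis with `b = A`
    have h1 := (norm_nonneg _).trans (hY A A)
    have hA : 0 < ‖A‖ := by
      rcases (norm_nonneg A).eq_or_lt with h2 | h2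
      · rw [← h2] at hc; simp at hc
      · exact h2
    nlinarith
  · have hpos : 0 < ‖mapL Y A‖ := lt_of_le_of_ne (norm_nonneg _) (Ne.symm h0)
    have h2 : ‖mapL Y A‖ * ‖mapL Y A‖ ≤ (ρ₀ * ‖A‖) * ‖mapL Y A‖ := by nlinarith
    exact le_of_mul_le_mul_right h2 hpos

private theorem closed_psd {d : ℕ} :
    IsClosed {T : Matrix (Fin d) (Fin d) ℂ | (T - 1).PosSemidef} := by
  have hent : ∀ i j, Continuous fun T : Matrix (Fin d) (Fin d) ℂ => T i j := by
    intro i j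
    let L : Matrix (Fin d) (Fin d) ℂ →ₗ[ℂ] ℂ :=
      { toFun := fun T => T i j, map_add' := fun _ _ => rfl, map_smul' := fun _ _ => rfl }
    exact L.continuous_of_finiteDimensional
  have hset : {T : Matrix (Fin d) (Fin d) ℂ | (T - 1).PosSemidef} =
      (⋂ i, ⋂ j, {T : Matrix (Fin d) (Fin d) ℂ |
        star (T j i) = T i j}) ∩
      ⋂ x : Fin d → ℂ, {T : Matrix (Fin d) (Fin d) ℂ |
        0 ≤ ∑ i, ∑ j, star (x i) * ((T i j - (1 : Matrix (Fin d) (Fin d) ℂ) i j) * x j)} := by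
    ext T
    simp only [Set.mem_ofPred_eq, Set.mem_inter_iff, Set.mem_iInter]
    rw [Matrix.posSemidef_iff_dotProduct_mulVec]
    apply and_congr
    · constructor
      · intro h i j
        have h1 := congrFun (congrFun h.eq i) j
        simp only [Matrix.conjTranspose_apply, Matrix.sub_apply, star_sub] at h1
        have h2 : star ((1 : Matrix (Fin d) (Fin d) ℂ) j i) = (1 : Matrix (Fin d) (Fin d) ℂ) i j := by
          by_cases hij : i = j
          · subst hij; simp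
          · rw [Matrix.one_apply_ne hij, Matrix.one_apply_ne (Ne.symm hij), star_zero]
        rw [h2] at h1
        linear_combination h1
      · intro h
        ext i j
        simp only [Matrix.conjTranspose_apply, Matrix.sub_apply, star_sub]
        have h2 : star ((1 : Matrix (Fin d) (Fin d) ℂ) j i) = (1 : Matrix (Fin d) (Fin d) ℂ) i j := by
          by_cases hij : i = j
          · subst hij; simp
          · rw [Matrix.one_apply_ne hij, Matrix.one_apply_ne (Ne.symm hij), star_zero]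
        rw [h2, h i j]
    · refine forall_congr' fun x => ?_
      simp only [dotProduct, Matrix.mulVec, Pi.star_apply, Matrix.sub_apply, Finset.mul_sum]
  rw [hset]
  refine IsClosed.inter ?_ ?_
  · refine isClosed_iInter fun i => isClosed_iInter fun j => ?_
    exact isClosed_eq (continuous_star.comp (hent j i)) (hent i j)
  · refine isClosed_iInter fun x => ?_
    refine isClosed_le continuous_const ?_
    refine continuous_finsetSum _ fun i _ => continuous_finsetSum _ fun j _ => ?_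
    exact continuous_const.mul (((hent i j).sub continuous_const).mul continuous_const)

private theorem dec_weights_aux (d K : ℕ) (Y : Fin K → Matrix (Fin d) (Fin d) ℂ) (ρ₀ ρ : ℝ) (h0 : 0 ≤ ρ₀)
    (hρ : ρ₀ < ρ)
    (hY : ∀ a b : Matrix (Fin d) (Fin d) ℂ,
      ‖∑ i, (b.conjTranspose * Y i * a * (Y i).conjTranspose).trace‖ ≤
        ρ₀ * Real.sqrt (∑ i, ∑ j, ‖a i j‖ ^ 2) * Real.sqrt (∑ i, ∑ j, ‖b i j‖ ^ 2)) :
    ∃ T U : Matrix (Fin d) (Fin d) ℂ, (T - 1).PosSemidef ∧ (U - 1).PosSemidef ∧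
      ((ρ : ℂ) • U - ∑ i, Y i * T * (Y i).conjTranspose).PosSemidef ∧
      ((ρ : ℂ) • T - ∑ i, (Y i).conjTranspose * U * Y i).PosSemidef := by
  have hY' : ∀ a b : Matrix (Fin d) (Fin d) ℂ,
      ‖∑ i, (b.conjTranspose * Y i * a * (Y i).conjTranspose).trace‖ ≤ ρ₀ * ‖a‖ * ‖b‖ := by
    intro a b
    rw [frob_eq a, frob_eq b]
    exact hY a b
  have hYs : ∀ a b : Matrix (Fin d) (Fin d) ℂ,
      ‖∑ i, (b.conjTranspose * (fun i => (Y i).conjTranspose) i * a *
        ((fun i => (Y i).conjTranspose) i).conjTranspose).trace‖ ≤ ρ₀ * ‖a‖ * ‖b‖ := by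
    intro a b
    have h1 := hY' b a
    have e : ∑ i, (b.conjTranspose * (fun i => (Y i).conjTranspose) i * a *
        ((fun i => (Y i).conjTranspose) i).conjTranspose).trace =
        star (∑ i, (a.conjTranspose * Y i * b * (Y i).conjTranspose).trace) := by
      rw [star_sum]
      refine Finset.sum_congr rfl fun i _ => ?_
      rw [← Matrix.trace_conjTranspose]
      simp only [Matrix.conjTranspose_mul, Matrix.conjTranspose_conjTranspose]
      rw [← Matrix.mul_assoc, ← Matrix.mul_assoc, Matrix.trace_mul_comm]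
      simp only [Matrix.mul_assoc]
    rw [e, norm_star]
    calc _ ≤ ρ₀ * ‖b‖ * ‖a‖ := h1
      _ = _ := by ring
  have hρ0 : 0 < ρ := lt_of_le_of_lt h0 hρ
  set Φ := mapL Y with hΦ
  set Ψ := mapL (fun i => (Y i).conjTranspose) with hΨ
  have hΦb : ∀ A, ‖Φ A‖ ≤ ρ₀ * ‖A‖ := mapL_bound Y hY'
  have hΨb : ∀ A, ‖Ψ A‖ ≤ ρ₀ * ‖A‖ := mapL_bound _ hYs
  have hΨe : ∀ U, Ψ U = ∑ i, (Y i).conjTranspose * U * Y i := by
    intro U
    change ∑ i, (Y i).conjTranspose * U * (Y i).conjTranspose.conjTranspose = _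
    simp only [Matrix.conjTranspose_conjTranspose]
  -- the contraction
  let F : Matrix (Fin d) (Fin d) ℂ × Matrix (Fin d) (Fin d) ℂ →
      Matrix (Fin d) (Fin d) ℂ × Matrix (Fin d) (Fin d) ℂ :=
    fun p => (1 + ((ρ⁻¹ : ℝ) : ℂ) • Ψ p.2, 1 + ((ρ⁻¹ : ℝ) : ℂ) • Φ p.1)
  have hc0 : 0 ≤ ρ₀ / ρ := div_nonneg h0 hρ0.le
  have hc1 : ρ₀ / ρ < 1 := (div_lt_one hρ0).2 hρ
  have hFl : LipschitzWith ⟨ρ₀ / ρ, hc0⟩ F := by
    apply LipschitzWith.of_dist_le_mul
    intro p q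
    rw [dist_eq_norm, dist_eq_norm, Prod.norm_def, Prod.norm_def]
    simp only [F, Prod.fst_sub, Prod.snd_sub, add_sub_add_left_eq_sub, ← smul_sub,
      ← map_sub]
    have hinv : ‖((ρ⁻¹ : ℝ) : ℂ)‖ = ρ⁻¹ := by
      rw [Complex.norm_real, Real.norm_of_nonneg (inv_nonneg.2 hρ0.le)]
    apply max_le
    · rw [norm_smul, hinv]
      calc ρ⁻¹ * ‖Ψ (p.2 - q.2)‖ ≤ ρ⁻¹ * (ρ₀ * ‖p.2 - q.2‖) :=
            mul_le_mul_of_nonneg_left (hΨb _) (inv_nonneg.2 hρ0.le)
        _ = ρ₀ / ρ * ‖p.2 - q.2‖ := by ring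
        _ ≤ _ := mul_le_mul_of_nonneg_left (le_max_right _ _) hc0
    · rw [norm_smul, hinv]
      calc ρ⁻¹ * ‖Φ (p.1 - q.1)‖ ≤ ρ⁻¹ * (ρ₀ * ‖p.1 - q.1‖) :=
            mul_le_mul_of_nonneg_left (hΦb _) (inv_nonneg.2 hρ0.le)
        _ = ρ₀ / ρ * ‖p.1 - q.1‖ := by ring
        _ ≤ _ := mul_le_mul_of_nonneg_left (le_max_left _ _) hc0
  set s : Set (Matrix (Fin d) (Fin d) ℂ × Matrix (Fin d) (Fin d) ℂ) :=
    {T | (T - 1).PosSemidef} ×ˢ {T | (T - 1).PosSemidef} with hs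
  have hsc : IsClosed s := closed_psd.prod closed_psd
  have : CompleteSpace (Matrix (Fin d) (Fin d) ℂ) := FiniteDimensional.complete ℂ _
  have hpsd1 : ∀ T : Matrix (Fin d) (Fin d) ℂ, (T - 1).PosSemidef → T.PosSemidef := by
    intro T hT
    have h1 : T = (T - 1) + 1 := by abel
    rw [h1]
    exact hT.add Matrix.PosSemidef.one
  have hcnn : (0 : ℂ) ≤ ((ρ⁻¹ : ℝ) : ℂ) := by exact_mod_cast inv_nonneg.2 hρ0.le
  have hΦp : ∀ T : Matrix (Fin d) (Fin d) ℂ, T.PosSemidef → (Φ T).PosSemidef := by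
    intro T hT
    exact Matrix.posSemidef_sum _ (fun i _ => hT.mul_mul_conjTranspose_same (Y i))
  have hΨp : ∀ T : Matrix (Fin d) (Fin d) ℂ, T.PosSemidef → (Ψ T).PosSemidef := by
    intro T hT
    exact Matrix.posSemidef_sum _ (fun i _ => hT.mul_mul_conjTranspose_same _)
  have hmaps : Set.MapsTo F s s := by
    rintro ⟨T, U⟩ ⟨hT, hU⟩
    refine ⟨?_, ?_⟩
    · change (1 + ((ρ⁻¹ : ℝ) : ℂ) • Ψ U - 1).PosSemidef
      rw [add_sub_cancel_left]
      exact (hΨp U (hpsd1 U hU)).smul hcnn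
    · change (1 + ((ρ⁻¹ : ℝ) : ℂ) • Φ T - 1).PosSemidef
      rw [add_sub_cancel_left]
      exact (hΦp T (hpsd1 T hT)).smul hcnn
  have hcontr : ContractingWith ⟨ρ₀ / ρ, hc0⟩ (hmaps.restrict F s s) := by
    refine ⟨?_, ?_⟩
    · exact_mod_cast hc1
    · intro x y
      exact hFl x.1 y.1
  have hmem : ((1 : Matrix (Fin d) (Fin d) ℂ), (1 : Matrix (Fin d) (Fin d) ℂ)) ∈ s := by
    refine ⟨?_, ?_⟩ <;>
    · change ((1 : Matrix (Fin d) (Fin d) ℂ) - 1).PosSemidef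
      rw [sub_self]
      exact Matrix.PosSemidef.zero
  obtain ⟨⟨T, U⟩, hTU, hfix, -⟩ := hcontr.exists_fixedPoint' hsc.isComplete hmaps hmem
    (edist_ne_top _ _)
  have hfix' : F (T, U) = (T, U) := hfix
  have h1 : 1 + ((ρ⁻¹ : ℝ) : ℂ) • Ψ U = T := congrArg Prod.fst hfix'
  have h2 : 1 + ((ρ⁻¹ : ℝ) : ℂ) • Φ T = U := congrArg Prod.snd hfix'
  have hρc : ((ρ : ℝ) : ℂ) ≠ 0 := by exact_mod_cast hρ0.ne'
  have hρnn : (0 : ℂ) ≤ ((ρ : ℝ) : ℂ) := by exact_mod_cast hρ0.le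
  have hone : ((ρ : ℂ) • (1 : Matrix (Fin d) (Fin d) ℂ)).PosSemidef :=
    Matrix.PosSemidef.one.smul hρnn
  refine ⟨T, U, hTU.1, hTU.2, ?_, ?_⟩
  · have e : (ρ : ℂ) • U - ∑ i, Y i * T * (Y i).conjTranspose =
        (ρ : ℂ) • (1 : Matrix (Fin d) (Fin d) ℂ) := by
      have h3 : (∑ i, Y i * T * (Y i).conjTranspose) = Φ T := rfl
      rw [h3, ← h2]
      rw [smul_add, smul_smul]
      push_cast
      rw [mul_inv_cancel₀ hρc, one_smul, add_sub_cancel_right]
    rw [e]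
    exact hone
  · have e : (ρ : ℂ) • T - ∑ i, (Y i).conjTranspose * U * Y i =
        (ρ : ℂ) • (1 : Matrix (Fin d) (Fin d) ℂ) := by
      rw [← hΨe, ← h1, smul_add, smul_smul]
      push_cast
      rw [mul_inv_cancel₀ hρc, one_smul, add_sub_cancel_right]
    rw [e]
    exact hone

end DecA

/-- DEC-A (pure matrices) : the two weights -/
theorem dec_weights (d K : ℕ) (Y : Fin K → Matrix (Fin d) (Fin d) ℂ) (ρ₀ ρ : ℝ) (h0 : 0 ≤ ρ₀)
    (hρ : ρ₀ < ρ)
    (hY : ∀ a b : Matrix (Fin d) (Fin d) ℂ,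
      ‖∑ i, (b.conjTranspose * Y i * a * (Y i).conjTranspose).trace‖ ≤
        ρ₀ * Real.sqrt (∑ i, ∑ j, ‖a i j‖ ^ 2) * Real.sqrt (∑ i, ∑ j, ‖b i j‖ ^ 2)) :
    ∃ T U : Matrix (Fin d) (Fin d) ℂ, (T - 1).PosSemidef ∧ (U - 1).PosSemidef ∧
      ((ρ : ℂ) • U - ∑ i, Y i * T * (Y i).conjTranspose).PosSemidef ∧
      ((ρ : ℂ) • T - ∑ i, (Y i).conjTranspose * U * Y i).PosSemidef :=
  dec_weights_aux d K Y ρ₀ ρ h0 hρ hY

end Pool.Agent.Helper67.Inj
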