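import Pool.Agent.Helper67.Inj.Defs

set_option autoImplicit false

open scoped InnerProductSpace ComplexOrder TensorProduct Topology

namespace Pool.Agent.Helper67.Inj

universe u

variable {H : Type u} [NormedAddCommGroup H] [InnerProductSpace ℂ H] [CompleteSpace H]

namespace DecB

/-- integer part of the logarithm -/
private noncomputable def fl (x : ℝ) : ℤ := ⌊Real.log x⌋

private lemma fl_le {x : ℝ} (hx : 1 ≤ x) : Real.exp (fl x) ≤ x := by
  have hx0 : 0 < x := by linarith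
  calc Real.exp (fl x) ≤ Real.exp (Real.log x) := Real.exp_le_exp.2 (Int.floor_le _)
    _ = x := Real.exp_log hx0

private lemma le_fl {x : ℝ} (hx : 1 ≤ x) : x ≤ Real.exp (fl x + 1) := by
  have hx0 : 0 < x := by linarith
  calc x = Real.exp (Real.log x) := (Real.exp_log hx0).symm
    _ ≤ Real.exp (fl x + 1) := Real.exp_le_exp.2 (Int.lt_floor_add_one _).le

private lemma exact {d K : ℕ} (x : Fin K → Fin d → Fin d → ℂ) (t u : Fin d → ℝ)
    (ht : ∀ l, 1 ≤ t l) (hu : ∀ j, 1 ≤ u j) (ρ : ℝ) (hρ : 0 < ρ)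
    (h : ∀ η : Fin d → ℂ, ∑ i, ∑ l, t l * ‖∑ j, x i l j * η j‖ ^ 2 ≤ ρ * ∑ j, u j * ‖η j‖ ^ 2)
    (m : ℤ) (η : Fin d → ℂ) :
    ∑ i, ∑ l, ‖∑ j, (if fl (u j) - fl (t l) = m then x i l j else 0) * η j‖ ^ 2 ≤
      ρ * Real.exp (m + 1) * ∑ j, ‖η j‖ ^ 2 := by
  classical
  set B : Finset ℤ := Finset.univ.image fun l => fl (t l) with hB
  set g : Fin K → Fin d → ℝ := fun i l =>
    ‖∑ j, (if fl (u j) - fl (t l) = m then x i l j else 0) * η j‖ ^ 2 with hg
  have hfib : ∀ i, ∑ l, g i l = ∑ c ∈ B, ∑ l with fl (t l) = c, g i l := by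
    intro i
    exact (Finset.sum_fiberwise_of_maps_to (fun l _ => Finset.mem_image_of_mem _ (Finset.mem_univ l))
      (g i)).symm
  have hmain : ∀ c : ℤ, ∑ i, ∑ l with fl (t l) = c, g i l ≤
      ρ * Real.exp (m + 1) * ∑ j, if fl (u j) = c + m then ‖η j‖ ^ 2 else 0 := by
    intro c
    set ηc : Fin d → ℂ := fun j => if fl (u j) = c + m then η j else 0 with hηc
    have h1 : ∀ i, ∀ l, fl (t l) = c → g i l ≤ Real.exp (-c) * (t l * ‖∑ j, x i l j * ηc j‖ ^ 2) := by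
      intro i l hl
      have he : g i l = ‖∑ j, x i l j * ηc j‖ ^ 2 := by
        simp only [hg, hηc]
        congr 2
        refine Finset.sum_congr rfl fun j _ => ?_
        by_cases hj : fl (u j) = c + m
        · rw [if_pos (by omega), if_pos hj]
        · rw [if_neg (by omega), if_neg hj]
          simp
      rw [he, ← mul_assoc]
      have h2 : 1 ≤ Real.exp (-c) * t l := by
        have := fl_le (ht l)
        rw [hl] at this
        calc (1 : ℝ) = Real.exp (-c) * Real.exp c := by rw [← Real.exp_add]; simp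
          _ ≤ _ := mul_le_mul_of_nonneg_left this (Real.exp_pos _).le
      nlinarith [sq_nonneg ‖∑ j, x i l j * ηc j‖]
    calc ∑ i, ∑ l with fl (t l) = c, g i l
        ≤ ∑ i, ∑ l, Real.exp (-c) * (t l * ‖∑ j, x i l j * ηc j‖ ^ 2) := by
          refine Finset.sum_le_sum fun i _ => ?_
          refine (Finset.sum_le_sum fun l hl => h1 i l (Finset.mem_filter.1 hl).2).trans ?_
          refine Finset.sum_le_sum_of_subset_of_nonneg (Finset.filter_subset _ _) fun l _ _ => ?_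
          have := ht l
          positivity
      _ = Real.exp (-c) * ∑ i, ∑ l, t l * ‖∑ j, x i l j * ηc j‖ ^ 2 := by
          simp only [Finset.mul_sum]
      _ ≤ Real.exp (-c) * (ρ * ∑ j, u j * ‖ηc j‖ ^ 2) :=
          mul_le_mul_of_nonneg_left (h ηc) (Real.exp_pos _).le
      _ = ρ * ∑ j, Real.exp (-c) * (u j * ‖ηc j‖ ^ 2) := by
          rw [Finset.mul_sum, Finset.mul_sum, Finset.mul_sum]
          refine Finset.sum_congr rfl fun j _ => by ring
      _ ≤ ρ * ∑ j, Real.exp (m + 1) * (if fl (u j) = c + m then ‖η j‖ ^ 2 else 0) := by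
          refine mul_le_mul_of_nonneg_left (Finset.sum_le_sum fun j _ => ?_) hρ.le
          by_cases hj : fl (u j) = c + m
          · simp only [hηc, if_pos hj]
            rw [← mul_assoc]
            refine mul_le_mul_of_nonneg_right ?_ (sq_nonneg _)
            have := le_fl (hu j)
            rw [hj] at this
            calc Real.exp (-c) * u j ≤ Real.exp (-c) * Real.exp ((c + m : ℤ) + 1) :=
                  mul_le_mul_of_nonneg_left this (Real.exp_pos _).le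
              _ = Real.exp (m + 1) := by
                  rw [← Real.exp_add]
                  congr 1
                  push_cast
                  ring
          · simp [hηc, if_neg hj]
      _ = ρ * Real.exp (m + 1) * ∑ j, if fl (u j) = c + m then ‖η j‖ ^ 2 else 0 := by
          rw [← Finset.mul_sum, mul_assoc]
  calc ∑ i, ∑ l, g i l = ∑ i, ∑ c ∈ B, ∑ l with fl (t l) = c, g i l :=
        Finset.sum_congr rfl fun i _ => hfib i
    _ = ∑ c ∈ B, ∑ i, ∑ l with fl (t l) = c, g i l := Finset.sum_comm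
    _ ≤ ∑ c ∈ B, ρ * Real.exp (m + 1) * ∑ j, (if fl (u j) = c + m then ‖η j‖ ^ 2 else 0) :=
        Finset.sum_le_sum fun c _ => hmain c
    _ = ρ * Real.exp (m + 1) * ∑ j, ∑ c ∈ B, (if fl (u j) = c + m then ‖η j‖ ^ 2 else 0) := by
        rw [← Finset.mul_sum, Finset.sum_comm]
    _ ≤ _ := by
        refine mul_le_mul_of_nonneg_left (Finset.sum_le_sum fun j _ => ?_) (by positivity)
        have h3 : ∀ c ∈ B, (if fl (u j) = c + m then ‖η j‖ ^ 2 else 0) =
            if c = fl (u j) - m then ‖η j‖ ^ 2 else 0 := by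
          intro c _
          by_cases hc : fl (u j) = c + m
          · rw [if_pos hc, if_pos (by omega)]
          · rw [if_neg hc, if_neg (by omega)]
        rw [Finset.sum_congr rfl h3, Finset.sum_ite_eq']
        split_ifs
        · exact le_rfl
        · positivity

private lemma geom (M : ℤ) (D : Finset ℤ) (hD : ∀ m ∈ D, m ≤ M) :
    ∑ m ∈ D, Real.exp (((m : ℝ) - M) / 2) ≤ (1 - Real.exp (-1 / 2))⁻¹ := by
  set r : ℝ := Real.exp (-1 / 2) with hr
  have hr0 : 0 ≤ r := (Real.exp_pos _).le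
  have hr1 : r < 1 := by
    rw [hr, Real.exp_lt_one_iff]
    norm_num
  have hinj : Set.InjOn (fun m : ℤ => (M - m).toNat) (D : Set ℤ) := by
    intro a ha b hb hab
    have h1 := hD a ha
    have h2 := hD b hb
    simp only at hab
    omega
  have h1 : ∑ m ∈ D, Real.exp (((m : ℝ) - M) / 2) =
      ∑ n ∈ D.image (fun m : ℤ => (M - m).toNat), r ^ n := by
    rw [Finset.sum_image hinj]
    refine Finset.sum_congr rfl fun m hm => ?_
    have h2 := hD m hm
    rw [hr, ← Real.exp_nat_mul]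
    congr 1
    have h3 : (((M - m).toNat : ℕ) : ℝ) = (M : ℝ) - m := by
      have : (((M - m).toNat : ℕ) : ℤ) = M - m := by omega
      exact_mod_cast this
    rw [h3]
    ring
  rw [h1, ← tsum_geometric_of_lt_one hr0 hr1]
  exact (summable_geometric_of_lt_one hr0 hr1).sum_le_tsum _ fun n _ => pow_nonneg hr0 n

private lemma const : Real.exp 1 * ((1 - Real.exp (-1 / 2))⁻¹) ^ 2 ≤ 20 := by
  have h1 : Real.exp 1 < 2.7182818286 := Real.exp_one_lt_d9
  have h2 : 2.7182818283 < Real.exp 1 := Real.exp_one_gt_d9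
  set r : ℝ := Real.exp (-1 / 2) with hr
  have hr0 : 0 < r := Real.exp_pos _
  have hrr : r * r * Real.exp 1 = 1 := by
    rw [hr, ← Real.exp_add, ← Real.exp_add]
    norm_num
  have hr1 : r ≤ 0.61 := by
    by_contra hc
    push Not at hc
    nlinarith
  have h3 : (0.39 : ℝ) ≤ 1 - r := by linarith
  have h4 : (1 - r)⁻¹ ≤ (0.39 : ℝ)⁻¹ := by
    apply inv_anti₀ (by norm_num) h3
  have h5 : 0 ≤ (1 - r)⁻¹ := by
    apply inv_nonneg.2
    linarith
  calc Real.exp 1 * ((1 - r)⁻¹) ^ 2 ≤ 2.7182818286 * ((0.39 : ℝ)⁻¹) ^ 2 := by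
        apply mul_le_mul h1.le (pow_le_pow_left₀ h5 h4 2) (by positivity) (by norm_num)
    _ ≤ 20 := by norm_num

private lemma wcs (D : Finset ℤ) (w : ℤ → ℝ) (hw : ∀ m, 0 < w m) (X : ℤ → ℂ) :
    ‖∑ m ∈ D, X m‖ ^ 2 ≤ (∑ m ∈ D, w m) * ∑ m ∈ D, (w m)⁻¹ * ‖X m‖ ^ 2 := by
  have h1 : ‖∑ m ∈ D, X m‖ ≤ ∑ m ∈ D, ‖X m‖ := norm_sum_le _ _
  have h2 : (∑ m ∈ D, ‖X m‖) ^ 2 ≤ (∑ m ∈ D, w m) * ∑ m ∈ D, (w m)⁻¹ * ‖X m‖ ^ 2 := by
    have := Finset.sum_sq_le_sum_mul_sum_of_sq_le_mul D (r := fun m => ‖X m‖) (f := w)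
      (g := fun m => (w m)⁻¹ * ‖X m‖ ^ 2) (fun m _ => (hw m).le)
      (fun m _ => mul_nonneg (inv_nonneg.2 (hw m).le) (sq_nonneg _)) (fun m _ => by
        rw [← mul_assoc, mul_inv_cancel₀ (hw m).ne', one_mul])
    exact this
  exact (pow_le_pow_left₀ (norm_nonneg _) h1 2).trans h2

private lemma tail {d K : ℕ} (x : Fin K → Fin d → Fin d → ℂ) (t u : Fin d → ℝ)
    (ht : ∀ l, 1 ≤ t l) (hu : ∀ j, 1 ≤ u j) (ρ : ℝ) (hρ : 0 < ρ)
    (h : ∀ η : Fin d → ℂ, ∑ i, ∑ l, t l * ‖∑ j, x i l j * η j‖ ^ 2 ≤ ρ * ∑ j, u j * ‖η j‖ ^ 2)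
    (M : ℤ) (η : Fin d → ℂ) :
    ∑ i, ∑ l, ‖∑ j, (if fl (u j) - fl (t l) ≤ M then x i l j else 0) * η j‖ ^ 2 ≤
      20 * ρ * Real.exp M * ∑ j, ‖η j‖ ^ 2 := by
  classical
  set D : Finset ℤ := ((Finset.univ : Finset (Fin d × Fin d)).image
    fun p => fl (u p.1) - fl (t p.2)).filter (fun m => m ≤ M) with hDdef
  have hD : ∀ m ∈ D, m ≤ M := fun m hm => (Finset.mem_filter.1 hm).2
  set w : ℤ → ℝ := fun m => Real.exp (((m : ℝ) - M) / 2) with hw
  set W : ℝ := ∑ m ∈ D, w m with hW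
  have hW0 : 0 ≤ W := Finset.sum_nonneg fun m _ => (Real.exp_pos _).le
  have hWle : W ≤ (1 - Real.exp (-1 / 2))⁻¹ := geom M D hD
  have hsplit : ∀ i l, ∑ j, (if fl (u j) - fl (t l) ≤ M then x i l j else 0) * η j =
      ∑ m ∈ D, ∑ j, (if fl (u j) - fl (t l) = m then x i l j else 0) * η j := by
    intro i l
    rw [Finset.sum_comm]
    refine Finset.sum_congr rfl fun j _ => ?_
    rw [← Finset.sum_mul]
    congr 1
    rw [Finset.sum_ite_eq]
    have : (fl (u j) - fl (t l) ∈ D) ↔ fl (u j) - fl (t l) ≤ M := by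
      rw [hDdef, Finset.mem_filter]
      constructor
      · exact fun h => h.2
      · exact fun h => ⟨Finset.mem_image.2 ⟨(j, l), Finset.mem_univ _, rfl⟩, h⟩
    simp only [this]
  calc ∑ i, ∑ l, ‖∑ j, (if fl (u j) - fl (t l) ≤ M then x i l j else 0) * η j‖ ^ 2
      ≤ ∑ i, ∑ l, W * ∑ m ∈ D, (w m)⁻¹ *
          ‖∑ j, (if fl (u j) - fl (t l) = m then x i l j else 0) * η j‖ ^ 2 := by
        refine Finset.sum_le_sum fun i _ => Finset.sum_le_sum fun l _ => ?_
        rw [hsplit i l]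
        exact wcs D w (fun m => Real.exp_pos _) _
    _ = W * ∑ m ∈ D, (w m)⁻¹ * ∑ i, ∑ l,
          ‖∑ j, (if fl (u j) - fl (t l) = m then x i l j else 0) * η j‖ ^ 2 := by
        have hc : ∀ i, ∑ l, ∑ m ∈ D, (w m)⁻¹ *
            ‖∑ j, (if fl (u j) - fl (t l) = m then x i l j else 0) * η j‖ ^ 2 =
            ∑ m ∈ D, ∑ l, (w m)⁻¹ *
              ‖∑ j, (if fl (u j) - fl (t l) = m then x i l j else 0) * η j‖ ^ 2 :=
          fun i => Finset.sum_comm
        simp only [← Finset.mul_sum]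
        congr 1
        rw [Finset.sum_congr rfl fun i _ => hc i, Finset.sum_comm]
        refine Finset.sum_congr rfl fun m _ => ?_
        simp only [Finset.mul_sum]
    _ ≤ W * ∑ m ∈ D, (w m)⁻¹ * (ρ * Real.exp (m + 1) * ∑ j, ‖η j‖ ^ 2) := by
        refine mul_le_mul_of_nonneg_left (Finset.sum_le_sum fun m _ => ?_) hW0
        exact mul_le_mul_of_nonneg_left (exact x t u ht hu ρ hρ h m η)
          (inv_nonneg.2 (Real.exp_pos _).le)
    _ = W * (W * (ρ * Real.exp (M + 1) * ∑ j, ‖η j‖ ^ 2)) := by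
        congr 1
        rw [hW, Finset.sum_mul]
        refine Finset.sum_congr rfl fun m _ => ?_
        have h1 : (w m)⁻¹ * Real.exp (m + 1) = w m * Real.exp (M + 1) := by
          rw [hw]
          simp only
          rw [← Real.exp_neg, ← Real.exp_add, ← Real.exp_add]
          congr 1
          ring
        calc (w m)⁻¹ * (ρ * Real.exp (m + 1) * ∑ j, ‖η j‖ ^ 2)
            = ((w m)⁻¹ * Real.exp (m + 1)) * (ρ * ∑ j, ‖η j‖ ^ 2) := by ring
          _ = _ := by rw [h1]; ring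
    _ = (Real.exp 1 * W ^ 2) * (ρ * Real.exp M * ∑ j, ‖η j‖ ^ 2) := by
        rw [Real.exp_add]
        ring
    _ ≤ 20 * (ρ * Real.exp M * ∑ j, ‖η j‖ ^ 2) := by
        refine mul_le_mul_of_nonneg_right ?_ (by positivity)
        refine le_trans ?_ const
        exact mul_le_mul_of_nonneg_left (pow_le_pow_left₀ hW0 hWle 2) (Real.exp_pos _).le
    _ = _ := by ring

private lemma adj {d : ℕ} (A : Fin d → Fin d → ℂ) (C : ℝ) (hC : 0 ≤ C)
    (h : ∀ ξ : Fin d → ℂ, ∑ j, ‖∑ l, A j l * ξ l‖ ^ 2 ≤ C * ∑ l, ‖ξ l‖ ^ 2) (η : Fin d → ℂ) :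
    ∑ l, ‖∑ j, (starRingEnd ℂ) (A j l) * η j‖ ^ 2 ≤ C * ∑ j, ‖η j‖ ^ 2 := by
  set v : Fin d → ℂ := fun l => ∑ j, (starRingEnd ℂ) (A j l) * η j with hv
  set z : Fin d → ℂ := fun j => ∑ l, A j l * v l with hz
  have h1 : ((∑ l, ‖v l‖ ^ 2 : ℝ) : ℂ) = ∑ j, (starRingEnd ℂ) (z j) * η j := by
    push_cast
    have : ∀ l, ((‖v l‖ : ℂ)) ^ 2 = (starRingEnd ℂ) (v l) * v l := fun l => by
      rw [Complex.conj_mul']
    calc ∑ l, ((‖v l‖ : ℂ)) ^ 2 = ∑ l, (starRingEnd ℂ) (v l) * ∑ j, (starRingEnd ℂ) (A j l) * η j :=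
          Finset.sum_congr rfl fun l _ => this l
      _ = ∑ l, ∑ j, (starRingEnd ℂ) (v l) * ((starRingEnd ℂ) (A j l) * η j) := by
          simp only [Finset.mul_sum]
      _ = ∑ j, ∑ l, (starRingEnd ℂ) (v l) * ((starRingEnd ℂ) (A j l) * η j) := Finset.sum_comm
      _ = ∑ j, (starRingEnd ℂ) (z j) * η j := by
          refine Finset.sum_congr rfl fun j _ => ?_
          simp only [hz, map_sum, map_mul, Finset.sum_mul]
          refine Finset.sum_congr rfl fun l _ => by ring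
  have h2 : (∑ l, ‖v l‖ ^ 2) ≤ ∑ j, ‖z j‖ * ‖η j‖ := by
    have h3 : ‖((∑ l, ‖v l‖ ^ 2 : ℝ) : ℂ)‖ ≤ ∑ j, ‖z j‖ * ‖η j‖ := by
      rw [h1]
      refine (norm_sum_le _ _).trans (Finset.sum_le_sum fun j _ => ?_)
      rw [norm_mul, RCLike.norm_conj]
    rwa [Complex.norm_real, Real.norm_of_nonneg (Finset.sum_nonneg fun l _ => sq_nonneg _)] at h3
  have h3 : (∑ j, ‖z j‖ * ‖η j‖) ^ 2 ≤ (∑ j, ‖z j‖ ^ 2) * ∑ j, ‖η j‖ ^ 2 :=
    Finset.sum_mul_sq_le_sq_mul_sq _ _ _
  have h4 : ∑ j, ‖z j‖ ^ 2 ≤ C * ∑ l, ‖v l‖ ^ 2 := h v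
  set V := ∑ l, ‖v l‖ ^ 2 with hV
  have hV0 : 0 ≤ V := Finset.sum_nonneg fun l _ => sq_nonneg _
  have hE0 : 0 ≤ ∑ j, ‖η j‖ ^ 2 := Finset.sum_nonneg fun l _ => sq_nonneg _
  have hz0 : 0 ≤ ∑ j, ‖z j‖ * ‖η j‖ := Finset.sum_nonneg fun l _ => by positivity
  have h5 : V ^ 2 ≤ (C * V) * ∑ j, ‖η j‖ ^ 2 :=
    (pow_le_pow_left₀ hV0 h2 2).trans (h3.trans (mul_le_mul_of_nonneg_right h4 hE0))
  rcases hV0.eq_or_lt with h0 | h0
  · show V ≤ _
    rw [← h0]
    positivity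
  · show V ≤ _
    by_contra hc
    push Not at hc
    nlinarith

private lemma cross (K L : ℕ) (ρ : ℝ) (hρ : 0 < ρ) (hKe : (K : ℝ) ≤ Real.exp L)
    (S : Fin K → ℝ) (E : ℝ) (hE : 0 ≤ E)
    (h : ∀ i, S i ≤ 20 * ρ * Real.exp ((-(L + 1) : ℤ)) * E) :
    ∑ i, S i ≤ 20 * ρ * Real.exp (L + 1) * E := by
  calc ∑ i, S i ≤ ∑ _i : Fin K, 20 * ρ * Real.exp ((-(L + 1) : ℤ)) * E :=
        Finset.sum_le_sum fun i _ => h i
    _ = K * (20 * ρ * Real.exp ((-(L + 1) : ℤ)) * E) := by simp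
    _ ≤ Real.exp L * (20 * ρ * Real.exp ((-(L + 1) : ℤ)) * E) :=
        mul_le_mul_of_nonneg_right hKe (by positivity)
    _ = (20 * ρ * E) * (Real.exp L * Real.exp ((-(L + 1) : ℤ))) := by ring
    _ ≤ (20 * ρ * E) * Real.exp (L + 1) := by
        refine mul_le_mul_of_nonneg_left ?_ (by positivity)
        rw [← Real.exp_add]
        refine Real.exp_le_exp.2 ?_
        push_cast
        have : (0 : ℝ) ≤ L := Nat.cast_nonneg L
        linarith
    _ = _ := by ring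

end DecB

open DecB in
/-- DEC-B (pure matrices, diagonal weights) : the splitting -/
theorem dec_split (d K : ℕ) (hK : 1 ≤ K) (y : Fin K → Fin d → Fin d → ℂ) (t u : Fin d → ℝ)
    (ht : ∀ l, 1 ≤ t l) (hu : ∀ j, 1 ≤ u j) (ρ : ℝ) (hρ : 0 < ρ)
    (h1 : ∀ η : Fin d → ℂ, ∑ i, ∑ l, t l * ‖∑ j, (starRingEnd ℂ) (y i j l) * η j‖ ^ 2 ≤
      ρ * ∑ j, u j * ‖η j‖ ^ 2)
    (h2 : ∀ ξ : Fin d → ℂ, ∑ i, ∑ j, u j * ‖∑ l, y i j l * ξ l‖ ^ 2 ≤
      ρ * ∑ l, t l * ‖ξ l‖ ^ 2) (L : ℕ) (hL : Real.log K ≤ L) :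
    ∃ Z : Fin (2 * L + 3) → Fin K → Fin d → Fin d → ℂ, (∀ i j l, y i j l = ∑ k, Z k i j l) ∧
      (∀ k, ∀ η : Fin d → ℂ, ∑ i, ∑ l, ‖∑ j, (starRingEnd ℂ) (Z k i j l) * η j‖ ^ 2 ≤
        20 * ρ * Real.exp ((k : ℝ) - L - 1) * ∑ j, ‖η j‖ ^ 2) ∧
      (∀ k, ∀ ξ : Fin d → ℂ, ∑ i, ∑ j, ‖∑ l, Z k i j l * ξ l‖ ^ 2 ≤
        20 * ρ * Real.exp ((L : ℝ) + 1 - k) * ∑ l, ‖ξ l‖ ^ 2) := by
  classical
  have hKe : (K : ℝ) ≤ Real.exp L := by
    have hK0 : (0 : ℝ) < K := by exact_mod_cast hK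
    rw [← Real.exp_log hK0]
    exact Real.exp_le_exp.2 hL
  have he20 : Real.exp 1 ≤ 20 := by
    have : Real.exp 1 < 2.7182818286 := Real.exp_one_lt_d9
    linarith
  -- the class of an entry
  let c : Fin d → Fin d → ℤ := fun j l => fl (u j) - fl (t l)
  let κ : Fin d → Fin d → Fin (2 * L + 3) := fun j l =>
    ⟨(max 0 (min (c j l + L + 1) (2 * L + 2))).toNat, by omega⟩
  have hκ : ∀ j l (k : Fin (2 * L + 3)), κ j l = k ↔
      (max 0 (min (c j l + L + 1) (2 * L + 2))) = ((k : ℕ) : ℤ) := by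
    intro j l k
    rw [Fin.ext_iff]
    show (max 0 (min (c j l + L + 1) (2 * L + 2))).toNat = (k : ℕ) ↔ _
    omega
  refine ⟨fun k i j l => if κ j l = k then y i j l else 0, ?_, ?_, ?_⟩
  · intro i j l
    rw [Finset.sum_ite_eq]
    simp
  · -- row estimates
    have hx : ∀ η : Fin d → ℂ, ∑ i, ∑ l, t l * ‖∑ j, (fun i l j => (starRingEnd ℂ) (y i j l)) i l j *
        η j‖ ^ 2 ≤ ρ * ∑ j, u j * ‖η j‖ ^ 2 := h1
    intro k η
    by_cases hk0 : (k : ℕ) = 0
    · have h3 := tail (fun i l j => (starRingEnd ℂ) (y i j l)) t u ht hu ρ hρ hx (-(L + 1)) η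
      have h4 : ∀ i j l, (starRingEnd ℂ) (if κ j l = k then y i j l else 0) =
          if fl (u j) - fl (t l) ≤ (-(L + 1) : ℤ) then (starRingEnd ℂ) (y i j l) else 0 := by
        intro i j l
        have h5 : κ j l = k ↔ fl (u j) - fl (t l) ≤ (-(L + 1) : ℤ) := by
          rw [hκ]
          show (max 0 (min (fl (u j) - fl (t l) + L + 1) (2 * L + 2))) = _ ↔ _
          omega
        simp only [h5, apply_ite (starRingEnd ℂ), map_zero]
      simp only [h4]
      refine h3.trans (le_of_eq ?_)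
      rw [hk0]
      push_cast
      ring_nf
    by_cases hk1 : (k : ℕ) = 2 * L + 2
    · have h3 := tail (fun i j l => y i j l) u t hu ht ρ hρ h2 (-(L + 1))
      have h4 : ∀ i j l, (if κ j l = k then y i j l else 0) =
          if fl (t l) - fl (u j) ≤ (-(L + 1) : ℤ) then y i j l else 0 := by
        intro i j l
        have h5 : κ j l = k ↔ fl (t l) - fl (u j) ≤ (-(L + 1) : ℤ) := by
          rw [hκ]
          show (max 0 (min (fl (u j) - fl (t l) + L + 1) (2 * L + 2))) = _ ↔ _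
          omega
        simp only [h5]
      simp only [h4]
      have h5 : ∀ i, ∑ l, ‖∑ j, (starRingEnd ℂ) (if fl (t l) - fl (u j) ≤ (-(L + 1) : ℤ) then
          y i j l else 0) * η j‖ ^ 2 ≤ 20 * ρ * Real.exp ((-(L + 1) : ℤ)) * ∑ j, ‖η j‖ ^ 2 := by
        intro i
        refine adj (fun j l => if fl (t l) - fl (u j) ≤ (-(L + 1) : ℤ) then y i j l else 0) _
          (by positivity) (fun ξ => ?_) η
        refine le_trans ?_ (h3 ξ)
        exact Finset.single_le_sum (f := fun i => ∑ j, ‖∑ l, (if fl (t l) - fl (u j) ≤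
          (-(L + 1) : ℤ) then y i j l else 0) * ξ l‖ ^ 2)
          (fun i _ => Finset.sum_nonneg fun j _ => sq_nonneg _) (Finset.mem_univ i)
      have h6 : ((k : ℕ) : ℝ) - L - 1 = (L : ℝ) + 1 := by
        rw [hk1]
        push_cast
        ring
      rw [h6]
      exact cross K L ρ hρ hKe _ _ (Finset.sum_nonneg fun j _ => sq_nonneg _) h5
    · have h3 := exact (fun i l j => (starRingEnd ℂ) (y i j l)) t u ht hu ρ hρ hx
        ((k : ℕ) - L - 1) η
      have h4 : ∀ i j l, (starRingEnd ℂ) (if κ j l = k then y i j l else 0) =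
          if fl (u j) - fl (t l) = ((k : ℕ) - L - 1 : ℤ) then (starRingEnd ℂ) (y i j l) else 0 := by
        intro i j l
        have h5 : κ j l = k ↔ fl (u j) - fl (t l) = ((k : ℕ) - L - 1 : ℤ) := by
          rw [hκ]
          show (max 0 (min (fl (u j) - fl (t l) + L + 1) (2 * L + 2))) = _ ↔ _
          omega
        simp only [h5, apply_ite (starRingEnd ℂ), map_zero]
      simp only [h4]
      refine h3.trans ?_
      have h6 : (((k : ℕ) - L - 1 : ℤ) : ℝ) + 1 = 1 + ((k : ℝ) - L - 1) := by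
        push_cast
        ring
      rw [h6, Real.exp_add]
      have h7 : 0 ≤ ρ * Real.exp ((k : ℝ) - L - 1) * ∑ j, ‖η j‖ ^ 2 := by positivity
      nlinarith
  · -- column estimates
    intro k ξ
    by_cases hk1 : (k : ℕ) = 2 * L + 2
    · have h3 := tail (fun i j l => y i j l) u t hu ht ρ hρ h2 (-(L + 1)) ξ
      have h4 : ∀ i j l, (if κ j l = k then y i j l else 0) =
          if fl (t l) - fl (u j) ≤ (-(L + 1) : ℤ) then y i j l else 0 := by
        intro i j l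
        have h5 : κ j l = k ↔ fl (t l) - fl (u j) ≤ (-(L + 1) : ℤ) := by
          rw [hκ]
          show (max 0 (min (fl (u j) - fl (t l) + L + 1) (2 * L + 2))) = _ ↔ _
          omega
        simp only [h5]
      simp only [h4]
      refine h3.trans (le_of_eq ?_)
      rw [hk1]
      push_cast
      ring_nf
    by_cases hk0 : (k : ℕ) = 0
    · have h3 := tail (fun i l j => (starRingEnd ℂ) (y i j l)) t u ht hu ρ hρ h1 (-(L + 1))
      have h4 : ∀ i j l, (if κ j l = k then y i j l else 0) =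
          (starRingEnd ℂ) (if fl (u j) - fl (t l) ≤ (-(L + 1) : ℤ) then
            (starRingEnd ℂ) (y i j l) else 0) := by
        intro i j l
        have h5 : κ j l = k ↔ fl (u j) - fl (t l) ≤ (-(L + 1) : ℤ) := by
          rw [hκ]
          show (max 0 (min (fl (u j) - fl (t l) + L + 1) (2 * L + 2))) = _ ↔ _
          omega
        simp only [h5, apply_ite (starRingEnd ℂ), map_zero, Complex.conj_conj]
      simp only [h4]
      have h5 : ∀ i, ∑ j, ‖∑ l, (starRingEnd ℂ) (if fl (u j) - fl (t l) ≤ (-(L + 1) : ℤ) then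
          (starRingEnd ℂ) (y i j l) else 0) * ξ l‖ ^ 2 ≤
          20 * ρ * Real.exp ((-(L + 1) : ℤ)) * ∑ l, ‖ξ l‖ ^ 2 := by
        intro i
        refine adj (fun l j => if fl (u j) - fl (t l) ≤ (-(L + 1) : ℤ) then
          (starRingEnd ℂ) (y i j l) else 0) _ (by positivity) (fun η => ?_) ξ
        refine le_trans ?_ (h3 η)
        exact Finset.single_le_sum (f := fun i => ∑ l, ‖∑ j, (if fl (u j) - fl (t l) ≤
          (-(L + 1) : ℤ) then (starRingEnd ℂ) (y i j l) else 0) * η j‖ ^ 2)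
          (fun i _ => Finset.sum_nonneg fun j _ => sq_nonneg _) (Finset.mem_univ i)
      have h6 : (L : ℝ) + 1 - ((k : ℕ) : ℝ) = (L : ℝ) + 1 := by
        rw [hk0]
        simp
      rw [h6]
      exact cross K L ρ hρ hKe _ _ (Finset.sum_nonneg fun j _ => sq_nonneg _) h5
    · have h3 := exact (fun i j l => y i j l) u t hu ht ρ hρ h2 ((L : ℤ) + 1 - (k : ℕ)) ξ
      have h4 : ∀ i j l, (if κ j l = k then y i j l else 0) =
          if fl (t l) - fl (u j) = ((L : ℤ) + 1 - (k : ℕ)) then y i j l else 0 := by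
        intro i j l
        have h5 : κ j l = k ↔ fl (t l) - fl (u j) = ((L : ℤ) + 1 - (k : ℕ)) := by
          rw [hκ]
          show (max 0 (min (fl (u j) - fl (t l) + L + 1) (2 * L + 2))) = _ ↔ _
          omega
        simp only [h5]
      simp only [h4]
      refine h3.trans ?_
      have h6 : (((L : ℤ) + 1 - (k : ℕ) : ℤ) : ℝ) + 1 = 1 + ((L : ℝ) + 1 - k) := by
        push_cast
        ring
      rw [h6, Real.exp_add]
      have h7 : 0 ≤ ρ * Real.exp ((L : ℝ) + 1 - k) * ∑ l, ‖ξ l‖ ^ 2 := by positivity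
      nlinarith

end Pool.Agent.Helper67.Inj
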