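import Pool.Agent.Helper67.Inj.Defs

set_option autoImplicit false

open scoped InnerProductSpace ComplexOrder TensorProduct Topology

namespace Pool.Agent.Helper67.Inj

universe u

variable {H : Type u} [NormedAddCommGroup H] [InnerProductSpace ℂ H] [CompleteSpace H]

theorem rowSq_nonneg {ι : Type*} [Fintype ι] (x : ι → (H →L[ℂ] H)) : 0 ≤ rowSq x := norm_nonneg _

theorem colSq_nonneg {ι : Type*} [Fintype ι] (x : ι → (H →L[ℂ] H)) : 0 ≤ colSq x := norm_nonneg _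

private lemma rc_inner {ι : Type*} [Fintype ι] (x : ι → (H →L[ℂ] H)) (ξ : H) :
    ⟪ξ, (∑ i, star (x i) * x i) ξ⟫_ℂ = ((∑ i, ‖x i ξ‖ ^ 2 : ℝ) : ℂ) := by
  rw [sum_apply, inner_sum, Complex.ofReal_sum]
  apply Finset.sum_congr rfl
  intro i _
  rw [mul_apply_eq_comp, ContinuousLinearMap.star_eq_adjoint,
    ContinuousLinearMap.adjoint_inner_right, inner_self_eq_norm_sq_to_K]
  norm_cast

private lemma rc_nonneg {ι : Type*} [Fintype ι] (x : ι → (H →L[ℂ] H)) :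
    0 ≤ ∑ i, star (x i) * x i :=
  Finset.sum_nonneg fun i _ => star_mul_self_nonneg (x i)

theorem colSq_eq_sup {ι : Type*} [Fintype ι] (x : ι → (H →L[ℂ] H)) (c : ℝ) (hc : 0 ≤ c) :
    colSq x ≤ c ↔ ∀ ξ : H, ∑ i, ‖x i ξ‖ ^ 2 ≤ c * ‖ξ‖ ^ 2 := by
  constructor
  · intro h ξ
    have h1 := rc_inner x ξ
    have h2 : (∑ i, ‖x i ξ‖ ^ 2 : ℝ) = (⟪ξ, (∑ i, star (x i) * x i) ξ⟫_ℂ).re := by
      rw [h1, Complex.ofReal_re]
    rw [h2]
    calc (⟪ξ, (∑ i, star (x i) * x i) ξ⟫_ℂ).re ≤ ‖⟪ξ, (∑ i, star (x i) * x i) ξ⟫_ℂ‖ :=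
          Complex.re_le_norm _
      _ ≤ ‖ξ‖ * ‖(∑ i, star (x i) * x i) ξ‖ := norm_inner_le_norm _ _
      _ ≤ ‖ξ‖ * (‖∑ i, star (x i) * x i‖ * ‖ξ‖) := by
          gcongr
          exact ContinuousLinearMap.le_opNorm _ _
      _ ≤ ‖ξ‖ * (c * ‖ξ‖) := by
          gcongr
          exact h
      _ = c * ‖ξ‖ ^ 2 := by ring
  · intro h
    unfold colSq
    rw [CStarAlgebra.norm_le_iff_le_algebraMap _ hc (rc_nonneg x), ContinuousLinearMap.le_def,
      ContinuousLinearMap.isPositive_iff_complex]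
    intro ξ
    have h1 := rc_inner x ξ
    have h2 : ⟪(algebraMap ℝ (H →L[ℂ] H) c - ∑ i, star (x i) * x i) ξ, ξ⟫_ℂ =
        ((c * ‖ξ‖ ^ 2 - ∑ i, ‖x i ξ‖ ^ 2 : ℝ) : ℂ) := by
      rw [← inner_conj_symm, sub_apply, inner_sub_right, h1]
      have h3 : (algebraMap ℝ (H →L[ℂ] H) c) ξ = (c : ℂ) • ξ := by
        rw [Algebra.algebraMap_eq_smul_one]
        simp
      have h4 : ⟪ξ, ξ⟫_ℂ = ((‖ξ‖ ^ 2 : ℝ) : ℂ) := by
        rw [inner_self_eq_norm_sq_to_K]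
        norm_cast
      rw [h3, inner_smul_right, h4, ← Complex.ofReal_mul, ← Complex.ofReal_sub,
        Complex.conj_ofReal]
    rw [h2]
    constructor
    · rw [RCLike.re_to_complex, Complex.ofReal_re]
    · rw [RCLike.re_to_complex, Complex.ofReal_re]
      linarith [h ξ]

theorem rowSq_eq_sup {ι : Type*} [Fintype ι] (x : ι → (H →L[ℂ] H)) (c : ℝ) (hc : 0 ≤ c) :
    rowSq x ≤ c ↔ ∀ ξ : H, ∑ i, ‖star (x i) ξ‖ ^ 2 ≤ c * ‖ξ‖ ^ 2 := by
  have h := colSq_eq_sup (fun i => star (x i)) c hc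
  have h2 : colSq (fun i => star (x i)) = rowSq x := by
    unfold colSq rowSq
    simp only [star_star]
  rw [h2] at h
  exact h

theorem rowSq_le_card_mul_colSq {ι : Type*} [Fintype ι] (x : ι → (H →L[ℂ] H)) :
    rowSq x ≤ (Fintype.card ι : ℝ) * colSq x := by
  unfold rowSq
  refine (norm_sum_le _ _).trans ?_
  have h1 : ∀ i ∈ Finset.univ, ‖x i * star (x i)‖ ≤ colSq x := by
    intro i hi
    rw [CStarRing.norm_self_mul_star, ← CStarRing.norm_star_mul_self]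
    unfold colSq
    exact CStarAlgebra.norm_le_norm_of_nonneg_of_le (star_mul_self_nonneg _)
      (Finset.single_le_sum (f := fun i => star (x i) * x i)
        (fun j _ => star_mul_self_nonneg (x j)) hi)
  refine (Finset.sum_le_sum h1).trans ?_
  simp

end Pool.Agent.Helper67.Inj
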