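import Pool.Agent.Helper67.Inj.DecA
import Pool.Agent.Helper67.Inj.DecB
import Pool.Agent.Helper67.Inj.Rc

set_option autoImplicit false

open scoped InnerProductSpace ComplexOrder TensorProduct Topology

namespace Pool.Agent.Helper67.Inj

universe u

variable {H : Type u} [NormedAddCommGroup H] [InnerProductSpace ℂ H] [CompleteSpace H]

namespace DecFin

open Matrix

/-- diagonalisation -/
theorem diagonalise {d : ℕ} (T : Matrix (Fin d) (Fin d) ℂ) (hT : (T - 1).PosSemidef) :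
    ∃ (B : OrthonormalBasis (Fin d) ℂ (EuclideanSpace ℂ (Fin d))) (Q : Matrix (Fin d) (Fin d) ℂ)
      (t : Fin d → ℝ), (∀ k l, Q k l = B l k) ∧ (∀ l, 1 ≤ t l) ∧ Q * Qᴴ = 1 ∧ Qᴴ * Q = 1 ∧
      T = Q * diagonal (fun l => (t l : ℂ)) * Qᴴ := by
  classical
  have hh : T.IsHermitian := by
    have h1 : (T - 1).IsHermitian := hT.1
    have h2 : (1 : Matrix (Fin d) (Fin d) ℂ).IsHermitian := isHermitian_one
    have := h1.add h2
    simpa using this
  refine ⟨hh.eigenvectorBasis, (hh.eigenvectorUnitary : Matrix (Fin d) (Fin d) ℂ),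
    hh.eigenvalues, fun k l => rfl, ?_, ?_, ?_, ?_⟩
  · intro l
    have h3 := hT.conjTranspose_mul_mul_same (hh.eigenvectorUnitary : Matrix (Fin d) (Fin d) ℂ)
    have h4 : (hh.eigenvectorUnitary : Matrix (Fin d) (Fin d) ℂ)ᴴ * (T - 1) *
        (hh.eigenvectorUnitary : Matrix (Fin d) (Fin d) ℂ) =
        diagonal (fun l => ((hh.eigenvalues l - 1 : ℝ) : ℂ)) := by
      have h5 := hh.conjStarAlgAut_star_eigenvectorUnitary
      rw [Unitary.conjStarAlgAut_star_apply] at h5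
      have h6 : (hh.eigenvectorUnitary : Matrix (Fin d) (Fin d) ℂ)ᴴ *
          (hh.eigenvectorUnitary : Matrix (Fin d) (Fin d) ℂ) = 1 := by
        have := (Matrix.mem_unitaryGroup_iff').1 hh.eigenvectorUnitary.2
        simpa [star_eq_conjTranspose] using this
      rw [Matrix.mul_sub, Matrix.sub_mul, Matrix.mul_one, h6]
      rw [star_eq_conjTranspose] at h5
      rw [h5]
      ext i j
      by_cases hij : i = j
      · subst hij; simp
      · simp [hij]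
    rw [h4] at h3
    have h7 := h3.diag_nonneg (i := l)
    simp only [diagonal_apply_eq] at h7
    have h8 : (0 : ℝ) ≤ hh.eigenvalues l - 1 := by exact_mod_cast h7
    linarith
  · have := (Matrix.mem_unitaryGroup_iff).1 hh.eigenvectorUnitary.2
    simpa [star_eq_conjTranspose] using this
  · have := (Matrix.mem_unitaryGroup_iff').1 hh.eigenvectorUnitary.2
    simpa [star_eq_conjTranspose] using this
  · have h5 := hh.spectral_theorem
    rw [Unitary.conjStarAlgAut_apply, star_eq_conjTranspose] at h5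
    exact h5

/-- quadratic form version of the matrix inequality -/
theorem quad_of_posSemidef {d K : ℕ} (y : Fin K → Matrix (Fin d) (Fin d) ℂ) (t u : Fin d → ℝ)
    (ρ : ℝ)
    (h : ((ρ : ℂ) • diagonal (fun l => (t l : ℂ)) -
      ∑ i, (y i)ᴴ * diagonal (fun j => (u j : ℂ)) * y i).PosSemidef) (ξ : Fin d → ℂ) :
    ∑ i, ∑ j, u j * ‖∑ l, y i j l * ξ l‖ ^ 2 ≤ ρ * ∑ l, t l * ‖ξ l‖ ^ 2 := by
  have h1 := h.dotProduct_mulVec_nonneg ξ
  rw [sub_mulVec, dotProduct_sub] at h1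
  have h2 : star ξ ⬝ᵥ ((ρ : ℂ) • diagonal (fun l => (t l : ℂ))) *ᵥ ξ =
      ((ρ * ∑ l, t l * ‖ξ l‖ ^ 2 : ℝ) : ℂ) := by
    rw [smul_mulVec, dotProduct_smul]
    simp only [dotProduct, mulVec_diagonal, Pi.star_apply, smul_eq_mul]
    push_cast
    congr 1
    refine Finset.sum_congr rfl fun l _ => ?_
    have : star (ξ l) * ξ l = ((‖ξ l‖ : ℂ)) ^ 2 := by
      rw [mul_comm]; exact Complex.mul_conj' (ξ l)
    rw [← this]; ring
  have h3 : star ξ ⬝ᵥ (∑ i, (y i)ᴴ * diagonal (fun j => (u j : ℂ)) * y i) *ᵥ ξ =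
      ((∑ i, ∑ j, u j * ‖∑ l, y i j l * ξ l‖ ^ 2 : ℝ) : ℂ) := by
    rw [sum_mulVec, dotProduct_sum]
    push_cast
    refine Finset.sum_congr rfl fun i _ => ?_
    rw [Matrix.mul_assoc, ← mulVec_mulVec, dotProduct_mulVec, ← star_mulVec, ← mulVec_mulVec]
    simp only [dotProduct, mulVec_diagonal, Pi.star_apply]
    refine Finset.sum_congr rfl fun j _ => ?_
    have h4 : (y i *ᵥ ξ) j = ∑ l, y i j l * ξ l := rfl
    rw [h4]
    have : star (∑ l, y i j l * ξ l) * (∑ l, y i j l * ξ l) =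
        ((‖∑ l, y i j l * ξ l‖ : ℂ)) ^ 2 := by
      rw [mul_comm]; exact Complex.mul_conj' _
    rw [← this]; ring
  rw [h2, h3] at h1
  have h5 : (0 : ℝ) ≤ ρ * ∑ l, t l * ‖ξ l‖ ^ 2 - ∑ i, ∑ j, u j * ‖∑ l, y i j l * ξ l‖ ^ 2 := by
    exact_mod_cast h1
  linarith

/-- finite rank operator with a given matrix -/
noncomputable def opm {d : ℕ} (f g : Fin d → H) (Z : Fin d → Fin d → ℂ) : H →L[ℂ] H :=
  ∑ j, ∑ l, Z j l • InnerProductSpace.rankOne ℂ (f j) (g l)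

theorem opm_apply {d : ℕ} (f g : Fin d → H) (Z : Fin d → Fin d → ℂ) (ξ : H) :
    opm f g Z ξ = ∑ j, (∑ l, Z j l * ⟪g l, ξ⟫_ℂ) • f j := by
  simp only [opm, _root_.sum_apply, _root_.smul_apply,
    InnerProductSpace.rankOne_apply, Finset.sum_smul, smul_smul]

theorem star_opm {d : ℕ} (f g : Fin d → H) (Z : Fin d → Fin d → ℂ) :
    star (opm f g Z) = opm g f (fun l j => (starRingEnd ℂ) (Z j l)) := by
  simp only [opm, star_sum, star_smul, ContinuousLinearMap.star_eq_adjoint,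
    InnerProductSpace.adjoint_rankOne]
  rw [Finset.sum_comm]
  rfl

theorem norm_sq_comb {d : ℕ} (f : Fin d → H) (hf : Orthonormal ℂ f) (c : Fin d → ℂ) :
    ‖∑ j, c j • f j‖ ^ 2 = ∑ j, ‖c j‖ ^ 2 := by
  have h := hf.inner_sum c c Finset.univ
  have h2 : ((‖∑ j, c j • f j‖ ^ 2 : ℝ) : ℂ) = ((∑ j, ‖c j‖ ^ 2 : ℝ) : ℂ) := by
    have h3 := inner_self_eq_norm_sq_to_K (𝕜 := ℂ) (∑ j, c j • f j)
    push_cast
    rw [← Complex.coe_algebraMap] at *
    rw [← h3, h]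
    refine Finset.sum_congr rfl fun j _ => ?_
    rw [mul_comm]
    exact Complex.mul_conj' _
  exact_mod_cast h2

theorem colSq_opm {d K : ℕ} (f g : Fin d → H) (hf : Orthonormal ℂ f) (hg : Orthonormal ℂ g)
    (Z : Fin K → Fin d → Fin d → ℂ) (c : ℝ) (hc : 0 ≤ c)
    (h : ∀ ξ : Fin d → ℂ, ∑ i, ∑ j, ‖∑ l, Z i j l * ξ l‖ ^ 2 ≤ c * ∑ l, ‖ξ l‖ ^ 2) :
    colSq (fun i => opm f g (Z i)) ≤ c := by
  rw [colSq_eq_sup _ _ hc]
  intro ξ
  have h1 : ∀ i, ‖opm f g (Z i) ξ‖ ^ 2 = ∑ j, ‖∑ l, Z i j l * ⟪g l, ξ⟫_ℂ‖ ^ 2 := by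
    intro i
    rw [opm_apply, norm_sq_comb f hf]
  simp only [h1]
  refine (h fun l => ⟪g l, ξ⟫_ℂ).trans ?_
  exact mul_le_mul_of_nonneg_left (hg.sum_inner_products_le ξ) hc

theorem rowSq_opm {d K : ℕ} (f g : Fin d → H) (hf : Orthonormal ℂ f) (hg : Orthonormal ℂ g)
    (Z : Fin K → Fin d → Fin d → ℂ) (c : ℝ) (hc : 0 ≤ c)
    (h : ∀ η : Fin d → ℂ, ∑ i, ∑ l, ‖∑ j, (starRingEnd ℂ) (Z i j l) * η j‖ ^ 2 ≤
      c * ∑ j, ‖η j‖ ^ 2) :
    rowSq (fun i => opm f g (Z i)) ≤ c := by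
  rw [rowSq_eq_sup _ _ hc]
  intro ξ
  have h1 : ∀ i, ‖star (opm f g (Z i)) ξ‖ ^ 2 =
      ∑ l, ‖∑ j, (starRingEnd ℂ) (Z i j l) * ⟪f j, ξ⟫_ℂ‖ ^ 2 := by
    intro i
    rw [star_opm, opm_apply, norm_sq_comb g hg]
  simp only [h1]
  refine (h fun l => ⟪f l, ξ⟫_ℂ).trans ?_
  exact mul_le_mul_of_nonneg_left (hf.sum_inner_products_le ξ) hc

theorem bar_apply (C : H ≃ₗᵢ⋆[ℂ] H) (y : H →L[ℂ] H) (x : H) : bar C y (C x) = C (y x) := by
  simp [bar]

/-- vector of the Hilbert tensor product attached to a matrix -/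
noncomputable def tt {d : ℕ} (C : H ≃ₗᵢ⋆[ℂ] H) (E : Fin d → H) (a : Matrix (Fin d) (Fin d) ℂ) :
    H ⊗[ℂ] H := ∑ k, ∑ j, a k j • (E k ⊗ₜ[ℂ] C (E j))

theorem inner_C (C : H ≃ₗᵢ⋆[ℂ] H) (x y : H) : ⟪C x, C y⟫_ℂ = ⟪y, x⟫_ℂ := by
  rw [← inner_conj_symm y x, inner_eq_sum_norm_sq_div_four (C x) (C y),
    inner_eq_sum_norm_sq_div_four x y]
  have h1 : ‖C x + C y‖ = ‖x + y‖ := by rw [← map_add, C.norm_map]
  have h2 : ‖C x - C y‖ = ‖x - y‖ := by rw [← map_sub, C.norm_map]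
  have h3 : ‖C x - (RCLike.I : ℂ) • C y‖ = ‖x + (RCLike.I : ℂ) • y‖ := by
    rw [← C.norm_map (x + (RCLike.I : ℂ) • y), map_add, map_smulₛₗ]
    simp [sub_eq_add_neg]
  have h4 : ‖C x + (RCLike.I : ℂ) • C y‖ = ‖x - (RCLike.I : ℂ) • y‖ := by
    rw [← C.norm_map (x - (RCLike.I : ℂ) • y), map_sub, map_smulₛₗ]
    simp [sub_eq_add_neg]
  rw [h1, h2, h3, h4]
  simp only [map_div₀, map_add, map_sub, map_mul, map_pow, Complex.conj_ofReal, RCLike.I_to_complex,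
    Complex.conj_I, Complex.coe_algebraMap, map_ofNat]
  simp
  ring

theorem Phi_tt {d K : ℕ} (C : H ≃ₗᵢ⋆[ℂ] H) (E : Fin d → H) (y : Fin K → (H →L[ℂ] H))
    (a : Matrix (Fin d) (Fin d) ℂ) :
    Phi C y (tt C E a) = ∑ i, ∑ k, ∑ j, a k j • (y i (E k) ⊗ₜ[ℂ] C (y i (E j))) := by
  simp only [Phi, tt, _root_.sum_apply]
  refine Finset.sum_congr rfl fun i _ => ?_
  rw [map_sum]
  refine Finset.sum_congr rfl fun k _ => ?_
  rw [map_sum]
  refine Finset.sum_congr rfl fun j _ => ?_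
  rw [map_smul, TensorProduct.mapL_tmul, bar_apply]

theorem inner_smul_tmul (c c' : ℂ) (x y x' y' : H) :
    ⟪c • (x ⊗ₜ[ℂ] y), c' • (x' ⊗ₜ[ℂ] y')⟫_ℂ =
      (starRingEnd ℂ) c * c' * (⟪x, x'⟫_ℂ * ⟪y, y'⟫_ℂ) := by
  rw [TensorProduct.smul_tmul', TensorProduct.smul_tmul', TensorProduct.inner_tmul,
    inner_smul_left, inner_smul_right]
  ring

theorem inner_Phi {d K : ℕ} (C : H ≃ₗᵢ⋆[ℂ] H) (E : Fin d → H) (y : Fin K → (H →L[ℂ] H))
    (Y : Fin K → Matrix (Fin d) (Fin d) ℂ) (hY : ∀ i k j, Y i k j = ⟪E k, y i (E j)⟫_ℂ)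
    (a b : Matrix (Fin d) (Fin d) ℂ) :
    ⟪tt C E b, Phi C y (tt C E a)⟫_ℂ = ∑ i, (bᴴ * Y i * a * (Y i)ᴴ).trace := by
  rw [Phi_tt, inner_sum]
  refine Finset.sum_congr rfl fun i _ => ?_
  simp only [tt, sum_inner, inner_sum, inner_smul_tmul, inner_C]
  have h1 : (bᴴ * Y i * a * (Y i)ᴴ).trace =
      ∑ j, ∑ j', ∑ k', ∑ k, (starRingEnd ℂ) (b k j) * Y i k k' * a k' j' *
        (starRingEnd ℂ) (Y i j j') := by
    simp only [Matrix.trace, Matrix.diag, Matrix.mul_apply, Matrix.conjTranspose_apply,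
      Finset.sum_mul]
    rfl
  rw [h1]
  have h2 : ∀ k' j' k j, (starRingEnd ℂ) (b k j) * a k' j' *
      (⟪E k, y i (E k')⟫_ℂ * ⟪y i (E j'), E j⟫_ℂ) = (starRingEnd ℂ) (b k j) * Y i k k' * a k' j' *
        (starRingEnd ℂ) (Y i j j') := by
    intro k' j' k j
    rw [hY, hY, inner_conj_symm]
    ring
  simp only [h2]
  calc ∑ k', ∑ j', ∑ k, ∑ j, (starRingEnd ℂ) (b k j) * Y i k k' * a k' j' *
        (starRingEnd ℂ) (Y i j j')
      = ∑ k', ∑ j', ∑ j, ∑ k, (starRingEnd ℂ) (b k j) * Y i k k' * a k' j' *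
        (starRingEnd ℂ) (Y i j j') := by
        refine Finset.sum_congr rfl fun k' _ => Finset.sum_congr rfl fun j' _ => ?_
        exact Finset.sum_comm
    _ = ∑ j', ∑ k', ∑ j, ∑ k, (starRingEnd ℂ) (b k j) * Y i k k' * a k' j' *
        (starRingEnd ℂ) (Y i j j') := Finset.sum_comm
    _ = ∑ j', ∑ j, ∑ k', ∑ k, (starRingEnd ℂ) (b k j) * Y i k k' * a k' j' *
        (starRingEnd ℂ) (Y i j j') := by
        refine Finset.sum_congr rfl fun j' _ => ?_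
        exact Finset.sum_comm
    _ = ∑ j, ∑ j', ∑ k', ∑ k, (starRingEnd ℂ) (b k j) * Y i k k' * a k' j' *
        (starRingEnd ℂ) (Y i j j') := Finset.sum_comm

theorem norm_tt {d : ℕ} (C : H ≃ₗᵢ⋆[ℂ] H) (E : Fin d → H) (hE : Orthonormal ℂ E)
    (a : Matrix (Fin d) (Fin d) ℂ) :
    ‖tt C E a‖ = Real.sqrt (∑ i, ∑ j, ‖a i j‖ ^ 2) := by
  have h : ((‖tt C E a‖ ^ 2 : ℝ) : ℂ) = ((∑ i, ∑ j, ‖a i j‖ ^ 2 : ℝ) : ℂ) := by
    have h3 := inner_self_eq_norm_sq_to_K (𝕜 := ℂ) (tt C E a)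
    have h3' : ((‖tt C E a‖ ^ 2 : ℝ) : ℂ) = ⟪tt C E a, tt C E a⟫_ℂ := by
      rw [h3]; push_cast; rfl
    rw [h3']
    push_cast
    simp only [tt, sum_inner, inner_sum, inner_smul_tmul, inner_C]
    simp only [orthonormal_iff_ite.1 hE]
    refine Finset.sum_congr rfl fun k _ => ?_
    refine Finset.sum_congr rfl fun j _ => ?_
    rw [Finset.sum_eq_single k, Finset.sum_eq_single j]
    · simp only [if_true, mul_one]
      rw [mul_comm]
      exact Complex.mul_conj' _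
    · intro j' _ hj
      simp [Ne.symm hj]
    · simp
    · intro k' _ hk
      simp [hk]
    · simp
  have h4 : ‖tt C E a‖ ^ 2 = ∑ i, ∑ j, ‖a i j‖ ^ 2 := by exact_mod_cast h
  rw [← h4, Real.sqrt_sq (norm_nonneg _)]

theorem hY_bound {d K : ℕ} (C : H ≃ₗᵢ⋆[ℂ] H) (E : Fin d → H) (hE : Orthonormal ℂ E)
    (y : Fin K → (H →L[ℂ] H))
    (Y : Fin K → Matrix (Fin d) (Fin d) ℂ) (hY : ∀ i k j, Y i k j = ⟪E k, y i (E j)⟫_ℂ)
    (a b : Matrix (Fin d) (Fin d) ℂ) :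
    ‖∑ i, (bᴴ * Y i * a * (Y i)ᴴ).trace‖ ≤
      ‖Phi C y‖ * Real.sqrt (∑ i, ∑ j, ‖a i j‖ ^ 2) * Real.sqrt (∑ i, ∑ j, ‖b i j‖ ^ 2) := by
  rw [← inner_Phi C E y Y hY a b, ← norm_tt C E hE, ← norm_tt C E hE]
  calc ‖⟪tt C E b, Phi C y (tt C E a)⟫_ℂ‖ ≤ ‖tt C E b‖ * ‖Phi C y (tt C E a)‖ :=
        norm_inner_le_norm (𝕜 := ℂ) (tt C E b) (Phi C y (tt C E a))
    _ ≤ ‖tt C E b‖ * (‖Phi C y‖ * ‖tt C E a‖) := by
        gcongr
        exact (Phi C y).le_opNorm _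
    _ = _ := by ring

theorem proj_eq_opm (V : Submodule ℂ H) [FiniteDimensional ℂ V] {d : ℕ}
    (f g : OrthonormalBasis (Fin d) ℂ V) (y : H →L[ℂ] H) :
    V.starProjection * y * V.starProjection =
      opm (fun j => (f j : H)) (fun l => (g l : H)) (fun j l => ⟪(f j : H), y (g l : H)⟫_ℂ) := by
  ext ξ
  rw [opm_apply]
  change V.starProjection (y (V.starProjection ξ)) = _
  have h1 : V.starProjection ξ = ∑ l, ⟪(g l : H), ξ⟫_ℂ • (g l : H) := by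
    rw [g.starProjection_eq_sum_rankOne]
    simp only [_root_.sum_apply, InnerProductSpace.rankOne_apply]
  rw [h1, f.starProjection_eq_sum_rankOne]
  simp only [_root_.sum_apply, InnerProductSpace.rankOne_apply, map_sum, map_smul]
  simp only [Finset.smul_sum, Finset.sum_smul, smul_smul]
  rw [Finset.sum_comm]
  refine Finset.sum_congr rfl fun j _ => ?_
  refine Finset.sum_congr rfl fun l _ => ?_
  rw [mul_comm]

theorem opm_sum {d m : ℕ} (f g : Fin d → H) (Z : Fin m → Fin d → Fin d → ℂ) :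
    opm f g (fun j l => ∑ k, Z k j l) = ∑ k, opm f g (Z k) := by
  simp only [opm, Finset.sum_smul]
  calc ∑ j, ∑ l, ∑ k, Z k j l • InnerProductSpace.rankOne ℂ (f j) (g l)
      = ∑ j, ∑ k, ∑ l, Z k j l • InnerProductSpace.rankOne ℂ (f j) (g l) := by
        refine Finset.sum_congr rfl fun j _ => Finset.sum_comm
    _ = _ := Finset.sum_comm

/-- new orthonormal basis -/
theorem exists_basis {V : Submodule ℂ H} {d : ℕ} (e : OrthonormalBasis (Fin d) ℂ V)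
    (B : OrthonormalBasis (Fin d) ℂ (EuclideanSpace ℂ (Fin d))) (Q : Matrix (Fin d) (Fin d) ℂ)
    (hQ : ∀ k l, Q k l = B l k) :
    ∃ g : OrthonormalBasis (Fin d) ℂ V, ∀ l, (g l : H) = ∑ k, Q k l • (e k : H) := by
  refine ⟨B.map e.repr.symm, fun l => ?_⟩
  rw [OrthonormalBasis.map_apply, ← e.sum_repr_symm]
  simp [hQ]

theorem entries_eq {d : ℕ} (E : Fin d → H) (y : H →L[ℂ] H)
    (Y W Q : Matrix (Fin d) (Fin d) ℂ) (hY : ∀ k j, Y k j = ⟪E k, y (E j)⟫_ℂ) (j l : Fin d) :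
    ⟪∑ k, W k j • E k, y (∑ k, Q k l • E k)⟫_ℂ = (Wᴴ * Y * Q) j l := by
  simp only [map_sum, map_smul, sum_inner, inner_sum, inner_smul_left, inner_smul_right,
    Matrix.mul_apply, Matrix.conjTranspose_apply, Finset.sum_mul, hY]
  refine Finset.sum_congr rfl fun k _ => ?_
  rw [Finset.mul_sum]
  refine Finset.sum_congr rfl fun k' _ => ?_
  simp only [starRingEnd_apply]
  ring

end DecFin

open DecFin Matrix in
/-- DEC-FIN : decomposition for compressions to finite dimensional subspaces -/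
theorem dec_fin (C : H ≃ₗᵢ⋆[ℂ] H) (V : Submodule ℂ H) [FiniteDimensional ℂ V] (K : ℕ)
    (hK : 1 ≤ K) (y : Fin K → (H →L[ℂ] H)) (ρ : ℝ) (hρ : ‖Phi C y‖ < ρ) (L : ℕ)
    (hL : Real.log K ≤ L) :
    ∃ Y : Fin (2 * L + 3) → Fin K → (H →L[ℂ] H),
      (∀ i, V.starProjection * y i * V.starProjection = ∑ k, Y k i) ∧
      ∀ k, rowSq (Y k) ≤ 20 * ρ * Real.exp ((k : ℝ) - L - 1) ∧
        colSq (Y k) ≤ 20 * ρ * Real.exp ((L : ℝ) + 1 - k) := by
  classical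
  have hρ0 : 0 < ρ := (norm_nonneg (Phi C y)).trans_lt hρ
  set d := Module.finrank ℂ V with hd
  let e : OrthonormalBasis (Fin d) ℂ V := stdOrthonormalBasis ℂ V
  let E : Fin d → H := fun k => (e k : H)
  have hE : Orthonormal ℂ E := e.orthonormal.comp_linearIsometry V.subtypeₗᵢ
  let Y : Fin K → Matrix (Fin d) (Fin d) ℂ := fun i => Matrix.of fun k j => ⟪E k, y i (E j)⟫_ℂ
  have hY : ∀ i k j, Y i k j = ⟪E k, y i (E j)⟫_ℂ := fun i k j => rfl
  obtain ⟨T, U, hT, hU, hUT, hTU⟩ := dec_weights d K Y ‖Phi C y‖ ρ (norm_nonneg (Phi C y)) hρ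
    (fun a b => hY_bound C E hE y Y hY a b)
  obtain ⟨B, Q, t, hBQ, ht, hQ1, hQ2, hTQ⟩ := diagonalise T hT
  obtain ⟨B', W, u, hBW, hu, hW1, hW2, hUW⟩ := diagonalise U hU
  obtain ⟨g, hg⟩ := exists_basis e B Q hBQ
  obtain ⟨f, hf⟩ := exists_basis e B' W hBW
  let y' : Fin K → Matrix (Fin d) (Fin d) ℂ := fun i => Wᴴ * Y i * Q
  have hy' : ∀ i j l, ⟪(f j : H), y i (g l : H)⟫_ℂ = y' i j l := by
    intro i j l
    rw [hf, hg]
    exact entries_eq E (y i) (Y i) W Q (hY i) j l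
  have h2 : ∀ ξ : Fin d → ℂ, ∑ i, ∑ j, u j * ‖∑ l, y' i j l * ξ l‖ ^ 2 ≤
      ρ * ∑ l, t l * ‖ξ l‖ ^ 2 := by
    intro ξ
    apply quad_of_posSemidef
    have h3 := hTU.conjTranspose_mul_mul_same Q
    convert h3 using 1
    rw [Matrix.mul_sub, Matrix.sub_mul]
    congr 1
    · rw [hTQ]
      rw [Matrix.mul_smul, Matrix.smul_mul]
      congr 1
      rw [← Matrix.mul_assoc, ← Matrix.mul_assoc, hQ2, Matrix.one_mul, Matrix.mul_assoc, hQ2,
        Matrix.mul_one]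
    · rw [Matrix.mul_sum, Matrix.sum_mul]
      refine Finset.sum_congr rfl fun i _ => ?_
      simp only [y', hUW, Matrix.conjTranspose_mul, Matrix.conjTranspose_conjTranspose,
        Matrix.mul_assoc]
  have h1 : ∀ η : Fin d → ℂ, ∑ i, ∑ l, t l * ‖∑ j, (starRingEnd ℂ) (y' i j l) * η j‖ ^ 2 ≤
      ρ * ∑ j, u j * ‖η j‖ ^ 2 := by
    intro η
    have h3 := hUT.conjTranspose_mul_mul_same W
    have h4 := quad_of_posSemidef (fun i => (y' i)ᴴ) u t ρ (by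
      convert h3 using 1
      rw [Matrix.mul_sub, Matrix.sub_mul]
      congr 1
      · rw [hUW]
        rw [Matrix.mul_smul, Matrix.smul_mul]
        congr 1
        rw [← Matrix.mul_assoc, ← Matrix.mul_assoc, hW2, Matrix.one_mul, Matrix.mul_assoc, hW2,
          Matrix.mul_one]
      · rw [Matrix.mul_sum, Matrix.sum_mul]
        refine Finset.sum_congr rfl fun i _ => ?_
        simp only [y', hTQ, Matrix.conjTranspose_mul, Matrix.conjTranspose_conjTranspose,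
          Matrix.mul_assoc]) η
    simpa [Matrix.conjTranspose_apply] using h4
  obtain ⟨Z, hZ, hZr, hZc⟩ := dec_split d K hK (fun i j l => y' i j l) t u ht hu ρ hρ0 h1 h2 L hL
  have hfo : Orthonormal ℂ (fun j => (f j : H)) := f.orthonormal.comp_linearIsometry V.subtypeₗᵢ
  have hgo : Orthonormal ℂ (fun j => (g j : H)) := g.orthonormal.comp_linearIsometry V.subtypeₗᵢ
  refine ⟨fun k i => opm (fun j => (f j : H)) (fun l => (g l : H)) (Z k i), ?_, ?_⟩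
  · intro i
    rw [proj_eq_opm V f g (y i), ← opm_sum]
    congr 1
    funext j l
    rw [hy', hZ]
  · intro k
    refine ⟨?_, ?_⟩
    · exact rowSq_opm _ _ hfo hgo (Z k) _ (by positivity) (hZr k)
    · exact colSq_opm _ _ hfo hgo (Z k) _ (by positivity) (hZc k)

end Pool.Agent.Helper67.Inj
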