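import Mathlib

set_option autoImplicit false

open scoped InnerProductSpace ComplexOrder TensorProduct Topology

namespace Pool.Agent.Helper67.Inj

universe u

section basic

variable {H : Type u} [NormedAddCommGroup H] [InnerProductSpace ℂ H]

/-- squared column norm -/
noncomputable def colSq [CompleteSpace H] {ι : Type*} [Fintype ι] (x : ι → (H →L[ℂ] H)) : ℝ :=
  ‖∑ i, star (x i) * x i‖

/-- squared row norm -/
noncomputable def rowSq [CompleteSpace H] {ι : Type*} [Fintype ι] (x : ι → (H →L[ℂ] H)) : ℝ :=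
  ‖∑ i, x i * star (x i)‖

/-- `P` is a (bounded) linear projection of `B(H)` onto `M`. -/
structure IsBProj [CompleteSpace H] (M : VonNeumannAlgebra H)
    (P : (H →L[ℂ] H) →L[ℂ] (H →L[ℂ] H)) : Prop where
  mem : ∀ x, P x ∈ M
  id : ∀ m ∈ M, P m = m

/-- positive operator matrices -/
def PosMat {ι : Type*} [Fintype ι] (X : ι → ι → (H →L[ℂ] H)) : Prop :=
  ∀ ξ : ι → H, 0 ≤ ∑ i, ∑ j, ⟪ξ i, X i j (ξ j)⟫_ℂ

/-- complete positivity -/
def IsCP (E : (H →L[ℂ] H) →ₗ[ℂ] (H →L[ℂ] H)) : Prop :=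
  ∀ (n : ℕ) (X : Fin n → Fin n → (H →L[ℂ] H)), PosMat X → PosMat (fun i j => E (X i j))

/-- the corner `pMp` is the range of a completely positive projection -/
def InjAt [CompleteSpace H] (M : VonNeumannAlgebra H) (p : H →L[ℂ] H) : Prop :=
  ∃ E : (H →L[ℂ] H) →ₗ[ℂ] (H →L[ℂ] H), IsCP E ∧ (∀ x, E x ∈ M) ∧
    (∀ x, p * E x = E x ∧ E x * p = E x) ∧ ∀ m ∈ M, p * m = m → m * p = m → E m = m

/-- partial isometry -/
def IsPI [CompleteSpace H] (v : H →L[ℂ] H) : Prop := v * star v * v = v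

/-- The key estimates: for every tuple length `K` there is a linear projection onto `N`
with row/column control with respect to the vector `Ω`. -/
def QB [CompleteSpace H] (N : VonNeumannAlgebra H) (Ω : H) : Prop :=
  ∃ A : ℝ, 0 ≤ A ∧ ∀ K : ℕ, ∃ P : (H →L[ℂ] H) →ₗ[ℂ] (H →L[ℂ] H),
    (∀ x, P x ∈ N) ∧ (∀ y ∈ N, P y = y) ∧ ∀ x : Fin K → (H →L[ℂ] H),
      (∑ i, ‖P (x i) Ω‖ ^ 2 ≤ A * colSq x) ∧ (∑ i, ‖star (P (x i)) Ω‖ ^ 2 ≤ A * rowSq x)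

end basic

section compress

variable {H : Type u} [NormedAddCommGroup H] [InnerProductSpace ℂ H]

/-- compression of an operator to a closed subspace -/
noncomputable def cmp (S : Submodule ℂ H) [S.HasOrthogonalProjection] :
    (H →L[ℂ] H) →ₗ[ℂ] (S →L[ℂ] S) where
  toFun x := S.orthogonalProjectionOnto ∘L x ∘L S.subtypeL
  map_add' x y := by ext; simp
  map_smul' c x := by ext; simp

/-- extension by zero of an operator on a closed subspace -/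
noncomputable def ext (S : Submodule ℂ H) [S.HasOrthogonalProjection] :
    (S →L[ℂ] S) →ₗ[ℂ] (H →L[ℂ] H) where
  toFun z := S.subtypeL ∘L z ∘L S.orthogonalProjectionOnto
  map_add' x y := by ext; simp
  map_smul' c x := by ext; simp

end compress

section matrix

variable {K : Type u} [NormedAddCommGroup K] [InnerProductSpace ℂ K]

/-- `K^n` as a Hilbert space -/
abbrev Pw (K : Type u) [NormedAddCommGroup K] [InnerProductSpace ℂ K] (n : ℕ) : Type u :=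
  PiLp 2 (fun _ : Fin n => K)

/-- matrix entries of an operator on `K^n` -/
noncomputable def entry {n : ℕ} (T : Pw K n →L[ℂ] Pw K n) (i j : Fin n) : K →L[ℂ] K :=
  (PiLp.proj (𝕜 := ℂ) 2 (fun _ : Fin n => K) i) ∘L T ∘L
    ((PiLp.continuousLinearEquiv 2 ℂ (fun _ : Fin n => K)).symm :
      (Fin n → K) →L[ℂ] Pw K n) ∘L (ContinuousLinearMap.single ℂ (fun _ : Fin n => K) j)

/-- operator on `K^n` with given entries -/
noncomputable def ofEntries {n : ℕ} (A : Fin n → Fin n → (K →L[ℂ] K)) : Pw K n →L[ℂ] Pw K n :=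
  ((PiLp.continuousLinearEquiv 2 ℂ (fun _ : Fin n => K)).symm :
      (Fin n → K) →L[ℂ] Pw K n) ∘L
    (ContinuousLinearMap.pi fun i => ∑ j, A i j ∘L (PiLp.proj (𝕜 := ℂ) 2 (fun _ : Fin n => K) j))

end matrix

section orb

variable {H : Type u} [NormedAddCommGroup H] [InnerProductSpace ℂ H] [CompleteSpace H]

/-- closure of `N Ω` -/
noncomputable def orb (N : VonNeumannAlgebra H) (Ω : H) : Submodule ℂ H :=
  (Submodule.map (ContinuousLinearMap.apply ℂ H Ω).toLinearMap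
    (Subalgebra.toSubmodule N.toStarSubalgebra.toSubalgebra)).topologicalClosure

noncomputable instance orbComplete (N : VonNeumannAlgebra H) (Ω : H) :
    CompleteSpace (orb N Ω) := by
  unfold orb; infer_instance

/-- the vector `y Ω` (projected to `orb N Ω`; for `y ∈ N` nothing changes) -/
noncomputable def vec (N : VonNeumannAlgebra H) (Ω : H) : (H →L[ℂ] H) →ₗ[ℂ] orb N Ω :=
  (orb N Ω).orthogonalProjectionOnto.toLinearMap ∘ₗ (ContinuousLinearMap.apply ℂ H Ω).toLinearMap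

end orb

section tensor

variable {H : Type u} [NormedAddCommGroup H] [InnerProductSpace ℂ H]

/-- the operator `C y C⁻¹` for a conjugate linear unitary `C` -/
noncomputable def bar (C : H ≃ₗᵢ⋆[ℂ] H) (y : H →L[ℂ] H) : H →L[ℂ] H :=
  (C.toContinuousLinearEquiv : H →L⋆[ℂ] H).comp
    (y.comp (C.symm.toContinuousLinearEquiv : H →L⋆[ℂ] H))

/-- `∑ y_i ⊗ conj y_i` on the algebraic Hilbert tensor product -/
noncomputable def Phi (C : H ≃ₗᵢ⋆[ℂ] H) {ι : Type*} [Fintype ι] (y : ι → (H →L[ℂ] H)) :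
    (H ⊗[ℂ] H) →L[ℂ] (H ⊗[ℂ] H) :=
  ∑ i, TensorProduct.mapL (y i) (bar C (y i))

end tensor

section modular

variable {K : Type u} [NormedAddCommGroup K] [InnerProductSpace ℂ K] [CompleteSpace K]

/-- The modular operators of `(M, Ω)`: `R = P + Q`, `R' = 2 - R`, `D = P - Q`, where `P`, `Q` are
the real orthogonal projections onto the closures of `M_sa Ω` and `i M_sa Ω`. -/
structure TT (M : VonNeumannAlgebra K) (Ω : K) (R R' : K →L[ℂ] K) (D : K →L⋆[ℂ] K) : Prop where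
  norm : ‖Ω‖ = 1
  sep : ∀ y ∈ M, y Ω = 0 → y = 0
  sep' : ∀ y ∈ M.commutant, y Ω = 0 → y = 0
  cyc : ∀ η : K, (∀ y ∈ M, ⟪y Ω, η⟫_ℂ = 0) → η = 0
  cyc' : ∀ η : K, (∀ y ∈ M.commutant, ⟪y Ω, η⟫_ℂ = 0) → η = 0
  pos : 0 ≤ R
  pos' : 0 ≤ R'
  sum : R + R' = (2 : ℂ) • (1 : K →L[ℂ] K)
  inj : ∀ ξ, R ξ = 0 → ξ = 0
  inj' : ∀ ξ, R' ξ = 0 → ξ = 0
  Dsymm : ∀ ξ η, ⟪D ξ, η⟫_ℂ = ⟪D η, ξ⟫_ℂ
  Dsq : ∀ ξ, D (D ξ) = R (R' ξ)
  DR : ∀ ξ, D (R ξ) = R' (D ξ)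
  DR' : ∀ ξ, D (R' ξ) = R (D ξ)
  DM : ∀ a ∈ M, D (a Ω) = R' (star a Ω)
  DM' : ∀ b ∈ M.commutant, D (b Ω) = R (star b Ω)
  comp : ∀ η : K, (∀ a ∈ M, star a = a → (⟪a Ω, η⟫_ℂ).im = 0) → D η = R η
  comp' : ∀ η : K, (∀ b ∈ M.commutant, star b = b → (⟪b Ω, η⟫_ℂ).im = 0) → D η = R' η

/-- the modular conjugation -/
structure TTJ (M : VonNeumannAlgebra K) (Ω : K) (R R' : K →L[ℂ] K) (D : K →L⋆[ℂ] K)
    (J : K ≃ₗᵢ⋆[ℂ] K) : Prop where
  tt : TT M Ω R R' D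
  inv : ∀ ξ, J (J ξ) = ξ
  symm : ∀ ξ η, ⟪J ξ, η⟫_ℂ = ⟪J η, ξ⟫_ℂ
  fix : J Ω = Ω
  JR : ∀ ξ, J (CFC.sqrt R ξ) = CFC.sqrt R' (J ξ)
  JR' : ∀ ξ, J (CFC.sqrt R' ξ) = CFC.sqrt R (J ξ)
  JM : ∀ a ∈ M, J (CFC.sqrt R' (a Ω)) = CFC.sqrt R' (star a Ω)
  JM' : ∀ b ∈ M.commutant, J (CFC.sqrt R (b Ω)) = CFC.sqrt R (star b Ω)

end modular

section selfpolar

variable {H : Type u} [NormedAddCommGroup H] [InnerProductSpace ℂ H] [CompleteSpace H]

/-- the data used by the main argument: the modular conjugation of `N` restricted to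
`orb N Ω`. -/
structure SF (N : VonNeumannAlgebra H) (Ω : H) (J : orb N Ω ≃ₗᵢ⋆[ℂ] orb N Ω) : Prop where
  norm : ‖Ω‖ = 1
  sep : ∀ y ∈ N, y Ω = 0 → y = 0
  inv : ∀ ξ, J (J ξ) = ξ
  symm : ∀ ξ η, ⟪J ξ, η⟫_ℂ = ⟪J η, ξ⟫_ℂ
  fix : J (vec N Ω 1) = vec N Ω 1
  comm : ∀ y ∈ N, ∀ z ∈ N, ∀ ξ,
    J (cmp (orb N Ω) y (J (cmp (orb N Ω) z ξ))) = cmp (orb N Ω) z (J (cmp (orb N Ω) y (J ξ)))
  pos : ∀ y ∈ N, 0 ≤ ⟪J (vec N Ω (star y)), vec N Ω y⟫_ℂ
  back : ∀ T : orb N Ω →L[ℂ] orb N Ω,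
    (∀ z ∈ N, ∀ ξ, T (cmp (orb N Ω) z ξ) = cmp (orb N Ω) z (T ξ)) →
    ∃ y ∈ N, ∀ ξ, cmp (orb N Ω) y ξ = J (T (J ξ))

/-- self-polar form -/
noncomputable def sfm (N : VonNeumannAlgebra H) (Ω : H) (J : orb N Ω ≃ₗᵢ⋆[ℂ] orb N Ω)
    (y z : H →L[ℂ] H) : ℂ := ⟪J (vec N Ω (star z)), vec N Ω y⟫_ℂ

/-- min-continuous positive forms on `B(H) ⊗ conj B(H)` (limits of `(x,z) ↦ tr(a* x a z*)`). -/
structure IsG (G : (H →L[ℂ] H) → (H →L[ℂ] H) → ℂ) : Prop where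
  add_left : ∀ x x' z, G (x + x') z = G x z + G x' z
  smul_left : ∀ (c : ℂ) x z, G (c • x) z = c * G x z
  add_right : ∀ x z z', G x (z + z') = G x z + G x z'
  smul_right : ∀ (c : ℂ) x z, G x (c • z) = (starRingEnd ℂ) c * G x z
  bound : ∀ x z, ‖G x z‖ ≤ ‖x‖ * ‖z‖
  one : G 1 1 = 1
  pos : ∀ (n : ℕ) (X : Fin n → Fin n → (H →L[ℂ] H)) (z : Fin n → (H →L[ℂ] H)),
    PosMat X → 0 ≤ ∑ i, ∑ j, G (X i j) (star (z i) * z j)
  herm : ∀ x z, G z x = (starRingEnd ℂ) (G x z)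

end selfpolar

end Pool.Agent.Helper67.Inj
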