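import Pool.Agent.Helper67.Inj.Defs

set_option autoImplicit false

open scoped InnerProductSpace ComplexOrder TensorProduct Topology

namespace Pool.Agent.Helper67.Inj

universe u

variable {K : Type u} [NormedAddCommGroup K] [InnerProductSpace ℂ K] [CompleteSpace K]

namespace Scalar

/-- the summand -/
noncomputable def T (a b τ : ℝ) : ℝ := 2 * (a * b) / (Real.exp (τ / 2) * a ^ 2 + Real.exp (-(τ / 2)) * b ^ 2)

/-- its antiderivative -/
noncomputable def Ph (a b τ : ℝ) : ℝ := 4 * Real.arctan (a / b * Real.exp (τ / 2))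

lemma den_pos {a b : ℝ} (ha : 0 < a) (hb : 0 < b) (τ : ℝ) :
    0 < Real.exp (τ / 2) * a ^ 2 + Real.exp (-(τ / 2)) * b ^ 2 := by
  have := Real.exp_pos (τ / 2)
  have := Real.exp_pos (-(τ / 2))
  positivity

lemma T_pos {a b : ℝ} (ha : 0 < a) (hb : 0 < b) (τ : ℝ) : 0 < T a b τ :=
  div_pos (by positivity) (den_pos ha hb τ)

lemma hasDeriv {a b : ℝ} (ha : 0 < a) (hb : 0 < b) (τ : ℝ) :
    HasDerivAt (Ph a b) (T a b τ) τ := by
  have h1 : HasDerivAt (fun τ : ℝ => a / b * Real.exp (τ / 2))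
      (a / b * (Real.exp (τ / 2) * (1 / 2))) τ := by
    apply HasDerivAt.const_mul
    exact ((hasDerivAt_id τ).div_const 2).exp
  have h2 := (h1.arctan).const_mul 4
  refine h2.congr_deriv ?_
  unfold T
  have e1 : Real.exp (-(τ / 2)) = (Real.exp (τ / 2))⁻¹ := Real.exp_neg _
  rw [e1]
  have h3 := Real.exp_pos (τ / 2)
  have h4 : (0 : ℝ) < 1 + (a / b * Real.exp (τ / 2)) ^ 2 := by positivity
  have h5 : (0 : ℝ) < Real.exp (τ / 2) * a ^ 2 + (Real.exp (τ / 2))⁻¹ * b ^ 2 := by positivity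
  rw [eq_div_iff h5.ne']
  field_simp
  ring

lemma T_ratio {a b : ℝ} (ha : 0 < a) (hb : 0 < b) {τ τ' h : ℝ} (h1 : |τ - τ'| ≤ h) :
    T a b τ' ≤ Real.exp (h / 2) * T a b τ := by
  unfold T
  rw [← mul_div_assoc, div_le_div_iff₀ (den_pos ha hb _) (den_pos ha hb _)]
  have h2 : Real.exp (τ / 2) ≤ Real.exp (h / 2) * Real.exp (τ' / 2) := by
    rw [← Real.exp_add]
    apply Real.exp_le_exp.mpr
    have := (abs_le.mp h1).2
    linarith
  have h3 : Real.exp (-(τ / 2)) ≤ Real.exp (h / 2) * Real.exp (-(τ' / 2)) := by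
    rw [← Real.exp_add]
    apply Real.exp_le_exp.mpr
    have := (abs_le.mp h1).1
    linarith
  have h4 : Real.exp (τ / 2) * a ^ 2 + Real.exp (-(τ / 2)) * b ^ 2 ≤
      Real.exp (h / 2) * (Real.exp (τ' / 2) * a ^ 2 + Real.exp (-(τ' / 2)) * b ^ 2) := by
    have ha2 : 0 ≤ a ^ 2 := by positivity
    have hb2 : 0 ≤ b ^ 2 := by positivity
    nlinarith [mul_le_mul_of_nonneg_right h2 ha2, mul_le_mul_of_nonneg_right h3 hb2]
  have h5 : 0 ≤ 2 * (a * b) := by positivity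
  nlinarith [mul_le_mul_of_nonneg_left h4 h5]

lemma slope {a b : ℝ} (ha : 0 < a) (hb : 0 < b) {h : ℝ} (hh : 0 < h) (τ : ℝ) :
    h * T a b τ ≤ Real.exp (h / 2) * (Ph a b (τ + h) - Ph a b τ) ∧
    Ph a b (τ + h) - Ph a b τ ≤ Real.exp (h / 2) * (h * T a b τ) := by
  obtain ⟨ξ, hξ, hξ2⟩ := exists_hasDerivAt_eq_slope (Ph a b) (T a b) (show τ < τ + h by linarith)
    (fun x _ => (hasDeriv ha hb x).continuousAt.continuousWithinAt)
    (fun x _ => hasDeriv ha hb x)
  have e1 : Ph a b (τ + h) - Ph a b τ = h * T a b ξ := by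
    rw [show τ + h - τ = h by ring, eq_div_iff hh.ne'] at hξ2
    linarith
  rw [e1]
  have h1 : |τ - ξ| ≤ h := by
    rw [abs_le]
    constructor <;> linarith [hξ.1, hξ.2]
  have h2 : |ξ - τ| ≤ h := by rwa [abs_sub_comm]
  have h3 := T_ratio ha hb h1
  have h4 := T_ratio ha hb h2
  constructor
  · nlinarith
  · nlinarith

lemma Ph_pos {a b : ℝ} (ha : 0 < a) (hb : 0 < b) (τ : ℝ) : 0 < Ph a b τ := by
  unfold Ph
  have : 0 < Real.arctan (a / b * Real.exp (τ / 2)) :=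
    Real.arctan_pos.mpr (mul_pos (div_pos ha hb) (Real.exp_pos _))
  linarith

lemma Ph_lt {a b : ℝ} (τ : ℝ) : Ph a b τ < 2 * Real.pi := by
  unfold Ph
  have := Real.arctan_lt_pi_div_two (a / b * Real.exp (τ / 2))
  linarith

lemma arctan_le {x : ℝ} (hx : 0 ≤ x) : Real.arctan x ≤ x := by
  rcases hx.eq_or_lt with rfl | hx
  · simp
  · obtain ⟨ξ, hξ, hξ2⟩ := exists_hasDerivAt_eq_slope Real.arctan (fun y => 1 / (1 + y ^ 2)) hx
      Real.continuous_arctan.continuousOn (fun y _ => Real.hasDerivAt_arctan y)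
    rw [Real.arctan_zero, sub_zero, sub_zero] at hξ2
    have h1 : 1 / (1 + ξ ^ 2) ≤ 1 := by
      rw [div_le_one (by positivity)]
      nlinarith [sq_nonneg ξ]
    rw [hξ2, div_le_one hx] at h1
    exact h1

lemma Ph_low {a b : ℝ} (ha : 0 < a) (hb : 0 < b) (τ : ℝ) :
    Ph a b τ ≤ 4 * (a / b * Real.exp (τ / 2)) := by
  unfold Ph
  have := arctan_le (mul_pos (div_pos ha hb) (Real.exp_pos (τ / 2))).le
  linarith

lemma Ph_high {a b : ℝ} (ha : 0 < a) (hb : 0 < b) (τ : ℝ) :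
    2 * Real.pi - Ph a b τ ≤ 4 * (b / a * Real.exp (-(τ / 2))) := by
  unfold Ph
  have h1 : 0 < a / b * Real.exp (τ / 2) := mul_pos (div_pos ha hb) (Real.exp_pos _)
  have h2 := Real.arctan_inv_of_pos h1
  have h3 := arctan_le (inv_pos.mpr h1).le
  have h4 : (a / b * Real.exp (τ / 2))⁻¹ = b / a * Real.exp (-(τ / 2)) := by
    rw [mul_inv, inv_div, Real.exp_neg]
  rw [h4] at h2 h3
  linarith

/-- the inner sums -/
lemma inner {a b : ℝ} (ha : 0 < a) (hb : 0 < b) {h : ℝ} (hh : 0 < h) (n : ℕ) (i : ℝ) :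
    ∑ j : Fin n, h * T a b ((i - j) * h) ≤
      Real.exp (h / 2) * (Ph a b ((i + 1) * h) - Ph a b ((i - n + 1) * h)) ∧
    Ph a b ((i + 1) * h) - Ph a b ((i - n + 1) * h) ≤
      Real.exp (h / 2) * ∑ j : Fin n, h * T a b ((i - j) * h) := by
  have e1 : Ph a b ((i + 1) * h) - Ph a b ((i - n + 1) * h) =
      ∑ j : Fin n, (Ph a b ((i - j) * h + h) - Ph a b ((i - j) * h)) := by
    rw [Fin.sum_univ_eq_sum_range (fun j : ℕ => Ph a b ((i - j) * h + h) - Ph a b ((i - j) * h)) n]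
    have h2 := Finset.sum_range_sub' (fun j : ℕ => Ph a b ((i - j + 1) * h)) n
    have e2 : ∀ j : ℕ, Ph a b ((i - j) * h + h) - Ph a b ((i - j) * h) =
        Ph a b ((i - j + 1) * h) - Ph a b ((i - (j + 1 : ℕ) + 1) * h) := by
      intro j
      push_cast
      ring_nf
    rw [Finset.sum_congr rfl fun j _ => e2 j, h2]
    simp
  rw [e1]
  constructor
  · rw [Finset.mul_sum]
    exact Finset.sum_le_sum fun j _ => (slope ha hb hh _).1
  · rw [Finset.mul_sum]
    exact Finset.sum_le_sum fun j _ => (slope ha hb hh _).2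

lemma geom {q : ℝ} (h0 : 0 < q) (h1 : q < 1) (n : ℕ) : ∑ k ∈ Finset.range n, q ^ k ≤ 1 / (1 - q) := by
  rw [le_div_iff₀ (by linarith), geom_sum_mul_neg]
  have := pow_pos h0 n
  linarith

lemma exp_sum1 {h : ℝ} (hh : 0 < h) (n : ℕ) :
    ∑ i : Fin n, Real.exp (-(((i : ℝ) + 1) * h / 2)) ≤ 1 + 2 / h := by
  set q := Real.exp (-(h / 2)) with hq
  have hq0 : 0 < q := Real.exp_pos _
  have hq1 : q * (1 + h / 2) ≤ 1 := by
    have h2 := Real.add_one_le_exp (h / 2)
    have h3 : q * Real.exp (h / 2) = 1 := by rw [hq, ← Real.exp_add]; simp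
    nlinarith
  have hq2 : q < 1 := by nlinarith
  have h4 : 1 / (1 - q) ≤ 1 + 2 / h := by
    rw [div_le_iff₀ (by linarith)]
    have : (1 + 2 / h) * (1 - q) = 1 + (2 / h) * (1 - q * (1 + h / 2)) := by
      field_simp
      ring
    rw [this]
    have : 0 ≤ 2 / h * (1 - q * (1 + h / 2)) := mul_nonneg (by positivity) (by linarith)
    linarith
  refine le_trans ?_ h4
  refine le_trans ?_ (geom hq0 hq2 n)
  rw [Fin.sum_univ_eq_sum_range (fun i : ℕ => Real.exp (-(((i : ℝ) + 1) * h / 2))) n]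
  refine Finset.sum_le_sum fun i _ => ?_
  rw [hq, ← Real.exp_nat_mul]
  apply Real.exp_le_exp.mpr
  nlinarith

lemma exp_sum2 {h : ℝ} (hh : 0 < h) (n : ℕ) :
    ∑ i : Fin n, Real.exp (((i : ℝ) - n + 1) * h / 2) ≤ 1 + 2 / h := by
  set q := Real.exp (-(h / 2)) with hq
  have hq0 : 0 < q := Real.exp_pos _
  have hq1 : q * (1 + h / 2) ≤ 1 := by
    have h2 := Real.add_one_le_exp (h / 2)
    have h3 : q * Real.exp (h / 2) = 1 := by rw [hq, ← Real.exp_add]; simp
    nlinarith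
  have hq2 : q < 1 := by nlinarith
  have h4 : 1 / (1 - q) ≤ 1 + 2 / h := by
    rw [div_le_iff₀ (by linarith)]
    have : (1 + 2 / h) * (1 - q) = 1 + (2 / h) * (1 - q * (1 + h / 2)) := by
      field_simp
      ring
    rw [this]
    have : 0 ≤ 2 / h * (1 - q * (1 + h / 2)) := mul_nonneg (by positivity) (by linarith)
    linarith
  refine le_trans ?_ h4
  refine le_trans ?_ (geom hq0 hq2 n)
  rw [Fin.sum_univ_eq_sum_range (fun i : ℕ => Real.exp (((i : ℝ) - n + 1) * h / 2)) n,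
    ← Finset.sum_range_reflect (fun k => q ^ k) n]
  refine Finset.sum_le_sum fun i hi => ?_
  rw [Finset.mem_range] at hi
  rw [hq, ← Real.exp_nat_mul]
  apply le_of_eq
  congr 1
  rw [Nat.cast_sub (by omega), Nat.cast_sub (by omega)]
  push_cast
  ring

/-- the outer estimate -/
lemma main {a b : ℝ} (ha : 0 < a) (hb : 0 < b) (hab : a ^ 2 + b ^ 2 = 2) {h : ℝ} (hh : 0 < h)
    (hh1 : h ≤ 1) (n : ℕ) (hn : 0 < n) :
    0 ≤ (h / (2 * Real.pi * n)) * ∑ i : Fin n, ∑ j : Fin n, T a b (((i : ℝ) - j) * h) ∧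
    (h / (2 * Real.pi * n)) * ∑ i : Fin n, ∑ j : Fin n, T a b (((i : ℝ) - j) * h) ≤ 1 + h ∧
    a ^ 2 * b ^ 2 * (1 - (h / (2 * Real.pi * n)) * ∑ i : Fin n, ∑ j : Fin n,
      T a b (((i : ℝ) - j) * h)) ≤ h / 2 + 16 * (1 + 2 / h) / (2 * Real.pi * n) := by
  have hn' : (0 : ℝ) < n := by exact_mod_cast hn
  have hpi := Real.pi_pos
  have e0 : (h / (2 * Real.pi * n)) * ∑ i : Fin n, ∑ j : Fin n, T a b (((i : ℝ) - j) * h) =
      (1 / (2 * Real.pi * n)) * ∑ i : Fin n, ∑ j : Fin n, h * T a b (((i : ℝ) - j) * h) := by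
    have : ∑ i : Fin n, ∑ j : Fin n, h * T a b (((i : ℝ) - j) * h) =
        h * ∑ i : Fin n, ∑ j : Fin n, T a b (((i : ℝ) - j) * h) := by
      rw [Finset.mul_sum]
      exact Finset.sum_congr rfl fun i _ => by rw [Finset.mul_sum]
    rw [this]
    ring
  have hexp : Real.exp (h / 2) ≤ 1 + h := by
    have h1 : Real.exp (-(h / 2)) ≥ 1 - h / 2 := by
      have := Real.add_one_le_exp (-(h / 2))
      linarith
    have h2 : Real.exp (h / 2) * Real.exp (-(h / 2)) = 1 := by rw [← Real.exp_add]; simp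
    have h3 := Real.exp_pos (h / 2)
    nlinarith
  have hexp1 : 1 ≤ Real.exp (h / 2) := Real.one_le_exp (by linarith)
  rw [e0]
  set S := ∑ i : Fin n, ∑ j : Fin n, h * T a b (((i : ℝ) - j) * h) with hS
  have hS0 : 0 ≤ S := Finset.sum_nonneg fun i _ => Finset.sum_nonneg fun j _ =>
    mul_nonneg hh.le (T_pos ha hb _).le
  have hup : S ≤ Real.exp (h / 2) * (2 * Real.pi * n) := by
    calc S ≤ ∑ i : Fin n, Real.exp (h / 2) * (2 * Real.pi) := by
          refine Finset.sum_le_sum fun i _ => ((inner ha hb hh n i).1).trans ?_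
          refine mul_le_mul_of_nonneg_left ?_ (Real.exp_pos _).le
          have h1 := Ph_lt (a := a) (b := b) (((i : ℝ) + 1) * h)
          have h2 := Ph_pos ha hb (((i : ℝ) - n + 1) * h)
          linarith
      _ = Real.exp (h / 2) * (2 * Real.pi * n) := by
          rw [Finset.sum_const, Finset.card_univ, Fintype.card_fin, nsmul_eq_mul]
          ring
  have hlow : 2 * Real.pi * n - 4 * (b / a) * (1 + 2 / h) - 4 * (a / b) * (1 + 2 / h) ≤
      Real.exp (h / 2) * S := by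
    have h1 : ∀ i : Fin n, 2 * Real.pi - 4 * (b / a) * Real.exp (-(((i : ℝ) + 1) * h / 2)) -
        4 * (a / b) * Real.exp (((i : ℝ) - n + 1) * h / 2) ≤
        Real.exp (h / 2) * ∑ j : Fin n, h * T a b (((i : ℝ) - j) * h) := by
      intro i
      refine le_trans ?_ (inner ha hb hh n i).2
      have h2 := Ph_low ha hb (((i : ℝ) - n + 1) * h)
      have h3 := Ph_high ha hb (((i : ℝ) + 1) * h)
      linarith
    have h2 := Finset.sum_le_sum fun (i : Fin n) (_ : i ∈ Finset.univ) => h1 i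
    simp only [Finset.sum_sub_distrib, ← Finset.mul_sum, Finset.sum_const, Finset.card_univ,
      Fintype.card_fin, nsmul_eq_mul] at h2
    have hS2 : S = h * ∑ i : Fin n, ∑ j : Fin n, T a b (((i : ℝ) - j) * h) := by
      rw [hS]
      simp only [Finset.mul_sum]
    rw [← hS2] at h2
    have h3 := exp_sum1 hh n
    have h4 := exp_sum2 hh n
    have h5 : 4 * (b / a) * ∑ i : Fin n, Real.exp (-(((i : ℝ) + 1) * h / 2)) ≤
        4 * (b / a) * (1 + 2 / h) := mul_le_mul_of_nonneg_left h3 (by positivity)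
    have h6 : 4 * (a / b) * ∑ i : Fin n, Real.exp (((i : ℝ) - n + 1) * h / 2) ≤
        4 * (a / b) * (1 + 2 / h) := mul_le_mul_of_nonneg_left h4 (by positivity)
    linarith
  refine ⟨by positivity, ?_, ?_⟩
  · rw [one_div, inv_mul_le_iff₀ (by positivity)]
    nlinarith [mul_le_mul_of_nonneg_right hexp (by positivity : (0 : ℝ) ≤ 2 * Real.pi * n)]
  · have hab1 : a * b ≤ 1 := by nlinarith [sq_nonneg (a - b)]
    have ha2 : a ^ 2 ≤ 2 := by nlinarith [sq_nonneg b]
    have hb2 : b ^ 2 ≤ 2 := by nlinarith [sq_nonneg a]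
    have hab0 : 0 < a * b := by positivity
    have hw1 : a ^ 2 * b ^ 2 ≤ 1 := by nlinarith
    have hw0 : 0 ≤ a ^ 2 * b ^ 2 := by positivity
    have hw2 : a ^ 2 * b ^ 2 * (b / a) ≤ 2 := by
      have : a ^ 2 * b ^ 2 * (b / a) = (a * b) * b ^ 2 := by field_simp
      rw [this]
      nlinarith
    have hw3 : a ^ 2 * b ^ 2 * (a / b) ≤ 2 := by
      have : a ^ 2 * b ^ 2 * (a / b) = (a * b) * a ^ 2 := by field_simp
      rw [this]
      nlinarith
    set N := 2 * Real.pi * n with hN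
    have hN0 : 0 < N := by positivity
    set c := 1 + 2 / h with hc
    have hc0 : 0 < c := by positivity
    have h7 : N - S ≤ N * (h / 2) + (4 * (b / a) * c + 4 * (a / b) * c) := by
      -- `exp(-h/2) (N - X) ≤ S`
      have h8 : Real.exp (-(h / 2)) * (N - 4 * (b / a) * c - 4 * (a / b) * c) ≤ S := by
        have h9 := mul_le_mul_of_nonneg_left hlow (Real.exp_pos (-(h / 2))).le
        rw [← mul_assoc, ← Real.exp_add] at h9
        simpa using h9
      have h9 : 1 - h / 2 ≤ Real.exp (-(h / 2)) := by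
        have := Real.add_one_le_exp (-(h / 2))
        linarith
      have h10 : Real.exp (-(h / 2)) ≤ 1 := by
        rw [Real.exp_le_one_iff]
        linarith
      have h11 : 0 ≤ 4 * (b / a) * c + 4 * (a / b) * c := by positivity
      nlinarith [mul_le_mul_of_nonneg_right h9 hN0.le, mul_le_mul_of_nonneg_right h10 h11]
    have h8 : 1 - 1 / N * S = (N - S) / N := by
      field_simp
    rw [h8, mul_div_assoc', div_le_iff₀ hN0]
    have h12 : (h / 2 + 16 * c / N) * N = N * (h / 2) + 16 * c := by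
      field_simp
    rw [h12]
    calc a ^ 2 * b ^ 2 * (N - S) ≤
        a ^ 2 * b ^ 2 * (N * (h / 2) + (4 * (b / a) * c + 4 * (a / b) * c)) :=
          mul_le_mul_of_nonneg_left h7 hw0
      _ = a ^ 2 * b ^ 2 * (N * (h / 2)) + 4 * c * (a ^ 2 * b ^ 2 * (b / a)) +
          4 * c * (a ^ 2 * b ^ 2 * (a / b)) := by ring
      _ ≤ 1 * (N * (h / 2)) + 4 * c * 2 + 4 * c * 2 := by gcongr
      _ = N * (h / 2) + 16 * c := by ring

end Scalar

open Scalar in
/-- SC : the scalar estimate (Fejér/Riemann sums of sech) -/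
theorem scalar_fejer (ε : ℝ) (hε : 0 < ε) : ∃ (n : ℕ) (h : ℝ), 0 < n ∧ 0 < h ∧
    ∀ x ∈ Set.Icc (0 : ℝ) 2,
      0 ≤ (h / (2 * Real.pi * n)) * ∑ i : Fin n, ∑ j : Fin n,
        2 * Real.sqrt (x * (2 - x)) / (Real.exp (((i : ℝ) - j) * h / 2) * x +
          Real.exp (-(((i : ℝ) - j) * h / 2)) * (2 - x)) ∧
      (h / (2 * Real.pi * n)) * ∑ i : Fin n, ∑ j : Fin n,
        2 * Real.sqrt (x * (2 - x)) / (Real.exp (((i : ℝ) - j) * h / 2) * x +
          Real.exp (-(((i : ℝ) - j) * h / 2)) * (2 - x)) ≤ 2 ∧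
      x * (2 - x) * |(h / (2 * Real.pi * n)) * ∑ i : Fin n, ∑ j : Fin n,
        2 * Real.sqrt (x * (2 - x)) / (Real.exp (((i : ℝ) - j) * h / 2) * x +
          Real.exp (-(((i : ℝ) - j) * h / 2)) * (2 - x)) - 1| ≤ ε := by
  set h := min 1 ε with hh
  have h0 : 0 < h := lt_min one_pos hε
  have h1 : h ≤ 1 := min_le_left _ _
  have h2 : h ≤ ε := min_le_right _ _
  obtain ⟨n, hn⟩ := exists_nat_gt (16 * (1 + 2 / h) / ε)
  have hpos : 0 < 16 * (1 + 2 / h) / ε := by positivity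
  have hn0' : (0 : ℝ) < n := lt_trans hpos hn
  have hn0 : 0 < n := by exact_mod_cast hn0'
  refine ⟨n, h, hn0, h0, fun x hx => ?_⟩
  by_cases hx0 : x * (2 - x) = 0
  · rw [hx0]
    simp [hε.le]
  have hxa : 0 < x := lt_of_le_of_ne hx.1 (fun h => hx0 (by rw [← h]; ring))
  have hxb : 0 < 2 - x := lt_of_le_of_ne (by linarith [hx.2]) (fun h => hx0 (by rw [← h]; ring))
  have ha : 0 < √x := Real.sqrt_pos.mpr hxa
  have hb : 0 < √(2 - x) := Real.sqrt_pos.mpr hxb
  have hab : √x ^ 2 + √(2 - x) ^ 2 = 2 := by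
    rw [Real.sq_sqrt hxa.le, Real.sq_sqrt hxb.le]
    ring
  have e1 : ∀ i j : Fin n, 2 * Real.sqrt (x * (2 - x)) / (Real.exp (((i : ℝ) - j) * h / 2) * x +
      Real.exp (-(((i : ℝ) - j) * h / 2)) * (2 - x)) = T (√x) (√(2 - x)) (((i : ℝ) - j) * h) := by
    intro i j
    unfold T
    rw [Real.sqrt_mul hxa.le, Real.sq_sqrt hxa.le, Real.sq_sqrt hxb.le]
  simp only [e1]
  obtain ⟨g1, g2, g3⟩ := main ha hb hab h0 h1 n hn0
  set G := (h / (2 * Real.pi * n)) * ∑ i : Fin n, ∑ j : Fin n,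
    T (√x) (√(2 - x)) (((i : ℝ) - j) * h) with hG
  refine ⟨g1, by linarith, ?_⟩
  rw [Real.sq_sqrt hxa.le, Real.sq_sqrt hxb.le] at g3
  have hw1 : x * (2 - x) ≤ 1 := by nlinarith [sq_nonneg (x - 1)]
  have hw0 : 0 < x * (2 - x) := mul_pos hxa hxb
  rcases le_total 1 G with h5 | h5
  · rw [abs_of_nonneg (by linarith)]
    nlinarith
  · rw [abs_of_nonpos (by linarith)]
    have h6 : 16 * (1 + 2 / h) / (2 * Real.pi * n) ≤ ε / 2 := by
      have h7 : 16 * (1 + 2 / h) < ε * n := by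
        rw [div_lt_iff₀ hε] at hn
        linarith
      rw [div_le_iff₀ (by positivity)]
      have h8 : (3 : ℝ) < Real.pi := Real.pi_gt_three
      have h9 : 0 < ε * n := by positivity
      nlinarith
    have h7 : x * (2 - x) * -(G - 1) = x * (2 - x) * (1 - G) := by ring
    rw [h7]
    linarith

end Pool.Agent.Helper67.Inj
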