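import Pool.Agent.Helper67.Inj.Theta
import Pool.Agent.Helper67.Inj.Scalar
import Pool.Agent.Helper67.Inj.Lim

set_option autoImplicit false

open scoped InnerProductSpace ComplexOrder TensorProduct Topology

namespace Pool.Agent.Helper67.Inj

universe u

variable {K : Type u} [NormedAddCommGroup K] [InnerProductSpace ℂ K] [CompleteSpace K]

namespace Fejer

/-- denominators -/
noncomputable def sf (t x : ℝ) : ℝ := Real.exp t * x + Real.exp (-t) * (2 - x)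

/-- the function `g_τ` with `t = τ / 2` -/
noncomputable def gf (t x : ℝ) : ℝ := 2 * Real.sqrt (x * (2 - x)) / sf t x

/-- Fejér mean -/
noncomputable def Gf (n : ℕ) (h x : ℝ) : ℝ :=
  (h / (2 * Real.pi * n)) * ∑ i : Fin n, ∑ j : Fin n, gf (((i : ℝ) - j) * h / 2) x

lemma sf_pos (t : ℝ) {x : ℝ} (hx : x ∈ Set.Icc (0 : ℝ) 2) : 0 < sf t x := by
  unfold sf
  have h1 := Real.exp_pos t
  have h2 := Real.exp_pos (-t)
  rcases lt_or_ge 0 x with h | h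
  · have : 0 ≤ Real.exp (-t) * (2 - x) := mul_nonneg h2.le (by linarith [hx.2])
    have : 0 < Real.exp t * x := mul_pos h1 h
    linarith
  · have : x = 0 := le_antisymm h hx.1
    subst this
    simp; exact h2

lemma continuous_sf (t : ℝ) : Continuous (sf t) := by
  unfold sf; fun_prop

lemma continuousOn_gf (t : ℝ) : ContinuousOn (gf t) (Set.Icc (0 : ℝ) 2) := by
  unfold gf
  apply ContinuousOn.div
  · apply Continuous.continuousOn; fun_prop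
  · exact (continuous_sf t).continuousOn
  · intro x hx; exact (sf_pos t hx).ne'

lemma continuousOn_Gf (n : ℕ) (h : ℝ) : ContinuousOn (Gf n h) (Set.Icc (0 : ℝ) 2) := by
  unfold Gf
  apply ContinuousOn.mul continuousOn_const
  apply continuousOn_finsetSum
  intro i _
  apply continuousOn_finsetSum
  intro j _
  exact continuousOn_gf _

variable {M : VonNeumannAlgebra K} {Ω : K} {R R' : K →L[ℂ] K} {D : K →L⋆[ℂ] K}

lemma hR' (h : TT M Ω R R' D) : R' = (2 : ℂ) • (1 : K →L[ℂ] K) - R := by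
  rw [← h.sum]; abel

lemma spec (h : TT M Ω R R' D) : spectrum ℝ R ⊆ Set.Icc (0 : ℝ) 2 := by
  intro x hx
  refine ⟨spectrum_nonneg_of_nonneg h.pos hx, ?_⟩
  have h2 : R ≤ algebraMap ℝ (K →L[ℂ] K) 2 := by
    have h3 := h.pos'
    rw [hR' h, sub_nonneg] at h3
    convert h3 using 1
    rw [Algebra.algebraMap_eq_smul_one]
    ext ξ
    simp [two_smul]
  have hsa : IsSelfAdjoint R := IsSelfAdjoint.of_nonneg h.pos
  exact (le_algebraMap_iff_spectrum_le (R := ℝ) (a := R)).1 h2 x hx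

lemma R'_eq (h : TT M Ω R R' D) : R' = cfc (fun x : ℝ => 2 - x) R := by
  have hsa : IsSelfAdjoint R := IsSelfAdjoint.of_nonneg h.pos
  rw [cfc_sub (fun _ : ℝ => (2 : ℝ)) (fun x : ℝ => x) R, cfc_const (2 : ℝ) R, cfc_id' ℝ R, hR' h]
  congr 1

lemma sqrtR_eq (h : TT M Ω R R' D) : CFC.sqrt R = cfc Real.sqrt R := by
  have hsa : IsSelfAdjoint R := IsSelfAdjoint.of_nonneg h.pos
  apply CFC.sqrt_unique
  · rw [← cfc_mul Real.sqrt Real.sqrt R]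
    conv_rhs => rw [← cfc_id' ℝ R]
    apply cfc_congr
    intro x hx
    exact Real.mul_self_sqrt (spec h hx).1
  · exact cfc_nonneg (fun x _ => Real.sqrt_nonneg x)

lemma sqrtR'_eq (h : TT M Ω R R' D) : CFC.sqrt R' = cfc (fun x : ℝ => Real.sqrt (2 - x)) R := by
  have hsa : IsSelfAdjoint R := IsSelfAdjoint.of_nonneg h.pos
  apply CFC.sqrt_unique
  · rw [← cfc_mul (fun x : ℝ => Real.sqrt (2 - x)) (fun x : ℝ => Real.sqrt (2 - x)) R, R'_eq h]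
    apply cfc_congr
    intro x hx
    exact Real.mul_self_sqrt (by linarith [(spec h hx).2])
  · exact cfc_nonneg (fun x _ => Real.sqrt_nonneg _)

/-- the operator `e^t R + e^{-t} R'` -/
lemma S_eq (h : TT M Ω R R' D) (t : ℝ) :
    cfc (sf t) R = ((Real.exp t : ℝ) : ℂ) • R + ((Real.exp (-t) : ℝ) : ℂ) • R' := by
  have hsa : IsSelfAdjoint R := IsSelfAdjoint.of_nonneg h.pos
  have : cfc (sf t) R = (Real.exp t) • R + (Real.exp (-t)) • R' := by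
    rw [R'_eq h, ← cfc_const_mul (Real.exp (-t)) (fun x : ℝ => 2 - x) R]
    conv_rhs => enter [1]; rw [← cfc_id' ℝ R, ← cfc_const_mul (Real.exp t) (fun x : ℝ => x) R]
    rw [← cfc_add R (fun x : ℝ => Real.exp t * x) (fun x : ℝ => Real.exp (-t) * (2 - x))]
    rfl
  rw [this]
  ext ξ
  show Real.exp t • R ξ + Real.exp (-t) • R' ξ =
    ((Real.exp t : ℝ) : ℂ) • R ξ + ((Real.exp (-t) : ℝ) : ℂ) • R' ξ
  rw [Complex.coe_smul, Complex.coe_smul]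

lemma inv_mul (h : TT M Ω R R' D) (t : ℝ) :
    cfc (fun x => (sf t x)⁻¹) R * cfc (sf t) R = 1 := by
  have hsa : IsSelfAdjoint R := IsSelfAdjoint.of_nonneg h.pos
  have hc : ContinuousOn (sf t) (spectrum ℝ R) := (continuous_sf t).continuousOn
  have hc' : ContinuousOn (fun x => (sf t x)⁻¹) (spectrum ℝ R) :=
    hc.inv₀ (fun x hx => (sf_pos t (spec h hx)).ne')
  rw [← cfc_mul (fun x => (sf t x)⁻¹) (sf t) R, ← cfc_one ℝ R]
  apply cfc_congr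
  intro x hx
  simp only [Pi.one_apply]
  exact inv_mul_cancel₀ (sf_pos t (spec h hx)).ne'

lemma S_inj (h : TT M Ω R R' D) (t : ℝ) {x : K}
    (hx : ((Real.exp t : ℝ) : ℂ) • R x + ((Real.exp (-t) : ℝ) : ℂ) • R' x = 0) : x = 0 := by
  have h1 : cfc (sf t) R x = 0 := by
    rw [S_eq h t]; simpa using hx
  have h2 : (cfc (fun x => (sf t x)⁻¹) R * cfc (sf t) R) x = x := by rw [inv_mul h t]; rfl
  rw [← h2]
  show cfc (fun x => (sf t x)⁻¹) R (cfc (sf t) R x) = 0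
  rw [h1, map_zero]

lemma key (h : TT M Ω R R' D) (t : ℝ) {x y : K}
    (hx : ((Real.exp t : ℝ) : ℂ) • R x + ((Real.exp (-t) : ℝ) : ℂ) • R' x = (2 : ℂ) • R y) :
    CFC.sqrt R' x = cfc (gf t) R (CFC.sqrt R y) := by
  have hsa : IsSelfAdjoint R := IsSelfAdjoint.of_nonneg h.pos
  have hc : ContinuousOn (sf t) (spectrum ℝ R) := (continuous_sf t).continuousOn
  have hc' : ContinuousOn (fun x => (sf t x)⁻¹) (spectrum ℝ R) :=
    hc.inv₀ (fun x hx => (sf_pos t (spec h hx)).ne')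
  have hg : ContinuousOn (gf t) (spectrum ℝ R) := (continuousOn_gf t).mono (spec h)
  have e1 : (cfc (fun x => (sf t x)⁻¹) R * CFC.sqrt R' * cfc (sf t) R) = CFC.sqrt R' := by
    rw [sqrtR'_eq h]
    rw [mul_assoc, ← cfc_mul (fun x : ℝ => Real.sqrt (2 - x)) (sf t) R,
      ← cfc_mul (fun x => (sf t x)⁻¹) (fun x : ℝ => Real.sqrt (2 - x) * sf t x) R]
    apply cfc_congr
    intro z hz
    have := (sf_pos t (spec h hz)).ne'
    simp only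
    field_simp
  have e2 : (cfc (fun x => (sf t x)⁻¹) R * CFC.sqrt R' * ((2 : ℝ) • R)) =
      cfc (gf t) R * CFC.sqrt R := by
    rw [sqrtR'_eq h, sqrtR_eq h]
    conv_lhs => enter [2]; rw [← cfc_id' ℝ R, ← cfc_const_mul (2 : ℝ) (fun x : ℝ => x) R]
    rw [mul_assoc, ← cfc_mul (fun x : ℝ => Real.sqrt (2 - x)) (fun x => 2 * x) R,
      ← cfc_mul (fun x => (sf t x)⁻¹) (fun x : ℝ => Real.sqrt (2 - x) * (2 * x)) R hc',
      ← cfc_mul (gf t) Real.sqrt R hg]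
    apply cfc_congr
    intro z hz
    have h0 := (spec h hz).1
    simp only [gf]
    rw [Real.sqrt_mul h0]
    have h3 : z = Real.sqrt z * Real.sqrt z := (Real.mul_self_sqrt h0).symm
    conv_lhs => rw [show Real.sqrt (2 - z) * (2 * z) = Real.sqrt (2 - z) * (2 * (Real.sqrt z * Real.sqrt z)) by rw [← h3]]
    ring
  have e3 : cfc (sf t) R x = ((2 : ℝ) • R) y := by
    rw [S_eq h t]
    show ((Real.exp t : ℝ) : ℂ) • R x + ((Real.exp (-t) : ℝ) : ℂ) • R' x = (2 : ℝ) • R y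
    rw [hx, two_smul, two_smul]
  calc CFC.sqrt R' x = (cfc (fun x => (sf t x)⁻¹) R * CFC.sqrt R' * cfc (sf t) R) x := by rw [e1]
    _ = (cfc (fun x => (sf t x)⁻¹) R * CFC.sqrt R') (cfc (sf t) R x) := rfl
    _ = (cfc (fun x => (sf t x)⁻¹) R * CFC.sqrt R') (((2 : ℝ) • R) y) := by rw [e3]
    _ = (cfc (fun x => (sf t x)⁻¹) R * CFC.sqrt R' * ((2 : ℝ) • R)) y := rfl
    _ = _ := by rw [e2]; rfl

lemma vn_smul_mem {M : VonNeumannAlgebra K} (c : ℂ) {a : K →L[ℂ] K} (ha : a ∈ M) : c • a ∈ M :=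
  M.toStarSubalgebra.smul_mem ha c

lemma RΩ (h : TT M Ω R R' D) : R Ω = Ω := by
  have h1 : D Ω = R' Ω := by simpa using h.DM 1 (one_mem M)
  have h2 : D Ω = R Ω := by simpa using h.DM' 1 (one_mem M.commutant)
  have h3 : R Ω + R' Ω = (2 : ℂ) • Ω := by
    have := congrArg (fun T : K →L[ℂ] K => T Ω) h.sum
    simpa using this
  rw [← h1, h2, ← two_smul ℂ (R Ω)] at h3
  have h4 : (2 : ℂ) • (R Ω - Ω) = 0 := by rw [smul_sub, h3, sub_self]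
  rcases smul_eq_zero.1 h4 with h5 | h5
  · norm_num at h5
  · exact sub_eq_zero.1 h5

lemma R'Ω (h : TT M Ω R R' D) : R' Ω = Ω := by
  rw [hR' h]
  show (2 : ℂ) • Ω - R Ω = Ω
  rw [RΩ h, two_smul]; abel

/-- uniqueness: the solution for `y = 1` is a scalar -/
lemma scalar_sol (h : TT M Ω R R' D) (t : ℝ) {a : K →L[ℂ] K} (ha : a ∈ M)
    (hx : ((Real.exp t : ℝ) : ℂ) • R (a Ω) + ((Real.exp (-t) : ℝ) : ℂ) • R' (a Ω) =
      (2 : ℂ) • R Ω) : a = ((gf t 1 : ℝ) : ℂ) • (1 : K →L[ℂ] K) := by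
  have hg : gf t 1 = 2 / (Real.exp t + Real.exp (-t)) := by
    simp only [gf, sf]; norm_num
  have hpos : 0 < Real.exp t + Real.exp (-t) := by positivity
  have hv : a Ω - ((gf t 1 : ℝ) : ℂ) • Ω = 0 := by
    apply S_inj h t
    rw [map_sub, map_sub, map_smul, map_smul, RΩ h, R'Ω h, smul_sub, smul_sub]
    have e : ((Real.exp t : ℝ) : ℂ) • (((gf t 1 : ℝ) : ℂ) • Ω) +
        ((Real.exp (-t) : ℝ) : ℂ) • (((gf t 1 : ℝ) : ℂ) • Ω) = (2 : ℂ) • Ω := by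
      rw [smul_smul, smul_smul, ← add_smul, ← add_mul, ← Complex.ofReal_add, ← Complex.ofReal_mul,
        hg, mul_div_cancel₀ _ hpos.ne']
      norm_num
    rw [RΩ h] at hx
    calc _ = (((Real.exp t : ℝ) : ℂ) • R (a Ω) + ((Real.exp (-t) : ℝ) : ℂ) • R' (a Ω)) -
        (((Real.exp t : ℝ) : ℂ) • (((gf t 1 : ℝ) : ℂ) • Ω) +
        ((Real.exp (-t) : ℝ) : ℂ) • (((gf t 1 : ℝ) : ℂ) • Ω)) := by abel
      _ = 0 := by rw [hx, e, sub_self]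
  have hm : a - ((gf t 1 : ℝ) : ℂ) • (1 : K →L[ℂ] K) ∈ M :=
    sub_mem ha (vn_smul_mem _ (one_mem M))
  exact sub_eq_zero.1 (h.sep _ hm (by simpa using hv))

/-- the averaged 2 × 2 blocks -/
lemma block (h : TT M Ω R R' D) (n : ℕ) (η : ℝ) (hη : 0 ≤ η) (v : K →L[ℂ] K)
    (hv : v ∈ M.commutant) :
    ∃ B00 B01 B10 : K →L[ℂ] K, B00 ∈ M ∧ B01 ∈ M ∧ B10 ∈ M ∧
      (∀ ξ ζ : K, 0 ≤ ⟪ξ, B00 ξ⟫_ℂ + ⟪ξ, B01 ζ⟫_ℂ + ⟪ζ, B10 ξ⟫_ℂ +
        ((Gf n η 1 : ℝ) : ℂ) * ⟪ζ, ζ⟫_ℂ) ∧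
      CFC.sqrt R' (B00 Ω) = cfc (Gf n η) R (CFC.sqrt R ((star v * v) Ω)) ∧
      CFC.sqrt R' (B01 Ω) = cfc (Gf n η) R (CFC.sqrt R (v Ω)) ∧
      CFC.sqrt R' (B10 Ω) = cfc (Gf n η) R (CFC.sqrt R (star v Ω)) ∧
      CFC.sqrt R' (((Gf n η 1 : ℝ) : ℂ) • Ω) = cfc (Gf n η) R (CFC.sqrt R Ω) := by
  classical
  let e : Fin n × Fin 2 ≃ Fin (n * 2) := finProdFinEquiv
  let w : Fin 2 → (K →L[ℂ] K) := ![v, 1]
  have hw : ∀ s, w s ∈ M.commutant := by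
    intro s
    fin_cases s
    · exact hv
    · exact one_mem _
  obtain ⟨a, haM, hpos, hid⟩ := theta h (n * 2) (fun p => w (e.symm p).2)
    (fun p => hw _) (fun p => ((e.symm p).1 : ℝ) * η)
  let A : Fin n → Fin 2 → Fin n → Fin 2 → (K →L[ℂ] K) := fun j t i s => a (e (j, t)) (e (i, s))
  have hAid : ∀ (j : Fin n) (t : Fin 2) (i : Fin n) (s : Fin 2), ((Real.exp (((i : ℝ) - j) * η / 2) : ℝ) : ℂ) • R (A j t i s Ω) +
      ((Real.exp (-(((i : ℝ) - j) * η / 2)) : ℝ) : ℂ) • R' (A j t i s Ω) =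
      (2 : ℂ) • R ((star (w s) * w t) Ω) := by
    intro j t i s
    have := hid (e (i, s)) (e (j, t))
    simp only [Equiv.symm_apply_apply] at this
    have e1 : ((i : ℝ) - j) * η / 2 = ((i : ℝ) * η - (j : ℝ) * η) / 2 := by ring
    have e2 : -(((i : ℝ) - j) * η / 2) = -((i : ℝ) * η - (j : ℝ) * η) / 2 := by ring
    rw [e2, e1]
    exact this
  let c : ℝ := η / (2 * Real.pi * n)
  have hc : 0 ≤ c := by positivity
  let B : Fin 2 → Fin 2 → (K →L[ℂ] K) := fun t s => (c : ℂ) • ∑ i : Fin n, ∑ j : Fin n, A j t i s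
  have hBM : ∀ t s, B t s ∈ M := by
    intro t s
    apply vn_smul_mem
    exact sum_mem fun i _ => sum_mem fun j _ => haM _ _
  have hBid : ∀ t s, CFC.sqrt R' (B t s Ω) =
      cfc (Gf n η) R (CFC.sqrt R ((star (w s) * w t) Ω)) := by
    intro t s
    have hsa : IsSelfAdjoint R := IsSelfAdjoint.of_nonneg h.pos
    have hcg : ∀ t, ContinuousOn (gf t) (spectrum ℝ R) := fun t => (continuousOn_gf t).mono (spec h)
    have e1 : cfc (Gf n η) R = (c : ℂ) • ∑ i : Fin n, ∑ j : Fin n,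
        cfc (gf (((i : ℝ) - j) * η / 2)) R := by
      have : cfc (Gf n η) R = c • ∑ i : Fin n, ∑ j : Fin n,
          cfc (gf (((i : ℝ) - j) * η / 2)) R := by
        have h1 : ∀ i : Fin n, ∑ j : Fin n, cfc (gf (((i : ℝ) - j) * η / 2)) R =
            cfc (fun x => ∑ j : Fin n, gf (((i : ℝ) - j) * η / 2) x) R := by
          intro i
          rw [← cfc_sum (fun (j : Fin n) => gf (((i : ℝ) - j) * η / 2)) R Finset.univ
            (fun j _ => hcg _)]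
          congr 1
          ext x
          simp
        have h2 : ∑ i : Fin n, cfc (fun x => ∑ j : Fin n, gf (((i : ℝ) - j) * η / 2) x) R =
            cfc (fun x => ∑ i : Fin n, ∑ j : Fin n, gf (((i : ℝ) - j) * η / 2) x) R := by
          rw [← cfc_sum (fun (i : Fin n) => (fun x => ∑ j : Fin n, gf (((i : ℝ) - j) * η / 2) x)) R
            Finset.univ (fun i _ => continuousOn_finsetSum _ (fun j _ => hcg _))]
          congr 1
          ext x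
          simp
        rw [Finset.sum_congr rfl (fun i _ => h1 i), h2, ← cfc_const_mul c _ R
          (continuousOn_finsetSum _ (fun i _ => continuousOn_finsetSum _ (fun j _ => hcg _)))]
        rfl
      rw [this]
      ext ξ
      rw [smul_apply, smul_apply, Complex.coe_smul]
    rw [e1]
    show CFC.sqrt R' (((c : ℂ) • ∑ i : Fin n, ∑ j : Fin n, A j t i s) Ω) = _
    rw [smul_apply, map_smul, smul_apply]
    congr 1
    rw [sum_apply, map_sum, sum_apply]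
    refine Finset.sum_congr rfl fun i _ => ?_
    rw [sum_apply, map_sum, sum_apply]
    refine Finset.sum_congr rfl fun j _ => ?_
    exact key h _ (hAid j t i s)
  have hB11 : B 1 1 = ((Gf n η 1 : ℝ) : ℂ) • (1 : K →L[ℂ] K) := by
    show (c : ℂ) • ∑ i : Fin n, ∑ j : Fin n, A j 1 i 1 = _
    have : ∀ i j : Fin n, A j 1 i 1 = ((gf (((i : ℝ) - j) * η / 2) 1 : ℝ) : ℂ) • (1 : K →L[ℂ] K) := by
      intro i j
      apply scalar_sol h _ (haM _ _)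
      have := hAid j 1 i 1
      simpa [w] using this
    simp only [this]
    simp only [← Finset.sum_smul]
    rw [smul_smul]
    congr 1
    simp only [Gf, c]
    push_cast
    rfl
  have hBpos : ∀ ξ : Fin 2 → K, 0 ≤ ∑ t, ∑ s, ⟪ξ t, B t s (ξ s)⟫_ℂ := by
    intro ξ
    have h1 := hpos (fun p => ξ (e.symm p).2)
    have h2 : ∑ p, ∑ q, ⟪ξ (e.symm p).2, a p q (ξ (e.symm q).2)⟫_ℂ =
        ∑ t, ∑ s, ∑ i : Fin n, ∑ j : Fin n, ⟪ξ t, A j t i s (ξ s)⟫_ℂ := by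
      rw [← e.sum_comp, Fintype.sum_prod_type, Finset.sum_comm]
      refine Finset.sum_congr rfl fun t _ => ?_
      have : ∀ j : Fin n, ∑ q, ⟪ξ (e.symm (e (j, t))).2, a (e (j, t)) q (ξ (e.symm q).2)⟫_ℂ =
          ∑ i : Fin n, ∑ s, ⟪ξ t, A j t i s (ξ s)⟫_ℂ := by
        intro j
        rw [← e.sum_comp, Fintype.sum_prod_type]
        simp [A]
      rw [Finset.sum_congr rfl fun j _ => this j, Finset.sum_comm]
      rw [Finset.sum_comm (s := (Finset.univ : Finset (Fin 2)))]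
      refine Finset.sum_congr rfl fun i _ => ?_
      rw [Finset.sum_comm]
    rw [h2] at h1
    have h3 : ∑ t, ∑ s, ⟪ξ t, B t s (ξ s)⟫_ℂ =
        (c : ℂ) * ∑ t, ∑ s, ∑ i : Fin n, ∑ j : Fin n, ⟪ξ t, A j t i s (ξ s)⟫_ℂ := by
      simp only [B, smul_apply, sum_apply, inner_smul_right,
        inner_sum, Finset.mul_sum]
    rw [h3]
    exact mul_nonneg (by exact_mod_cast hc) h1
  refine ⟨B 0 0, B 0 1, B 1 0, hBM _ _, hBM _ _, hBM _ _, ?_, ?_, ?_, ?_, ?_⟩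
  · intro ξ ζ
    have := hBpos ![ξ, ζ]
    simp only [Fin.sum_univ_two, Matrix.cons_val_zero, Matrix.cons_val_one, hB11] at this
    simp only [smul_apply, one_apply_eq_self, inner_smul_right] at this
    convert this using 1
    ring
  · simpa [w] using hBid 0 0
  · simpa [w] using hBid 0 1
  · simpa [w] using hBid 1 0
  · have := hBid 1 1
    rw [hB11] at this
    simpa [w] using this

/-- consequences of positivity of a 2 × 2 block -/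
lemma block_star {B00 B01 B10 : K →L[ℂ] K} {g : ℝ}
    (hpos : ∀ ξ ζ : K, 0 ≤ ⟪ξ, B00 ξ⟫_ℂ + ⟪ξ, B01 ζ⟫_ℂ + ⟪ζ, B10 ξ⟫_ℂ + (g : ℂ) * ⟪ζ, ζ⟫_ℂ) :
    B10 = star B01 := by
  have him : ∀ ξ ζ : K, (⟪ξ, B00 ξ⟫_ℂ + ⟪ξ, B01 ζ⟫_ℂ + ⟪ζ, B10 ξ⟫_ℂ + (g : ℂ) * ⟪ζ, ζ⟫_ℂ).im = 0 :=
    fun ξ ζ => ((Complex.le_def.1 (hpos ξ ζ)).2).symm
  have h0 : ∀ ζ : K, ((g : ℂ) * ⟪ζ, ζ⟫_ℂ).im = 0 := by
    intro ζ
    have := him 0 ζ
    simpa using this
  have h1 : ∀ ξ : K, (⟪ξ, B00 ξ⟫_ℂ).im = 0 := by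
    intro ξ
    have := him ξ 0
    simpa using this
  have h2 : ∀ ξ ζ : K, (⟪ξ, B01 ζ⟫_ℂ).im + (⟪ζ, B10 ξ⟫_ℂ).im = 0 := by
    intro ξ ζ
    have := him ξ ζ
    simp only [Complex.add_im, h0, h1] at this
    linarith
  have h3 : ∀ ξ ζ : K, (⟪ξ, B01 ζ⟫_ℂ).re - (⟪ζ, B10 ξ⟫_ℂ).re = 0 := by
    intro ξ ζ
    have := h2 ξ (Complex.I • ζ)
    rw [map_smul, inner_smul_right, inner_smul_left] at this
    simp only [Complex.mul_im, Complex.I_re, Complex.I_im, Complex.conj_I, Complex.neg_re,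
      Complex.neg_im] at this
    linarith
  have h4 : ∀ ξ ζ : K, ⟪ζ, B10 ξ⟫_ℂ = ⟪ζ, (star B01) ξ⟫_ℂ := by
    intro ξ ζ
    rw [ContinuousLinearMap.star_eq_adjoint, ContinuousLinearMap.adjoint_inner_right]
    rw [← inner_conj_symm (B01 ζ) ξ]
    apply Complex.ext
    · rw [Complex.conj_re]; linarith [h3 ξ ζ]
    · rw [Complex.conj_im]; linarith [h2 ξ ζ]
  ext ξ
  exact ext_inner_left ℂ (fun ζ => h4 ξ ζ)

lemma block_norm {B00 B01 B10 : K →L[ℂ] K} {g N : ℝ} (hN : 1 ≤ N) (hg2 : g ≤ 2)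
    (hpos : ∀ ξ ζ : K, 0 ≤ ⟪ξ, B00 ξ⟫_ℂ + ⟪ξ, B01 ζ⟫_ℂ + ⟪ζ, B10 ξ⟫_ℂ + (g : ℂ) * ⟪ζ, ζ⟫_ℂ)
    (hB : ∀ ξ, (⟪ξ, B00 ξ⟫_ℂ).re ≤ 2 * N * ‖ξ‖ ^ 2) : ‖B01‖ ≤ 2 * N := by
  have hst := block_star hpos
  apply ContinuousLinearMap.opNorm_le_bound _ (by linarith)
  intro ζ
  have h1 : ∀ ξ : K, 2 * (⟪ξ, B01 ζ⟫_ℂ).re ≤ 2 * N * ‖ξ‖ ^ 2 + 2 * ‖ζ‖ ^ 2 := by
    intro ξ
    have h2 := (Complex.le_def.1 (hpos ξ (-ζ))).1
    rw [hst] at h2
    simp only [map_neg, inner_neg_right, inner_neg_left, neg_neg] at h2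
    rw [ContinuousLinearMap.star_eq_adjoint, ContinuousLinearMap.adjoint_inner_right,
      ← inner_conj_symm (B01 ζ) ξ] at h2
    simp only [Complex.add_re, Complex.neg_re, Complex.conj_re, Complex.zero_re,
      Complex.re_ofReal_mul] at h2
    have h3 : (⟪ζ, ζ⟫_ℂ).re = ‖ζ‖ ^ 2 := by
      have := inner_self_eq_norm_sq (𝕜 := ℂ) ζ
      simpa using this
    rw [h3] at h2
    have h4 := hB ξ
    nlinarith [sq_nonneg ‖ζ‖]
  have h2 := h1 (((1 / (2 * N) : ℝ) : ℂ) • B01 ζ)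
  have h3 : (⟪B01 ζ, B01 ζ⟫_ℂ).re = ‖B01 ζ‖ ^ 2 := by
    have := inner_self_eq_norm_sq (𝕜 := ℂ) (B01 ζ)
    simpa using this
  rw [inner_smul_left, Complex.conj_ofReal, Complex.re_ofReal_mul, h3, norm_smul,
    Complex.norm_real, Real.norm_eq_abs, abs_of_pos (by positivity)] at h2
  have hNpos : 0 < N := by linarith
  have h4 : 2 * (1 / (2 * N) * ‖B01 ζ‖ ^ 2) = ‖B01 ζ‖ ^ 2 / N := by field_simp
  have h5 : 2 * N * (1 / (2 * N) * ‖B01 ζ‖) ^ 2 = ‖B01 ζ‖ ^ 2 / (2 * N) := by field_simp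
  rw [h4, h5] at h2
  have h6 : ‖B01 ζ‖ ^ 2 / N - ‖B01 ζ‖ ^ 2 / (2 * N) = ‖B01 ζ‖ ^ 2 / (2 * N) := by field_simp; ring
  have h7 : ‖B01 ζ‖ ^ 2 / (2 * N) ≤ 2 * ‖ζ‖ ^ 2 := by linarith
  rw [div_le_iff₀ (by positivity)] at h7
  have h8 : ‖B01 ζ‖ ^ 2 ≤ (2 * N * ‖ζ‖) ^ 2 := by
    calc ‖B01 ζ‖ ^ 2 ≤ 2 * ‖ζ‖ ^ 2 * (2 * N) := h7
      _ ≤ (2 * N * ‖ζ‖) ^ 2 := by nlinarith [sq_nonneg ‖ζ‖, mul_nonneg (sub_nonneg.2 hN) (sq_nonneg ‖ζ‖)]
  exact le_of_sq_le_sq h8 (by positivity)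

lemma norm_of_form {B : K →L[ℂ] K} {c : ℝ} (hc : 0 ≤ c) (hp : ∀ ξ : K, 0 ≤ ⟪ξ, B ξ⟫_ℂ)
    (hB : ∀ ξ, (⟪ξ, B ξ⟫_ℂ).re ≤ c * ‖ξ‖ ^ 2) : ‖B‖ ≤ c := by
  have him : ∀ ξ : K, (⟪ξ, B ξ⟫_ℂ).im = 0 := fun ξ => ((Complex.le_def.1 (hp ξ)).2).symm
  have hre : ∀ ξ : K, 0 ≤ (⟪ξ, B ξ⟫_ℂ).re := fun ξ => (Complex.le_def.1 (hp ξ)).1
  have hsw : ∀ ξ : K, ⟪B ξ, ξ⟫_ℂ = (((⟪ξ, B ξ⟫_ℂ).re : ℝ) : ℂ) := by
    intro ξ
    rw [← inner_conj_symm (B ξ) ξ]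
    apply Complex.ext
    · rw [Complex.conj_re, Complex.ofReal_re]
    · rw [Complex.conj_im, Complex.ofReal_im, him ξ, neg_zero]
  have h0 : 0 ≤ B := by
    rw [ContinuousLinearMap.nonneg_iff_isPositive, ContinuousLinearMap.isPositive_iff_complex]
    intro ξ
    rw [hsw]
    exact ⟨by simp, by simpa using hre ξ⟩
  rw [CStarAlgebra.norm_le_iff_le_algebraMap B hc h0, ← sub_nonneg,
    ContinuousLinearMap.nonneg_iff_isPositive, ContinuousLinearMap.isPositive_iff_complex]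
  intro ξ
  have e1 : (algebraMap ℝ (K →L[ℂ] K) c - B) ξ = (c : ℂ) • ξ - B ξ := by
    rw [Algebra.algebraMap_eq_smul_one, sub_apply, smul_apply, one_apply_eq_self, Complex.coe_smul]
  have h3 : ⟪ξ, ξ⟫_ℂ = ((‖ξ‖ ^ 2 : ℝ) : ℂ) := by
    rw [inner_self_eq_norm_sq_to_K]; simp
  have e2 : ⟪(algebraMap ℝ (K →L[ℂ] K) c - B) ξ, ξ⟫_ℂ =
      ((c * ‖ξ‖ ^ 2 - (⟪ξ, B ξ⟫_ℂ).re : ℝ) : ℂ) := by
    rw [e1, inner_sub_left, inner_smul_left, Complex.conj_ofReal, h3, hsw]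
    push_cast
    rfl
  rw [e2]
  have h4 := hB ξ
  exact ⟨rfl, by show 0 ≤ c * ‖ξ‖ ^ 2 - (⟪ξ, B ξ⟫_ℂ).re; linarith⟩

lemma sqrtR'_inj (h : TT M Ω R R' D) {x : K} (hx : CFC.sqrt R' x = 0) : x = 0 := by
  apply h.inj'
  have : CFC.sqrt R' * CFC.sqrt R' = R' := CFC.sqrt_mul_sqrt_self R' h.pos'
  rw [← this]
  show CFC.sqrt R' (CFC.sqrt R' x) = 0
  rw [hx, map_zero]

/-- quadratic form bound for the first block -/
lemma block_bound (h : TT M Ω R R' D) (n : ℕ) (η : ℝ) (hη : 0 ≤ η) (v : K →L[ℂ] K)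
    (hv : v ∈ M.commutant) (hg : Gf n η 1 ≤ 2) {B00 : K →L[ℂ] K} (hB : B00 ∈ M)
    (hid : CFC.sqrt R' (B00 Ω) = cfc (Gf n η) R (CFC.sqrt R ((star v * v) Ω))) (ξ : K) :
    (⟪ξ, B00 ξ⟫_ℂ).re ≤ 2 * ‖v‖ ^ 2 * ‖ξ‖ ^ 2 := by
  -- the complementary element
  have hvv : star v * v ∈ M.commutant := mul_mem (star_mem hv) hv
  set z : K →L[ℂ] K := ((‖v‖ ^ 2 : ℝ) : ℂ) • (1 : K →L[ℂ] K) - star v * v with hz
  have hzM : z ∈ M.commutant := sub_mem (vn_smul_mem _ (one_mem _)) hvv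
  have hz0 : 0 ≤ z := by
    have := CStarAlgebra.star_mul_le_algebraMap_norm_sq (a := v)
    rw [← sub_nonneg] at this
    convert this using 1
    rw [hz, Algebra.algebraMap_eq_smul_one]
    congr 1
  set w := CFC.sqrt z with hw
  have hwsa : star w = w := (IsSelfAdjoint.of_nonneg (CFC.sqrt_nonneg z)).star_eq
  have hww : star w * w = z := by rw [hwsa]; exact CFC.sqrt_mul_sqrt_self z hz0
  have hwM : w ∈ M.commutant := sqrt_mem _ z hzM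
  obtain ⟨C00, C01, C10, hC, -, -, hCpos, hCid, -, -, h1id⟩ := block h n η hη w hwM
  have hsum : B00 + C00 = ((‖v‖ ^ 2 * Gf n η 1 : ℝ) : ℂ) • (1 : K →L[ℂ] K) := by
    have hmem : B00 + C00 - ((‖v‖ ^ 2 * Gf n η 1 : ℝ) : ℂ) • (1 : K →L[ℂ] K) ∈ M :=
      sub_mem (add_mem hB hC) (vn_smul_mem _ (one_mem _))
    refine sub_eq_zero.1 (h.sep _ hmem (sqrtR'_inj h ?_))
    have e1 : (B00 + C00 - ((‖v‖ ^ 2 * Gf n η 1 : ℝ) : ℂ) • (1 : K →L[ℂ] K)) Ω =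
        B00 Ω + C00 Ω - ((‖v‖ ^ 2 : ℝ) : ℂ) • (((Gf n η 1 : ℝ) : ℂ) • Ω) := by
      rw [sub_apply, add_apply, smul_apply, one_apply_eq_self, smul_smul, Complex.ofReal_mul]
    rw [e1, map_sub, map_add, map_smul, hid, hCid, h1id, hww, ← map_add, ← map_add, ← map_smul,
      ← map_smul, ← map_sub, ← map_sub]
    have e2 : (star v * v) Ω + z Ω - ((‖v‖ ^ 2 : ℝ) : ℂ) • Ω = 0 := by
      rw [hz, sub_apply, smul_apply, one_apply_eq_self]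
      abel
    rw [e2, map_zero, map_zero]
  have hCre : 0 ≤ (⟪ξ, C00 ξ⟫_ℂ).re := by
    have := (Complex.le_def.1 (hCpos ξ 0)).1
    simpa using this
  have h2 : (⟪ξ, B00 ξ⟫_ℂ).re + (⟪ξ, C00 ξ⟫_ℂ).re = ‖v‖ ^ 2 * Gf n η 1 * ‖ξ‖ ^ 2 := by
    have h3 := congrArg (fun T : K →L[ℂ] K => (⟪ξ, T ξ⟫_ℂ).re) hsum
    simp only [add_apply, inner_add_right, Complex.add_re, smul_apply, one_apply_eq_self,
      inner_smul_right, Complex.re_ofReal_mul] at h3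
    rw [h3]
    congr 1
    have := inner_self_eq_norm_sq (𝕜 := ℂ) ξ
    simpa using this
  have h4 : ‖v‖ ^ 2 * Gf n η 1 * ‖ξ‖ ^ 2 ≤ ‖v‖ ^ 2 * 2 * ‖ξ‖ ^ 2 := by gcongr
  nlinarith

lemma norm_err (h : TT M Ω R R' D) (n : ℕ) (η ε : ℝ) (hε : 0 ≤ ε)
    (hG : ∀ x ∈ Set.Icc (0 : ℝ) 2, x * (2 - x) * |Gf n η x - 1| ≤ ε) :
    ‖R * R' * cfc (Gf n η) R - R * R'‖ ≤ ε := by
  have hsa : IsSelfAdjoint R := IsSelfAdjoint.of_nonneg h.pos
  have hg : ContinuousOn (Gf n η) (spectrum ℝ R) := (continuousOn_Gf n η).mono (spec h)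
  have e0 : R * R' = cfc (fun x : ℝ => x * (2 - x)) R := by
    rw [cfc_mul (fun x : ℝ => x) (fun x : ℝ => 2 - x) R, cfc_id' ℝ R, ← R'_eq h]
  have hc0 : ContinuousOn (fun x : ℝ => x * (2 - x)) (spectrum ℝ R) := by fun_prop
  have e1 : R * R' * cfc (Gf n η) R - R * R' =
      cfc (fun x : ℝ => x * (2 - x) * Gf n η x - x * (2 - x)) R := by
    rw [e0, cfc_sub (fun x : ℝ => x * (2 - x) * Gf n η x) (fun x : ℝ => x * (2 - x)) R
      (hc0.mul hg) hc0, cfc_mul (fun x : ℝ => x * (2 - x)) (Gf n η) R hc0 hg]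
  rw [e1]
  apply norm_cfc_le hε
  intro x hx
  have hx' := spec h hx
  have h1 := hG x hx'
  have h2 : x * (2 - x) * Gf n η x - x * (2 - x) = x * (2 - x) * (Gf n η x - 1) := by ring
  rw [h2, Real.norm_eq_abs, abs_mul, abs_of_nonneg (mul_nonneg hx'.1 (by linarith [hx'.2]))]
  exact h1

/-- limit of vector identities -/
lemma limit_id (h : TT M Ω R R' D) {ι : Type*} (U : Ultrafilter ι) (n : ι → ℕ) (η ε : ι → ℝ)
    (hε : ∀ k, 0 ≤ ε k) (hε0 : Filter.Tendsto ε U (𝓝 0))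
    (hG : ∀ k, ∀ x ∈ Set.Icc (0 : ℝ) 2, x * (2 - x) * |Gf (n k) (η k) x - 1| ≤ ε k)
    (B : ι → (K →L[ℂ] K)) (b : K →L[ℂ] K) (y : K)
    (hB : ∀ k, CFC.sqrt R' (B k Ω) = cfc (Gf (n k) (η k)) R (CFC.sqrt R y))
    (hlim : ∀ ξ ζ, Filter.Tendsto (fun k => ⟪ξ, B k ζ⟫_ℂ) U (𝓝 ⟪ξ, b ζ⟫_ℂ)) :
    CFC.sqrt R' (b Ω) = CFC.sqrt R y := by
  have hsaR : IsSelfAdjoint R := IsSelfAdjoint.of_nonneg h.pos
  have hsaR' : IsSelfAdjoint R' := IsSelfAdjoint.of_nonneg h.pos'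
  have hsas : IsSelfAdjoint (CFC.sqrt R') := IsSelfAdjoint.of_nonneg (CFC.sqrt_nonneg R')
  have hadj : ∀ {T : K →L[ℂ] K}, IsSelfAdjoint T → ∀ a b : K, ⟪a, T b⟫_ℂ = ⟪T a, b⟫_ℂ := by
    intro T hT a b
    have h1 : ContinuousLinearMap.adjoint T = T := hT
    rw [← ContinuousLinearMap.adjoint_inner_left, h1]
  -- first limit
  have h1 : ∀ ξ, Filter.Tendsto (fun k => ⟪ξ, R (R' (CFC.sqrt R' (B k Ω)))⟫_ℂ) U
      (𝓝 ⟪ξ, R (R' (CFC.sqrt R' (b Ω)))⟫_ℂ) := by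
    intro ξ
    have := hlim (CFC.sqrt R' (R' (R ξ))) Ω
    simp only [← hadj hsas, ← hadj hsaR', ← hadj hsaR] at this
    exact this
  -- second limit
  have h2 : ∀ ξ, Filter.Tendsto (fun k => ⟪ξ, R (R' (CFC.sqrt R' (B k Ω)))⟫_ℂ) U
      (𝓝 ⟪ξ, R (R' (CFC.sqrt R y))⟫_ℂ) := by
    intro ξ
    rw [tendsto_iff_norm_sub_tendsto_zero]
    have hb : ∀ k, ‖⟪ξ, R (R' (CFC.sqrt R' (B k Ω)))⟫_ℂ - ⟪ξ, R (R' (CFC.sqrt R y))⟫_ℂ‖ ≤
        ‖ξ‖ * (ε k * ‖CFC.sqrt R y‖) := by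
      intro k
      rw [← inner_sub_right, hB k]
      have e1 : R (R' (cfc (Gf (n k) (η k)) R (CFC.sqrt R y))) - R (R' (CFC.sqrt R y)) =
          (R * R' * cfc (Gf (n k) (η k)) R - R * R') (CFC.sqrt R y) := rfl
      rw [e1]
      refine (norm_inner_le_norm _ _).trans ?_
      gcongr
      refine (ContinuousLinearMap.le_opNorm _ _).trans ?_
      gcongr
      exact norm_err h (n k) (η k) (ε k) (hε k) (hG k)
    refine squeeze_zero (fun k => norm_nonneg _) hb ?_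
    have := (hε0.mul_const ‖CFC.sqrt R y‖).const_mul ‖ξ‖
    simpa using this
  have h3 : R (R' (CFC.sqrt R' (b Ω))) = R (R' (CFC.sqrt R y)) :=
    ext_inner_left ℂ (fun ξ => tendsto_nhds_unique (h1 ξ) (h2 ξ))
  have h4 : R (R' (CFC.sqrt R' (b Ω) - CFC.sqrt R y)) = 0 := by
    rw [map_sub, map_sub, h3, sub_self]
  exact sub_eq_zero.1 (h.inj' _ (h.inj _ h4))

end Fejer

open Fejer in
/-- FEJ -/
theorem fejer_pi {M : VonNeumannAlgebra K} {Ω : K} {R R' : K →L[ℂ] K} {D : K →L⋆[ℂ] K}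
    (h : TT M Ω R R' D) (v : K →L[ℂ] K) (hv : v ∈ M.commutant) :
    ∃ b ∈ M, ∃ c ∈ M,
      (∀ ξ ζ : K, 0 ≤ ⟪ξ, b ξ⟫_ℂ + ⟪ξ, c ζ⟫_ℂ + ⟪ζ, star c ξ⟫_ℂ + ⟪ζ, ζ⟫_ℂ) ∧
      CFC.sqrt R' (b Ω) = CFC.sqrt R ((star v * v) Ω) ∧
      CFC.sqrt R' (c Ω) = CFC.sqrt R (v Ω) ∧
      CFC.sqrt R' (star c Ω) = CFC.sqrt R (star v Ω) := by
  have hsc : ∀ k : ℕ, ∃ (n : ℕ) (η : ℝ), 0 < η ∧ (Gf n η 1 ≤ 2) ∧
      ∀ x ∈ Set.Icc (0 : ℝ) 2, x * (2 - x) * |Gf n η x - 1| ≤ 1 / ((k : ℝ) + 1) := by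
    intro k
    obtain ⟨n, η, -, hη, hall⟩ := scalar_fejer (1 / ((k : ℝ) + 1)) (by positivity)
    exact ⟨n, η, hη, (hall 1 ⟨by norm_num, by norm_num⟩).2.1, fun x hx => (hall x hx).2.2⟩
  choose n η hη hg2 hG using hsc
  choose B00 B01 B10 hB00 hB01 hB10 hpos hid0 hid1 hid2 _ using
    fun k => block h (n k) (η k) (hη k).le v hv
  set N : ℝ := ‖v‖ ^ 2 + 1 with hN
  have hN1 : 1 ≤ N := by rw [hN]; nlinarith [sq_nonneg ‖v‖]
  have hst : ∀ k, B10 k = star (B01 k) := fun k => block_star (hpos k)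
  have hre : ∀ k ξ, (⟪ξ, B00 k ξ⟫_ℂ).re ≤ 2 * ‖v‖ ^ 2 * ‖ξ‖ ^ 2 := fun k ξ =>
    block_bound h (n k) (η k) (hη k).le v hv (hg2 k) (hB00 k) (hid0 k) ξ
  have hre' : ∀ k ξ, (⟪ξ, B00 k ξ⟫_ℂ).re ≤ 2 * N * ‖ξ‖ ^ 2 := by
    intro k ξ
    refine (hre k ξ).trans ?_
    rw [hN]
    nlinarith [sq_nonneg ‖ξ‖, sq_nonneg ‖v‖]
  have hn01 : ∀ k, ‖B01 k‖ ≤ 2 * N := fun k => block_norm hN1 (hg2 k) (hpos k) (hre' k)
  have hn00 : ∀ k, ‖B00 k‖ ≤ 2 * N := by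
    intro k
    have hp : ∀ ξ : K, 0 ≤ ⟪ξ, B00 k ξ⟫_ℂ := by
      intro ξ
      have := hpos k ξ 0
      simpa using this
    exact norm_of_form (by linarith) hp (hre' k)
  let U : Ultrafilter ℕ := Filter.hyperfilter ℕ
  have hU : Filter.Tendsto (fun k : ℕ => 1 / ((k : ℝ) + 1)) U (𝓝 0) :=
    tendsto_one_div_add_atTop_nhds_zero_nat.mono_left Nat.hyperfilter_le_atTop
  obtain ⟨b, -, hb⟩ := exists_wot_limit U B00 (2 * N) hn00
  obtain ⟨c, -, hc⟩ := exists_wot_limit U B01 (2 * N) hn01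
  have hcs : ∀ ξ ζ, Filter.Tendsto (fun k => ⟪ξ, B10 k ζ⟫_ℂ) U (𝓝 ⟪ξ, (star c) ζ⟫_ℂ) := by
    intro ξ ζ
    have h1 := (Complex.continuous_conj.tendsto _).comp (hc ζ ξ)
    simp only [Function.comp_def, inner_conj_symm] at h1
    simp only [hst, ContinuousLinearMap.star_eq_adjoint, ContinuousLinearMap.adjoint_inner_right]
    exact h1
  have hg1 : Filter.Tendsto (fun k => ((Gf (n k) (η k) 1 : ℝ) : ℂ)) U (𝓝 1) := by
    have h1 : Filter.Tendsto (fun k => Gf (n k) (η k) 1) U (𝓝 1) := by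
      rw [tendsto_iff_norm_sub_tendsto_zero]
      refine squeeze_zero (fun k => norm_nonneg _) (fun k => ?_) hU
      have := hG k 1 ⟨by norm_num, by norm_num⟩
      rw [Real.norm_eq_abs]
      norm_num at this ⊢
      exact this
    have := (Complex.continuous_ofReal.tendsto _).comp h1
    simpa [Function.comp_def] using this
  refine ⟨b, mem_of_wot_limit U M B00 b hB00 hb, c, mem_of_wot_limit U M B01 c hB01 hc, ?_, ?_, ?_,
    ?_⟩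
  · intro ξ ζ
    have hlim : Filter.Tendsto (fun k => ⟪ξ, B00 k ξ⟫_ℂ + ⟪ξ, B01 k ζ⟫_ℂ + ⟪ζ, B10 k ξ⟫_ℂ +
        ((Gf (n k) (η k) 1 : ℝ) : ℂ) * ⟪ζ, ζ⟫_ℂ) U
        (𝓝 (⟪ξ, b ξ⟫_ℂ + ⟪ξ, c ζ⟫_ℂ + ⟪ζ, star c ξ⟫_ℂ + 1 * ⟪ζ, ζ⟫_ℂ)) :=
      (((hb ξ ξ).add (hc ξ ζ)).add (hcs ζ ξ)).add (hg1.mul_const _)
    rw [one_mul] at hlim
    exact ge_of_tendsto' hlim (fun k => hpos k ξ ζ)
  · exact limit_id h U n η _ (fun k => by positivity) hU hG B00 b _ hid0 hb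
  · exact limit_id h U n η _ (fun k => by positivity) hU hG B01 c _ hid1 hc
  · exact limit_id h U n η _ (fun k => by positivity) hU hG B10 (star c) _ hid2 hcs


end Pool.Agent.Helper67.Inj
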