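import Pool.Agent.Helper67.Inj.Defs

set_option autoImplicit false

open scoped InnerProductSpace ComplexOrder TensorProduct Topology

namespace Pool.Agent.Helper67.Inj

universe u

variable {H : Type u} [NormedAddCommGroup H] [InnerProductSpace ℂ H] [CompleteSpace H]

/-- basic facts on `orb` -/
theorem mem_orb (N : VonNeumannAlgebra H) (Ω : H) (y : H →L[ℂ] H) (hy : y ∈ N) :
    y Ω ∈ orb N Ω := by
  refine Submodule.le_topologicalClosure _ ?_
  exact ⟨y, hy, rfl⟩

theorem orb_minimal (N : VonNeumannAlgebra H) (Ω : H) (T : Submodule ℂ H)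
    (hT : IsClosed (T : Set H)) (h : ∀ y ∈ N, y Ω ∈ T) : orb N Ω ≤ T := by
  refine Submodule.topologicalClosure_minimal _ ?_ hT
  rintro _ ⟨y, hy, rfl⟩
  exact h y hy

theorem orb_isClosed (N : VonNeumannAlgebra H) (Ω : H) : IsClosed (orb N Ω : Set H) :=
  Submodule.isClosed_topologicalClosure _

theorem orb_invariant (N : VonNeumannAlgebra H) (Ω : H) (y : H →L[ℂ] H) (hy : y ∈ N)
    (ξ : H) (hξ : ξ ∈ orb N Ω) : y ξ ∈ orb N Ω := by
  have h : orb N Ω ≤ (orb N Ω).comap y.toLinearMap := by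
    refine orb_minimal N Ω _ ?_ ?_
    · exact (orb_isClosed N Ω).preimage y.continuous
    · intro z hz
      show y (z Ω) ∈ orb N Ω
      exact mem_orb N Ω (y * z) (mul_mem hy hz)
  exact h hξ

theorem orb_eq_zero_of_inner (N : VonNeumannAlgebra H) (Ω : H) (ξ : H) (hξ : ξ ∈ orb N Ω)
    (h : ∀ y ∈ N, ⟪y Ω, ξ⟫_ℂ = 0) : ξ = 0 := by
  have h1 : orb N Ω ≤ (Submodule.span ℂ {ξ})ᗮ := by
    refine orb_minimal N Ω _ (Submodule.isClosed_orthogonal _) ?_
    intro y hy
    rw [Submodule.mem_orthogonal_singleton_iff_inner_left]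
    exact h y hy
  have h2 := h1 hξ
  rw [Submodule.mem_orthogonal_singleton_iff_inner_left] at h2
  exact inner_self_eq_zero.1 h2

theorem starProjection_orb_mem (N : VonNeumannAlgebra H) (Ω : H) :
    (orb N Ω).starProjection ∈ N.commutant := by
  rw [VonNeumannAlgebra.mem_commutant_iff]
  have key : ∀ g ∈ N, (orb N Ω).starProjection * g * (orb N Ω).starProjection =
      g * (orb N Ω).starProjection := by
    intro g hg
    ext ξ
    show (orb N Ω).starProjection (g ((orb N Ω).starProjection ξ)) = g ((orb N Ω).starProjection ξ)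
    rw [Submodule.starProjection_eq_self_iff]
    exact orb_invariant N Ω g hg _ (Submodule.starProjection_apply_mem _ _)
  intro g hg
  have h1 := key g hg
  have h2 := congrArg star (key (star g) (star_mem hg))
  have hs : star (orb N Ω).starProjection = (orb N Ω).starProjection :=
    (isStarProjection_starProjection (U := orb N Ω)).isSelfAdjoint.star_eq
  rw [star_mul, star_mul, star_mul, star_star, hs, ← mul_assoc] at h2
  rw [← h1, h2]

theorem coe_vec (N : VonNeumannAlgebra H) (Ω : H) (y : H →L[ℂ] H) (hy : y ∈ N) :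
    ((vec N Ω y : orb N Ω) : H) = y Ω := by
  show (orb N Ω).starProjection (y Ω) = y Ω
  rw [Submodule.starProjection_eq_self_iff]
  exact mem_orb N Ω y hy

theorem coe_cmp_orb (N : VonNeumannAlgebra H) (Ω : H) (y : H →L[ℂ] H) (hy : y ∈ N)
    (ξ : orb N Ω) : ((cmp (orb N Ω) y ξ : orb N Ω) : H) = y ξ := by
  show (orb N Ω).starProjection (y ξ) = y ξ
  rw [Submodule.starProjection_eq_self_iff]
  exact orb_invariant N Ω y hy _ ξ.2

theorem cmp_vec (N : VonNeumannAlgebra H) (Ω : H) (y z : H →L[ℂ] H) (hy : y ∈ N) (hz : z ∈ N) :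
    cmp (orb N Ω) y (vec N Ω z) = vec N Ω (y * z) := by
  apply Subtype.ext
  rw [coe_cmp_orb N Ω y hy, coe_vec N Ω z hz, coe_vec N Ω _ (mul_mem hy hz)]
  rfl

theorem vec_dense (N : VonNeumannAlgebra H) (Ω : H) :
    Dense {ξ : orb N Ω | ∃ y ∈ N, vec N Ω y = ξ} := by
  intro ξ
  have h1 : (ξ : H) ∈ closure {η : H | ∃ y ∈ N, y Ω = η} := by
    have h2 := ξ.2
    have h3 : (orb N Ω : Set H) = closure {η : H | ∃ y ∈ N, y Ω = η} := by
      unfold orb
      rw [Submodule.topologicalClosure_coe]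
      congr 1
    rw [← SetLike.mem_coe, h3] at h2
    exact h2
  rw [mem_closure_iff_nhds_basis Metric.nhds_basis_ball] at h1 ⊢
  intro ε hε
  obtain ⟨η, ⟨y, hy, rfl⟩, hη⟩ := h1 ε hε
  refine ⟨vec N Ω y, ⟨y, hy, rfl⟩, ?_⟩
  rw [Metric.mem_ball] at hη ⊢
  rw [← coe_vec N Ω y hy] at hη
  exact hη

/-- if `Ω` is separating for `N` then it is cyclic for the commutant -/
theorem orb_commutant_eq_top (N : VonNeumannAlgebra H) (Ω : H)
    (hsep : ∀ y ∈ N, y Ω = 0 → y = 0) : orb N.commutant Ω = ⊤ := by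
  have h1 := starProjection_orb_mem N.commutant Ω
  rw [VonNeumannAlgebra.commutant_commutant] at h1
  have h2 : (1 - (orb N.commutant Ω).starProjection : H →L[ℂ] H) = 0 := by
    refine hsep _ (sub_mem (one_mem N) h1) ?_
    have h3 : (orb N.commutant Ω).starProjection Ω = Ω := by
      rw [Submodule.starProjection_eq_self_iff]
      have := mem_orb N.commutant Ω 1 (one_mem _)
      simpa using this
    rw [ContinuousLinearMap.sub_apply, ContinuousLinearMap.one_apply, h3, sub_self]
  rw [eq_top_iff]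
  intro ξ _
  have h4 := congrArg (fun T : H →L[ℂ] H => T ξ) h2
  simp only [ContinuousLinearMap.sub_apply, ContinuousLinearMap.one_apply,
    ContinuousLinearMap.zero_apply, sub_eq_zero] at h4
  rw [h4]
  exact Submodule.starProjection_apply_mem _ _

end Pool.Agent.Helper67.Inj
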