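import Pool.Agent.Helper67.Inj.Mat
import Pool.Agent.Helper67.Inj.Orb

set_option autoImplicit false

open scoped InnerProductSpace ComplexOrder TensorProduct Topology

namespace Pool.Agent.Helper67.Inj

universe u

variable {H : Type u} [NormedAddCommGroup H] [InnerProductSpace ℂ H] [CompleteSpace H]

private lemma ofEntries_apply {K : Type u} [NormedAddCommGroup K] [InnerProductSpace ℂ K] {n : ℕ}
    (A : Fin n → Fin n → (K →L[ℂ] K)) (x : Pw K n) (i : Fin n) :
    (ofEntries A x) i = ∑ j, A i j (x j) := by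
  simp [ofEntries]

private lemma inner_ofEntries {K : Type u} [NormedAddCommGroup K] [InnerProductSpace ℂ K] {n : ℕ}
    (A : Fin n → Fin n → (K →L[ℂ] K)) (x : Pw K n) :
    ⟪x, ofEntries A x⟫_ℂ = ∑ i, ∑ j, ⟪x i, A i j (x j)⟫_ℂ := by
  rw [PiLp.inner_apply]
  apply Finset.sum_congr rfl
  intro i _
  rw [ofEntries_apply, inner_sum]

private lemma star_eq_of_orb (N : VonNeumannAlgebra H) (Ω : H)
    (sep : ∀ y ∈ N, y Ω = 0 → y = 0)
    (n : ℕ) (Y : Fin n → Fin n → (H →L[ℂ] H)) (hY : ∀ i j, Y i j ∈ N)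
    (h : ∀ ξ : Fin n → H, (∀ i, ξ i ∈ orb N Ω) → 0 ≤ ∑ i, ∑ j, ⟪ξ i, Y i j (ξ j)⟫_ℂ) :
    ∀ i j, Y i j = star (Y j i) := by
  set Z : Fin n → Fin n → (H →L[ℂ] H) := fun i j => Y i j - star (Y j i) with hZdef
  have hZN : ∀ i j, Z i j ∈ N := fun i j => sub_mem (hY i j) (star_mem (hY j i))
  have hzero : ∀ ξ : Fin n → H, (∀ i, ξ i ∈ orb N Ω) →
      ∑ i, ∑ j, ⟪ξ i, Z i j (ξ j)⟫_ℂ = 0 := by
    intro ξ hξ
    have h1 := h ξ hξ
    have h2 : ∑ i, ∑ j, ⟪ξ i, (star (Y j i)) (ξ j)⟫_ℂ =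
        (starRingEnd ℂ) (∑ i, ∑ j, ⟪ξ i, Y i j (ξ j)⟫_ℂ) := by
      rw [Finset.sum_comm, map_sum]
      apply Finset.sum_congr rfl
      intro i _
      rw [map_sum]
      apply Finset.sum_congr rfl
      intro j _
      rw [ContinuousLinearMap.star_eq_adjoint, ContinuousLinearMap.adjoint_inner_right,
        inner_conj_symm]
    have h3 : (starRingEnd ℂ) (∑ i, ∑ j, ⟪ξ i, Y i j (ξ j)⟫_ℂ) =
        ∑ i, ∑ j, ⟪ξ i, Y i j (ξ j)⟫_ℂ :=
      Complex.conj_eq_iff_im.2 (Complex.nonneg_iff.1 h1).2.symm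
    simp only [hZdef, _root_.sub_apply, inner_sub_right, Finset.sum_sub_distrib]
    rw [h2, h3, sub_self]
  let T : Pw (orb N Ω) n →L[ℂ] Pw (orb N Ω) n := ofEntries (fun i j => cmp (orb N Ω) (Z i j))
  have hT : ∀ x : Pw (orb N Ω) n, ⟪(T : Pw (orb N Ω) n →ₗ[ℂ] Pw (orb N Ω) n) x, x⟫_ℂ = 0 := by
    intro x
    rw [← inner_conj_symm]
    have h1 : ⟪x, (T : Pw (orb N Ω) n →ₗ[ℂ] Pw (orb N Ω) n) x⟫_ℂ =
        ∑ i, ∑ j, ⟪((x i : orb N Ω) : H), Z i j ((x j : orb N Ω) : H)⟫_ℂ := by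
      change ⟪x, T x⟫_ℂ = _
      rw [inner_ofEntries]
      apply Finset.sum_congr rfl
      intro i _
      apply Finset.sum_congr rfl
      intro j _
      rw [Submodule.coe_inner, coe_cmp_orb N Ω (Z i j) (hZN i j)]
    rw [h1, hzero (fun i => ((x i : orb N Ω) : H)) (fun i => (x i).2), map_zero]
  have hT0 : (T : Pw (orb N Ω) n →ₗ[ℂ] Pw (orb N Ω) n) = 0 := (inner_map_self_eq_zero _).1 hT
  have hT1 : T = 0 := by
    ext1 x
    exact LinearMap.congr_fun hT0 x
  intro i j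
  have h1 : cmp (orb N Ω) (Z i j) = 0 := by
    have := entry_ofEntries (fun i j => cmp (orb N Ω) (Z i j)) i j
    rw [← this]
    change entry T i j = 0
    rw [hT1]
    ext x
    simp [entry]
  have h2 : Z i j Ω = 0 := by
    have h3 := coe_cmp_orb N Ω (Z i j) (hZN i j) ⟨Ω, by
      have := mem_orb N Ω 1 (one_mem N)
      simpa using this⟩
    rw [h1] at h3
    simpa using h3.symm
  have h3 := sep (Z i j) (hZN i j) h2
  exact sub_eq_zero.1 h3

/-- POSLIFT -/
theorem posMat_of_orb (N : VonNeumannAlgebra H) (Ω : H) (sep : ∀ y ∈ N, y Ω = 0 → y = 0)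
    (n : ℕ) (Y : Fin n → Fin n → (H →L[ℂ] H)) (hY : ∀ i j, Y i j ∈ N)
    (h : ∀ ξ : Fin n → H, (∀ i, ξ i ∈ orb N Ω) → 0 ≤ ∑ i, ∑ j, ⟪ξ i, Y i j (ξ j)⟫_ℂ) :
    PosMat Y := by
  classical
  have hsa := star_eq_of_orb N Ω sep n Y hY h
  obtain ⟨NN, hNN⟩ := exists_matAlg N n
  rw [posMat_iff]
  set T := ofEntries Y with hT
  have hTsa : IsSelfAdjoint T := by
    rw [isSelfAdjoint_iff, ← ofEntries_entry (star T), ← ofEntries_entry T]
    congr 1
    funext i j
    rw [entry_star, hT, entry_ofEntries, entry_ofEntries]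
    exact (hsa i j).symm.trans (entry_ofEntries Y i j).symm
  have hTN : T ∈ NN := by
    rw [hNN]
    intro i j
    rw [hT, entry_ofEntries]
    exact hY i j
  -- negative part
  set B := cfc (fun t : ℝ => max (-t) 0) T with hB
  set A := cfc (fun t : ℝ => max t 0) T with hA
  set S := cfc (fun t : ℝ => Real.sqrt (max (-t) 0)) T with hS
  have hBN : B ∈ NN := cfc_mem NN _ T hTN
  have hSS : S * S = B := by
    rw [hS, hB, ← cfc_mul _ _ T]
    congr 1
    funext t
    exact Real.mul_self_sqrt (le_max_right _ _)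
  have hTB : T * B = -(B * B) := by
    have h1 : T = cfc (fun t : ℝ => t) T := (cfc_id' ℝ T).symm
    have h2 : T * B = cfc (fun t : ℝ => t * max (-t) 0) T := by
      rw [cfc_mul (fun t : ℝ => t) (fun t : ℝ => max (-t) 0) T, ← h1]
    rw [h2, hB, ← cfc_mul _ _ T, ← cfc_neg]
    congr 1
    funext t
    rcases le_total t 0 with h0 | h0
    · rw [max_eq_left (by linarith)]
      ring
    · rw [max_eq_right (by linarith)]
      ring
  have hTA : T = A - B := by
    have h1 : T = cfc (fun t : ℝ => t) T := (cfc_id' ℝ T).symm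
    rw [hA, hB, ← cfc_sub _ _ T]
    conv_lhs => rw [h1]
    congr 1
    funext t
    rcases le_total t 0 with h0 | h0
    · rw [max_eq_right h0, max_eq_left (by linarith)]
      ring
    · rw [max_eq_left h0, max_eq_right (by linarith)]
      ring
  have hBsa : IsSelfAdjoint B := cfc_predicate _ T
  have hSsa : IsSelfAdjoint S := cfc_predicate _ T
  have hA0 : 0 ≤ A := cfc_nonneg (fun t _ => le_max_right _ _)
  have hadj : ∀ (x y : Pw H n), ⟪B x, y⟫_ℂ = ⟪x, B y⟫_ℂ := by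
    intro x y
    have := ContinuousLinearMap.adjoint_inner_left B y x
    rw [← ContinuousLinearMap.star_eq_adjoint, hBsa.star_eq] at this
    exact this
  have hadjS : ∀ (x y : Pw H n), ⟪S x, y⟫_ℂ = ⟪x, S y⟫_ℂ := by
    intro x y
    have := ContinuousLinearMap.adjoint_inner_left S y x
    rw [← ContinuousLinearMap.star_eq_adjoint, hSsa.star_eq] at this
    exact this
  have hkey : ∀ ξ : Pw H n, (∀ i, ξ i ∈ orb N Ω) → B ξ = 0 := by
    intro ξ hξ
    have h1 : ∀ i, (B ξ) i ∈ orb N Ω := by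
      intro i
      rw [← ofEntries_entry B, ofEntries_apply]
      apply Submodule.sum_mem
      intro j _
      exact orb_invariant N Ω _ ((hNN B).1 hBN i j) _ (hξ j)
    have h2 := h (fun i => (B ξ) i) h1
    rw [← inner_ofEntries Y (B ξ), ← hT] at h2
    have h3 : T (B ξ) = -(B (B ξ)) := by
      have := congrArg (fun W : Pw H n →L[ℂ] Pw H n => W ξ) hTB
      simpa using this
    rw [h3, inner_neg_right] at h2
    have hBB : B (B ξ) = S (S (B ξ)) :=
      congrArg (fun W : Pw H n →L[ℂ] Pw H n => W (B ξ)) hSS.symm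
    have h4 : ⟪B ξ, B (B ξ)⟫_ℂ = ⟪S (B ξ), S (B ξ)⟫_ℂ := by
      rw [hadjS, ← hBB]
    have h5 : S (B ξ) = 0 := by
      rw [h4] at h2
      have h6 := (Complex.nonneg_iff.1 h2).1
      have h7 : (⟪S (B ξ), S (B ξ)⟫_ℂ).re = ‖S (B ξ)‖ ^ 2 := by
        have := @inner_self_eq_norm_sq ℂ _ _ _ _ (S (B ξ))
        exact this
      rw [Complex.neg_re, h7] at h6
      have h8 : ‖S (B ξ)‖ = 0 := by nlinarith [norm_nonneg (S (B ξ))]
      exact norm_eq_zero.1 h8
    have h6 : B (B ξ) = 0 := by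
      rw [hBB, h5, map_zero]
    have h7 : ⟪B ξ, B ξ⟫_ℂ = 0 := by
      rw [hadj, h6, inner_zero_right]
    exact inner_self_eq_zero.1 h7
  have hBe : ∀ i j, entry B i j = 0 := by
    intro i j
    apply sep _ ((hNN B).1 hBN i j)
    have h1 := hkey (PiLp.single 2 j Ω) (by
      intro k
      by_cases hk : k = j
      · subst hk
        have := mem_orb N Ω 1 (one_mem N)
        simpa using this
      · simp [hk])
    have h2 : (B (PiLp.single 2 j Ω)) i = entry B i j Ω := by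
      rw [entry]
      rfl
    rw [← h2, h1]
    rfl
  have hB0 : B = 0 := by
    rw [← ofEntries_entry B]
    ext x i
    rw [ofEntries_apply]
    simp [hBe]
  rw [hTA, hB0, sub_zero]
  exact hA0

end Pool.Agent.Helper67.Inj
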