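import Pool.Agent.Helper67.Inj.Form
import Pool.Agent.Helper67.Inj.PosLift
import Pool.Agent.Helper67.Inj.Lim

set_option autoImplicit false

open scoped InnerProductSpace ComplexOrder TensorProduct Topology

namespace Pool.Agent.Helper67.Inj

universe u

variable {H : Type u} [NormedAddCommGroup H] [InnerProductSpace ℂ H] [CompleteSpace H]

section finaux

private lemma vn_smul_mem (N : VonNeumannAlgebra H) (c : ℂ) {y : H →L[ℂ] H} (hy : y ∈ N) :
    c • y ∈ N := N.toStarSubalgebra.toSubalgebra.smul_mem hy c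

/-- sesquilinear forms on `B(H)`, linear on the left -/
private structure Ses (f : (H →L[ℂ] H) → (H →L[ℂ] H) → ℂ) : Prop where
  add_left : ∀ x x' z, f (x + x') z = f x z + f x' z
  smul_left : ∀ (c : ℂ) x z, f (c • x) z = c * f x z
  add_right : ∀ x z z', f x (z + z') = f x z + f x z'
  smul_right : ∀ (c : ℂ) x z, f x (c • z) = (starRingEnd ℂ) c * f x z

private lemma Ses.herm {N : VonNeumannAlgebra H} {f : (H →L[ℂ] H) → (H →L[ℂ] H) → ℂ}
    (hf : Ses f) (h : ∀ y ∈ N, (f y y).im = 0) (y z : H →L[ℂ] H) (hy : y ∈ N) (hz : z ∈ N) :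
    f z y = (starRingEnd ℂ) (f y z) := by
  have h1 := h (y + z) (add_mem hy hz)
  have h2 := h (Complex.I • y + z) (add_mem (vn_smul_mem N _ hy) hz)
  have hyy := h y hy
  have hzz := h z hz
  rw [hf.add_left, hf.add_right, hf.add_right] at h1
  rw [hf.add_left, hf.add_right, hf.add_right, hf.smul_left, hf.smul_left, hf.smul_right,
    hf.smul_right] at h2
  simp only [Complex.add_im, Complex.mul_im, Complex.mul_re, Complex.I_re, Complex.I_im,
    Complex.conj_I, Complex.neg_re, Complex.neg_im] at h1 h2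
  apply Complex.ext
  · simp only [Complex.conj_re]; linarith
  · simp only [Complex.conj_im]; linarith

private lemma Ses.expand {N : VonNeumannAlgebra H} {f : (H →L[ℂ] H) → (H →L[ℂ] H) → ℂ}
    (hf : Ses f) (h : ∀ y ∈ N, (f y y).im = 0) (y z : H →L[ℂ] H) (hy : y ∈ N) (hz : z ∈ N)
    (t : ℝ) : (f (y + (t : ℂ) • z) (y + (t : ℂ) • z)).re =
      (f z z).re * (t * t) + (2 * (f y z).re) * t + (f y y).re := by
  have h1 := hf.herm h y z hy hz
  rw [hf.add_left, hf.add_right, hf.add_right, hf.smul_left, hf.smul_left, hf.smul_right,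
    hf.smul_right, h1]
  simp only [Complex.add_re, Complex.mul_im, Complex.mul_re, Complex.ofReal_re, Complex.ofReal_im,
    Complex.conj_ofReal, Complex.conj_re, Complex.conj_im]
  ring

private lemma Ses.cs {N : VonNeumannAlgebra H} {f : (H →L[ℂ] H) → (H →L[ℂ] H) → ℂ}
    (hf : Ses f) (h : ∀ y ∈ N, (f y y).im = 0) (hp : ∀ y ∈ N, 0 ≤ (f y y).re)
    (y z : H →L[ℂ] H) (hy : y ∈ N) (hz : z ∈ N) :
    (f y z).re ^ 2 ≤ (f y y).re * (f z z).re := by
  have h1 : ∀ t : ℝ, 0 ≤ (f z z).re * (t * t) + (2 * (f y z).re) * t + (f y y).re := by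
    intro t
    rw [← hf.expand h y z hy hz t]
    exact hp _ (add_mem hy (vn_smul_mem N _ hz))
  have h2 := discrim_le_zero h1
  rw [discrim] at h2
  nlinarith

private lemma Ses.zero {N : VonNeumannAlgebra H} {f : (H →L[ℂ] H) → (H →L[ℂ] H) → ℂ}
    (hf : Ses f) (h : ∀ y ∈ N, (f y y).im = 0) (hp : ∀ y ∈ N, (f y y).re = 0)
    (y z : H →L[ℂ] H) (hy : y ∈ N) (hz : z ∈ N) : f y z = 0 := by
  have key : ∀ y ∈ N, ∀ z ∈ N, (f y z).re = 0 := by
    intro y hy z hz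
    have h1 := hf.cs h (fun y hy => (hp y hy).ge) y z hy hz
    rw [hp y hy, zero_mul] at h1
    exact pow_eq_zero_iff (two_ne_zero) |>.1 (le_antisymm h1 (sq_nonneg _))
  have h2 := key (Complex.I • y) (vn_smul_mem N _ hy) z hz
  rw [hf.smul_left] at h2
  simp only [Complex.mul_re, Complex.I_re, Complex.I_im] at h2
  apply Complex.ext
  · exact key y hy z hz
  · simp only [Complex.zero_im]; linarith

private lemma sfm_ses (N : VonNeumannAlgebra H) (Ω : H) (J : orb N Ω ≃ₗᵢ⋆[ℂ] orb N Ω) :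
    Ses (sfm N Ω J) where
  add_left x x' z := by simp [sfm, map_add]
  smul_left c x z := by simp [sfm, map_smul]
  add_right x z z' := by simp [sfm, map_add]
  smul_right c x z := by
    simp only [sfm, star_smul, map_smul, map_smulₛₗ, inner_smul_left]
    simp

private lemma G_ses {G : (H →L[ℂ] H) → (H →L[ℂ] H) → ℂ} (hG : IsG G) : Ses G :=
  ⟨hG.add_left, hG.smul_left, hG.add_right, hG.smul_right⟩

private lemma inner_vec_vec (N : VonNeumannAlgebra H) (Ω : H) (y z : H →L[ℂ] H) (hy : y ∈ N)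
    (hz : z ∈ N) : ⟪vec N Ω y, vec N Ω z⟫_ℂ = ⟪y Ω, z Ω⟫_ℂ := by
  rw [← coe_vec N Ω y hy, ← coe_vec N Ω z hz]; rfl

private lemma norm_vec (N : VonNeumannAlgebra H) (Ω : H) (y : H →L[ℂ] H) (hy : y ∈ N) :
    ‖vec N Ω y‖ = ‖y Ω‖ := by
  rw [← coe_vec N Ω y hy]; rfl

private lemma eq_zero_of_vec (N : VonNeumannAlgebra H) (Ω : H) (ξ : orb N Ω)
    (h : ∀ y ∈ N, ⟪vec N Ω y, ξ⟫_ℂ = 0) : ξ = 0 := by
  apply Subtype.ext
  refine orb_eq_zero_of_inner N Ω ξ ξ.2 fun y hy => ?_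
  rw [← coe_vec N Ω y hy]
  exact h y hy

private lemma inner_cmp (N : VonNeumannAlgebra H) (Ω : H) (n : H →L[ℂ] H) (hn : n ∈ N)
    (a b : orb N Ω) : ⟪a, cmp (orb N Ω) n b⟫_ℂ = ⟪cmp (orb N Ω) (star n) a, b⟫_ℂ := by
  have h1 : ⟪a, cmp (orb N Ω) n b⟫_ℂ = ⟪(a : H), n (b : H)⟫_ℂ := by
    rw [← coe_cmp_orb N Ω n hn b]; rfl
  have h2 : ⟪cmp (orb N Ω) (star n) a, b⟫_ℂ = ⟪star n (a : H), (b : H)⟫_ℂ := by
    rw [← coe_cmp_orb N Ω (star n) (star_mem hn) a]; rfl
  rw [h1, h2, ContinuousLinearMap.star_eq_adjoint, ContinuousLinearMap.adjoint_inner_left]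

private lemma clm_ext (N : VonNeumannAlgebra H) (Ω : H) (A B : orb N Ω →L[ℂ] orb N Ω)
    (h : ∀ w ∈ N, ∀ v ∈ N, ⟪vec N Ω w, A (vec N Ω v)⟫_ℂ = ⟪vec N Ω w, B (vec N Ω v)⟫_ℂ) :
    A = B := by
  have h1 : (A : orb N Ω → orb N Ω) = B := by
    refine Continuous.ext_on (vec_dense N Ω) A.continuous B.continuous ?_
    rintro _ ⟨v, hv, rfl⟩
    have : A (vec N Ω v) - B (vec N Ω v) = 0 := by
      apply eq_zero_of_vec
      intro w hw
      rw [inner_sub_right, h w hw v hv, sub_self]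
    exact sub_eq_zero.1 this
  ext1 ξ
  exact congrFun h1 ξ

private lemma eq_zero_of_cmp {N : VonNeumannAlgebra H} {Ω : H}
    (sep : ∀ y ∈ N, y Ω = 0 → y = 0) (y : H →L[ℂ] H) (hy : y ∈ N)
    (h : ∀ ξ, cmp (orb N Ω) y ξ = 0) : y = 0 := by
  apply sep y hy
  have h1 := h (vec N Ω 1)
  rw [cmp_vec N Ω y 1 hy (one_mem N), mul_one] at h1
  rw [← coe_vec N Ω y hy, h1]; rfl

private lemma J_inner {N : VonNeumannAlgebra H} {Ω : H} {J : orb N Ω ≃ₗᵢ⋆[ℂ] orb N Ω}
    (hJ : SF N Ω J) (a b : orb N Ω) : ⟪J a, J b⟫_ℂ = ⟪b, a⟫_ℂ := by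
  rw [hJ.symm a (J b), hJ.inv]

private lemma norm_apply_le {Ω : H} (hΩ : ‖Ω‖ = 1) (y : H →L[ℂ] H) : ‖y Ω‖ ≤ ‖y‖ := by
  have := y.le_opNorm Ω
  rwa [hΩ, mul_one] at this

private lemma G_one {N : VonNeumannAlgebra H} {Ω : H} {J : orb N Ω ≃ₗᵢ⋆[ℂ] orb N Ω}
    (hJ : SF N Ω J) {G : (H →L[ℂ] H) → (H →L[ℂ] H) → ℂ} (hG : IsG G)
    (h : ∀ y ∈ N, (sfm N Ω J y y).re ≤ (G y y).re) (z : H →L[ℂ] H) (hz : z ∈ N) :
    G z 1 = ⟪Ω, z Ω⟫_ℂ := by
  have hs := sfm_ses N Ω J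
  have hg := G_ses hG
  have hsim : ∀ y ∈ N, (sfm N Ω J y y).im = 0 := fun y hy =>
    ((Complex.nonneg_iff.1 (hJ.pos y hy)).2).symm
  have hgim : ∀ y ∈ N, (G y y).im = 0 := by
    intro y hy
    have := congrArg Complex.im (hG.herm y y)
    simp only [Complex.conj_im] at this
    linarith
  have hs1 : ∀ z ∈ N, sfm N Ω J z 1 = ⟪Ω, z Ω⟫_ℂ := by
    intro z hz
    rw [sfm, star_one, hJ.fix, inner_vec_vec N Ω 1 z (one_mem N) hz]
    rfl
  have key : ∀ z ∈ N, (G z 1).re = (⟪Ω, z Ω⟫_ℂ).re := by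
    intro z hz
    have hq : ∀ t : ℝ, 0 ≤ ((G z z).re - (sfm N Ω J z z).re) * (t * t) +
        (2 * ((G 1 z).re - (sfm N Ω J 1 z).re)) * t + 0 := by
      intro t
      have h1 := h (1 + (t : ℂ) • z) (add_mem (one_mem N) (vn_smul_mem N _ hz))
      rw [hs.expand hsim 1 z (one_mem N) hz t, hg.expand hgim 1 z (one_mem N) hz t] at h1
      have h2 : (sfm N Ω J 1 1).re = (G 1 1).re := by
        rw [hs1 1 (one_mem N), hG.one]
        simp [hJ.norm, inner_self_eq_norm_sq_to_K]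
      nlinarith
    have h2 := discrim_le_zero hq
    rw [discrim] at h2
    have h3 : (G 1 z).re - (sfm N Ω J 1 z).re = 0 := by nlinarith
    have h4 : (G 1 z).re = (G z 1).re := by
      rw [hG.herm z 1, Complex.conj_re]
    have h5 : (sfm N Ω J 1 z).re = (⟪Ω, z Ω⟫_ℂ).re := by
      rw [hs.herm hsim z 1 hz (one_mem N), Complex.conj_re, hs1 z hz]
    linarith
  have k1 := key z hz
  have k2 := key (Complex.I • z) (vn_smul_mem N _ hz)
  rw [hG.smul_left, smul_apply, inner_smul_right] at k2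
  simp only [Complex.mul_re, Complex.I_re, Complex.I_im] at k2
  apply Complex.ext
  · exact k1
  · linarith

/-- `G 1 (w* w) = ‖w Ω‖²` -/
private lemma G_one_sq {N : VonNeumannAlgebra H} {Ω : H} {J : orb N Ω ≃ₗᵢ⋆[ℂ] orb N Ω}
    (hJ : SF N Ω J) {G : (H →L[ℂ] H) → (H →L[ℂ] H) → ℂ} (hG : IsG G)
    (h : ∀ y ∈ N, (sfm N Ω J y y).re ≤ (G y y).re) (w : H →L[ℂ] H) (hw : w ∈ N) :
    G 1 (star w * w) = ((‖w Ω‖ ^ 2 : ℝ) : ℂ) := by
  rw [hG.herm (star w * w) 1, G_one hJ hG h _ (mul_mem (star_mem hw) hw),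
    mul_apply_eq_comp, ContinuousLinearMap.star_eq_adjoint,
    ContinuousLinearMap.adjoint_inner_right, inner_self_eq_norm_sq_to_K]
  simp

private lemma posMat_two (x : H →L[ℂ] H) :
    PosMat (![![((‖x‖ : ℝ) : ℂ) • (1 : H →L[ℂ] H), x], ![star x, ((‖x‖ : ℝ) : ℂ) • 1]]) := by
  intro ξ
  simp only [Fin.sum_univ_two, Matrix.cons_val_zero, Matrix.cons_val_one, smul_apply,
    one_apply_eq_self, inner_smul_right]
  have h1 : ⟪ξ 1, star x (ξ 0)⟫_ℂ = (starRingEnd ℂ) ⟪ξ 0, x (ξ 1)⟫_ℂ := by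
    rw [ContinuousLinearMap.star_eq_adjoint, ContinuousLinearMap.adjoint_inner_right,
      inner_conj_symm]
  have h2 : ‖⟪ξ 0, x (ξ 1)⟫_ℂ‖ ≤ ‖x‖ * (‖ξ 0‖ * ‖ξ 1‖) := by
    calc ‖⟪ξ 0, x (ξ 1)⟫_ℂ‖ ≤ ‖ξ 0‖ * ‖x (ξ 1)‖ := norm_inner_le_norm _ _
      _ ≤ ‖ξ 0‖ * (‖x‖ * ‖ξ 1‖) := by gcongr; exact x.le_opNorm _
      _ = _ := by ring
  have h3 : -(‖x‖ * (‖ξ 0‖ * ‖ξ 1‖)) ≤ (⟪ξ 0, x (ξ 1)⟫_ℂ).re :=
    (neg_le_neg h2).trans (neg_le_of_abs_le (Complex.abs_re_le_norm _))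
  rw [h1, inner_self_eq_norm_sq_to_K, inner_self_eq_norm_sq_to_K, Complex.nonneg_iff]
  constructor
  · simp only [Complex.add_re, Complex.mul_re, Complex.ofReal_re, Complex.ofReal_im, zero_mul,
      sub_zero, Complex.conj_re, Complex.coe_algebraMap, ← Complex.ofReal_pow]
    nlinarith [mul_nonneg (norm_nonneg x) (sq_nonneg (‖ξ 0‖ - ‖ξ 1‖))]
  · simp only [Complex.add_im, Complex.mul_im, Complex.ofReal_re, Complex.ofReal_im, zero_mul,
      mul_zero, Complex.conj_im, Complex.coe_algebraMap, ← Complex.ofReal_pow]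
    ring

private lemma G_bound {N : VonNeumannAlgebra H} {Ω : H} {J : orb N Ω ≃ₗᵢ⋆[ℂ] orb N Ω}
    (hJ : SF N Ω J) {G : (H →L[ℂ] H) → (H →L[ℂ] H) → ℂ} (hG : IsG G)
    (h : ∀ y ∈ N, (sfm N Ω J y y).re ≤ (G y y).re) (x v w : H →L[ℂ] H) (hv : v ∈ N)
    (hw : w ∈ N) : ‖G x (star v * w)‖ ≤ ‖x‖ * ‖w Ω‖ * ‖v Ω‖ := by
  -- positivity
  have hpos : ∀ β : ℂ, 0 ≤ ((‖x‖ * ‖v Ω‖ ^ 2 : ℝ) : ℂ) +
      (starRingEnd ℂ) β * G x (star v * w) + (β * G (star x) (star w * v) +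
      ((‖x‖ * (‖β‖ ^ 2 * ‖w Ω‖ ^ 2) : ℝ) : ℂ)) := by
    intro β
    have h1 := hG.pos 2 _ ![v, β • w] (posMat_two x)
    simp only [Fin.sum_univ_two, Matrix.cons_val_zero, Matrix.cons_val_one, hG.smul_left,
      star_smul, smul_mul_assoc, mul_smul_comm, hG.smul_right] at h1
    rw [G_one_sq hJ hG h v hv, G_one_sq hJ hG h w hw] at h1
    have h2 : ((‖x‖ * (‖β‖ ^ 2 * ‖w Ω‖ ^ 2) : ℝ) : ℂ) =
        ((‖x‖ : ℝ) : ℂ) * ((starRingEnd ℂ) (star β) * ((starRingEnd ℂ) β *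
          ((‖w Ω‖ ^ 2 : ℝ) : ℂ))) := by
      have : (starRingEnd ℂ) (star β) = β := star_star β
      rw [this, ← mul_assoc β, Complex.mul_conj, Complex.normSq_eq_norm_sq]
      push_cast; ring
    rw [h2, Complex.ofReal_mul]
    convert h1 using 3
    · have : (starRingEnd ℂ) (star β) = β := star_star β
      rw [this]
    · ring
  set A := G x (star v * w) with hA
  set B := G (star x) (star w * v) with hB
  have hBA : B = (starRingEnd ℂ) A := by
    have e1 := (Complex.nonneg_iff.1 (hpos 1)).2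
    have e2 := (Complex.nonneg_iff.1 (hpos Complex.I)).2
    simp only [Complex.add_im, Complex.mul_im, Complex.ofReal_im, map_one, Complex.one_re,
      Complex.one_im, Complex.conj_I, Complex.neg_re, Complex.neg_im, Complex.I_re,
      Complex.I_im] at e1 e2
    apply Complex.ext
    · rw [Complex.conj_re]; linarith
    · rw [Complex.conj_im]; linarith
  rcases eq_or_ne A 0 with h0 | h0
  · rw [h0, norm_zero]; positivity
  have hA0 : (‖A‖ : ℂ) ≠ 0 := by
    simpa using h0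
  have hq : ∀ t : ℝ, 0 ≤ (‖x‖ * ‖w Ω‖ ^ 2) * (t * t) + (-(2 * ‖A‖)) * t + ‖x‖ * ‖v Ω‖ ^ 2 := by
    intro t
    have h1 := hpos (-((t : ℂ) * (A / (‖A‖ : ℂ))))
    have h2 : (starRingEnd ℂ) (-((t : ℂ) * (A / (‖A‖ : ℂ)))) * A = ((-(t * ‖A‖) : ℝ) : ℂ) := by
      simp only [map_neg, map_mul, Complex.conj_ofReal, map_div₀]
      have h3 : (starRingEnd ℂ) A * A = (‖A‖ : ℂ) ^ 2 := by
        rw [mul_comm, Complex.mul_conj, Complex.normSq_eq_norm_sq]; push_cast; rfl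
      have h4 : -((t : ℂ) * ((starRingEnd ℂ) A / (‖A‖ : ℂ))) * A =
          -((t : ℂ) * (((starRingEnd ℂ) A * A) / (‖A‖ : ℂ))) := by ring
      rw [h4, h3]
      push_cast
      field_simp
    have h3 : (-((t : ℂ) * (A / (‖A‖ : ℂ)))) * B = ((-(t * ‖A‖) : ℝ) : ℂ) := by
      have := congrArg (starRingEnd ℂ) h2
      rw [map_mul, Complex.conj_conj, Complex.conj_ofReal] at this
      rw [hBA, this]
    have h5 : ‖-((t : ℂ) * (A / (‖A‖ : ℂ)))‖ ^ 2 = t * t := by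
      rw [norm_neg, norm_mul, norm_div, Complex.norm_real, Complex.norm_real, norm_norm,
        div_self (by simpa using h0), mul_one, Real.norm_eq_abs, sq_abs, sq]
    rw [h2, h3, h5] at h1
    have h6 := (Complex.nonneg_iff.1 h1).1
    simp only [Complex.add_re, Complex.ofReal_re] at h6
    nlinarith
  have h1 := discrim_le_zero hq
  rw [discrim] at h1
  rw [← pow_le_pow_iff_left₀ (norm_nonneg _) (by positivity) two_ne_zero]
  nlinarith

private lemma exists_T {N : VonNeumannAlgebra H} {Ω : H} {J : orb N Ω ≃ₗᵢ⋆[ℂ] orb N Ω}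
    (hJ : SF N Ω J) {G : (H →L[ℂ] H) → (H →L[ℂ] H) → ℂ} (hG : IsG G)
    (h : ∀ y ∈ N, (sfm N Ω J y y).re ≤ (G y y).re) (x : H →L[ℂ] H) :
    ∃ T : orb N Ω →L[ℂ] orb N Ω, ‖T‖ ≤ ‖x‖ ∧ ∀ w ∈ N, ∀ v ∈ N,
      ⟪vec N Ω w, T (vec N Ω v)⟫_ℂ = G x (star v * w) := by
  let V : Submodule ℂ (H →L[ℂ] H) := Subalgebra.toSubmodule N.toStarSubalgebra.toSubalgebra
  let F : V →ₗ[ℂ] orb N Ω := (vec N Ω).comp V.subtype
  have hF : DenseRange F := by
    refine (vec_dense N Ω).mono ?_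
    rintro _ ⟨y, hy, rfl⟩
    exact ⟨⟨y, hy⟩, rfl⟩
  obtain ⟨T, hT, hT2⟩ := exists_operator_of_form F hF
    (fun w v => G x (star (v : H →L[ℂ] H) * (w : H →L[ℂ] H)))
    (by
      intro w v v'
      simp only [Submodule.coe_add, star_add, add_mul, hG.add_right])
    (by
      intro c w v
      simp only [Submodule.coe_smul, star_smul, smul_mul_assoc, hG.smul_right]
      rw [show (starRingEnd ℂ) (star c) = c from star_star c])
    (by
      intro w w' v
      simp only [Submodule.coe_add, mul_add, hG.add_right])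
    (by
      intro c w v
      simp only [Submodule.coe_smul, mul_smul_comm, hG.smul_right])
    ‖x‖ (norm_nonneg _) (by
      intro w v
      have := G_bound hJ hG h x (v : H →L[ℂ] H) (w : H →L[ℂ] H) v.2 w.2
      have e1 : ‖F w‖ = ‖(w : H →L[ℂ] H) Ω‖ := norm_vec N Ω _ w.2
      have e2 : ‖F v‖ = ‖(v : H →L[ℂ] H) Ω‖ := norm_vec N Ω _ v.2
      rw [e1, e2]
      exact this)
  exact ⟨T, hT, fun w hw v hv => hT2 ⟨w, hw⟩ ⟨v, hv⟩⟩

private lemma T_comm {N : VonNeumannAlgebra H} {Ω : H} {G : (H →L[ℂ] H) → (H →L[ℂ] H) → ℂ}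
    {x : H →L[ℂ] H} {T : orb N Ω →L[ℂ] orb N Ω} (hT : ∀ w ∈ N, ∀ v ∈ N,
      ⟪vec N Ω w, T (vec N Ω v)⟫_ℂ = G x (star v * w)) (n : H →L[ℂ] H) (hn : n ∈ N)
    (ξ : orb N Ω) : T (cmp (orb N Ω) n ξ) = cmp (orb N Ω) n (T ξ) := by
  have h1 : T ∘L (cmp (orb N Ω) n) = (cmp (orb N Ω) n) ∘L T := by
    apply clm_ext
    intro w hw v hv
    rw [ContinuousLinearMap.comp_apply, ContinuousLinearMap.comp_apply, cmp_vec N Ω n v hn hv,
      hT w hw _ (mul_mem hn hv), inner_cmp N Ω n hn, cmp_vec N Ω _ w (star_mem hn) hw,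
      hT _ (mul_mem (star_mem hn) hw) v hv, star_mul, mul_assoc]
  exact congrArg (fun A : orb N Ω →L[ℂ] orb N Ω => A ξ) h1

private lemma T_adj_comm {N : VonNeumannAlgebra H} {Ω : H} {T : orb N Ω →L[ℂ] orb N Ω}
    (hT : ∀ n ∈ N, ∀ ξ, T (cmp (orb N Ω) n ξ) = cmp (orb N Ω) n (T ξ)) (n : H →L[ℂ] H)
    (hn : n ∈ N) (ξ : orb N Ω) : ContinuousLinearMap.adjoint T (cmp (orb N Ω) n ξ) =
      cmp (orb N Ω) n (ContinuousLinearMap.adjoint T ξ) := by
  apply ext_inner_left ℂ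
  intro a
  rw [ContinuousLinearMap.adjoint_inner_right, inner_cmp N Ω n hn, ← hT _ (star_mem hn),
    ← ContinuousLinearMap.adjoint_inner_right, inner_cmp N Ω n hn]

end finaux

/-- FIN -/
theorem injective_of_G (N : VonNeumannAlgebra H) (Ω : H) (J : orb N Ω ≃ₗᵢ⋆[ℂ] orb N Ω)
    (hJ : SF N Ω J) (G : (H →L[ℂ] H) → (H →L[ℂ] H) → ℂ) (hG : IsG G)
    (h : ∀ y ∈ N, (sfm N Ω J y y).re ≤ (G y y).re) : InjAt N 1 := by
  have hs := sfm_ses N Ω J
  have hsim : ∀ y ∈ N, (sfm N Ω J y y).im = 0 := fun y hy =>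
    ((Complex.nonneg_iff.1 (hJ.pos y hy)).2).symm
  have hspos : ∀ y ∈ N, 0 ≤ (sfm N Ω J y y).re := fun y hy =>
    (Complex.nonneg_iff.1 (hJ.pos y hy)).1
  choose T hTn hT using exists_T hJ hG h
  have hTc : ∀ x, ∀ n ∈ N, ∀ ξ, T x (cmp (orb N Ω) n ξ) = cmp (orb N Ω) n (T x ξ) :=
    fun x n hn ξ => T_comm (hT x) n hn ξ
  have hTa : ∀ x, ∀ n ∈ N, ∀ ξ, ContinuousLinearMap.adjoint (T x) (cmp (orb N Ω) n ξ) =
      cmp (orb N Ω) n (ContinuousLinearMap.adjoint (T x) ξ) :=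
    fun x n hn ξ => T_adj_comm (hTc x) n hn ξ
  have hTadd : ∀ x x', T (x + x') = T x + T x' := by
    intro x x'
    apply clm_ext
    intro w hw v hv
    rw [hT _ w hw v hv, add_apply, inner_add_right, hT _ w hw v hv, hT _ w hw v hv, hG.add_left]
  have hTsmul : ∀ (c : ℂ) x, T (c • x) = c • T x := by
    intro c x
    apply clm_ext
    intro w hw v hv
    rw [hT _ w hw v hv, smul_apply, inner_smul_right, hT _ w hw v hv, hG.smul_left]
  choose E₀ hE₀N hE₀ using fun x => hJ.back (ContinuousLinearMap.adjoint (T x)) (hTa x)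
  have huniq : ∀ y ∈ N, ∀ z ∈ N, (∀ ξ, cmp (orb N Ω) y ξ = cmp (orb N Ω) z ξ) → y = z := by
    intro y hy z hz hyz
    rw [← sub_eq_zero]
    apply eq_zero_of_cmp hJ.sep _ (sub_mem hy hz)
    intro ξ
    rw [map_sub, sub_apply, hyz, sub_self]
  let E : (H →L[ℂ] H) →ₗ[ℂ] (H →L[ℂ] H) :=
    { toFun := E₀
      map_add' := by
        intro x x'
        apply huniq _ (hE₀N _) _ (add_mem (hE₀N _) (hE₀N _))
        intro ξ
        rw [hE₀, hTadd, map_add, map_add, add_apply, add_apply, map_add, hE₀, hE₀]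
      map_smul' := by
        intro c x
        apply huniq _ (hE₀N _) _ (vn_smul_mem N _ (hE₀N _))
        intro ξ
        rw [hE₀, hTsmul, map_smulₛₗ, RingHom.id_apply, map_smul, smul_apply, smul_apply,
          map_smulₛₗ, Complex.conj_conj, hE₀] }
  have hEN : ∀ x, E x ∈ N := hE₀N
  have hE : ∀ x ξ, cmp (orb N Ω) (E x) ξ = J (ContinuousLinearMap.adjoint (T x) (J ξ)) := hE₀
  -- complete positivity
  have hcp : IsCP E := by
    intro n X hX
    refine posMat_of_orb N Ω hJ.sep n _ (fun i j => hEN _) ?_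
    intro ξ hξ
    let η : Fin n → orb N Ω := fun i => ⟨ξ i, hξ i⟩
    have h1 : ∀ i j, ⟪ξ i, E (X i j) (ξ j)⟫_ℂ = ⟪J (η j), T (X i j) (J (η i))⟫_ℂ := by
      intro i j
      have e1 : ⟪ξ i, E (X i j) (ξ j)⟫_ℂ = ⟪η i, cmp (orb N Ω) (E (X i j)) (η j)⟫_ℂ := by
        have := coe_cmp_orb N Ω (E (X i j)) (hEN _) (η j)
        rw [Submodule.coe_inner, this]
      rw [e1, hE, ← ContinuousLinearMap.adjoint_inner_left (T (X i j)), ← hJ.inv (η i), J_inner hJ,
        hJ.inv]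
    simp_rw [h1]
    have hcl : IsClosed {ζ : Fin n → orb N Ω |
        0 ≤ ∑ i, ∑ j, ⟪ζ j, T (X i j) (ζ i)⟫_ℂ} := by
      refine isClosed_le continuous_const ?_
      fun_prop
    have hd : Dense (Set.pi Set.univ
        (fun _ : Fin n => {ξ : orb N Ω | ∃ y ∈ N, vec N Ω y = ξ})) :=
      dense_pi _ (fun _ _ => vec_dense N Ω)
    have hsub : Set.pi Set.univ (fun _ : Fin n => {ξ : orb N Ω | ∃ y ∈ N, vec N Ω y = ξ}) ⊆
        {ζ : Fin n → orb N Ω | 0 ≤ ∑ i, ∑ j, ⟪ζ j, T (X i j) (ζ i)⟫_ℂ} := by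
      intro ζ hζ
      have hζ' : ∀ i, ∃ y ∈ N, vec N Ω y = ζ i := fun i => hζ i (Set.mem_univ i)
      choose y hyN hy using hζ'
      have := hG.pos n X y hX
      simp only [Set.mem_ofPred_eq]
      convert this using 4 with i _ j _
      rw [← hy i, ← hy j, hT _ _ (hyN j) _ (hyN i)]
    have := (hd.closure_eq ▸ closure_minimal hsub hcl : Set.univ ⊆ _)
    exact this (Set.mem_univ (fun i => J (η i)))
  -- the form of `E x`
  have hsE : ∀ x, ∀ z ∈ N, sfm N Ω J (E x) z = G x z := by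
    intro x z hz
    have h1 : vec N Ω (E x) = J (ContinuousLinearMap.adjoint (T x) (vec N Ω 1)) := by
      have := hE x (vec N Ω 1)
      rwa [cmp_vec N Ω _ 1 (hEN x) (one_mem N), mul_one, hJ.fix] at this
    rw [sfm, h1, J_inner hJ, ContinuousLinearMap.adjoint_inner_left,
      hT x 1 (one_mem N) _ (star_mem hz), star_star, mul_one]
  have hnd : ∀ y ∈ N, (∀ z ∈ N, sfm N Ω J y z = 0) → y = 0 := by
    intro y hy hyz
    have h1 : J (vec N Ω y) = 0 := by
      apply eq_zero_of_vec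
      intro w hw
      have h2 := hyz (star w) (star_mem hw)
      rw [sfm, star_star, hJ.symm] at h2
      rw [← inner_conj_symm, h2, map_zero]
    have h2 : vec N Ω y = 0 := by
      have := congrArg J h1
      rwa [hJ.inv, map_zero] at this
    apply hJ.sep y hy
    rw [← coe_vec N Ω y hy, h2]; rfl
  have hgim : ∀ y ∈ N, (G y y).im = 0 := by
    intro y hy
    have := congrArg Complex.im (hG.herm y y)
    simp only [Complex.conj_im] at this
    linarith
  have hE1 : E 1 = 1 := by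
    rw [← sub_eq_zero]
    apply hnd _ (sub_mem (hEN 1) (one_mem N))
    intro z hz
    have h1 : sfm N Ω J (E 1 - 1) z = sfm N Ω J (E 1) z - sfm N Ω J 1 z := by
      rw [sub_eq_add_neg, hs.add_left, ← neg_one_smul ℂ (1 : H →L[ℂ] H), hs.smul_left]
      ring
    have h2 : sfm N Ω J z 1 = ⟪Ω, z Ω⟫_ℂ := by
      rw [sfm, star_one, hJ.fix, inner_vec_vec N Ω 1 z (one_mem N) hz]
      rfl
    rw [h1, hsE 1 z hz, hG.herm z 1, hs.herm hsim z 1 hz (one_mem N), h2, G_one hJ hG h z hz,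
      sub_self]
  have hb : ∀ x, ‖E x‖ ≤ ‖x‖ := cp_contractive E hcp (by
    rw [hE1]; exact ContinuousLinearMap.norm_id_le)
  have hbm : ∀ (m : ℕ) x, ‖E^[m] x‖ ≤ ‖x‖ := by
    intro m
    induction m with
    | zero => intro x; exact le_rfl
    | succ m ih =>
      intro x
      rw [Function.iterate_succ_apply']
      exact (hb _).trans (ih x)
  have hNm : ∀ (m : ℕ) x, x ∈ N → E^[m] x ∈ N := by
    intro m
    cases m with
    | zero => intro x hx; exact hx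
    | succ m => intro x hx; rw [Function.iterate_succ_apply']; exact hEN _
  have hsym : ∀ y ∈ N, ∀ z ∈ N, sfm N Ω J (E y) z = sfm N Ω J y (E z) := by
    intro y hy z hz
    rw [hsE y z hz, hs.herm hsim (E z) y (hEN z) hy, hsE z y hy, ← hG.herm]
  have hsymm : ∀ (k m : ℕ) y, y ∈ N → ∀ z ∈ N,
      sfm N Ω J (E^[m + k] y) z = sfm N Ω J (E^[m] y) (E^[k] z) := by
    intro k
    induction k with
    | zero => intro m y hy z hz; rfl
    | succ k ih =>
      intro m y hy z hz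
      rw [← add_assoc, Function.iterate_succ_apply', hsym _ (hNm _ y hy) z hz,
        ih m y hy (E z) (hEN z), ← Function.iterate_succ_apply]
  have hle : ∀ y ∈ N, (G y y).re ≤ (sfm N Ω J y y).re := by
    intro y hy
    by_contra hlt
    rw [not_le] at hlt
    set b : ℕ → ℝ := fun k => (sfm N Ω J (E^[2 ^ k] y) y).re with hbdef
    have hb0 : b 0 = (G y y).re := by
      simp only [hbdef, pow_zero, Function.iterate_one]
      rw [hsE y y hy]
    have hrec : ∀ k, b k ^ 2 ≤ b (k + 1) * (sfm N Ω J y y).re := by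
      intro k
      have h1 := hs.cs hsim hspos (E^[2 ^ k] y) y (hNm _ y hy) hy
      rw [← hsymm (2 ^ k) (2 ^ k) y hy y hy] at h1
      have h2 : 2 ^ k + 2 ^ k = 2 ^ (k + 1) := by ring
      rw [h2] at h1
      exact h1
    have hbd : ∀ k, b k ≤ ‖y‖ ^ 2 := by
      intro k
      have h1 : ‖sfm N Ω J (E^[2 ^ k] y) y‖ ≤ ‖y‖ ^ 2 := by
        calc ‖sfm N Ω J (E^[2 ^ k] y) y‖
            ≤ ‖J (vec N Ω (star y))‖ * ‖vec N Ω (E^[2 ^ k] y)‖ := norm_inner_le_norm _ _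
          _ = ‖star y Ω‖ * ‖(E^[2 ^ k] y) Ω‖ := by
            rw [LinearIsometryEquiv.norm_map, norm_vec N Ω _ (star_mem hy),
              norm_vec N Ω _ (hNm _ y hy)]
          _ ≤ ‖star y‖ * ‖E^[2 ^ k] y‖ := by
            gcongr
            · exact norm_apply_le hJ.norm _
            · exact norm_apply_le hJ.norm _
          _ ≤ ‖y‖ * ‖y‖ := by
            rw [norm_star]
            gcongr
            exact hbm _ y
          _ = ‖y‖ ^ 2 := by ring
      exact ((Complex.re_le_norm _)).trans h1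
    have hs0 := hspos y hy
    rcases hs0.eq_or_lt with h0 | h0
    · have h1 := hrec 0
      rw [← h0, mul_zero, hb0] at h1
      have h2 : (G y y).re = 0 := pow_eq_zero_iff two_ne_zero |>.1 (le_antisymm h1 (sq_nonneg _))
      rw [h2, ← h0] at hlt
      exact lt_irrefl _ hlt
    · set s0 := (sfm N Ω J y y).re with hs0def
      set r := b 0 / s0 with hr
      have hr1 : 1 < r := by
        rw [hr, one_lt_div h0, hb0]; exact hlt
      have hind : ∀ k, r ^ (2 ^ k) ≤ b k / s0 := by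
        intro k
        induction k with
        | zero => simp [hr]
        | succ k ih =>
          have h1 : r ^ (2 ^ (k + 1)) = (r ^ (2 ^ k)) ^ 2 := by
            rw [← pow_mul, pow_succ]
          rw [h1]
          have h2 : (r ^ (2 ^ k)) ^ 2 ≤ (b k / s0) ^ 2 :=
            pow_le_pow_left₀ (by positivity) ih 2
          refine h2.trans ?_
          rw [div_pow, div_le_div_iff₀ (by positivity) h0]
          nlinarith [hrec k]
      obtain ⟨n, hn⟩ := pow_unbounded_of_one_lt (‖y‖ ^ 2 / s0) hr1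
      have h1 : r ^ n ≤ r ^ (2 ^ n) := pow_le_pow_right₀ hr1.le (Nat.lt_two_pow_self).le
      have h2 : b n / s0 ≤ ‖y‖ ^ 2 / s0 := by
        gcongr
        exact hbd n
      linarith [hind n]
  -- conclusion
  have hf : Ses (fun y z : H →L[ℂ] H => G y z - sfm N Ω J y z) :=
    ⟨fun x x' z => by rw [hG.add_left, hs.add_left]; ring,
      fun c x z => by rw [hG.smul_left, hs.smul_left]; ring,
      fun x z z' => by rw [hG.add_right, hs.add_right]; ring,
      fun c x z => by rw [hG.smul_right, hs.smul_right]; ring⟩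
  have hEid : ∀ y ∈ N, E y = y := by
    intro y hy
    rw [← sub_eq_zero]
    apply hnd _ (sub_mem (hEN y) hy)
    intro z hz
    have h1 : sfm N Ω J (E y - y) z = sfm N Ω J (E y) z - sfm N Ω J y z := by
      rw [sub_eq_add_neg, hs.add_left, ← neg_one_smul ℂ y, hs.smul_left]
      ring
    rw [h1, hsE y z hz]
    refine hf.zero (N := N) (fun y hy => ?_) (fun y hy => ?_) y z hy hz
    · simp only [Complex.sub_im, hgim y hy, hsim y hy, sub_self]
    · simp only [Complex.sub_re]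
      linarith [h y hy, hle y hy]
  exact ⟨E, hcp, hEN, fun x => ⟨one_mul _, mul_one _⟩, fun m hm _ _ => hEid m hm⟩

end Pool.Agent.Helper67.Inj
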