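import Pool.Agent.Helper67.Inj.Defs

set_option autoImplicit false

open scoped InnerProductSpace ComplexOrder TensorProduct Topology

namespace Pool.Agent.Helper67.Inj

universe u

variable {H : Type u} [NormedAddCommGroup H] [InnerProductSpace ℂ H] [CompleteSpace H]

/-- ISOEXT -/
theorem exists_operator_of_norm_le {K : Type*} [NormedAddCommGroup K] [InnerProductSpace ℂ K]
    [CompleteSpace K] {V : Type*} [AddCommGroup V] [Module ℂ V] (F G : V →ₗ[ℂ] K)
    (hF : DenseRange F) (C : ℝ) (hC : 0 ≤ C) (h : ∀ v, ‖G v‖ ≤ C * ‖F v‖) :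
    ∃ T : K →L[ℂ] K, ‖T‖ ≤ C ∧ ∀ v, T (F v) = G v :=
  ⟨G.extendOfNorm F, LinearMap.opNorm_extendOfNorm_le hF hC h,
    fun v => LinearMap.extendOfNorm_eq hF ⟨C, h⟩ v⟩

/-- FORM : bounded sesquilinear forms on dense images -/
theorem exists_operator_of_form {K : Type*} [NormedAddCommGroup K] [InnerProductSpace ℂ K]
    [CompleteSpace K] {V : Type*} [AddCommGroup V] [Module ℂ V] (F : V →ₗ[ℂ] K)
    (hF : DenseRange F) (B : V → V → ℂ)
    (hadd : ∀ w v v', B w (v + v') = B w v + B w v')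
    (hsmul : ∀ (c : ℂ) w v, B w (c • v) = c * B w v)
    (hadd' : ∀ w w' v, B (w + w') v = B w v + B w' v)
    (hsmul' : ∀ (c : ℂ) w v, B (c • w) v = (starRingEnd ℂ) c * B w v)
    (C : ℝ) (hC : 0 ≤ C) (hB : ∀ w v, ‖B w v‖ ≤ C * ‖F w‖ * ‖F v‖) :
    ∃ T : K →L[ℂ] K, ‖T‖ ≤ C ∧ ∀ w v, ⟪F w, T (F v)⟫_ℂ = B w v := by
  -- the functional for fixed `v`
  let M : V → (V →ₗ[ℂ] ℂ) := fun v =>
    { toFun := fun w => (starRingEnd ℂ) (B w v)
      map_add' := fun w w' => by simp only [hadd', map_add]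
      map_smul' := fun c w => by
        simp only [hsmul', map_mul, Complex.conj_conj, RingHom.id_apply, smul_eq_mul] }
  have hM : ∀ v w, ‖M v w‖ ≤ (C * ‖F v‖) * ‖F w‖ := fun v w => by
    have h1 : ‖M v w‖ = ‖B w v‖ := RCLike.norm_conj _
    rw [h1]
    exact (hB w v).trans (le_of_eq (by ring))
  let g : V → K := fun v => (InnerProductSpace.toDual ℂ K).symm ((M v).extendOfNorm F)
  have hg : ∀ v w, ⟪F w, g v⟫_ℂ = B w v := fun v w => by
    rw [← inner_conj_symm]
    have h1 : ⟪g v, F w⟫_ℂ = ((M v).extendOfNorm F) (F w) := by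
      simp only [g, InnerProductSpace.toDual_symm_apply]
    rw [h1, LinearMap.extendOfNorm_eq hF ⟨C * ‖F v‖, hM v⟩ w]
    simp only [M, LinearMap.coe_mk, AddHom.coe_mk, Complex.conj_conj]
  have hgn : ∀ v, ‖g v‖ ≤ C * ‖F v‖ := fun v => by
    have h1 : ‖g v‖ = ‖(M v).extendOfNorm F‖ := by
      simp only [g, LinearIsometryEquiv.norm_map]
    rw [h1]
    exact LinearMap.opNorm_extendOfNorm_le hF (mul_nonneg hC (norm_nonneg _)) (hM v)
  -- linearity from density
  have hext : ∀ x y : K, (∀ w, ⟪F w, x⟫_ℂ = ⟪F w, y⟫_ℂ) → x = y := fun x y hxy => by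
    refine ext_inner_left ℂ fun z => ?_
    refine hF.induction_on (p := fun z => ⟪z, x⟫_ℂ = ⟪z, y⟫_ℂ) z ?_ hxy
    exact isClosed_eq (by fun_prop) (by fun_prop)
  let G : V →ₗ[ℂ] K :=
    { toFun := g
      map_add' := fun v v' => hext _ _ fun w => by
        rw [inner_add_right, hg, hg, hg, hadd]
      map_smul' := fun c v => hext _ _ fun w => by
        rw [RingHom.id_apply, inner_smul_right, hg, hg, hsmul] }
  obtain ⟨T, hT, hTv⟩ := exists_operator_of_norm_le F G hF C hC hgn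
  exact ⟨T, hT, fun w v => by rw [hTv]; exact hg v w⟩

end Pool.Agent.Helper67.Inj
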