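import Pool.Agent.Helper67.Inj.Lim

set_option autoImplicit false

open scoped InnerProductSpace ComplexOrder TensorProduct Topology

namespace Pool.Agent.Helper67.Inj

universe u

variable {H : Type u} [NormedAddCommGroup H] [InnerProductSpace ℂ H] [CompleteSpace H]

/-- the map `x ↦ v E(v* x w) w*` -/
private noncomputable def piece (E : (H →L[ℂ] H) →ₗ[ℂ] (H →L[ℂ] H)) (v w : H →L[ℂ] H) :
    (H →L[ℂ] H) →ₗ[ℂ] (H →L[ℂ] H) where
  toFun x := v * E (star v * x * w) * star w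
  map_add' x y := by
    simp [mul_add, add_mul]
  map_smul' c x := by
    simp

private theorem piece_apply (E : (H →L[ℂ] H) →ₗ[ℂ] (H →L[ℂ] H)) (v w x : H →L[ℂ] H) :
    piece E v w x = v * E (star v * x * w) * star w := rfl

private theorem inner_star (v : H →L[ℂ] H) (x y : H) : ⟪x, v y⟫_ℂ = ⟪star v x, y⟫_ℂ := by
  rw [ContinuousLinearMap.star_eq_adjoint, ContinuousLinearMap.adjoint_inner_left]

private theorem inner_star' (v : H →L[ℂ] H) (x y : H) : ⟪x, star v y⟫_ℂ = ⟪v x, y⟫_ℂ := by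
  rw [ContinuousLinearMap.star_eq_adjoint, ContinuousLinearMap.adjoint_inner_right]

private theorem cp_pieces {E : (H →L[ℂ] H) →ₗ[ℂ] (H →L[ℂ] H)} (hE : IsCP E) {ι : Type*}
    [Fintype ι] (v : ι → (H →L[ℂ] H)) : IsCP (∑ a, ∑ b, piece E (v a) (v b)) := by
  intro n X hX ξ
  have h1 : PosMat (fun s t : Fin n × ι => star (v s.2) * X s.1 t.1 * v t.2) := by
    intro ζ
    have h := hX (fun i => ∑ a, v a (ζ (i, a)))
    have he : ∑ s : Fin n × ι, ∑ t : Fin n × ι,
        ⟪ζ s, (star (v s.2) * X s.1 t.1 * v t.2) (ζ t)⟫_ℂ =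
        ∑ i, ∑ j, ⟪∑ a, v a (ζ (i, a)), X i j (∑ a, v a (ζ (j, a)))⟫_ℂ := by
      rw [Fintype.sum_prod_type]
      refine Finset.sum_congr rfl fun i _ => ?_
      simp_rw [Fintype.sum_prod_type, sum_inner, map_sum, inner_sum]
      rw [Finset.sum_comm]
      refine Finset.sum_congr rfl fun j _ => ?_
      refine Finset.sum_congr rfl fun a _ => ?_
      refine Finset.sum_congr rfl fun b _ => ?_
      show ⟪ζ (i, a), star (v a) (X i j (v b (ζ (j, b))))⟫_ℂ = _
      rw [inner_star']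
    rw [he]
    exact h
  have h2 := hE.fintype _ h1 (fun s => star (v s.2) (ξ s.1))
  have he : ∑ i, ∑ j, ⟪ξ i, (∑ a, ∑ b, piece E (v a) (v b)) (X i j) (ξ j)⟫_ℂ =
      ∑ i, ∑ a, ∑ j, ∑ b,
        ⟪star (v a) (ξ i), E (star (v a) * X i j * v b) (star (v b) (ξ j))⟫_ℂ := by
    refine Finset.sum_congr rfl fun i _ => ?_
    conv_rhs => rw [Finset.sum_comm]
    refine Finset.sum_congr rfl fun j _ => ?_
    simp only [LinearMap.sum_apply, _root_.sum_apply, inner_sum]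
    refine Finset.sum_congr rfl fun a _ => ?_
    refine Finset.sum_congr rfl fun b _ => ?_
    rw [piece_apply]
    show ⟪ξ i, v a (E (star (v a) * X i j * v b) (star (v b) (ξ j)))⟫_ℂ = _
    rw [inner_star]
  rw [he]
  simp only [Fintype.sum_prod_type] at h2
  exact h2

omit [CompleteSpace H] in
private theorem cp_sum {ι : Type*} (s : Finset ι)
    (E : ι → ((H →L[ℂ] H) →ₗ[ℂ] (H →L[ℂ] H))) (hE : ∀ i ∈ s, IsCP (E i)) :
    IsCP (∑ i ∈ s, E i) := by
  intro n X hX ξ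
  have he : ∑ i, ∑ j, ⟪ξ i, (∑ k ∈ s, E k) (X i j) (ξ j)⟫_ℂ =
      ∑ k ∈ s, ∑ i, ∑ j, ⟪ξ i, E k (X i j) (ξ j)⟫_ℂ := by
    simp only [LinearMap.sum_apply, _root_.sum_apply, inner_sum]
    refine (Finset.sum_congr rfl fun i _ => Finset.sum_comm).trans ?_
    exact Finset.sum_comm
  rw [he]
  exact Finset.sum_nonneg fun k hk => hE k hk n X hX ξ

/-- GAMP -/
theorem gamp (M : VonNeumannAlgebra H) (𝒮 : Set (H →L[ℂ] H))
    (h𝒮 : ∀ p ∈ 𝒮, p ∈ M ∧ IsStarProjection p ∧ InjAt M p)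
    (h𝒮' : ∀ p ∈ 𝒮, ∀ q ∈ 𝒮, p ≠ q → ∀ x ∈ M, p * x * q = 0)
    (𝒱 : Set (H →L[ℂ] H)) (h𝒱 : ∀ v ∈ 𝒱, v ∈ M ∧ IsPI v ∧ ∃ p ∈ 𝒮, v * p = v)
    (h𝒱' : ∀ v ∈ 𝒱, ∀ w ∈ 𝒱, v ≠ w → star v * w = 0)
    (hdense : ∀ ξ : H, (∀ v ∈ 𝒱, star v ξ = 0) → ξ = 0) : InjAt M 1 := by
  classical
  choose c hc using fun v : 𝒱 => (h𝒱 v.1 v.2).2.2
  have hE : ∀ p ∈ 𝒮, ∃ E : (H →L[ℂ] H) →ₗ[ℂ] (H →L[ℂ] H), IsCP E ∧ (∀ x, E x ∈ M) ∧
    (∀ x, p * E x = E x ∧ E x * p = E x) ∧ ∀ m ∈ M, p * m = m → m * p = m → E m = m :=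
    fun p hp => (h𝒮 p hp).2.2
  choose! E hE using hE
  -- the maps for finite sets
  let EF : Finset 𝒱 → ((H →L[ℂ] H) →ₗ[ℂ] (H →L[ℂ] H)) := fun F =>
    ∑ p ∈ F.image c, ∑ a : {v // v ∈ F.filter (fun v => c v = p)},
      ∑ b : {v // v ∈ F.filter (fun v => c v = p)}, piece (E p) a.1.1 b.1.1
  let q : Finset 𝒱 → (H →L[ℂ] H) := fun F => ∑ v ∈ F, v.1 * star v.1
  have hcS : ∀ v : 𝒱, c v ∈ 𝒮 := fun v => (hc v).1
  have hvc : ∀ v : 𝒱, v.1 * c v = v.1 := fun v => (hc v).2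
  have hcv : ∀ v : 𝒱, c v * star v.1 = star v.1 := by
    intro v
    have h := congrArg star (hvc v)
    rw [star_mul, (h𝒮 _ (hcS v)).2.1.isSelfAdjoint.star_eq] at h
    exact h
  have hvM : ∀ v : 𝒱, v.1 ∈ M := fun v => (h𝒱 v.1 v.2).1
  have hPI : ∀ v : 𝒱, v.1 * star v.1 * v.1 = v.1 := fun v => (h𝒱 v.1 v.2).2.1
  have horth : ∀ v w : 𝒱, v ≠ w → star v.1 * w.1 = 0 := by
    intro v w h
    exact h𝒱' v.1 v.2 w.1 w.2 (fun h' => h (Subtype.ext h'))
  have hEFcp : ∀ F, IsCP (EF F) := by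
    intro F
    refine cp_sum _ _ fun p hp => ?_
    obtain ⟨v, hv, rfl⟩ := Finset.mem_image.1 hp
    exact cp_pieces (hE _ (hcS v)).1 _
  have hEFM : ∀ F x, EF F x ∈ M := by
    intro F x
    simp only [EF, LinearMap.sum_apply]
    refine sum_mem fun p hp => ?_
    obtain ⟨v, hv, rfl⟩ := Finset.mem_image.1 hp
    refine sum_mem fun a _ => sum_mem fun b _ => ?_
    rw [piece_apply]
    exact mul_mem (mul_mem (hvM _) ((hE _ (hcS v)).2.1 _)) (star_mem (hvM _))
  have hEFy : ∀ F, ∀ y ∈ M, EF F y = q F * y * q F := by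
    intro F y hy
    have h1 : EF F y = ∑ p ∈ F.image c, ∑ v ∈ F.filter (fun v => c v = p),
        ∑ w ∈ F.filter (fun w => c w = p), (v.1 * star v.1) * y * (w.1 * star w.1) := by
      simp only [EF, LinearMap.sum_apply]
      refine Finset.sum_congr rfl fun p hp => ?_
      rw [← Finset.sum_coe_sort (F.filter (fun v => c v = p))]
      refine Finset.sum_congr rfl fun a _ => ?_
      rw [← Finset.sum_coe_sort (F.filter (fun v => c v = p))]
      refine Finset.sum_congr rfl fun b _ => ?_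
      have ha := (Finset.mem_filter.1 a.2).2
      have hb := (Finset.mem_filter.1 b.2).2
      have hp' : p ∈ 𝒮 := ha ▸ hcS a.1
      have ha' : p * star a.1.1 = star a.1.1 := by
        have h := hcv a.1
        rwa [ha] at h
      have hb' : b.1.1 * p = b.1.1 := by
        have h := hvc b.1
        rwa [hb] at h
      rw [piece_apply, (hE p hp').2.2.2]
      · simp only [mul_assoc]
      · exact mul_mem (mul_mem (star_mem (hvM _)) hy) (hvM _)
      · rw [← mul_assoc, ← mul_assoc, ha']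
      · rw [mul_assoc, hb']
    rw [h1]
    have h2 : ∀ p, ∀ v ∈ F.filter (fun v => c v = p),
        ∑ w ∈ F.filter (fun w => c w = p), (v.1 * star v.1) * y * (w.1 * star w.1) =
        ∑ w ∈ F, (v.1 * star v.1) * y * (w.1 * star w.1) := by
      intro p v hv
      refine Finset.sum_subset (Finset.filter_subset _ _) fun w hw hw' => ?_
      have hne : c v ≠ c w := by
        intro h
        apply hw'
        rw [Finset.mem_filter]
        exact ⟨hw, h ▸ (Finset.mem_filter.1 hv).2⟩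
      have h3 : star v.1 * y * w.1 = 0 := by
        have h4 := h𝒮' _ (hcS v) _ (hcS w) hne (star v.1 * y * w.1)
          (mul_mem (mul_mem (star_mem (hvM _)) hy) (hvM _))
        rwa [← mul_assoc, ← mul_assoc, hcv, mul_assoc (star v.1 * y), hvc] at h4
      calc (v.1 * star v.1) * y * (w.1 * star w.1) = v.1 * (star v.1 * y * w.1) * star w.1 := by
            simp only [mul_assoc]
        _ = 0 := by rw [h3]; simp
    have h3 : ∑ p ∈ F.image c, ∑ v ∈ F.filter (fun v => c v = p),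
        ∑ w ∈ F.filter (fun w => c w = p), (v.1 * star v.1) * y * (w.1 * star w.1) =
        ∑ p ∈ F.image c, ∑ v ∈ F.filter (fun v => c v = p),
        ∑ w ∈ F, (v.1 * star v.1) * y * (w.1 * star w.1) :=
      Finset.sum_congr rfl fun p _ => Finset.sum_congr rfl fun v hv => h2 p v hv
    rw [h3, Finset.sum_fiberwise_of_maps_to (fun v hv => Finset.mem_image_of_mem c hv)]
    simp only [q, Finset.sum_mul, Finset.mul_sum]
    exact Finset.sum_comm
  have hqq : ∀ F, q F * q F = q F := by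
    intro F
    simp only [q, Finset.sum_mul, Finset.mul_sum]
    refine Finset.sum_congr rfl fun v hv => ?_
    rw [Finset.sum_eq_single v]
    · rw [← mul_assoc, mul_assoc v.1, ← mul_assoc v.1, hPI]
    · intro w _ hw
      rw [mul_assoc w.1, ← mul_assoc (star w.1), horth w v hw]
      simp
    · exact fun h => absurd hv h
  have hqs : ∀ F, star (q F) = q F := by
    intro F
    simp [q, star_sum, star_mul]
  have hqn : ∀ F, ‖q F‖ ≤ 1 := by
    intro F
    have h := CStarRing.norm_star_mul_self (x := q F)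
    rw [hqs, hqq] at h
    by_contra hlt
    push Not at hlt
    nlinarith [norm_nonneg (q F)]
  have hEF1 : ∀ F x, ‖EF F x‖ ≤ 1 * ‖x‖ := by
    intro F x
    rw [one_mul]
    refine cp_contractive _ (hEFcp F) ?_ x
    rw [hEFy F 1 (one_mem _), mul_one, hqq]
    exact hqn F
  let S : Submodule ℂ H := ⨆ v : 𝒱, LinearMap.range (v.1 : H →ₗ[ℂ] H)
  have hS : ∀ ξ ∈ S, ∀ᶠ F in Filter.atTop, q F ξ = ξ := by
    intro ξ hξ
    induction hξ using Submodule.iSup_induction' with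
    | mem v x hx =>
      obtain ⟨ζ, rfl⟩ := hx
      filter_upwards [Filter.eventually_ge_atTop ({v} : Finset 𝒱)] with F hF
      have hvF : v ∈ F := hF (Finset.mem_singleton_self v)
      have h : q F * v.1 = v.1 := by
        simp only [q, Finset.sum_mul]
        rw [Finset.sum_eq_single v]
        · exact hPI v
        · intro w _ hw
          rw [mul_assoc, horth w v hw, mul_zero]
        · exact fun h => absurd hvF h
      exact congrArg (fun T : H →L[ℂ] H => T ζ) h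
    | zero => exact Filter.Eventually.of_forall fun F => map_zero _
    | add x y _ _ hx hy =>
      filter_upwards [hx, hy] with F h1 h2
      rw [map_add, h1, h2]
  have hSd : S.topologicalClosure = ⊤ := by
    rw [Submodule.topologicalClosure_eq_top_iff, Submodule.eq_bot_iff]
    intro ξ hξ
    refine hdense ξ fun v hv => ?_
    refine ext_inner_left ℂ fun ζ => ?_
    rw [inner_star', inner_zero_right]
    exact (Submodule.mem_orthogonal S ξ).1 hξ _
      (Submodule.mem_iSup_of_mem (⟨v, hv⟩ : 𝒱) ⟨ζ, rfl⟩)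
  have hstrong : ∀ ξ : H, Filter.Tendsto (fun F => q F ξ) Filter.atTop (𝓝 ξ) := by
    intro ξ
    rw [Metric.tendsto_nhds]
    intro ε hε
    have hcl : ξ ∈ closure (S : Set H) := by
      have h : ξ ∈ S.topologicalClosure := hSd ▸ Submodule.mem_top
      exact h
    obtain ⟨ζ, hζ, hd⟩ := Metric.mem_closure_iff.1 hcl (ε / 2) (by positivity)
    filter_upwards [hS ζ hζ] with F hF
    rw [dist_eq_norm] at hd ⊢
    have h1 : q F ξ - ξ = q F (ξ - ζ) - (ξ - ζ) := by
      rw [map_sub, hF]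
      abel
    have h2 : ‖q F (ξ - ζ)‖ ≤ ‖ξ - ζ‖ := by
      calc ‖q F (ξ - ζ)‖ ≤ ‖q F‖ * ‖ξ - ζ‖ := ContinuousLinearMap.le_opNorm _ _
        _ ≤ 1 * ‖ξ - ζ‖ := mul_le_mul_of_nonneg_right (hqn F) (norm_nonneg _)
        _ = ‖ξ - ζ‖ := one_mul _
    rw [h1]
    calc ‖q F (ξ - ζ) - (ξ - ζ)‖ ≤ ‖q F (ξ - ζ)‖ + ‖ξ - ζ‖ := norm_sub_le _ _
      _ < ε := by linarith
  let U : Ultrafilter (Finset 𝒱) := Ultrafilter.of Filter.atTop
  obtain ⟨G, hG1, hG2, hG3⟩ := exists_map_limit U EF 1 hEF1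
  refine ⟨G, hG3 hEFcp, fun x => mem_of_wot_limit U M _ _ (fun F => hEFM F x) (hG2 x),
    fun x => ⟨one_mul _, mul_one _⟩, fun m hm _ _ => ?_⟩
  ext η
  refine ext_inner_left ℂ fun ξ => ?_
  refine tendsto_nhds_unique (hG2 m ξ η) ?_
  have h1 : Filter.Tendsto (fun F => ⟪q F ξ, m (q F η)⟫_ℂ) Filter.atTop (𝓝 ⟪ξ, m η⟫_ℂ) :=
    (hstrong ξ).inner ((m.continuous.tendsto _).comp (hstrong η))
  refine (h1.mono_left (Ultrafilter.of_le _)).congr fun F => ?_
  rw [hEFy F m hm]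
  show _ = ⟪ξ, q F (m (q F η))⟫_ℂ
  rw [inner_star (q F), hqs]

end Pool.Agent.Helper67.Inj
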