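import Pool.Agent.Helper67.Inj.Defs

set_option autoImplicit false
set_option linter.unusedSectionVars false

open scoped InnerProductSpace ComplexOrder TensorProduct Topology

namespace Pool.Agent.Helper67.Inj

universe u

variable {H : Type u} [NormedAddCommGroup H] [InnerProductSpace ℂ H] [CompleteSpace H]

/-- the vector `ξ` in the slot `j` -/
private noncomputable def slot {n : ℕ} (j : Fin n) (ξ : H) : Pw H n := WithLp.toLp 2 (Pi.single j ξ)

private lemma entry_apply {n : ℕ} (T : Pw H n →L[ℂ] Pw H n) (i j : Fin n) (ξ : H) :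
    entry T i j ξ = (T (slot j ξ)) i := rfl

private lemma ofEntries_apply {n : ℕ} (A : Fin n → Fin n → (H →L[ℂ] H)) (v : Pw H n) (i : Fin n) :
    (ofEntries A v) i = ∑ j, A i j (v j) := by
  change (∑ j, A i j ∘L (PiLp.proj (𝕜 := ℂ) 2 (fun _ : Fin n => H) j)) v = _
  rw [sum_apply]
  rfl

private lemma slot_apply {n : ℕ} (j i : Fin n) (ξ : H) :
    (slot j ξ : Pw H n) i = if i = j then ξ else 0 := by
  change (Pi.single j ξ : Fin n → H) i = _
  rw [Pi.single_apply]

private lemma sum_slot {n : ℕ} (v : Pw H n) : ∑ j, slot j (v j) = v := by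
  ext i
  have : (∑ j, slot j (v j) : Pw H n) i = ∑ j, (slot j (v j) : Pw H n) i := by
    simp
  rw [this]
  simp only [slot_apply]
  simp

private lemma apply_eq {n : ℕ} (T : Pw H n →L[ℂ] Pw H n) (v : Pw H n) (i : Fin n) :
    (T v) i = ∑ j, entry T i j (v j) := by
  conv_lhs => rw [← sum_slot v, map_sum]
  simp only [entry_apply]
  simp

/-- MAT -/
theorem entry_ofEntries {n : ℕ} (A : Fin n → Fin n → (H →L[ℂ] H)) (i j : Fin n) :
    entry (ofEntries A) i j = A i j := by
  ext ξ
  rw [entry_apply, ofEntries_apply]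
  simp only [slot_apply]
  rw [Finset.sum_eq_single j]
  · simp
  · intro b _ hb; simp [hb]
  · simp

theorem ofEntries_entry {n : ℕ} (T : Pw H n →L[ℂ] Pw H n) :
    ofEntries (fun i j => entry T i j) = T := by
  ext v i
  rw [ofEntries_apply, apply_eq]

private lemma entry_ext {n : ℕ} {T T' : Pw H n →L[ℂ] Pw H n}
    (h : ∀ i j, entry T i j = entry T' i j) : T = T' := by
  rw [← ofEntries_entry T, ← ofEntries_entry T']
  congr 1
  funext i j
  exact h i j

theorem entry_mul {n : ℕ} (T T' : Pw H n →L[ℂ] Pw H n) (i j : Fin n) :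
    entry (T * T') i j = ∑ k, entry T i k * entry T' k j := by
  ext ξ
  rw [sum_apply]
  change (T (T' (slot j ξ))) i = _
  rw [apply_eq]
  rfl

private lemma inner_slot {n : ℕ} (j : Fin n) (ξ : H) (v : Pw H n) :
    ⟪slot j ξ, v⟫_ℂ = ⟪ξ, v j⟫_ℂ := by
  rw [PiLp.inner_apply]
  simp only [slot_apply]
  rw [Finset.sum_eq_single j]
  · simp
  · intro b _ hb; simp [hb]
  · simp

theorem entry_star {n : ℕ} (T : Pw H n →L[ℂ] Pw H n) (i j : Fin n) :
    entry (star T) i j = star (entry T j i) := by
  ext ξ
  apply ext_inner_left ℂ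
  intro η
  rw [entry_apply, ← inner_slot, ContinuousLinearMap.star_eq_adjoint,
    ContinuousLinearMap.adjoint_inner_right, ContinuousLinearMap.star_eq_adjoint,
    ContinuousLinearMap.adjoint_inner_right, entry_apply]
  rw [← inner_conj_symm, inner_slot, inner_conj_symm]

theorem posMat_iff {n : ℕ} (A : Fin n → Fin n → (H →L[ℂ] H)) :
    PosMat A ↔ 0 ≤ ofEntries A := by
  have key : ∀ v : Pw H n, ⟪v, ofEntries A v⟫_ℂ = ∑ i, ∑ j, ⟪v i, A i j (v j)⟫_ℂ := by
    intro v
    rw [PiLp.inner_apply]
    simp only [ofEntries_apply, inner_sum]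
  rw [ContinuousLinearMap.nonneg_iff_isPositive, ContinuousLinearMap.isPositive_iff_complex]
  constructor
  · intro h v
    have h1 := h (fun i => v i)
    rw [← key v] at h1
    rw [← inner_conj_symm]
    generalize ⟪v, (ofEntries A) v⟫_ℂ = z at h1
    obtain ⟨h2, h3⟩ := Complex.nonneg_iff.mp h1
    refine ⟨?_, ?_⟩
    · apply Complex.ext
      · simp
      · simp [← h3]
    · simpa using h2
  · intro h ξ
    obtain ⟨h2, h3⟩ := h (WithLp.toLp 2 ξ)
    have h4 := key (WithLp.toLp 2 ξ)
    change _ = ∑ i, ∑ j, ⟪ξ i, A i j (ξ j)⟫_ℂ at h4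
    rw [← h4, ← inner_conj_symm, ← h2]
    rw [Complex.conj_ofReal]
    exact_mod_cast h3

private lemma entry_add {n : ℕ} (T T' : Pw H n →L[ℂ] Pw H n) (i j : Fin n) :
    entry (T + T') i j = entry T i j + entry T' i j := rfl

private lemma entry_zero {n : ℕ} (i j : Fin n) :
    entry (0 : Pw H n →L[ℂ] Pw H n) i j = 0 := rfl

private lemma entry_algebraMap {n : ℕ} (c : ℂ) (i j : Fin n) :
    entry (algebraMap ℂ (Pw H n →L[ℂ] Pw H n) c) i j =
      if i = j then algebraMap ℂ (H →L[ℂ] H) c else 0 := by
  ext ξ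
  rw [entry_apply, Algebra.algebraMap_eq_smul_one, Algebra.algebraMap_eq_smul_one]
  change c • ((slot j ξ : Pw H n) i) = _
  rw [slot_apply]
  split_ifs with h
  · rfl
  · simp

theorem exists_matAlg (M : VonNeumannAlgebra H) (n : ℕ) :
    ∃ N : VonNeumannAlgebra (Pw H n), ∀ T, T ∈ N ↔ ∀ i j, entry T i j ∈ M := by
  have halg : ∀ c : ℂ, algebraMap ℂ (H →L[ℂ] H) c ∈ M :=
    fun c => M.toStarSubalgebra.algebraMap_mem c
  let S : StarSubalgebra ℂ (Pw H n →L[ℂ] Pw H n) :=
    { carrier := {T | ∀ i j, entry T i j ∈ M}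
      mul_mem' := by
        intro a b ha hb i j
        rw [entry_mul]
        exact sum_mem (fun k _ => mul_mem (ha i k) (hb k j))
      add_mem' := by
        intro a b ha hb i j
        rw [entry_add]
        exact add_mem (ha i j) (hb i j)
      algebraMap_mem' := by
        intro c i j
        rw [entry_algebraMap]
        split_ifs
        · exact halg c
        · exact zero_mem M
      star_mem' := by
        intro a ha i j
        rw [entry_star]
        exact star_mem (ha j i) }
  refine ⟨⟨S, ?_⟩, fun T => Iff.rfl⟩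
  apply Set.Subset.antisymm
  · intro T hT i j
    rw [← M.commutant_commutant, VonNeumannAlgebra.mem_commutant_iff]
    intro b hb
    have hdiag : ∀ T' : Pw H n →L[ℂ] Pw H n, ∀ i j,
        entry (T' * ofEntries (fun i j => if i = j then b else 0)) i j = entry T' i j * b := by
      intro T' i j
      rw [entry_mul]
      simp only [entry_ofEntries]
      rw [Finset.sum_eq_single j]
      · simp
      · intro k _ hk; simp [hk]
      · simp
    have hdiag' : ∀ T' : Pw H n →L[ℂ] Pw H n, ∀ i j,
        entry (ofEntries (fun i j => if i = j then b else 0) * T') i j = b * entry T' i j := by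
      intro T' i j
      rw [entry_mul]
      simp only [entry_ofEntries]
      rw [Finset.sum_eq_single i]
      · simp
      · intro k _ hk; simp [Ne.symm hk]
      · simp
    have hc : ofEntries (fun i j => if i = j then b else 0) ∈ Set.centralizer
        {T : Pw H n →L[ℂ] Pw H n | ∀ i j, entry T i j ∈ M} := by
      intro T' hT'
      apply entry_ext
      intro i j
      rw [hdiag, hdiag']
      exact (VonNeumannAlgebra.mem_commutant_iff.mp hb) _ (hT' i j)
    have h1 := hT _ hc
    rw [← hdiag', ← hdiag, h1]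
  · exact Set.subset_centralizer_centralizer

/-- CFC : continuous functional calculus stays in a von Neumann algebra -/
theorem cfc_mem (M : VonNeumannAlgebra H) (f : ℝ → ℝ) (a : H →L[ℂ] H) (ha : a ∈ M) :
    cfc f a ∈ M := by
  rw [← M.commutant_commutant, VonNeumannAlgebra.mem_commutant_iff]
  intro b hb
  have h1 : Commute a b := (VonNeumannAlgebra.mem_commutant_iff.mp hb) a ha
  exact (h1.cfc_real f).eq.symm

theorem sqrt_mem (M : VonNeumannAlgebra H) (a : H →L[ℂ] H) (ha : a ∈ M) :
    CFC.sqrt a ∈ M := by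
  rw [← M.commutant_commutant, VonNeumannAlgebra.mem_commutant_iff]
  intro b hb
  have h1 : Commute a b := (VonNeumannAlgebra.mem_commutant_iff.mp hb) a ha
  exact (h1.cfcₙ_nnreal NNReal.sqrt).eq.symm

end Pool.Agent.Helper67.Inj
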