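import Pool.Agent.Helper67.Inj.Lim
import Pool.Agent.Helper67.Inj.Mat

set_option autoImplicit false

open scoped InnerProductSpace ComplexOrder TensorProduct Topology

namespace Pool.Agent.Helper67.Inj

universe u

variable {H : Type u} [NormedAddCommGroup H] [InnerProductSpace ℂ H] [CompleteSpace H]

private theorem polar_star_mul_self_nonneg (x : H →L[ℂ] H) : 0 ≤ star x * x :=
  star_mul_self_nonneg x

/-- `‖x ζ‖ = ‖|x| ζ‖` -/
private theorem polar_norm_eq (x : H →L[ℂ] H) (ζ : H) :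
    ‖x ζ‖ = ‖CFC.sqrt (star x * x) ζ‖ := by
  set a : H →L[ℂ] H := CFC.sqrt (star x * x) with ha
  have hsq : a * a = star x * x := CFC.sqrt_mul_sqrt_self _ (polar_star_mul_self_nonneg x)
  have hsa : star a = a := (CFC.sqrt_nonneg (star x * x)).isSelfAdjoint.star_eq
  have h1 : ⟪x ζ, x ζ⟫_ℂ = ⟪a ζ, a ζ⟫_ℂ := by
    have e1 : ⟪x ζ, x ζ⟫_ℂ = ⟪ζ, (star x * x) ζ⟫_ℂ := by
      rw [ContinuousLinearMap.star_eq_adjoint]
      simp only [mul_apply_eq_comp, ContinuousLinearMap.adjoint_inner_right]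
    have e2 : ⟪a ζ, a ζ⟫_ℂ = ⟪ζ, (star a * a) ζ⟫_ℂ := by
      rw [ContinuousLinearMap.star_eq_adjoint]
      simp only [mul_apply_eq_comp, ContinuousLinearMap.adjoint_inner_right]
    rw [e1, e2, hsa, hsq]
  rw [inner_self_eq_norm_sq_to_K, inner_self_eq_norm_sq_to_K] at h1
  have h2 : ‖x ζ‖ ^ 2 = ‖a ζ‖ ^ 2 := by exact_mod_cast h1
  exact (sq_eq_sq₀ (norm_nonneg _) (norm_nonneg _)).1 h2

/-- POLAR -/
theorem polar (M : VonNeumannAlgebra H) (x : H →L[ℂ] H) (hx : x ∈ M) :
    ∃ v ∈ M, IsPI v ∧ v * CFC.sqrt (star x * x) = x ∧ (∀ ξ, x ξ = 0 → v ξ = 0) := by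
  classical
  set a : H →L[ℂ] H := CFC.sqrt (star x * x) with ha
  have hsq : a * a = star x * x := CFC.sqrt_mul_sqrt_self _ (polar_star_mul_self_nonneg x)
  have hann : 0 ≤ a := CFC.sqrt_nonneg _
  have hsa' : IsSelfAdjoint a := hann.isSelfAdjoint
  have hsa : star a = a := hsa'.star_eq
  have hnorm : ∀ ζ, ‖x ζ‖ = ‖a ζ‖ := polar_norm_eq x
  have haM : a ∈ M := sqrt_mem M _ (mul_mem (star_mem hx) hx)
  have hspec : ∀ t ∈ spectrum ℝ a, 0 ≤ t := fun t ht => spectrum_nonneg_of_nonneg hann ht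
  -- the resolvents
  set ε : ℕ → ℝ := fun n => 1 / ((n : ℝ) + 1) with hε
  have hε0 : ∀ n, 0 < ε n := fun n => by positivity
  set R : ℕ → (H →L[ℂ] H) := fun n => cfc (fun t : ℝ => (|t| + ε n)⁻¹) a with hR
  have hcont : ∀ n, Continuous (fun t : ℝ => (|t| + ε n)⁻¹) := fun n =>
    Continuous.inv₀ (by fun_prop) (fun t => by have := hε0 n; positivity)
  have hRM : ∀ n, R n ∈ M := fun n => cfc_mem M _ a haM
  have hcfcid : cfc (fun t : ℝ => t) a = a := cfc_id' ℝ a
  have hRa : ∀ n, R n * a = cfc (fun t : ℝ => (|t| + ε n)⁻¹ * t) a := fun n => by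
    rw [cfc_mul (fun t : ℝ => (|t| + ε n)⁻¹) (fun t : ℝ => t) a ((hcont n).continuousOn)
      continuousOn_id, hcfcid]
  have haR : ∀ n, a * R n = cfc (fun t : ℝ => t * (|t| + ε n)⁻¹) a := fun n => by
    rw [cfc_mul (fun t : ℝ => t) (fun t : ℝ => (|t| + ε n)⁻¹) a continuousOn_id
      ((hcont n).continuousOn), hcfcid]
  have hcomm : ∀ n, a * R n = R n * a := fun n => by
    rw [hRa, haR]
    congr 1
    ext t
    ring
  have haR1 : ∀ n, ‖a * R n‖ ≤ 1 := fun n => by
    rw [haR]
    refine norm_cfc_le zero_le_one (fun t ht => ?_)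
    have h0 := hspec t ht
    have h1 := hε0 n
    rw [abs_of_nonneg h0, Real.norm_eq_abs, abs_of_nonneg (by positivity), ← div_eq_mul_inv,
      div_le_one (by positivity)]
    linarith
  -- the approximants
  set v' : ℕ → (H →L[ℂ] H) := fun n => x * R n with hv'
  have hv'1 : ∀ n, ‖v' n‖ ≤ 1 := fun n => by
    refine ContinuousLinearMap.opNorm_le_bound _ zero_le_one (fun ζ => ?_)
    have e : ‖v' n ζ‖ = ‖(a * R n) ζ‖ := by
      simp only [hv', mul_apply_eq_comp]
      exact hnorm _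
    rw [e]
    exact (ContinuousLinearMap.le_opNorm _ _).trans
      (mul_le_mul_of_nonneg_right (haR1 n) (norm_nonneg _))
  obtain ⟨v, -, hv⟩ := exists_wot_limit (Filter.hyperfilter ℕ) v' 1 hv'1
  have hvM : v ∈ M := mem_of_wot_limit (Filter.hyperfilter ℕ) M v' v
    (fun n => mul_mem hx (hRM n)) hv
  have hle : ((Filter.hyperfilter ℕ : Ultrafilter ℕ) : Filter ℕ) ≤ Filter.atTop := by
    rw [← Nat.cofinite_eq_atTop]
    exact Filter.hyperfilter_le_cofinite
  -- kernel
  have hker : ∀ ξ, x ξ = 0 → v ξ = 0 := by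
    intro ξ hξ
    have haξ : a ξ = 0 := by
      rw [← norm_eq_zero, ← hnorm, hξ, norm_zero]
    have hz : ∀ n, v' n ξ = 0 := fun n => by
      rw [← norm_eq_zero]
      have e : ‖v' n ξ‖ = ‖(a * R n) ξ‖ := by
        simp only [hv', mul_apply_eq_comp]
        exact hnorm _
      rw [e, hcomm, mul_apply_eq_comp, haξ, map_zero, norm_zero]
    have h1 := hv (v ξ) ξ
    simp only [hz, inner_zero_right] at h1
    have h2 : ⟪v ξ, v ξ⟫_ℂ = 0 := (tendsto_nhds_unique h1 tendsto_const_nhds)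
    exact inner_self_eq_zero.1 h2
  -- `v a = x`
  have hdiff : ∀ n ζ, ‖v' n (a ζ) - x ζ‖ ≤ ε n * ‖ζ‖ := by
    intro n ζ
    have e : ‖v' n (a ζ) - x ζ‖ = ‖(a * R n * a - a) ζ‖ := by
      have e1 : v' n (a ζ) - x ζ = x (R n (a ζ) - ζ) := by
        simp only [hv', mul_apply_eq_comp, map_sub]
      rw [e1, hnorm]
      simp only [map_sub, mul_apply_eq_comp, sub_apply]
    rw [e]
    have hb : ‖a * R n * a - a‖ ≤ ε n := by
      have e2 : a * R n * a - a = cfc (fun t : ℝ => t * (|t| + ε n)⁻¹ * t - t) a := by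
        rw [cfc_sub (fun t : ℝ => t * (|t| + ε n)⁻¹ * t) (fun t : ℝ => t) a
          ((continuous_id.mul (hcont n)).mul continuous_id).continuousOn continuousOn_id,
          cfc_mul (fun t : ℝ => t * (|t| + ε n)⁻¹) (fun t : ℝ => t) a
          (continuous_id.mul (hcont n)).continuousOn continuousOn_id, hcfcid, haR]
      rw [e2]
      refine norm_cfc_le (hε0 n).le (fun t ht => ?_)
      have h0 := hspec t ht
      have h1 := hε0 n
      rw [abs_of_nonneg h0, Real.norm_eq_abs]
      have h3 : t * (t + ε n)⁻¹ * t - t = -(ε n * (t / (t + ε n))) := by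
        field_simp
        ring
      rw [h3, abs_neg, abs_of_nonneg (by positivity)]
      have h4 : t / (t + ε n) ≤ 1 := by
        rw [div_le_one (by positivity)]
        linarith
      nlinarith
    exact (ContinuousLinearMap.le_opNorm _ _).trans
      (mul_le_mul_of_nonneg_right hb (norm_nonneg _))
  have hεlim : Filter.Tendsto ε Filter.atTop (𝓝 0) := tendsto_one_div_add_atTop_nhds_zero_nat
  have hlim : ∀ ζ, Filter.Tendsto (fun n => v' n (a ζ)) Filter.atTop (𝓝 (x ζ)) := by
    intro ζ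
    rw [tendsto_iff_norm_sub_tendsto_zero]
    refine squeeze_zero (fun n => norm_nonneg _) (fun n => hdiff n ζ) ?_
    simpa using hεlim.mul_const ‖ζ‖
  have hva : v * a = x := by
    ext ζ
    refine ext_inner_left ℂ (fun ξ => ?_)
    have h1 := hv ξ (a ζ)
    have h2 : Filter.Tendsto (fun n => ⟪ξ, v' n (a ζ)⟫_ℂ) (Filter.hyperfilter ℕ)
        (𝓝 ⟪ξ, x ζ⟫_ℂ) := ((tendsto_const_nhds (x := ξ)).inner (hlim ζ)).mono_left hle
    exact tendsto_nhds_unique h1 h2
  refine ⟨v, hvM, ?_, hva, hker⟩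
  -- partial isometry
  have hker' : ∀ ξ, a ξ = 0 → v ξ = 0 := fun ξ h => hker ξ (by
    rw [← norm_eq_zero, hnorm, h, norm_zero])
  have hav : a * star v = star x := by
    rw [← hva, star_mul, hsa]
  have key : star v * v * a = a := by
    ext ζ
    have hw0 : a ((star v * v * a) ζ - a ζ) = 0 := by
      have e1 : a ((star v * v * a) ζ) = (a * star v * (v * a)) ζ := by
        simp only [mul_apply_eq_comp]
      have e2 : a (a ζ) = (a * a) ζ := by simp only [mul_apply_eq_comp]
      rw [map_sub, e1, e2, hav, hva, hsq, sub_self]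
    set w : H := (star v * v * a) ζ - a ζ with hw
    have hvw : v w = 0 := hker' w hw0
    have hww : ⟪w, w⟫_ℂ = 0 := by
      have e3 : ⟪w, (star v * v * a) ζ⟫_ℂ = ⟪v w, v (a ζ)⟫_ℂ := by
        rw [ContinuousLinearMap.star_eq_adjoint]
        simp only [mul_apply_eq_comp, ContinuousLinearMap.adjoint_inner_right]
      have e4 : ⟪w, a ζ⟫_ℂ = ⟪a w, ζ⟫_ℂ := by
        conv_lhs => rw [← hsa]
        rw [ContinuousLinearMap.star_eq_adjoint, ContinuousLinearMap.adjoint_inner_right]
      have e5 : ⟪w, w⟫_ℂ = ⟪w, (star v * v * a) ζ⟫_ℂ - ⟪w, a ζ⟫_ℂ := by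
        rw [← inner_sub_right, ← hw]
      rw [e5, e3, e4, hvw, hw0, inner_zero_left, inner_zero_left, sub_zero]
    have := inner_self_eq_zero.1 hww
    exact sub_eq_zero.1 this
  have key' : a * (star v * v) = a := by
    have := congrArg star key
    rw [star_mul, star_mul, star_star, hsa] at this
    exact this
  unfold IsPI
  ext ξ
  have h1 : a ((star v * v) ξ - ξ) = 0 := by
    have e1 : a ((star v * v) ξ) = (a * (star v * v)) ξ := by
      simp only [mul_apply_eq_comp]
    rw [map_sub, e1, key', sub_self]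
  have h2 := hker' _ h1
  rw [map_sub, sub_eq_zero] at h2
  rw [← h2]
  simp only [mul_apply_eq_comp]

/-- if `y x = 0` then `y v = 0` for `v` the partial isometry of the polar decomposition -/
private theorem polar_left_zero (x v : H →L[ℂ] H)
    (hva : v * CFC.sqrt (star x * x) = x) (hker : ∀ ξ, x ξ = 0 → v ξ = 0) (hpi : IsPI v)
    (y : H →L[ℂ] H) (hy : y * x = 0) : y * v = 0 := by
  set a : H →L[ℂ] H := CFC.sqrt (star x * x) with ha
  have hsa : star a = a := (CFC.sqrt_nonneg (star x * x)).isSelfAdjoint.star_eq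
  have h1 : a * star (y * v) = 0 := by
    have : star (y * v * a) = 0 := by rw [mul_assoc, hva, hy, star_zero]
    rwa [star_mul, hsa] at this
  have h2 : v * star (y * v) = 0 := by
    ext ζ
    have h3 : a (star (y * v) ζ) = 0 := by
      have := congrArg (fun T : H →L[ℂ] H => T ζ) h1
      simpa only [mul_apply_eq_comp, zero_apply] using this
    have h4 : x (star (y * v) ζ) = 0 := by
      rw [← norm_eq_zero, polar_norm_eq, ← ha, h3, norm_zero]
    simpa only [mul_apply_eq_comp, zero_apply] using hker _ h4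
  have h3 : y * v * star v = 0 := by
    have := congrArg star h2
    rwa [star_mul, star_star, star_zero] at this
  calc y * v = y * (v * star v * v) := by rw [hpi]
    _ = y * v * star v * v := by simp only [mul_assoc]
    _ = 0 := by rw [h3, zero_mul]

/-- range projections -/
theorem exists_rangeProj (M : VonNeumannAlgebra H) (x : H →L[ℂ] H) (hx : x ∈ M) :
    ∃ p ∈ M, IsStarProjection p ∧ p * x = x ∧ (∀ y : H →L[ℂ] H, y * x = 0 → y * p = 0) := by
  obtain ⟨v, hvM, hpi, hva, hker⟩ := polar M x hx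
  refine ⟨v * star v, mul_mem hvM (star_mem hvM), ⟨?_, ?_⟩, ?_, ?_⟩
  · unfold IsIdempotentElem
    rw [← mul_assoc, hpi]
  · exact IsSelfAdjoint.mul_star_self v
  · rw [← hva, ← mul_assoc, hpi]
  · intro y hy
    rw [← mul_assoc, polar_left_zero x v hva hker hpi y hy, zero_mul]

/-- PI -/
theorem exists_pi (M : VonNeumannAlgebra H) (x e f : H →L[ℂ] H) (hx : x ∈ M) (hx0 : x ≠ 0)
    (he : IsStarProjection e) (hf : IsStarProjection f) (heM : e ∈ M) (hfM : f ∈ M)
    (h : f * x * e = x) : ∃ v ∈ M, v ≠ 0 ∧ IsPI v ∧ f * v = v ∧ v * e = v := by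
  obtain ⟨v, hvM, hpi, hva, hker⟩ := polar M x hx
  have hee : e * e = e := he.isIdempotentElem
  have hff : f * f = f := hf.isIdempotentElem
  refine ⟨v, hvM, ?_, hpi, ?_, ?_⟩
  · rintro rfl
    rw [zero_mul] at hva
    exact hx0 hva.symm
  · have h1 : (1 - f) * x = 0 := by
      rw [sub_mul, one_mul, sub_eq_zero]
      conv_rhs => rw [← h]
      rw [mul_assoc f x e, ← mul_assoc f f, hff, ← mul_assoc, h]
    have h2 := polar_left_zero x v hva hker hpi (1 - f) h1
    rw [sub_mul, one_mul, sub_eq_zero] at h2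
    exact h2.symm
  · ext ξ
    have h1 : x (e ξ - ξ) = 0 := by
      have e1 : x * e = x := by
        conv_lhs => rw [← h]
        rw [mul_assoc, hee, h]
      have e2 : x (e ξ) = (x * e) ξ := by simp only [mul_apply_eq_comp]
      rw [map_sub, e2, e1, sub_self]
    have h2 := hker _ h1
    rw [map_sub, sub_eq_zero] at h2
    simpa only [mul_apply_eq_comp] using h2

end Pool.Agent.Helper67.Inj
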