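import Pool.Agent.Helper67.Inj.Gamp
import Pool.Agent.Helper67.Inj.Polar

set_option autoImplicit false

open scoped InnerProductSpace ComplexOrder TensorProduct Topology

namespace Pool.Agent.Helper67.Inj

universe u

variable {H : Type u} [NormedAddCommGroup H] [InnerProductSpace ℂ H] [CompleteSpace H]

private lemma glob_max {α : Type*} (A : α → Prop) (B : α → α → Prop) :
    ∃ S : Set α, (∀ p ∈ S, A p) ∧ (∀ p ∈ S, ∀ q ∈ S, p ≠ q → B p q) ∧
      ∀ a, A a → (∀ p ∈ S, a ≠ p → B a p ∧ B p a) → a ∈ S := by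
  obtain ⟨S, hS⟩ := zorn_subset
    {S : Set α | (∀ p ∈ S, A p) ∧ (∀ p ∈ S, ∀ q ∈ S, p ≠ q → B p q)} (by
      intro c hc hchain
      refine ⟨⋃₀ c, ⟨?_, ?_⟩, fun s hs => Set.subset_sUnion_of_mem hs⟩
      · rintro p ⟨s, hs, hp⟩
        exact (hc hs).1 p hp
      · rintro p ⟨s, hs, hp⟩ q ⟨t, ht, hq⟩ hpq
        rcases hchain.total hs ht with h | h
        · exact (hc ht).2 p (h hp) q hq hpq
        · exact (hc hs).2 p hp q (h hq) hpq)
  refine ⟨S, hS.prop.1, hS.prop.2, ?_⟩
  intro a ha hab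
  have hmem : insert a S ∈
      {S : Set α | (∀ p ∈ S, A p) ∧ (∀ p ∈ S, ∀ q ∈ S, p ≠ q → B p q)} := by
    refine ⟨?_, ?_⟩
    · rintro p (rfl | hp)
      · exact ha
      · exact hS.prop.1 p hp
    · rintro p (rfl | hp) q (rfl | hq) hpq
      · exact absurd rfl hpq
      · exact (hab q hq hpq).1
      · exact (hab p hp (Ne.symm hpq)).2
      · exact hS.prop.2 p hp q hq hpq
  exact hS.le_of_ge hmem (Set.subset_insert a S) (Set.mem_insert a S)

/-- the projection onto a closed subspace invariant under the commutant is in `M` -/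
private lemma starProjection_mem_of_invariant (M : VonNeumannAlgebra H) (L : Submodule ℂ H)
    [L.HasOrthogonalProjection]
    (h : ∀ b ∈ M.commutant, ∀ ξ ∈ L, b ξ ∈ L) : L.starProjection ∈ M := by
  rw [← M.commutant_commutant, VonNeumannAlgebra.mem_commutant_iff]
  intro b hb
  have hb' : star b ∈ M.commutant := star_mem hb
  have horth : ∀ ξ ∈ Lᗮ, b ξ ∈ Lᗮ := by
    intro ξ hξ
    rw [Submodule.mem_orthogonal] at hξ ⊢
    intro u hu
    have : ⟪u, b ξ⟫_ℂ = ⟪star b u, ξ⟫_ℂ := by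
      rw [ContinuousLinearMap.star_eq_adjoint, ContinuousLinearMap.adjoint_inner_left]
    rw [this]
    exact hξ _ (h _ hb' u hu)
  ext ξ
  have hdec := L.starProjection_add_starProjection_orthogonal ξ
  have h1 : L.starProjection (b (L.starProjection ξ)) = b (L.starProjection ξ) := by
    rw [Submodule.starProjection_eq_self_iff]
    exact h b hb _ (Submodule.starProjection_apply_mem _ _)
  have h2 : L.starProjection (b (Lᗮ.starProjection ξ)) = 0 := by
    rw [Submodule.starProjection_apply_eq_zero_iff]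
    exact horth _ (Submodule.starProjection_apply_mem _ _)
  have h3 : b ξ = b (L.starProjection ξ) + b (Lᗮ.starProjection ξ) := by
    rw [← map_add, hdec]
  simp only [mul_apply_eq_comp]
  rw [h3, map_add, h1, h2, add_zero]

/-- GLOB -/
theorem glob (M : VonNeumannAlgebra H)
    (hloc : ∀ r ∈ M, IsStarProjection r → r ≠ 0 →
      ∃ p ∈ M, IsStarProjection p ∧ p ≠ 0 ∧ r * p = p ∧ InjAt M p) : InjAt M 1 := by
  obtain ⟨𝒮, h𝒮, h𝒮', h𝒮max⟩ := glob_max
    (fun p : H →L[ℂ] H => p ∈ M ∧ IsStarProjection p ∧ p ≠ 0 ∧ InjAt M p)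
    (fun p q => ∀ x ∈ M, p * x * q = 0)
  obtain ⟨𝒱, h𝒱, h𝒱', h𝒱max⟩ := glob_max
    (fun v : H →L[ℂ] H => v ∈ M ∧ IsPI v ∧ v ≠ 0 ∧ ∃ p ∈ 𝒮, v * p = v)
    (fun v w => star v * w = 0)
  refine gamp M 𝒮 (fun p hp => ⟨(h𝒮 p hp).1, (h𝒮 p hp).2.1, (h𝒮 p hp).2.2.2⟩) h𝒮' 𝒱
    (fun v hv => ⟨(h𝒱 v hv).1, (h𝒱 v hv).2.1, (h𝒱 v hv).2.2.2⟩) h𝒱' ?_
  -- the orthogonal complement of the ranges of `𝒱`
  let L : Submodule ℂ H := ⨅ v : 𝒱, LinearMap.ker ((star (v : H →L[ℂ] H) : H →L[ℂ] H) : H →ₗ[ℂ] H)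
  have hLmem : ∀ ξ, ξ ∈ L ↔ ∀ v ∈ 𝒱, star v ξ = 0 := by
    intro ξ
    simp only [L, Submodule.mem_iInf, LinearMap.mem_ker]
    constructor
    · intro h v hv
      exact h ⟨v, hv⟩
    · intro h v
      exact h v.1 v.2
  have hLclosed : IsClosed (L : Set H) := by
    have : (L : Set H) = ⋂ v : 𝒱, {ξ | star (v : H →L[ℂ] H) ξ = 0} := by
      ext ξ
      simp only [Set.mem_iInter, Set.mem_ofPred_eq]
      rw [SetLike.mem_coe, hLmem]
      constructor
      · intro h v
        exact h v.1 v.2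
      · intro h v hv
        exact h ⟨v, hv⟩
    rw [this]
    exact isClosed_iInter fun v =>
      isClosed_eq (star (v : H →L[ℂ] H)).continuous continuous_const
  have : CompleteSpace L := hLclosed.completeSpace_coe
  set r := L.starProjection with hr
  have hrproj : IsStarProjection r := isStarProjection_starProjection
  have hrM : r ∈ M := by
    apply starProjection_mem_of_invariant
    intro b hb ξ hξ
    rw [hLmem] at hξ ⊢
    intro v hv
    have hvM : star v ∈ M := star_mem (h𝒱 v hv).1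
    have hcomm : star v * b = b * star v :=
      (VonNeumannAlgebra.mem_commutant_iff.1 hb) _ hvM
    have := congrArg (fun T : H →L[ℂ] H => T ξ) hcomm
    simp only [mul_apply_eq_comp] at this
    rw [this, hξ v hv, map_zero]
  have hvr : ∀ v ∈ 𝒱, star v * r = 0 := by
    intro v hv
    ext ξ
    simp only [mul_apply_eq_comp, zero_apply]
    exact (hLmem _).1 (Submodule.starProjection_apply_mem _ _) v hv
  intro ξ hξ
  by_contra hξ0
  have hr0 : r ≠ 0 := by
    intro h0
    apply hξ0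
    have : r ξ = ξ := by
      rw [hr, Submodule.starProjection_eq_self_iff]
      exact (hLmem ξ).2 hξ
    rw [← this, h0, zero_apply]
  -- `r M p = 0` for all `p ∈ 𝒮`
  have hrp : ∀ p ∈ 𝒮, ∀ x ∈ M, r * x * p = 0 := by
    intro p hp x hx
    by_contra hne
    obtain ⟨hpM, hpp, hp0, hpI⟩ := h𝒮 p hp
    have hmem : r * x * p ∈ M := mul_mem (mul_mem hrM hx) hpM
    obtain ⟨v, hvM, hv0, hvPI, hrv, hvp⟩ := exists_pi M (r * x * p) p r hmem hne hpp hrproj hpM hrM
      (by
        have h1 : r * r = r := hrproj.isIdempotentElem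
        have h2 : p * p = p := hpp.isIdempotentElem
        calc r * (r * x * p) * p = (r * r) * x * (p * p) := by simp only [mul_assoc]
          _ = r * x * p := by rw [h1, h2])
    have hw : ∀ w ∈ 𝒱, star w * v = 0 := by
      intro w hw
      rw [← hrv, ← mul_assoc, hvr w hw, zero_mul]
    have hvmem : v ∈ 𝒱 := by
      apply h𝒱max v ⟨hvM, hvPI, hv0, p, hp, hvp⟩
      intro w hw' _
      refine ⟨?_, hw w hw'⟩
      have := congrArg star (hw w hw')
      simpa using this
    have hvv : star v * v = 0 := hw v hvmem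
    apply hv0
    have : v * (star v * v) = v := by rw [← mul_assoc]; exact hvPI
    rw [← this, hvv, mul_zero]
  obtain ⟨p', hp'M, hp'p, hp'0, hrp', hp'I⟩ := hloc r hrM hrproj hr0
  have hp'r : p' * r = p' := by
    have := congrArg star hrp'
    rw [star_mul, hrproj.isSelfAdjoint.star_eq, hp'p.isSelfAdjoint.star_eq] at this
    exact this
  have hp'mem : p' ∈ 𝒮 := by
    apply h𝒮max p' ⟨hp'M, hp'p, hp'0, hp'I⟩
    intro p hp _
    have h1 : ∀ x ∈ M, p' * x * p = 0 := by
      intro x hx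
      rw [← hp'r]
      have := hrp p hp x hx
      calc p' * r * x * p = p' * (r * x * p) := by simp only [mul_assoc]
        _ = 0 := by rw [this, mul_zero]
    refine ⟨h1, ?_⟩
    intro x hx
    have h2 := congrArg star (h1 (star x) (star_mem hx))
    rw [star_zero, star_mul, star_mul, star_star, hp'p.isSelfAdjoint.star_eq,
      (h𝒮 p hp).2.1.isSelfAdjoint.star_eq, ← mul_assoc] at h2
    exact h2
  have := hrp p' hp'mem 1 (one_mem M)
  rw [mul_one, hrp'] at this
  exact hp'0 this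

end Pool.Agent.Helper67.Inj
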