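import Pool.Agent.Helper67.Inj.Rc

set_option autoImplicit false

open scoped InnerProductSpace ComplexOrder TensorProduct Topology

namespace Pool.Agent.Helper67.Inj

universe u

section general

variable {A : Type*} [CStarAlgebra A] [PartialOrder A] [StarOrderedRing A]
variable {F : Type*} [NormedAddCommGroup F] [InnerProductSpace ℂ F]

omit [PartialOrder A] [StarOrderedRing A] in
private lemma gt_norm_unitary {v : A} (hv : v ∈ unitary A) : ‖v‖ ≤ 1 := by
  rcases subsingleton_or_nontrivial A with h | h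
  · rw [Subsingleton.elim v 0, norm_zero]
    exact zero_le_one
  · exact (CStarRing.norm_of_mem_unitary hv).le

omit [PartialOrder A] [StarOrderedRing A] in
private lemma gt_exists_u (T : A →L[ℂ] F) (ε : ℝ) (hε : 0 < ε) :
    ∃ u ∈ unitary A, ∀ v ∈ unitary A, ‖T v‖ ^ 2 ≤ ‖T u‖ ^ 2 + ε := by
  have hne : (((fun v : A => ‖T v‖ ^ 2) '' (unitary A : Set A))).Nonempty :=
    ⟨‖T 1‖ ^ 2, 1, one_mem _, rfl⟩
  have hbdd : BddAbove ((fun v : A => ‖T v‖ ^ 2) '' (unitary A : Set A)) := by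
    refine ⟨‖T‖ ^ 2, ?_⟩
    rintro _ ⟨v, hv, rfl⟩
    have h1 : ‖T v‖ ≤ ‖T‖ := by
      refine (T.le_opNorm v).trans ?_
      have := gt_norm_unitary hv
      nlinarith [norm_nonneg T]
    simp only
    gcongr
  obtain ⟨_, ⟨u, hu, rfl⟩, hlt⟩ := exists_lt_of_lt_csSup hne
    (show sSup ((fun v : A => ‖T v‖ ^ 2) '' (unitary A : Set A)) - ε <
      sSup ((fun v : A => ‖T v‖ ^ 2) '' (unitary A : Set A)) by linarith)
  refine ⟨u, hu, fun v hv => ?_⟩
  have h2 := le_csSup hbdd ⟨v, hv, rfl⟩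
  simp only at h2 hlt
  linarith

private lemma gt_sa (T : A →L[ℂ] F) (u : A) (hu : u ∈ unitary A) (ε : ℝ)
    (hmax : ∀ v ∈ unitary A, ‖T v‖ ^ 2 ≤ ‖T u‖ ^ 2 + ε) (s : A) (hs : IsSelfAdjoint s)
    (hs1 : ‖s‖ ≤ 1) :
    ∃ r : A, 0 ≤ r ∧ r ≤ s * s ∧ ‖T (u * s)‖ ^ 2 ≤ ε + 2 * (⟪T u, T (u * r)⟫_ℂ).re := by
  have hss : 0 ≤ s * s := by
    have := star_mul_self_nonneg s
    rwa [hs.star_eq] at this
  have hss1 : s * s ≤ 1 := by
    rw [← CStarAlgebra.norm_le_one_iff_of_nonneg (s * s) hss]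
    refine (norm_mul_le s s).trans ?_
    nlinarith [norm_nonneg s]
  have h1 : 0 ≤ 1 - s * s := sub_nonneg.2 hss1
  set c : A := CFC.sqrt (1 - s * s) with hc
  have hc0 : 0 ≤ c := CFC.sqrt_nonneg _
  have hcc : c * c = 1 - s * s := CFC.sqrt_mul_sqrt_self _ h1
  have hcsa : star c = c := (IsSelfAdjoint.of_nonneg hc0).star_eq
  have hcn : ‖c‖ ≤ 1 := by
    have h2 : ‖c * c‖ ≤ 1 := by
      rw [CStarAlgebra.norm_le_one_iff_of_nonneg (c * c) (by rw [hcc]; exact h1), hcc]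
      exact sub_le_self 1 hss
    have h3 : ‖c * c‖ = ‖c‖ * ‖c‖ := by
      have := CStarRing.norm_star_mul_self (x := c)
      rwa [hcsa] at this
    rw [h3] at h2
    nlinarith [norm_nonneg c]
  have hc1 : c ≤ 1 := (CStarAlgebra.norm_le_one_iff_of_nonneg c hc0).1 hcn
  have hc2 : c * c ≤ c := by
    have := CStarAlgebra.pow_antitone hc0 hc1 (one_le_two)
    simpa [pow_two] using this
  have hcomm : Commute c s := by
    have : Commute (1 - s * s) s := by
      apply Commute.sub_left (Commute.one_left s)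
      exact (Commute.refl s).mul_left (Commute.refl s)
    rw [hc, CFC.sqrt]
    exact Commute.cfcₙ_nnreal this NNReal.sqrt
  refine ⟨1 - c, sub_nonneg.2 hc1, ?_, ?_⟩
  · have : s * s - (1 - c) = c - c * c := by rw [hcc]; abel
    rw [← sub_nonneg, this, sub_nonneg]
    exact hc2
  · -- the two unitaries
    have hplus : c + Complex.I • s ∈ unitary A := by
      rw [Unitary.mem_iff]
      have e1 : star (c + Complex.I • s) = c - Complex.I • s := by
        rw [star_add, star_smul, hcsa, hs.star_eq, Complex.star_def, Complex.conj_I]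
        simp [sub_eq_add_neg]
      rw [e1]
      constructor
      · rw [sub_mul, mul_add, mul_add, mul_smul_comm, smul_mul_assoc, smul_mul_smul_comm,
          Complex.I_mul_I, hcomm.eq, hcc, neg_smul, one_smul]
        abel
      · rw [mul_sub, add_mul, add_mul, mul_smul_comm, smul_mul_assoc, smul_mul_smul_comm,
          Complex.I_mul_I, hcomm.eq, hcc, neg_smul, one_smul]
        abel
    have hminus : c - Complex.I • s ∈ unitary A := by
      have e1 : star (c + Complex.I • s) = c - Complex.I • s := by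
        rw [star_add, star_smul, hcsa, hs.star_eq, Complex.star_def, Complex.conj_I]
        simp [sub_eq_add_neg]
      rw [← e1]
      exact Unitary.star_mem hplus
    have hp := hmax _ (mul_mem hu hplus)
    have hm := hmax _ (mul_mem hu hminus)
    have ep : T (u * (c + Complex.I • s)) = T (u * c) + Complex.I • T (u * s) := by
      rw [mul_add, mul_smul_comm, map_add, map_smul]
    have em : T (u * (c - Complex.I • s)) = T (u * c) - Complex.I • T (u * s) := by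
      rw [mul_sub, mul_smul_comm, map_sub, map_smul]
    have hpar := parallelogram_law_with_norm ℂ (T (u * c)) (Complex.I • T (u * s))
    have hI : ‖Complex.I • T (u * s)‖ = ‖T (u * s)‖ := by
      rw [norm_smul, Complex.norm_I, one_mul]
    rw [hI] at hpar
    rw [ep] at hp
    rw [em] at hm
    have h4 : ‖T (u * c)‖ ^ 2 + ‖T (u * s)‖ ^ 2 ≤ ‖T u‖ ^ 2 + ε := by nlinarith
    have h5 : T (u * c) = T u - T (u * (1 - c)) := by
      rw [mul_sub, mul_one, map_sub]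
      abel
    have h6 : ‖T (u * c)‖ ^ 2 = ‖T u‖ ^ 2 - 2 * (⟪T u, T (u * (1 - c))⟫_ℂ).re +
        ‖T (u * (1 - c))‖ ^ 2 := by
      rw [h5]
      exact norm_sub_sq (𝕜 := ℂ) (T u) (T (u * (1 - c)))
    have h7 : 0 ≤ ‖T (u * (1 - c))‖ ^ 2 := by positivity
    linarith

private lemma gt_family (T : A →L[ℂ] F) (u : A) (hu : u ∈ unitary A) (ε : ℝ)
    (hmax : ∀ v ∈ unitary A, ‖T v‖ ^ 2 ≤ ‖T u‖ ^ 2 + ε) {κ : Type*} [Fintype κ] (s : κ → A)
    (hs : ∀ i, IsSelfAdjoint (s i)) (hs1 : ∀ i, ‖s i‖ ≤ 1) :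
    ∑ i, ‖T (u * s i)‖ ^ 2 ≤ (Fintype.card κ : ℝ) * ε + 2 * ‖T‖ ^ 2 * ‖∑ i, s i * s i‖ := by
  choose r hr0 hr1 hr2 using fun i => gt_sa T u hu ε hmax (s i) (hs i) (hs1 i)
  have h1 : ∑ i, ‖T (u * s i)‖ ^ 2 ≤ ∑ i, (ε + 2 * (⟪T u, T (u * r i)⟫_ℂ).re) :=
    Finset.sum_le_sum fun i _ => hr2 i
  have h2 : ∑ i, (ε + 2 * (⟪T u, T (u * r i)⟫_ℂ).re) =
      (Fintype.card κ : ℝ) * ε + 2 * (⟪T u, T (u * ∑ i, r i)⟫_ℂ).re := by
    have e1 : (⟪T u, T (u * ∑ i, r i)⟫_ℂ).re = ∑ i, (⟪T u, T (u * r i)⟫_ℂ).re := by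
      rw [Finset.mul_sum, map_sum, inner_sum, Complex.re_sum]
    rw [Finset.sum_add_distrib, Finset.sum_const, Finset.card_univ, nsmul_eq_mul, e1,
      Finset.mul_sum]
  have h3 : (⟪T u, T (u * ∑ i, r i)⟫_ℂ).re ≤ ‖T‖ ^ 2 * ‖∑ i, s i * s i‖ := by
    have hun := gt_norm_unitary hu
    have hTu : ‖T u‖ ≤ ‖T‖ := by
      refine (T.le_opNorm u).trans ?_
      nlinarith [norm_nonneg T]
    have hsum : ‖∑ i, r i‖ ≤ ‖∑ i, s i * s i‖ :=
      CStarAlgebra.norm_le_norm_of_nonneg_of_le (Finset.sum_nonneg fun i _ => hr0 i)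
        (Finset.sum_le_sum fun i _ => hr1 i)
    have hTr : ‖T (u * ∑ i, r i)‖ ≤ ‖T‖ * ‖∑ i, s i * s i‖ := by
      refine (T.le_opNorm _).trans ?_
      gcongr
      refine (norm_mul_le _ _).trans ?_
      calc ‖u‖ * ‖∑ i, r i‖ ≤ 1 * ‖∑ i, r i‖ := by gcongr
        _ = ‖∑ i, r i‖ := one_mul _
        _ ≤ _ := hsum
    calc (⟪T u, T (u * ∑ i, r i)⟫_ℂ).re ≤ ‖⟪T u, T (u * ∑ i, r i)⟫_ℂ‖ := Complex.re_le_norm _
      _ ≤ ‖T u‖ * ‖T (u * ∑ i, r i)‖ := norm_inner_le_norm _ _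
      _ ≤ ‖T‖ * (‖T‖ * ‖∑ i, s i * s i‖) := by gcongr
      _ = _ := by ring
  rw [h2] at h1
  linarith

private lemma gt_main (T : A →L[ℂ] F) {ι : Type*} [Fintype ι] (x : ι → A) (τ ε : ℝ)
    (hτ : 0 < τ) (hτx : ∀ i, τ * ‖x i‖ ≤ 1) (hε : 0 < ε) :
    τ ^ 2 * ∑ i, ‖T (x i)‖ ^ 2 ≤ 4 * (Fintype.card ι : ℝ) * ε +
      2 * ‖T‖ ^ 2 * (τ ^ 2 * (‖∑ i, x i * star (x i)‖ + ‖∑ i, star (x i) * x i‖)) := by
  obtain ⟨u, hu, hmax⟩ := gt_exists_u T ε hε
  have hun := gt_norm_unitary hu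
  have huu : u * star u = 1 := (Unitary.mem_iff.1 hu).2
  set z : ι → A := fun i => (τ : ℂ) • (star u * x i) with hz
  have hzn : ∀ i, ‖z i‖ ≤ 1 := by
    intro i
    simp only [hz]
    rw [norm_smul, Complex.norm_real, Real.norm_of_nonneg hτ.le]
    refine le_trans ?_ (hτx i)
    gcongr
    refine (norm_mul_le _ _).trans ?_
    rw [norm_star]
    calc ‖u‖ * ‖x i‖ ≤ 1 * ‖x i‖ := by gcongr
      _ = ‖x i‖ := one_mul _
  set a : ι → A := fun i => (realPart (z i) : A) with ha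
  set b : ι → A := fun i => (imaginaryPart (z i) : A) with hb
  have hasa : ∀ i, IsSelfAdjoint (a i) := fun i => (realPart (z i)).2
  have hbsa : ∀ i, IsSelfAdjoint (b i) := fun i => (imaginaryPart (z i)).2
  have hzab : ∀ i, a i + Complex.I • b i = z i := fun i => realPart_add_I_smul_imaginaryPart (z i)
  have han : ∀ i, ‖a i‖ ≤ 1 := fun i => (realPart.norm_le (z i)).trans (hzn i)
  have hbn : ∀ i, ‖b i‖ ≤ 1 := fun i => (imaginaryPart.norm_le (z i)).trans (hzn i)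
  have hfam := gt_family T u hu ε hmax (Sum.elim a b)
    (by rintro (i | i); exacts [hasa i, hbsa i]) (by rintro (i | i); exacts [han i, hbn i])
  rw [Fintype.sum_sum_type, Fintype.sum_sum_type] at hfam
  simp only [Sum.elim_inl, Sum.elim_inr, Fintype.card_sum, Nat.cast_add] at hfam
  have hzstar : ∀ i, star (z i) = a i - Complex.I • b i := by
    intro i
    rw [← hzab i, star_add, star_smul, (hasa i).star_eq, (hbsa i).star_eq, Complex.star_def,
      Complex.conj_I]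
    simp [sub_eq_add_neg]
  have hsq : ∀ i, (2 : ℂ) • (a i * a i + b i * b i) = z i * star (z i) + star (z i) * z i := by
    intro i
    rw [hzstar i, ← hzab i]
    simp only [add_mul, mul_add, mul_sub, sub_mul, smul_mul_assoc, mul_smul_comm, smul_add,
      smul_sub, smul_smul, Complex.I_mul_I, two_smul, neg_smul, one_smul]
    abel
  have hsum2 : ‖∑ i, a i * a i + ∑ i, b i * b i‖ ≤
      (‖∑ i, z i * star (z i)‖ + ‖∑ i, star (z i) * z i‖) / 2 := by
    have h1 : (2 : ℂ) • (∑ i, a i * a i + ∑ i, b i * b i) =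
        ∑ i, z i * star (z i) + ∑ i, star (z i) * z i := by
      rw [← Finset.sum_add_distrib, ← Finset.sum_add_distrib, Finset.smul_sum]
      exact Finset.sum_congr rfl fun i _ => hsq i
    have h2 : 2 * ‖∑ i, a i * a i + ∑ i, b i * b i‖ =
        ‖∑ i, z i * star (z i) + ∑ i, star (z i) * z i‖ := by
      rw [← h1, norm_smul]
      norm_num
    have h3 := norm_add_le (∑ i, z i * star (z i)) (∑ i, star (z i) * z i)
    linarith
  have hrow : ‖∑ i, z i * star (z i)‖ ≤ τ ^ 2 * ‖∑ i, x i * star (x i)‖ := by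
    have h1 : ∑ i, z i * star (z i) = ((τ : ℂ) ^ 2) • (star u * (∑ i, x i * star (x i)) * u) := by
      rw [Finset.mul_sum, Finset.sum_mul, Finset.smul_sum]
      apply Finset.sum_congr rfl
      intro i _
      simp only [hz]
      rw [star_smul, star_mul, star_star, Complex.star_def, Complex.conj_ofReal,
        smul_mul_smul_comm, pow_two]
      congr 1
      simp only [mul_assoc]
    rw [h1, norm_smul]
    have h2 : ‖((τ : ℂ) ^ 2)‖ = τ ^ 2 := by
      rw [norm_pow, Complex.norm_real, Real.norm_of_nonneg hτ.le]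
    rw [h2]
    gcongr
    calc ‖star u * (∑ i, x i * star (x i)) * u‖ ≤ ‖star u * (∑ i, x i * star (x i))‖ * ‖u‖ :=
          norm_mul_le _ _
      _ ≤ (‖star u‖ * ‖∑ i, x i * star (x i)‖) * ‖u‖ := by
          gcongr
          exact norm_mul_le _ _
      _ ≤ (1 * ‖∑ i, x i * star (x i)‖) * 1 := by
          rw [norm_star]
          gcongr
      _ = _ := by ring
  have hcol : ‖∑ i, star (z i) * z i‖ = τ ^ 2 * ‖∑ i, star (x i) * x i‖ := by
    have h1 : ∑ i, star (z i) * z i = ((τ : ℂ) ^ 2) • (∑ i, star (x i) * x i) := by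
      rw [Finset.smul_sum]
      apply Finset.sum_congr rfl
      intro i _
      simp only [hz]
      rw [star_smul, star_mul, star_star, Complex.star_def, Complex.conj_ofReal,
        smul_mul_smul_comm, pow_two]
      congr 1
      calc star (x i) * u * (star u * x i) = star (x i) * (u * star u) * x i := by
            simp only [mul_assoc]
        _ = _ := by rw [huu, mul_one]
    rw [h1, norm_smul, norm_pow, Complex.norm_real, Real.norm_of_nonneg hτ.le]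
  have hT : ∀ i, τ ^ 2 * ‖T (x i)‖ ^ 2 ≤ 2 * (‖T (u * a i)‖ ^ 2 + ‖T (u * b i)‖ ^ 2) := by
    intro i
    have h1 : T (u * z i) = (τ : ℂ) • T (x i) := by
      simp only [hz]
      rw [mul_smul_comm, ← mul_assoc, huu, one_mul, map_smul]
    have h2 : T (u * z i) = T (u * a i) + Complex.I • T (u * b i) := by
      rw [← hzab i, mul_add, mul_smul_comm, map_add, map_smul]
    have h3 : τ * ‖T (x i)‖ = ‖T (u * a i) + Complex.I • T (u * b i)‖ := by
      rw [← h2, h1, norm_smul, Complex.norm_real, Real.norm_of_nonneg hτ.le]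
    have h4 : ‖T (u * a i) + Complex.I • T (u * b i)‖ ≤ ‖T (u * a i)‖ + ‖T (u * b i)‖ := by
      refine (norm_add_le _ _).trans ?_
      rw [norm_smul, Complex.norm_I, one_mul]
    have h5 : τ ^ 2 * ‖T (x i)‖ ^ 2 ≤ (‖T (u * a i)‖ + ‖T (u * b i)‖) ^ 2 := by
      rw [← mul_pow, h3]
      gcongr
    nlinarith [sq_nonneg (‖T (u * a i)‖ - ‖T (u * b i)‖)]
  calc τ ^ 2 * ∑ i, ‖T (x i)‖ ^ 2 = ∑ i, τ ^ 2 * ‖T (x i)‖ ^ 2 := Finset.mul_sum _ _ _
    _ ≤ ∑ i, 2 * (‖T (u * a i)‖ ^ 2 + ‖T (u * b i)‖ ^ 2) := Finset.sum_le_sum fun i _ => hT i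
    _ = 2 * (∑ i, ‖T (u * a i)‖ ^ 2 + ∑ i, ‖T (u * b i)‖ ^ 2) := by
        rw [← Finset.mul_sum, Finset.sum_add_distrib]
    _ ≤ 2 * ((↑(Fintype.card ι) + ↑(Fintype.card ι)) * ε +
        2 * ‖T‖ ^ 2 * ‖∑ i, a i * a i + ∑ i, b i * b i‖) := by gcongr
    _ ≤ 2 * ((↑(Fintype.card ι) + ↑(Fintype.card ι)) * ε +
        2 * ‖T‖ ^ 2 * ((τ ^ 2 * ‖∑ i, x i * star (x i)‖ + τ ^ 2 * ‖∑ i, star (x i) * x i‖) / 2)) := by
        gcongr
        refine hsum2.trans ?_
        rw [hcol]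
        gcongr
    _ = _ := by ring

private lemma gt_general (T : A →L[ℂ] F) {ι : Type*} [Fintype ι] (x : ι → A) :
    ∑ i, ‖T (x i)‖ ^ 2 ≤
      2 * ‖T‖ ^ 2 * (‖∑ i, x i * star (x i)‖ + ‖∑ i, star (x i) * x i‖) := by
  obtain ⟨τ, hτ, hτx⟩ : ∃ τ : ℝ, 0 < τ ∧ ∀ i, τ * ‖x i‖ ≤ 1 := by
    refine ⟨1 / (1 + ∑ i, ‖x i‖), by positivity, fun i => ?_⟩
    rw [div_mul_eq_mul_div, one_mul, div_le_one (by positivity)]
    have := Finset.single_le_sum (f := fun i => ‖x i‖) (fun i _ => norm_nonneg (x i))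
      (Finset.mem_univ i)
    linarith
  have hlim : ∀ ε : ℝ, 0 < ε → τ ^ 2 * ∑ i, ‖T (x i)‖ ^ 2 ≤
      2 * ‖T‖ ^ 2 * (τ ^ 2 * (‖∑ i, x i * star (x i)‖ + ‖∑ i, star (x i) * x i‖)) + ε := by
    intro ε hε
    have hpos : (0 : ℝ) < 4 * (Fintype.card ι : ℝ) + 1 := by positivity
    have h1 := gt_main T x τ (ε / (4 * (Fintype.card ι : ℝ) + 1)) hτ hτx (by positivity)
    have h2 : 4 * (Fintype.card ι : ℝ) * (ε / (4 * (Fintype.card ι : ℝ) + 1)) ≤ ε := by
      rw [mul_div_assoc', div_le_iff₀ hpos]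
      nlinarith
    linarith
  have h3 := le_of_forall_pos_le_add hlim
  have h4 : τ ^ 2 * ∑ i, ‖T (x i)‖ ^ 2 ≤ τ ^ 2 *
      (2 * ‖T‖ ^ 2 * (‖∑ i, x i * star (x i)‖ + ‖∑ i, star (x i) * x i‖)) := by
    linarith
  exact le_of_mul_le_mul_left h4 (by positivity)

end general

variable {H : Type u} [NormedAddCommGroup H] [InnerProductSpace ℂ H] [CompleteSpace H]

/-- GT: little Grothendieck inequality -/
theorem little_gt {F : Type*} [NormedAddCommGroup F] [InnerProductSpace ℂ F]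
    (T : (H →L[ℂ] H) →L[ℂ] F) {ι : Type*} [Fintype ι] (x : ι → (H →L[ℂ] H)) :
    ∑ i, ‖T (x i)‖ ^ 2 ≤ 2 * ‖T‖ ^ 2 * (rowSq x + colSq x) :=
  gt_general T x

end Pool.Agent.Helper67.Inj
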