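import Pool.Agent.Helper67.Inj.Defs

set_option autoImplicit false

open scoped InnerProductSpace ComplexOrder TensorProduct Topology

namespace Pool.Agent.Helper67.Inj

universe u

variable {H : Type u} [NormedAddCommGroup H] [InnerProductSpace ℂ H]

namespace HBaux

theorem exists_onb_sum {n : ℕ} (a : Fin n → H ⊗[ℂ] H) :
    ∃ (m : ℕ) (e : Fin m → H) (ξ : Fin n → Fin m → H), Orthonormal ℂ e ∧
      ∀ i, a i = ∑ k, ξ i k ⊗ₜ[ℂ] e k := by
  obtain ⟨E', F', iE', iF', hz⟩ :=
    TensorProduct.exists_finite_submodule_of_setFinite (Set.range a) (Set.finite_range a)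
  have f := stdOrthonormalBasis ℂ F'
  have key : ∀ y : E' ⊗[ℂ] F', ∃ ξ : Fin (Module.finrank ℂ F') → H,
      TensorProduct.mapIncl E' F' y = ∑ k, ξ k ⊗ₜ[ℂ] (f k : H) := by
    intro y
    induction y with
    | zero => exact ⟨0, by simp⟩
    | tmul x y =>
      refine ⟨fun k => ⟪f k, y⟫_ℂ • (x : H), ?_⟩
      have h1 : (y : H) = ∑ k, ⟪f k, y⟫_ℂ • (f k : H) := by
        conv_lhs => rw [← f.sum_repr' y]
        simp
      simp only [TensorProduct.mapIncl, TensorProduct.map_tmul, Submodule.subtype_apply]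
      conv_lhs => rw [h1]
      rw [TensorProduct.tmul_sum]
      refine Finset.sum_congr rfl fun k _ => ?_
      rw [TensorProduct.tmul_smul, TensorProduct.smul_tmul']
    | add x y hx hy =>
      obtain ⟨ξ, hξ⟩ := hx
      obtain ⟨ζ, hζ⟩ := hy
      refine ⟨ξ + ζ, ?_⟩
      rw [map_add, hξ, hζ, ← Finset.sum_add_distrib]
      refine Finset.sum_congr rfl fun k _ => ?_
      rw [Pi.add_apply, TensorProduct.add_tmul]
  have h2 : ∀ i, ∃ ξ : Fin (Module.finrank ℂ F') → H, a i = ∑ k, ξ k ⊗ₜ[ℂ] (f k : H) := by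
    intro i
    obtain ⟨y, hy⟩ := hz ⟨i, rfl⟩
    obtain ⟨ξ, hξ⟩ := key y
    exact ⟨ξ, by rw [← hy, hξ]⟩
  choose ξ hξ using h2
  refine ⟨_, fun k => (f k : H), ξ, ?_, hξ⟩
  exact f.orthonormal.comp_linearIsometry F'.subtypeₗᵢ

theorem posMat_tensor {n : ℕ} (X : Fin n → Fin n → (H →L[ℂ] H)) (hX : PosMat X)
    (a : Fin n → H ⊗[ℂ] H) :
    0 ≤ ∑ i, ∑ j, ⟪a i, TensorProduct.mapL (X i j) (1 : H →L[ℂ] H) (a j)⟫_ℂ := by
  obtain ⟨m, e, ξ, he, ha⟩ := exists_onb_sum a
  have h1 : ∀ i j, ⟪a i, TensorProduct.mapL (X i j) (1 : H →L[ℂ] H) (a j)⟫_ℂ =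
      ∑ k, ⟪ξ i k, X i j (ξ j k)⟫_ℂ := by
    intro i j
    rw [ha i, ha j, map_sum, sum_inner]
    refine Finset.sum_congr rfl fun k _ => ?_
    rw [inner_sum]
    simp only [TensorProduct.mapL_tmul, TensorProduct.inner_tmul]
    rw [Finset.sum_eq_single k]
    · simp [he.1 k]
    · intro l _ hl
      have : ⟪e k, e l⟫_ℂ = 0 := he.2 hl.symm
      simp [this]
    · simp
  have h2 : ∑ i, ∑ j, ⟪a i, TensorProduct.mapL (X i j) (1 : H →L[ℂ] H) (a j)⟫_ℂ =
      ∑ k, ∑ i, ∑ j, ⟪ξ i k, X i j (ξ j k)⟫_ℂ := by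
    simp only [h1]
    rw [Finset.sum_comm]
    rw [Finset.sum_comm (s := Finset.univ (α := Fin m))]
    rw [Finset.sum_comm]
    refine Finset.sum_congr rfl fun i _ => ?_
    rw [Finset.sum_comm]
  rw [h2]
  exact Finset.sum_nonneg fun k _ => hX fun i => ξ i k

theorem posMat_tensor' {n : ℕ} (X : Fin n → Fin n → (H →L[ℂ] H)) (hX : PosMat X)
    (a : Fin n → H ⊗[ℂ] H) :
    0 ≤ ∑ i, ∑ j, ⟪a i, TensorProduct.mapL (1 : H →L[ℂ] H) (X i j) (a j)⟫_ℂ := by
  have h := posMat_tensor X hX fun i => TensorProduct.commIsometry ℂ H H (a i)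
  have e : ∀ i j, ⟪TensorProduct.commIsometry ℂ H H (a i),
      TensorProduct.mapL (X i j) (1 : H →L[ℂ] H) (TensorProduct.commIsometry ℂ H H (a j))⟫_ℂ =
      ⟪a i, TensorProduct.mapL (1 : H →L[ℂ] H) (X i j) (a j)⟫_ℂ := by
    intro i j
    have := TensorProduct.mapL_comp_commIsometry (X i j) (1 : H →L[ℂ] H)
    have h1 := DFunLike.congr_fun this (a j)
    simp only [ContinuousLinearMap.comp_apply] at h1
    rw [← LinearIsometryEquiv.inner_map_map (TensorProduct.commIsometry ℂ H H) (a i)]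
    exact congrArg _ h1
  simpa only [e] using h

section barlemmas

variable (C : H ≃ₗᵢ⋆[ℂ] H)

theorem bar_apply (y : H →L[ℂ] H) (ξ : H) : bar C y ξ = C (y (C.symm ξ)) := rfl

theorem bar_add (y z : H →L[ℂ] H) : bar C (y + z) = bar C y + bar C z := by
  ext ξ; simp [bar_apply]

theorem bar_smul (c : ℂ) (y : H →L[ℂ] H) :
    bar C (c • y) = (starRingEnd ℂ) c • bar C y := by
  ext ξ; simp [bar_apply, LinearIsometryEquiv.map_smulₛₗ]

theorem bar_mul (y z : H →L[ℂ] H) : bar C (y * z) = bar C y * bar C z := by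
  ext ξ; simp [bar_apply]

theorem bar_one : bar C (1 : H →L[ℂ] H) = 1 := by
  ext ξ; simp [bar_apply]

theorem norm_bar_le (y : H →L[ℂ] H) : ‖bar C y‖ ≤ ‖y‖ := by
  refine ContinuousLinearMap.opNorm_le_bound _ (norm_nonneg _) fun ξ => ?_
  rw [bar_apply, LinearIsometryEquiv.norm_map]
  refine (y.le_opNorm _).trans_eq ?_
  rw [LinearIsometryEquiv.norm_map]

theorem inner_conjIso (ξ η : H) : ⟪C ξ, C η⟫_ℂ = ⟪η, ξ⟫_ℂ := by
  have hI : ∀ η : H, Complex.I • C η = -C (Complex.I • η) := by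
    intro η
    rw [LinearIsometryEquiv.map_smulₛₗ, Complex.conj_I, neg_smul, neg_neg]
  rw [← inner_conj_symm η ξ, inner_eq_sum_norm_sq_div_four (C ξ), inner_eq_sum_norm_sq_div_four ξ]
  simp only [RCLike.I_to_complex]
  rw [hI, ← map_add, ← map_sub, ← sub_eq_add_neg, sub_neg_eq_add, ← map_add, ← map_sub]
  simp only [LinearIsometryEquiv.norm_map]
  have h4 : (starRingEnd ℂ) 4 = 4 := map_ofNat _ 4
  simp only [map_div₀, map_add, map_sub, map_mul, map_pow, Complex.conj_I, h4,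
    Complex.coe_algebraMap, Complex.conj_ofReal]
  ring

theorem inner_bar (y : H →L[ℂ] H) (ξ η : H) :
    ⟪ξ, bar C y η⟫_ℂ = (starRingEnd ℂ) ⟪C.symm ξ, y (C.symm η)⟫_ℂ := by
  rw [bar_apply, inner_conj_symm]
  conv_lhs => rw [← C.apply_symm_apply ξ]
  rw [inner_conjIso]

theorem star_bar [CompleteSpace H] (y : H →L[ℂ] H) : star (bar C y) = bar C (star y) := by
  rw [ContinuousLinearMap.star_eq_adjoint, eq_comm, ContinuousLinearMap.eq_adjoint_iff]
  intro ξ η
  rw [inner_bar, ← inner_conj_symm, inner_bar, ContinuousLinearMap.star_eq_adjoint,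
    ContinuousLinearMap.adjoint_inner_right, inner_conj_symm]

theorem posMat_bar {n : ℕ} {X : Fin n → Fin n → (H →L[ℂ] H)} (hX : PosMat X) :
    PosMat fun i j => bar C (X i j) := by
  intro ξ
  have := hX fun i => C.symm (ξ i)
  simp only [inner_bar]
  have h2 := star_nonneg_iff.2 this
  rw [star_sum] at h2
  simp only [star_sum] at h2
  exact h2

end barlemmas

theorem inner_mapL_left [CompleteSpace H] (f g : H →L[ℂ] H) (a b : H ⊗[ℂ] H) :
    ⟪TensorProduct.mapL f g a, b⟫_ℂ = ⟪a, TensorProduct.mapL (star f) (star g) b⟫_ℂ := by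
  induction a with
  | zero => simp
  | add x y hx hy => rw [map_add, inner_add_left, inner_add_left, hx, hy]
  | tmul x y =>
    induction b with
    | zero => simp
    | add u v hu hv => rw [map_add, inner_add_right, inner_add_right, hu, hv]
    | tmul u v =>
      rw [TensorProduct.mapL_tmul, TensorProduct.mapL_tmul, TensorProduct.inner_tmul,
        TensorProduct.inner_tmul, ContinuousLinearMap.star_eq_adjoint,
        ContinuousLinearMap.star_eq_adjoint, ContinuousLinearMap.adjoint_inner_right,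
        ContinuousLinearMap.adjoint_inner_right]

variable (H) in
/-- all properties of `IsG` except hermitian symmetry, with transposed positivity -/
structure IsG0 (G : (H →L[ℂ] H) → (H →L[ℂ] H) → ℂ) [CompleteSpace H] : Prop where
  add_left : ∀ x x' z, G (x + x') z = G x z + G x' z
  smul_left : ∀ (c : ℂ) x z, G (c • x) z = c * G x z
  add_right : ∀ x z z', G x (z + z') = G x z + G x z'
  smul_right : ∀ (c : ℂ) x z, G x (c • z) = (starRingEnd ℂ) c * G x z
  bound : ∀ x z, ‖G x z‖ ≤ ‖x‖ * ‖z‖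
  one : G 1 1 = 1
  pos : ∀ (n : ℕ) (X : Fin n → Fin n → (H →L[ℂ] H)) (z : Fin n → (H →L[ℂ] H)),
    PosMat X → 0 ≤ ∑ i, ∑ j, G (X i j) (star (z i) * z j)
  pos' : ∀ (n : ℕ) (X : Fin n → Fin n → (H →L[ℂ] H)) (z : Fin n → (H →L[ℂ] H)),
    PosMat X → 0 ≤ ∑ i, ∑ j, G (star (z i) * z j) (X i j)

/-- vector forms -/
noncomputable def Ga (C : H ≃ₗᵢ⋆[ℂ] H) (a : H ⊗[ℂ] H) (x z : H →L[ℂ] H) : ℂ :=
  ⟪a, TensorProduct.mapL x (bar C z) a⟫_ℂ

theorem isG0_Ga [CompleteSpace H] (C : H ≃ₗᵢ⋆[ℂ] H) (a : H ⊗[ℂ] H) (ha : ‖a‖ = 1) :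
    IsG0 H (Ga C a) where
  add_left x x' z := by
    simp only [Ga, TensorProduct.mapL_add_left, add_apply, inner_add_right]
  smul_left c x z := by
    simp only [Ga, TensorProduct.mapL_smul_left, smul_apply]
    exact inner_smul_right (𝕜 := ℂ) (E := H ⊗[ℂ] H) _ _ _
  add_right x z z' := by
    simp only [Ga, bar_add, TensorProduct.mapL_add_right, add_apply, inner_add_right]
  smul_right c x z := by
    simp only [Ga, bar_smul, TensorProduct.mapL_smul_right, smul_apply]
    exact inner_smul_right (𝕜 := ℂ) (E := H ⊗[ℂ] H) _ _ _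
  bound x z := by
    unfold Ga
    refine (norm_inner_le_norm (𝕜 := ℂ) (E := H ⊗[ℂ] H) _ _).trans ?_
    rw [ha, one_mul]
    refine (ContinuousLinearMap.le_opNorm _ _).trans ?_
    rw [ha, mul_one]
    refine (TensorProduct.norm_mapL_le _ _).trans ?_
    exact mul_le_mul_of_nonneg_left (norm_bar_le C z) (norm_nonneg _)
  one := by
    unfold Ga
    rw [bar_one]
    have : TensorProduct.mapL (1 : H →L[ℂ] H) (1 : H →L[ℂ] H) = 1 := TensorProduct.mapL_id_id
    rw [this]
    refine (inner_self_eq_norm_sq_to_K (𝕜 := ℂ) (E := H ⊗[ℂ] H) a).trans ?_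
    rw [ha]
    simp
  pos n X z hX := by
    have h := posMat_tensor X hX fun i => TensorProduct.mapL (1 : H →L[ℂ] H) (bar C (z i)) a
    have e : ∀ i j, ⟪TensorProduct.mapL (1 : H →L[ℂ] H) (bar C (z i)) a,
        TensorProduct.mapL (X i j) (1 : H →L[ℂ] H)
          (TensorProduct.mapL (1 : H →L[ℂ] H) (bar C (z j)) a)⟫_ℂ =
        Ga C a (X i j) (star (z i) * z j) := by
      intro i j
      rw [inner_mapL_left, star_one, star_bar]
      unfold Ga
      rw [← ContinuousLinearMap.comp_apply, ← ContinuousLinearMap.comp_apply,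
        ← TensorProduct.mapL_comp, ← TensorProduct.mapL_comp, bar_mul]
      rfl
    simpa only [e] using h
  pos' n X z hX := by
    have h := posMat_tensor' _ (posMat_bar C hX) fun i => TensorProduct.mapL (z i) (1 : H →L[ℂ] H) a
    have e : ∀ i j, ⟪TensorProduct.mapL (z i) (1 : H →L[ℂ] H) a,
        TensorProduct.mapL (1 : H →L[ℂ] H) (bar C (X i j))
          (TensorProduct.mapL (z j) (1 : H →L[ℂ] H) a)⟫_ℂ =
        Ga C a (star (z i) * z j) (X i j) := by
      intro i j
      rw [inner_mapL_left, star_one]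
      unfold Ga
      rw [← ContinuousLinearMap.comp_apply, ← ContinuousLinearMap.comp_apply,
        ← TensorProduct.mapL_comp, ← TensorProduct.mapL_comp]
      rfl
    simpa only [e] using h

theorem isClosed_isG0 [CompleteSpace H] :
    IsClosed {G : (H →L[ℂ] H) → (H →L[ℂ] H) → ℂ | IsG0 H G} := by
  have : {G : (H →L[ℂ] H) → (H →L[ℂ] H) → ℂ | IsG0 H G} =
    {G | ∀ x x' z, G (x + x') z = G x z + G x' z} ∩
    {G | ∀ (c : ℂ) x z, G (c • x) z = c * G x z} ∩
    {G | ∀ x z z', G x (z + z') = G x z + G x z'} ∩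
    {G | ∀ (c : ℂ) x z, G x (c • z) = (starRingEnd ℂ) c * G x z} ∩
    {G | ∀ x z, ‖G x z‖ ≤ ‖x‖ * ‖z‖} ∩
    {G | G 1 1 = 1} ∩
    {G | ∀ (n : ℕ) (X : Fin n → Fin n → (H →L[ℂ] H)) (z : Fin n → (H →L[ℂ] H)),
      PosMat X → 0 ≤ ∑ i, ∑ j, G (X i j) (star (z i) * z j)} ∩
    {G | ∀ (n : ℕ) (X : Fin n → Fin n → (H →L[ℂ] H)) (z : Fin n → (H →L[ℂ] H)),
      PosMat X → 0 ≤ ∑ i, ∑ j, G (star (z i) * z j) (X i j)} := by
    ext G
    constructor
    · rintro ⟨h1, h2, h3, h4, h5, h6, h7, h8⟩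
      exact ⟨⟨⟨⟨⟨⟨⟨h1, h2⟩, h3⟩, h4⟩, h5⟩, h6⟩, h7⟩, h8⟩
    · rintro ⟨⟨⟨⟨⟨⟨⟨h1, h2⟩, h3⟩, h4⟩, h5⟩, h6⟩, h7⟩, h8⟩
      exact ⟨h1, h2, h3, h4, h5, h6, h7, h8⟩
  have cont : ∀ x z, Continuous fun G : (H →L[ℂ] H) → (H →L[ℂ] H) → ℂ => G x z := fun x z =>
    (continuous_apply z).comp (continuous_apply x)
  rw [this]
  refine ((((((IsClosed.inter ?_ ?_).inter ?_).inter ?_).inter ?_).inter ?_).inter ?_).inter ?_
  · simp only [Set.ofPred_forall]
    exact isClosed_iInter fun x => isClosed_iInter fun x' => isClosed_iInter fun z =>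
      isClosed_eq (cont _ _) ((cont _ _).add (cont _ _))
  · simp only [Set.ofPred_forall]
    exact isClosed_iInter fun x => isClosed_iInter fun x' => isClosed_iInter fun z =>
      isClosed_eq (cont _ _) (continuous_const.mul (cont _ _))
  · simp only [Set.ofPred_forall]
    exact isClosed_iInter fun x => isClosed_iInter fun x' => isClosed_iInter fun z =>
      isClosed_eq (cont _ _) ((cont _ _).add (cont _ _))
  · simp only [Set.ofPred_forall]
    exact isClosed_iInter fun x => isClosed_iInter fun x' => isClosed_iInter fun z =>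
      isClosed_eq (cont _ _) (continuous_const.mul (cont _ _))
  · simp only [Set.ofPred_forall]
    exact isClosed_iInter fun x => isClosed_iInter fun z =>
      isClosed_le (cont _ _).norm continuous_const
  · exact isClosed_eq (cont _ _) continuous_const
  · simp only [Set.ofPred_forall]
    exact isClosed_iInter fun n => isClosed_iInter fun X => isClosed_iInter fun z =>
      isClosed_iInter fun _ => isClosed_le continuous_const
        (continuous_finsetSum _ fun i _ => continuous_finsetSum _ fun j _ => cont _ _)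
  · simp only [Set.ofPred_forall]
    exact isClosed_iInter fun n => isClosed_iInter fun X => isClosed_iInter fun z =>
      isClosed_iInter fun _ => isClosed_le continuous_const
        (continuous_finsetSum _ fun i _ => continuous_finsetSum _ fun j _ => cont _ _)

theorem isCompact_isG0 [CompleteSpace H] :
    IsCompact {G : (H →L[ℂ] H) → (H →L[ℂ] H) → ℂ | IsG0 H G} := by
  have h1 : IsCompact (Set.pi Set.univ fun x : H →L[ℂ] H =>
      Set.pi Set.univ fun z : H →L[ℂ] H => Metric.closedBall (0 : ℂ) (‖x‖ * ‖z‖)) :=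
    isCompact_univ_pi fun x => isCompact_univ_pi fun z => isCompact_closedBall _ _
  refine h1.of_isClosed_subset isClosed_isG0 ?_
  intro G hG x _ z _
  simpa using hG.bound x z

theorem convex_isG0 [CompleteSpace H] :
    Convex ℝ {G : (H →L[ℂ] H) → (H →L[ℂ] H) → ℂ | IsG0 H G} := by
  intro G hG G' hG' s t hs ht hst
  have ap : ∀ x z, (s • G + t • G') x z = (s : ℂ) * G x z + (t : ℂ) * G' x z := by
    intro x z
    simp
  constructor
  · intro x x' z; rw [ap, ap, ap, hG.add_left, hG'.add_left]; ring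
  · intro c x z; rw [ap, ap, hG.smul_left, hG'.smul_left]; ring
  · intro x z z'; rw [ap, ap, ap, hG.add_right, hG'.add_right]; ring
  · intro c x z; rw [ap, ap, hG.smul_right, hG'.smul_right]; ring
  · intro x z
    rw [ap]
    refine (norm_add_le _ _).trans ?_
    rw [norm_mul, norm_mul, Complex.norm_real, Complex.norm_real, Real.norm_of_nonneg hs,
      Real.norm_of_nonneg ht]
    have h1 := mul_le_mul_of_nonneg_left (hG.bound x z) hs
    have h2 := mul_le_mul_of_nonneg_left (hG'.bound x z) ht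
    refine (add_le_add h1 h2).trans_eq ?_
    rw [← add_mul, hst, one_mul]
  · rw [ap, hG.one, hG'.one, mul_one, mul_one, ← Complex.ofReal_add, hst, Complex.ofReal_one]
  · intro n X z hX
    simp only [ap, Finset.sum_add_distrib, ← Finset.mul_sum]
    exact add_nonneg (mul_nonneg (by exact_mod_cast hs) (hG.pos n X z hX))
      (mul_nonneg (by exact_mod_cast ht) (hG'.pos n X z hX))
  · intro n X z hX
    simp only [ap, Finset.sum_add_distrib, ← Finset.mul_sum]
    exact add_nonneg (mul_nonneg (by exact_mod_cast hs) (hG.pos' n X z hX))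
      (mul_nonneg (by exact_mod_cast ht) (hG'.pos' n X z hX))

/-- symmetrisation -/
theorem isG_symm [CompleteSpace H] {G : (H →L[ℂ] H) → (H →L[ℂ] H) → ℂ} (hG : IsG0 H G) :
    IsG (fun x z => (G x z + (starRingEnd ℂ) (G z x)) / 2) := by
  constructor
  · intro x x' z; simp only [hG.add_left, hG.add_right, map_add]; ring
  · intro c x z
    simp only [hG.smul_left, hG.smul_right, map_mul, Complex.conj_conj]; ring
  · intro x z z'; simp only [hG.add_left, hG.add_right, map_add]; ring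
  · intro c x z
    simp only [hG.smul_left, hG.smul_right, map_mul]; ring
  · intro x z
    rw [norm_div, Complex.norm_ofNat, div_le_iff₀ (by norm_num)]
    refine (norm_add_le _ _).trans ?_
    rw [RCLike.norm_conj]
    have h1 := hG.bound x z
    have h2 := hG.bound z x
    nlinarith
  · rw [hG.one]; norm_num
  · intro n X z hX
    have h1 := hG.pos n X z hX
    have h2 := star_nonneg_iff.2 (hG.pos' n X z hX)
    simp only [star_sum] at h2
    have h3 := add_nonneg h1 h2
    rw [← Finset.sum_add_distrib] at h3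
    simp only [← Finset.sum_add_distrib] at h3
    have h4 : ∑ i, ∑ j, (G (X i j) (star (z i) * z j) +
        (starRingEnd ℂ) (G (star (z i) * z j) (X i j))) / 2 =
        (∑ i, ∑ j, (G (X i j) (star (z i) * z j) +
        (starRingEnd ℂ) (G (star (z i) * z j) (X i j)))) * (2⁻¹ : ℂ) := by
      simp only [Finset.sum_mul, div_eq_mul_inv]
    rw [h4]
    refine mul_nonneg h3 ?_
    simp
  · intro x z
    simp only [map_div₀, map_add, Complex.conj_conj]
    rw [map_ofNat, add_comm]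

theorem exists_G_fin [CompleteSpace H] (C : H ≃ₗᵢ⋆[ℂ] H) (N : VonNeumannAlgebra H)
    (f : (H →L[ℂ] H) → ℝ) (hf : ∀ (t : ℝ) (y : H →L[ℂ] H), f ((t : ℂ) • y) = t ^ 2 * f y)
    (h : ∀ (K : ℕ) (y : Fin K → (H →L[ℂ] H)), (∀ i, y i ∈ N) → ∀ l : ℝ,
      (∀ a : H ⊗[ℂ] H, (⟪a, Phi C y a⟫_ℂ).re ≤ l * ‖a‖ ^ 2) → ∑ i, f (y i) ≤ l)
    (K : ℕ) (y : Fin K → (H →L[ℂ] H)) (hy : ∀ i, y i ∈ N) :
    ∃ G, IsG0 H G ∧ ∀ i, f (y i) ≤ (G (y i) (y i)).re := by
  classical
  by_contra hcon
  push Not at hcon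
  let ev : ((H →L[ℂ] H) → (H →L[ℂ] H) → ℂ) → (Fin K → ℝ) := fun G i => (G (y i) (y i)).re
  have hev : Continuous ev := by
    refine continuous_pi fun i => Complex.continuous_re.comp ?_
    exact (continuous_apply (y i)).comp (continuous_apply (y i))
  have hlin : IsLinearMap ℝ ev := by
    constructor
    · intro G G'; funext i; simp [ev]
    · intro c G; funext i; simp [ev]
  have hA : IsCompact (ev '' {G | IsG0 H G}) := isCompact_isG0.image hev
  have hAc : Convex ℝ (ev '' {G | IsG0 H G}) := convex_isG0.is_linear_image hlin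
  have hB : IsClosed {v : Fin K → ℝ | ∀ i, f (y i) ≤ v i} := by
    simp only [Set.ofPred_forall]
    exact isClosed_iInter fun i => isClosed_le continuous_const (continuous_apply i)
  have hBc : Convex ℝ {v : Fin K → ℝ | ∀ i, f (y i) ≤ v i} := by
    intro v hv w hw s t hs ht hst i
    have h1 := mul_le_mul_of_nonneg_left (hv i) hs
    have h2 := mul_le_mul_of_nonneg_left (hw i) ht
    have h3 : f (y i) = s * f (y i) + t * f (y i) := by rw [← add_mul, hst, one_mul]
    rw [h3]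
    exact add_le_add h1 h2
  have disj : Disjoint (ev '' {G | IsG0 H G}) {v : Fin K → ℝ | ∀ i, f (y i) ≤ v i} := by
    rw [Set.disjoint_left]
    rintro _ ⟨G, hG, rfl⟩ hv
    obtain ⟨i, hi⟩ := hcon G hG
    exact absurd (hv i) (not_le.2 hi)
  obtain ⟨φ, u, v, h1, h2, h3⟩ := geometric_hahn_banach_compact_closed hAc hA hBc hB disj
  have hφ : ∀ w : Fin K → ℝ, φ w = ∑ i, w i * φ (Pi.single i 1) := by
    intro w
    conv_lhs => rw [← Finset.univ_sum_single w]
    rw [map_sum]
    refine Finset.sum_congr rfl fun i _ => ?_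
    have : (Pi.single i (w i) : Fin K → ℝ) = w i • (Pi.single i 1 : Fin K → ℝ) := by
      rw [← Pi.single_smul, smul_eq_mul, mul_one]
    rw [this, map_smul, smul_eq_mul]
  have hc : ∀ i, 0 ≤ φ (Pi.single i 1) := by
    intro i
    by_contra hneg
    push Not at hneg
    have hb0 : (fun i => f (y i)) ∈ {v : Fin K → ℝ | ∀ i, f (y i) ≤ v i} := fun i => le_rfl
    -- choose t large
    set c := φ (Pi.single i 1) with hcdef
    set b0 := φ (fun i => f (y i)) with hb0def
    have ht : 0 ≤ (b0 - v) / (-c) := div_nonneg (sub_nonneg.2 (h3 _ hb0).le) (by linarith)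
    have hmem : ((fun i => f (y i)) + ((b0 - v) / (-c)) • (Pi.single i 1 : Fin K → ℝ)) ∈
        {v : Fin K → ℝ | ∀ i, f (y i) ≤ v i} := by
      intro j
      simp only [Pi.add_apply, Pi.smul_apply, smul_eq_mul]
      have : 0 ≤ (Pi.single i 1 : Fin K → ℝ) j := by
        by_cases hj : j = i
        · subst hj; simp
        · simp [hj]
      have := mul_nonneg ht this
      linarith
    have h4 := h3 _ hmem
    rw [map_add, map_smul, smul_eq_mul, ← hb0def, ← hcdef] at h4
    have h5 : (b0 - v) / (-c) * c = -(b0 - v) := by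
      rw [div_mul_eq_mul_div, div_eq_iff (by linarith)]; ring
    rw [h5] at h4
    linarith
  -- apply the hypothesis
  have h6 : ∑ i, f (((Real.sqrt (φ (Pi.single i 1)) : ℝ) : ℂ) • y i) ≤ u := by
    refine h K _ (fun i => ?_) u ?_
    · exact (N.toStarSubalgebra.toSubalgebra).smul_mem (hy i) _
    · intro a
      have e1 : ⟪a, Phi C (fun i => ((Real.sqrt (φ (Pi.single i 1)) : ℝ) : ℂ) • y i) a⟫_ℂ =
          ∑ i, ((φ (Pi.single i 1) : ℝ) : ℂ) * Ga C a (y i) (y i) := by
        unfold Phi Ga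
        rw [sum_apply, inner_sum]
        refine Finset.sum_congr rfl fun i _ => ?_
        rw [bar_smul, TensorProduct.mapL_smul_left, TensorProduct.mapL_smul_right, smul_apply,
          smul_apply, Complex.conj_ofReal]
        refine (inner_smul_right (𝕜 := ℂ) (E := H ⊗[ℂ] H) _ _ _).trans ?_
        rw [inner_smul_right (𝕜 := ℂ) (E := H ⊗[ℂ] H), ← mul_assoc, ← Complex.ofReal_mul,
          Real.mul_self_sqrt (hc i)]
      by_cases ha : a = 0
      · subst ha; simp
      · have hn : ‖a‖ ≠ 0 := norm_ne_zero_iff.2 ha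
        have hunit : ‖((‖a‖⁻¹ : ℝ) : ℂ) • a‖ = 1 := by
          rw [norm_smul, Complex.norm_real, norm_inv, norm_norm, inv_mul_cancel₀ hn]
        have h9 := h1 _ ⟨_, isG0_Ga C (((‖a‖⁻¹ : ℝ) : ℂ) • a) hunit, rfl⟩
        rw [hφ] at h9
        have e2 : ∀ x z, Ga C (((‖a‖⁻¹ : ℝ) : ℂ) • a) x z =
            (((‖a‖ ^ 2)⁻¹ : ℝ) : ℂ) * Ga C a x z := by
          intro x z
          unfold Ga
          rw [map_smul]
          refine (inner_smul_left (𝕜 := ℂ) (E := H ⊗[ℂ] H) _ _ _).trans ?_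
          rw [inner_smul_right (𝕜 := ℂ) (E := H ⊗[ℂ] H), ← mul_assoc, Complex.conj_ofReal,
            ← Complex.ofReal_mul, ← mul_inv, ← sq]
        have e3 : ∑ i, ev (Ga C (((‖a‖⁻¹ : ℝ) : ℂ) • a)) i * φ (Pi.single i 1) =
            (‖a‖ ^ 2)⁻¹ * (∑ i, ((φ (Pi.single i 1) : ℝ) : ℂ) * Ga C a (y i) (y i)).re := by
          rw [Complex.re_sum, Finset.mul_sum]
          refine Finset.sum_congr rfl fun i _ => ?_
          simp only [ev, e2, Complex.re_ofReal_mul]
          ring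
        rw [e3, ← e1, inv_mul_lt_iff₀ (by positivity)] at h9
        rw [mul_comm u]
        exact h9.le
  have h7 : ∑ i, f (((Real.sqrt (φ (Pi.single i 1)) : ℝ) : ℂ) • y i) =
      φ (fun i => f (y i)) := by
    rw [hφ]
    refine Finset.sum_congr rfl fun i _ => ?_
    rw [hf, Real.sq_sqrt (hc i), mul_comm]
  have h8 := h3 (fun i => f (y i)) (fun i => le_rfl)
  linarith

end HBaux

open HBaux in
/-- HB -/
theorem exists_G [CompleteSpace H] (C : H ≃ₗᵢ⋆[ℂ] H) (N : VonNeumannAlgebra H) [Nontrivial H]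
    (f : (H →L[ℂ] H) → ℝ) (hf : ∀ (t : ℝ) (y : H →L[ℂ] H), f ((t : ℂ) • y) = t ^ 2 * f y)
    (h : ∀ (K : ℕ) (y : Fin K → (H →L[ℂ] H)), (∀ i, y i ∈ N) → ∀ l : ℝ,
      (∀ a : H ⊗[ℂ] H, (⟪a, Phi C y a⟫_ℂ).re ≤ l * ‖a‖ ^ 2) → ∑ i, f (y i) ≤ l) :
    ∃ G : (H →L[ℂ] H) → (H →L[ℂ] H) → ℂ, IsG G ∧ ∀ y ∈ N, f y ≤ (G y y).re := by
  have key := (isCompact_isG0 (H := H)).inter_iInter_nonempty
    (fun y : {y : H →L[ℂ] H // y ∈ N} => {G : (H →L[ℂ] H) → (H →L[ℂ] H) → ℂ |
      f y ≤ (G y y).re}) (fun y => ?_) (fun s => ?_)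
  · obtain ⟨G, hG, hG'⟩ := key
    refine ⟨_, isG_symm hG, fun y hy => ?_⟩
    have h1 := Set.mem_iInter.1 hG' ⟨y, hy⟩
    have h2 : f y ≤ (G y y).re := h1
    have h3 : ((G y y + (starRingEnd ℂ) (G y y)) / 2).re = (G y y).re := by
      rw [Complex.add_conj]
      simp
    rw [h3]
    exact h2
  · refine isClosed_le continuous_const (Complex.continuous_re.comp ?_)
    exact (continuous_apply (y : H →L[ℂ] H)).comp (continuous_apply (y : H →L[ℂ] H))
  · obtain ⟨G, hG, hG'⟩ := exists_G_fin C N f hf h s.card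
      (fun i => ((s.equivFin.symm i : {y : H →L[ℂ] H // y ∈ N}) : H →L[ℂ] H))
      (fun i => (s.equivFin.symm i : {y : H →L[ℂ] H // y ∈ N}).2)
    refine ⟨G, hG, ?_⟩
    simp only [Set.mem_iInter]
    intro y hy
    have := hG' (s.equivFin ⟨y, hy⟩)
    simpa using this

end Pool.Agent.Helper67.Inj
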