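import Pool.Agent.Helper67.Inj.Fejer

set_option autoImplicit false

open scoped InnerProductSpace ComplexOrder TensorProduct Topology

namespace Pool.Agent.Helper67.Inj

universe u

variable {K : Type u} [NormedAddCommGroup K] [InnerProductSpace ℂ K] [CompleteSpace K]

private lemma half_adj_left (A : K →L[ℂ] K) (x y : K) : ⟪star A x, y⟫_ℂ = ⟪x, A y⟫_ℂ := by
  rw [ContinuousLinearMap.star_eq_adjoint, ContinuousLinearMap.adjoint_inner_left]

private lemma half_adj_right (A : K →L[ℂ] K) (x y : K) : ⟪x, star A y⟫_ℂ = ⟪A x, y⟫_ℂ := by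
  rw [ContinuousLinearMap.star_eq_adjoint, ContinuousLinearMap.adjoint_inner_right]

private lemma half_sqrt_inj {R' : K →L[ℂ] K} (hpos : 0 ≤ R') (hinj : ∀ ξ, R' ξ = 0 → ξ = 0)
    {ξ ζ : K} (h : CFC.sqrt R' ξ = CFC.sqrt R' ζ) : ξ = ζ := by
  have h1 : CFC.sqrt R' (ξ - ζ) = 0 := by rw [map_sub, h, sub_self]
  have h2 : R' (ξ - ζ) = 0 := by
    have e : R' = CFC.sqrt R' * CFC.sqrt R' := (CFC.sqrt_mul_sqrt_self R' hpos).symm
    rw [e, mul_apply_eq_comp, h1, map_zero]
  exact sub_eq_zero.1 (hinj _ h2)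

private lemma half_pos_zero {X : K →L[ℂ] K} (hX : ∀ ξ, 0 ≤ ⟪ξ, X ξ⟫_ℂ) {Ω : K}
    (h : ⟪Ω, X Ω⟫_ℂ = 0) : X Ω = 0 := by
  have hpos : 0 ≤ X := by
    rw [ContinuousLinearMap.nonneg_iff_isPositive, ContinuousLinearMap.isPositive_iff_complex]
    intro ξ
    have h1 := hX ξ
    have h2 : ⟪X ξ, ξ⟫_ℂ = (starRingEnd ℂ) ⟪ξ, X ξ⟫_ℂ := (inner_conj_symm _ _).symm
    rw [Complex.nonneg_iff] at h1
    have h3 : ⟪X ξ, ξ⟫_ℂ = ⟪ξ, X ξ⟫_ℂ := by
      rw [h2]
      exact Complex.conj_eq_iff_im.2 h1.2.symm
    rw [h3]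
    refine ⟨?_, h1.1⟩
    apply Complex.ext
    · rfl
    · exact h1.2
  have e : X = CFC.sqrt X * CFC.sqrt X := (CFC.sqrt_mul_sqrt_self X hpos).symm
  have hs : star (CFC.sqrt X) = CFC.sqrt X := (IsSelfAdjoint.of_nonneg (CFC.sqrt_nonneg X)).star_eq
  have h3 : ⟪CFC.sqrt X Ω, CFC.sqrt X Ω⟫_ℂ = 0 := by
    rw [← ContinuousLinearMap.adjoint_inner_right, ← ContinuousLinearMap.star_eq_adjoint, hs,
      ← mul_apply_eq_comp, ← e, h]
  rw [inner_self_eq_zero] at h3
  rw [e, mul_apply_eq_comp, h3, map_zero]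

private lemma half_smul_mem (M : VonNeumannAlgebra K) (c : ℂ) {x : K →L[ℂ] K} (hx : x ∈ M) : c • x ∈ M :=
  M.toStarSubalgebra.smul_mem hx c

/-- the basic relation -/
private lemma half_exists {M : VonNeumannAlgebra K} {Ω : K} {R R' : K →L[ℂ] K} {D : K →L⋆[ℂ] K}
    {J : K ≃ₗᵢ⋆[ℂ] K} (h : TTJ M Ω R R' D J) (v : K →L[ℂ] K) (hv : v ∈ M.commutant) :
    ∃ c ∈ M, c Ω = J (star v Ω) ∧ star c Ω = J (v Ω) ∧
      ∀ b ∈ M, b Ω = J (star (star v * v) Ω) → b = c * star c := by
  obtain ⟨b, hb, c, hc, hpos, h1, h2, h3⟩ := fejer_pi h.tt v hv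
  have hvs : star v ∈ M.commutant := star_mem hv
  have c1 : c Ω = J (star v Ω) := by
    refine half_sqrt_inj h.tt.pos' h.tt.inj' ?_
    rw [h2, ← h.JR, h.JM' _ hvs, star_star]
  have c2 : star c Ω = J (v Ω) := by
    refine half_sqrt_inj h.tt.pos' h.tt.inj' ?_
    rw [h3, ← h.JR, h.JM' _ hv]
  have hsv : star (star v * v) = star v * v := by rw [star_mul, star_star]
  have c3 : b Ω = J ((star v * v) Ω) := by
    refine half_sqrt_inj h.tt.pos' h.tt.inj' ?_
    rw [h1, ← h.JR, h.JM' _ (mul_mem hvs hv), hsv]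
  have hX : b - c * star c = 0 := by
    refine h.tt.sep _ (sub_mem hb (mul_mem hc (star_mem hc))) ?_
    refine half_pos_zero ?_ ?_
    · intro ξ
      have := hpos ξ (- star c ξ)
      have e : ⟪ξ, (b - c * star c) ξ⟫_ℂ = ⟪ξ, b ξ⟫_ℂ + ⟪ξ, c (-star c ξ)⟫_ℂ + ⟪-star c ξ, star c ξ⟫_ℂ +
          ⟪-star c ξ, -star c ξ⟫_ℂ := by
        rw [sub_apply, mul_apply_eq_comp, inner_sub_right, map_neg,
          inner_neg_right, inner_neg_neg, inner_neg_left]
        ring
      rw [e]
      exact this
    · rw [sub_apply, mul_apply_eq_comp, inner_sub_right, c3]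
      have e1 : ⟪Ω, J ((star v * v) Ω)⟫_ℂ = ⟪v Ω, v Ω⟫_ℂ := by
        have := h.symm ((star v * v) Ω) Ω
        rw [h.fix] at this
        rw [← inner_conj_symm, this, inner_conj_symm, mul_apply_eq_comp,
          ContinuousLinearMap.star_eq_adjoint, ContinuousLinearMap.adjoint_inner_left]
      have e2 : ⟪Ω, c (star c Ω)⟫_ℂ = ⟪v Ω, v Ω⟫_ℂ := by
        rw [← ContinuousLinearMap.adjoint_inner_left, ← ContinuousLinearMap.star_eq_adjoint, c2,
          inner_self_eq_norm_sq_to_K, inner_self_eq_norm_sq_to_K, J.norm_map]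
      rw [e1, e2, sub_self]
  refine ⟨c, hc, c1, c2, fun b' hb' hb'Ω => ?_⟩
  have : b' - b = 0 := by
    refine h.tt.sep _ (sub_mem hb' hb) ?_
    rw [sub_apply, hb'Ω, c3, hsv, sub_self]
  rw [sub_eq_zero.1 this, sub_eq_zero.1 hX]

/-- TT-HALF -/
theorem tomita_half {M : VonNeumannAlgebra K} {Ω : K} {R R' : K →L[ℂ] K} {D : K →L⋆[ℂ] K}
    {J : K ≃ₗᵢ⋆[ℂ] K} (h : TTJ M Ω R R' D J) (b : K →L[ℂ] K) (hb : b ∈ M.commutant) :
    ∃ y ∈ M, ∀ ξ, y ξ = J (b (J ξ)) := by
  have ex := half_exists h
  choose! π hM h1 h2 h3 using ex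
  have uniq : ∀ x ∈ M, ∀ y ∈ M, x Ω = y Ω → x = y := by
    intro x hx y hy hxy
    exact sub_eq_zero.1 (h.tt.sep _ (sub_mem hx hy) (by rw [sub_apply, hxy, sub_self]))
  have hadd : ∀ v ∈ M.commutant, ∀ w ∈ M.commutant, π (v + w) = π v + π w := by
    intro v hv w hw
    refine uniq _ (hM _ (add_mem hv hw)) _ (add_mem (hM _ hv) (hM _ hw)) ?_
    rw [add_apply, h1 _ (add_mem hv hw), h1 _ hv, h1 _ hw, star_add,
      add_apply, map_add]
  have hsmul : ∀ c : ℂ, ∀ v ∈ M.commutant, π (c • v) = c • π v := by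
    intro c v hv
    refine uniq _ (hM _ (half_smul_mem _ c hv)) _ (half_smul_mem _ c (hM _ hv)) ?_
    rw [smul_apply, h1 _ (half_smul_mem _ c hv), h1 _ hv, star_smul,
      smul_apply, LinearIsometryEquiv.map_smulₛₗ]
    simp
  have hstar : ∀ v ∈ M.commutant, star (π v) = π (star v) := by
    intro v hv
    refine uniq _ (star_mem (hM _ hv)) _ (hM _ (star_mem hv)) ?_
    rw [h2 _ hv, h1 _ (star_mem hv), star_star]
  have hsq : ∀ v ∈ M.commutant, π (star v * v) = π v * π (star v) := by
    intro v hv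
    have hm : star v * v ∈ M.commutant := mul_mem (star_mem hv) hv
    have := h3 v hv (π (star v * v)) (hM _ hm) (h1 _ hm)
    rw [this, hstar v hv]
  have hpol : ∀ v ∈ M.commutant, ∀ w ∈ M.commutant, π (star v * w) = π w * π (star v) := by
    intro v hv w hw
    have hvs : star v ∈ M.commutant := star_mem hv
    have hws : star w ∈ M.commutant := star_mem hw
    have A := hsq (v + w) (add_mem hv hw)
    have hIw : Complex.I • w ∈ M.commutant := half_smul_mem _ _ hw
    have hIws : Complex.I • star w ∈ M.commutant := half_smul_mem _ _ hws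
    have B := hsq (v + Complex.I • w) (add_mem hv hIw)
    have e1 : star (v + w) * (v + w) = (star v * v + star v * w) + (star w * v + star w * w) := by
      rw [star_add]; noncomm_ring
    have e2 : star (v + Complex.I • w) * (v + Complex.I • w) =
        (star v * v + Complex.I • (star v * w)) + ((-Complex.I) • (star w * v) + star w * w) := by
      have : star (Complex.I • w) = (-Complex.I) • star w := by
        rw [star_smul]; simp
      rw [star_add, this, add_mul, mul_add, mul_add]
      rw [mul_smul_comm, smul_mul_smul_comm, smul_mul_assoc]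
      simp
    have m1 : star v * v ∈ M.commutant := mul_mem hvs hv
    have m2 : star v * w ∈ M.commutant := mul_mem hvs hw
    have m3 : star w * v ∈ M.commutant := mul_mem hws hv
    have m4 : star w * w ∈ M.commutant := mul_mem hws hw
    have s1 : star (v + w) = star v + star w := star_add _ _
    have s2 : star (v + Complex.I • w) = star v + (-Complex.I) • star w := by
      rw [star_add, star_smul]; simp
    rw [e1, s1, hadd _ (add_mem m1 m2) _ (add_mem m3 m4), hadd _ m1 _ m2, hadd _ m3 _ m4,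
      hadd _ hv _ hw, hadd _ hvs _ hws, hsq v hv, hsq w hw] at A
    rw [e2, s2, hadd _ (add_mem m1 (half_smul_mem _ _ m2)) _ (add_mem (half_smul_mem _ _ m3) m4),
      hadd _ m1 _ (half_smul_mem _ _ m2), hadd _ (half_smul_mem _ _ m3) _ m4, hsmul _ _ m2, hsmul _ _ m3,
      hadd _ hv _ hIw, hadd _ hvs _ (half_smul_mem _ _ hws), hsmul _ _ hw, hsmul _ _ hws, hsq v hv, hsq w hw] at B
    have A' : π (star v * w) + π (star w * v) = π w * π (star v) + π v * π (star w) := by
      have : π v * π (star v) + π (star v * w) + (π (star w * v) + π w * π (star w)) =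
        π v * π (star v) + (π w * π (star v) + π v * π (star w)) + π w * π (star w) := by
        rw [A]; noncomm_ring
      have h' := congrArg (fun x => x - π v * π (star v) - π w * π (star w)) this
      calc _ = π v * π (star v) + π (star v * w) + (π (star w * v) + π w * π (star w)) -
              π v * π (star v) - π w * π (star w) := by abel
        _ = _ := by rw [h']; abel
    have B' : Complex.I • (π (star v * w) - π (star w * v)) =
        Complex.I • (π w * π (star v) - π v * π (star w)) := by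
      have e3 : (π v + Complex.I • π w) * (π (star v) + (-Complex.I) • π (star w)) =
          π v * π (star v) + (-Complex.I) • (π v * π (star w)) + Complex.I • (π w * π (star v)) +
            π w * π (star w) := by
        rw [add_mul, mul_add, mul_add, mul_smul_comm, smul_mul_assoc, smul_mul_smul_comm]
        simp
        abel
      rw [e3] at B
      have h' := congrArg (fun x => x - π v * π (star v) - π w * π (star w)) B
      calc _ = π v * π (star v) + Complex.I • π (star v * w) + (-Complex.I • π (star w * v) + π w * π (star w)) -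
              π v * π (star v) - π w * π (star w) := by rw [smul_sub, neg_smul]; abel
        _ = _ := by rw [h', smul_sub, neg_smul]; abel
    have B'' : π (star v * w) - π (star w * v) = π w * π (star v) - π v * π (star w) := by
      have := congrArg (fun x => (-Complex.I) • x) B'
      simpa [smul_smul] using this
    have C : (2 : ℂ) • π (star v * w) = (2 : ℂ) • (π w * π (star v)) := by
      rw [two_smul, two_smul]
      calc π (star v * w) + π (star v * w) = (π (star v * w) + π (star w * v)) +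
              (π (star v * w) - π (star w * v)) := by abel
        _ = _ := by rw [A', B'']; abel
    have := congrArg (fun x => (2⁻¹ : ℂ) • x) C
    simpa [smul_smul] using this
  have hmul : ∀ v ∈ M.commutant, ∀ w ∈ M.commutant, π (v * w) = π w * π v := by
    intro v hv w hw
    have := hpol (star v) (star_mem hv) w hw
    rwa [star_star] at this
  have hbs : star b ∈ M.commutant := star_mem hb
  refine ⟨π (star b), hM _ hbs, fun ξ => ?_⟩
  -- both sides are continuous linear; check on the dense set of `J (star u Ω)`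
  have key : ∀ u ∈ M.commutant, π (star b) (J (star u Ω)) = J (b (J (J (star u Ω)))) := by
    intro u hu
    rw [h.inv, ← h1 u hu, ← mul_apply_eq_comp, ← hmul u hu _ hbs,
      h1 _ (mul_mem hu hbs), star_mul, star_star, mul_apply_eq_comp]
  have hdense : ∀ η : K, (∀ u ∈ M.commutant, ⟪J (star u Ω), η⟫_ℂ = 0) → η = 0 := by
    intro η hη
    have : J η = 0 := by
      refine h.tt.cyc' _ fun y hy => ?_
      have := hη (star y) (star_mem hy)
      rw [star_star, h.symm] at this
      rw [← inner_conj_symm, this, map_zero]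
    have := congrArg J this
    rwa [h.inv, map_zero] at this
  -- difference operator
  have hlin : ∀ ζ : K, ⟪ζ, π (star b) ξ⟫_ℂ = ⟪ζ, J (b (J ξ))⟫_ℂ := by
    intro ζ
    -- the vectors `star (π (star b)) ζ` and `J (star b (J ζ))` agree
    have e : star (π (star b)) ζ = J (star b (J ζ)) := by
      rw [← sub_eq_zero]
      refine hdense _ fun u hu => ?_
      rw [inner_sub_right, sub_eq_zero]
      have a1 : ⟪J (star u Ω), star (π (star b)) ζ⟫_ℂ = ⟪π (star b) (J (star u Ω)), ζ⟫_ℂ := by
        exact half_adj_right _ _ _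
      rw [a1, key u hu, h.inv]
      have a2 : ⟪J (star u Ω), J (star b (J ζ))⟫_ℂ = ⟪J (b (star u Ω)), ζ⟫_ℂ := by
        rw [h.symm (star u Ω) (J (star b (J ζ))), h.inv, half_adj_left, h.symm (b (star u Ω)) ζ]
      rw [a2]
    have a3 : ⟪ζ, π (star b) ξ⟫_ℂ = ⟪star (π (star b)) ζ, ξ⟫_ℂ := by
      exact (half_adj_left _ _ _).symm
    rw [a3, e, h.symm (star b (J ζ)) ξ, half_adj_right, ← inner_conj_symm, ← inner_conj_symm ζ]
    congr 1
    have := h.symm (b (J ξ)) ζ
    rw [this]
  have := hlin (π (star b) ξ - J (b (J ξ)))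
  rw [← sub_eq_zero, ← inner_sub_right, inner_self_eq_zero] at this
  exact sub_eq_zero.1 this

end Pool.Agent.Helper67.Inj
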