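import Pool.Agent.Helper67.Inj.Abel
import Pool.Agent.Helper67.Inj.Chain

set_option autoImplicit false

open scoped InnerProductSpace ComplexOrder TensorProduct Topology

namespace Pool.Agent.Helper67.Inj

universe u

variable {H : Type u} [NormedAddCommGroup H] [InnerProductSpace ℂ H] [CompleteSpace H]

namespace Halv

/-- the set over which Zorn is applied -/
def Good (M : VonNeumannAlgebra H) (q v : H →L[ℂ] H) : Prop :=
  v ∈ M ∧ IsPI v ∧ q * v = v ∧ v * q = v ∧ v * v = 0

theorem ext_left {v w : H →L[ℂ] H} (hv : IsPI v) (hw : IsPI w) (h : w * (star v * v) = v) :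
    star w * v = star v * v := by
  have h1 := (ext_pi v w hv hw h).2.2.2.1
  have h2 : star v * w = star v * v := by
    rw [mul_sub, sub_eq_zero] at h1
    exact h1
  have h3 := congrArg star h2
  simpa using h3

theorem trans_le {a b c : H →L[ℂ] H} (ha : IsPI a) (hb : IsPI b)
    (hab : b * (star a * a) = a) (hbc : c * (star b * b) = b) : c * (star a * a) = a := by
  have h1 : star b * a = star a * a := ext_left ha hb hab
  have h2 : star b * b * (star a * a) = star a * a := by
    rw [mul_assoc, hab, h1]
  calc c * (star a * a) = c * (star b * b * (star a * a)) := by rw [h2]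
    _ = c * (star b * b) * (star a * a) := (mul_assoc _ _ _).symm
    _ = b * (star a * a) := by rw [hbc]
    _ = a := hab

theorem norm_q_le {q : H →L[ℂ] H} (hq : IsStarProjection q) : ‖q‖ ≤ 1 := by
  exact hq.norm_le

theorem good_zero (M : VonNeumannAlgebra H) (q : H →L[ℂ] H) : Good M q 0 := by
  refine ⟨zero_mem _, ?_, ?_, ?_, ?_⟩ <;> simp [IsPI]

theorem good_sup (M : VonNeumannAlgebra H) (q : H →L[ℂ] H) (hq : IsStarProjection q)
    (c : Set (H →L[ℂ] H)) (hne : c.Nonempty) (hM : ∀ v ∈ c, Good M q v)
    (hc : ∀ v ∈ c, ∀ w ∈ c, w * (star v * v) = v ∨ v * (star w * w) = w) :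
    ∃ V, Good M q V ∧ ∀ v ∈ c, V * (star v * v) = v := by
  obtain ⟨V, hVM, hV, hVc, happ⟩ := chain_sup M c hne (fun v hv => ⟨(hM v hv).1, (hM v hv).2.1⟩) hc
  have hqs : star q = q := hq.isSelfAdjoint
  have hqn : ∀ x : H, ‖q x‖ ≤ ‖x‖ := fun x => by
    calc ‖q x‖ ≤ ‖q‖ * ‖x‖ := q.le_opNorm x
      _ ≤ 1 * ‖x‖ := by gcongr; exact norm_q_le hq
      _ = ‖x‖ := one_mul _
  have key : ∀ x y : H, (∀ ε > 0, ‖x - y‖ ≤ 2 * ε) → x = y := by
    intro x y h
    rw [← sub_eq_zero, ← norm_le_zero_iff]
    by_contra hcon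
    push Not at hcon
    have := h (‖x - y‖ / 4) (by positivity)
    linarith
  have h1 : q * V = V := by
    ext ξ
    apply key
    intro ε hε
    obtain ⟨v, hv, hv1, -⟩ := happ ξ 0 ε hε
    have hqv : q (v ξ) = v ξ := by
      have := congrArg (fun T : H →L[ℂ] H => T ξ) (hM v hv).2.2.1
      simpa using this
    have : (q * V) ξ - V ξ = q (V ξ - v ξ) - (V ξ - v ξ) := by
      rw [map_sub, hqv]
      simp
    rw [this]
    calc ‖q (V ξ - v ξ) - (V ξ - v ξ)‖ ≤ ‖q (V ξ - v ξ)‖ + ‖V ξ - v ξ‖ := norm_sub_le _ _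
      _ ≤ ‖V ξ - v ξ‖ + ‖V ξ - v ξ‖ := by gcongr; exact hqn _
      _ ≤ 2 * ε := by linarith
  have h2 : q * star V = star V := by
    ext ξ
    apply key
    intro ε hε
    obtain ⟨v, hv, -, hv1⟩ := happ 0 ξ ε hε
    have hqv : q (star v ξ) = star v ξ := by
      have h0 : q * star v = star v := by
        have := congrArg star (hM v hv).2.2.2.1
        rw [star_mul, hqs] at this
        exact this
      have := congrArg (fun T : H →L[ℂ] H => T ξ) h0
      simpa using this
    have : (q * star V) ξ - star V ξ = q (star V ξ - star v ξ) - (star V ξ - star v ξ) := by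
      rw [map_sub, hqv]
      simp
    rw [this]
    calc ‖q (star V ξ - star v ξ) - (star V ξ - star v ξ)‖
        ≤ ‖q (star V ξ - star v ξ)‖ + ‖star V ξ - star v ξ‖ := norm_sub_le _ _
      _ ≤ ‖star V ξ - star v ξ‖ + ‖star V ξ - star v ξ‖ := by gcongr; exact hqn _
      _ ≤ 2 * ε := by linarith
  have h2' : V * q = V := by
    have := congrArg star h2
    rw [star_mul, star_star, hqs] at this
    exact this
  have h3 : V * V = 0 := by
    ext ξ
    refine ext_inner_right ℂ (fun η => ?_)
    change ⟪V (V ξ), η⟫_ℂ = ⟪(0 : H), η⟫_ℂ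
    rw [inner_zero_left]
    rw [← norm_le_zero_iff]
    by_contra hcon
    push Not at hcon
    set δ := ‖⟪V (V ξ), η⟫_ℂ‖ with hδ
    set B := ‖star V η‖ + ‖V ξ‖ + 1 with hB
    have hBpos : 0 < B := by positivity
    set ε := min 1 (δ / (2 * B)) with hεdef
    have hε : 0 < ε := by
      apply lt_min one_pos
      positivity
    have hε1 : ε ≤ 1 := min_le_left _ _
    have hε2 : ε * (2 * B) ≤ δ := by
      have := min_le_right 1 (δ / (2 * B))
      calc ε * (2 * B) ≤ δ / (2 * B) * (2 * B) := by gcongr
        _ = δ := by field_simp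
    obtain ⟨v, hv, hv1, hv2⟩ := happ ξ η ε hε
    have hvv : ⟪v ξ, star v η⟫_ℂ = 0 := by
      have h0 : v (v ξ) = 0 := by
        have := congrArg (fun T : H →L[ℂ] H => T ξ) (hM v hv).2.2.2.2
        simpa using this
      rw [ContinuousLinearMap.star_eq_adjoint, ContinuousLinearMap.adjoint_inner_right, h0,
        inner_zero_left]
    have e1 : ⟪V (V ξ), η⟫_ℂ = ⟪V ξ, star V η⟫_ℂ := by
      rw [ContinuousLinearMap.star_eq_adjoint, ContinuousLinearMap.adjoint_inner_right]
    have e2 : ⟪V ξ, star V η⟫_ℂ = ⟪V ξ - v ξ, star V η⟫_ℂ + ⟪v ξ, star V η - star v η⟫_ℂ := by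
      rw [inner_sub_left, inner_sub_right, hvv]
      ring
    have e3 : ‖v ξ‖ ≤ ‖V ξ‖ + ε := by
      have : v ξ = V ξ - (V ξ - v ξ) := by abel
      rw [this]
      calc ‖V ξ - (V ξ - v ξ)‖ ≤ ‖V ξ‖ + ‖V ξ - v ξ‖ := norm_sub_le _ _
        _ ≤ _ := by gcongr
    have e4 : δ < 2 * B * ε := by
      calc δ = ‖⟪V ξ - v ξ, star V η⟫_ℂ + ⟪v ξ, star V η - star v η⟫_ℂ‖ := by rw [hδ, e1, e2]
        _ ≤ ‖⟪V ξ - v ξ, star V η⟫_ℂ‖ + ‖⟪v ξ, star V η - star v η⟫_ℂ‖ := norm_add_le _ _
        _ ≤ ‖V ξ - v ξ‖ * ‖star V η‖ + ‖v ξ‖ * ‖star V η - star v η‖ := by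
            gcongr <;> exact norm_inner_le_norm _ _
        _ ≤ ε * ‖star V η‖ + (‖V ξ‖ + 1) * ε := by
            have := norm_nonneg (star V η)
            have := norm_nonneg (V ξ)
            gcongr
            linarith
        _ < 2 * B * ε := by
            rw [hB]
            have := norm_nonneg (star V η)
            have := norm_nonneg (V ξ)
            nlinarith
    linarith
  exact ⟨V, ⟨hVM, hV, h1, h2', h3⟩, hVc⟩

theorem star_q_mul {q v : H →L[ℂ] H} (hq : IsStarProjection q) (h1 : q * v = v)
    (h2 : v * q = v) : q * star v = star v ∧ star v * q = star v := by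
  have hqs : star q = q := hq.isSelfAdjoint
  constructor
  · have := congrArg star h2
    rwa [star_mul, hqs] at this
  · have := congrArg star h1
    rwa [star_mul, hqs] at this

theorem rest (M : VonNeumannAlgebra H) {q V : H →L[ℂ] H} (hq : IsStarProjection q) (hqM : q ∈ M)
    (hV : Good M q V) :
    q - star V * V - V * star V ∈ M ∧ IsStarProjection (q - star V * V - V * star V) ∧
    V * (q - star V * V - V * star V) = 0 ∧ (q - star V * V - V * star V) * V = 0 := by
  obtain ⟨hM, hPI, h1, h2, h3⟩ := hV
  have hqs : star q = q := hq.isSelfAdjoint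
  have hqq : q * q = q := hq.isIdempotentElem
  obtain ⟨h4, h5⟩ := star_q_mul hq h1 h2
  have h6 : star V * star V = 0 := by
    have := congrArg star h3
    rwa [star_mul, star_zero] at this
  have hPI' : V * (star V * V) = V := by rw [← mul_assoc]; exact hPI
  have a1 : V * (q - star V * V - V * star V) = 0 := by
    rw [mul_sub, mul_sub, h2, hPI', ← mul_assoc, h3, zero_mul, sub_self, sub_zero]
  have a2 : (q - star V * V - V * star V) * V = 0 := by
    rw [sub_mul, sub_mul, h1, mul_assoc (star V), h3, mul_zero, sub_zero, hPI, sub_self]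
  have hs : star (q - star V * V - V * star V) = q - star V * V - V * star V := by
    simp [hqs]
  have a3 : (q - star V * V - V * star V) * star V = 0 := by
    have := congrArg star a1
    rwa [star_mul, hs, star_zero] at this
  refine ⟨?_, ?_, a1, a2⟩
  · exact sub_mem (sub_mem hqM (mul_mem (star_mem hM) hM)) (mul_mem hM (star_mem hM))
  · refine ⟨?_, hs⟩
    change (q - star V * V - V * star V) * (q - star V * V - V * star V) = _
    have b1 : (q - star V * V - V * star V) * q = q - star V * V - V * star V := by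
      rw [sub_mul, sub_mul, hqq, mul_assoc, h2, mul_assoc, h5]
    conv_lhs => rw [mul_sub, mul_sub, b1]
    rw [← mul_assoc, a3, zero_mul, ← mul_assoc, a2, zero_mul, sub_zero, sub_zero]

end Halv

/-- HALV -/
theorem halving (M : VonNeumannAlgebra H)
    (hcont : ∀ p ∈ M, IsStarProjection p → p ≠ 0 →
      ∃ x ∈ M, ∃ y ∈ M, (p * x * p) * (p * y * p) ≠ (p * y * p) * (p * x * p))
    (q : H →L[ℂ] H) (hq : IsStarProjection q) (hqM : q ∈ M) :
    ∃ v ∈ M, IsPI v ∧ q * v = v ∧ v * q = v ∧ v * v = 0 ∧ star v * v + v * star v = q := by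
  have hz := exists_maximal_of_chains_bounded
    (r := fun a b : {v : H →L[ℂ] H // Halv.Good M q v} =>
      (b : H →L[ℂ] H) * (star (a : H →L[ℂ] H) * (a : H →L[ℂ] H)) = (a : H →L[ℂ] H)) ?_ ?_
  · obtain ⟨⟨V, hV⟩, hmax⟩ := hz
    obtain ⟨hrM, hr, hVr, hrV⟩ := Halv.rest M hq hqM hV
    have hV' := hV
    obtain ⟨hM, hPI, h1, h2, h3⟩ := hV'
    refine ⟨V, hM, hPI, h1, h2, h3, ?_⟩
    set r := q - star V * V - V * star V with hrdef
    by_contra hne
    have hr0 : r ≠ 0 := by
      intro h0
      apply hne
      have : q - star V * V - V * star V = 0 := h0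
      have h' : q = star V * V + V * star V := by
        rw [sub_sub, sub_eq_zero] at this
        exact this
      exact h'.symm
    obtain ⟨u, huM, hu0, huPI, hru, hur, huu⟩ :=
      exists_nilpotent M r hr hrM (hcont r hrM hr hr0)
    obtain ⟨hru', hur'⟩ := Halv.star_q_mul hr hru hur
    have hqs : star q = q := hq.isSelfAdjoint
    have hrs : star r = r := hr.isSelfAdjoint
    have hqq : q * q = q := hq.isIdempotentElem
    obtain ⟨h4, h5⟩ := Halv.star_q_mul hq h1 h2
    have hqr : q * r = r := by
      rw [hrdef, mul_sub, mul_sub, hqq, ← mul_assoc, h4, ← mul_assoc, h1]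
    have hrq : r * q = r := by
      have := congrArg star hqr
      rwa [star_mul, hrs, hqs] at this
    have hVr' : r * star V = 0 := by
      have := congrArg star hVr
      rwa [star_mul, hrs, star_zero] at this
    have hrV' : star V * r = 0 := by
      have := congrArg star hrV
      rwa [star_mul, hrs, star_zero] at this
    have c1 : V * u = 0 := by rw [← hru, ← mul_assoc, hVr, zero_mul]
    have c2 : V * star u = 0 := by rw [← hru', ← mul_assoc, hVr, zero_mul]
    have c3 : u * V = 0 := by rw [← hur, mul_assoc, hrV, mul_zero]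
    have c4 : star u * V = 0 := by rw [← hur', mul_assoc, hrV, mul_zero]
    have c5 : u * star V = 0 := by rw [← hur, mul_assoc, hVr', mul_zero]
    have c6 : star V * u = 0 := by rw [← hru, ← mul_assoc, hrV', zero_mul]
    have hVPI : V * (star V * V) = V := by rw [← mul_assoc]; exact hPI
    have huPI2 : u * (star u * u) = u := by rw [← mul_assoc]; exact huPI
    have hsw : star (V + u) * (V + u) = star V * V + star u * u := by
      rw [star_add, add_mul, mul_add, mul_add, c6, c4, add_zero, zero_add]
    have hg : Halv.Good M q (V + u) := by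
      refine ⟨add_mem hM huM, ?_, ?_, ?_, ?_⟩
      · change (V + u) * star (V + u) * (V + u) = V + u
        rw [mul_assoc, hsw, mul_add, add_mul, add_mul, hVPI, huPI2, ← mul_assoc u, c5, zero_mul,
          ← mul_assoc V, c2, zero_mul, add_zero, zero_add]
      · have : q * u = u := by rw [← hru, ← mul_assoc, hqr]
        rw [mul_add, h1, this]
      · have : u * q = u := by rw [← hur, mul_assoc, hrq]
        rw [add_mul, h2, this]
      · rw [add_mul, mul_add, mul_add, h3, c1, c3, huu]
        simp
    have hle : (V + u) * (star V * V) = V := by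
      rw [add_mul, hVPI, ← mul_assoc, c5, zero_mul, add_zero]
    have hback := hmax ⟨V + u, hg⟩ hle
    change V * (star (V + u) * (V + u)) = V + u at hback
    rw [hsw, mul_add, hVPI, ← mul_assoc, c2, zero_mul, add_zero] at hback
    apply hu0
    have := congrArg (fun T => T - V) hback
    simpa using this.symm
  · intro c hc
    by_cases hne : c.Nonempty
    · obtain ⟨V, hV, hub⟩ := Halv.good_sup M q hq (Subtype.val '' c) (hne.image _)
        (by rintro _ ⟨v, -, rfl⟩; exact v.2) (by
          rintro _ ⟨v, hv, rfl⟩ _ ⟨w, hw, rfl⟩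
          by_cases hvw : v = w
          · subst hvw
            left
            rw [← mul_assoc]
            exact v.2.2.1
          · exact hc hv hw hvw)
      exact ⟨⟨V, hV⟩, fun a ha => hub a ⟨a, ha, rfl⟩⟩
    · refine ⟨⟨0, Halv.good_zero M q⟩, fun a ha => ?_⟩
      exact absurd ⟨a, ha⟩ hne
  · intro a b c hab hbc
    exact Halv.trans_le a.2.2.1 b.2.2.1 hab hbc

namespace Halv

theorem mul_e_of {W e : H →L[ℂ] H} (he : IsStarProjection e) (h : star W * W = e) :
    W * e = W := by
  have hes : star e = e := he.isSelfAdjoint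
  have hee : e * e = e := he.isIdempotentElem
  rw [← sub_eq_zero, ← CStarRing.star_mul_self_eq_zero_iff (E := H →L[ℂ] H)]
  rw [star_sub, star_mul, hes, sub_mul, mul_sub, mul_sub]
  have a1 : star W * (W * e) = e := by rw [← mul_assoc, h, hee]
  have a2 : e * star W * (W * e) = e := by
    rw [mul_assoc, a1, hee]
  have a3 : e * star W * W = e := by rw [mul_assoc, h, hee]
  rw [a1, a2, a3, h]
  simp

theorem frames_aux (M : VonNeumannAlgebra H)
    (hcont : ∀ p ∈ M, IsStarProjection p → p ≠ 0 →
      ∃ x ∈ M, ∃ y ∈ M, (p * x * p) * (p * y * p) ≠ (p * y * p) * (p * x * p))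
    (q : H →L[ℂ] H) (hq : IsStarProjection q) (hqM : q ∈ M) (j : ℕ) :
    ∃ (ι : Type) (_ : Fintype ι) (_ : DecidableEq ι) (_ : Fintype.card ι = 2 ^ j)
      (W : ι → (H →L[ℂ] H)) (e : H →L[ℂ] H), IsStarProjection e ∧ e ∈ M ∧
      (∀ s, W s ∈ M) ∧ (∀ s, q * W s = W s ∧ W s * q = W s) ∧
      (∀ s t, star (W s) * W t = if s = t then e else 0) ∧ ∑ s, W s * star (W s) = q := by
  have hqs : star q = q := hq.isSelfAdjoint
  have hqq : q * q = q := hq.isIdempotentElem
  induction j with
  | zero =>
    refine ⟨Unit, inferInstance, inferInstance, by simp, fun _ => q, q, hq, hqM, fun _ => hqM,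
      fun _ => ⟨hqq, hqq⟩, fun s t => ?_, ?_⟩
    · simp [hqs, hqq]
    · simp [hqs, hqq]
  | succ j ih =>
    obtain ⟨ι, i1, i2, hcard, W, e, he, heM, hWM, hqW, hWW, hsum⟩ := ih
    obtain ⟨v, hvM, hvPI, hev, hve, hvv, hsumv⟩ := halving M hcont e he heM
    have hes : star e = e := he.isSelfAdjoint
    have hee : e * e = e := he.isIdempotentElem
    have hvPI' : v * (star v * v) = v := by rw [← mul_assoc]; exact hvPI
    have hvPI'' : star v * v * (star v * v) = star v * v := by
      rw [mul_assoc, hvPI']
    obtain ⟨h4, h5⟩ := star_q_mul he hev hve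
    have hWe : ∀ s, W s * e = W s := fun s => mul_e_of he (by rw [hWW]; simp)
    have hvs2 : star v * star v = 0 := by
      have := congrArg star hvv
      rwa [star_mul, star_zero] at this
    refine ⟨ι × Bool, inferInstance, inferInstance, ?_, fun s => if s.2 then W s.1 * (star v * v)
      else W s.1 * v, star v * v, ⟨hvPI'', by simp [IsSelfAdjoint]⟩,
      mul_mem (star_mem hvM) hvM, ?_, ?_, ?_, ?_⟩
    · simp [hcard, pow_succ]
    · rintro ⟨s, b⟩
      cases b
      · exact mul_mem (hWM s) hvM
      · exact mul_mem (hWM s) (mul_mem (star_mem hvM) hvM)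
    · rintro ⟨s, b⟩
      have hvq : v * q = v := by
        have : e * q = e := by
          have h1 := hWW s s
          rw [if_pos rfl] at h1
          rw [← h1, mul_assoc, (hqW s).2]
        rw [← hve, mul_assoc, this]
      cases b
      · refine ⟨?_, ?_⟩
        · change q * (W s * v) = W s * v
          rw [← mul_assoc, (hqW s).1]
        · change W s * v * q = W s * v
          rw [mul_assoc, hvq]
      · refine ⟨?_, ?_⟩
        · change q * (W s * (star v * v)) = W s * (star v * v)
          rw [← mul_assoc, (hqW s).1]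
        · change W s * (star v * v) * q = W s * (star v * v)
          rw [mul_assoc, mul_assoc, hvq]
    · rintro ⟨s, b⟩ ⟨t, b'⟩
      have key : ∀ A B : H →L[ℂ] H, star (W s * A) * (W t * B) =
          if s = t then star A * (e * B) else 0 := by
        intro A B
        rw [star_mul, mul_assoc, ← mul_assoc (star (W s)), hWW]
        by_cases hst : s = t
        · simp [hst]
        · simp [hst]
      have k1 : e * (star v * v) = star v * v := by rw [← mul_assoc, h4]
      cases b <;> cases b'
      · change star (W s * v) * (W t * v) = _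
        rw [key, hev]
        by_cases hst : s = t <;> simp [hst]
      · change star (W s * v) * (W t * (star v * v)) = _
        rw [key, k1, ← mul_assoc, hvs2, zero_mul]
        simp
      · change star (W s * (star v * v)) * (W t * v) = _
        rw [key, hev, star_mul, star_star, mul_assoc, hvv, mul_zero]
        simp
      · change star (W s * (star v * v)) * (W t * (star v * v)) = _
        rw [key, k1, star_mul, star_star, hvPI'']
        by_cases hst : s = t <;> simp [hst]
    · rw [Fintype.sum_prod_type]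
      rw [← hsum]
      refine Finset.sum_congr rfl (fun s _ => ?_)
      rw [Fintype.sum_bool]
      change W s * (star v * v) * star (W s * (star v * v)) + W s * v * star (W s * v) = _
      have e1 : W s * (star v * v) * star (W s * (star v * v)) =
          W s * (star v * v) * star (W s) := by
        rw [star_mul, star_mul, star_star, mul_assoc, ← mul_assoc (star v * v), hvPI'',
          ← mul_assoc]
      have e2 : W s * v * star (W s * v) = W s * (v * star v) * star (W s) := by
        rw [star_mul]
        simp only [mul_assoc]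
      rw [e1, e2, ← add_mul, ← mul_add, hsumv, hWe]

end Halv

/-- FRAME -/
theorem frames (M : VonNeumannAlgebra H)
    (hcont : ∀ p ∈ M, IsStarProjection p → p ≠ 0 →
      ∃ x ∈ M, ∃ y ∈ M, (p * x * p) * (p * y * p) ≠ (p * y * p) * (p * x * p))
    (q : H →L[ℂ] H) (hq : IsStarProjection q) (hqM : q ∈ M) (j : ℕ) :
    ∃ (W : Fin (2 ^ j) → (H →L[ℂ] H)) (e : H →L[ℂ] H), IsStarProjection e ∧
      (∀ s, W s ∈ M) ∧ (∀ s, q * W s = W s ∧ W s * q = W s) ∧
      (∀ s t, star (W s) * W t = if s = t then e else 0) ∧ ∑ s, W s * star (W s) = q := by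
  obtain ⟨ι, i1, i2, hcard, W, e, he, heM, hWM, hqW, hWW, hsum⟩ :=
    Halv.frames_aux M hcont q hq hqM j
  let f : ι ≃ Fin (2 ^ j) := Fintype.equivFinOfCardEq hcard
  refine ⟨fun s => W (f.symm s), e, he, fun s => hWM _, fun s => hqW _, fun s t => ?_, ?_⟩
  · rw [hWW]
    simp only [EmbeddingLike.apply_eq_iff_eq]
  · rw [← hsum]
    exact Equiv.sum_comp f.symm (fun s => W s * star (W s))

end Pool.Agent.Helper67.Inj
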