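import Pool.Agent.Helper67.Inj.Orb
import Pool.Agent.Helper67.Inj.Form

set_option autoImplicit false

open scoped InnerProductSpace ComplexOrder TensorProduct Topology

namespace Pool.Agent.Helper67.Inj

universe u

variable {H : Type u} [NormedAddCommGroup H] [InnerProductSpace ℂ H] [CompleteSpace H]

private lemma ind_cmp_apply (S : Submodule ℂ H) [S.HasOrthogonalProjection] (x : H →L[ℂ] H)
    (ξ : S) : cmp S x ξ = S.orthogonalProjectionOnto (x ξ) := rfl

private lemma ind_inner_cmp (S : Submodule ℂ H) [S.HasOrthogonalProjection] (x : H →L[ℂ] H)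
    (ξ η : S) : ⟪ξ, cmp S x η⟫_ℂ = ⟪(ξ : H), x (η : H)⟫_ℂ := by
  rw [ind_cmp_apply, ← Submodule.inner_orthogonalProjectionOnto_eq_of_mem_left]

private lemma ind_cmp_star (S : Submodule ℂ H) [CompleteSpace S] (x : H →L[ℂ] H) :
    star (cmp S x) = cmp S (star x) := by
  rw [ContinuousLinearMap.star_eq_adjoint]
  symm
  rw [ContinuousLinearMap.eq_adjoint_iff]
  intro ξ η
  rw [ind_inner_cmp, ← inner_conj_symm, ind_inner_cmp, inner_conj_symm,
    ContinuousLinearMap.star_eq_adjoint, ContinuousLinearMap.adjoint_inner_left]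

/-- the induced algebra as a commutant -/
private noncomputable def indAlg (N : VonNeumannAlgebra H) (Ω : H) :
    VonNeumannAlgebra (orb N Ω) where
  toStarSubalgebra := StarSubalgebra.centralizer ℂ
    {w : orb N Ω →L[ℂ] orb N Ω | ∃ x ∈ N.commutant, cmp (orb N Ω) x = w}
  centralizer_centralizer' := by
    change Set.centralizer (Set.centralizer ((StarSubalgebra.centralizer ℂ
      {w : orb N Ω →L[ℂ] orb N Ω | ∃ x ∈ N.commutant, cmp (orb N Ω) x = w} :
        StarSubalgebra ℂ (orb N Ω →L[ℂ] orb N Ω)) : Set (orb N Ω →L[ℂ] orb N Ω))) =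
      ((StarSubalgebra.centralizer ℂ
      {w : orb N Ω →L[ℂ] orb N Ω | ∃ x ∈ N.commutant, cmp (orb N Ω) x = w} :
        StarSubalgebra ℂ (orb N Ω →L[ℂ] orb N Ω)) : Set (orb N Ω →L[ℂ] orb N Ω))
    rw [StarSubalgebra.coe_centralizer, Set.centralizer_centralizer_centralizer]

private lemma mem_indAlg (N : VonNeumannAlgebra H) (Ω : H) (z : orb N Ω →L[ℂ] orb N Ω) :
    z ∈ indAlg N Ω ↔
      ∀ x ∈ N.commutant, z * cmp (orb N Ω) x = cmp (orb N Ω) x * z := by
  change z ∈ StarSubalgebra.centralizer ℂ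
    {w : orb N Ω →L[ℂ] orb N Ω | ∃ x ∈ N.commutant, cmp (orb N Ω) x = w} ↔ _
  rw [StarSubalgebra.mem_centralizer_iff]
  constructor
  · intro h x hx
    exact ((h _ ⟨x, hx, rfl⟩).1).symm
  · rintro h g ⟨x, hx, rfl⟩
    refine ⟨(h x hx).symm, ?_⟩
    rw [ind_cmp_star]
    exact (h (star x) (star_mem hx)).symm

private lemma induce_unitary (N : VonNeumannAlgebra H) (Ω : H) (sep : ∀ y ∈ N, y Ω = 0 → y = 0)
    (z : orb N Ω →L[ℂ] orb N Ω) (hu : star z * z = 1)
    (hz : ∀ x ∈ N.commutant, z * cmp (orb N Ω) x = cmp (orb N Ω) x * z) :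
    ∃ y ∈ N, cmp (orb N Ω) y = z := by
  have hzinner : ∀ a b : orb N Ω, ⟪z a, z b⟫_ℂ = ⟪a, b⟫_ℂ := by
    intro a b
    rw [← ContinuousLinearMap.adjoint_inner_right, ← ContinuousLinearMap.star_eq_adjoint]
    have := congrArg (fun T : orb N Ω →L[ℂ] orb N Ω => T b) hu
    simp only [mul_apply_eq_comp, one_apply_eq_self] at this
    rw [this]
  let F : (N.commutant →₀ orb N Ω) →ₗ[ℂ] H := Finsupp.lsum ℂ
    (fun x : N.commutant => ((x : H →L[ℂ] H) : H →ₗ[ℂ] H) ∘ₗ (orb N Ω).subtype)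
  let G : (N.commutant →₀ orb N Ω) →ₗ[ℂ] H := Finsupp.lsum ℂ
    (fun x : N.commutant => ((x : H →L[ℂ] H) : H →ₗ[ℂ] H) ∘ₗ (orb N Ω).subtype ∘ₗ
      (z : orb N Ω →ₗ[ℂ] orb N Ω))
  have hFapp : ∀ f, F f = ∑ x ∈ f.support, (x : H →L[ℂ] H) (f x : H) := by
    intro f
    simp only [F, Finsupp.lsum_apply, Finsupp.sum]
    rfl
  have hGapp : ∀ f, G f = ∑ x ∈ f.support, (x : H →L[ℂ] H) (z (f x) : H) := by
    intro f
    simp only [G, Finsupp.lsum_apply, Finsupp.sum]
    rfl
  have key : ∀ (x x' : H →L[ℂ] H), x ∈ N.commutant → x' ∈ N.commutant → ∀ a b : orb N Ω,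
      ⟪x (z a : H), x' (z b : H)⟫_ℂ = ⟪x (a : H), x' (b : H)⟫_ℂ := by
    intro x x' hx hx' a b
    have e1 : ∀ c d : orb N Ω, ⟪x (c : H), x' (d : H)⟫_ℂ =
        ⟪c, cmp (orb N Ω) (star x * x') d⟫_ℂ := by
      intro c d
      rw [ind_inner_cmp, mul_apply_eq_comp, ContinuousLinearMap.star_eq_adjoint,
        ContinuousLinearMap.adjoint_inner_right]
    rw [e1, e1]
    have hc := hz (star x * x') (mul_mem (star_mem hx) hx')
    have := congrArg (fun T : orb N Ω →L[ℂ] orb N Ω => T b) hc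
    simp only [mul_apply_eq_comp] at this
    rw [← this, hzinner]
  have hnorm : ∀ f, ‖G f‖ ≤ 1 * ‖F f‖ := by
    intro f
    have : ⟪G f, G f⟫_ℂ = ⟪F f, F f⟫_ℂ := by
      rw [hFapp, hGapp]
      simp only [sum_inner, inner_sum]
      refine Finset.sum_congr rfl fun x _ => Finset.sum_congr rfl fun x' _ => ?_
      exact key _ _ x'.2 x.2 _ _
    rw [one_mul]
    have h2 : ‖G f‖ ^ 2 = ‖F f‖ ^ 2 := by
      rw [inner_self_eq_norm_sq_to_K, inner_self_eq_norm_sq_to_K] at this
      exact_mod_cast this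
    exact (sq_le_sq₀ (norm_nonneg _) (norm_nonneg _)).1 h2.le
  have hFsingle : ∀ (x : N.commutant) (ξ : orb N Ω), F (Finsupp.single x ξ) =
      (x : H →L[ℂ] H) (ξ : H) := by
    intro x ξ
    simp only [F, Finsupp.lsum_single]
    rfl
  have hGsingle : ∀ (x : N.commutant) (ξ : orb N Ω), G (Finsupp.single x ξ) =
      (x : H →L[ℂ] H) (z ξ : H) := by
    intro x ξ
    simp only [G, Finsupp.lsum_single]
    rfl
  have hΩ : Ω ∈ orb N Ω := by
    have := mem_orb N Ω 1 (one_mem N)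
    simpa using this
  have hdense : DenseRange F := by
    have htop := orb_commutant_eq_top N Ω sep
    have hle : Submodule.map (ContinuousLinearMap.apply ℂ H Ω).toLinearMap
        (Subalgebra.toSubmodule N.commutant.toStarSubalgebra.toSubalgebra) ≤ LinearMap.range F := by
      rintro _ ⟨x, hx, rfl⟩
      exact ⟨Finsupp.single (⟨x, hx⟩ : N.commutant) ⟨Ω, hΩ⟩, hFsingle _ _⟩
    have h2 : (LinearMap.range F).topologicalClosure = ⊤ := by
      rw [eq_top_iff, ← htop]
      exact Submodule.topologicalClosure_mono hle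
    have h3 := (Submodule.dense_iff_topologicalClosure_eq_top).2 h2
    exact h3
  obtain ⟨T, -, hT⟩ := exists_operator_of_norm_le F G hdense 1 zero_le_one hnorm
  have hTs : ∀ x ∈ N.commutant, ∀ ξ : orb N Ω, T (x (ξ : H)) = x (z ξ : H) := by
    intro x hx ξ
    have := hT (Finsupp.single (⟨x, hx⟩ : N.commutant) ξ)
    rwa [hFsingle, hGsingle] at this
  refine ⟨T, ?_, ?_⟩
  · rw [← N.commutant_commutant, VonNeumannAlgebra.mem_commutant_iff]
    intro x hx
    have hcl : ∀ ζ : H, (x * T) ζ = (T * x) ζ := by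
      intro ζ
      have hc : IsClosed {ζ : H | (x * T) ζ = (T * x) ζ} :=
        isClosed_eq (x * T).continuous (T * x).continuous
      refine hdense.induction_on (p := fun ζ => (x * T) ζ = (T * x) ζ) ζ hc ?_
      intro f
      rw [mul_apply_eq_comp, mul_apply_eq_comp, hFapp, map_sum, map_sum, map_sum, map_sum]
      refine Finset.sum_congr rfl fun x' _ => ?_
      rw [hTs _ x'.2, ← mul_apply_eq_comp x, ← mul_apply_eq_comp x, hTs _ (mul_mem hx x'.2)]
    exact ContinuousLinearMap.ext hcl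
  · ext ξ
    have := hTs 1 (one_mem _) ξ
    rw [one_apply_eq_self, one_apply_eq_self] at this
    rw [ind_cmp_apply, this]
    simp

/-- INDUCE -/
theorem induce (N : VonNeumannAlgebra H) (Ω : H) (sep : ∀ y ∈ N, y Ω = 0 → y = 0)
    (z : orb N Ω →L[ℂ] orb N Ω)
    (hz : ∀ x ∈ N.commutant, z * cmp (orb N Ω) x = cmp (orb N Ω) x * z) :
    ∃ y ∈ N, cmp (orb N Ω) y = z := by
  set A := indAlg N Ω with hA
  have hcl : IsClosed (A.toStarSubalgebra : Set (orb N Ω →L[ℂ] orb N Ω)) := by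
    have : (A.toStarSubalgebra : Set (orb N Ω →L[ℂ] orb N Ω)) =
        Set.centralizer (Set.centralizer (A : Set (orb N Ω →L[ℂ] orb N Ω))) :=
      A.centralizer_centralizer.symm
    rw [this]
    have h2 : Set.centralizer (Set.centralizer (A : Set (orb N Ω →L[ℂ] orb N Ω))) =
        ⋂ a ∈ Set.centralizer (A : Set (orb N Ω →L[ℂ] orb N Ω)), ⋂ ξ : orb N Ω,
          {w : orb N Ω →L[ℂ] orb N Ω | a (w ξ) = w (a ξ)} := by
      ext w
      simp only [Set.mem_iInter, Set.mem_ofPred_eq]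
      rw [Set.mem_centralizer_iff]
      constructor
      · intro h a ha ξ
        have := congrArg (fun T : orb N Ω →L[ℂ] orb N Ω => T ξ) (h a ha)
        simpa only [mul_apply_eq_comp] using this
      · intro h a ha
        ext ξ
        rw [mul_apply_eq_comp, mul_apply_eq_comp, h a ha ξ]
    rw [h2]
    refine isClosed_biInter fun a _ => isClosed_iInter fun ξ => ?_
    exact isClosed_eq (a.continuous.comp (ContinuousLinearMap.apply ℂ (orb N Ω) ξ).continuous)
      (ContinuousLinearMap.apply ℂ (orb N Ω) (a ξ)).continuous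
  let _ := StarSubalgebra.cstarAlgebra A.toStarSubalgebra (h_closed := hcl)
  have hzA : z ∈ A := (mem_indAlg N Ω z).2 hz
  obtain ⟨u, c, huc, -⟩ := CStarAlgebra.exists_sum_four_unitary (⟨z, hzA⟩ : A.toStarSubalgebra)
  have hgood : ∀ i, ∃ y ∈ N, cmp (orb N Ω) y = ((u i : A.toStarSubalgebra) : orb N Ω →L[ℂ] orb N Ω) := by
    intro i
    apply induce_unitary N Ω sep
    · have := (Unitary.mem_iff.1 (u i).2).1
      exact congrArg Subtype.val this
    · exact (mem_indAlg N Ω _).1 (u i : A.toStarSubalgebra).2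
  choose y hyN hy using hgood
  refine ⟨∑ i, c i • y i, sum_mem fun i _ => ?_, ?_⟩
  · exact N.toStarSubalgebra.smul_mem (hyN i) (c i)
  · rw [map_sum]
    simp only [map_smul, hy]
    have := congrArg (Subtype.val) huc
    change z = _ at this
    rw [this]
    simp

/-- REDUCE -/
theorem exists_reduced (N : VonNeumannAlgebra H) (Ω : H) (sep : ∀ y ∈ N, y Ω = 0 → y = 0) :
    ∃ M : VonNeumannAlgebra (orb N Ω), ∀ z, z ∈ M ↔ ∃ y ∈ N, cmp (orb N Ω) y = z := by
  refine ⟨indAlg N Ω, fun z => ?_⟩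
  rw [mem_indAlg]
  constructor
  · intro h
    exact induce N Ω sep z h
  · rintro ⟨y, hy, rfl⟩ x hx
    have hpc := starProjection_orb_mem N Ω
    have hyx : y * x = x * y := VonNeumannAlgebra.mem_commutant_iff.1 hx y hy
    have hyp : y * (orb N Ω).starProjection = (orb N Ω).starProjection * y :=
      VonNeumannAlgebra.mem_commutant_iff.1 hpc y hy
    ext ξ
    rw [mul_apply_eq_comp, mul_apply_eq_comp, coe_cmp_orb N Ω y hy]
    rw [ind_cmp_apply, ind_cmp_apply]
    have e1 : ((cmp (orb N Ω) y ξ : orb N Ω) : H) = y ξ := coe_cmp_orb N Ω y hy ξ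
    rw [e1, Submodule.coe_orthogonalProjectionOnto_apply, Submodule.coe_orthogonalProjectionOnto_apply]
    have e2 := congrArg (fun T : H →L[ℂ] H => T (x ξ)) hyp
    have e3 := congrArg (fun T : H →L[ℂ] H => T (ξ : H)) hyx
    simp only [mul_apply_eq_comp] at e2 e3
    rw [e2, e3]

end Pool.Agent.Helper67.Inj
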