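import Pool.Agent.Helper67.Inj.Polar

set_option autoImplicit false

open scoped InnerProductSpace ComplexOrder TensorProduct Topology

namespace Pool.Agent.Helper67.Inj

universe u

variable {H : Type u} [NormedAddCommGroup H] [InnerProductSpace ℂ H] [CompleteSpace H]

/-- the functions `(t - k/n)_+` -/
noncomputable def specG (n k : ℕ) (t : ℝ) : ℝ := max (t - (k : ℝ) / n) 0

theorem specG_cont (n k : ℕ) : Continuous (specG n k) := by
  unfold specG; fun_prop

/-- if `0 ≤ f ≤ g` on the spectrum and `y g(h) = 0` then `y f(h) = 0` -/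
theorem spec_mul_zero (h : H →L[ℂ] H) (hs : IsSelfAdjoint h) (f g : ℝ → ℝ) (hf : Continuous f)
    (hg : Continuous g) (h0 : ∀ t ∈ spectrum ℝ h, 0 ≤ f t) (hfg : ∀ t ∈ spectrum ℝ h, f t ≤ g t)
    (y : H →L[ℂ] H) (hy : y * cfc g h = 0) : y * cfc f h = 0 := by
  have hsf : star (cfc f h) = cfc f h := (cfc_predicate f h : IsSelfAdjoint (cfc f h)).star_eq
  have hsg : star (cfc g h) = cfc g h := (cfc_predicate g h : IsSelfAdjoint (cfc g h)).star_eq
  have hy' : cfc g h * star y = 0 := by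
    have := congrArg star hy
    rwa [star_mul, star_zero, hsg] at this
  have hle : cfc (fun t => f t * f t) h ≤ cfc (fun t => g t * g t) h :=
    cfc_mono fun t ht => mul_self_le_mul_self (h0 t ht) (hfg t ht)
  have hff : cfc (fun t => f t * f t) h = cfc f h * cfc f h := cfc_mul f f h
  have hgg : cfc (fun t => g t * g t) h = cfc g h * cfc g h := cfc_mul g g h
  rw [hff, hgg] at hle
  have h2 : y * (cfc f h * cfc f h) * star y ≤ y * (cfc g h * cfc g h) * star y :=
    star_right_conjugate_le_conjugate hle y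
  have h3 : y * (cfc g h * cfc g h) * star y = 0 := by
    rw [mul_assoc, mul_assoc, hy', mul_zero, mul_zero]
  have h4 : y * (cfc f h * cfc f h) * star y = (y * cfc f h) * star (y * cfc f h) := by
    rw [star_mul, hsf]; simp only [mul_assoc]
  rw [h3, h4] at h2
  have h5 : (y * cfc f h) * star (y * cfc f h) = 0 :=
    le_antisymm h2 (mul_star_self_nonneg _)
  exact (CStarRing.mul_star_self_eq_zero_iff _).1 h5

/-- SPEC -/
theorem spec_approx (M : VonNeumannAlgebra H) (h : H →L[ℂ] H) (hM : h ∈ M) (h0 : 0 ≤ h)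
    (h1 : ‖h‖ ≤ 1) (n : ℕ) (hn : 0 < n) :
    ∃ e : Fin n → (H →L[ℂ] H), (∀ k, e k ∈ M ∧ IsStarProjection (e k) ∧
      (∀ y : H →L[ℂ] H, y * h = 0 → y * e k = 0)) ∧
      ‖h - ((n : ℂ)⁻¹) • ∑ k, e k‖ ≤ (n : ℝ)⁻¹ := by
  have hnR : (0 : ℝ) < n := by exact_mod_cast hn
  have hinv : (0 : ℝ) ≤ (n : ℝ)⁻¹ := (inv_pos.2 hnR).le
  have hs : IsSelfAdjoint h := IsSelfAdjoint.of_nonneg h0
  have hsp0 : ∀ t ∈ spectrum ℝ h, 0 ≤ t := fun t ht => spectrum_nonneg_of_nonneg h0 ht
  have hsp1 : ∀ t ∈ spectrum ℝ h, t ≤ 1 := fun t ht => by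
    have h2 := spectrum.norm_le_norm_mul_of_mem ht
    have h3 : ‖(1 : H →L[ℂ] H)‖ ≤ 1 := ContinuousLinearMap.norm_id_le
    have h4 : t ≤ ‖t‖ := le_abs_self t
    have h5 : ‖h‖ * ‖(1 : H →L[ℂ] H)‖ ≤ 1 * 1 :=
      mul_le_mul h1 h3 (norm_nonneg _) zero_le_one
    linarith
  -- the spectral pieces
  let X : ℕ → (H →L[ℂ] H) := fun k => cfc (specG n k) h
  have hXM : ∀ k, X k ∈ M := fun k => cfc_mem M _ h hM
  have hXs : ∀ k, star (X k) = X k := fun k =>
    (cfc_predicate (specG n k) h : IsSelfAdjoint _).star_eq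
  have hX0 : X 0 = h := by
    have h2 : cfc (specG n 0) h = cfc (id : ℝ → ℝ) h := by
      refine cfc_congr fun t ht => ?_
      simp only [specG, Nat.cast_zero, zero_div, sub_zero, id]
      exact max_eq_left (hsp0 t ht)
    exact h2.trans (cfc_id ℝ h)
  have hXn : X n = 0 := by
    have h2 : cfc (specG n n) h = cfc (fun _ : ℝ => (0 : ℝ)) h := by
      refine cfc_congr fun t ht => ?_
      simp only [specG]
      rw [div_self hnR.ne']
      exact max_eq_right (by linarith [hsp1 t ht])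
    exact h2.trans (by simp)
  choose E hEM hEp hEX hEy using fun k => exists_rangeProj M (X k) (hXM k)
  have hEs : ∀ k, star (E k) = E k := fun k => (hEp k).isSelfAdjoint.star_eq
  have hEE : ∀ k, E k * E k = E k := fun k => (hEp k).isIdempotentElem
  -- the differences
  let f : ℕ → ℝ → ℝ := fun k t => specG n k t - specG n (k + 1) t
  have hfc : ∀ k, Continuous (f k) := fun k => (specG_cont n k).sub (specG_cont n (k + 1))
  have hf0 : ∀ k t, 0 ≤ f k t := fun k t => by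
    simp only [f, specG]
    have h2 : (k : ℝ) / n ≤ ((k + 1 : ℕ) : ℝ) / n := by
      apply div_le_div_of_nonneg_right _ hnR.le
      push_cast; linarith
    have h3 := max_le_max (show t - ((k + 1 : ℕ) : ℝ) / n ≤ t - (k : ℝ) / n by linarith)
      (le_refl (0 : ℝ))
    linarith
  have hf1 : ∀ k t, f k t ≤ (n : ℝ)⁻¹ := fun k t => by
    simp only [f, specG]
    have h2 : ((k + 1 : ℕ) : ℝ) / n = (k : ℝ) / n + (n : ℝ)⁻¹ := by
      push_cast; field_simp
    rw [h2]
    have h3 : t - (k : ℝ) / n ≤ max (t - ((k : ℝ) / n + (n : ℝ)⁻¹)) 0 + (n : ℝ)⁻¹ := by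
      have := le_max_left (t - ((k : ℝ) / n + (n : ℝ)⁻¹)) 0
      linarith
    have h4 : (0 : ℝ) ≤ max (t - ((k : ℝ) / n + (n : ℝ)⁻¹)) 0 + (n : ℝ)⁻¹ := by
      have := le_max_right (t - ((k : ℝ) / n + (n : ℝ)⁻¹)) 0
      linarith
    have h5 := max_le h3 h4
    linarith
  have hfG : ∀ k t, f k t ≤ specG n k t := fun k t => by
    simp only [f]
    have : 0 ≤ specG n (k + 1) t := le_max_right _ _
    linarith
  have hFX : ∀ k, cfc (f k) h = X k - X (k + 1) := fun k =>
    cfc_sub (specG n k) (specG n (k + 1)) h (specG_cont n k).continuousOn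
      (specG_cont n (k + 1)).continuousOn
  -- upper estimate
  have hup : ∀ k, cfc (f k) h ≤ (n : ℝ)⁻¹ • E k := fun k => by
    have h2 : (1 - E k) * cfc (f k) h = 0 := by
      refine spec_mul_zero h hs (f k) (specG n k) (hfc k) (specG_cont n k)
        (fun t _ => hf0 k t) (fun t _ => hfG k t) (1 - E k) ?_
      have h3 : E k * cfc (specG n k) h = cfc (specG n k) h := hEX k
      rw [sub_mul, one_mul, h3, sub_self]
    have h3 : E k * cfc (f k) h = cfc (f k) h := by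
      rw [sub_mul, one_mul, sub_eq_zero] at h2
      exact h2.symm
    have h4 : cfc (f k) h * E k = cfc (f k) h := by
      have := congrArg star h3
      rwa [star_mul, hEs, (cfc_predicate (f k) h : IsSelfAdjoint _).star_eq] at this
    have h5 : cfc (f k) h ≤ algebraMap ℝ (H →L[ℂ] H) (n : ℝ)⁻¹ := by
      refine (cfc_mono (g := fun _ => (n : ℝ)⁻¹) (fun t _ => hf1 k t) (hfc k).continuousOn
        continuousOn_const).trans (le_of_eq (cfc_const _ h))
    have h6 := star_left_conjugate_le_conjugate h5 (E k)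
    rw [hEs, mul_assoc, h4, h3] at h6
    refine h6.trans (le_of_eq ?_)
    rw [Algebra.algebraMap_eq_smul_one, mul_smul_comm, mul_one, smul_mul_assoc, hEE]
  -- lower estimate
  have hlow : ∀ k, (n : ℝ)⁻¹ • E (k + 1) ≤ cfc (f k) h := fun k => by
    have h2 : (cfc (f k) h - algebraMap ℝ (H →L[ℂ] H) (n : ℝ)⁻¹) * X (k + 1) = 0 := by
      rw [sub_mul, sub_eq_zero]
      have h3 : cfc (f k) h * X (k + 1) = cfc (fun t => f k t * specG n (k + 1) t) h :=
        (cfc_mul (f k) (specG n (k + 1)) h (hfc k).continuousOn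
          (specG_cont n (k + 1)).continuousOn).symm
      have h4 : algebraMap ℝ (H →L[ℂ] H) (n : ℝ)⁻¹ * X (k + 1)
          = cfc (fun t => (n : ℝ)⁻¹ * specG n (k + 1) t) h := by
        rw [cfc_const_mul _ _ _ (specG_cont n (k + 1)).continuousOn,
          Algebra.algebraMap_eq_smul_one, smul_mul_assoc, one_mul]
      rw [h3, h4]
      refine cfc_congr fun t _ => ?_
      simp only [f, specG]
      have h5 : ((k + 1 : ℕ) : ℝ) / n = (k : ℝ) / n + (n : ℝ)⁻¹ := by
        push_cast; field_simp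
      rw [h5]
      rcases le_total (t - ((k : ℝ) / n + (n : ℝ)⁻¹)) 0 with h6 | h6
      · rw [max_eq_right h6, mul_zero, mul_zero]
      · rw [max_eq_left h6, max_eq_left (by linarith)]
        ring
    have h3 : (cfc (f k) h - algebraMap ℝ (H →L[ℂ] H) (n : ℝ)⁻¹) * E (k + 1) = 0 :=
      hEy (k + 1) _ h2
    have h4 : cfc (f k) h * E (k + 1) = (n : ℝ)⁻¹ • E (k + 1) := by
      rw [sub_mul, sub_eq_zero] at h3
      rw [h3, Algebra.algebraMap_eq_smul_one, smul_mul_assoc, one_mul]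
    have h5 : E (k + 1) * cfc (f k) h = (n : ℝ)⁻¹ • E (k + 1) := by
      have := congrArg star h4
      rwa [star_mul, hEs, (cfc_predicate (f k) h : IsSelfAdjoint _).star_eq, star_smul, hEs,
        star_trivial] at this
    have h6 : 0 ≤ star (1 - E (k + 1)) * cfc (f k) h * (1 - E (k + 1)) :=
      star_left_conjugate_nonneg (cfc_nonneg fun t _ => hf0 k t) _
    have h7 : star (1 - E (k + 1)) * cfc (f k) h * (1 - E (k + 1))
        = cfc (f k) h - (n : ℝ)⁻¹ • E (k + 1) := by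
      rw [star_sub, star_one, hEs, sub_mul, one_mul, h5, mul_sub, mul_one, sub_mul, h4,
        smul_mul_assoc, hEE, sub_self, sub_zero]
    rw [h7] at h6
    exact sub_nonneg.1 h6
  have hFsum : ∑ k ∈ Finset.range n, cfc (f k) h = h := by
    have h2 : ∑ k ∈ Finset.range n, cfc (f k) h = ∑ k ∈ Finset.range n, (X k - X (k + 1)) :=
      Finset.sum_congr rfl fun k _ => hFX k
    rw [h2, Finset.sum_range_sub', hX0, hXn, sub_zero]
  have hupper : h ≤ (n : ℝ)⁻¹ • ∑ k ∈ Finset.range n, E k := by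
    calc h = ∑ k ∈ Finset.range n, cfc (f k) h := hFsum.symm
      _ ≤ ∑ k ∈ Finset.range n, (n : ℝ)⁻¹ • E k := Finset.sum_le_sum fun k _ => hup k
      _ = (n : ℝ)⁻¹ • ∑ k ∈ Finset.range n, E k := by rw [Finset.smul_sum]
  have hlower : (n : ℝ)⁻¹ • ∑ k ∈ Finset.range n, E k - (n : ℝ)⁻¹ • E 0 ≤ h := by
    obtain ⟨m, rfl⟩ : ∃ m, n = m + 1 := ⟨n - 1, by omega⟩
    have h2 : (((m + 1 : ℕ) : ℝ))⁻¹ • ∑ k ∈ Finset.range (m + 1), E k
        - (((m + 1 : ℕ) : ℝ))⁻¹ • E 0
        = ∑ k ∈ Finset.range m, (((m + 1 : ℕ) : ℝ))⁻¹ • E (k + 1) := by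
      rw [Finset.sum_range_succ', smul_add, add_sub_cancel_right, Finset.smul_sum]
    rw [h2]
    calc ∑ k ∈ Finset.range m, (((m + 1 : ℕ) : ℝ))⁻¹ • E (k + 1)
        ≤ ∑ k ∈ Finset.range m, cfc (f k) h := Finset.sum_le_sum fun k _ => hlow k
      _ ≤ ∑ k ∈ Finset.range m, cfc (f k) h + cfc (f m) h :=
          le_add_of_nonneg_right (cfc_nonneg fun t _ => hf0 m t)
      _ = ∑ k ∈ Finset.range (m + 1), cfc (f k) h := (Finset.sum_range_succ _ _).symm
      _ = h := hFsum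
  refine ⟨fun k => E k, fun k => ⟨hEM k, hEp k, fun y hy => ?_⟩, ?_⟩
  · refine hEy k y ?_
    refine spec_mul_zero h hs (specG n k) (id : ℝ → ℝ) (specG_cont n k) continuous_id
      (fun t _ => le_max_right _ _) (fun t ht => ?_) y (by rw [cfc_id ℝ h]; exact hy)
    simp only [specG, id]
    have h2 : (0 : ℝ) ≤ ((k : ℕ) : ℝ) / n := by positivity
    exact max_le (by linarith) (hsp0 t ht)
  · have hsum : ∑ k : Fin n, E k = ∑ k ∈ Finset.range n, E k := Fin.sum_univ_eq_sum_range E n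
    have hsm : ((n : ℂ)⁻¹) • ∑ k : Fin n, E k = (n : ℝ)⁻¹ • ∑ k ∈ Finset.range n, E k := by
      rw [hsum]
      have : ((n : ℂ)⁻¹) = (((n : ℝ)⁻¹ : ℝ) : ℂ) := by push_cast; rfl
      rw [this]
      exact Complex.coe_smul _ _
    rw [hsm, norm_sub_rev]
    have ha : 0 ≤ (n : ℝ)⁻¹ • ∑ k ∈ Finset.range n, E k - h := sub_nonneg.2 hupper
    have hb : (n : ℝ)⁻¹ • ∑ k ∈ Finset.range n, E k - h ≤ (n : ℝ)⁻¹ • E 0 := by
      have := hlower
      rw [sub_le_iff_le_add] at this ⊢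
      rw [add_comm]; exact this
    have hc : ‖(n : ℝ)⁻¹ • ∑ k ∈ Finset.range n, E k - h‖ ≤ ‖(n : ℝ)⁻¹ • E 0‖ :=
      CStarAlgebra.norm_le_norm_of_nonneg_of_le ha hb
    refine hc.trans ?_
    rw [norm_smul, Real.norm_of_nonneg hinv]
    have hd : ‖E 0‖ ≤ 1 := (hEp 0).norm_le
    calc (n : ℝ)⁻¹ * ‖E 0‖ ≤ (n : ℝ)⁻¹ * 1 := mul_le_mul_of_nonneg_left hd hinv
      _ = (n : ℝ)⁻¹ := mul_one _

end Pool.Agent.Helper67.Inj
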