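import Pool.Agent.Helper67.Inj.Chain
import Pool.Agent.Helper67.Inj.Spec

set_option autoImplicit false

open scoped InnerProductSpace ComplexOrder TensorProduct Topology

namespace Pool.Agent.Helper67.Inj

universe u

variable {H : Type u} [NormedAddCommGroup H] [InnerProductSpace ℂ H] [CompleteSpace H]

namespace NearTrAux

theorem normSq_eq (u : H →L[ℂ] H) (ξ : H) : ‖u ξ‖ ^ 2 = (⟪ξ, (star u * u) ξ⟫_ℂ).re := by
  rw [ContinuousLinearMap.star_eq_adjoint]
  exact ContinuousLinearMap.apply_norm_sq_eq_inner_adjoint_right u ξ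

theorem normSq_congr {u v : H →L[ℂ] H} (h : star u * u = star v * v) (ξ : H) :
    ‖u ξ‖ ^ 2 = ‖v ξ‖ ^ 2 := by
  rw [normSq_eq, normSq_eq, h]

/-- the central projection -/
theorem central (M : VonNeumannAlgebra H) (r s : H →L[ℂ] H) (hr : r ∈ M)
    (hsa : star s = s) (hrs : ∀ x ∈ M, s * x * r = 0) :
    ∃ z ∈ M, IsStarProjection z ∧ (∀ x ∈ M, x * z = z * x) ∧ z * r = r ∧ z * s = 0 := by
  set G : Set H := {v | ∃ x ∈ M, ∃ ξ, v = x (r ξ)} with hG
  set S : Submodule ℂ H := (Submodule.span ℂ G).topologicalClosure with hS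
  have hSc : IsClosed (S : Set H) := Submodule.isClosed_topologicalClosure _
  have : CompleteSpace S := hSc.completeSpace_coe
  have hgen : ∀ v ∈ G, v ∈ S := fun v hv =>
    Submodule.le_topologicalClosure _ (Submodule.subset_span hv)
  have hinv : ∀ T : H →L[ℂ] H, (∀ v ∈ G, T v ∈ S) → ∀ v ∈ S, T v ∈ S := by
    intro T hT
    have h1 : S ≤ S.comap (T : H →ₗ[ℂ] H) := by
      refine Submodule.topologicalClosure_minimal _ ?_ ?_
      · rw [Submodule.span_le]
        exact hT
      · exact hSc.preimage T.continuous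
    exact fun v hv => h1 hv
  have hrange : (S.starProjection : H →L[ℂ] H).range = S := Submodule.range_starProjection S
  have hz : IsStarProjection (S.starProjection : H →L[ℂ] H) := isStarProjection_starProjection
  have hzM : S.starProjection ∈ M := by
    rw [VonNeumannAlgebra.IsStarProjection.mem_iff hz]
    intro y hy
    rw [hrange]
    refine hinv y ?_
    rintro _ ⟨x, hx, ξ, rfl⟩
    rw [VonNeumannAlgebra.mem_commutant_iff] at hy
    refine hgen _ ⟨x, hx, y ξ, ?_⟩
    have h1 := hy x hx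
    have h2 := hy r hr
    have h3 : y (x (r ξ)) = x (y (r ξ)) := by
      have := congrArg (fun T : H →L[ℂ] H => T (r ξ)) h1
      exact this.symm
    have h4 : y (r ξ) = r (y ξ) := by
      have := congrArg (fun T : H →L[ℂ] H => T ξ) h2
      exact this.symm
    rw [h3, h4]
  have hzM' : S.starProjection ∈ M.commutant := by
    rw [VonNeumannAlgebra.IsStarProjection.mem_iff hz, VonNeumannAlgebra.commutant_commutant]
    intro y hy
    rw [hrange]
    refine hinv y ?_
    rintro _ ⟨x, hx, ξ, rfl⟩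
    exact hgen _ ⟨y * x, mul_mem hy hx, ξ, rfl⟩
  have hsz : s * S.starProjection = 0 := by
    have h1 : S ≤ (LinearMap.ker (s : H →ₗ[ℂ] H)) := by
      refine Submodule.topologicalClosure_minimal _ ?_ ?_
      · rw [Submodule.span_le]
        rintro _ ⟨x, hx, ξ, rfl⟩
        have := congrArg (fun T : H →L[ℂ] H => T ξ) (hrs x hx)
        exact this
      · exact ContinuousLinearMap.isClosed_ker s
    ext ξ
    exact h1 (Submodule.starProjection_apply_mem S ξ)
  refine ⟨S.starProjection, hzM, hz, ?_, ?_, ?_⟩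
  · intro x hx
    exact (VonNeumannAlgebra.mem_commutant_iff.1 hzM') x hx
  · ext ξ
    exact Submodule.starProjection_eq_self_iff.2 (hgen _ ⟨1, one_mem M, ξ, rfl⟩)
  · have := congrArg star hsz
    rw [star_mul, star_zero, hsa, hz.isSelfAdjoint.star_eq] at this
    exact this

/-- the family of partial isometries used in the maximality arguments -/
def Fam (M : VonNeumannAlgebra H) (e f : H →L[ℂ] H) (Ω : H) (a b : ℝ) (v : H →L[ℂ] H) : Prop :=
  v ∈ M ∧ IsPI v ∧ f * v = v ∧ v * e = v ∧ 0 ≤ a * ‖v Ω‖ ^ 2 + b * ‖star v Ω‖ ^ 2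

theorem ext_trans {u v w : H →L[ℂ] H} (hv : IsPI v) (hw : IsPI w)
    (h1 : w * (star v * v) = v) (h2 : u * (star w * w) = w) : u * (star v * v) = v := by
  have h3 := (ext_pi v w hv hw h1).2.2.2.1
  have h4 : star v * w = star v * v := by
    rw [mul_sub, sub_eq_zero] at h3
    exact h3
  have h5 : star w * v = star v * v := by
    have := congrArg star h4
    rwa [star_mul, star_mul, star_star] at this
  calc u * (star v * v) = u * (star w * v) := by rw [h5]
    _ = u * (star w * (w * (star v * v))) := by rw [h1]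
    _ = u * (star w * w) * (star v * v) := by simp only [mul_assoc]
    _ = w * (star v * v) := by rw [h2]
    _ = v := h1

theorem exists_max (M : VonNeumannAlgebra H) (e f : H →L[ℂ] H) (Ω : H) (a b : ℝ) :
    ∃ m, Fam M e f Ω a b m ∧ ∀ w, Fam M e f Ω a b w → w * (star m * m) = m →
      m * (star w * w) = w := by
  have h0 : Fam M e f Ω a b 0 := by
    refine ⟨zero_mem M, ?_, ?_, ?_, ?_⟩
    · unfold IsPI; simp
    · simp
    · simp
    · simp
  let r : {v // Fam M e f Ω a b v} → {v // Fam M e f Ω a b v} → Prop :=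
    fun v w => w.1 * (star v.1 * v.1) = v.1
  have hchain : ∀ c : Set {v // Fam M e f Ω a b v}, IsChain r c → ∃ ub, ∀ x ∈ c, r x ub := by
    intro c hc
    by_cases hne : c.Nonempty
    swap
    · rw [Set.not_nonempty_iff_eq_empty] at hne
      exact ⟨⟨0, h0⟩, fun x hx => by rw [hne] at hx; exact absurd hx (Set.notMem_empty _)⟩
    obtain ⟨V, hVM, hVPI, hV, hlim⟩ := chain_sup M (Subtype.val '' c) (hne.image _)
      (by rintro _ ⟨v, -, rfl⟩; exact ⟨v.2.1, v.2.2.1⟩)
      (by
        rintro _ ⟨v, hv, rfl⟩ _ ⟨w, hw, rfl⟩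
        by_cases hvw : v = w
        · left
          rw [← hvw]
          have := v.2.2.1
          unfold IsPI at this
          rw [← mul_assoc]
          exact this
        · exact hc hv hw hvw)
    have hfV : f * V = V := by
      ext ξ
      have h1 : ∀ ε > 0, ‖(f * V) ξ - V ξ‖ ≤ (‖f‖ + 1) * ε := by
        intro ε hε
        obtain ⟨_, ⟨v, hv, rfl⟩, h2, -⟩ := hlim ξ ξ ε hε
        have h3 : (f * V) ξ - V ξ = f (V ξ - v.1 ξ) - (V ξ - v.1 ξ) := by
          have h4 : f (v.1 ξ) = v.1 ξ := congrArg (fun T : H →L[ℂ] H => T ξ) v.2.2.2.1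
          rw [map_sub, h4]
          simp only [mul_apply_eq_comp]
          abel
        rw [h3]
        calc ‖f (V ξ - v.1 ξ) - (V ξ - v.1 ξ)‖ ≤ ‖f (V ξ - v.1 ξ)‖ + ‖V ξ - v.1 ξ‖ := norm_sub_le _ _
          _ ≤ ‖f‖ * ‖V ξ - v.1 ξ‖ + ‖V ξ - v.1 ξ‖ := by gcongr; exact f.le_opNorm _
          _ = (‖f‖ + 1) * ‖V ξ - v.1 ξ‖ := by ring
          _ ≤ (‖f‖ + 1) * ε := by gcongr
      have h5 : ‖(f * V) ξ - V ξ‖ ≤ 0 := by
        refine le_of_forall_pos_le_add fun δ hδ => ?_
        have h6 := h1 (δ / (‖f‖ + 1)) (by positivity)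
        rw [mul_div_cancel₀ _ (by positivity)] at h6
        linarith
      rw [← sub_eq_zero, ← norm_le_zero_iff]
      exact h5
    have hVe : V * e = V := by
      have h7 : star e * star V = star V := by
        ext ξ
        have h1 : ∀ ε > 0, ‖(star e * star V) ξ - star V ξ‖ ≤ (‖star e‖ + 1) * ε := by
          intro ε hε
          obtain ⟨_, ⟨v, hv, rfl⟩, -, h2⟩ := hlim ξ ξ ε hε
          have h3 : (star e * star V) ξ - star V ξ
              = star e (star V ξ - star v.1 ξ) - (star V ξ - star v.1 ξ) := by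
            have h4 : star e (star v.1 ξ) = star v.1 ξ := by
              have h8 := congrArg star v.2.2.2.2.1
              rw [star_mul] at h8
              exact congrArg (fun T : H →L[ℂ] H => T ξ) h8
            rw [map_sub, h4]
            simp only [mul_apply_eq_comp]
            abel
          rw [h3]
          calc ‖star e (star V ξ - star v.1 ξ) - (star V ξ - star v.1 ξ)‖
              ≤ ‖star e (star V ξ - star v.1 ξ)‖ + ‖star V ξ - star v.1 ξ‖ := norm_sub_le _ _
            _ ≤ ‖star e‖ * ‖star V ξ - star v.1 ξ‖ + ‖star V ξ - star v.1 ξ‖ := by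
                gcongr; exact (star e).le_opNorm _
            _ = (‖star e‖ + 1) * ‖star V ξ - star v.1 ξ‖ := by ring
            _ ≤ (‖star e‖ + 1) * ε := by gcongr
        have h5 : ‖(star e * star V) ξ - star V ξ‖ ≤ 0 := by
          refine le_of_forall_pos_le_add fun δ hδ => ?_
          have h6 := h1 (δ / (‖star e‖ + 1)) (by positivity)
          rw [mul_div_cancel₀ _ (by positivity)] at h6
          linarith
        rw [← sub_eq_zero, ← norm_le_zero_iff]
        exact h5
      have h8 := congrArg star h7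
      rwa [star_mul, star_star, star_star] at h8
    have hQ : 0 ≤ a * ‖V Ω‖ ^ 2 + b * ‖star V Ω‖ ^ 2 := by
      choose! g hg1 hg2 hg3 using fun (n : ℕ) => hlim Ω Ω (1 / ((n : ℝ) + 1)) (by positivity)
      have t1 : Filter.Tendsto (fun n => (g n) Ω) Filter.atTop (𝓝 (V Ω)) := by
        rw [tendsto_iff_norm_sub_tendsto_zero]
        refine squeeze_zero (fun _ => norm_nonneg _) (fun n => ?_)
          tendsto_one_div_add_atTop_nhds_zero_nat
        rw [norm_sub_rev]
        exact (hg2 n).le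
      have t2 : Filter.Tendsto (fun n => (star (g n)) Ω) Filter.atTop (𝓝 (star V Ω)) := by
        rw [tendsto_iff_norm_sub_tendsto_zero]
        refine squeeze_zero (fun _ => norm_nonneg _) (fun n => ?_)
          tendsto_one_div_add_atTop_nhds_zero_nat
        rw [norm_sub_rev]
        exact (hg3 n).le
      have t3 : Filter.Tendsto (fun n => a * ‖(g n) Ω‖ ^ 2 + b * ‖(star (g n)) Ω‖ ^ 2)
          Filter.atTop (𝓝 (a * ‖V Ω‖ ^ 2 + b * ‖star V Ω‖ ^ 2)) :=
        ((t1.norm.pow 2).const_mul a).add ((t2.norm.pow 2).const_mul b)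
      refine ge_of_tendsto' t3 fun n => ?_
      obtain ⟨v, -, hv⟩ := hg1 n
      rw [← hv]
      exact v.2.2.2.2.2
    refine ⟨⟨V, hVM, hVPI, hfV, hVe, hQ⟩, fun x hx => hV x.1 ⟨x, hx, rfl⟩⟩
  obtain ⟨m, hm⟩ := exists_maximal_of_chains_bounded hchain
    (fun {u v w} h1 h2 => ext_trans u.2.2.1 v.2.2.1 h1 h2)
  exact ⟨m.1, m.2, fun w hw hmw => hm ⟨w, hw⟩ hmw⟩

/-- maximal partial isometries with an inequality -/
theorem exists_max' (M : VonNeumannAlgebra H) (e f : H →L[ℂ] H) (Ω : H) (a b : ℝ)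
    (he : IsStarProjection e) (hf : IsStarProjection f) :
    ∃ m, Fam M e f Ω a b m ∧ ∀ w ∈ M, IsPI w → (f - m * star m) * w = w →
      w * (e - star m * m) = w → 0 ≤ a * ‖w Ω‖ ^ 2 + b * ‖star w Ω‖ ^ 2 → w = 0 := by
  obtain ⟨m, hm, hmax⟩ := exists_max M e f Ω a b
  refine ⟨m, hm, ?_⟩
  intro w hwM hwPI hsw hwr hQ
  obtain ⟨hmM, hmPI, hfm, hme, hmQ⟩ := hm
  have hmPI' : m * star m * m = m := hmPI
  have hes : star e = e := he.isSelfAdjoint.star_eq
  have hfs : star f = f := hf.isSelfAdjoint.star_eq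
  have hsm : (f - m * star m) * m = 0 := by
    rw [sub_mul, hfm, hmPI', sub_self]
  have hmr : m * (e - star m * m) = 0 := by
    rw [mul_sub, hme, ← mul_assoc, hmPI', sub_self]
  have hms : star m * (f - m * star m) = 0 := by
    have := congrArg star hsm
    rwa [star_mul, star_sub, hfs, star_mul, star_star, star_zero] at this
  have hrm : (e - star m * m) * star m = 0 := by
    have := congrArg star hmr
    rwa [star_mul, star_sub, hes, star_mul, star_star, star_zero] at this
  have h1 : star m * w = 0 := by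
    rw [← hsw, ← mul_assoc, hms, zero_mul]
  have h2 : w * star m = 0 := by
    rw [← hwr, mul_assoc, hrm, mul_zero]
  have h1' : star w * m = 0 := by
    have := congrArg star h1
    rwa [star_mul, star_star, star_zero] at this
  have h2' : m * star w = 0 := by
    have := congrArg star h2
    rwa [star_mul, star_star, star_zero] at this
  have hwPI' : w * star w * w = w := hwPI
  have hfw : f * w = w := by
    have h3 : f * (f - m * star m) = f - m * star m := by
      rw [mul_sub, hf.isIdempotentElem.eq, ← mul_assoc, hfm]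
    rw [← hsw, ← mul_assoc, h3]
  have hwe : w * e = w := by
    have h3 : (e - star m * m) * e = e - star m * m := by
      rw [sub_mul, he.isIdempotentElem.eq, mul_assoc, hme]
    rw [← hwr, mul_assoc, h3]
  have hss : star (m + w) * (m + w) = star m * m + star w * w := by
    rw [star_add, add_mul, mul_add, mul_add, h1, h1', add_zero, zero_add]
  have hss' : star (star (m + w)) * star (m + w) = m * star m + w * star w := by
    rw [star_star, star_add, add_mul, mul_add, mul_add, h2, h2', add_zero, zero_add]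
  have hnew : Fam M e f Ω a b (m + w) := by
    refine ⟨add_mem hmM hwM, ?_, ?_, ?_, ?_⟩
    · unfold IsPI
      rw [mul_assoc, hss, add_mul, mul_add, mul_add, ← mul_assoc, ← mul_assoc, ← mul_assoc,
        ← mul_assoc, hmPI', hwPI', h2, h2', zero_mul, zero_mul, add_zero, zero_add]
    · rw [mul_add, hfm, hfw]
    · rw [add_mul, hme, hwe]
    · rw [normSq_eq (m + w), normSq_eq (star (m + w)), hss, hss']
      rw [normSq_eq m, normSq_eq (star m), star_star] at hmQ
      rw [normSq_eq w, normSq_eq (star w), star_star] at hQ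
      simp only [add_apply, inner_add_right, Complex.add_re]
      linarith
  have hext : (m + w) * (star m * m) = m := by
    rw [add_mul, ← mul_assoc, ← mul_assoc, hmPI', h2, zero_mul, add_zero]
  have h4 := hmax (m + w) hnew hext
  have h5 := congrArg (fun T => (f - m * star m) * T) h4
  rw [← mul_assoc, hsm, zero_mul, mul_add, hsm, hsw, zero_add] at h5
  exact h5.symm

theorem mul_proj {v g : H →L[ℂ] H} (hg : IsStarProjection g) (h : star v * v = g) : v * g = v := by
  have hgs : star g = g := hg.isSelfAdjoint.star_eq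
  have hgg : g * g = g := hg.isIdempotentElem.eq
  have h1 : star (v - v * g) * (v - v * g) = 0 := by
    rw [star_sub, star_mul, hgs, sub_mul, mul_sub, mul_sub]
    have h2 : star v * (v * g) = g := by rw [← mul_assoc, h, hgg]
    have h3 : g * star v * v = g := by rw [mul_assoc, h, hgg]
    have h4 : g * star v * (v * g) = g := by rw [← mul_assoc, h3, hgg]
    rw [h, h2, h3, h4]
    simp
  have h5 := (CStarRing.star_mul_self_eq_zero_iff _).1 h1
  exact (sub_eq_zero.1 h5).symm

theorem pi_of_proj {v g : H →L[ℂ] H} (hg : IsStarProjection g) (h : star v * v = g) : IsPI v := by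
  unfold IsPI
  rw [mul_assoc, h, mul_proj hg h]

/-- finiteness in corners -/
theorem fin0 (M : VonNeumannAlgebra H) (hfin : ∀ v ∈ M, star v * v = 1 → v * star v = 1)
    {v g : H →L[ℂ] H} (hv : v ∈ M) (hgM : g ∈ M) (hg : IsStarProjection g)
    (h1 : star v * v = g) (h2 : g * v = v) : v * star v = g := by
  have hgs : star g = g := hg.isSelfAdjoint.star_eq
  have hgg : g * g = g := hg.isIdempotentElem.eq
  have h3 : v * g = v := mul_proj hg h1
  have h2' : star v * g = star v := by
    have := congrArg star h2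
    rwa [star_mul, hgs] at this
  have h3' : g * star v = star v := by
    have := congrArg star h3
    rwa [star_mul, hgs] at this
  have k1 : (star v + (1 - g)) * (v + (1 - g)) = star v * v + (star v - star v * g) + (v - g * v)
      + (1 - g - (g - g * g)) := by noncomm_ring
  have k2 : (v + (1 - g)) * (star v + (1 - g)) = v * star v + (v - v * g) + (star v - g * star v)
      + (1 - g - (g - g * g)) := by noncomm_ring
  have h4 := hfin (v + (1 - g)) (add_mem hv (sub_mem (one_mem M) hgM)) (by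
    rw [star_add, star_sub, star_one, hgs, k1, h1, h2, h2', hgg]
    abel)
  rw [star_add, star_sub, star_one, hgs, k2, h3, h3', hgg] at h4
  have h5 : v * star v = (v * star v + (v - v) + (star v - star v) + (1 - g - (g - g)))
      - (1 - g) := by abel
  rw [h5, h4]
  abel

/-- comparison -/
theorem cmpr (M : VonNeumannAlgebra H) (hfin : ∀ v ∈ M, star v * v = 1 → v * star v = 1)
    {e f w V : H →L[ℂ] H} (heM : e ∈ M) (hfM : f ∈ M) (he : IsStarProjection e)
    (hf : IsStarProjection f) (hw : w ∈ M) (hwe : star w * w = e) (hwf : w * star w = f)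
    (hV : V ∈ M) (hfV : f * V = V) (hVe : V * e = V)
    (h0 : ∀ x ∈ M, (f - V * star V) * x * (e - star V * V) = 0) :
    e - star V * V = 0 ∧ f - V * star V = 0 := by
  have hes : star e = e := he.isSelfAdjoint.star_eq
  have hfs : star f = f := hf.isSelfAdjoint.star_eq
  have hee : e * e = e := he.isIdempotentElem.eq
  have hff : f * f = f := hf.isIdempotentElem.eq
  have hwe' : w * e = w := mul_proj he hwe
  have hwf' : star w * f = star w := mul_proj hf (by rw [star_star]; exact hwf)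
  have hfw : f * w = w := by
    have := congrArg star hwf'
    rwa [star_mul, star_star, hfs] at this
  have hew : e * star w = star w := by
    have := congrArg star hwe'
    rwa [star_mul, hes] at this
  have hVf' : star V * f = star V := by
    have := congrArg star hfV
    rwa [star_mul, hfs] at this
  have heV' : e * star V = star V := by
    have := congrArg star hVe
    rwa [star_mul, hes] at this
  set r := e - star V * V with hr
  set s := f - V * star V with hs
  have hrM : r ∈ M := sub_mem heM (mul_mem (star_mem hV) hV)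
  have hsM : s ∈ M := sub_mem hfM (mul_mem hV (star_mem hV))
  have hss : star s = s := by rw [hs, star_sub, hfs, star_mul, star_star]
  obtain ⟨z, hzM, hz, hzc, hzr, hzs⟩ := central M r s hrM hss h0
  have hzz : z * z = z := hz.isIdempotentElem.eq
  have hzst : star z = z := hz.isSelfAdjoint.star_eq
  -- V₁ = w* V
  obtain ⟨V₁, hV₁⟩ : ∃ V₁, V₁ = star w * V := ⟨_, rfl⟩
  have hV₁M : V₁ ∈ M := by rw [hV₁]; exact mul_mem (star_mem hw) hV
  have hV₁i : star V₁ * V₁ = e - r := by
    rw [hV₁, star_mul, star_star, mul_assoc, ← mul_assoc w, hwf, hfV, hr]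
    abel
  have hV₁f : V₁ * star V₁ = e - star w * s * w := by
    rw [hV₁, star_mul, star_star, mul_assoc, ← mul_assoc V]
    have : V * star V = f - s := by rw [hs]; abel
    rw [this, sub_mul, mul_sub, hfw, hwe, mul_assoc]
  have heV₁ : V₁ * e = V₁ := by rw [hV₁, mul_assoc, hVe]
  have heV₁s : e * star V₁ = star V₁ := by
    have := congrArg star heV₁
    rwa [star_mul, hes] at this
  have heV₁' : e * V₁ = V₁ := by rw [hV₁, ← mul_assoc, hew]
  have hzeM : z * e ∈ M := mul_mem hzM heM
  have hze : IsStarProjection (z * e) := by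
    refine ⟨?_, ?_⟩
    · change z * e * (z * e) = z * e
      rw [mul_assoc, ← mul_assoc e, hzc e heM, mul_assoc, hee, ← mul_assoc, hzz]
    · change star (z * e) = z * e
      rw [star_mul, hes, hzst, hzc e heM]
  have hzV : z * (V₁ * star V₁) = z * e := by
    rw [hV₁f, mul_sub]
    have : z * (star w * s * w) = 0 := by
      rw [← mul_assoc, ← mul_assoc, ← hzc (star w) (star_mem hw), mul_assoc (star w), hzs, mul_zero,
        zero_mul]
    rw [this, sub_zero]
  obtain ⟨v', hv'⟩ : ∃ v', v' = z * star V₁ := ⟨_, rfl⟩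
  have hv's : star v' = V₁ * z := by rw [hv', star_mul, star_star, hzst]
  have hu : v' * star v' = z * e - r := by
    rw [hv's, hv', mul_assoc, ← mul_assoc (star V₁), hV₁i, sub_mul, mul_sub, hzc e heM,
      ← mul_assoc, hzz, hzc r hrM, ← mul_assoc, hzz, hzr]
  have hu' : star v' * v' = z * e := by
    rw [hv's, hv', mul_assoc, ← mul_assoc z, hzz, ← mul_assoc, hzc V₁ hV₁M, mul_assoc, hzV]
  have hr0 : r = 0 := by
    have h6 := fin0 M hfin (v := v') (g := z * e) (by rw [hv']; exact mul_mem hzM (star_mem hV₁M))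
      hzeM hze hu' (by
        rw [hv', mul_assoc, ← mul_assoc e, hzc e heM, mul_assoc, heV₁s, ← mul_assoc, hzz])
    rw [hu] at h6
    have h7 : r = z * e - (z * e - r) := by abel
    rw [h7, h6, sub_self]
  refine ⟨hr0, ?_⟩
  have h8 := fin0 M hfin (v := V₁) (g := e) hV₁M heM he (by rw [hV₁i, hr0, sub_zero]) heV₁'
  rw [hV₁f] at h8
  have h9 : star w * s * w = 0 := by
    have : star w * s * w = e - (e - star w * s * w) := by abel
    rw [this, h8, sub_self]
  have h10 : s = f * s * f := by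
    rw [hs, mul_sub, sub_mul, hff, hff, ← mul_assoc, hfV, mul_assoc, hVf']
  rw [h10, ← hwf]
  calc w * star w * s * (w * star w) = w * (star w * s * w) * star w := by simp only [mul_assoc]
    _ = 0 := by rw [h9, mul_zero, zero_mul]

theorem proj_i {e m : H →L[ℂ] H} (he : IsStarProjection e) (hm : IsPI m) (hme : m * e = m) :
    IsStarProjection (e - star m * m) := by
  have hes : star e = e := he.isSelfAdjoint.star_eq
  have hee : e * e = e := he.isIdempotentElem.eq
  have hm' : m * star m * m = m := hm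
  have hem : e * star m = star m := by
    have := congrArg star hme
    rwa [star_mul, hes] at this
  refine ⟨?_, ?_⟩
  · change (e - star m * m) * (e - star m * m) = e - star m * m
    rw [sub_mul, mul_sub, mul_sub, hee, ← mul_assoc e, hem, mul_assoc (star m) m e, hme,
      mul_assoc (star m) m (star m * m), ← mul_assoc m, hm', sub_self, sub_zero]
  · change star (e - star m * m) = e - star m * m
    rw [star_sub, hes, star_mul, star_star]

theorem pi_star {m : H →L[ℂ] H} (hm : IsPI m) : IsPI (star m) := by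
  have hm' : m * star m * m = m := hm
  have := congrArg star hm'
  rw [star_mul, star_mul, star_star, ← mul_assoc] at this
  unfold IsPI
  rw [star_star]
  exact this

theorem proj_f {f m : H →L[ℂ] H} (hf : IsStarProjection f) (hm : IsPI m) (hfm : f * m = m) :
    IsStarProjection (f - m * star m) := by
  have h1 := proj_i hf (pi_star hm) (by
    have := congrArg star hfm
    rwa [star_mul, hf.isSelfAdjoint.star_eq] at this)
  rwa [star_star] at h1

theorem proj_ini {m : H →L[ℂ] H} (hm : IsPI m) : IsStarProjection (star m * m) := by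
  have hm' : m * star m * m = m := hm
  refine ⟨?_, ?_⟩
  · change star m * m * (star m * m) = star m * m
    rw [mul_assoc, ← mul_assoc m, hm']
  · change star (star m * m) = star m * m
    rw [star_mul, star_star]

theorem proj_fin {m : H →L[ℂ] H} (hm : IsPI m) : IsStarProjection (m * star m) := by
  have := proj_ini (pi_star hm)
  rwa [star_star] at this

/-- extension from partial isometries to all elements -/
theorem step3 (M : VonNeumannAlgebra H) {q : H →L[ℂ] H} (hq : IsStarProjection q)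
    (Ω : H) (κ : ℝ) (hκ : 0 ≤ κ)
    (hPI : ∀ u ∈ M, IsPI u → q * u = u → u * q = u → ‖star u Ω‖ ^ 2 ≤ κ * ‖u Ω‖ ^ 2)
    (x : H →L[ℂ] H) (hx : x ∈ M) (hqx : q * x = x) (hxq : x * q = x) :
    ‖star x Ω‖ ^ 2 ≤ κ * ‖x Ω‖ ^ 2 := by
  have hqs : star q = q := hq.isSelfAdjoint.star_eq
  -- norm at most one
  have key : ∀ x ∈ M, q * x = x → x * q = x → ‖x‖ ≤ 1 → ‖star x Ω‖ ^ 2 ≤ κ * ‖x Ω‖ ^ 2 := by
    intro x hx hqx hxq hx1
    obtain ⟨v, hvM, hvPI, hva, hker⟩ := polar M x hx
    set a := CFC.sqrt (star x * x) with ha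
    have hpos : 0 ≤ star x * x := star_mul_self_nonneg x
    have haa : a * a = star x * x := CFC.sqrt_mul_sqrt_self _ hpos
    have has : star a = a := (CFC.sqrt_nonneg (star x * x)).isSelfAdjoint.star_eq
    have hvPI' : v * star v * v = v := hvPI
    -- v*v a = a
    have hvva : star v * v * a = a := by
      have h1 : star (a - star v * v * a) * (a - star v * v * a) = 0 := by
        have h2 : a * (star v * v * a) = star x * x := by
          have : star x = a * star v := by
            have := congrArg star hva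
            rw [star_mul, has] at this
            exact this.symm
          calc a * (star v * v * a) = a * star v * (v * a) := by simp only [mul_assoc]
            _ = star x * x := by rw [← this, hva]
        have h3 : a * (star v * v) * (star v * v * a) = star x * x := by
          rw [← h2]
          calc a * (star v * v) * (star v * v * a) = a * (star v * (v * star v * v) * a) := by
                simp only [mul_assoc]
            _ = a * (star v * v * a) := by rw [hvPI']
        rw [star_sub, star_mul, star_mul, star_star, has, sub_mul, mul_sub, mul_sub, haa, h2, h3,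
          mul_assoc a, h2]
        simp
      have h4 := (CStarRing.star_mul_self_eq_zero_iff _).1 h1
      exact (sub_eq_zero.1 h4).symm
    have hvh : star v * v * (star x * x) = star x * x := by
      rw [← haa, ← mul_assoc, hvva]
    have hxx : x * star x = v * (star x * x) * star v := by
      have : star x = a * star v := by
        have := congrArg star hva
        rw [star_mul, has] at this
        exact this.symm
      rw [← haa]
      calc x * star x = (v * a) * (a * star v) := by rw [hva, ← this]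
        _ = v * (a * a) * star v := by simp only [mul_assoc]
    have hmain : ∀ n : ℕ, 0 < n → ‖star x Ω‖ ^ 2 ≤
        κ * ‖x Ω‖ ^ 2 + (κ * ‖Ω‖ ^ 2 + ‖star v Ω‖ ^ 2) * (n : ℝ)⁻¹ := by
      intro n hn
      obtain ⟨e, he, hle⟩ := spec_approx M (star x * x) (mul_mem (star_mem hx) hx) hpos (by
        rw [CStarRing.norm_star_mul_self]
        nlinarith [norm_nonneg x]) n hn
      set A := ((n : ℂ)⁻¹) • ∑ k, e k with hA
      have hdiff : ∀ η : H, |(⟪η, (star x * x) η⟫_ℂ).re - (⟪η, A η⟫_ℂ).re| ≤ ‖η‖ ^ 2 * (n : ℝ)⁻¹ := by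
        intro η
        rw [← Complex.sub_re, ← inner_sub_right]
        have h5 : (star x * x) η - A η = (star x * x - A) η := rfl
        rw [h5]
        calc |(⟪η, (star x * x - A) η⟫_ℂ).re| ≤ ‖⟪η, (star x * x - A) η⟫_ℂ‖ := Complex.abs_re_le_norm _
          _ ≤ ‖η‖ * ‖(star x * x - A) η‖ := norm_inner_le_norm _ _
          _ ≤ ‖η‖ * (‖star x * x - A‖ * ‖η‖) := by
              gcongr; exact ContinuousLinearMap.le_opNorm _ _
          _ ≤ ‖η‖ * ((n : ℝ)⁻¹ * ‖η‖) := by gcongr
          _ = ‖η‖ ^ 2 * (n : ℝ)⁻¹ := by ring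
      have hAη : ∀ η : H, (⟪η, A η⟫_ℂ).re = (n : ℝ)⁻¹ * ∑ k, (⟪η, e k η⟫_ℂ).re := by
        intro η
        have h6 : A η = ((n : ℂ)⁻¹) • ∑ k, e k η := by
          rw [hA]
          simp
        rw [h6, inner_smul_right, inner_sum]
        have h7 : ((n : ℂ)⁻¹) = (((n : ℝ)⁻¹ : ℝ) : ℂ) := by push_cast; rfl
        rw [h7, Complex.re_ofReal_mul, Complex.re_sum]
      have hek : ∀ k, (⟪star v Ω, e k (star v Ω)⟫_ℂ).re ≤ κ * (⟪Ω, e k Ω⟫_ℂ).re := by
        intro k
        obtain ⟨hekM, hekP, heky⟩ := he k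
        have hes : star (e k) = e k := hekP.isSelfAdjoint.star_eq
        have hee : e k * e k = e k := hekP.isIdempotentElem.eq
        have h8 : star v * v * e k = e k := by
          have := heky (1 - star v * v) (by rw [sub_mul, one_mul, hvh, sub_self])
          rw [sub_mul, one_mul, sub_eq_zero] at this
          exact this.symm
        have h9 : q * e k = e k := by
          have := heky (1 - q) (by
            have h10 : q * star x = star x := by
              have := congrArg star hxq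
              rwa [star_mul, hqs] at this
            rw [sub_mul, one_mul, ← mul_assoc, h10, sub_self])
          rw [sub_mul, one_mul, sub_eq_zero] at this
          exact this.symm
        have h9' : e k * q = e k := by
          have := congrArg star h9
          rwa [star_mul, hes, hqs] at this
        have h10 : q * v * e k = v * e k := by
          have := heky ((1 - q) * v) (by
            have h11 : v * (star x * x) = x * a := by
              rw [← haa, ← mul_assoc, hva]
            rw [mul_assoc, h11, ← mul_assoc, sub_mul, one_mul, hqx, sub_self, zero_mul])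
          rw [sub_mul, one_mul, sub_mul, sub_eq_zero] at this
          exact this.symm
        have hPIk : IsPI (v * e k) := by
          unfold IsPI
          rw [star_mul, hes]
          calc v * e k * (e k * star v) * (v * e k) = v * (e k * e k) * (star v * v * e k) := by
                simp only [mul_assoc]
            _ = v * e k := by rw [h8, hee, mul_assoc, hee]
        have h12 := hPI (v * e k) (mul_mem hvM hekM) hPIk (by rw [← mul_assoc, h10])
          (by rw [mul_assoc, h9'])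
        have h13 : ‖star (v * e k) Ω‖ ^ 2 = (⟪star v Ω, e k (star v Ω)⟫_ℂ).re := by
          rw [star_mul, hes]
          have h14 : (e k * star v) Ω = e k (star v Ω) := rfl
          rw [h14, normSq_eq, hes, hee]
        have h15 : ‖(v * e k) Ω‖ ^ 2 = (⟪Ω, e k Ω⟫_ℂ).re := by
          rw [normSq_eq, star_mul, hes]
          have : e k * star v * (v * e k) = e k := by
            calc e k * star v * (v * e k) = e k * (star v * v * e k) := by simp only [mul_assoc]
              _ = e k := by rw [h8, hee]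
          rw [this]
        rw [← h13, ← h15]
        exact h12
      have h16 : ‖star x Ω‖ ^ 2 = (⟪star v Ω, (star x * x) (star v Ω)⟫_ℂ).re := by
        rw [normSq_eq, star_star, hxx]
        have : (v * (star x * x) * star v) Ω = v ((star x * x) (star v Ω)) := rfl
        rw [this, ContinuousLinearMap.star_eq_adjoint v, ContinuousLinearMap.adjoint_inner_left]
      have h17 : ‖x Ω‖ ^ 2 = (⟪Ω, (star x * x) Ω⟫_ℂ).re := normSq_eq x Ω
      have h18 := (abs_le.1 (hdiff (star v Ω))).2
      have h19 := (abs_le.1 (hdiff Ω)).1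
      have h20 : (⟪star v Ω, A (star v Ω)⟫_ℂ).re ≤ κ * (⟪Ω, A Ω⟫_ℂ).re := by
        rw [hAη, hAη]
        calc (n : ℝ)⁻¹ * ∑ k, (⟪star v Ω, e k (star v Ω)⟫_ℂ).re
            ≤ (n : ℝ)⁻¹ * ∑ k, κ * (⟪Ω, e k Ω⟫_ℂ).re := by
              gcongr with k _
              exact hek k
          _ = κ * ((n : ℝ)⁻¹ * ∑ k, (⟪Ω, e k Ω⟫_ℂ).re) := by
              rw [← Finset.mul_sum]; ring
      have h21 : κ * (⟪Ω, A Ω⟫_ℂ).re ≤ κ * (‖x Ω‖ ^ 2 + ‖Ω‖ ^ 2 * (n : ℝ)⁻¹) := by
        refine mul_le_mul_of_nonneg_left ?_ hκ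
        rw [h17]
        linarith
      rw [h16]
      nlinarith
    have hlim : Filter.Tendsto (fun n : ℕ => κ * ‖x Ω‖ ^ 2 +
        (κ * ‖Ω‖ ^ 2 + ‖star v Ω‖ ^ 2) * (n : ℝ)⁻¹) Filter.atTop (𝓝 (κ * ‖x Ω‖ ^ 2 +
        (κ * ‖Ω‖ ^ 2 + ‖star v Ω‖ ^ 2) * 0)) :=
      (tendsto_inv_atTop_nhds_zero_nat.const_mul _).const_add _
    rw [mul_zero, add_zero] at hlim
    refine ge_of_tendsto hlim ?_
    filter_upwards [Filter.eventually_gt_atTop 0] with n hn
    exact hmain n hn
  by_cases hx0 : x = 0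
  · rw [hx0]
    simp
  have hn : 0 < ‖x‖ := norm_pos_iff.2 hx0
  have h1 := key ((‖x‖⁻¹ : ℝ) • x) ?_ ?_ ?_ ?_
  · rw [star_smul] at h1
    simp only [star_trivial] at h1
    have e1 : ((‖x‖⁻¹ : ℝ) • star x) Ω = (‖x‖⁻¹ : ℝ) • (star x Ω) := rfl
    have e2 : ((‖x‖⁻¹ : ℝ) • x) Ω = (‖x‖⁻¹ : ℝ) • (x Ω) := rfl
    rw [e1, e2, norm_smul, norm_smul, mul_pow, mul_pow] at h1
    have h2 : 0 < ‖(‖x‖⁻¹ : ℝ)‖ ^ 2 := pow_pos (norm_pos_iff.2 (inv_ne_zero hn.ne')) 2
    have h3 : ‖(‖x‖⁻¹ : ℝ)‖ ^ 2 * ‖star x Ω‖ ^ 2 ≤ ‖(‖x‖⁻¹ : ℝ)‖ ^ 2 * (κ * ‖x Ω‖ ^ 2) := by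
      linarith
    exact le_of_mul_le_mul_left h3 h2
  · have : ((‖x‖⁻¹ : ℝ) • x) = (((‖x‖⁻¹ : ℝ) : ℂ)) • x := (Complex.coe_smul _ _).symm
    rw [this]
    exact M.toStarSubalgebra.smul_mem hx _
  · rw [mul_smul_comm, hqx]
  · rw [smul_mul_assoc, hxq]
  · rw [norm_smul, norm_inv, norm_norm, inv_mul_cancel₀ hn.ne']

end NearTrAux

open NearTrAux in
/-- NEARTR -/
theorem near_trace (M : VonNeumannAlgebra H)
    (hfin : ∀ v ∈ M, star v * v = 1 → v * star v = 1) (p : H →L[ℂ] H)
    (hp : IsStarProjection p) (hpM : p ∈ M) (hp0 : p ≠ 0) (Ω : H) (hpΩ : p Ω = Ω)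
    (hsep : ∀ y ∈ M, p * y = y → y * p = y → y Ω = 0 → y = 0) (κ : ℝ) (hκ : 1 < κ) :
    ∃ q ∈ M, IsStarProjection q ∧ q ≠ 0 ∧ p * q = q ∧
      ∀ x ∈ M, q * x = x → x * q = x → ‖star x Ω‖ ^ 2 ≤ κ * ‖x Ω‖ ^ 2 := by
  have hps : star p = p := hp.isSelfAdjoint.star_eq
  have hpp : p * p = p := hp.isIdempotentElem.eq
  have hκ0 : 0 < κ := by linarith
  have hΩ0 : Ω ≠ 0 := by
    intro h
    exact hp0 (hsep p hpM hpp hpp (by rw [h, map_zero]))
  -- step 1
  obtain ⟨V, ⟨hVM, hVPI, hpV, hVp, hVQ⟩, hVmax⟩ := exists_max' M p p Ω 1 (-2) hp hp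
  have hr := proj_i hp hVPI hVp
  have hs := proj_f hp hVPI hpV
  obtain ⟨r, hrdef⟩ : ∃ r, r = p - star V * V := ⟨_, rfl⟩
  obtain ⟨s, hsdef⟩ : ∃ s, s = p - V * star V := ⟨_, rfl⟩
  rw [← hrdef] at hr hVmax
  rw [← hsdef] at hs hVmax
  have hrM : r ∈ M := by rw [hrdef]; exact sub_mem hpM (mul_mem (star_mem hVM) hVM)
  have hsM : s ∈ M := by rw [hsdef]; exact sub_mem hpM (mul_mem hVM (star_mem hVM))
  have hne : ∃ x ∈ M, s * x * r ≠ 0 := by
    by_contra hcon
    push Not at hcon
    obtain ⟨h1, h2⟩ := cmpr M hfin hpM hpM hp hp hpM (by rw [hps, hpp]) (by rw [hps, hpp]) hVM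
      hpV hVp (by rw [← hrdef, ← hsdef]; exact hcon)
    have h3 : star V * V = p := (sub_eq_zero.1 h1).symm
    have h4 : V * star V = p := (sub_eq_zero.1 h2).symm
    have h5 : (⟪Ω, p Ω⟫_ℂ).re = ‖Ω‖ ^ 2 := by
      rw [hpΩ, inner_self_eq_norm_sq_to_K]
      norm_cast
    rw [normSq_eq V, normSq_eq (star V), star_star, h3, h4, h5] at hVQ
    have h6 : 0 < ‖Ω‖ ^ 2 := pow_pos (norm_pos_iff.2 hΩ0) 2
    linarith
  obtain ⟨x, hxM, hx0⟩ := hne
  obtain ⟨w₀, hw₀M, hw₀0, hw₀PI, hsw₀, hw₀r⟩ := exists_pi M (s * x * r) r s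
    (mul_mem (mul_mem hsM hxM) hrM) hx0 hr hs hrM hsM (by
      calc s * (s * x * r) * r = (s * s) * x * (r * r) := by simp only [mul_assoc]
        _ = s * x * r := by rw [hs.isIdempotentElem.eq, hr.isIdempotentElem.eq])
  have hps' : p * s = s := by
    rw [hsdef, mul_sub, hpp, ← mul_assoc, hpV]
  have hrp' : r * p = r := by
    rw [hrdef, sub_mul, hpp, mul_assoc, hVp]
  have hcorner : ∀ v : H →L[ℂ] H, s * v = v → v * r = v → p * v = v ∧ v * p = v := by
    intro v h1 h2
    exact ⟨by rw [← h1, ← mul_assoc, hps'], by rw [← h2, mul_assoc, hrp']⟩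
  have hstar0 : ∀ v ∈ M, s * v = v → v * r = v → v ≠ 0 → 0 < ‖star v Ω‖ ^ 2 := by
    intro v hv h1 h2 h3
    refine pow_pos (norm_pos_iff.2 fun h4 => h3 ?_) 2
    obtain ⟨h5, h6⟩ := hcorner v h1 h2
    have h7 := hsep (star v) (star_mem hv) (by
      have := congrArg star h6
      rwa [star_mul, hps] at this) (by
      have := congrArg star h5
      rwa [star_mul, hps] at this) h4
    rw [← star_star v, h7, star_zero]
  have hv0 : ∀ v ∈ M, s * v = v → v * r = v → v ≠ 0 → 0 < ‖v Ω‖ ^ 2 := by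
    intro v hv h1 h2 h3
    obtain ⟨h5, h6⟩ := hcorner v h1 h2
    exact pow_pos (norm_pos_iff.2 fun h4 => h3 (hsep v hv h5 h6 h4)) 2
  have hlt2 : ∀ v ∈ M, IsPI v → s * v = v → v * r = v → v ≠ 0 →
      ‖v Ω‖ ^ 2 < 2 * ‖star v Ω‖ ^ 2 := by
    intro v hv hvPI h1 h2 h3
    by_contra hcon
    push Not at hcon
    exact h3 (hVmax v hv hvPI h1 h2 (by linarith))
  -- the supremum
  have hw₀PI' : w₀ * star w₀ * w₀ = w₀ := hw₀PI
  have hsf₀ : s * (w₀ * star w₀) = w₀ * star w₀ := by rw [← mul_assoc, hsw₀]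
  have he₀r : star w₀ * w₀ * r = star w₀ * w₀ := by rw [mul_assoc, hw₀r]
  let T : Set ℝ := {t | ∃ v ∈ M, IsPI v ∧ w₀ * star w₀ * v = v ∧ v * (star w₀ * w₀) = v ∧ v ≠ 0 ∧
    t = ‖v Ω‖ ^ 2 / ‖star v Ω‖ ^ 2}
  have hsub : ∀ v, w₀ * star w₀ * v = v → v * (star w₀ * w₀) = v → s * v = v ∧ v * r = v := by
    intro v h1 h2
    exact ⟨by rw [← h1, ← mul_assoc, hsf₀], by rw [← h2, mul_assoc, he₀r]⟩
  have hTbdd : BddAbove T := by
    refine ⟨2, ?_⟩
    rintro t ⟨v, hv, hvPI, h1, h2, h3, rfl⟩
    obtain ⟨h4, h5⟩ := hsub v h1 h2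
    rw [div_le_iff₀ (hstar0 v hv h4 h5 h3)]
    exact (hlt2 v hv hvPI h4 h5 h3).le
  have hT0 : ‖w₀ Ω‖ ^ 2 / ‖star w₀ Ω‖ ^ 2 ∈ T :=
    ⟨w₀, hw₀M, hw₀PI, hw₀PI', by rw [← mul_assoc]; exact hw₀PI', hw₀0, rfl⟩
  obtain ⟨μ, hμ⟩ : ∃ μ, μ = sSup T := ⟨_, rfl⟩
  have hμ0 : 0 < μ := by
    rw [hμ]
    exact lt_of_lt_of_le (div_pos (hv0 w₀ hw₀M hsw₀ hw₀r hw₀0) (hstar0 w₀ hw₀M hsw₀ hw₀r hw₀0))
      (le_csSup hTbdd hT0)
  have hμκ : μ / κ < μ := by
    rw [div_lt_iff₀ hκ0]
    nlinarith
  obtain ⟨t, ⟨w₁, hw₁M, hw₁PI, h1f, h1e, hw₁0, rfl⟩, ht⟩ := exists_lt_of_lt_csSup ⟨_, hT0⟩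
    (show μ / κ < sSup T by rw [← hμ]; exact hμκ)
  obtain ⟨hsw₁, hw₁r⟩ := hsub w₁ h1f h1e
  have ht' : μ / κ * ‖star w₁ Ω‖ ^ 2 < ‖w₁ Ω‖ ^ 2 := by
    rwa [lt_div_iff₀ (hstar0 w₁ hw₁M hsw₁ hw₁r hw₁0)] at ht
  have hw₁PI' : w₁ * star w₁ * w₁ = w₁ := hw₁PI
  -- step 2
  have he₁ := proj_ini hw₁PI
  have hf₁ := proj_fin hw₁PI
  have he₁M : star w₁ * w₁ ∈ M := mul_mem (star_mem hw₁M) hw₁M
  have hf₁M : w₁ * star w₁ ∈ M := mul_mem hw₁M (star_mem hw₁M)
  obtain ⟨V₂, ⟨hV₂M, hV₂PI, hfV₂, hV₂e, hV₂Q⟩, hV₂max⟩ :=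
    exists_max' M (star w₁ * w₁) (w₁ * star w₁) Ω (-1) (μ / κ) he₁ hf₁
  have hr₂ := proj_i he₁ hV₂PI hV₂e
  have hs₂ := proj_f hf₁ hV₂PI hfV₂
  obtain ⟨r₂, hr₂def⟩ : ∃ r₂, r₂ = star w₁ * w₁ - star V₂ * V₂ := ⟨_, rfl⟩
  obtain ⟨s₂, hs₂def⟩ : ∃ s₂, s₂ = w₁ * star w₁ - V₂ * star V₂ := ⟨_, rfl⟩
  rw [← hr₂def] at hr₂ hV₂max
  rw [← hs₂def] at hs₂ hV₂max
  have hr₂M : r₂ ∈ M := by rw [hr₂def]; exact sub_mem he₁M (mul_mem (star_mem hV₂M) hV₂M)
  have hs₂M : s₂ ∈ M := by rw [hs₂def]; exact sub_mem hf₁M (mul_mem hV₂M (star_mem hV₂M))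
  have hne₂ : ∃ x ∈ M, s₂ * x * r₂ ≠ 0 := by
    by_contra hcon
    push Not at hcon
    obtain ⟨h1, h2⟩ := cmpr M hfin he₁M hf₁M he₁ hf₁ hw₁M rfl rfl hV₂M
      hfV₂ hV₂e (by rw [← hr₂def, ← hs₂def]; exact hcon)
    have h3 : star V₂ * V₂ = star w₁ * w₁ := (sub_eq_zero.1 h1).symm
    have h4 : star (star V₂) * star V₂ = star (star w₁) * star w₁ := by
      rw [star_star, star_star]
      exact (sub_eq_zero.1 h2).symm
    rw [normSq_congr h3, normSq_congr h4] at hV₂Q
    linarith
  obtain ⟨x₂, hx₂M, hx₂0⟩ := hne₂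
  obtain ⟨w₂, hw₂M, hw₂0, hw₂PI, hsw₂, hw₂r⟩ := exists_pi M (s₂ * x₂ * r₂) r₂ s₂
    (mul_mem (mul_mem hs₂M hx₂M) hr₂M) hx₂0 hr₂ hs₂ hr₂M hs₂M (by
      calc s₂ * (s₂ * x₂ * r₂) * r₂ = (s₂ * s₂) * x₂ * (r₂ * r₂) := by simp only [mul_assoc]
        _ = s₂ * x₂ * r₂ := by rw [hs₂.isIdempotentElem.eq, hr₂.isIdempotentElem.eq])
  have hw₂PI' : w₂ * star w₂ * w₂ = w₂ := hw₂PI
  -- w₂ lies in all the corners
  have hf₁w₂ : w₁ * star w₁ * w₂ = w₂ := by
    have : w₁ * star w₁ * s₂ = s₂ := by
      rw [hs₂def, mul_sub, hf₁.isIdempotentElem.eq, ← mul_assoc, hfV₂]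
    rw [← hsw₂, ← mul_assoc, this]
  have hw₂e₁ : w₂ * (star w₁ * w₁) = w₂ := by
    have : r₂ * (star w₁ * w₁) = r₂ := by
      rw [hr₂def, sub_mul, he₁.isIdempotentElem.eq, mul_assoc (star V₂), hV₂e]
    rw [← hw₂r, mul_assoc, this]
  have hf₀w₂ : w₀ * star w₀ * w₂ = w₂ := by
    rw [← hf₁w₂]
    calc w₀ * star w₀ * (w₁ * star w₁ * w₂) = (w₀ * star w₀ * w₁) * star w₁ * w₂ := by
          simp only [mul_assoc]
      _ = w₁ * star w₁ * w₂ := by rw [h1f]
  have hw₂e₀ : w₂ * (star w₀ * w₀) = w₂ := by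
    have h5 : star w₁ * w₁ * (star w₀ * w₀) = star w₁ * w₁ := by rw [mul_assoc, h1e]
    rw [← hw₂e₁, mul_assoc, h5]
  -- the two inequalities
  have hin : ∀ v : H →L[ℂ] H, w₂ * star w₂ * v = v → v * (star w₂ * w₂) = v →
      (w₀ * star w₀ * v = v ∧ v * (star w₀ * w₀) = v) ∧ (s₂ * v = v ∧ v * r₂ = v) := by
    intro v h1 h2
    refine ⟨⟨?_, ?_⟩, ?_, ?_⟩
    · rw [← h1]
      calc w₀ * star w₀ * (w₂ * star w₂ * v) = (w₀ * star w₀ * w₂) * star w₂ * v := by
            simp only [mul_assoc]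
        _ = w₂ * star w₂ * v := by rw [hf₀w₂]
    · rw [← h2]
      calc v * (star w₂ * w₂) * (star w₀ * w₀) = v * (star w₂ * (w₂ * (star w₀ * w₀))) := by
            simp only [mul_assoc]
        _ = v * (star w₂ * w₂) := by rw [hw₂e₀]
    · rw [← h1]
      calc s₂ * (w₂ * star w₂ * v) = (s₂ * w₂) * star w₂ * v := by simp only [mul_assoc]
        _ = w₂ * star w₂ * v := by rw [hsw₂]
    · rw [← h2]
      calc v * (star w₂ * w₂) * r₂ = v * (star w₂ * (w₂ * r₂)) := by simp only [mul_assoc]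
        _ = v * (star w₂ * w₂) := by rw [hw₂r]
  have hA : ∀ v ∈ M, IsPI v → w₂ * star w₂ * v = v → v * (star w₂ * w₂) = v →
      ‖v Ω‖ ^ 2 ≤ μ * ‖star v Ω‖ ^ 2 := by
    intro v hv hvPI h1 h2
    obtain ⟨⟨h3, h4⟩, -⟩ := hin v h1 h2
    by_cases hv0' : v = 0
    · rw [hv0']
      simp
    obtain ⟨h5, h6⟩ := hsub v h3 h4
    rw [← div_le_iff₀ (hstar0 v hv h5 h6 hv0'), hμ]
    exact le_csSup hTbdd ⟨v, hv, hvPI, h3, h4, hv0', rfl⟩
  have hB : ∀ v ∈ M, IsPI v → w₂ * star w₂ * v = v → v * (star w₂ * w₂) = v →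
      μ / κ * ‖star v Ω‖ ^ 2 ≤ ‖v Ω‖ ^ 2 := by
    intro v hv hvPI h1 h2
    obtain ⟨-, h3, h4⟩ := hin v h1 h2
    by_contra hcon
    push Not at hcon
    have h5 := hV₂max v hv hvPI h3 h4 (by linarith)
    rw [h5] at hcon
    simp at hcon
  refine ⟨star w₂ * w₂, mul_mem (star_mem hw₂M) hw₂M, proj_ini hw₂PI, ?_, ?_, ?_⟩
  · intro h
    exact hw₂0 ((CStarRing.star_mul_self_eq_zero_iff _).1 h)
  · obtain ⟨h5, h6⟩ := hsub w₂ hf₀w₂ hw₂e₀
    have h7 := (hcorner w₂ h5 h6).2
    have h8 : p * star w₂ = star w₂ := by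
      have := congrArg star h7
      rwa [star_mul, hps] at this
    rw [← mul_assoc, h8]
  · have hκ0' : 0 ≤ κ := hκ0.le
    -- one inequality for partial isometries
    have hC : ∀ u ∈ M, IsPI u → star w₂ * w₂ * u = u → u * (star w₂ * w₂) = u →
        ‖u Ω‖ ^ 2 ≤ κ * ‖star u Ω‖ ^ 2 := by
      intro u hu huPI hqu huq
      have huPI' : u * star u * u = u := huPI
      have hqu' : star u * (star w₂ * w₂) = star u := by
        have := congrArg star hqu
        rwa [star_mul, star_mul, star_star] at this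
      have huq' : star w₂ * w₂ * star u = star u := by
        have := congrArg star huq
        rwa [star_mul, star_mul, star_star] at this
      have hvv : star (w₂ * u) * (w₂ * u) = star u * u := by
        rw [star_mul]
        calc star u * star w₂ * (w₂ * u) = star u * (star w₂ * w₂ * u) := by simp only [mul_assoc]
          _ = star u * u := by rw [hqu]
      have hvPI : IsPI (w₂ * u) := by
        unfold IsPI
        rw [mul_assoc (w₂ * u), hvv, mul_assoc, ← mul_assoc u, huPI']
      have hvM : w₂ * u ∈ M := mul_mem hw₂M hu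
      have hv1 : w₂ * star w₂ * (w₂ * u) = w₂ * u := by rw [← mul_assoc, hw₂PI']
      have hv2 : w₂ * u * (star w₂ * w₂) = w₂ * u := by rw [mul_assoc, huq]
      have hvv' : star (w₂ * (u * star u)) * (w₂ * (u * star u)) = star (star u) * star u := by
        rw [star_star, star_mul, star_mul, star_star]
        calc u * star u * star w₂ * (w₂ * (u * star u))
            = u * star u * (star w₂ * w₂ * u) * star u := by simp only [mul_assoc]
          _ = u * star u := by rw [hqu, huPI']
      have hvPI₂ : IsPI (w₂ * (u * star u)) := by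
        unfold IsPI
        rw [mul_assoc (w₂ * (u * star u)), hvv', star_star]
        calc w₂ * (u * star u) * (u * star u) = w₂ * ((u * star u * u) * star u) := by
              simp only [mul_assoc]
          _ = w₂ * (u * star u) := by rw [huPI']
      have hvM₂ : w₂ * (u * star u) ∈ M := mul_mem hw₂M (mul_mem hu (star_mem hu))
      have hv1₂ : w₂ * star w₂ * (w₂ * (u * star u)) = w₂ * (u * star u) := by
        rw [← mul_assoc, hw₂PI']
      have hv2₂ : w₂ * (u * star u) * (star w₂ * w₂) = w₂ * (u * star u) := by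
        rw [mul_assoc, mul_assoc u, hqu']
      have hfin2 : star (star (w₂ * u)) * star (w₂ * u) =
          star (star (w₂ * (u * star u))) * star (w₂ * (u * star u)) := by
        rw [star_star, star_star, star_mul, star_mul, star_mul, star_star]
        calc w₂ * u * (star u * star w₂) = w₂ * (u * star u * u) * star u * star w₂ := by
              rw [huPI']; simp only [mul_assoc]
          _ = w₂ * (u * star u) * (u * star u * star w₂) := by simp only [mul_assoc]
      have i1 := hA (w₂ * u) hvM hvPI hv1 hv2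
      have i2 := hB (w₂ * (u * star u)) hvM₂ hvPI₂ hv1₂ hv2₂
      rw [normSq_congr hvv, normSq_congr hfin2] at i1
      rw [normSq_congr hvv'] at i2
      rw [div_mul_eq_mul_div, div_le_iff₀ hκ0] at i2
      linarith
    intro x hx hqx hxq
    refine step3 M (proj_ini hw₂PI) Ω κ hκ0' ?_ x hx hqx hxq
    intro u hu huPI hqu huq
    have := hC (star u) (star_mem hu) (pi_star huPI) (by
      have := congrArg star huq
      rwa [star_mul, star_mul, star_star] at this) (by
      have := congrArg star hqu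
      rwa [star_mul, star_mul, star_star] at this)
    rwa [star_star] at this

end Pool.Agent.Helper67.Inj
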