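import Pool.Agent.Helper67.Inj.Rc

set_option autoImplicit false

open scoped InnerProductSpace ComplexOrder TensorProduct Topology

namespace Pool.Agent.Helper67.Inj

universe u

private theorem gelfand_core {A : Type*} [CommCStarAlgebra A] {K : ℕ} (y : Fin K → A) (c : ℝ)
    (hc : 0 ≤ c) (h : ∀ a : Fin K → ℂ, ‖∑ i, a i • y i‖ ^ 2 ≤ c * ∑ i, ‖a i‖ ^ 2) :
    ‖∑ i, star (y i) * y i‖ ≤ c := by
  rw [← (gelfandTransform_isometry A).norm_map_of_map_zero (map_zero _)]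
  rw [ContinuousMap.norm_le _ hc]
  intro χ
  have hχ : ∀ z : A, ‖χ z‖ ≤ ‖z‖ := by
    intro z
    have h1 : ‖WeakDual.gelfandTransform ℂ A z χ‖ ≤ ‖WeakDual.gelfandTransform ℂ A z‖ :=
      ContinuousMap.norm_coe_le_norm _ _
    rw [(gelfandTransform_isometry A).norm_map_of_map_zero (map_zero _)] at h1
    exact h1
  have hst : ∀ z : A, χ (star z) = (starRingEnd ℂ) (χ z) := fun z => map_star χ z
  set s : ℝ := ∑ i, ‖χ (y i)‖ ^ 2 with hs
  have hs0 : 0 ≤ s := Finset.sum_nonneg fun i _ => by positivity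
  have e1 : WeakDual.gelfandTransform ℂ A (∑ i, star (y i) * y i) χ = (s : ℂ) := by
    change χ (∑ i, star (y i) * y i) = (s : ℂ)
    rw [map_sum, hs]
    push_cast
    refine Finset.sum_congr rfl fun i _ => ?_
    rw [map_mul, hst, mul_comm, Complex.mul_conj, Complex.normSq_eq_norm_sq]
    push_cast
    rfl
  rw [e1, Complex.norm_real, Real.norm_of_nonneg hs0]
  have h2 := h fun i => (starRingEnd ℂ) (χ (y i))
  have h3 : s ≤ ‖∑ i, (starRingEnd ℂ) (χ (y i)) • y i‖ := by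
    have h4 := hχ (∑ i, (starRingEnd ℂ) (χ (y i)) • y i)
    have h5 : χ (∑ i, (starRingEnd ℂ) (χ (y i)) • y i) = (s : ℂ) := by
      rw [map_sum, hs]
      push_cast
      refine Finset.sum_congr rfl fun i _ => ?_
      rw [map_smul, smul_eq_mul, mul_comm, Complex.mul_conj, Complex.normSq_eq_norm_sq]
      push_cast
      rfl
    rw [h5, Complex.norm_real, Real.norm_of_nonneg hs0] at h4
    exact h4
  have h6 : ∑ i, ‖(starRingEnd ℂ) (χ (y i))‖ ^ 2 = s := by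
    rw [hs]
    exact Finset.sum_congr rfl fun i _ => by rw [RCLike.norm_conj]
  rw [h6] at h2
  have h7 : s ^ 2 ≤ c * s := le_trans (pow_le_pow_left₀ hs0 h3 2) h2
  rcases hs0.eq_or_lt with h0 | h0
  · rw [← h0]; exact hc
  · nlinarith

variable {H : Type u} [NormedAddCommGroup H] [InnerProductSpace ℂ H] [CompleteSpace H]

private theorem isClosed_vn (N : VonNeumannAlgebra H) : IsClosed (N : Set (H →L[ℂ] H)) := by
  rw [← N.centralizer_centralizer]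
  exact Set.isClosed_centralizer _

private theorem abel_core (N : VonNeumannAlgebra H)
    (hab : ∀ x ∈ N, ∀ y ∈ N, x * y = y * x) {K : ℕ} (y : Fin K → (H →L[ℂ] H))
    (hy : ∀ i, y i ∈ N) (c : ℝ)
    (hc : 0 ≤ c) (h : ∀ a : Fin K → ℂ, ‖∑ i, a i • y i‖ ^ 2 ≤ c * ∑ i, ‖a i‖ ^ 2) :
    ‖∑ i, star (y i) * y i‖ ≤ c := by
  let S := N.toStarSubalgebra
  let _hcl : IsClosed (S : Set (H →L[ℂ] H)) := isClosed_vn N
  let _i1 : CStarAlgebra S := StarSubalgebra.cstarAlgebra S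
  let _i2 : CommCStarAlgebra S :=
    { _i1 with mul_comm := fun a b => Subtype.ext (hab a.1 a.2 b.1 b.2) }
  have h1 := gelfand_core (A := S) (fun i => ⟨y i, hy i⟩) c hc (by
    intro a
    have h2 := h a
    have h3 : ((∑ i, a i • (⟨y i, hy i⟩ : S) : S) : H →L[ℂ] H) = ∑ i, a i • y i := by
      rw [AddSubmonoidClass.coe_finsetSum]
      rfl
    change ‖((∑ i, a i • (⟨y i, hy i⟩ : S) : S) : H →L[ℂ] H)‖ ^ 2 ≤ _
    rw [h3]
    exact h2)
  have h4 : ((∑ i, star (⟨y i, hy i⟩ : S) * (⟨y i, hy i⟩ : S) : S) : H →L[ℂ] H)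
      = ∑ i, star (y i) * y i := by
    rw [AddSubmonoidClass.coe_finsetSum]
    rfl
  rw [← h4]
  exact h1

private theorem lin_col {K : ℕ} (x : Fin K → (H →L[ℂ] H)) (a : Fin K → ℂ) :
    ‖∑ i, a i • x i‖ ^ 2 ≤ colSq x * ∑ i, ‖a i‖ ^ 2 := by
  have hs0 : 0 ≤ ∑ i, ‖a i‖ ^ 2 := Finset.sum_nonneg fun i _ => by positivity
  have hc0 := colSq_nonneg x
  have h1 : ‖∑ i, a i • x i‖ ≤ Real.sqrt (colSq x * ∑ i, ‖a i‖ ^ 2) := by
    refine ContinuousLinearMap.opNorm_le_bound _ (Real.sqrt_nonneg _) fun ξ => ?_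
    have h2 : ‖(∑ i, a i • x i) ξ‖ ≤ ∑ i, ‖a i‖ * ‖x i ξ‖ := by
      rw [sum_apply]
      refine (norm_sum_le _ _).trans (Finset.sum_le_sum fun i _ => ?_)
      rw [smul_apply, norm_smul]
    have h3 : (∑ i, ‖a i‖ * ‖x i ξ‖) ^ 2 ≤ (∑ i, ‖a i‖ ^ 2) * ∑ i, ‖x i ξ‖ ^ 2 :=
      Finset.sum_mul_sq_le_sq_mul_sq _ _ _
    have h4 := (colSq_eq_sup x (colSq x) hc0).1 le_rfl ξ
    have h5 : ‖(∑ i, a i • x i) ξ‖ ^ 2 ≤ (colSq x * ∑ i, ‖a i‖ ^ 2) * ‖ξ‖ ^ 2 := by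
      calc ‖(∑ i, a i • x i) ξ‖ ^ 2 ≤ (∑ i, ‖a i‖ * ‖x i ξ‖) ^ 2 :=
            pow_le_pow_left₀ (norm_nonneg _) h2 2
        _ ≤ (∑ i, ‖a i‖ ^ 2) * ∑ i, ‖x i ξ‖ ^ 2 := h3
        _ ≤ (∑ i, ‖a i‖ ^ 2) * (colSq x * ‖ξ‖ ^ 2) := mul_le_mul_of_nonneg_left h4 hs0
        _ = _ := by ring
    have h6 := Real.sqrt_le_sqrt h5
    rwa [Real.sqrt_sq (norm_nonneg _), Real.sqrt_mul (by positivity),
      Real.sqrt_sq (norm_nonneg _)] at h6
  calc ‖∑ i, a i • x i‖ ^ 2 ≤ Real.sqrt (colSq x * ∑ i, ‖a i‖ ^ 2) ^ 2 :=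
        pow_le_pow_left₀ (norm_nonneg _) h1 2
    _ = _ := Real.sq_sqrt (by positivity)

private theorem lin_row {K : ℕ} (x : Fin K → (H →L[ℂ] H)) (a : Fin K → ℂ) :
    ‖∑ i, a i • x i‖ ^ 2 ≤ rowSq x * ∑ i, ‖a i‖ ^ 2 := by
  have h1 := lin_col (fun i => star (x i)) (fun i => (starRingEnd ℂ) (a i))
  have h2 : (∑ i, (starRingEnd ℂ) (a i) • star (x i)) = star (∑ i, a i • x i) := by
    rw [star_sum]
    exact Finset.sum_congr rfl fun i _ => by rw [star_smul]; rfl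
  have h3 : colSq (fun i => star (x i)) = rowSq x := by
    unfold colSq rowSq
    simp only [star_star]
  rw [h2, norm_star, h3] at h1
  refine h1.trans (le_of_eq ?_)
  congr 1
  exact Finset.sum_congr rfl fun i _ => by rw [RCLike.norm_conj]

/-- QB-AB : abelian algebras -/
theorem qb_abelian (N : VonNeumannAlgebra H) (P : (H →L[ℂ] H) →L[ℂ] (H →L[ℂ] H))
    (hP : IsBProj N P) (hab : ∀ x ∈ N, ∀ y ∈ N, x * y = y * x) (Ω : H) (hΩ : ‖Ω‖ = 1) :
    QB N Ω := by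
  have key : ∀ (K : ℕ) (x : Fin K → (H →L[ℂ] H)) (c : ℝ), 0 ≤ c →
      (∀ a : Fin K → ℂ, ‖∑ i, a i • x i‖ ^ 2 ≤ c * ∑ i, ‖a i‖ ^ 2) →
      colSq (fun i => P (x i)) ≤ ‖P‖ ^ 2 * c := by
    intro K x c hc h
    refine abel_core N hab _ (fun i => hP.mem _) _ (by positivity) fun a => ?_
    have h1 : (∑ i, a i • P (x i)) = P (∑ i, a i • x i) := by
      rw [map_sum]
      exact Finset.sum_congr rfl fun i _ => by rw [map_smul]
    rw [h1]
    calc ‖P (∑ i, a i • x i)‖ ^ 2 ≤ (‖P‖ * ‖∑ i, a i • x i‖) ^ 2 :=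
          pow_le_pow_left₀ (norm_nonneg _) (P.le_opNorm _) 2
      _ = ‖P‖ ^ 2 * ‖∑ i, a i • x i‖ ^ 2 := by ring
      _ ≤ ‖P‖ ^ 2 * (c * ∑ i, ‖a i‖ ^ 2) := mul_le_mul_of_nonneg_left (h a) (by positivity)
      _ = _ := by ring
  refine ⟨‖P‖ ^ 2, by positivity, fun K => ⟨P.toLinearMap, fun x => hP.mem x, fun y hy => hP.id y hy,
    fun x => ⟨?_, ?_⟩⟩⟩
  · have h1 := key K x (colSq x) (colSq_nonneg x) (lin_col x)
    have h2 := (colSq_eq_sup _ _ (mul_nonneg (by positivity) (colSq_nonneg x))).1 h1 Ω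
    rw [hΩ, one_pow, mul_one] at h2
    exact h2
  · have h1 := key K x (rowSq x) (rowSq_nonneg x) (lin_row x)
    have h3 : rowSq (fun i => P (x i)) = colSq (fun i => P (x i)) := by
      unfold rowSq colSq
      congr 1
      exact Finset.sum_congr rfl fun i _ => hab _ (hP.mem _) _ (star_mem (hP.mem _))
    rw [← h3] at h1
    have h2 := (rowSq_eq_sup _ _ (mul_nonneg (by positivity) (rowSq_nonneg x))).1 h1 Ω
    rw [hΩ, one_pow, mul_one] at h2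
    exact h2

end Pool.Agent.Helper67.Inj
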