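import Pool.Agent.Helper67.Inj.Rc
import Pool.Agent.Helper67.Inj.Avg

set_option autoImplicit false

open scoped InnerProductSpace ComplexOrder TensorProduct Topology

namespace Pool.Agent.Helper67.Inj

universe u


variable {H : Type u} [NormedAddCommGroup H] [InnerProductSpace ℂ H] [CompleteSpace H]

private lemma qi_ext_apply (S : Submodule ℂ H) [CompleteSpace S] (z : S →L[ℂ] S) (η : H) :
    ext S z η = ((z (S.orthogonalProjectionOnto η) : S) : H) := rfl

private lemma qi_cmp_apply (S : Submodule ℂ H) [CompleteSpace S] (y : H →L[ℂ] H) (η : S) :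
    cmp S y η = S.orthogonalProjectionOnto (y η) := rfl

private lemma qi_ext_star (S : Submodule ℂ H) [CompleteSpace S] (z : S →L[ℂ] S) :
    star (ext S z) = ext S (star z) := by
  change ContinuousLinearMap.adjoint (S.subtypeL ∘L z ∘L S.orthogonalProjectionOnto) =
    S.subtypeL ∘L (ContinuousLinearMap.adjoint z) ∘L S.orthogonalProjectionOnto
  rw [ContinuousLinearMap.adjoint_comp, ContinuousLinearMap.adjoint_comp,
    Submodule.adjoint_subtypeL, Submodule.adjoint_orthogonalProjectionOnto,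
    ContinuousLinearMap.comp_assoc]

private lemma qi_cmp_star (S : Submodule ℂ H) [CompleteSpace S] (y : H →L[ℂ] H) :
    star (cmp S y) = cmp S (star y) := by
  change ContinuousLinearMap.adjoint (S.orthogonalProjectionOnto ∘L y ∘L S.subtypeL) =
    S.orthogonalProjectionOnto ∘L (ContinuousLinearMap.adjoint y) ∘L S.subtypeL
  rw [ContinuousLinearMap.adjoint_comp, ContinuousLinearMap.adjoint_comp,
    Submodule.adjoint_subtypeL, Submodule.adjoint_orthogonalProjectionOnto,
    ContinuousLinearMap.comp_assoc]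

private lemma qi_ext_mul (S : Submodule ℂ H) [CompleteSpace S] (z w : S →L[ℂ] S) :
    ext S z * ext S w = ext S (z * w) := by
  ext η
  simp [qi_ext_apply, mul_apply_eq_comp]

private lemma qi_p_ext (S : Submodule ℂ H) [CompleteSpace S] (z : S →L[ℂ] S) :
    S.starProjection * ext S z = ext S z := by
  ext η
  simp [qi_ext_apply, mul_apply_eq_comp]

private lemma qi_ext_p (S : Submodule ℂ H) [CompleteSpace S] (z : S →L[ℂ] S) :
    ext S z * S.starProjection = ext S z := by
  ext η
  have h : S.orthogonalProjectionOnto (S.starProjection η) = S.orthogonalProjectionOnto η :=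
    Submodule.orthogonalProjectionOnto_mem_subspace_eq_self (S.orthogonalProjectionOnto η)
  rw [mul_apply_eq_comp, qi_ext_apply, qi_ext_apply, h]

private lemma qi_ext_cmp (S : Submodule ℂ H) [CompleteSpace S] (y : H →L[ℂ] H) :
    ext S (cmp S y) = S.starProjection * y * S.starProjection := by
  ext η
  rw [mul_apply_eq_comp, mul_apply_eq_comp, qi_ext_apply, qi_cmp_apply]
  rfl

private lemma qi_cmp_ext (S : Submodule ℂ H) [CompleteSpace S] (z : S →L[ℂ] S) :
    cmp S (ext S z) = z := by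
  ext η
  simp [qi_ext_apply, qi_cmp_apply]

private lemma qi_ext_norm (S : Submodule ℂ H) [CompleteSpace S] (z : S →L[ℂ] S) :
    ‖ext S z‖ ≤ ‖z‖ := by
  refine ContinuousLinearMap.opNorm_le_bound _ (norm_nonneg z) ?_
  intro η
  rw [qi_ext_apply]
  calc ‖((z (S.orthogonalProjectionOnto η) : S) : H)‖ = ‖z (S.orthogonalProjectionOnto η)‖ := rfl
    _ ≤ ‖z‖ * ‖S.orthogonalProjectionOnto η‖ := z.le_opNorm _
    _ ≤ ‖z‖ * ‖η‖ := by
        gcongr
        calc ‖S.orthogonalProjectionOnto η‖ ≤ ‖S.orthogonalProjectionOnto‖ * ‖η‖ :=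
              ContinuousLinearMap.le_opNorm _ _
          _ ≤ 1 * ‖η‖ := by gcongr; exact S.orthogonalProjectionOnto_norm_le
          _ = ‖η‖ := one_mul _

private lemma qi_norm_cmp (S : Submodule ℂ H) [CompleteSpace S] (y : H →L[ℂ] H) (Ω : S) :
    ‖cmp S y Ω‖ = ‖S.starProjection (y Ω)‖ := by
  rw [qi_cmp_apply, Submodule.starProjection_apply]
  rfl

private lemma qi_sum_norm (p : H →L[ℂ] H) (hp : IsStarProjection p) {K : ℕ}
    (V : Fin K → (H →L[ℂ] H))
    (hV : ∀ s t, star (V s) * V t = if s = t then p else 0) (v : Fin K → H) :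
    ‖∑ i, V i (p (v i))‖ ^ 2 = ∑ i, ‖p (v i)‖ ^ 2 := by
  have hpp : ∀ η, p (p η) = p η := fun η => by
    have := hp.isIdempotentElem
    change (p * p) η = p η
    rw [this]
  have h1 : (((‖∑ i, V i (p (v i))‖ ^ 2 : ℝ)) : ℂ) = ((∑ i, ‖p (v i)‖ ^ 2 : ℝ) : ℂ) := by
    have h2 : (((‖∑ i, V i (p (v i))‖ ^ 2 : ℝ)) : ℂ) =
        ⟪∑ i, V i (p (v i)), ∑ j, V j (p (v j))⟫_ℂ := by
      rw [inner_self_eq_norm_sq_to_K]; norm_cast
    rw [h2, sum_inner, Complex.ofReal_sum]
    apply Finset.sum_congr rfl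
    intro i _
    rw [inner_sum]
    have h3 : ∀ j, ⟪V i (p (v i)), V j (p (v j))⟫_ℂ =
        if i = j then ⟪p (v i), p (v j)⟫_ℂ else 0 := by
      intro j
      have h4 : ⟪V i (p (v i)), V j (p (v j))⟫_ℂ = ⟪p (v i), (star (V i) * V j) (p (v j))⟫_ℂ := by
        rw [mul_apply_eq_comp, ContinuousLinearMap.star_eq_adjoint,
          ContinuousLinearMap.adjoint_inner_right]
      rw [h4, hV]
      split_ifs with h
      · rw [hpp]
      · simp
    rw [Finset.sum_congr rfl (fun j _ => h3 j)]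
    simp only [Finset.sum_ite_eq, Finset.mem_univ, if_true]
    rw [inner_self_eq_norm_sq_to_K]; norm_cast
  exact_mod_cast h1

/-- the column estimate -/
private lemma qi_col (P : (H →L[ℂ] H) →L[ℂ] (H →L[ℂ] H))
    (S : Submodule ℂ H) [CompleteSpace S] {K : ℕ} (V : Fin K → (H →L[ℂ] H))
    (hV : ∀ s t, star (V s) * V t = if s = t then S.starProjection else 0)
    (hmod : ∀ i x, P (V i * (S.starProjection * x)) = V i * (S.starProjection * P x))
    (x : Fin K → (S →L[ℂ] S)) (η : H) :
    ∑ i, ‖S.starProjection (P (ext S (x i)) η)‖ ^ 2 ≤ ‖P‖ ^ 2 * colSq x * ‖η‖ ^ 2 := by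
  set p := S.starProjection with hpdef
  have hp : IsStarProjection p := isStarProjection_starProjection
  set X : H →L[ℂ] H := ∑ i, V i * (p * ext S (x i)) with hX
  have hXX : star X * X = ext S (∑ i, star (x i) * x i) := by
    rw [hX, star_sum, Finset.sum_mul, map_sum]
    apply Finset.sum_congr rfl
    intro i _
    rw [Finset.mul_sum]
    have h3 : ∀ j, star (V i * (p * ext S (x i))) * (V j * (p * ext S (x j))) =
        if i = j then ext S (star (x i) * x j) else 0 := by
      intro j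
      rw [qi_p_ext, qi_p_ext, star_mul, mul_assoc, ← mul_assoc (star (V i)), hV]
      split_ifs with h
      · rw [hpdef, qi_p_ext, qi_ext_star, qi_ext_mul]
      · simp
    rw [Finset.sum_congr rfl (fun j _ => h3 j)]
    simp
  have hXn : ‖X‖ ^ 2 ≤ colSq x := by
    have h1 : ‖X‖ ^ 2 = ‖star X * X‖ := by
      rw [CStarRing.norm_star_mul_self]; ring
    rw [h1, hXX]
    exact qi_ext_norm S _
  have hPX : P X = ∑ i, V i * (p * P (ext S (x i))) := by
    rw [hX, map_sum]
    exact Finset.sum_congr rfl (fun i _ => hmod i _)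
  have h5 : ‖P X η‖ ^ 2 = ∑ i, ‖p (P (ext S (x i)) η)‖ ^ 2 := by
    rw [hPX, sum_apply]
    exact qi_sum_norm p hp V hV (fun i => P (ext S (x i)) η)
  rw [← h5]
  calc ‖P X η‖ ^ 2 ≤ (‖P‖ * ‖X‖ * ‖η‖) ^ 2 := by
        gcongr
        calc ‖P X η‖ ≤ ‖P X‖ * ‖η‖ := (P X).le_opNorm _
          _ ≤ ‖P‖ * ‖X‖ * ‖η‖ := by gcongr; exact P.le_opNorm _
    _ = ‖P‖ ^ 2 * ‖X‖ ^ 2 * ‖η‖ ^ 2 := by ring
    _ ≤ _ := by gcongr

/-- QB-INF : many orthogonal copies of the corner -/
theorem qb_inf (M : VonNeumannAlgebra H) (P : (H →L[ℂ] H) →L[ℂ] (H →L[ℂ] H))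
    (hP : IsBProj M P) (S : Submodule ℂ H) [CompleteSpace S]
    (hS : S.starProjection ∈ M) (N : VonNeumannAlgebra S)
    (hN : ∀ z : S →L[ℂ] S, z ∈ N ↔ ext S z ∈ M)
    (hW : ∀ K : ℕ, ∃ W : Fin (K + 1) → (H →L[ℂ] H), (∀ s, W s ∈ M) ∧ W 0 = S.starProjection ∧
      ∀ s t, star (W s) * W t = if s = t then S.starProjection else 0) (Ω : S) (hΩ : ‖Ω‖ = 1) :
    QB N Ω := by
  refine ⟨‖P‖ ^ 2, by positivity, fun K => ?_⟩
  obtain ⟨W, hWM, hW0, hWW⟩ := hW K
  obtain ⟨P', hP', hnorm, hl, hr⟩ := average M P hP (K + 1) W S.starProjection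
    isStarProjection_starProjection hWM hWW
  -- the adjoint projection
  let Q : (H →L[ℂ] H) →L[ℂ] (H →L[ℂ] H) :=
    LinearMap.mkContinuous
      { toFun := fun x => star (P' (star x))
        map_add' := fun x y => by simp
        map_smul' := fun c x => by simp } ‖P'‖ (fun x => by
          change ‖star (P' (star x))‖ ≤ _
          rw [norm_star]
          refine (P'.le_opNorm _).trans ?_
          rw [norm_star])
  have hQapp : ∀ x, Q x = star (P' (star x)) := fun x => rfl
  have hQ : ‖Q‖ ≤ ‖P'‖ := LinearMap.mkContinuous_norm_le _ (norm_nonneg _) _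
  let V : Fin K → (H →L[ℂ] H) := fun i => W i.castSucc
  have hV : ∀ s t, star (V s) * V t = if s = t then S.starProjection else 0 := by
    intro s t
    rw [hWW]
    simp
  have hpstar : star (S.starProjection : H →L[ℂ] H) = S.starProjection :=
    (isStarProjection_starProjection (U := S)).isSelfAdjoint
  have hmodP : ∀ i x, P' (V i * (S.starProjection * x)) = V i * (S.starProjection * P' x) := by
    intro i x
    have := hl i.castSucc 0 x
    rw [hW0, hpstar] at this
    simpa only [mul_assoc] using this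
  have hmodQ : ∀ i x, Q (V i * (S.starProjection * x)) = V i * (S.starProjection * Q x) := by
    intro i x
    have := hr 0 i.castSucc (star x)
    rw [hW0] at this
    rw [hQapp, hQapp, star_mul, star_mul, mul_assoc, hpstar, this, star_mul, star_mul, star_star,
      hpstar, mul_assoc]
  refine ⟨(cmp S) ∘ₗ P'.toLinearMap ∘ₗ (ext S), fun x => ?_, fun y hy => ?_, fun x => ⟨?_, ?_⟩⟩
  · change cmp S (P' (ext S x)) ∈ N
    rw [hN, qi_ext_cmp]
    exact mul_mem (mul_mem hS (hP'.mem _)) hS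
  · change cmp S (P' (ext S y)) = y
    rw [hP'.id _ ((hN y).mp hy), qi_cmp_ext]
  · change ∑ i, ‖cmp S (P' (ext S (x i))) Ω‖ ^ 2 ≤ _
    have h := qi_col P' S V hV hmodP x (Ω : H)
    simp only [qi_norm_cmp]
    refine h.trans ?_
    have h1 : ‖(Ω : H)‖ = 1 := hΩ
    rw [h1, one_pow, mul_one]
    have h2 := colSq_nonneg x
    gcongr
  · change ∑ i, ‖star (cmp S (P' (ext S (x i)))) Ω‖ ^ 2 ≤ _
    have h := qi_col Q S V hV hmodQ (fun i => star (x i)) (Ω : H)
    have h3 : ∀ i, Q (ext S (star (x i))) = star (P' (ext S (x i))) := by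
      intro i
      rw [hQapp, ← qi_ext_star, star_star]
    simp only [h3] at h
    simp only [qi_cmp_star, qi_norm_cmp]
    refine h.trans ?_
    have h1 : ‖(Ω : H)‖ = 1 := hΩ
    rw [h1, one_pow, mul_one]
    have h4 : colSq (fun i => star (x i)) = rowSq x := by
      unfold colSq rowSq; simp
    rw [h4]
    have h2 := rowSq_nonneg x
    have h5 := hQ.trans hnorm
    gcongr

end Pool.Agent.Helper67.Inj
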