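import Pool.Agent.Helper67.Inj.Gt
import Pool.Agent.Helper67.Inj.Avg

set_option autoImplicit false

open scoped InnerProductSpace ComplexOrder TensorProduct Topology

namespace Pool.Agent.Helper67.Inj

universe u

variable {H : Type u} [NormedAddCommGroup H] [InnerProductSpace ℂ H] [CompleteSpace H]

private lemma inner_star_left (x : H →L[ℂ] H) (ξ η : H) :
    ⟪star x ξ, η⟫_ℂ = ⟪ξ, x η⟫_ℂ := by
  rw [ContinuousLinearMap.star_eq_adjoint, ContinuousLinearMap.adjoint_inner_left]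

private lemma norm_sq_eq (x : H →L[ℂ] H) (ξ : H) :
    ((‖x ξ‖ ^ 2 : ℝ) : ℂ) = ⟪ξ, (star x * x) ξ⟫_ℂ := by
  have h := inner_star_left x (x ξ) ξ
  have h1 : ⟪ξ, star x (x ξ)⟫_ℂ = ⟪x ξ, x ξ⟫_ℂ := by
    rw [ContinuousLinearMap.star_eq_adjoint, ContinuousLinearMap.adjoint_inner_right]
  change _ = ⟪ξ, star x (x ξ)⟫_ℂ
  rw [h1, inner_self_eq_norm_sq_to_K]
  push_cast
  rfl

/-- matrix units -/
private structure MU (n : ℕ) (E : Fin n → Fin n → (H →L[ℂ] H)) : Prop where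
  star' : ∀ s t, star (E s t) = E t s
  mul : ∀ s t u, E s t * E t u = E s u
  one : ∑ s, E s s = 1

private lemma mu_of_frame {n : ℕ} {W : Fin n → (H →L[ℂ] H)} {e : H →L[ℂ] H}
    (he : IsStarProjection e)
    (hWW : ∀ s t, star (W s) * W t = if s = t then e else 0)
    (h1 : ∑ s, W s * star (W s) = 1) : MU n (fun s t => W s * star (W t)) := by
  have hWe : ∀ s, W s * e = W s := by
    intro s
    have h0 : star (W s) * W s = e := by rw [hWW s s, if_pos rfl]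
    have hee : e * e = e := he.isIdempotentElem
    have hes : star e = e := he.isSelfAdjoint
    have : star (W s * e - W s) * (W s * e - W s) = 0 := by
      rw [star_sub, star_mul, hes, sub_mul, mul_sub, mul_sub]
      have a1 : e * star (W s) * (W s * e) = e := by
        rw [mul_assoc, ← mul_assoc (star (W s)), h0, hee, hee]
      have a2 : e * star (W s) * W s = e := by rw [mul_assoc, h0, hee]
      have a3 : star (W s) * (W s * e) = e := by rw [← mul_assoc, h0, hee]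
      rw [a1, a2, a3, h0]; simp
    rw [CStarRing.star_mul_self_eq_zero_iff] at this
    exact sub_eq_zero.mp this
  refine ⟨?_, ?_, h1⟩
  · intro s t; simp
  · intro s t u
    have h0 : star (W t) * W t = e := by rw [hWW t t, if_pos rfl]
    calc W s * star (W t) * (W t * star (W u)) = W s * (star (W t) * W t) * star (W u) := by
          simp only [mul_assoc]
      _ = _ := by rw [h0, hWe]

private lemma MU.sum_norm {n : ℕ} {E : Fin n → Fin n → (H →L[ℂ] H)} (h : MU n E) (z : Fin n)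
    (ξ : H) : ∑ s, ‖E z s ξ‖ ^ 2 = ‖ξ‖ ^ 2 := by
  have h1 : ((∑ s, ‖E z s ξ‖ ^ 2 : ℝ) : ℂ) = ((‖ξ‖ ^ 2 : ℝ) : ℂ) := by
    rw [Complex.ofReal_sum]
    simp only [norm_sq_eq]
    simp only [h.star', h.mul]
    rw [← inner_sum]
    have : ∑ s, (E s s) ξ = ξ := by
      rw [← sum_apply, h.one]; rfl
    rw [this, inner_self_eq_norm_sq_to_K]
    push_cast
    rfl
  exact_mod_cast h1

private lemma MU.norm_col {n : ℕ} {E : Fin n → Fin n → (H →L[ℂ] H)} (h : MU n E) (z s : Fin n)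
    (ξ : H) : ‖E s z ξ‖ ^ 2 = ‖E z z ξ‖ ^ 2 := by
  have h1 : ((‖E s z ξ‖ ^ 2 : ℝ) : ℂ) = ((‖E z z ξ‖ ^ 2 : ℝ) : ℂ) := by
    simp only [norm_sq_eq]
    simp only [h.star', h.mul]
  exact_mod_cast h1

private lemma MU.norm_col_le {n : ℕ} {E : Fin n → Fin n → (H →L[ℂ] H)} (h : MU n E) (z s : Fin n)
    (ξ : H) : ‖E s z ξ‖ ^ 2 ≤ ‖ξ‖ ^ 2 := by
  rw [h.norm_col, ← h.sum_norm z ξ]
  exact Finset.single_le_sum (f := fun s => ‖E z s ξ‖ ^ 2) (fun _ _ => by positivity)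
    (Finset.mem_univ z)

/-- the column estimate -/
private lemma col_bound (M : VonNeumannAlgebra H) (P : (H →L[ℂ] H) →L[ℂ] (H →L[ℂ] H))
    (hP : IsBProj M P) (Ω : H) (hΩ : ‖Ω‖ = 1) (κ C : ℝ) (hκ : 1 ≤ κ) (hC : ‖P‖ ≤ C)
    (htr : ∀ x ∈ M, ‖star x Ω‖ ^ 2 ≤ κ * ‖x Ω‖ ^ 2) {n : ℕ}
    {E : Fin n → Fin n → (H →L[ℂ] H)} (h : MU n E) (hEM : ∀ s t, E s t ∈ M)
    (hmod : ∀ s t x, P (x * E s t) = P x * E s t) (K : ℕ) (hK : K ≤ n) (hn : 0 < n)
    (x : Fin K → (H →L[ℂ] H)) :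
    ∑ i, ‖P (x i) Ω‖ ^ 2 ≤ 4 * κ ^ 3 * C ^ 2 * colSq x := by
  have hκ0 : 0 ≤ κ := by linarith
  have hC0 : 0 ≤ C := (norm_nonneg _).trans hC
  have hnR : (0 : ℝ) < n := by exact_mod_cast hn
  let z : Fin n := ⟨0, hn⟩
  -- size of E z z Ω
  have hzz : (n : ℝ) * ‖E z z Ω‖ ^ 2 ≤ κ := by
    have a1 : ∑ s : Fin n, ‖E s z Ω‖ ^ 2 = (n : ℝ) * ‖E z z Ω‖ ^ 2 := by
      rw [Finset.sum_congr rfl (fun s _ => h.norm_col z s Ω)]
      simp
    have a2 : ∑ s : Fin n, ‖E s z Ω‖ ^ 2 ≤ ∑ s : Fin n, κ * ‖E z s Ω‖ ^ 2 := by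
      apply Finset.sum_le_sum
      intro s _
      have := htr (E z s) (hEM z s)
      rwa [h.star'] at this
    rw [← Finset.mul_sum, h.sum_norm z Ω, hΩ] at a2
    rw [← a1]; linarith
  -- the operator T
  let T : (H →L[ℂ] H) →L[ℂ] H := (ContinuousLinearMap.apply ℂ H (E z z Ω)).comp P
  have hT : ‖T‖ ≤ C * ‖E z z Ω‖ := by
    apply ContinuousLinearMap.opNorm_le_bound _ (by positivity)
    intro y
    change ‖(P y) (E z z Ω)‖ ≤ _
    calc ‖(P y) (E z z Ω)‖ ≤ ‖P y‖ * ‖E z z Ω‖ := (P y).le_opNorm _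
      _ ≤ (C * ‖y‖) * ‖E z z Ω‖ := by
          gcongr
          exact (P.le_opNorm y).trans (by gcongr)
      _ = _ := by ring
  have hT2 : ‖T‖ ^ 2 ≤ C ^ 2 * ‖E z z Ω‖ ^ 2 := by
    calc ‖T‖ ^ 2 ≤ (C * ‖E z z Ω‖) ^ 2 := by gcongr
      _ = _ := by ring
  -- the family
  let y : Fin K × Fin n → (H →L[ℂ] H) := fun p => x p.1 * E p.2 z
  have hrow : rowSq y = rowSq x := by
    unfold rowSq
    congr 1
    rw [Fintype.sum_prod_type]
    apply Finset.sum_congr rfl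
    intro i _
    have : ∀ s : Fin n, y (i, s) * star (y (i, s)) = x i * E s s * star (x i) := by
      intro s
      simp only [y, star_mul, h.star']
      rw [← h.mul s z s]; simp only [mul_assoc]
    rw [Finset.sum_congr rfl (fun s _ => this s)]
    rw [← Finset.sum_mul, ← Finset.mul_sum, h.one, mul_one]
  have hcol : colSq y ≤ n * colSq x := by
    rw [colSq_eq_sup y _ (mul_nonneg hnR.le (colSq_nonneg x))]
    intro ξ
    rw [Fintype.sum_prod_type, Finset.sum_comm]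
    have : ∀ s : Fin n, ∑ i, ‖y (i, s) ξ‖ ^ 2 ≤ colSq x * ‖ξ‖ ^ 2 := by
      intro s
      have h2 := (colSq_eq_sup x (colSq x) (colSq_nonneg x)).mp le_rfl (E s z ξ)
      refine h2.trans ?_
      exact mul_le_mul_of_nonneg_left (h.norm_col_le z s ξ) (colSq_nonneg x)
    refine (Finset.sum_le_sum (fun s _ => this s)).trans ?_
    simp [mul_assoc]
  have hTy : ∀ i s, T (y (i, s)) = P (x i) (E s z Ω) := by
    intro i s
    have h3 : E s z = E s z * E z z := (h.mul s z z).symm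
    calc T (y (i, s)) = (P (x i * E s z)) (E z z Ω) := rfl
      _ = (P (x i)) ((E s z * E z z) Ω) := by rw [hmod]; rfl
      _ = _ := by rw [← h3]
  have hgt := little_gt T y
  rw [hrow] at hgt
  have hrowcol := rowSq_le_card_mul_colSq x
  rw [Fintype.card_fin] at hrowcol
  have hrow' : rowSq x ≤ n * colSq x := hrowcol.trans
    (mul_le_mul_of_nonneg_right (by exact_mod_cast hK) (colSq_nonneg x))
  have hsum : ∑ p, ‖T (y p)‖ ^ 2 ≤ 4 * κ * C ^ 2 * colSq x := by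
    calc ∑ p, ‖T (y p)‖ ^ 2 ≤ 2 * ‖T‖ ^ 2 * (rowSq x + colSq y) := hgt
      _ ≤ 2 * (C ^ 2 * ‖E z z Ω‖ ^ 2) * (n * colSq x + n * colSq x) := by
          have h4 : 0 ≤ rowSq x + colSq y := add_nonneg (rowSq_nonneg x) (colSq_nonneg y)
          gcongr
      _ = 4 * C ^ 2 * (n * ‖E z z Ω‖ ^ 2) * colSq x := by ring
      _ ≤ 4 * C ^ 2 * κ * colSq x := by
          gcongr
          exact colSq_nonneg x
      _ = _ := by ring
  have hone : ∀ i, ‖P (x i) Ω‖ ^ 2 ≤ κ ^ 2 * ∑ s, ‖T (y (i, s))‖ ^ 2 := by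
    intro i
    have hz := hP.mem (x i)
    have b1 : ‖P (x i) Ω‖ ^ 2 ≤ κ * ‖star (P (x i)) Ω‖ ^ 2 := by
      have := htr (star (P (x i))) (star_mem hz)
      rwa [star_star] at this
    have b2 : ‖star (P (x i)) Ω‖ ^ 2 ≤ κ * ∑ s, ‖T (y (i, s))‖ ^ 2 := by
      rw [← h.sum_norm z (star (P (x i)) Ω), Finset.mul_sum]
      apply Finset.sum_le_sum
      intro s _
      rw [hTy]
      have := htr (P (x i) * E s z) (mul_mem hz (hEM s z))
      rw [star_mul, h.star'] at this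
      exact this
    calc ‖P (x i) Ω‖ ^ 2 ≤ κ * (κ * ∑ s, ‖T (y (i, s))‖ ^ 2) := b1.trans (by gcongr)
      _ = _ := by ring
  calc ∑ i, ‖P (x i) Ω‖ ^ 2 ≤ ∑ i, κ ^ 2 * ∑ s, ‖T (y (i, s))‖ ^ 2 :=
        Finset.sum_le_sum (fun i _ => hone i)
    _ = κ ^ 2 * ∑ p, ‖T (y p)‖ ^ 2 := by rw [← Finset.mul_sum, Fintype.sum_prod_type]
    _ ≤ κ ^ 2 * (4 * κ * C ^ 2 * colSq x) := by gcongr
    _ = _ := by ring

/-- QB-TR : almost tracial vector and large matrix algebras -/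
theorem qb_trace (M : VonNeumannAlgebra H) (P : (H →L[ℂ] H) →L[ℂ] (H →L[ℂ] H))
    (hP : IsBProj M P) (Ω : H) (hΩ : ‖Ω‖ = 1) (κ : ℝ) (hκ : 1 ≤ κ)
    (htr : ∀ x ∈ M, ‖star x Ω‖ ^ 2 ≤ κ * ‖x Ω‖ ^ 2)
    (hfr : ∀ K : ℕ, ∃ n : ℕ, K ≤ n ∧ ∃ (W : Fin n → (H →L[ℂ] H)) (e : H →L[ℂ] H),
      IsStarProjection e ∧ (∀ s, W s ∈ M) ∧ (∀ s t, star (W s) * W t = if s = t then e else 0) ∧
      ∑ s, W s * star (W s) = 1) : QB M Ω := by
  refine ⟨4 * κ ^ 3 * ‖P‖ ^ 2, by positivity, fun K => ?_⟩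
  obtain ⟨n, hn, W, e, he, hWM, hWW, h1⟩ := hfr (K + 1)
  obtain ⟨P', hP', hnorm, hl, hr⟩ := average M P hP n W e he hWM hWW
  have hMU := mu_of_frame he hWW h1
  have hEM : ∀ s t, W s * star (W t) ∈ M := fun s t => mul_mem (hWM s) (star_mem (hWM t))
  -- the adjoint projection
  let S : (H →L[ℂ] H) →L[ℂ] (H →L[ℂ] H) :=
    LinearMap.mkContinuous
      { toFun := fun x => star (P' (star x))
        map_add' := fun x y => by simp
        map_smul' := fun c x => by simp } ‖P‖ (fun x => by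
          change ‖star (P' (star x))‖ ≤ _
          rw [norm_star]
          refine (P'.le_opNorm _).trans ?_
          rw [norm_star]
          gcongr)
  have hSapp : ∀ x, S x = star (P' (star x)) := fun x => rfl
  have hS : ‖S‖ ≤ ‖P‖ := LinearMap.mkContinuous_norm_le _ (norm_nonneg _) _
  have hSP : IsBProj M S := by
    refine ⟨fun x => ?_, fun m hm => ?_⟩
    · rw [hSapp]; exact star_mem (hP'.mem _)
    · rw [hSapp, hP'.id _ (star_mem hm), star_star]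
  refine ⟨P'.toLinearMap, fun x => hP'.mem x, fun y hy => hP'.id y hy, fun x => ⟨?_, ?_⟩⟩
  · exact col_bound M P' hP' Ω hΩ κ ‖P‖ hκ hnorm htr hMU hEM hr K (by omega) (by omega) x
  · have := col_bound M S hSP Ω hΩ κ ‖P‖ hκ hS htr hMU hEM (fun s t x => by
      rw [hSapp, hSapp, star_mul, hMU.star', hl, star_mul, hMU.star']) K (by omega) (by omega)
      (fun i => star (x i))
    simp only [hSapp, star_star] at this
    refine this.trans_eq ?_
    congr 1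
    unfold colSq rowSq
    simp

end Pool.Agent.Helper67.Inj
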