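import Pool.Agent.Helper67.Inj.TheoremQ
import Pool.Agent.Helper67.Inj.QbTr
import Pool.Agent.Helper67.Inj.QbInf
import Pool.Agent.Helper67.Inj.QbAb
import Pool.Agent.Helper67.Inj.Halv
import Pool.Agent.Helper67.Inj.NearTr
import Pool.Agent.Helper67.Inj.Corner

set_option autoImplicit false

open scoped InnerProductSpace ComplexOrder TensorProduct Topology

namespace Pool.Agent.Helper67.Inj

universe u

variable {H : Type u} [NormedAddCommGroup H] [InnerProductSpace ℂ H] [CompleteSpace H]

namespace LocalAux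

theorem ext_apply (S : Submodule ℂ H) [S.HasOrthogonalProjection] (z : S →L[ℂ] S) (ξ : H) :
    ext S z ξ = (z (S.orthogonalProjectionOnto ξ) : H) := rfl

theorem cmp_apply (S : Submodule ℂ H) [S.HasOrthogonalProjection] (x : H →L[ℂ] H) (ξ : S) :
    cmp S x ξ = S.orthogonalProjectionOnto (x ξ) := rfl

theorem ext_coe (S : Submodule ℂ H) [S.HasOrthogonalProjection] (z : S →L[ℂ] S) (ξ : S) :
    ext S z (ξ : H) = (z ξ : H) := by
  rw [ext_apply]
  congr 2
  exact Submodule.orthogonalProjectionOnto_mem_subspace_eq_self ξ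

theorem ext_one (S : Submodule ℂ H) [S.HasOrthogonalProjection] :
    ext S 1 = S.starProjection := by
  ext ξ; rfl

theorem ext_mul (S : Submodule ℂ H) [S.HasOrthogonalProjection] (z w : S →L[ℂ] S) :
    ext S (z * w) = ext S z * ext S w := by
  ext ξ
  simp only [ContinuousLinearMap.mul_apply, ext_apply]
  congr 2
  exact (Submodule.orthogonalProjectionOnto_mem_subspace_eq_self _).symm

theorem ext_inj (S : Submodule ℂ H) [S.HasOrthogonalProjection] {z w : S →L[ℂ] S}
    (h : ext S z = ext S w) : z = w := by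
  ext ξ
  have := congrArg (fun T : H →L[ℂ] H => T (ξ : H)) h
  simpa [ext_coe] using this

theorem starProjection_mul_ext (S : Submodule ℂ H) [S.HasOrthogonalProjection] (z : S →L[ℂ] S) :
    S.starProjection * ext S z = ext S z := by
  rw [← ext_one, ← ext_mul, one_mul]

theorem ext_mul_starProjection (S : Submodule ℂ H) [S.HasOrthogonalProjection] (z : S →L[ℂ] S) :
    ext S z * S.starProjection = ext S z := by
  rw [← ext_one, ← ext_mul, mul_one]

theorem ext_star' (S : Submodule ℂ H) [CompleteSpace S] (z : S →L[ℂ] S) :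
    ext S (star z) = star (ext S z) := by
  rw [ContinuousLinearMap.star_eq_adjoint, ContinuousLinearMap.star_eq_adjoint]
  rw [ContinuousLinearMap.eq_adjoint_iff]
  intro ζ η
  rw [ext_apply, ext_apply]
  have e1 : ⟪((ContinuousLinearMap.adjoint z) (S.orthogonalProjectionOnto ζ) : H), η⟫_ℂ =
      ⟪(ContinuousLinearMap.adjoint z) (S.orthogonalProjectionOnto ζ),
        S.orthogonalProjectionOnto η⟫_ℂ := by
    rw [← Submodule.inner_orthogonalProjectionOnto_eq_of_mem_left]
  have e2 : ⟪ζ, (z (S.orthogonalProjectionOnto η) : H)⟫_ℂ =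
      ⟪S.orthogonalProjectionOnto ζ, z (S.orthogonalProjectionOnto η)⟫_ℂ := by
    rw [← Submodule.inner_orthogonalProjectionOnto_eq_of_mem_right]
  rw [e1, e2, ContinuousLinearMap.adjoint_inner_left]

theorem orb_le (N : VonNeumannAlgebra H) (Ω : H) (T : Submodule ℂ H)
    (hT : IsClosed (T : Set H)) (h : ∀ y ∈ N, y Ω ∈ T) : orb N Ω ≤ T := by
  refine Submodule.topologicalClosure_minimal _ ?_ hT
  rintro _ ⟨y, hy, rfl⟩
  exact h y hy

end LocalAux

open LocalAux

theorem finish (M : VonNeumannAlgebra H) (S : Submodule ℂ H) [CompleteSpace S]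
    (hS : S.starProjection ∈ M) (N : VonNeumannAlgebra S)
    (hN : ∀ z : S →L[ℂ] S, z ∈ N ↔ ext S z ∈ M) (Ω : S) (hΩ : ‖Ω‖ = 1)
    (sep : ∀ y ∈ M, S.starProjection * y = y → y * S.starProjection = y → y (Ω : H) = 0 → y = 0)
    (hQ : QB N Ω) : ∃ p ∈ M, IsStarProjection p ∧ p ≠ 0 ∧ InjAt M p := by
  have sep' : ∀ z ∈ N, z Ω = 0 → z = 0 := by
    intro z hz h0
    have h1 := sep (ext S z) ((hN z).1 hz) (starProjection_mul_ext S z)
      (ext_mul_starProjection S z) (by rw [ext_coe, h0]; rfl)
    exact ext_inj S (by rw [h1, map_zero])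
  have h := theoremQ N Ω hΩ sep' hQ
  have h2 := injAt_of_corner M S hS N hN 1 ⟨one_mul 1, star_one (S →L[ℂ] S)⟩ (one_mem N) h
  rw [ext_one] at h2
  refine ⟨S.starProjection, hS, isStarProjection_starProjection, ?_, h2⟩
  intro h0
  have : (Ω : H) = 0 := by
    have h3 : S.starProjection (Ω : H) = Ω := Submodule.starProjection_eq_self_iff.2 Ω.2
    rw [h0] at h3
    simpa using h3.symm
  have h4 : ‖(Ω : H)‖ = 1 := hΩ
  rw [this, norm_zero] at h4
  exact zero_ne_one h4

/-- unit vectors in the range of a nonzero projection -/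
theorem exists_unit (p : H →L[ℂ] H) (hp : IsStarProjection p) (h0 : p ≠ 0) :
    ∃ ξ : H, ‖ξ‖ = 1 ∧ p ξ = ξ := by
  obtain ⟨η, hη⟩ : ∃ η, p η ≠ 0 := by
    by_contra h
    push Not at h
    exact h0 (by ext η; simpa using h η)
  refine ⟨((‖p η‖⁻¹ : ℝ) : ℂ) • p η, ?_, ?_⟩
  · rw [norm_smul, Complex.norm_real, norm_inv, norm_norm,
      inv_mul_cancel₀ (norm_ne_zero_iff.2 hη)]
  · rw [map_smul]
    congr 1
    have := hp.isIdempotentElem
    exact congrArg (fun T : H →L[ℂ] H => T η) this

theorem orb_fixed (M : VonNeumannAlgebra H) (p : H →L[ℂ] H) (hpM : p ∈ M) (ξ : H)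
    (hξ : p ξ = ξ) : ∀ η ∈ orb M.commutant ξ, p η = η := by
  have : orb M.commutant ξ ≤ LinearMap.ker (p - 1 : H →L[ℂ] H).toLinearMap := by
    refine orb_le _ _ _ (p - 1 : H →L[ℂ] H).isClosed_ker ?_
    intro y hy
    have h1 : p * y = y * p := VonNeumannAlgebra.mem_commutant_iff.1 hy p hpM
    have h2 : p (y ξ) = y (p ξ) := congrArg (fun T : H →L[ℂ] H => T ξ) h1
    simp [LinearMap.mem_ker, h2, hξ]
  intro η hη
  have := this hη
  simpa [LinearMap.mem_ker, sub_eq_zero] using this

theorem mul_starProjection_of_fixed (S : Submodule ℂ H) [S.HasOrthogonalProjection]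
    (p : H →L[ℂ] H) (h : ∀ η ∈ S, p η = η) : p * S.starProjection = S.starProjection := by
  ext ξ
  exact h _ (Submodule.starProjection_apply_mem _ _)

/-- `ξ` is separating for the corner given by `orb M' ξ` -/
theorem sep_orb (M : VonNeumannAlgebra H) (ξ : H) (y : H →L[ℂ] H) (hy : y ∈ M)
    (h1 : y * (orb M.commutant ξ).starProjection = y) (h0 : y ξ = 0) : y = 0 := by
  have h2 : orb M.commutant ξ ≤ LinearMap.ker y.toLinearMap := by
    refine orb_le _ _ _ y.isClosed_ker ?_
    intro x hx
    have h1 : y * x = x * y := VonNeumannAlgebra.mem_commutant_iff.1 hx y hy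
    have h2 : y (x ξ) = x (y ξ) := congrArg (fun T : H →L[ℂ] H => T ξ) h1
    simp [LinearMap.mem_ker, h2, h0]
  rw [← h1]
  ext η
  have := h2 (Submodule.starProjection_apply_mem (orb M.commutant ξ) η)
  simpa [LinearMap.mem_ker] using this

theorem mem_orb_self (N : VonNeumannAlgebra H) (ξ : H) : ξ ∈ orb N ξ := by
  have := mem_orb N ξ 1 (one_mem N)
  simpa using this

theorem starProjection_orb_mem' (M : VonNeumannAlgebra H) (ξ : H) :
    (orb M.commutant ξ).starProjection ∈ M := by
  have := starProjection_orb_mem M.commutant ξ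
  rwa [VonNeumannAlgebra.commutant_commutant] at this

/-- case (i): an abelian projection -/
theorem local_abelian (M : VonNeumannAlgebra H) (P : (H →L[ℂ] H) →L[ℂ] (H →L[ℂ] H))
    (hP : IsBProj M P) (p : H →L[ℂ] H) (hp : IsStarProjection p) (hpM : p ∈ M) (hp0 : p ≠ 0)
    (hab : ∀ x ∈ M, ∀ y ∈ M, (p * x * p) * (p * y * p) = (p * y * p) * (p * x * p)) :
    ∃ p ∈ M, IsStarProjection p ∧ p ≠ 0 ∧ InjAt M p := by
  obtain ⟨ξ, hξ1, hξ⟩ := exists_unit p hp hp0
  set S := orb M.commutant ξ with hSdef
  have hS : S.starProjection ∈ M := starProjection_orb_mem' M ξ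
  obtain ⟨N, hN⟩ := exists_corner M S hS
  obtain ⟨P', hP'⟩ := bproj_corner M P hP S hS N hN
  have hpS : p * S.starProjection = S.starProjection :=
    mul_starProjection_of_fixed S p (orb_fixed M p hpM ξ hξ)
  have hSp : S.starProjection * p = S.starProjection := by
    have := congrArg star hpS
    rwa [star_mul, hp.isSelfAdjoint.star_eq,
      (isStarProjection_starProjection (U := S)).isSelfAdjoint.star_eq] at this
  have key : ∀ z : S →L[ℂ] S, p * ext S z * p = ext S z := by
    intro z
    have h1 : p * ext S z = ext S z := by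
      rw [← starProjection_mul_ext S z, ← mul_assoc, hpS]
    have h2 : ext S z * p = ext S z := by
      rw [← ext_mul_starProjection S z, mul_assoc, hSp]
    rw [h1, h2]
  have hab' : ∀ x ∈ N, ∀ y ∈ N, x * y = y * x := by
    intro x hx y hy
    have := hab (ext S x) ((hN x).1 hx) (ext S y) ((hN y).1 hy)
    rw [key, key, ← ext_mul, ← ext_mul] at this
    exact ext_inj S this
  have hΩ : ‖(⟨ξ, mem_orb_self _ _⟩ : S)‖ = 1 := hξ1
  exact finish M S hS N hN ⟨ξ, mem_orb_self _ _⟩ hΩ
    (fun y hy _ h2 h0 => sep_orb M ξ y hy h2 h0)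
    (qb_abelian N P' hP' hab' _ hΩ)

/-- case (ii): a non-unitary isometry -/
theorem local_infinite (M : VonNeumannAlgebra H) (P : (H →L[ℂ] H) →L[ℂ] (H →L[ℂ] H))
    (hP : IsBProj M P) (v : H →L[ℂ] H) (hvM : v ∈ M) (hv : star v * v = 1)
    (hv' : v * star v ≠ 1) :
    ∃ p ∈ M, IsStarProjection p ∧ p ≠ 0 ∧ InjAt M p := by
  have he : IsStarProjection (1 - v * star v) := by
    refine ⟨?_, ?_⟩
    · show (1 - v * star v) * (1 - v * star v) = 1 - v * star v
      have : v * star v * (v * star v) = v * star v := by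
        rw [mul_assoc, ← mul_assoc (star v), hv, one_mul]
      rw [mul_sub, sub_mul, sub_mul, this]
      simp
    · rw [IsSelfAdjoint, star_sub, star_one, star_mul, star_star]
  have he0 : (1 - v * star v) ≠ 0 := fun h => hv' (sub_eq_zero.1 h).symm
  have heM : (1 - v * star v) ∈ M := sub_mem (one_mem M) (mul_mem hvM (star_mem hvM))
  obtain ⟨ξ, hξ1, hξ⟩ := exists_unit _ he he0
  set S := orb M.commutant ξ with hSdef
  have hS : S.starProjection ∈ M := starProjection_orb_mem' M ξ
  obtain ⟨N, hN⟩ := exists_corner M S hS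
  have hpS : (1 - v * star v) * S.starProjection = S.starProjection :=
    mul_starProjection_of_fixed S _ (orb_fixed M _ heM ξ hξ)
  have hSp : S.starProjection * (1 - v * star v) = S.starProjection := by
    have := congrArg star hpS
    rwa [star_mul, he.isSelfAdjoint.star_eq,
      (isStarProjection_starProjection (U := S)).isSelfAdjoint.star_eq] at this
  have hSv : S.starProjection * v = 0 := by
    rw [← hSp, mul_assoc, sub_mul, mul_assoc, hv]
    simp
  have hvS : star v * S.starProjection = 0 := by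
    have := congrArg star hSv
    rwa [star_mul, (isStarProjection_starProjection (U := S)).isSelfAdjoint.star_eq,
      star_zero] at this
  have hpow : ∀ k : ℕ, star v ^ k * v ^ k = 1 := by
    intro k
    induction k with
    | zero => simp
    | succ k ih =>
      rw [pow_succ (star v), pow_succ' v, mul_assoc, ← mul_assoc (star v) v, hv, one_mul, ih]
  have hSS : S.starProjection * S.starProjection = S.starProjection :=
    (isStarProjection_starProjection (U := S)).isIdempotentElem
  have hW : ∀ s t : ℕ, star (v ^ s * S.starProjection) * (v ^ t * S.starProjection) =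
      if s = t then S.starProjection else 0 := by
    intro s t
    rw [star_mul, star_pow, (isStarProjection_starProjection (U := S)).isSelfAdjoint.star_eq]
    rcases lt_trichotomy s t with h | h | h
    · rw [if_neg h.ne]
      obtain ⟨k, rfl⟩ := Nat.exists_eq_add_of_lt h
      rw [mul_assoc, ← mul_assoc (star v ^ s), show s + k + 1 = s + (k + 1) by ring, pow_add,
        ← mul_assoc (star v ^ s), hpow, one_mul, pow_succ', ← mul_assoc, ← mul_assoc,
        hSv, zero_mul, zero_mul]
    · subst h
      rw [if_pos rfl, mul_assoc, ← mul_assoc (star v ^ s), hpow, one_mul, hSS]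
    · rw [if_neg h.ne']
      obtain ⟨k, rfl⟩ := Nat.exists_eq_add_of_lt h
      rw [show t + k + 1 = (k + 1) + t by ring, pow_add, mul_assoc, mul_assoc,
        ← mul_assoc (star v ^ t), hpow, one_mul, pow_succ, mul_assoc, hvS]
      simp
  have hΩ : ‖(⟨ξ, mem_orb_self _ _⟩ : S)‖ = 1 := hξ1
  refine finish M S hS N hN ⟨ξ, mem_orb_self _ _⟩ hΩ
    (fun y hy _ h2 h0 => sep_orb M ξ y hy h2 h0) ?_
  refine qb_inf M P hP S hS N hN ?_ _ hΩ
  intro K
  refine ⟨fun s => v ^ (s : ℕ) * S.starProjection, ?_, ?_, ?_⟩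
  · intro s
    exact mul_mem (pow_mem hvM _) hS
  · simp
  · intro s t
    rw [hW s t]
    by_cases h : s = t
    · simp [h]
    · rw [if_neg h, if_neg (fun h' => h (Fin.ext h'))]

theorem mem_range_proj (q : H →L[ℂ] H) (hq : IsStarProjection q) (η : H) :
    η ∈ LinearMap.range q.toLinearMap ↔ q η = η := by
  constructor
  · rintro ⟨ζ, rfl⟩
    exact congrArg (fun T : H →L[ℂ] H => T ζ) hq.isIdempotentElem
  · intro h
    exact ⟨η, h⟩

theorem isClosed_range_proj (q : H →L[ℂ] H) (hq : IsStarProjection q) :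
    IsClosed (LinearMap.range q.toLinearMap : Set H) := by
  have : (LinearMap.range q.toLinearMap : Set H) =
      LinearMap.ker (q - 1 : H →L[ℂ] H).toLinearMap := by
    ext η
    rw [SetLike.mem_coe, mem_range_proj q hq]
    simp [LinearMap.mem_ker, sub_eq_zero]
  rw [this]
  exact (q - 1 : H →L[ℂ] H).isClosed_ker

theorem starProjection_range_proj (q : H →L[ℂ] H) (hq : IsStarProjection q)
    [CompleteSpace (LinearMap.range q.toLinearMap)] :
    (LinearMap.range q.toLinearMap).starProjection = q := by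
  ext η
  refine Submodule.eq_starProjection_of_mem_of_inner_eq_zero
    (LinearMap.mem_range_self q.toLinearMap η) ?_
  rintro _ ⟨ζ, rfl⟩
  have h1 : ⟪η - q η, q ζ⟫_ℂ = ⟪q (η - q η), ζ⟫_ℂ := by
    have h2 := ContinuousLinearMap.adjoint_inner_left q ζ (η - q η)
    rw [← ContinuousLinearMap.star_eq_adjoint, hq.isSelfAdjoint.star_eq] at h2
    exact h2.symm
  show ⟪η - q η, q ζ⟫_ℂ = 0
  rw [h1, map_sub]
  have h3 : q (q η) = q η := congrArg (fun T : H →L[ℂ] H => T η) hq.isIdempotentElem
  rw [h3, sub_self, inner_zero_left]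

/-- case (iii): finite and continuous -/
theorem local_finite (M : VonNeumannAlgebra H) (P : (H →L[ℂ] H) →L[ℂ] (H →L[ℂ] H))
    (hP : IsBProj M P) [Nontrivial H]
    (hcont : ∀ p ∈ M, IsStarProjection p → p ≠ 0 →
      ∃ x ∈ M, ∃ y ∈ M, (p * x * p) * (p * y * p) ≠ (p * y * p) * (p * x * p))
    (hfin : ∀ v ∈ M, star v * v = 1 → v * star v = 1) :
    ∃ p ∈ M, IsStarProjection p ∧ p ≠ 0 ∧ InjAt M p := by
  obtain ⟨ξ, hξ1, -⟩ := exists_unit (1 : H →L[ℂ] H) ⟨one_mul 1, IsSelfAdjoint.one _⟩ one_ne_zero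
  have hpM : (orb M.commutant ξ).starProjection ∈ M := starProjection_orb_mem' M ξ
  set p := (orb M.commutant ξ).starProjection with hpdef
  have hp : IsStarProjection p := isStarProjection_starProjection
  have hpξ : p ξ = ξ := Submodule.starProjection_eq_self_iff.2 (mem_orb_self _ _)
  have hξ0 : ξ ≠ 0 := by rintro rfl; simp at hξ1
  have hp0 : p ≠ 0 := by
    intro h
    rw [h] at hpξ
    exact hξ0 (by simpa using hpξ.symm)
  obtain ⟨q, hqM, hq, hq0, hpq, htr⟩ := near_trace M hfin p hp hpM hp0 ξ hpξ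
    (fun y hy _ h2 h0 => sep_orb M ξ y hy h2 h0) 2 (by norm_num)
  have hqp : q * p = q := by
    have := congrArg star hpq
    rwa [star_mul, hq.isSelfAdjoint.star_eq, hp.isSelfAdjoint.star_eq] at this
  -- the corner of `q`
  have hqq : q * q = q := hq.isIdempotentElem
  set S : Submodule ℂ H := LinearMap.range q.toLinearMap with hSdef
  have : CompleteSpace S := (isClosed_range_proj q hq).completeSpace_coe
  have hSq : S.starProjection = q := starProjection_range_proj q hq
  have hS : S.starProjection ∈ M := by rw [hSq]; exact hqM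
  obtain ⟨N, hN⟩ := exists_corner M S hS
  obtain ⟨P', hP'⟩ := bproj_corner M P hP S hS N hN
  -- the vector
  have hqξ0 : q ξ ≠ 0 := by
    intro h
    have h1 : q = 0 := sep_orb M ξ q hqM hqp h
    exact hq0 h1
  set c : ℂ := ((‖q ξ‖⁻¹ : ℝ) : ℂ) with hc
  have hc0 : c ≠ 0 := by
    rw [hc]
    exact_mod_cast inv_ne_zero (norm_ne_zero_iff.2 hqξ0)
  set Ω : S := c • ⟨q ξ, ⟨ξ, rfl⟩⟩ with hΩdef
  have hΩc : (Ω : H) = c • q ξ := rfl
  have hΩ : ‖Ω‖ = 1 := by
    show ‖(Ω : H)‖ = 1
    rw [hΩc, norm_smul, hc, Complex.norm_real, norm_inv, norm_norm,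
      inv_mul_cancel₀ (norm_ne_zero_iff.2 hqξ0)]
  have hyΩ : ∀ y : H →L[ℂ] H, y * q = y → y (Ω : H) = c • y ξ := by
    intro y hy
    rw [hΩc, map_smul]
    congr 1
    exact congrArg (fun T : H →L[ℂ] H => T ξ) hy
  refine finish M S hS N hN Ω hΩ ?_ ?_
  · intro y hy h1 h2 h0
    rw [hSq] at h1 h2
    rw [hyΩ y h2] at h0
    have h3 : y ξ = 0 := (smul_eq_zero.1 h0).resolve_left hc0
    refine sep_orb M ξ y hy ?_ h3
    rw [← h2, mul_assoc]
    exact congrArg (fun T => y * T) hqp
  · -- almost trace and frames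
    have hext : ∀ z : S →L[ℂ] S, q * ext S z = ext S z ∧ ext S z * q = ext S z := by
      intro z
      constructor
      · rw [← hSq]; exact starProjection_mul_ext S z
      · rw [← hSq]; exact ext_mul_starProjection S z
    have hstar : ∀ z : S →L[ℂ] S, ext S (star z) = star (ext S z) := ext_star' S
    have hcmp : ∀ w : H →L[ℂ] H, q * w = w → w * q = w → ext S (cmp S w) = w := by
      intro w h1 h2
      ext η
      rw [ext_apply, cmp_apply]
      have e1 : ((S.orthogonalProjectionOnto η : S) : H) = q η := by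
        rw [← hSq]; rfl
      have e2 : ∀ ζ : H, ((S.orthogonalProjectionOnto ζ : S) : H) = q ζ := by
        intro ζ; rw [← hSq]; rfl
      rw [e2, e1]
      have e3 : q (w (q η)) = (q * w * q) η := rfl
      rw [e3, h1, h2]
    refine qb_trace N P' hP' Ω hΩ 2 (by norm_num) ?_ ?_
    · intro z hz
      have h1 := htr (ext S z) ((hN z).1 hz) (hext z).1 (hext z).2
      have e1 : ‖z Ω‖ = ‖c‖ * ‖ext S z ξ‖ := by
        rw [← norm_smul, ← hyΩ _ (hext z).2, ext_coe]
        rfl
      have e2 : ‖star z Ω‖ = ‖c‖ * ‖star (ext S z) ξ‖ := by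
        rw [← norm_smul, ← hyΩ _ (by rw [← hstar]; exact (hext _).2), ← hstar, ext_coe]
        rfl
      rw [e1, e2, mul_pow, mul_pow]
      nlinarith [sq_nonneg ‖c‖]
    · intro K
      obtain ⟨W, e, he, hWM, hWq, hWW, hWs⟩ := frames M hcont q hq hqM K
      refine ⟨2 ^ K, (Nat.lt_two_pow_self).le, fun s => cmp S (W s), cmp S e, ?_, ?_, ?_, ?_⟩
      · have heq : q * e = e ∧ e * q = e := by
          have h0 : e = star (W ⟨0, by positivity⟩) * W ⟨0, by positivity⟩ := by
            rw [hWW, if_pos rfl]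
          constructor
          · rw [h0, ← mul_assoc]
            congr 1
            have := congrArg star (hWq ⟨0, by positivity⟩).2
            rwa [star_mul, hq.isSelfAdjoint.star_eq] at this
          · rw [h0, mul_assoc]
            congr 1
            exact (hWq ⟨0, by positivity⟩).2
        refine ⟨?_, ?_⟩
        · show cmp S e * cmp S e = cmp S e
          apply ext_inj S
          rw [ext_mul, hcmp e heq.1 heq.2]
          exact he.isIdempotentElem
        · show star (cmp S e) = cmp S e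
          apply ext_inj S
          rw [hstar, hcmp e heq.1 heq.2]
          exact he.isSelfAdjoint.star_eq
      · intro s
        rw [hN, hcmp _ (hWq s).1 (hWq s).2]
        exact hWM s
      · intro s t
        apply ext_inj S
        rw [ext_mul, hstar, hcmp _ (hWq s).1 (hWq s).2, hcmp _ (hWq t).1 (hWq t).2, hWW]
        by_cases h : s = t
        · rw [if_pos h, if_pos h]
          have heq : q * e = e ∧ e * q = e := by
            have h0 : e = star (W s) * W s := by
              rw [hWW, if_pos rfl]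
            constructor
            · rw [h0, ← mul_assoc]
              congr 1
              have := congrArg star (hWq s).2
              rwa [star_mul, hq.isSelfAdjoint.star_eq] at this
            · rw [h0, mul_assoc]
              congr 1
              exact (hWq s).2
          rw [hcmp e heq.1 heq.2]
        · rw [if_neg h, if_neg h, map_zero]
      · apply ext_inj S
        rw [map_sum, ext_one, hSq, ← hWs]
        refine Finset.sum_congr rfl fun s _ => ?_
        rw [ext_mul, hstar, hcmp _ (hWq s).1 (hWq s).2]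

/-- LOCAL -/
theorem local_theorem (M : VonNeumannAlgebra H) (P : (H →L[ℂ] H) →L[ℂ] (H →L[ℂ] H))
    (hP : IsBProj M P) [Nontrivial H] : ∃ p ∈ M, IsStarProjection p ∧ p ≠ 0 ∧ InjAt M p := by
  by_cases h1 : ∀ p ∈ M, IsStarProjection p → p ≠ 0 →
      ∃ x ∈ M, ∃ y ∈ M, (p * x * p) * (p * y * p) ≠ (p * y * p) * (p * x * p)
  · by_cases h2 : ∀ v ∈ M, star v * v = 1 → v * star v = 1
    · exact local_finite M P hP h1 h2
    · push Not at h2
      obtain ⟨v, hvM, hv, hv'⟩ := h2
      exact local_infinite M P hP v hvM hv hv'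
  · push Not at h1
    obtain ⟨p, hpM, hp, hp0, hab⟩ := h1
    exact local_abelian M P hP p hp hpM hp0 hab

/-- LOCAL for corners -/
theorem local_theorem' (M : VonNeumannAlgebra H) (P : (H →L[ℂ] H) →L[ℂ] (H →L[ℂ] H))
    (hP : IsBProj M P) (r : H →L[ℂ] H) (hr : IsStarProjection r) (hrM : r ∈ M) (hr0 : r ≠ 0) :
    ∃ p ∈ M, IsStarProjection p ∧ p ≠ 0 ∧ r * p = p ∧ InjAt M p := by
  set S : Submodule ℂ H := LinearMap.range r.toLinearMap with hSdef
  have : CompleteSpace S := (isClosed_range_proj r hr).completeSpace_coe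
  have hSr : S.starProjection = r := starProjection_range_proj r hr
  have hS : S.starProjection ∈ M := by rw [hSr]; exact hrM
  obtain ⟨N, hN⟩ := exists_corner M S hS
  obtain ⟨P', hP'⟩ := bproj_corner M P hP S hS N hN
  have : Nontrivial S := by
    obtain ⟨ξ, h1, h2⟩ := exists_unit r hr hr0
    refine ⟨⟨ξ, (mem_range_proj r hr ξ).2 h2⟩, 0, ?_⟩
    intro h
    have h3 : ξ = 0 := congrArg Subtype.val h
    rw [h3, norm_zero] at h1
    exact zero_ne_one h1
  obtain ⟨q, hqN, hq, hq0, hinj⟩ := local_theorem N P' hP'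
  have hstar : ∀ z : S →L[ℂ] S, ext S (star z) = star (ext S z) := ext_star' S
  refine ⟨ext S q, (hN q).1 hqN, ⟨?_, ?_⟩, ?_, ?_, injAt_of_corner M S hS N hN q hq hqN hinj⟩
  · show ext S q * ext S q = ext S q
    rw [← ext_mul, hq.isIdempotentElem]
  · show star (ext S q) = ext S q
    rw [← hstar, hq.isSelfAdjoint.star_eq]
  · intro h
    exact hq0 (ext_inj S (by rw [h, map_zero]))
  · rw [← hSr]
    exact starProjection_mul_ext S q

end Pool.Agent.Helper67.Inj
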