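import Pool.Agent.Helper67.Inj.Local
import Pool.Agent.Helper67.Inj.Glob

set_option autoImplicit false

open scoped InnerProductSpace ComplexOrder TensorProduct Topology

namespace Pool.Agent.Helper67.Inj

universe u

variable {H : Type u} [NormedAddCommGroup H] [InnerProductSpace ℂ H] [CompleteSpace H]

theorem main (M : VonNeumannAlgebra H)
    (h : ∃ P : (H →L[ℂ] H) →L[ℂ] (H →L[ℂ] H), (∀ x, P x ∈ M) ∧ (∀ m ∈ M, P m = m)) :
    ∃ Q : (H →L[ℂ] H) →L[ℂ] (H →L[ℂ] H), (∀ x, Q x ∈ M) ∧ (∀ m ∈ M, Q m = m) ∧ ‖Q‖ ≤ 1 := by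
  obtain ⟨P, hP1, hP2⟩ := h
  obtain ⟨E, hcp, hM, -, hE⟩ := glob M (fun r hrM hr hr0 =>
    local_theorem' M P ⟨hP1, hP2⟩ r hr hrM hr0)
  have hE1 : E 1 = 1 := hE 1 (one_mem M) (by simp) (by simp)
  have hb : ∀ x, ‖E x‖ ≤ ‖x‖ := cp_contractive E hcp (by
    rw [hE1]; exact ContinuousLinearMap.norm_id_le)
  refine ⟨E.mkContinuous 1 (fun x => by simpa using hb x), fun x => hM x,
    fun m hm => hE m hm (by simp) (by simp), LinearMap.mkContinuous_norm_le _ zero_le_one _⟩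

end Pool.Agent.Helper67.Inj
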