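import Pool.Agent.Helper67.Inj.Defs

set_option autoImplicit false

open scoped InnerProductSpace ComplexOrder TensorProduct Topology

namespace Pool.Agent.Helper67.Inj

universe u

variable {H : Type u} [NormedAddCommGroup H] [InnerProductSpace ℂ H] [CompleteSpace H]

/-- POW -/
theorem power_trick {K : Type*} [NormedAddCommGroup K] [InnerProductSpace ℂ K] [CompleteSpace K]
    (Ω : K) (hΩ : ‖Ω‖ = 1) (L : K →L[ℂ] K) (hL : star L = L) (r : ℝ)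
    (hr : (⟪Ω, L Ω⟫_ℂ).re = r) (h0 : 0 ≤ r) (j : ℕ) :
    r ^ (2 ^ j) ≤ (⟪Ω, (L ^ (2 ^ j)) Ω⟫_ℂ).re := by
  induction j with
  | zero => simp [hr]
  | succ j ih =>
    have hs : star (L ^ (2 ^ j)) = L ^ (2 ^ j) := by rw [star_pow, hL]
    have e : ⟪Ω, (L ^ (2 ^ (j + 1))) Ω⟫_ℂ = ⟪(L ^ (2 ^ j)) Ω, (L ^ (2 ^ j)) Ω⟫_ℂ := by
      have e1 : (L ^ (2 ^ (j + 1))) Ω = (L ^ (2 ^ j)) ((L ^ (2 ^ j)) Ω) := by
        rw [pow_succ 2 j, mul_two, pow_add]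
        rfl
      have e2 : (ContinuousLinearMap.adjoint (L ^ (2 ^ j))) Ω = (L ^ (2 ^ j)) Ω := by
        rw [← ContinuousLinearMap.star_eq_adjoint, hs]
      rw [e1, ← ContinuousLinearMap.adjoint_inner_left, e2]
    rw [e, inner_self_eq_norm_sq_to_K]
    have h1 : (⟪Ω, (L ^ (2 ^ j)) Ω⟫_ℂ).re ≤ ‖(L ^ (2 ^ j)) Ω‖ := by
      calc (⟪Ω, (L ^ (2 ^ j)) Ω⟫_ℂ).re ≤ ‖⟪Ω, (L ^ (2 ^ j)) Ω⟫_ℂ‖ := Complex.re_le_norm _
        _ ≤ ‖Ω‖ * ‖(L ^ (2 ^ j)) Ω‖ := norm_inner_le_norm _ _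
        _ = _ := by rw [hΩ, one_mul]
    have h2 : 0 ≤ r ^ (2 ^ j) := pow_nonneg h0 _
    have h3 : r ^ (2 ^ j) ≤ ‖(L ^ (2 ^ j)) Ω‖ := ih.trans h1
    have h4 : r ^ 2 ^ (j + 1) = (r ^ (2 ^ j)) ^ 2 := by rw [pow_succ 2 j, pow_mul]
    rw [h4]
    have h5 : ((‖(L ^ (2 ^ j)) Ω‖ : ℂ) ^ 2).re = ‖(L ^ (2 ^ j)) Ω‖ ^ 2 := by
      rw [← Complex.ofReal_pow, Complex.ofReal_re]
    change _ ≤ ((‖(L ^ (2 ^ j)) Ω‖ : ℂ) ^ 2).re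
    rw [h5]
    exact pow_le_pow_left₀ h2 h3 2

/-- GROW -/
theorem growth (r ρ c : ℝ) (k : ℕ) (h0 : 0 ≤ r) (hρ : 0 < ρ) (hc : 0 ≤ c)
    (h : ∀ j : ℕ, ∀ L : ℕ, Real.log ((k : ℝ) ^ (2 ^ j)) ≤ L →
      r ^ (2 ^ j) ≤ c * ((2 * (L : ℝ) + 3) ^ 2) * ρ ^ (2 ^ j)) : r ≤ ρ := by
  by_contra hcon
  push Not at hcon
  set a := Real.log (k : ℝ) with ha
  have ha0 : 0 ≤ a := Real.log_natCast_nonneg k
  set q := r / ρ with hq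
  have hq1 : 1 < q := (one_lt_div hρ).2 hcon
  have hkey : ∀ j : ℕ, q ^ (2 ^ j) ≤ c * (2 * a + 5) ^ 2 * ((2 ^ j : ℕ) : ℝ) ^ 2 := by
    intro j
    set m : ℕ := 2 ^ j with hm
    have hm1 : (1 : ℝ) ≤ m := by
      have : 1 ≤ m := Nat.one_le_two_pow
      exact_mod_cast this
    have hL := h j ⌈(m : ℝ) * a⌉₊ (by
      rw [Real.log_pow]
      exact Nat.le_ceil _)
    have hceil : (⌈(m : ℝ) * a⌉₊ : ℝ) ≤ m * a + 1 :=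
      (Nat.ceil_lt_add_one (by positivity)).le
    have h1 : 2 * (⌈(m : ℝ) * a⌉₊ : ℝ) + 3 ≤ (2 * a + 5) * m := by nlinarith
    have h2 : (2 * (⌈(m : ℝ) * a⌉₊ : ℝ) + 3) ^ 2 ≤ ((2 * a + 5) * m) ^ 2 :=
      pow_le_pow_left₀ (by positivity) h1 2
    have hρm : 0 < ρ ^ m := pow_pos hρ m
    rw [hq, div_pow, div_le_iff₀ hρm]
    refine hL.trans ?_
    apply mul_le_mul_of_nonneg_right _ hρm.le
    calc c * (2 * (⌈(m : ℝ) * a⌉₊ : ℝ) + 3) ^ 2 ≤ c * ((2 * a + 5) * m) ^ 2 :=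
          mul_le_mul_of_nonneg_left h2 hc
      _ = _ := by ring
  have ht := tendsto_pow_const_div_const_pow_of_one_lt 2 hq1
  have ht2 : Filter.Tendsto (fun n : ℕ => c * (2 * a + 5) ^ 2 * ((n : ℝ) ^ 2 / q ^ n))
      Filter.atTop (𝓝 0) := by
    have := ht.const_mul (c * (2 * a + 5) ^ 2)
    rwa [mul_zero] at this
  have ht3 := (ht2.comp (tendsto_pow_atTop_atTop_of_one_lt (one_lt_two : 1 < (2 : ℕ)))).eventually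
    (gt_mem_nhds (zero_lt_one : (0 : ℝ) < 1))
  obtain ⟨j, hj⟩ := ht3.exists
  simp only [Function.comp] at hj
  have hqp : 0 < q ^ (2 ^ j) := pow_pos (zero_lt_one.trans hq1) _
  rw [← mul_div_assoc, div_lt_one hqp] at hj
  exact absurd (hkey j) (not_le.2 hj)

end Pool.Agent.Helper67.Inj
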