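import Pool.Agent.Helper67.Inj.Defs

set_option autoImplicit false

open scoped InnerProductSpace ComplexOrder TensorProduct Topology

namespace Pool.Agent.Helper67.Inj

universe u

variable {K : Type u} [NormedAddCommGroup K] [InnerProductSpace ℂ K] [CompleteSpace K]

private lemma rd_real_smul (a : ℝ) (x : K) : a • x = (a : ℂ) • x := (Complex.coe_smul a x).symm

/-- the real projection with its properties -/
private lemma rd_exists_proj (S : Submodule ℝ K) (hS : IsClosed (S : Set K)) :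
    ∃ P : K →L[ℝ] K, (∀ x, P x ∈ S) ∧ (∀ x ∈ S, P x = x) ∧
      (∀ x y, (⟪P x, y⟫_ℂ).re = (⟪x, P y⟫_ℂ).re) ∧
      (∀ x, (∀ s ∈ S, (⟪s, x⟫_ℂ).re = 0) → P x = 0) := by
  letI : InnerProductSpace ℝ K := ClosedSubmodule.instInnerProductSpaceReal
  haveI : CompleteSpace S := hS.completeSpace_coe
  refine ⟨S.starProjection, fun x => Submodule.starProjection_apply_mem S x,
    fun x hx => Submodule.starProjection_eq_self_iff.2 hx, fun x y => ?_, fun x hx => ?_⟩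
  · have := Submodule.inner_starProjection_left_eq_right S x y
    exact this
  · rw [Submodule.starProjection_apply_eq_zero_iff, Submodule.mem_orthogonal]
    intro s hs
    exact hx s hs

private lemma rd_double (S : Submodule ℝ K) (hS : IsClosed (S : Set K)) (η : K)
    (h : ∀ ζ : K, (∀ ξ ∈ S, (⟪ξ, ζ⟫_ℂ).im = 0) → (⟪ζ, η⟫_ℂ).im = 0) : η ∈ S := by
  let S' : ClosedSubmodule ℝ K := ⟨S, hS⟩
  have h1 : η ∈ S'.symplComp.symplComp := by
    rw [ClosedSubmodule.mem_symplComp_iff]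
    intro y hy
    rw [ClosedSubmodule.mem_symplComp_iff] at hy
    exact h y fun ξ hξ => hy ξ hξ
  rw [ClosedSubmodule.symplComp_symplComp_eq] at h1
  exact h1

private lemma rd_re_I (x y : K) : (⟪x, Complex.I • y⟫_ℂ).re = - (⟪x, y⟫_ℂ).im := by
  rw [inner_smul_right]; simp

private lemma rd_re_I' (x y : K) : (⟪Complex.I • x, y⟫_ℂ).re = (⟪x, y⟫_ℂ).im := by
  rw [inner_smul_left]; simp

/-- complex linearity from compatibility with `I` -/
private lemma rd_smul {F : K →L[ℝ] K} (hI : ∀ x, F (Complex.I • x) = Complex.I • F x) (c : ℂ) (x : K) :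
    F (c • x) = c • F x := by
  have hr : ∀ (a : ℝ) (y : K), F ((a : ℂ) • y) = (a : ℂ) • F y := by
    intro a y
    rw [← rd_real_smul, ← rd_real_smul, map_smul]
  have e : c = (c.re : ℂ) + (c.im : ℂ) * Complex.I := (Complex.re_add_im c).symm
  rw [e, add_smul, add_smul, map_add, mul_smul, mul_smul, hr, hr, hI]

private lemma rd_smul_conj {F : K →L[ℝ] K} (hI : ∀ x, F (Complex.I • x) = -(Complex.I • F x)) (c : ℂ) (x : K) :
    F (c • x) = (starRingEnd ℂ) c • F x := by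
  have hr : ∀ (a : ℝ) (y : K), F ((a : ℂ) • y) = (a : ℂ) • F y := by
    intro a y
    rw [← rd_real_smul, ← rd_real_smul, map_smul]
  have e : c = (c.re : ℂ) + (c.im : ℂ) * Complex.I := (Complex.re_add_im c).symm
  rw [e, add_smul, map_add, mul_smul, hr, hr, hI]
  simp only [map_add, map_mul, Complex.conj_ofReal, Complex.conj_I, add_smul, mul_smul, neg_smul, smul_neg]

/-- TT-R : the operators attached to a real subspace -/
theorem exists_RD (S : Submodule ℝ K) (hS : IsClosed (S : Set K))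
    (hsep : ∀ ξ ∈ S, Complex.I • ξ ∈ S → ξ = 0)
    (hcyc : ∀ η : K, (∀ ξ ∈ S, ⟪ξ, η⟫_ℂ = 0) → η = 0) :
    ∃ (R R' : K →L[ℂ] K) (D : K →L⋆[ℂ] K), 0 ≤ R ∧ 0 ≤ R' ∧
      R + R' = (2 : ℂ) • (1 : K →L[ℂ] K) ∧ (∀ ξ, R ξ = 0 → ξ = 0) ∧ (∀ ξ, R' ξ = 0 → ξ = 0) ∧
      (∀ ξ η, ⟪D ξ, η⟫_ℂ = ⟪D η, ξ⟫_ℂ) ∧ (∀ ξ, D (D ξ) = R (R' ξ)) ∧
      (∀ ξ, D (R ξ) = R' (D ξ)) ∧ (∀ ξ, D (R' ξ) = R (D ξ)) ∧
      (∀ ξ ∈ S, D ξ = R' ξ) ∧
      (∀ η : K, (∀ ξ ∈ S, (⟪ξ, η⟫_ℂ).im = 0) → D η = R η) ∧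
      (∀ η : K, (∀ ζ : K, (∀ ξ ∈ S, (⟪ξ, ζ⟫_ℂ).im = 0) → (⟪ζ, η⟫_ℂ).im = 0) → η ∈ S) := by
  obtain ⟨P, hPS, hPid, hPsym, hPker⟩ := rd_exists_proj S hS
  have hPP : ∀ x, P (P x) = P x := fun x => hPid _ (hPS x)
  -- the projection onto `i S`
  let iL : K →L[ℝ] K := (scalarSMulCLE K Complex.UnitI : K →L[ℝ] K)
  have hiL : ∀ x, iL x = Complex.I • x := fun x => rfl
  obtain ⟨Q, hQ⟩ : ∃ Q : K →L[ℝ] K, ∀ x, Q x = -(Complex.I • P (Complex.I • x)) :=
    ⟨-(iL ∘L P ∘L iL), fun x => rfl⟩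
  have II : ∀ x : K, Complex.I • Complex.I • x = -x := by
    intro x
    rw [smul_smul, Complex.I_mul_I, neg_one_smul]
  have hQI : ∀ x, Complex.I • Q x = P (Complex.I • x) := by
    intro x
    rw [hQ, smul_neg, II, neg_neg]
  have hQI' : ∀ x, Q (Complex.I • x) = Complex.I • P x := by
    intro x
    rw [hQ, II, map_neg, smul_neg, neg_neg]
  have hQQ : ∀ x, Q (Q x) = Q x := by
    intro x
    rw [hQ (Q x), hQI, hPP, ← hQ]
  have hQsym : ∀ x y, (⟪Q x, y⟫_ℂ).re = (⟪x, Q y⟫_ℂ).re := by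
    intro x y
    have h1 : (⟪Q x, y⟫_ℂ).re = (⟪P (Complex.I • x), Complex.I • y⟫_ℂ).re := by
      rw [← hQI, inner_smul_left, inner_smul_right, ← mul_assoc]
      simp
    have h2 : (⟪x, Q y⟫_ℂ).re = (⟪Complex.I • x, P (Complex.I • y)⟫_ℂ).re := by
      rw [← hQI, inner_smul_left, inner_smul_right, ← mul_assoc]
      simp
    rw [h1, h2, hPsym]
  have hQker : ∀ x, (∀ s ∈ S, (⟪s, x⟫_ℂ).im = 0) → Q x = 0 := by
    intro x hx
    rw [hQ, hPker _ (fun s hs => by rw [rd_re_I, hx s hs, neg_zero]), smul_zero, neg_zero]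
  -- definitions
  have hRI : ∀ x, (P + Q) (Complex.I • x) = Complex.I • (P + Q) x := by
    intro x
    rw [add_apply, add_apply, smul_add, hQI', hQI, add_comm]
  have hDI : ∀ x, (P - Q) (Complex.I • x) = -(Complex.I • (P - Q) x) := by
    intro x
    rw [sub_apply, sub_apply, smul_sub, hQI', hQI]
    abel
  let R : K →L[ℂ] K :=
    { toFun := fun x => (P + Q) x
      map_add' := fun x y => map_add (P + Q) x y
      map_smul' := rd_smul hRI
      cont := (P + Q).continuous }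
  let D : K →L⋆[ℂ] K :=
    { toFun := fun x => (P - Q) x
      map_add' := fun x y => map_add (P - Q) x y
      map_smul' := rd_smul_conj hDI
      cont := (P - Q).continuous }
  have hR : ∀ x, R x = P x + Q x := fun x => rfl
  have hD : ∀ x, D x = P x - Q x := fun x => rfl
  let R' : K →L[ℂ] K := (2 : ℂ) • (1 : K →L[ℂ] K) - R
  have hR' : ∀ x, R' x = x + x - (P x + Q x) := by
    intro x
    change (2 : ℂ) • x - R x = _
    rw [two_smul, hR]
  have hRsymre : ∀ x y, (⟪R x, y⟫_ℂ).re = (⟪x, R y⟫_ℂ).re := by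
    intro x y
    rw [hR, hR, inner_add_left, inner_add_right, Complex.add_re, Complex.add_re, hPsym, hQsym]
  have hRsym : ∀ x y, ⟪R x, y⟫_ℂ = ⟪x, R y⟫_ℂ := by
    intro x y
    apply Complex.ext (hRsymre x y)
    have h1 := hRsymre x (Complex.I • y)
    rw [map_smul, rd_re_I, rd_re_I] at h1
    exact neg_injective h1
  have hPre : ∀ x, (⟪x, P x⟫_ℂ).re = ‖P x‖ ^ 2 := by
    intro x
    have h1 := hPsym x (P x)
    rw [hPP] at h1
    rw [← h1, inner_self_eq_norm_sq_to_K]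
    norm_cast
  have hQre : ∀ x, (⟪x, Q x⟫_ℂ).re = ‖Q x‖ ^ 2 := by
    intro x
    have h1 := hQsym x (Q x)
    rw [hQQ] at h1
    rw [← h1, inner_self_eq_norm_sq_to_K]
    norm_cast
  have hRre : ∀ x, (⟪R x, x⟫_ℂ).re = ‖P x‖ ^ 2 + ‖Q x‖ ^ 2 := by
    intro x
    rw [hRsymre, hR, inner_add_right, Complex.add_re, hPre, hQre]
  have hself : ∀ x : K, (⟪x, x⟫_ℂ).re = ‖x‖ ^ 2 := by
    intro x
    rw [inner_self_eq_norm_sq_to_K]
    norm_cast
  have hR're : ∀ x, (⟪R' x, x⟫_ℂ).re = ‖x - P x‖ ^ 2 + ‖x - Q x‖ ^ 2 := by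
    intro x
    have h1 : (⟪R' x, x⟫_ℂ).re = 2 * ‖x‖ ^ 2 - (‖P x‖ ^ 2 + ‖Q x‖ ^ 2) := by
      have : ⟪R' x, x⟫_ℂ = ⟪x, x⟫_ℂ + ⟪x, x⟫_ℂ - ⟪R x, x⟫_ℂ := by
        rw [hR', ← hR, inner_sub_left, inner_add_left]
      rw [this, Complex.sub_re, Complex.add_re, hRre, hself]
      ring
    have h2 : ∀ y : K, (⟪x, y⟫_ℂ).re = ‖y‖ ^ 2 → ‖x - y‖ ^ 2 = ‖x‖ ^ 2 - ‖y‖ ^ 2 := by
      intro y hy
      rw [← hself (x - y), inner_sub_left, inner_sub_right, inner_sub_right]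
      simp only [Complex.sub_re]
      have h3 : (⟪y, x⟫_ℂ).re = ‖y‖ ^ 2 := by
        rw [← inner_conj_symm, Complex.conj_re, hy]
      rw [hself, hself, hy, h3]
      ring
    rw [h1, h2 _ (hPre x), h2 _ (hQre x)]
    ring
  have hR'sym : ∀ x y, ⟪R' x, y⟫_ℂ = ⟪x, R' y⟫_ℂ := by
    intro x y
    rw [hR', hR', ← hR, ← hR, inner_sub_left, inner_sub_right, inner_add_left, inner_add_right, hRsym]
  have hposof : ∀ X : K →L[ℂ] K, (∀ x y, ⟪X x, y⟫_ℂ = ⟪x, X y⟫_ℂ) → (∀ x, 0 ≤ (⟪X x, x⟫_ℂ).re) → 0 ≤ X := by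
    intro X h1 h2
    rw [ContinuousLinearMap.nonneg_iff_isPositive, ContinuousLinearMap.isPositive_iff_complex]
    intro x
    refine ⟨?_, h2 x⟩
    have h3 : (starRingEnd ℂ) ⟪X x, x⟫_ℂ = ⟪X x, x⟫_ℂ := by rw [inner_conj_symm, h1]
    exact Complex.conj_eq_iff_re.1 h3
  refine ⟨R, R', D, hposof R hRsym ?_, hposof R' hR'sym ?_, ?_, ?_, ?_, ?_, ?_, ?_, ?_, ?_, ?_, ?_⟩
  · intro x; rw [hRre]; positivity
  · intro x; rw [hR're]; positivity
  · change R + ((2 : ℂ) • (1 : K →L[ℂ] K) - R) = _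
    abel
  · intro ξ hξ
    have h1 := hRre ξ
    rw [hξ, inner_zero_left, Complex.zero_re] at h1
    have hp : ‖P ξ‖ ^ 2 = 0 := by nlinarith [sq_nonneg ‖P ξ‖, sq_nonneg ‖Q ξ‖]
    have hq : ‖Q ξ‖ ^ 2 = 0 := by nlinarith [sq_nonneg ‖P ξ‖, sq_nonneg ‖Q ξ‖]
    have hp' : P ξ = 0 := by simpa using hp
    have hq' : Q ξ = 0 := by simpa using hq
    refine hcyc ξ fun s hs => ?_
    apply Complex.ext
    · have := hPsym s ξ
      rw [hp', inner_zero_right, hPid s hs] at this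
      exact this
    · have h2 := hPsym s (Complex.I • ξ)
      rw [hPid s hs, ← hQI, hq', smul_zero, inner_zero_right, rd_re_I] at h2
      simpa using h2
  · intro ξ hξ
    have h1 := hR're ξ
    rw [hξ, inner_zero_left, Complex.zero_re] at h1
    have hp : ‖ξ - P ξ‖ ^ 2 = 0 := by nlinarith [sq_nonneg ‖ξ - P ξ‖, sq_nonneg ‖ξ - Q ξ‖]
    have hq : ‖ξ - Q ξ‖ ^ 2 = 0 := by nlinarith [sq_nonneg ‖ξ - P ξ‖, sq_nonneg ‖ξ - Q ξ‖]
    have hp' : ξ = P ξ := by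
      have : ξ - P ξ = 0 := by simpa using hp
      exact sub_eq_zero.1 this
    have hq' : ξ = Q ξ := by
      have : ξ - Q ξ = 0 := by simpa using hq
      exact sub_eq_zero.1 this
    refine hsep ξ (by rw [hp']; exact hPS _) ?_
    rw [hq', hQI]
    exact hPS _
  · intro ξ η
    have hre : ∀ x y, (⟪D x, y⟫_ℂ).re = (⟪D y, x⟫_ℂ).re := by
      intro x y
      rw [hD, hD, inner_sub_left, inner_sub_left, Complex.sub_re, Complex.sub_re, hPsym, hQsym,
        ← inner_conj_symm, Complex.conj_re, ← inner_conj_symm (Q y), Complex.conj_re]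
    apply Complex.ext (hre ξ η)
    have h1 := hre ξ (Complex.I • η)
    have h2 : D (Complex.I • η) = -(Complex.I • D η) := by
      have := hDI η
      exact this
    rw [h2, inner_neg_left, rd_re_I, Complex.neg_re, rd_re_I'] at h1
    exact neg_injective h1
  · intro ξ
    rw [hD, hD, hR, hR', map_sub, map_sub, map_sub, map_sub, map_add, map_add, map_add, map_add, hPP, hQQ]
    abel
  · intro ξ
    rw [hD, hR, hR', hD, map_add, map_add, map_sub, map_sub, hPP, hQQ]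
    abel
  · intro ξ
    rw [hD, hR', hR, hD, map_sub, map_sub, map_sub, map_sub, map_add, map_add, map_add, map_add, hPP, hQQ]
    abel
  · intro ξ hξ
    rw [hD, hR', hPid ξ hξ]
    abel
  · intro η hη
    rw [hD, hR, hQker η hη, sub_zero, add_zero]
  · exact fun η hη => rd_double S hS η hη

end Pool.Agent.Helper67.Inj
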