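import Pool.Agent.Helper67.Inj.Dec
import Pool.Agent.Helper67.Inj.Orb

set_option autoImplicit false

open scoped InnerProductSpace ComplexOrder TensorProduct Topology

namespace Pool.Agent.Helper67.Inj

universe u

variable {H : Type u} [NormedAddCommGroup H] [InnerProductSpace ℂ H] [CompleteSpace H]

private theorem sfm_add_left (N : VonNeumannAlgebra H) (Ω : H) (J : orb N Ω ≃ₗᵢ⋆[ℂ] orb N Ω)
    (y y' z : H →L[ℂ] H) :
    sfm N Ω J (y + y') z = sfm N Ω J y z + sfm N Ω J y' z := by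
  simp only [sfm, map_add, inner_add_right]

private theorem sfm_add_right (N : VonNeumannAlgebra H) (Ω : H) (J : orb N Ω ≃ₗᵢ⋆[ℂ] orb N Ω)
    (y z z' : H →L[ℂ] H) :
    sfm N Ω J y (z + z') = sfm N Ω J y z + sfm N Ω J y z' := by
  simp only [sfm, star_add, map_add, inner_add_left]

private theorem sfm_sub_self (N : VonNeumannAlgebra H) (Ω : H) (J : orb N Ω ≃ₗᵢ⋆[ℂ] orb N Ω)
    (y z : H →L[ℂ] H) :
    sfm N Ω J (y - z) (y - z) = sfm N Ω J y y - sfm N Ω J y z - sfm N Ω J z y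
      + sfm N Ω J z z := by
  simp only [sfm, star_sub, map_sub, inner_sub_left, inner_sub_right]
  ring

private theorem sfm_sum_sum (N : VonNeumannAlgebra H) (Ω : H) (J : orb N Ω ≃ₗᵢ⋆[ℂ] orb N Ω)
    {n : ℕ} (z w : Fin n → (H →L[ℂ] H)) :
    sfm N Ω J (∑ k, z k) (∑ l, w l) = ∑ k, ∑ l, sfm N Ω J (z k) (w l) := by
  simp only [sfm, star_sum, map_sum, sum_inner, inner_sum]

private theorem sfm_cross (N : VonNeumannAlgebra H) (Ω : H) (J : orb N Ω ≃ₗᵢ⋆[ℂ] orb N Ω)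
    (hJ : SF N Ω J) (y z : H →L[ℂ] H) (hy : y ∈ N) (hz : z ∈ N) :
    (sfm N Ω J y z).re + (sfm N Ω J z y).re ≤ (sfm N Ω J y y).re + (sfm N Ω J z z).re := by
  have h := hJ.pos (y - z) (sub_mem hy hz)
  have h1 : 0 ≤ (sfm N Ω J (y - z) (y - z)).re := (Complex.le_def.1 h).1
  rw [sfm_sub_self] at h1
  simp only [Complex.add_re, Complex.sub_re] at h1
  linarith

private theorem sfm_sum_le (N : VonNeumannAlgebra H) (Ω : H) (J : orb N Ω ≃ₗᵢ⋆[ℂ] orb N Ω)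
    (hJ : SF N Ω J) {n : ℕ} (z : Fin n → (H →L[ℂ] H)) (hz : ∀ k, z k ∈ N) :
    (sfm N Ω J (∑ k, z k) (∑ k, z k)).re ≤ n * ∑ k, (sfm N Ω J (z k) (z k)).re := by
  rw [sfm_sum_sum]
  simp only [Complex.re_sum]
  have h2 : ∑ k, ∑ l, ((sfm N Ω J (z k) (z l)).re + (sfm N Ω J (z l) (z k)).re) ≤
      ∑ k, ∑ l, ((sfm N Ω J (z k) (z k)).re + (sfm N Ω J (z l) (z l)).re) :=
    Finset.sum_le_sum fun k _ => Finset.sum_le_sum fun l _ =>
      sfm_cross N Ω J hJ _ _ (hz k) (hz l)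
  have h3 : ∑ k, ∑ l, ((sfm N Ω J (z k) (z l)).re + (sfm N Ω J (z l) (z k)).re) =
      2 * ∑ k, ∑ l, (sfm N Ω J (z k) (z l)).re := by
    simp only [Finset.sum_add_distrib]
    rw [Finset.sum_comm (f := fun k l => (sfm N Ω J (z l) (z k)).re)]
    ring
  have h4 : ∑ k : Fin n, ∑ l : Fin n, ((sfm N Ω J (z k) (z k)).re + (sfm N Ω J (z l) (z l)).re) =
      2 * (n * ∑ k, (sfm N Ω J (z k) (z k)).re) := by
    simp only [Finset.sum_add_distrib, Finset.sum_const, Finset.card_univ, Fintype.card_fin,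
      nsmul_eq_mul, ← Finset.mul_sum]
    ring
  rw [h3, h4] at h2
  linarith

private theorem norm_vec (N : VonNeumannAlgebra H) (Ω : H) (y : H →L[ℂ] H) (hy : y ∈ N) :
    ‖vec N Ω y‖ = ‖y Ω‖ := by
  rw [← coe_vec N Ω y hy]; rfl

private theorem sfm_self_le (N : VonNeumannAlgebra H) (Ω : H) (J : orb N Ω ≃ₗᵢ⋆[ℂ] orb N Ω)
    (z : H →L[ℂ] H) (hz : z ∈ N) :
    (sfm N Ω J z z).re ≤ ‖star z Ω‖ * ‖z Ω‖ := by
  have hz' : star z ∈ N := star_mem hz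
  calc (sfm N Ω J z z).re ≤ ‖sfm N Ω J z z‖ := Complex.re_le_norm _
    _ ≤ ‖J (vec N Ω (star z))‖ * ‖vec N Ω z‖ := norm_inner_le_norm _ _
    _ = ‖star z Ω‖ * ‖z Ω‖ := by
      rw [LinearIsometryEquiv.norm_map, norm_vec N Ω _ hz', norm_vec N Ω _ hz]

/-- S5A : one step estimate -/
theorem sfm_le_dec (N : VonNeumannAlgebra H) (Ω : H) (J : orb N Ω ≃ₗᵢ⋆[ℂ] orb N Ω)
    (hJ : SF N Ω J) (hQ : QB N Ω) (C : H ≃ₗᵢ⋆[ℂ] H) :
    ∃ A : ℝ, 0 ≤ A ∧ ∀ (K : ℕ), 1 ≤ K → ∀ (y : Fin K → (H →L[ℂ] H)), (∀ i, y i ∈ N) →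
      ∀ (ρ : ℝ), ‖Phi C y‖ < ρ → ∀ L : ℕ, Real.log K ≤ L →
      ∑ i, (sfm N Ω J (y i) (y i)).re ≤ A * ((2 * (L : ℝ) + 3) ^ 2) * ρ := by
  obtain ⟨A, hA, hP⟩ := hQ
  refine ⟨20 * A, by positivity, ?_⟩
  intro K hK y hy ρ hρ L hL
  obtain ⟨P, hPN, hPid, hPb⟩ := hP K
  obtain ⟨Y, hY, hYb⟩ := dec C K hK y ρ hρ L hL
  have hρ0 : 0 ≤ ρ := (ContinuousLinearMap.opNorm_nonneg (Phi C y)).trans hρ.le
  have hyz : ∀ i, y i = ∑ k, P (Y k i) := by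
    intro i
    rw [← map_sum, ← hY i, hPid _ (hy i)]
  have hk : ∀ k, ∑ i, (sfm N Ω J (P (Y k i)) (P (Y k i))).re ≤ 20 * A * ρ := by
    intro k
    obtain ⟨hc, hr⟩ := hPb (Y k)
    have h1 : ∑ i, (sfm N Ω J (P (Y k i)) (P (Y k i))).re ≤
        ∑ i, ‖star (P (Y k i)) Ω‖ * ‖P (Y k i) Ω‖ :=
      Finset.sum_le_sum fun i _ => sfm_self_le N Ω J _ (hPN _)
    have h2 : (∑ i, ‖star (P (Y k i)) Ω‖ * ‖P (Y k i) Ω‖) ^ 2 ≤
        (∑ i, ‖star (P (Y k i)) Ω‖ ^ 2) * ∑ i, ‖P (Y k i) Ω‖ ^ 2 :=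
      Finset.sum_mul_sq_le_sq_mul_sq _ _ _
    have h3 : (∑ i, ‖star (P (Y k i)) Ω‖ ^ 2) * ∑ i, ‖P (Y k i) Ω‖ ^ 2 ≤
        (A * rowSq (Y k)) * (A * colSq (Y k)) := by
      apply mul_le_mul hr hc (Finset.sum_nonneg fun i _ => by positivity)
      exact mul_nonneg hA (norm_nonneg _)
    have h4 : (A * rowSq (Y k)) * (A * colSq (Y k)) ≤ (20 * A * ρ) ^ 2 := by
      have h5 := mul_le_mul_of_nonneg_left (hYb k) (by positivity : (0:ℝ) ≤ A ^ 2)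
      calc (A * rowSq (Y k)) * (A * colSq (Y k)) = A ^ 2 * (rowSq (Y k) * colSq (Y k)) := by ring
        _ ≤ A ^ 2 * (20 * ρ) ^ 2 := h5
        _ = (20 * A * ρ) ^ 2 := by ring
    have h6 : ∑ i, ‖star (P (Y k i)) Ω‖ * ‖P (Y k i) Ω‖ ≤ 20 * A * ρ :=
      abs_le_of_sq_le_sq' (h2.trans (h3.trans h4)) (by positivity) |>.2
    exact h1.trans h6
  have hi : ∀ i, (sfm N Ω J (y i) (y i)).re ≤
      ((2 * L + 3 : ℕ) : ℝ) * ∑ k, (sfm N Ω J (P (Y k i)) (P (Y k i))).re := by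
    intro i
    have := sfm_sum_le N Ω J hJ (fun k => P (Y k i)) (fun k => hPN _)
    rw [← hyz i] at this
    exact this
  calc ∑ i, (sfm N Ω J (y i) (y i)).re ≤
        ∑ i, ((2 * L + 3 : ℕ) : ℝ) * ∑ k, (sfm N Ω J (P (Y k i)) (P (Y k i))).re :=
      Finset.sum_le_sum fun i _ => hi i
    _ = ((2 * L + 3 : ℕ) : ℝ) * ∑ k, ∑ i, (sfm N Ω J (P (Y k i)) (P (Y k i))).re := by
      rw [← Finset.mul_sum, Finset.sum_comm]
    _ ≤ ((2 * L + 3 : ℕ) : ℝ) * ∑ k : Fin (2 * L + 3), 20 * A * ρ := by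
      apply mul_le_mul_of_nonneg_left _ (Nat.cast_nonneg _)
      exact Finset.sum_le_sum fun k _ => hk k
    _ = 20 * A * ((2 * (L : ℝ) + 3) ^ 2) * ρ := by
      simp only [Finset.sum_const, Finset.card_univ, Fintype.card_fin, nsmul_eq_mul]
      push_cast
      ring

end Pool.Agent.Helper67.Inj
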