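import Pool.Agent.Helper67.Inj.S5A
import Pool.Agent.Helper67.Inj.Pow

set_option autoImplicit false

open scoped InnerProductSpace ComplexOrder TensorProduct Topology

namespace Pool.Agent.Helper67.Inj

universe u

variable {H : Type u} [NormedAddCommGroup H] [InnerProductSpace ℂ H] [CompleteSpace H]

section conj

variable {K : Type u} [NormedAddCommGroup K] [InnerProductSpace ℂ K]

/-- `J a J` -/
private noncomputable def Bop (J : K ≃ₗᵢ⋆[ℂ] K) (a : K →L[ℂ] K) : K →L[ℂ] K :=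
  (J.toContinuousLinearEquiv : K →L⋆[ℂ] K).comp
    (a.comp (J.toContinuousLinearEquiv : K →L⋆[ℂ] K))

private lemma Bop_apply (J : K ≃ₗᵢ⋆[ℂ] K) (a : K →L[ℂ] K) (ξ : K) :
    Bop J a ξ = J (a (J ξ)) := rfl

private lemma Bop_mul (J : K ≃ₗᵢ⋆[ℂ] K) (hJ : ∀ ξ, J (J ξ) = ξ) (a b : K →L[ℂ] K) :
    Bop J (a * b) = Bop J a * Bop J b := by
  ext ξ
  rw [mul_apply_eq_comp, Bop_apply, Bop_apply, Bop_apply, hJ, mul_apply_eq_comp]

private lemma Bop_star [CompleteSpace K] (J : K ≃ₗᵢ⋆[ℂ] K)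
    (hs : ∀ ξ η, ⟪J ξ, η⟫_ℂ = ⟪J η, ξ⟫_ℂ) (a : K →L[ℂ] K) :
    star (Bop J a) = Bop J (star a) := by
  symm
  refine (ContinuousLinearMap.eq_adjoint_iff _ _).2 fun ξ η => ?_
  have h1 : ⟪Bop J (star a) ξ, η⟫_ℂ = ⟪a (J η), J ξ⟫_ℂ := by
    rw [Bop_apply, hs, ContinuousLinearMap.star_eq_adjoint,
      ContinuousLinearMap.adjoint_inner_right]
  have h2 : ⟪ξ, Bop J a η⟫_ℂ = ⟪a (J η), J ξ⟫_ℂ := by
    rw [Bop_apply, ← inner_conj_symm, hs, inner_conj_symm]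
  rw [h1, h2]

private lemma bar_mul (C : K ≃ₗᵢ⋆[ℂ] K) (a b : K →L[ℂ] K) :
    bar C (a * b) = bar C a * bar C b := by
  ext ξ
  rw [mul_apply_eq_comp]
  change C (a (b (C.symm ξ))) = C (a (C.symm (C (b (C.symm ξ)))))
  rw [LinearIsometryEquiv.symm_apply_apply]

end conj

private lemma Phi_mul (C : H ≃ₗᵢ⋆[ℂ] H) {m : ℕ} (z : Fin m → (H →L[ℂ] H)) :
    Phi C (fun p : Fin (m * m) =>
      z (finProdFinEquiv.symm p).1 * z (finProdFinEquiv.symm p).2) = Phi C z * Phi C z := by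
  unfold Phi
  rw [Finset.sum_mul_sum, ← Fintype.sum_prod_type']
  symm
  refine Fintype.sum_equiv finProdFinEquiv _ _ fun p => ?_
  simp only [Equiv.symm_apply_apply]
  rw [bar_mul, TensorProduct.mapL_mul]

section orb

variable (N : VonNeumannAlgebra H) (Ω : H) (J : orb N Ω ≃ₗᵢ⋆[ℂ] orb N Ω)

private lemma cmp_mul' (y z : H →L[ℂ] H) (hy : y ∈ N) (hz : z ∈ N) :
    cmp (orb N Ω) (y * z) = cmp (orb N Ω) y * cmp (orb N Ω) z := by
  ext ξ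
  rw [mul_apply_eq_comp, coe_cmp_orb N Ω _ (mul_mem hy hz), coe_cmp_orb N Ω _ hy,
    coe_cmp_orb N Ω _ hz, mul_apply_eq_comp]

private lemma cmp_star' (y : H →L[ℂ] H) (hy : y ∈ N) :
    star (cmp (orb N Ω) y) = cmp (orb N Ω) (star y) := by
  symm
  refine (ContinuousLinearMap.eq_adjoint_iff _ _).2 fun ξ η => ?_
  rw [Submodule.coe_inner, Submodule.coe_inner, coe_cmp_orb N Ω _ (star_mem hy),
    coe_cmp_orb N Ω _ hy, ContinuousLinearMap.star_eq_adjoint,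
    ContinuousLinearMap.adjoint_inner_left]

/-- the operator `∑ A_i J A_i J` -/
private noncomputable def Lop {m : ℕ} (z : Fin m → (H →L[ℂ] H)) : orb N Ω →L[ℂ] orb N Ω :=
  ∑ i, cmp (orb N Ω) (z i) * Bop J (cmp (orb N Ω) (z i))

variable {N Ω J}

private lemma comm' (hJ : SF N Ω J) (y z : H →L[ℂ] H) (hy : y ∈ N) (hz : z ∈ N) :
    Bop J (cmp (orb N Ω) y) * cmp (orb N Ω) z = cmp (orb N Ω) z * Bop J (cmp (orb N Ω) y) := by
  ext ξ
  rw [mul_apply_eq_comp, mul_apply_eq_comp, Bop_apply, Bop_apply, hJ.comm y hy z hz]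

private lemma Lop_mul (hJ : SF N Ω J) {m : ℕ} (z : Fin m → (H →L[ℂ] H)) (hz : ∀ i, z i ∈ N) :
    Lop N Ω J (fun p : Fin (m * m) =>
      z (finProdFinEquiv.symm p).1 * z (finProdFinEquiv.symm p).2) =
      Lop N Ω J z * Lop N Ω J z := by
  unfold Lop
  rw [Finset.sum_mul_sum, ← Fintype.sum_prod_type']
  symm
  refine Fintype.sum_equiv finProdFinEquiv _ _ fun p => ?_
  simp only [Equiv.symm_apply_apply]
  rw [cmp_mul' N Ω _ _ (hz _) (hz _), Bop_mul J hJ.inv]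
  rw [mul_assoc, mul_assoc, ← mul_assoc (Bop J _) (cmp (orb N Ω) (z p.2)),
    comm' hJ _ _ (hz _) (hz _), mul_assoc]

private lemma sfm_eq (hJ : SF N Ω J) (y : H →L[ℂ] H) (hy : y ∈ N) :
    sfm N Ω J y y = ⟪vec N Ω 1, (cmp (orb N Ω) y * Bop J (cmp (orb N Ω) y)) (vec N Ω 1)⟫_ℂ := by
  have h1 : ∀ z ∈ N, vec N Ω z = cmp (orb N Ω) z (vec N Ω 1) := by
    intro z hz
    rw [cmp_vec N Ω z 1 hz (one_mem _), mul_one]
  unfold sfm
  rw [← comm' hJ y y hy hy, mul_apply_eq_comp, h1 _ (star_mem hy), h1 y hy]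
  have h2 : J ((cmp (orb N Ω) (star y)) (vec N Ω 1)) =
      star (Bop J (cmp (orb N Ω) y)) (vec N Ω 1) := by
    rw [Bop_star J hJ.symm, cmp_star' N Ω y hy, Bop_apply, hJ.fix]
  rw [h2, ContinuousLinearMap.star_eq_adjoint, ContinuousLinearMap.adjoint_inner_left]

private lemma sum_sfm (hJ : SF N Ω J) {m : ℕ} (z : Fin m → (H →L[ℂ] H)) (hz : ∀ i, z i ∈ N) :
    ∑ i, (sfm N Ω J (z i) (z i)).re = (⟪vec N Ω 1, Lop N Ω J z (vec N Ω 1)⟫_ℂ).re := by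
  unfold Lop
  rw [sum_apply, inner_sum, Complex.re_sum]
  exact Finset.sum_congr rfl fun i _ => by rw [sfm_eq hJ _ (hz i)]

private lemma Lop_star (hJ : SF N Ω J) {m : ℕ} (z : Fin m → (H →L[ℂ] H)) (hz : ∀ i, z i ∈ N)
    (σ : Equiv.Perm (Fin m)) (hσ : ∀ i, z (σ i) = star (z i)) :
    star (Lop N Ω J z) = Lop N Ω J z := by
  unfold Lop
  have hss : ∀ f : Fin m → (orb N Ω →L[ℂ] orb N Ω), star (∑ i, f i) = ∑ i, star (f i) := by
    intro f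
    change ContinuousLinearMap.adjoint _ = ∑ i, ContinuousLinearMap.adjoint _
    exact map_sum ContinuousLinearMap.adjoint f _
  have hsm : ∀ f g : orb N Ω →L[ℂ] orb N Ω, star (f * g) = star g * star f := by
    intro f g
    exact ContinuousLinearMap.adjoint_comp f g
  rw [hss]
  refine Fintype.sum_equiv σ _ _ fun i => ?_
  rw [hsm, Bop_star J hJ.symm, cmp_star' N Ω _ (hz i), ← hσ,
    comm' hJ _ _ (hz _) (hz _)]

private lemma words (hJ : SF N Ω J) (C : H ≃ₗᵢ⋆[ℂ] H) {K : ℕ} (y : Fin K → (H →L[ℂ] H))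
    (hy : ∀ i, y i ∈ N) (j : ℕ) :
    ∃ (m : ℕ) (z : Fin m → (H →L[ℂ] H)), m = K ^ (2 ^ j) ∧ (∀ i, z i ∈ N) ∧
      Lop N Ω J z = (Lop N Ω J y) ^ (2 ^ j) ∧ Phi C z = (Phi C y) ^ (2 ^ j) := by
  induction j with
  | zero => exact ⟨K, y, by simp, hy, by simp, by simp⟩
  | succ j ih =>
    obtain ⟨m, z, hm, hz, hL, hP⟩ := ih
    refine ⟨m * m, _, ?_, ?_, (Lop_mul hJ z hz).trans ?_, (Phi_mul C z).trans ?_⟩
    · rw [hm, ← pow_add, pow_succ 2 j, mul_two]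
    · intro p
      exact mul_mem (hz _) (hz _)
    · rw [hL, ← pow_add, pow_succ 2 j, mul_two]
    · rw [hP, ← pow_add, pow_succ 2 j, mul_two]

end orb

private lemma op_pow_le {K : Type*} [SeminormedAddCommGroup K] [NormedSpace ℂ K]
    (T : K →L[ℂ] K) (n : ℕ) : ‖T ^ (n + 1)‖ ≤ ‖T‖ ^ (n + 1) := by
  induction n with
  | zero => simp
  | succ n ih =>
    rw [pow_succ T (n + 1), pow_succ ‖T‖ (n + 1)]
    refine (ContinuousLinearMap.opNorm_comp_le _ _).trans ?_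
    exact mul_le_mul_of_nonneg_right ih (ContinuousLinearMap.opNorm_nonneg _)

/-- S5B : symmetric families -/
theorem sfm_le_norm (N : VonNeumannAlgebra H) (Ω : H) (J : orb N Ω ≃ₗᵢ⋆[ℂ] orb N Ω)
    (hJ : SF N Ω J) (hQ : QB N Ω) (C : H ≃ₗᵢ⋆[ℂ] H) (K : ℕ) (hK : 1 ≤ K)
    (y : Fin K → (H →L[ℂ] H)) (hy : ∀ i, y i ∈ N) (σ : Equiv.Perm (Fin K))
    (hσ : ∀ i, y (σ i) = star (y i)) :
    ∑ i, (sfm N Ω J (y i) (y i)).re ≤ ‖Phi C y‖ := by
  obtain ⟨A, hA, hS⟩ := sfm_le_dec N Ω J hJ hQ C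
  set r : ℝ := ∑ i, (sfm N Ω J (y i) (y i)).re with hr
  have hr0 : 0 ≤ r := by
    refine Finset.sum_nonneg fun i _ => ?_
    have := hJ.pos (y i) (hy i)
    exact (Complex.le_def.1 this).1
  have hnorm : ‖vec N Ω 1‖ = 1 := by
    rw [← hJ.norm, Submodule.coe_norm, coe_vec N Ω 1 (one_mem _)]
    simp
  have hLs := Lop_star hJ y hy σ hσ
  have hrL : (⟪vec N Ω 1, Lop N Ω J y (vec N Ω 1)⟫_ℂ).re = r := (sum_sfm hJ y hy).symm
  refine le_of_forall_gt_imp_ge_of_dense fun ρ hρ => ?_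
  have hρ0 : 0 < ρ := lt_of_le_of_lt (ContinuousLinearMap.opNorm_nonneg _) hρ
  refine growth r ρ A K hr0 hρ0 hA fun j L hL => ?_
  obtain ⟨m, z, hm, hz, hLz, hPz⟩ := words hJ C y hy j
  have h1 := power_trick (vec N Ω 1) hnorm (Lop N Ω J y) hLs r hrL hr0 j
  rw [← hLz, ← sum_sfm hJ z hz] at h1
  have hm1 : 1 ≤ m := by
    rw [hm]
    exact Nat.one_le_pow _ _ hK
  have h2 : ‖Phi C z‖ < ρ ^ (2 ^ j) := by
    rw [hPz]
    have h2j : 0 < 2 ^ j := by positivity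
    obtain ⟨n, hn⟩ : ∃ n, 2 ^ j = n + 1 := ⟨2 ^ j - 1, by omega⟩
    rw [hn]
    refine lt_of_le_of_lt (op_pow_le _ n) ?_
    exact pow_lt_pow_left₀ hρ (ContinuousLinearMap.opNorm_nonneg _) (Nat.succ_ne_zero n)
  have h3 := hS m hm1 z hz (ρ ^ (2 ^ j)) h2 L (by
    rw [hm]
    push_cast
    exact hL)
  exact h1.trans h3

end Pool.Agent.Helper67.Inj
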