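import Pool.Agent.Helper67.Inj.S5B
import Pool.Agent.Helper67.Inj.HB

set_option autoImplicit false

open scoped InnerProductSpace ComplexOrder TensorProduct Topology

namespace Pool.Agent.Helper67.Inj

universe u

/-- norm bound for a symmetric operator (no completeness) -/
private lemma s5c_norm_le {E : Type*} [NormedAddCommGroup E] [InnerProductSpace ℂ E]
    (T : E →L[ℂ] E) (hT : ∀ a b, ⟪T a, b⟫_ℂ = ⟪a, T b⟫_ℂ) (m : ℝ) (hm : 0 ≤ m)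
    (hu : ∀ a, (⟪a, T a⟫_ℂ).re ≤ m * ‖a‖ ^ 2) (hl : ∀ a, -(m * ‖a‖ ^ 2) ≤ (⟪a, T a⟫_ℂ).re) :
    ‖T‖ ≤ m := by
  have key : ∀ a b : E, 4 * (⟪T a, b⟫_ℂ).re ≤ 2 * m * (‖a‖ ^ 2 + ‖b‖ ^ 2) := by
    intro a b
    have h1 := hu (a + b)
    have h2 := hl (a - b)
    have h3 : (⟪a + b, T (a + b)⟫_ℂ).re - (⟪a - b, T (a - b)⟫_ℂ).re = 4 * (⟪T a, b⟫_ℂ).re := by
      have e1 : (⟪b, T a⟫_ℂ).re = (⟪T a, b⟫_ℂ).re := by
        rw [← inner_conj_symm, Complex.conj_re]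
      have e2 : (⟪a, T b⟫_ℂ).re = (⟪T a, b⟫_ℂ).re := by rw [hT]
      simp only [map_add, map_sub, inner_add_left, inner_add_right, inner_sub_left,
        inner_sub_right, Complex.add_re, Complex.sub_re]
      rw [e1, e2]; ring
    have h4 : ‖a + b‖ ^ 2 + ‖a - b‖ ^ 2 = 2 * (‖a‖ ^ 2 + ‖b‖ ^ 2) := by
      have := parallelogram_law_with_norm ℂ a b
      nlinarith [this]
    nlinarith [h1, h2, h3, h4]
  refine ContinuousLinearMap.opNorm_le_bound _ hm fun a => ?_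
  by_cases ha : T a = 0
  · rw [ha, norm_zero]; positivity
  have hTa : 0 < ‖T a‖ := norm_pos_iff.mpr ha
  have h1 := key a (((‖a‖ / ‖T a‖ : ℝ) : ℂ) • T a)
  have h2 : (⟪T a, ((‖a‖ / ‖T a‖ : ℝ) : ℂ) • T a⟫_ℂ).re = ‖a‖ * ‖T a‖ := by
    rw [inner_smul_right, inner_self_eq_norm_sq_to_K]
    have : (((‖a‖ / ‖T a‖ : ℝ) : ℂ) * ((‖T a‖ : ℝ) : ℂ) ^ 2) = ((‖a‖ * ‖T a‖ : ℝ) : ℂ) := by
      rw [← Complex.ofReal_pow, ← Complex.ofReal_mul]
      congr 1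
      field_simp
    exact (congrArg Complex.re this).trans (Complex.ofReal_re _)
  have h3 : ‖((‖a‖ / ‖T a‖ : ℝ) : ℂ) • T a‖ = ‖a‖ := by
    rw [norm_smul, Complex.norm_real, Real.norm_of_nonneg (by positivity)]
    field_simp
  rw [h2, h3] at h1
  by_cases ha0 : ‖a‖ = 0
  · have : a = 0 := norm_eq_zero.mp ha0
    rw [this, map_zero, norm_zero, mul_zero]
  have ha1 : 0 < ‖a‖ := lt_of_le_of_ne (norm_nonneg _) (Ne.symm ha0)
  have h4 : ‖a‖ * ‖T a‖ ≤ ‖a‖ * (m * ‖a‖) := by nlinarith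
  exact le_of_mul_le_mul_left h4 ha1

/-- the norm of `T + T* + c²` -/
private lemma s5c_main {E : Type*} [NormedAddCommGroup E] [InnerProductSpace ℂ E]
    (T S : E →L[ℂ] E) (hadj : ∀ a b, ⟪T a, b⟫_ℂ = ⟪a, S b⟫_ℂ) (c l : ℝ)
    (hc2 : c ^ 2 = 2 * ‖T‖) (hl : ∀ a, (⟪a, T a⟫_ℂ).re ≤ l * ‖a‖ ^ 2) (e : E) (he : ‖e‖ = 1) :
    ‖T + S + ((c ^ 2 : ℝ) : ℂ) • (1 : E →L[ℂ] E)‖ ≤ 2 * l + c ^ 2 := by
  have hadj' : ∀ a b : E, ⟪S a, b⟫_ℂ = ⟪a, T b⟫_ℂ := by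
    intro a b
    rw [← inner_conj_symm, ← hadj, inner_conj_symm]
  have h3 : ∀ a : E, (((c ^ 2 : ℝ) : ℂ) • (1 : E →L[ℂ] E)) a = ((c ^ 2 : ℝ) : ℂ) • a :=
    fun _ => rfl
  have hquad : ∀ a : E, (⟪a, (T + S + ((c ^ 2 : ℝ) : ℂ) • (1 : E →L[ℂ] E)) a⟫_ℂ).re =
      2 * (⟪a, T a⟫_ℂ).re + c ^ 2 * ‖a‖ ^ 2 := by
    intro a
    rw [add_apply, add_apply, inner_add_right, inner_add_right, ← hadj a a]
    have h1 : (⟪T a, a⟫_ℂ).re = (⟪a, T a⟫_ℂ).re := by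
      rw [← inner_conj_symm, Complex.conj_re]
    have h2 : (⟪a, (((c ^ 2 : ℝ) : ℂ) • (1 : E →L[ℂ] E)) a⟫_ℂ).re = c ^ 2 * ‖a‖ ^ 2 := by
      rw [h3, inner_smul_right, Complex.re_ofReal_mul]
      congr 1
      exact inner_self_eq_norm_sq (𝕜 := ℂ) a
    rw [Complex.add_re, Complex.add_re, h1, h2]
    ring
  have hlow : ∀ a : E, 0 ≤ (⟪a, (T + S + ((c ^ 2 : ℝ) : ℂ) • (1 : E →L[ℂ] E)) a⟫_ℂ).re := by
    intro a
    rw [hquad, hc2]
    have h1 : |(⟪a, T a⟫_ℂ).re| ≤ ‖T‖ * ‖a‖ ^ 2 := by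
      calc |(⟪a, T a⟫_ℂ).re| ≤ ‖⟪a, T a⟫_ℂ‖ := Complex.abs_re_le_norm _
        _ ≤ ‖a‖ * ‖T a‖ := norm_inner_le_norm _ _
        _ ≤ ‖a‖ * (‖T‖ * ‖a‖) := by gcongr; exact T.le_opNorm a
        _ = _ := by ring
    have h2 := neg_abs_le ((⟪a, T a⟫_ℂ).re)
    nlinarith
  have hup : ∀ a : E, (⟪a, (T + S + ((c ^ 2 : ℝ) : ℂ) • (1 : E →L[ℂ] E)) a⟫_ℂ).re ≤
      (2 * l + c ^ 2) * ‖a‖ ^ 2 := by
    intro a
    rw [hquad]
    nlinarith [hl a]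
  have hm : 0 ≤ 2 * l + c ^ 2 := by
    have h2 := (hlow e).trans (hup e)
    rwa [he, one_pow, mul_one] at h2
  refine s5c_norm_le _ ?_ _ hm hup ?_
  · intro a b
    simp only [add_apply, inner_add_left, inner_add_right]
    rw [hadj, hadj', h3, h3, inner_smul_left, inner_smul_right, Complex.conj_ofReal]
    ring
  · intro a
    have := hlow a
    have h2 : 0 ≤ (2 * l + c ^ 2) * ‖a‖ ^ 2 := mul_nonneg hm (by positivity)
    linarith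

private lemma s5c_smul {E : Type*} [NormedAddCommGroup E] [InnerProductSpace ℂ E] (c : ℝ)
    (T : E →L[ℂ] E) (hT : T = 1) :
    (c : ℂ) • (c : ℂ) • T = ((c ^ 2 : ℝ) : ℂ) • (1 : E →L[ℂ] E) := by
  rw [hT, smul_smul]
  congr 1
  push_cast
  ring

variable {H : Type u} [NormedAddCommGroup H] [InnerProductSpace ℂ H] [CompleteSpace H]

/-- S5C -/
theorem sfm_le_sup (N : VonNeumannAlgebra H) (Ω : H) (J : orb N Ω ≃ₗᵢ⋆[ℂ] orb N Ω)
    (hJ : SF N Ω J) (hQ : QB N Ω) (C : H ≃ₗᵢ⋆[ℂ] H) (K : ℕ)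
    (y : Fin K → (H →L[ℂ] H)) (hy : ∀ i, y i ∈ N) (l : ℝ)
    (hl : ∀ a : H ⊗[ℂ] H, (⟪a, Phi C y a⟫_ℂ).re ≤ l * ‖a‖ ^ 2) :
    ∑ i, (sfm N Ω J (y i) (y i)).re ≤ l := by
  set c : ℝ := Real.sqrt (2 * ‖Phi C y‖) with hc
  have hc2 : c ^ 2 = 2 * ‖Phi C y‖ := Real.sq_sqrt (by positivity)
  -- the symmetric family
  let f : (Fin K ⊕ Fin K) ⊕ Unit → (H →L[ℂ] H) :=
    Sum.elim (Sum.elim y (fun i => star (y i))) (fun _ => (c : ℂ) • 1)
  let n : ℕ := Fintype.card ((Fin K ⊕ Fin K) ⊕ Unit)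
  let e : Fin n ≃ (Fin K ⊕ Fin K) ⊕ Unit := (Fintype.equivFin _).symm
  have hn : 1 ≤ n := Fintype.card_pos
  let τ : Equiv.Perm ((Fin K ⊕ Fin K) ⊕ Unit) :=
    Equiv.sumCongr (Equiv.sumComm (Fin K) (Fin K)) (Equiv.refl Unit)
  have hτ : ∀ j, f (τ j) = star (f j) := by
    rintro ((i | i) | u)
    · rfl
    · change y i = star (star (y i)); rw [star_star]
    · change (c : ℂ) • (1 : H →L[ℂ] H) = star ((c : ℂ) • (1 : H →L[ℂ] H))
      rw [star_smul, star_one, ← starRingEnd_apply, Complex.conj_ofReal]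
  have hfN : ∀ j, f j ∈ N := by
    rintro ((i | i) | u)
    · exact hy i
    · exact star_mem (hy i)
    · exact N.toStarSubalgebra.smul_mem (one_mem N) _
  have hb := sfm_le_norm N Ω J hJ hQ C n hn (fun i => f (e i)) (fun i => hfN _)
    ((e.trans τ).trans e.symm) (fun i => by
      change f (e (e.symm (τ (e i)))) = star (f (e i))
      rw [Equiv.apply_symm_apply, hτ])
  -- the operator
  have hPhi : Phi C (fun i => f (e i)) =
      Phi C y + Phi C (fun i => star (y i)) + ((c ^ 2 : ℝ) : ℂ) • 1 := by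
    unfold Phi
    rw [Equiv.sum_comp e (fun j => TensorProduct.mapL (f j) (bar C (f j))),
      Fintype.sum_sum_type, Fintype.sum_sum_type]
    congr 1
    rw [Fintype.sum_unique]
    change TensorProduct.mapL ((c : ℂ) • (1 : H →L[ℂ] H)) (bar C ((c : ℂ) • (1 : H →L[ℂ] H))) = _
    rw [HBaux.bar_smul, HBaux.bar_one, TensorProduct.mapL_smul_left,
      TensorProduct.mapL_smul_right, Complex.conj_ofReal]
    exact s5c_smul (E := H ⊗[ℂ] H) c _ TensorProduct.mapL_id_id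
  have hadj : ∀ a b : H ⊗[ℂ] H, ⟪Phi C y a, b⟫_ℂ = ⟪a, Phi C (fun i => star (y i)) b⟫_ℂ := by
    intro a b
    unfold Phi
    rw [sum_apply, sum_apply, sum_inner, inner_sum]
    refine Finset.sum_congr rfl fun i _ => ?_
    rw [HBaux.inner_mapL_left, HBaux.star_bar]
  have hnorm : ‖Phi C (fun i => f (e i))‖ ≤ 2 * l + c ^ 2 := by
    rw [hPhi]
    exact s5c_main (E := H ⊗[ℂ] H) _ _ hadj c l hc2 hl (Ω ⊗ₜ[ℂ] Ω)
      (by rw [TensorProduct.norm_tmul, hJ.norm, one_mul])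
  -- the sum
  have hsum : ∑ i, (sfm N Ω J (f (e i)) (f (e i))).re =
      2 * ∑ i, (sfm N Ω J (y i) (y i)).re + c ^ 2 := by
    rw [Equiv.sum_comp e (fun j => (sfm N Ω J (f j) (f j)).re),
      Fintype.sum_sum_type, Fintype.sum_sum_type]
    have h1 : ∀ i, (sfm N Ω J (f (Sum.inl (Sum.inr i))) (f (Sum.inl (Sum.inr i)))).re =
        (sfm N Ω J (y i) (y i)).re := by
      intro i
      change (sfm N Ω J (star (y i)) (star (y i))).re = _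
      unfold sfm
      rw [star_star, hJ.symm]
    have h2 : ∀ u : Unit, (sfm N Ω J (f (Sum.inr u)) (f (Sum.inr u))).re = c ^ 2 := by
      intro u
      change (sfm N Ω J ((c : ℂ) • (1 : H →L[ℂ] H)) ((c : ℂ) • (1 : H →L[ℂ] H))).re = _
      unfold sfm
      rw [star_smul, star_one, ← starRingEnd_apply, Complex.conj_ofReal, map_smul,
        LinearIsometryEquiv.map_smulₛₗ, hJ.fix, Complex.conj_ofReal, inner_smul_left,
        inner_smul_right, Complex.conj_ofReal, Complex.re_ofReal_mul, Complex.re_ofReal_mul]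
      have h3 : (⟪vec N Ω 1, vec N Ω 1⟫_ℂ).re = ‖vec N Ω (1 : H →L[ℂ] H)‖ ^ 2 :=
        inner_self_eq_norm_sq (𝕜 := ℂ) _
      have h4 : ‖vec N Ω (1 : H →L[ℂ] H)‖ = 1 := by
        have h5 : ‖vec N Ω (1 : H →L[ℂ] H)‖ = ‖((vec N Ω (1 : H →L[ℂ] H) : orb N Ω) : H)‖ := rfl
        rw [h5, coe_vec N Ω 1 (one_mem N)]
        exact hJ.norm
      rw [h3, h4]; ring
    rw [Finset.sum_congr rfl (fun i _ => h1 i), Finset.sum_congr rfl (fun u _ => h2 u)]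
    change ∑ i, (sfm N Ω J (y i) (y i)).re + _ + _ = _
    simp
    ring
  have := hb.trans hnorm
  rw [hsum] at this
  linarith

end Pool.Agent.Helper67.Inj
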