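import Pool.Agent.Helper67.Inj.Defs

set_option autoImplicit false

open scoped InnerProductSpace ComplexOrder TensorProduct Topology

namespace Pool.Agent.Helper67.Inj

universe u

variable {K : Type u} [NormedAddCommGroup K] [InnerProductSpace ℂ K] [CompleteSpace K]

set_option linter.unusedSectionVars false

namespace T2aux

open Filter WithLp

/-- first inclusion -/
noncomputable def inl (K : Type u) [NormedAddCommGroup K] [InnerProductSpace ℂ K] :
    K →L[ℂ] WithLp 2 (K × K) :=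
  ((WithLp.prodContinuousLinearEquiv 2 ℂ K K).symm : (K × K) →L[ℂ] WithLp 2 (K × K)) ∘L
    ContinuousLinearMap.inl ℂ K K

/-- second inclusion -/
noncomputable def inr (K : Type u) [NormedAddCommGroup K] [InnerProductSpace ℂ K] :
    K →L[ℂ] WithLp 2 (K × K) :=
  ((WithLp.prodContinuousLinearEquiv 2 ℂ K K).symm : (K × K) →L[ℂ] WithLp 2 (K × K)) ∘L
    ContinuousLinearMap.inr ℂ K K

lemma inl_apply (x : K) : inl K x = toLp 2 (x, 0) := rfl
lemma inr_apply (x : K) : inr K x = toLp 2 (0, x) := rfl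

lemma toLp_eq (x y : K) : (toLp 2 (x, y) : WithLp 2 (K × K)) = inl K x + inr K y := by
  rw [inl_apply, inr_apply, ← WithLp.toLp_add]
  simp

lemma inner_toLp (x y x' y' : K) :
    ⟪(toLp 2 (x, y) : WithLp 2 (K × K)), toLp 2 (x', y')⟫_ℂ = ⟪x, x'⟫_ℂ + ⟪y, y'⟫_ℂ := rfl

lemma ext_toLp (v : WithLp 2 (K × K)) : v = toLp 2 (v.fst, v.snd) := rfl

lemma norm_inl (x : K) : ‖inl K x‖ = ‖x‖ := by
  have h : ‖inl K x‖ ^ 2 = ‖x‖ ^ 2 := by
    rw [inl_apply, WithLp.prod_norm_sq_eq_of_L2]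
    simp
  exact (sq_eq_sq₀ (norm_nonneg _) (norm_nonneg _)).mp h

lemma norm_inr (x : K) : ‖inr K x‖ = ‖x‖ := by
  have h : ‖inr K x‖ ^ 2 = ‖x‖ ^ 2 := by
    rw [inr_apply, WithLp.prod_norm_sq_eq_of_L2]
    simp
  exact (sq_eq_sq₀ (norm_nonneg _) (norm_nonneg _)).mp h

lemma fst_le' (v : WithLp 2 (K × K)) : ‖v.fst‖ ≤ ‖v‖ := by
  have h : ‖v.fst‖ ^ 2 ≤ ‖v‖ ^ 2 := by
    rw [WithLp.prod_norm_sq_eq_of_L2]
    nlinarith [sq_nonneg ‖v.snd‖]
  exact (sq_le_sq₀ (norm_nonneg _) (norm_nonneg _)).mp h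

lemma snd_le' (v : WithLp 2 (K × K)) : ‖v.snd‖ ≤ ‖v‖ := by
  have h : ‖v.snd‖ ^ 2 ≤ ‖v‖ ^ 2 := by
    rw [WithLp.prod_norm_sq_eq_of_L2]
    nlinarith [sq_nonneg ‖v.fst‖]
  exact (sq_le_sq₀ (norm_nonneg _) (norm_nonneg _)).mp h

/-- `a ⊕ a` -/
noncomputable def dg (a : K →L[ℂ] K) : WithLp 2 (K × K) →L[ℂ] WithLp 2 (K × K) :=
  inl K ∘L a ∘L WithLp.fstL 2 ℂ K K + inr K ∘L a ∘L WithLp.sndL 2 ℂ K K

lemma dg_apply (a : K →L[ℂ] K) (v : WithLp 2 (K × K)) :
    dg a v = toLp 2 (a v.fst, a v.snd) := by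
  rw [toLp_eq]
  rfl

lemma inner_dg (a : K →L[ℂ] K) (u v : WithLp 2 (K × K)) :
    ⟪dg a u, v⟫_ℂ = ⟪u, dg (star a) v⟫_ℂ := by
  rw [dg_apply, dg_apply]
  change ⟪a u.fst, v.fst⟫_ℂ + ⟪a u.snd, v.snd⟫_ℂ =
    ⟪u.fst, (star a) v.fst⟫_ℂ + ⟪u.snd, (star a) v.snd⟫_ℂ
  rw [ContinuousLinearMap.star_eq_adjoint, ContinuousLinearMap.adjoint_inner_right,
    ContinuousLinearMap.adjoint_inner_right]

/-- the map `a ↦ (a Ω, a ξ)` -/
noncomputable def gmap (Ω ξ : K) : (K →L[ℂ] K) →ₗ[ℂ] WithLp 2 (K × K) where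
  toFun a := toLp 2 (a Ω, a ξ)
  map_add' a b := by
    simp only [add_apply]
    rw [← WithLp.toLp_add, Prod.mk_add_mk]
  map_smul' c a := by
    simp only [smul_apply, RingHom.id_apply]
    rw [← WithLp.toLp_smul, Prod.smul_mk]

/-- the closure of the graph -/
noncomputable def gr (M : VonNeumannAlgebra K) (Ω ξ : K) : Submodule ℂ (WithLp 2 (K × K)) :=
  (Submodule.map (gmap Ω ξ)
    (Subalgebra.toSubmodule M.toStarSubalgebra.toSubalgebra)).topologicalClosure

noncomputable instance (M : VonNeumannAlgebra K) (Ω ξ : K) : CompleteSpace (gr M Ω ξ) := by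
  unfold gr; infer_instance

lemma mem_gr (M : VonNeumannAlgebra K) (Ω ξ : K) {a : K →L[ℂ] K} (ha : a ∈ M) :
    (toLp 2 (a Ω, a ξ) : WithLp 2 (K × K)) ∈ gr M Ω ξ := by
  apply Submodule.le_topologicalClosure
  exact ⟨a, ha, rfl⟩

lemma mem_gr_orth (M : VonNeumannAlgebra K) (Ω ξ : K) (v : WithLp 2 (K × K))
    (h : ∀ a ∈ M, ⟪(toLp 2 (a Ω, a ξ) : WithLp 2 (K × K)), v⟫_ℂ = 0) : v ∈ (gr M Ω ξ)ᗮ := by
  rw [gr, Submodule.orthogonal_closure, Submodule.mem_orthogonal]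
  rintro u ⟨a, ha, rfl⟩
  exact h a ha

lemma dg_mem_gr (M : VonNeumannAlgebra K) (Ω ξ : K) {a : K →L[ℂ] K} (ha : a ∈ M)
    {v : WithLp 2 (K × K)} (hv : v ∈ gr M Ω ξ) : dg a v ∈ gr M Ω ξ := by
  have h1 : Set.MapsTo (dg a) (Submodule.map (gmap Ω ξ)
      (Subalgebra.toSubmodule M.toStarSubalgebra.toSubalgebra) : Set (WithLp 2 (K × K)))
      (Submodule.map (gmap Ω ξ)
      (Subalgebra.toSubmodule M.toStarSubalgebra.toSubalgebra) : Set (WithLp 2 (K × K))) := by
    rintro u ⟨b, hb, rfl⟩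
    refine ⟨a * b, ?_, ?_⟩
    · exact M.toStarSubalgebra.mul_mem ha hb
    · rw [dg_apply]
      rfl
  have h2 := h1.closure (dg a).continuous
  exact h2 hv

lemma dg_mem_gr_orth (M : VonNeumannAlgebra K) (Ω ξ : K) {a : K →L[ℂ] K} (ha : a ∈ M)
    {v : WithLp 2 (K × K)} (hv : v ∈ (gr M Ω ξ)ᗮ) : dg a v ∈ (gr M Ω ξ)ᗮ := by
  rw [Submodule.mem_orthogonal'] at *
  intro u hu
  rw [inner_dg]
  exact hv _ (dg_mem_gr M Ω ξ (star_mem ha) hu)

lemma avg_tendsto (f : K →L[ℂ] K) (hf : ‖f‖ ≤ 1) (h0 : ∀ x, f x = x → x = 0) (x : K) :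
    Tendsto (fun N : ℕ => ((N : ℂ)⁻¹) • ∑ n ∈ Finset.range N, (f ^ n) x) atTop (𝓝 0) := by
  have h := ContinuousLinearMap.tendsto_birkhoffAverage_orthogonalProjection f hf x
  have h1 : ((f.eqLocus (1 : K →L[ℂ] K)).orthogonalProjectionOnto x : K) = 0 := by
    apply h0
    exact ((f.eqLocus (1 : K →L[ℂ] K)).orthogonalProjectionOnto x).2
  rw [h1] at h
  refine h.congr fun N => ?_
  rw [birkhoffAverage, birkhoffSum]
  congr 1
  apply Finset.sum_congr rfl
  intro n _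
  have h2 : ∀ n : ℕ, (f ^ n) x = (⇑f)^[n] x := by
    intro n
    induction n with
    | zero => rfl
    | succ n ih =>
      rw [pow_succ', Function.iterate_succ_apply', ← ih]
      rfl
  exact (h2 n).symm

end T2aux

open T2aux WithLp Filter in
/-- TT-2 -/
theorem mem_closure_commutant (M : VonNeumannAlgebra K) (Ω : K)
    (cyc : ∀ η : K, (∀ y ∈ M, ⟪y Ω, η⟫_ℂ = 0) → η = 0) (ξ : K)
    (hξ : ∀ a ∈ M, star a = a → (⟪a Ω, ξ⟫_ℂ).im = 0) :
    ξ ∈ closure {η : K | ∃ b ∈ M.commutant, star b = b ∧ b Ω = η} := by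
  classical
  -- symmetry
  have hsym : ∀ x ∈ M, ⟪x Ω, ξ⟫_ℂ = ⟪ξ, (star x) Ω⟫_ℂ := by
    intro x hx
    have hre : ∀ a ∈ M, star a = a → ⟪a Ω, ξ⟫_ℂ = ⟪ξ, a Ω⟫_ℂ := by
      intro a ha hsa
      rw [← inner_conj_symm ξ (a Ω)]
      exact (Complex.conj_eq_iff_im.mpr (hξ a ha hsa)).symm
    set a1 : K →L[ℂ] K := x + star x with ha1
    set a2 : K →L[ℂ] K := Complex.I • (star x - x) with ha2
    have h1 := hre a1 (add_mem hx (star_mem hx)) (by rw [ha1, star_add, star_star, add_comm])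
    have h2 := hre a2 (M.toStarSubalgebra.smul_mem (sub_mem (star_mem hx) hx) _) (by
      rw [ha2, star_smul, star_sub, star_star]
      simp only [Complex.star_def, Complex.conj_I]
      rw [neg_smul, ← smul_neg, neg_sub])
    rw [ha1] at h1
    rw [ha2] at h2
    simp only [add_apply, smul_apply,
      sub_apply, inner_add_left, inner_add_right, inner_smul_left,
      inner_smul_right, inner_sub_left, inner_sub_right, Complex.conj_I] at h1 h2
    have h3 : Complex.I * ((⟪ξ, (star x) Ω⟫_ℂ - ⟪ξ, x Ω⟫_ℂ) +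
        (⟪(star x) Ω, ξ⟫_ℂ - ⟪x Ω, ξ⟫_ℂ)) = 0 := by
      linear_combination -h2
    have h4 := (mul_eq_zero.mp h3).resolve_left Complex.I_ne_zero
    linear_combination (1 / 2 : ℂ) * h1 - (1 / 2 : ℂ) * h4
  -- the projection
  set e := (gr M Ω ξ).starProjection with he
  have hsa : ∀ u v, ⟪e u, v⟫_ℂ = ⟪u, e v⟫_ℂ :=
    fun u v => (gr M Ω ξ).inner_starProjection_left_eq_right u v
  have hid : ∀ u, e (e u) = e u := fun u =>
    Submodule.starProjection_eq_self_iff.mpr ((gr M Ω ξ).starProjection_apply_mem u)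
  have hfix : ∀ a ∈ M, e (toLp 2 (a Ω, a ξ)) = toLp 2 (a Ω, a ξ) := fun a ha =>
    Submodule.starProjection_eq_self_iff.mpr (mem_gr M Ω ξ ha)
  have hker : ∀ v, (∀ a ∈ M, ⟪(toLp 2 (a Ω, a ξ) : WithLp 2 (K × K)), v⟫_ℂ = 0) → e v = 0 :=
    fun v hv => (Submodule.starProjection_apply_eq_zero_iff _).mpr (mem_gr_orth M Ω ξ v hv)
  have hker' : ∀ v, e v = 0 → ∀ a ∈ M, ⟪(toLp 2 (a Ω, a ξ) : WithLp 2 (K × K)), v⟫_ℂ = 0 := by
    intro v hv a ha
    rw [← hfix a ha, hsa, hv, inner_zero_right]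
  have hcomm : ∀ a ∈ M, ∀ v, e (dg a v) = dg a (e v) := by
    intro a ha v
    apply Submodule.eq_starProjection_of_mem_orthogonal
    · exact dg_mem_gr M Ω ξ ha ((gr M Ω ξ).starProjection_apply_mem v)
    · rw [← map_sub]
      exact dg_mem_gr_orth M Ω ξ ha ((gr M Ω ξ).sub_starProjection_mem_orthogonal v)
  have hnorm : ∀ v, ‖e v‖ ≤ ‖v‖ := fun v => (gr M Ω ξ).norm_starProjection_apply_le v
  -- the entries
  set p1 := WithLp.fstL 2 ℂ K K with hp1
  set p2 := WithLp.sndL 2 ℂ K K with hp2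
  set e11 : K →L[ℂ] K := p1 ∘L e ∘L inl K with he11
  set e12 : K →L[ℂ] K := p1 ∘L e ∘L inr K with he12
  set e21 : K →L[ℂ] K := p2 ∘L e ∘L inl K with he21
  set e22 : K →L[ℂ] K := p2 ∘L e ∘L inr K with he22
  have hE : ∀ x y, e (toLp 2 (x, y)) = toLp 2 (e11 x + e12 y, e21 x + e22 y) := by
    intro x y
    rw [toLp_eq, map_add]
    rfl
  have hi1 : ∀ x, inl K x = toLp 2 (x, 0) := fun x => rfl
  have hi2 : ∀ x, inr K x = toLp 2 (0, x) := fun x => rfl
  -- commutation of the entries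
  have hdl : ∀ (a : K →L[ℂ] K) x, dg a (inl K x) = inl K (a x) := by
    intro a x
    rw [dg_apply, hi1, hi1]
    simp
  have hdr : ∀ (a : K →L[ℂ] K) x, dg a (inr K x) = inr K (a x) := by
    intro a x
    rw [dg_apply, hi2, hi2]
    simp
  have hd1 : ∀ (a : K →L[ℂ] K) v, p1 (dg a v) = a (p1 v) := by
    intro a v
    rw [dg_apply]; rfl
  have hd2 : ∀ (a : K →L[ℂ] K) v, p2 (dg a v) = a (p2 v) := by
    intro a v
    rw [dg_apply]; rfl
  have hc21 : e21 ∈ M.commutant := by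
    rw [VonNeumannAlgebra.mem_commutant_iff]
    intro a ha
    ext x
    change a (p2 (e (inl K x))) = p2 (e (inl K (a x)))
    rw [← hdl, hcomm a ha, hd2]
  have hc22 : e22 ∈ M.commutant := by
    rw [VonNeumannAlgebra.mem_commutant_iff]
    intro a ha
    ext x
    change a (p2 (e (inr K x))) = p2 (e (inr K (a x)))
    rw [← hdr, hcomm a ha, hd2]
  -- adjoints
  have hadj1 : ∀ x v, ⟪x, p1 v⟫_ℂ = ⟪inl K x, v⟫_ℂ := by
    intro x v
    rw [hi1, ext_toLp v, inner_toLp, inner_zero_left, add_zero]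
    rfl
  have hadj2 : ∀ x v, ⟪x, p2 v⟫_ℂ = ⟪inr K x, v⟫_ℂ := by
    intro x v
    rw [hi2, ext_toLp v, inner_toLp, inner_zero_left, zero_add]
    rfl
  have hadj1' : ∀ x v, ⟪p1 v, x⟫_ℂ = ⟪v, inl K x⟫_ℂ := by
    intro x v
    rw [← inner_conj_symm, hadj1, inner_conj_symm]
  have hadj2' : ∀ x v, ⟪p2 v, x⟫_ℂ = ⟪v, inr K x⟫_ℂ := by
    intro x v
    rw [← inner_conj_symm, hadj2, inner_conj_symm]
  have hstar21 : star e21 = e12 := by
    rw [ContinuousLinearMap.star_eq_adjoint]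
    symm
    rw [ContinuousLinearMap.eq_adjoint_iff]
    intro x y
    change ⟪p1 (e (inr K x)), y⟫_ℂ = ⟪x, p2 (e (inl K y))⟫_ℂ
    rw [hadj1', hadj2, hsa]
  have hstar22 : star e22 = e22 := by
    rw [ContinuousLinearMap.star_eq_adjoint]
    symm
    rw [ContinuousLinearMap.eq_adjoint_iff]
    intro x y
    change ⟪p2 (e (inr K x)), y⟫_ℂ = ⟪x, p2 (e (inr K y))⟫_ℂ
    rw [hadj2', hadj2, hsa]
  have hstar11 : star e11 = e11 := by
    rw [ContinuousLinearMap.star_eq_adjoint]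
    symm
    rw [ContinuousLinearMap.eq_adjoint_iff]
    intro x y
    change ⟪p1 (e (inl K x)), y⟫_ℂ = ⟪x, p1 (e (inl K y))⟫_ℂ
    rw [hadj1', hadj1, hsa]
  -- e² = e
  have hsq : e21 * (1 - e11) = e22 * e21 := by
    ext x
    have h1 := hid (toLp 2 (x, 0))
    have hE0 : e (toLp 2 (x, 0)) = toLp 2 (e11 x, e21 x) := by
      rw [hE, map_zero, add_zero, map_zero, add_zero]
    rw [hE0, hE] at h1
    have h2 : e21 (e11 x) + e22 (e21 x) = e21 x :=
      congrArg (fun v : WithLp 2 (K × K) => v.snd) h1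
    have h3 : e21 (x - e11 x) = e22 (e21 x) := by
      rw [map_sub, sub_eq_iff_eq_add, add_comm]
      exact h2.symm
    exact h3
  have hpow : ∀ n : ℕ, e21 * (1 - e11) ^ n = e22 ^ n * e21 := by
    intro n
    induction n with
    | zero => simp
    | succ n ih => rw [pow_succ, ← mul_assoc, ih, mul_assoc, hsq, ← mul_assoc, ← pow_succ]
  have hpow' : ∀ n : ℕ, (1 - e11) ^ n * e12 = e12 * e22 ^ n := by
    intro n
    have := congrArg star (hpow n)
    rw [star_mul, star_mul, star_pow, star_pow, star_sub, star_one, hstar11, hstar22,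
      hstar21] at this
    exact this
  -- relations at Ω
  have hrel1 : e21 Ω + e22 ξ = ξ := by
    have h1 := hfix 1 (one_mem M)
    rw [one_apply_eq_self, one_apply_eq_self, hE] at h1
    exact congrArg (fun v : WithLp 2 (K × K) => v.snd) h1
  have hperp : ∀ c ∈ M, e (toLp 2 (-(c ξ), c Ω)) = 0 := by
    intro c hc
    apply hker
    intro a ha
    rw [inner_toLp, inner_neg_right]
    have h1 := hsym (star c * a) (mul_mem (star_mem hc) ha)
    rw [star_mul, star_star] at h1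
    have h2 : ⟪(star c) (a Ω), ξ⟫_ℂ = ⟪ξ, (star a) (c Ω)⟫_ℂ := h1
    rw [ContinuousLinearMap.star_eq_adjoint, ContinuousLinearMap.star_eq_adjoint,
      ContinuousLinearMap.adjoint_inner_left, ContinuousLinearMap.adjoint_inner_right] at h2
    rw [h2]
    ring
  have hrel2 : e12 Ω = e11 ξ := by
    have h1 := hperp 1 (one_mem M)
    rw [one_apply_eq_self, one_apply_eq_self, hE] at h1
    have h2 : e11 (-ξ) + e12 Ω = 0 := congrArg (fun v : WithLp 2 (K × K) => v.fst) h1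
    rw [map_neg] at h2
    exact (neg_add_eq_zero.mp h2).symm
  -- contractions without fixed vectors
  have hn22 : ‖e22‖ ≤ 1 := by
    apply ContinuousLinearMap.opNorm_le_bound _ zero_le_one
    intro x
    rw [one_mul]
    calc ‖e22 x‖ ≤ ‖e (inr K x)‖ := snd_le' _
      _ ≤ ‖inr K x‖ := hnorm _
      _ = ‖x‖ := norm_inr x
  have hn11 : ‖1 - e11‖ ≤ 1 := by
    apply ContinuousLinearMap.opNorm_le_bound _ zero_le_one
    intro x
    rw [one_mul]
    have h1 : (1 - e11) x = (inl K x - e (inl K x)).fst := rfl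
    rw [h1]
    refine (fst_le' _).trans ?_
    have h2 : ‖inl K x - e (inl K x)‖ ^ 2 ≤ ‖inl K x‖ ^ 2 := by
      have h3 := Submodule.norm_sq_eq_add_norm_sq_starProjection (inl K x) (gr M Ω ξ)
      rw [h3, Submodule.starProjection_orthogonal_val]
      nlinarith [sq_nonneg ‖(gr M Ω ξ).starProjection (inl K x)‖]
    rw [← norm_inl x]
    exact (sq_le_sq₀ (norm_nonneg _) (norm_nonneg _)).mp h2
  have hf22 : ∀ η, e22 η = η → η = 0 := by
    intro η hη
    have h1 : e (inr K η) = inr K η := by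
      rw [he, Submodule.starProjection_eq_self_iff, Submodule.mem_iff_norm_starProjection]
      apply le_antisymm (hnorm _)
      rw [norm_inr]
      calc ‖η‖ = ‖e22 η‖ := by rw [hη]
        _ ≤ _ := snd_le' _
    apply cyc
    intro c hc
    have h2 : ⟪(toLp 2 (-(c ξ), c Ω) : WithLp 2 (K × K)), inr K η⟫_ℂ = 0 := by
      rw [← h1, ← hsa, hperp c hc, inner_zero_left]
    rw [hi2, inner_toLp, inner_zero_right, zero_add] at h2
    exact h2
  have hf11 : ∀ η, (1 - e11) η = η → η = 0 := by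
    intro η hη
    have h0 : e11 η = 0 := by
      have : η - e11 η = η := hη
      exact sub_eq_self.mp this
    have h1 : e (inl K η) = 0 := by
      have h2 : ⟪e (inl K η), e (inl K η)⟫_ℂ = 0 := by
        rw [hsa, hid, ← hadj1]
        change ⟪η, e11 η⟫_ℂ = 0
        rw [h0, inner_zero_right]
      exact inner_self_eq_zero.mp h2
    apply cyc
    intro a ha
    have h3 := hker' _ h1 a ha
    rw [hi1, inner_toLp, inner_zero_right, add_zero] at h3
    exact h3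
  -- the operators
  set B : ℕ → (K →L[ℂ] K) := fun N =>
    ((N : ℂ)⁻¹) • ∑ n ∈ Finset.range N, ∑ k ∈ Finset.range n, e22 ^ k * e21 with hB
  have hBmem : ∀ N, B N ∈ M.commutant := by
    intro N
    apply (M.commutant).toStarSubalgebra.smul_mem
    apply sum_mem
    intro n _
    apply sum_mem
    intro k _
    exact mul_mem (pow_mem hc22 k) hc21
  have hBΩ : ∀ N : ℕ, 0 < N → B N Ω = ξ - ((N : ℂ)⁻¹) • ∑ n ∈ Finset.range N, (e22 ^ n) ξ := by
    intro N hN
    have h1 : ∀ n : ℕ, (∑ k ∈ Finset.range n, e22 ^ k * e21) Ω = ξ - (e22 ^ n) ξ := by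
      intro n
      induction n with
      | zero => simp
      | succ n ih =>
        have h3 : (e22 ^ n * e21) Ω = (e22 ^ n) (e21 Ω) := rfl
        have h4 : (e22 ^ (n + 1)) ξ = (e22 ^ n) (e22 ξ) := by
          rw [pow_succ]; rfl
        rw [Finset.sum_range_succ, add_apply, ih, h3, h4, eq_sub_of_add_eq hrel1, map_sub]
        abel
    have hN' : (N : ℂ) ≠ 0 := Nat.cast_ne_zero.mpr hN.ne'
    rw [hB]
    simp only [smul_apply]
    rw [sum_apply, Finset.sum_congr rfl (fun n _ => h1 n),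
      Finset.sum_sub_distrib, Finset.sum_const, Finset.card_range, smul_sub,
      ← Nat.cast_smul_eq_nsmul ℂ, smul_smul, inv_mul_cancel₀ hN', one_smul]
  have hBsΩ : ∀ N : ℕ, 0 < N → (star (B N)) Ω =
      ξ - ((N : ℂ)⁻¹) • ∑ n ∈ Finset.range N, ((1 - e11) ^ n) ξ := by
    intro N hN
    have h0 : star (B N) =
        ((N : ℂ)⁻¹) • ∑ n ∈ Finset.range N, ∑ k ∈ Finset.range n, (1 - e11) ^ k * e12 := by
      rw [hB]
      simp only
      rw [star_smul, star_sum]
      congr 1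
      · simp
      · apply Finset.sum_congr rfl
        intro n _
        rw [star_sum]
        apply Finset.sum_congr rfl
        intro k _
        rw [star_mul, star_pow, hstar22, hstar21, hpow']
    have h1 : ∀ n : ℕ, (∑ k ∈ Finset.range n, (1 - e11) ^ k * e12) Ω = ξ - ((1 - e11) ^ n) ξ := by
      intro n
      induction n with
      | zero => simp
      | succ n ih =>
        have h2 : e11 ξ = ξ - (1 - e11) ξ := by
          simp
        have h3 : ((1 - e11) ^ n * e12) Ω = ((1 - e11) ^ n) (e12 Ω) := rfl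
        have h4 : ((1 - e11) ^ (n + 1)) ξ = ((1 - e11) ^ n) ((1 - e11) ξ) := by
          rw [pow_succ]; rfl
        rw [Finset.sum_range_succ, add_apply, ih, h3, h4, hrel2, h2, map_sub]
        abel
    have hN' : (N : ℂ) ≠ 0 := Nat.cast_ne_zero.mpr hN.ne'
    rw [h0]
    simp only [smul_apply]
    rw [sum_apply, Finset.sum_congr rfl (fun n _ => h1 n),
      Finset.sum_sub_distrib, Finset.sum_const, Finset.card_range, smul_sub,
      ← Nat.cast_smul_eq_nsmul ℂ, smul_smul, inv_mul_cancel₀ hN', one_smul]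
  -- the limit
  apply mem_closure_of_tendsto (f := fun N : ℕ => ((1 / 2 : ℂ) • (B N + star (B N))) Ω)
    (b := atTop)
  · have h1 := avg_tendsto e22 hn22 hf22 ξ
    have h2 := avg_tendsto (1 - e11) hn11 hf11 ξ
    have h3 : Tendsto (fun N : ℕ => (1 / 2 : ℂ) •
        ((ξ - ((N : ℂ)⁻¹) • ∑ n ∈ Finset.range N, (e22 ^ n) ξ) +
          (ξ - ((N : ℂ)⁻¹) • ∑ n ∈ Finset.range N, ((1 - e11) ^ n) ξ))) atTop
        (𝓝 ((1 / 2 : ℂ) • ((ξ - 0) + (ξ - 0)))) :=
      ((tendsto_const_nhds.sub h1).add (tendsto_const_nhds.sub h2)).const_smul _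
    have h4 : (1 / 2 : ℂ) • ((ξ - 0) + (ξ - 0)) = ξ := by
      rw [sub_zero, ← two_smul ℂ ξ, smul_smul]
      norm_num
    rw [h4] at h3
    refine h3.congr' ?_
    filter_upwards [eventually_gt_atTop 0] with N hN
    rw [smul_apply, add_apply, hBΩ N hN, hBsΩ N hN]
  · filter_upwards with N
    refine ⟨(1 / 2 : ℂ) • (B N + star (B N)), ?_, ?_, rfl⟩
    · apply (M.commutant).toStarSubalgebra.smul_mem
      exact add_mem (hBmem N) (star_mem (hBmem N))
    · rw [star_smul, star_add, star_star, add_comm (star (B N)) (B N)]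
      congr 1
      simp

end Pool.Agent.Helper67.Inj
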