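import Pool.Agent.Helper67.Inj.RD
import Pool.Agent.Helper67.Inj.T2
import Pool.Agent.Helper67.Inj.Orb

set_option autoImplicit false

open scoped InnerProductSpace ComplexOrder TensorProduct Topology

namespace Pool.Agent.Helper67.Inj

universe u

variable {K : Type u} [NormedAddCommGroup K] [InnerProductSpace ℂ K] [CompleteSpace K]

theorem TT.swap {M : VonNeumannAlgebra K} {Ω : K} {R R' : K →L[ℂ] K} {D : K →L⋆[ℂ] K}
    (h : TT M Ω R R' D) : TT M.commutant Ω R' R D := by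
  have hR' : R' = (2 : ℂ) • (1 : K →L[ℂ] K) - R := by rw [← h.sum]; abel
  have hcomm : R * R' = R' * R := by
    rw [hR']
    exact ((Commute.one_right R).smul_right 2).sub_right (Commute.refl R)
  exact
    { norm := h.norm
      sep := h.sep'
      sep' := by
        rw [VonNeumannAlgebra.commutant_commutant]
        exact h.sep
      cyc := h.cyc'
      cyc' := by
        rw [VonNeumannAlgebra.commutant_commutant]
        exact h.cyc
      pos := h.pos'
      pos' := h.pos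
      sum := by rw [add_comm]; exact h.sum
      inj := h.inj'
      inj' := h.inj
      Dsymm := h.Dsymm
      Dsq := by
        intro ξ
        rw [h.Dsq]
        exact congrArg (fun f : K →L[ℂ] K => f ξ) hcomm
      DR := h.DR'
      DR' := h.DR
      DM := h.DM'
      DM' := by
        rw [VonNeumannAlgebra.commutant_commutant]
        exact h.DM
      comp := h.comp'
      comp' := by
        rw [VonNeumannAlgebra.commutant_commutant]
        exact h.comp }

private lemma TTEx_smul_mem (M : VonNeumannAlgebra K) (c : ℂ) {y : K →L[ℂ] K} (hy : y ∈ M) :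
    c • y ∈ M := by
  have h1 : y ∈ M.toStarSubalgebra := hy
  exact M.toStarSubalgebra.smul_mem h1 c

private lemma TTEx_star_mem (M : VonNeumannAlgebra K) {y : K →L[ℂ] K} (hy : y ∈ M) :
    star y ∈ M := by
  have h1 : y ∈ M.toStarSubalgebra := hy
  exact star_mem h1

private lemma TTEx_decomp (M : VonNeumannAlgebra K) {y : K →L[ℂ] K} (hy : y ∈ M) :
    ∃ a₁ a₂ : K →L[ℂ] K, a₁ ∈ M ∧ a₂ ∈ M ∧ star a₁ = a₁ ∧ star a₂ = a₂ ∧
      y = a₁ + Complex.I • a₂ ∧ star y = a₁ - Complex.I • a₂ := by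
  refine ⟨(1 / 2 : ℂ) • (y + star y), (-(Complex.I / 2) : ℂ) • (y - star y), ?_, ?_, ?_, ?_, ?_, ?_⟩
  · exact TTEx_smul_mem M _ (add_mem hy (TTEx_star_mem M hy))
  · exact TTEx_smul_mem M _ (sub_mem hy (TTEx_star_mem M hy))
  · rw [star_smul, star_add, star_star, add_comm (star y)]
    congr 1
    simp
  · rw [star_smul, star_sub, star_star, ← neg_sub y (star y), smul_neg, ← neg_smul]
    congr 1
    simp
    ring
  · rw [smul_smul]
    have : Complex.I * -(Complex.I / 2) = (1 / 2 : ℂ) := by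
      have := Complex.I_mul_I
      linear_combination (-(1 / 2 : ℂ)) * this
    rw [this, ← smul_add]
    have h2 : y + star y + (y - star y) = (2 : ℂ) • y := by rw [two_smul]; abel
    rw [h2, smul_smul]
    norm_num
  · rw [smul_smul]
    have : Complex.I * -(Complex.I / 2) = (1 / 2 : ℂ) := by
      have := Complex.I_mul_I
      linear_combination (-(1 / 2 : ℂ)) * this
    rw [this, ← smul_sub]
    have h2 : y + star y - (y - star y) = (2 : ℂ) • star y := by rw [two_smul]; abel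
    rw [h2, smul_smul]
    norm_num

private lemma TTEx_inner_real {a b : K →L[ℂ] K} (ha : star a = a) (hb : star b = b)
    (hab : a * b = b * a) (Ω : K) : (⟪a Ω, b Ω⟫_ℂ).im = 0 := by
  have h1 : ⟪a Ω, b Ω⟫_ℂ = ⟪Ω, a (b Ω)⟫_ℂ := by
    have h2 : a = ContinuousLinearMap.adjoint a := by
      rw [← ContinuousLinearMap.star_eq_adjoint]; exact ha.symm
    conv_lhs => rw [h2]
    rw [ContinuousLinearMap.adjoint_inner_left]
  have h3 : ⟪b Ω, a Ω⟫_ℂ = ⟪Ω, b (a Ω)⟫_ℂ := by
    have h2 : b = ContinuousLinearMap.adjoint b := by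
      rw [← ContinuousLinearMap.star_eq_adjoint]; exact hb.symm
    conv_lhs => rw [h2]
    rw [ContinuousLinearMap.adjoint_inner_left]
  have h4 : a (b Ω) = b (a Ω) := congrArg (fun f : K →L[ℂ] K => f Ω) hab
  have h5 : (starRingEnd ℂ) ⟪a Ω, b Ω⟫_ℂ = ⟪a Ω, b Ω⟫_ℂ := by
    rw [inner_conj_symm, h1, h3, h4]
  exact Complex.conj_eq_iff_im.1 h5

private lemma TTEx_comm {M : VonNeumannAlgebra K} {a b : K →L[ℂ] K} (ha : a ∈ M)
    (hb : b ∈ M.commutant) : a * b = b * a := by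
  rw [VonNeumannAlgebra.mem_commutant_iff] at hb
  exact hb a ha

/-- TT-EX -/
theorem exists_TT (M : VonNeumannAlgebra K) (Ω : K) (hΩ : ‖Ω‖ = 1)
    (cyc : ∀ η : K, (∀ y ∈ M, ⟪y Ω, η⟫_ℂ = 0) → η = 0)
    (sep : ∀ y ∈ M, y Ω = 0 → y = 0) :
    ∃ (R R' : K →L[ℂ] K) (D : K →L⋆[ℂ] K), TT M Ω R R' D := by
  classical
  -- cyclic for the commutant
  have cyc' : ∀ η : K, (∀ y ∈ M.commutant, ⟪y Ω, η⟫_ℂ = 0) → η = 0 := by
    intro η hη
    refine orb_eq_zero_of_inner M.commutant Ω η ?_ hη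
    rw [orb_commutant_eq_top M Ω sep]
    trivial
  have sep' : ∀ y ∈ M.commutant, y Ω = 0 → y = 0 := by
    intro y hy hyΩ
    have h1 : star y = 0 := by
      ext v
      refine cyc _ fun a ha => ?_
      rw [ContinuousLinearMap.star_eq_adjoint, ContinuousLinearMap.adjoint_inner_right]
      have h2 : y (a Ω) = a (y Ω) := (congrArg (fun f : K →L[ℂ] K => f Ω) (TTEx_comm ha hy)).symm
      rw [h2, hyΩ, map_zero, inner_zero_left]
    exact star_eq_zero.1 h1
  -- the real subspace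
  let S₀ : Submodule ℝ K :=
    { carrier := {η | ∃ a ∈ M, star a = a ∧ a Ω = η}
      zero_mem' := ⟨0, zero_mem M, star_zero _, rfl⟩
      add_mem' := by
        rintro _ _ ⟨a, ha, ha', rfl⟩ ⟨b, hb, hb', rfl⟩
        exact ⟨a + b, add_mem ha hb, by rw [star_add, ha', hb'], rfl⟩
      smul_mem' := by
        rintro c _ ⟨a, ha, ha', rfl⟩
        refine ⟨(c : ℂ) • a, TTEx_smul_mem M _ ha, ?_, ?_⟩
        · rw [star_smul, ha']
          congr 1
          simp
        · change (c : ℂ) • a Ω = c • a Ω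
          rw [Complex.coe_smul] }
  let S : Submodule ℝ K := S₀.topologicalClosure
  have hScl : IsClosed (S : Set K) := S₀.isClosed_topologicalClosure
  have hSmem : ∀ a ∈ M, star a = a → a Ω ∈ S := fun a ha ha' =>
    S₀.le_topologicalClosure ⟨a, ha, ha', rfl⟩
  -- closed real conditions pass from `M_sa Ω` to `S`
  have hSind : ∀ η : K, (∀ a ∈ M, star a = a → (⟪a Ω, η⟫_ℂ).im = 0) →
      ∀ ξ ∈ S, (⟪ξ, η⟫_ℂ).im = 0 := by
    intro η hη ξ hξ
    have h1 : ξ ∈ closure (S₀ : Set K) := hξ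
    have h2 : IsClosed {ξ : K | (⟪ξ, η⟫_ℂ).im = 0} :=
      isClosed_eq (Complex.continuous_im.comp (continuous_id.inner continuous_const))
        continuous_const
    refine closure_minimal (s := (S₀ : Set K)) ?_ h2 h1
    rintro _ ⟨a, ha, ha', rfl⟩
    exact hη a ha ha'
  have hImsymm : ∀ ξ η : K, (⟪ξ, η⟫_ℂ).im = 0 → (⟪η, ξ⟫_ℂ).im = 0 := by
    intro ξ η h
    rw [← inner_conj_symm, Complex.conj_im, h, neg_zero]
  have hsep : ∀ ξ ∈ S, Complex.I • ξ ∈ S → ξ = 0 := by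
    intro ξ hξ hξI
    have h1 : ∀ b ∈ M.commutant, star b = b → ⟪b Ω, ξ⟫_ℂ = 0 := by
      intro b hb hb'
      have h2 : ∀ a ∈ M, star a = a → (⟪a Ω, b Ω⟫_ℂ).im = 0 := fun a ha ha' =>
        TTEx_inner_real ha' hb' (TTEx_comm ha hb) Ω
      have h3 := hImsymm _ _ (hSind (b Ω) h2 ξ hξ)
      have h4 := hImsymm _ _ (hSind (b Ω) h2 _ hξI)
      rw [inner_smul_right] at h4
      have h5 : (⟪b Ω, ξ⟫_ℂ).re = 0 := by
        simpa using h4
      exact Complex.ext h5 h3
    refine cyc' ξ fun y hy => ?_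
    obtain ⟨b₁, b₂, hb₁, hb₂, hb₁', hb₂', hy1, -⟩ := TTEx_decomp M.commutant hy
    rw [hy1]
    change ⟪b₁ Ω + Complex.I • b₂ Ω, ξ⟫_ℂ = 0
    rw [inner_add_left, inner_smul_left, h1 b₁ hb₁ hb₁', h1 b₂ hb₂ hb₂', mul_zero, add_zero]
  have hcyc : ∀ η : K, (∀ ξ ∈ S, ⟪ξ, η⟫_ℂ = 0) → η = 0 := by
    intro η hη
    refine cyc η fun y hy => ?_
    obtain ⟨b₁, b₂, hb₁, hb₂, hb₁', hb₂', hy1, -⟩ := TTEx_decomp M hy
    rw [hy1]
    change ⟪b₁ Ω + Complex.I • b₂ Ω, η⟫_ℂ = 0
    rw [inner_add_left, inner_smul_left, hη _ (hSmem b₁ hb₁ hb₁'), hη _ (hSmem b₂ hb₂ hb₂'),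
      mul_zero, add_zero]
  obtain ⟨R, R', D, hR, hR', hsum, hinj, hinj', hDsymm, hDsq, hDR, hDR', hDS, hDS', hSS⟩ :=
    exists_RD S hScl hsep hcyc
  refine ⟨R, R', D,
    { norm := hΩ
      sep := sep
      sep' := sep'
      cyc := cyc
      cyc' := cyc'
      pos := hR
      pos' := hR'
      sum := hsum
      inj := hinj
      inj' := hinj'
      Dsymm := hDsymm
      Dsq := hDsq
      DR := hDR
      DR' := hDR'
      DM := ?_
      DM' := ?_
      comp := fun η hη => hDS' η (hSind η hη)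
      comp' := ?_ }⟩
  · intro y hy
    obtain ⟨b₁, b₂, hb₁, hb₂, hb₁', hb₂', hy1, hy2⟩ := TTEx_decomp M hy
    rw [hy2]
    conv_lhs => rw [hy1]
    change D (b₁ Ω + Complex.I • b₂ Ω) = R' (b₁ Ω - Complex.I • b₂ Ω)
    rw [map_add, map_sub, map_smulₛₗ, map_smul, hDS _ (hSmem b₁ hb₁ hb₁'),
      hDS _ (hSmem b₂ hb₂ hb₂'), Complex.conj_I, neg_smul, sub_eq_add_neg]
  · intro y hy
    have h1 : ∀ b ∈ M.commutant, star b = b → D (b Ω) = R (b Ω) := by
      intro b hb hb'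
      exact hDS' _ (hSind (b Ω) fun a ha ha' => TTEx_inner_real ha' hb' (TTEx_comm ha hb) Ω)
    obtain ⟨b₁, b₂, hb₁, hb₂, hb₁', hb₂', hy1, hy2⟩ := TTEx_decomp M.commutant hy
    rw [hy2]
    conv_lhs => rw [hy1]
    change D (b₁ Ω + Complex.I • b₂ Ω) = R (b₁ Ω - Complex.I • b₂ Ω)
    rw [map_add, map_sub, map_smulₛₗ, map_smul, h1 b₁ hb₁ hb₁',
      h1 b₂ hb₂ hb₂', Complex.conj_I, neg_smul, sub_eq_add_neg]
  · intro η hη
    apply hDS
    apply hSS
    intro ζ hζ
    have h1 : ζ ∈ closure {η : K | ∃ b ∈ M.commutant, star b = b ∧ b Ω = η} :=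
      mem_closure_commutant M Ω cyc ζ fun a ha ha' => hζ _ (hSmem a ha ha')
    have h2 : IsClosed {ζ : K | (⟪ζ, η⟫_ℂ).im = 0} :=
      isClosed_eq (Complex.continuous_im.comp (continuous_id.inner continuous_const))
        continuous_const
    refine closure_minimal ?_ h2 h1
    rintro _ ⟨b, hb, hb', rfl⟩
    exact hη b hb hb'

end Pool.Agent.Helper67.Inj
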