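import Pool.Agent.Helper67.Inj.Form
import Pool.Agent.Helper67.Inj.TTEx

set_option autoImplicit false

open scoped InnerProductSpace ComplexOrder TensorProduct Topology

namespace Pool.Agent.Helper67.Inj

universe u

variable {K : Type u} [NormedAddCommGroup K] [InnerProductSpace ℂ K] [CompleteSpace K]

private lemma TTJ_symm_of_nonneg {A : K →L[ℂ] K} (hA : 0 ≤ A) (x y : K) :
    ⟪A x, y⟫_ℂ = ⟪x, A y⟫_ℂ := by
  have h1 : IsSelfAdjoint A := IsSelfAdjoint.of_nonneg hA
  have h2 := h1.isSymmetric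
  exact h2 x y

omit [CompleteSpace K] in
private lemma TTJ_pos_of_nonneg {A : K →L[ℂ] K} (hA : 0 ≤ A) (x : K) :
    0 ≤ ⟪A x, x⟫_ℂ := by
  have h1 : A.IsPositive := (ContinuousLinearMap.nonneg_iff_isPositive A).1 hA
  exact h1.inner_nonneg_left x

omit [CompleteSpace K] in
private lemma TTJ_nonneg_of {A : K →L[ℂ] K} (h : ∀ x, 0 ≤ ⟪A x, x⟫_ℂ) : 0 ≤ A := by
  rw [ContinuousLinearMap.nonneg_iff_isPositive]
  rw [ContinuousLinearMap.isPositive_iff_complex]
  intro x
  have := h x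
  rw [Complex.le_def] at this
  constructor
  · apply Complex.ext
    · simp
    · simpa using this.2
  · simpa using this.1

private lemma TTJ_dense_of_inj {A : K →L[ℂ] K} (hA : 0 ≤ A) (hinj : ∀ x, A x = 0 → x = 0) :
    DenseRange A := by
  have h1 : (LinearMap.range (A : K →ₗ[ℂ] K)).topologicalClosure = ⊤ := by
    rw [Submodule.topologicalClosure_eq_top_iff, Submodule.eq_bot_iff]
    intro x hx
    apply hinj
    rw [Submodule.mem_orthogonal] at hx
    have h2 := hx (A (A x)) ⟨A x, rfl⟩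
    rw [TTJ_symm_of_nonneg hA] at h2
    exact inner_self_eq_zero.1 h2
  intro x
  have h2 : x ∈ (LinearMap.range (A : K →ₗ[ℂ] K)).topologicalClosure := by
    rw [h1]
    trivial
  exact h2

/-- conjugate linear sandwich as a linear operator -/
private noncomputable def TTJ_sand (D : K →L⋆[ℂ] K) (A : K →L[ℂ] K) : K →L[ℂ] K :=
  D.comp (A.comp D)

omit [CompleteSpace K] in
private lemma TTJ_sand_apply (D : K →L⋆[ℂ] K) (A : K →L[ℂ] K) (x : K) :
    TTJ_sand D A x = D (A (D x)) := rfl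

private lemma TTJ_sand_nonneg {D : K →L⋆[ℂ] K} (hD : ∀ ξ η, ⟪D ξ, η⟫_ℂ = ⟪D η, ξ⟫_ℂ)
    {A : K →L[ℂ] K} (hA : 0 ≤ A) : 0 ≤ TTJ_sand D A := by
  apply TTJ_nonneg_of
  intro x
  rw [TTJ_sand_apply, hD, ← TTJ_symm_of_nonneg hA]
  exact TTJ_pos_of_nonneg hA _

/-- TT-J -/
theorem exists_TTJ {M : VonNeumannAlgebra K} {Ω : K} {R R' : K →L[ℂ] K} {D : K →L⋆[ℂ] K}
    (h : TT M Ω R R' D) : ∃ J : K ≃ₗᵢ⋆[ℂ] K, TTJ M Ω R R' D J := by
  -- square roots
  set A : K →L[ℂ] K := CFC.sqrt R with hAdef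
  set B : K →L[ℂ] K := CFC.sqrt R' with hBdef
  have hA : 0 ≤ A := CFC.sqrt_nonneg R
  have hB : 0 ≤ B := CFC.sqrt_nonneg R'
  have hAA : A * A = R := CFC.sqrt_mul_sqrt_self R h.pos
  have hBB : B * B = R' := CFC.sqrt_mul_sqrt_self R' h.pos'
  have hR' : R' = (2 : ℂ) • (1 : K →L[ℂ] K) - R := by rw [← h.sum]; abel
  have hAR : Commute A R := by
    change A * R = R * A
    rw [← hAA, mul_assoc]
  have hAR' : Commute A R' := by
    rw [hR']
    exact ((Commute.one_right A).smul_right 2).sub_right hAR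
  have hAB : Commute A B := by
    have h1 : Commute R' A := hAR'.symm
    have h2 : Commute (cfcₙ NNReal.sqrt R') A := Commute.cfcₙ_nnreal h1 NNReal.sqrt
    exact h2.symm
  have hRR' : Commute R R' := by
    change R * R' = R' * R
    rw [← hAA, mul_assoc, hAR'.eq, ← mul_assoc, hAR'.eq, mul_assoc]
  set T : K →L[ℂ] K := A * B with hTdef
  have hT : 0 ≤ T := hAB.mul_nonneg hA hB
  have hTT : T * T = R * R' := by
    rw [hTdef, ← hAA, ← hBB]
    calc A * B * (A * B) = A * (B * A) * B := by simp only [mul_assoc]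
      _ = A * (A * B) * B := by rw [hAB.eq]
      _ = A * A * (B * B) := by simp only [mul_assoc]
  have hTTx : ∀ x, T (T x) = R (R' x) := fun x => by
    have := congrArg (fun f : K →L[ℂ] K => f x) hTT
    exact this
  have hRR'x : ∀ x, R (R' x) = R' (R x) := fun x => by
    have := congrArg (fun f : K →L[ℂ] K => f x) hRR'.eq
    exact this
  have hTinj : ∀ x, T x = 0 → x = 0 := by
    intro x hx
    apply h.inj'
    apply h.inj
    rw [← hTTx, hx, map_zero]
  have hTd : DenseRange T := TTJ_dense_of_inj hT hTinj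
  -- D commutes with T
  have hDS : ∀ x, D (R (R' x)) = R (R' (D x)) := by
    intro x
    rw [h.DR, h.DR', hRR'x]
  have hX : TTJ_sand D T = T * T * T := by
    have h1 : TTJ_sand D T * TTJ_sand D T = (T * T * T) * (T * T * T) := by
      ext x
      change D (T (D (D (T (D x))))) = T (T (T (T (T (T x)))))
      rw [h.Dsq, ← hTTx]
      -- D (T (T (T (T (D x)))))
      rw [hTTx, hTTx, hDS, hDS, h.Dsq]
      rw [hTTx x, hTTx (R (R' x)), hTTx (R (R' (R (R' x))))]
    have h2 : 0 ≤ TTJ_sand D T := TTJ_sand_nonneg h.Dsymm hT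
    have h3 : 0 ≤ T * T * T := by
      have : T * T * T = star T * T * T := by
        rw [(IsSelfAdjoint.of_nonneg hT).star_eq]
      rw [this]
      have h4 : star T * T * T = star T * T * T := rfl
      have h5 := star_left_conjugate_nonneg hT T
      rw [(IsSelfAdjoint.of_nonneg hT).star_eq] at h5 ⊢
      exact h5
    have h4 := CFC.sqrt_unique h1 h2
    have h5 := CFC.sqrt_mul_self (T * T * T) h3
    rw [← h4, h5]
  have hXx : ∀ x, D (T (D x)) = T (T (T x)) := fun x => by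
    have := congrArg (fun f : K →L[ℂ] K => f x) hX
    exact this
  have hDT : ∀ x, D (T x) = T (D x) := by
    have h1 : ∀ x, D (T (R (R' x))) = T (D (R (R' x))) := by
      intro x
      -- R R' x = D D x
      rw [← h.Dsq, hXx, h.Dsq, ← hTTx]
    have h2 : DenseRange (fun x => R (R' x)) := by
      have h3 : (fun x => R (R' x)) = fun x => T (T x) := by
        funext x
        exact (hTTx x).symm
      rw [h3]
      exact hTd.comp hTd T.continuous
    intro x
    refine h2.induction_on (p := fun x => D (T x) = T (D x)) x ?_ ?_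
    · exact isClosed_eq (D.continuous.comp T.continuous) (T.continuous.comp D.continuous)
    · intro y
      exact h1 y
  -- norm identity
  have hnorm : ∀ x, ‖D x‖ = ‖T x‖ := by
    intro x
    have h1 : ⟪D x, D x⟫_ℂ = ⟪T x, T x⟫_ℂ := by
      rw [h.Dsymm, h.Dsq, ← hTTx, TTJ_symm_of_nonneg hT]
    have h2 : ‖D x‖ ^ 2 = ‖T x‖ ^ 2 := by
      rw [inner_self_eq_norm_sq_to_K, inner_self_eq_norm_sq_to_K] at h1
      exact_mod_cast h1
    exact (sq_eq_sq₀ (norm_nonneg _) (norm_nonneg _)).1 h2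
  have hTd' : DenseRange (T : K →ₗ[ℂ] K) := hTd
  -- the extension
  let J₀ : K →L⋆[ℂ] K := (D : K →ₛₗ[starRingEnd ℂ] K).extendOfNorm (T : K →ₗ[ℂ] K)
  have hJ₀ : ∀ x, J₀ (T x) = D x := fun x =>
    LinearMap.extendOfNorm_eq (f := (D : K →ₛₗ[starRingEnd ℂ] K)) (e := (T : K →ₗ[ℂ] K)) hTd'
      ⟨1, fun x => by rw [one_mul]; exact (hnorm x).le⟩ x
  have hJnorm : ∀ x, ‖J₀ x‖ = ‖x‖ := by
    intro x
    refine hTd.induction_on (p := fun x => ‖J₀ x‖ = ‖x‖) x ?_ ?_
    · exact isClosed_eq J₀.continuous.norm continuous_norm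
    · intro y
      rw [hJ₀, hnorm]
  have hJT : ∀ x, J₀ (T x) = T (J₀ x) := by
    intro x
    refine hTd.induction_on (p := fun x => J₀ (T x) = T (J₀ x)) x ?_ ?_
    · exact isClosed_eq (J₀.continuous.comp T.continuous) (T.continuous.comp J₀.continuous)
    · intro y
      rw [hJ₀, hJ₀, hDT]
  have hJinv : ∀ x, J₀ (J₀ x) = x := by
    intro x
    refine (hTd.comp hTd T.continuous).induction_on (p := fun x => J₀ (J₀ x) = x) x ?_ ?_
    · exact isClosed_eq (J₀.continuous.comp J₀.continuous) continuous_id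
    · intro y
      change J₀ (J₀ (T (T y))) = T (T y)
      rw [hJ₀, hDT, hJ₀, h.Dsq, hTTx]
  have hJsymm : ∀ x y, ⟪J₀ x, y⟫_ℂ = ⟪J₀ y, x⟫_ℂ := by
    intro x
    refine hTd.induction_on (p := fun x => ∀ y, ⟪J₀ x, y⟫_ℂ = ⟪J₀ y, x⟫_ℂ) x ?_ ?_
    · rw [show {x | ∀ y, ⟪J₀ x, y⟫_ℂ = ⟪J₀ y, x⟫_ℂ} = ⋂ y, {x | ⟪J₀ x, y⟫_ℂ = ⟪J₀ y, x⟫_ℂ} by
        ext; simp]
      exact isClosed_iInter fun y =>
        isClosed_eq (J₀.continuous.inner continuous_const) (continuous_const.inner continuous_id)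
    · intro x y
      refine hTd.induction_on (p := fun y => ⟪J₀ (T x), y⟫_ℂ = ⟪J₀ y, T x⟫_ℂ) y ?_ ?_
      · exact isClosed_eq (continuous_const.inner continuous_id)
          (J₀.continuous.inner continuous_const)
      · intro y
        rw [hJ₀, hJ₀, ← TTJ_symm_of_nonneg hT, ← hDT, h.Dsymm]
  let J : K ≃ₗᵢ⋆[ℂ] K :=
    { toLinearEquiv := LinearEquiv.ofInvolutive (J₀ : K →ₛₗ[starRingEnd ℂ] K) hJinv
      norm_map' := hJnorm }
  have hJ : ∀ x, J x = J₀ x := fun _ => rfl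
  -- relation with R
  have hJR : ∀ x, J₀ (R x) = R' (J₀ x) := by
    intro x
    refine hTd.induction_on (p := fun x => J₀ (R x) = R' (J₀ x)) x ?_ ?_
    · exact isClosed_eq (J₀.continuous.comp R.continuous) (R'.continuous.comp J₀.continuous)
    · intro y
      have h1 : R (T y) = T (R y) := by
        have h2 : Commute T R := (hAR.mul_left (by
          have h3 : Commute B R' := by
            change B * R' = R' * B
            rw [← hBB, mul_assoc]
          have h4 : R = (2 : ℂ) • (1 : K →L[ℂ] K) - R' := by rw [← h.sum]; abel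
          rw [h4]
          exact ((Commute.one_right B).smul_right 2).sub_right h3))
        have := congrArg (fun f : K →L[ℂ] K => f y) h2.eq
        exact this.symm
      rw [h1, hJ₀, hJ₀, h.DR]
  have hBsand : CFC.sqrt R' = TTJ_sand J₀ A := by
    refine CFC.sqrt_unique ?_ (TTJ_sand_nonneg hJsymm hA)
    ext x
    change J₀ (A (J₀ (J₀ (A (J₀ x))))) = R' x
    have h1 : ∀ y, A (A y) = R y := fun y => by
      have := congrArg (fun f : K →L[ℂ] K => f y) hAA
      exact this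
    rw [hJinv, h1, hJR, hJinv]
  have hBs : ∀ x, B x = J₀ (A (J₀ x)) := fun x => by
    have := congrArg (fun f : K →L[ℂ] K => f x) hBsand
    exact this
  have hJA : ∀ x, J₀ (A x) = B (J₀ x) := by
    intro x
    rw [hBs, hJinv]
  have hJB : ∀ x, J₀ (B x) = A (J₀ x) := by
    intro x
    rw [hBs, hJinv]
  have hABx : ∀ x, T x = A (B x) := fun _ => rfl
  have hBAx : ∀ x, T x = B (A x) := fun x => by
    have := congrArg (fun f : K →L[ℂ] K => f x) hAB.eq
    exact this
  have hAAx : ∀ x, A (A x) = R x := fun x => by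
    have := congrArg (fun f : K →L[ℂ] K => f x) hAA
    exact this
  have hBBx : ∀ x, B (B x) = R' x := fun x => by
    have := congrArg (fun f : K →L[ℂ] K => f x) hBB
    exact this
  have hAinj : ∀ x y, A x = A y → x = y := by
    intro x y hxy
    rw [← sub_eq_zero]
    apply h.inj
    rw [← hAAx, map_sub, hxy, sub_self, map_zero]
  have hBinj : ∀ x y, B x = B y → x = y := by
    intro x y hxy
    rw [← sub_eq_zero]
    apply h.inj'
    rw [← hBBx, map_sub, hxy, sub_self, map_zero]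
  -- the vector Ω
  have hDΩ : D Ω = R' Ω := by
    have := h.DM 1 (one_mem M)
    simpa using this
  have hDΩ' : D Ω = R Ω := by
    have := h.DM' 1 (one_mem M.commutant)
    simpa using this
  have hRΩ : R Ω = Ω := by
    have h1 : R Ω + R' Ω = (2 : ℂ) • Ω := by
      have := congrArg (fun f : K →L[ℂ] K => f Ω) h.sum
      simpa using this
    rw [← hDΩ, hDΩ', ← two_smul ℂ (R Ω)] at h1
    exact smul_right_injective K (two_ne_zero (α := ℂ)) h1
  have hR'Ω : R' Ω = Ω := by rw [← hDΩ, hDΩ', hRΩ]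
  have hfix : ∀ (C : K →L[ℂ] K), 0 ≤ C → C (C Ω) = Ω → C Ω = Ω := by
    intro C hC hCC
    have h1 : C (C Ω - Ω) + (C Ω - Ω) = 0 := by
      rw [map_sub, hCC]
      abel
    have h2 : ⟪C (C Ω - Ω), C Ω - Ω⟫_ℂ + ⟪C Ω - Ω, C Ω - Ω⟫_ℂ = 0 := by
      rw [← inner_add_left, h1, inner_zero_left]
    have h3 := TTJ_pos_of_nonneg hC (C Ω - Ω)
    have h4 : (0 : ℂ) ≤ ⟪C Ω - Ω, C Ω - Ω⟫_ℂ := by
      exact (ContinuousLinearMap.isPositive_one (𝕜 := ℂ) (E := K)).inner_nonneg_left (C Ω - Ω)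
    have h5 : ⟪C Ω - Ω, C Ω - Ω⟫_ℂ = 0 := by
      apply le_antisymm _ h4
      rw [← h2]
      exact le_add_of_nonneg_left h3
    exact sub_eq_zero.1 (inner_self_eq_zero.1 h5)
  have hAΩ : A Ω = Ω := hfix A hA (by rw [hAAx, hRΩ])
  have hBΩ : B Ω = Ω := hfix B hB (by rw [hBBx, hR'Ω])
  refine ⟨J, ⟨h, hJinv, hJsymm, ?_, hJA, hJB, ?_, ?_⟩⟩
  · change J₀ Ω = Ω
    have h1 : T Ω = Ω := by rw [hABx, hBΩ, hAΩ]
    have h2 := hJ₀ Ω
    rw [h1] at h2
    rw [h2, hDΩ, hR'Ω]
  · intro a ha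
    change J₀ (B (a Ω)) = B (star a Ω)
    apply hBinj
    rw [← hJA, ← hABx, hJ₀, h.DM a ha, hBBx]
  · intro b hb
    change J₀ (A (b Ω)) = A (star b Ω)
    apply hAinj
    rw [← hJB, ← hBAx, hJ₀, h.DM' b hb, hAAx]

theorem TTJ.swap {M : VonNeumannAlgebra K} {Ω : K} {R R' : K →L[ℂ] K} {D : K →L⋆[ℂ] K}
    {J : K ≃ₗᵢ⋆[ℂ] K} (h : TTJ M Ω R R' D J) : TTJ M.commutant Ω R' R D J := by
  refine ⟨h.tt.swap, h.inv, h.symm, h.fix, h.JR', h.JR, h.JM', ?_⟩
  intro b hb
  rw [VonNeumannAlgebra.commutant_commutant] at hb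
  exact h.JM b hb

end Pool.Agent.Helper67.Inj
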