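import Pool.Agent.Helper67.Inj.Half
import Pool.Agent.Helper67.Inj.TTJ

set_option autoImplicit false

open scoped InnerProductSpace ComplexOrder TensorProduct Topology

namespace Pool.Agent.Helper67.Inj

universe u

variable {K : Type u} [NormedAddCommGroup K] [InnerProductSpace ℂ K] [CompleteSpace K]

private lemma tomita_sqrt_comm {R R' : K →L[ℂ] K} (hc : Commute R R') :
    Commute (CFC.sqrt R) (CFC.sqrt R') := by
  have h1 : Commute (CFC.sqrt R) R' := Commute.cfcₙ_nnreal hc _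
  exact (Commute.cfcₙ_nnreal h1.symm _).symm

private lemma tomita_pos_aux {R R' : K →L[ℂ] K} (hR : 0 ≤ R) (hR' : 0 ≤ R')
    (hsum : R + R' = (2 : ℂ) • (1 : K →L[ℂ] K)) {ζ η : K}
    (h : CFC.sqrt R ζ = CFC.sqrt R' η) : 0 ≤ ⟪ζ, η⟫_ℂ := by
  have hR'e : R' = (2 : ℂ) • (1 : K →L[ℂ] K) - R := by rw [← hsum]; abel
  have hc : Commute R R' := by
    rw [hR'e]
    exact (Commute.smul_right (Commute.one_right R) _).sub_right (Commute.refl R)
  have hcs := tomita_sqrt_comm hc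
  set A := CFC.sqrt R with hA
  set B := CFC.sqrt R' with hB
  have hA0 : 0 ≤ A := CFC.sqrt_nonneg R
  have hB0 : 0 ≤ B := CFC.sqrt_nonneg R'
  have hAA : A * A = R := CFC.sqrt_mul_sqrt_self R hR
  have hBB : B * B = R' := CFC.sqrt_mul_sqrt_self R' hR'
  have hAB : 0 ≤ B * A := hcs.symm.mul_nonneg hB0 hA0
  have hCC : (A + B) * (A + B) = (2 : ℂ) • (1 : K →L[ℂ] K) + (B * A + B * A) := by
    rw [add_mul, mul_add, mul_add, hAA, hBB, hcs.eq, ← hsum]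
    abel
  have hunit : IsUnit ((A + B) * (A + B)) := by
    refine CStarAlgebra.isUnit_of_le (1 : K →L[ℂ] K) ?_ (IsStrictlyPositive.iff_of_unital.2 ⟨zero_le_one, isUnit_one⟩)
    rw [hCC, two_smul]
    have h1 : (0 : K →L[ℂ] K) ≤ 1 := zero_le_one
    calc (1 : K →L[ℂ] K) = 1 + 0 + (0 + 0) := by simp
      _ ≤ 1 + 1 + (B * A + B * A) := by gcongr
  have hC : IsUnit (A + B) := ((Commute.refl (A + B)).isUnit_mul_iff.1 hunit).1
  obtain ⟨C, hCe⟩ := hC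
  -- `C ω = ζ + η`
  set ω : K := (↑C⁻¹ : K →L[ℂ] K) (ζ + η) with hω
  have hCω : (A + B) ω = ζ + η := by
    rw [hω, ← hCe, ← mul_apply_eq_comp, C.mul_inv]
    rfl
  have hCinj : ∀ x y : K, (A + B) x = (A + B) y → x = y := by
    intro x y hxy
    have := congrArg (↑C⁻¹ : K →L[ℂ] K) hxy
    rwa [← hCe, ← mul_apply_eq_comp, ← mul_apply_eq_comp, C.inv_mul] at this
  have hBω : B ω = ζ := by
    apply hCinj
    have e : (A + B) (B ω) = B ((A + B) ω) := by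
      have e' : (A + B) * B = B * (A + B) := by rw [add_mul, mul_add, hcs.eq]
      exact congrArg (fun X : K →L[ℂ] K => X ω) e' 
    rw [e, hCω, map_add, add_apply, h]
    abel
  have hAω : A ω = η := by
    apply hCinj
    have e : (A + B) (A ω) = A ((A + B) ω) := by
      have e' : (A + B) * A = A * (A + B) := by rw [add_mul, mul_add, hcs.eq]
      exact congrArg (fun X : K →L[ℂ] K => X ω) e' 
    rw [e, hCω, map_add, add_apply, h]
    abel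
  rw [← hBω, ← hAω]
  have hBs : star B = B := (IsSelfAdjoint.of_nonneg hB0).star_eq
  have e : ⟪B ω, A ω⟫_ℂ = ⟪ω, (B * A) ω⟫_ℂ := by
    rw [mul_apply_eq_comp]
    nth_rewrite 1 [← hBs]
    rw [ContinuousLinearMap.star_eq_adjoint, ContinuousLinearMap.adjoint_inner_left]
  rw [e]
  rw [ContinuousLinearMap.nonneg_iff_isPositive] at hAB
  exact hAB.inner_nonneg_right ω

/-- TT-MAIN -/
theorem tomita (M : VonNeumannAlgebra K) (Ω : K) (hΩ : ‖Ω‖ = 1)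
    (cyc : ∀ η : K, (∀ y ∈ M, ⟪y Ω, η⟫_ℂ = 0) → η = 0)
    (sep : ∀ y ∈ M, y Ω = 0 → y = 0) :
    ∃ J : K ≃ₗᵢ⋆[ℂ] K, (∀ ξ, J (J ξ) = ξ) ∧ (∀ ξ η, ⟪J ξ, η⟫_ℂ = ⟪J η, ξ⟫_ℂ) ∧ J Ω = Ω ∧
      (∀ b ∈ M.commutant, ∃ y ∈ M, ∀ ξ, y ξ = J (b (J ξ))) ∧
      (∀ y ∈ M, ∃ b ∈ M.commutant, ∀ ξ, b ξ = J (y (J ξ))) ∧
      (∀ y ∈ M, 0 ≤ ⟪J (star y Ω), y Ω⟫_ℂ) := by
  obtain ⟨R, R', D, hTT⟩ := exists_TT M Ω hΩ cyc sep
  obtain ⟨J, hJ⟩ := exists_TTJ hTT
  refine ⟨J, hJ.inv, hJ.symm, hJ.fix, tomita_half hJ, ?_, ?_⟩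
  · intro y hy
    have hy' : y ∈ M.commutant.commutant := by rwa [VonNeumannAlgebra.commutant_commutant]
    exact tomita_half hJ.swap y hy'
  · intro y hy
    refine tomita_pos_aux hTT.pos hTT.pos' hTT.sum ?_
    rw [← hJ.JR', hJ.JM _ (star_mem hy), star_star]

end Pool.Agent.Helper67.Inj
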