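import Pool.Agent.Helper67.Inj.Induce
import Pool.Agent.Helper67.Inj.Tomita

set_option autoImplicit false

open scoped InnerProductSpace ComplexOrder TensorProduct Topology

namespace Pool.Agent.Helper67.Inj

universe u

variable {H : Type u} [NormedAddCommGroup H] [InnerProductSpace ℂ H] [CompleteSpace H]

private lemma SFex_star_mem (M : VonNeumannAlgebra H) {y : H →L[ℂ] H} (hy : y ∈ M) :
    star y ∈ M := by
  have h1 : y ∈ M.toStarSubalgebra := hy
  exact star_mem h1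

private lemma SFex_star_cmp (N : VonNeumannAlgebra H) (Ω : H) (y : H →L[ℂ] H) (hy : y ∈ N) :
    star (cmp (orb N Ω) y) = cmp (orb N Ω) (star y) := by
  rw [ContinuousLinearMap.star_eq_adjoint (cmp (orb N Ω) y), eq_comm,
    ContinuousLinearMap.eq_adjoint_iff]
  intro a b
  rw [Submodule.coe_inner, Submodule.coe_inner, coe_cmp_orb N Ω y hy,
    coe_cmp_orb N Ω (star y) (SFex_star_mem N hy), ContinuousLinearMap.star_eq_adjoint,
    ContinuousLinearMap.adjoint_inner_left]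

/-- SFEX -/
theorem exists_SF (N : VonNeumannAlgebra H) (Ω : H) (hΩ : ‖Ω‖ = 1)
    (sep : ∀ y ∈ N, y Ω = 0 → y = 0) : ∃ J : orb N Ω ≃ₗᵢ⋆[ℂ] orb N Ω, SF N Ω J := by
  obtain ⟨M, hM⟩ := exists_reduced N Ω sep
  have hvec : ∀ y ∈ N, cmp (orb N Ω) y (vec N Ω 1) = vec N Ω y := by
    intro y hy
    rw [cmp_vec N Ω y 1 hy (one_mem N), mul_one]
  have hΩ₀ : ‖vec N Ω 1‖ = 1 := by
    have h0 : ‖vec N Ω 1‖ = ‖((vec N Ω 1 : orb N Ω) : H)‖ := rfl
    rw [h0, coe_vec N Ω 1 (one_mem N), one_apply_eq_self, hΩ]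
  have cyc : ∀ η : orb N Ω, (∀ y ∈ M, ⟪y (vec N Ω 1), η⟫_ℂ = 0) → η = 0 := by
    intro η hη
    have h1 : ∀ ξ : orb N Ω, ⟪ξ, η⟫_ℂ = 0 := by
      intro ξ
      have h2 : IsClosed {ξ : orb N Ω | ⟪ξ, η⟫_ℂ = 0} :=
        isClosed_eq (continuous_id.inner continuous_const) continuous_const
      have h3 : ξ ∈ closure {ξ : orb N Ω | ∃ y ∈ N, vec N Ω y = ξ} := vec_dense N Ω ξ
      refine closure_minimal ?_ h2 h3
      rintro _ ⟨y, hy, rfl⟩
      have h4 := hη (cmp (orb N Ω) y) ((hM _).2 ⟨y, hy, rfl⟩)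
      rw [hvec y hy] at h4
      exact h4
    exact inner_self_eq_zero.1 (h1 η)
  have sep₀ : ∀ z ∈ M, z (vec N Ω 1) = 0 → z = 0 := by
    intro z hz hz0
    obtain ⟨y, hy, rfl⟩ := (hM z).1 hz
    rw [hvec y hy] at hz0
    have h1 : y Ω = 0 := by
      rw [← coe_vec N Ω y hy, hz0]
      rfl
    rw [sep y hy h1, map_zero]
  obtain ⟨J, hinv, hsymm, hfix, hback, hcomm, hpos⟩ := tomita M (vec N Ω 1) hΩ₀ cyc sep₀
  refine ⟨J,
    { norm := hΩ
      sep := sep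
      inv := hinv
      symm := hsymm
      fix := hfix
      comm := ?_
      pos := ?_
      back := ?_ }⟩
  · intro y hy z hz ξ
    obtain ⟨b, hb, hb'⟩ := hcomm (cmp (orb N Ω) y) ((hM _).2 ⟨y, hy, rfl⟩)
    rw [← hb', ← hb']
    rw [VonNeumannAlgebra.mem_commutant_iff] at hb
    have h1 := hb (cmp (orb N Ω) z) ((hM _).2 ⟨z, hz, rfl⟩)
    exact (congrArg (fun f : orb N Ω →L[ℂ] orb N Ω => f ξ) h1).symm
  · intro y hy
    have h1 := hpos (cmp (orb N Ω) y) ((hM _).2 ⟨y, hy, rfl⟩)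
    rw [SFex_star_cmp N Ω y hy, hvec y hy, hvec (star y) (SFex_star_mem N hy)] at h1
    exact h1
  · intro T hT
    have hTM : T ∈ M.commutant := by
      rw [VonNeumannAlgebra.mem_commutant_iff]
      intro g hg
      obtain ⟨z, hz, rfl⟩ := (hM g).1 hg
      ext1 ξ
      exact (hT z hz ξ).symm
    obtain ⟨y', hy', h2⟩ := hback T hTM
    obtain ⟨y, hy, rfl⟩ := (hM y').1 hy'
    exact ⟨y, hy, h2⟩

end Pool.Agent.Helper67.Inj
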