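import Pool.Agent.Helper67.Inj.Sakai

set_option autoImplicit false

open scoped InnerProductSpace ComplexOrder TensorProduct Topology

namespace Pool.Agent.Helper67.Inj

universe u

variable {K : Type u} [NormedAddCommGroup K] [InnerProductSpace ℂ K] [CompleteSpace K]

private theorem sakm_entry_apply {m : ℕ} (T : Pw K m →L[ℂ] Pw K m) (i j : Fin m) (x : K) :
    entry T i j x = (T (WithLp.toLp 2 (Pi.single j x))).ofLp i := rfl

private theorem sakm_apply {m : ℕ} (T : Pw K m →L[ℂ] Pw K m) (w : Pw K m) (i : Fin m) :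
    (T w).ofLp i = ∑ j, entry T i j (w.ofLp j) := by
  have h1 : w = ∑ j, (WithLp.toLp 2 (Pi.single j (w.ofLp j)) : Pw K m) := by
    ext k
    simp [Finset.sum_apply, Pi.single_apply]
  conv_lhs => rw [h1]
  rw [map_sum]
  simp [sakm_entry_apply]

private theorem sakm_inner {m : ℕ} (x : K) (i : Fin m) (w : Pw K m) :
    ⟪(WithLp.toLp 2 (Pi.single i x) : Pw K m), w⟫_ℂ = ⟪x, w.ofLp i⟫_ℂ := by
  rw [PiLp.inner_apply, Finset.sum_eq_single i]
  · simp
  · intro j _ hj
    simp [Pi.single_eq_of_ne hj]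
  · simp

/-- SAKM -/
theorem sakai_matrix (M : VonNeumannAlgebra K) (Ω : K) (m : ℕ) (d : Fin m → ℝ)
    (hd : ∀ i, 0 < d i) (v : Fin m → (K →L[ℂ] K)) (hv : ∀ i, v i ∈ M.commutant) :
    ∃ A : Fin m → Fin m → (K →L[ℂ] K), (∀ i j, A i j ∈ M) ∧
      (∀ ξ : Fin m → K, 0 ≤ ∑ i, ∑ j, ⟪ξ i, A i j (ξ j)⟫_ℂ) ∧
      ∀ y ∈ M, ∀ i j, 2 * ⟪v i Ω, y (v j Ω)⟫_ℂ =
        (d j : ℂ) * ⟪Ω, A j i (y Ω)⟫_ℂ + (d i : ℂ) * ⟪Ω, y (A j i Ω)⟫_ℂ := by
  obtain ⟨N, hN⟩ := exists_matAlg M m
  set ε : Fin m → Pw K m := fun i =>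
    WithLp.toLp 2 (Pi.single i (((Real.sqrt (d i) : ℝ) : ℂ) • Ω)) with hε
  set η : Pw K m := WithLp.toLp 2 (fun j => v j Ω) with hη
  have hεT : ∀ (T : Pw K m →L[ℂ] Pw K m) (j k : Fin m),
      (T (ε j)).ofLp k = ((Real.sqrt (d j) : ℝ) : ℂ) • entry T k j Ω := by
    intro T j k
    rw [hε, ← map_smul, sakm_entry_apply]
  have hηT : ∀ (T : Pw K m →L[ℂ] Pw K m), T ∈ N → ∀ i,
      (T η).ofLp i = ∑ j, v j (entry T i j Ω) := by
    intro T hT i
    rw [sakm_apply]
    refine Finset.sum_congr rfl fun j _ => ?_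
    have := VonNeumannAlgebra.mem_commutant_iff.mp (hv j) _ ((hN T).mp hT i j)
    exact congrArg (fun S : K →L[ℂ] K => S Ω) this
  have hdom : ∀ T ∈ N, ‖T η‖ ^ 2 ≤ (∑ k, m * ‖v k‖ ^ 2 / d k) * ∑ i, ‖T (ε i)‖ ^ 2 := by
    intro T hT
    have h1 : ‖T η‖ ^ 2 ≤ ∑ i, ∑ j, (m : ℝ) * (‖v j‖ ^ 2 * ‖entry T i j Ω‖ ^ 2) := by
      rw [PiLp.norm_sq_eq_of_L2]
      refine Finset.sum_le_sum fun i _ => ?_
      rw [hηT T hT i]
      have h2 : ‖∑ j, v j (entry T i j Ω)‖ ≤ ∑ j, ‖v j‖ * ‖entry T i j Ω‖ :=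
        (norm_sum_le _ _).trans (Finset.sum_le_sum fun j _ => (v j).le_opNorm _)
      have h3 : (∑ j, ‖v j‖ * ‖entry T i j Ω‖) ^ 2 ≤
          (m : ℝ) * ∑ j, (‖v j‖ * ‖entry T i j Ω‖) ^ 2 := by
        have := sq_sum_le_card_mul_sum_sq (s := (Finset.univ : Finset (Fin m)))
          (f := fun j => ‖v j‖ * ‖entry T i j Ω‖)
        simpa using this
      refine (pow_le_pow_left₀ (norm_nonneg _) h2 2).trans (h3.trans (le_of_eq ?_))
      rw [Finset.mul_sum]
      simp [mul_pow]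
    refine h1.trans ?_
    have h4 : ∀ j, ‖T (ε j)‖ ^ 2 = d j * ∑ i, ‖entry T i j Ω‖ ^ 2 := by
      intro j
      rw [PiLp.norm_sq_eq_of_L2, Finset.mul_sum]
      refine Finset.sum_congr rfl fun i _ => ?_
      rw [hεT, norm_smul, mul_pow, Complex.norm_real, Real.norm_eq_abs, sq_abs,
        Real.sq_sqrt (hd j).le]
    rw [Finset.sum_comm, Finset.mul_sum]
    refine Finset.sum_le_sum fun j _ => ?_
    rw [h4 j, ← Finset.mul_sum, ← Finset.mul_sum]
    have h5 : (m : ℝ) * ‖v j‖ ^ 2 / d j ≤ ∑ k, (m : ℝ) * ‖v k‖ ^ 2 / d k :=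
      Finset.single_le_sum (f := fun k => (m : ℝ) * ‖v k‖ ^ 2 / d k)
        (fun k _ => div_nonneg (by positivity) (hd k).le) (Finset.mem_univ j)
    have h6 : 0 ≤ d j * ∑ i, ‖entry T i j Ω‖ ^ 2 :=
      mul_nonneg (hd j).le (Finset.sum_nonneg fun _ _ => by positivity)
    refine le_trans (le_of_eq ?_) (mul_le_mul_of_nonneg_right h5 h6)
    have := (hd j).ne'
    field_simp
  obtain ⟨a, haN, ha0, hrel⟩ := sakai N m ε η (∑ k, m * ‖v k‖ ^ 2 / d k)
    (Finset.sum_nonneg fun k _ => div_nonneg (by positivity) (hd k).le) hdom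
  refine ⟨fun i j => entry a i j, (hN a).mp haN, ?_, ?_⟩
  · have h1 : PosMat (fun i j => entry a i j) := by
      rw [posMat_iff, ofEntries_entry]; exact ha0
    exact h1
  · intro y hy i j
    set T : Pw K m →L[ℂ] Pw K m :=
      ofEntries (fun k l => if k = i ∧ l = j then y else 0) with hT
    have hTe : ∀ k l, entry T k l = if k = i ∧ l = j then y else 0 := by
      intro k l
      rw [hT, entry_ofEntries]
    have hTN : T ∈ N := by
      rw [hN]
      intro k l
      rw [hTe]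
      split_ifs
      · exact hy
      · exact zero_mem _
    have h1 := hrel T hTN
    have h2 : ⟪η, T η⟫_ℂ = ⟪v i Ω, y (v j Ω)⟫_ℂ := by
      rw [PiLp.inner_apply, Finset.sum_eq_single i]
      · rw [sakm_apply, Finset.sum_eq_single j]
        · rw [hTe]; simp [hη]
        · intro l _ hl
          rw [hTe]; simp [hl]
        · simp
      · intro k _ hk
        rw [sakm_apply, Finset.sum_eq_zero, inner_zero_right]
        intro l _
        rw [hTe]; simp [hk]
      · simp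
    have h3 : ∀ (S : Pw K m →L[ℂ] Pw K m) (k : Fin m),
        ⟪ε k, S (ε k)⟫_ℂ = (d k : ℂ) * ⟪Ω, entry S k k Ω⟫_ℂ := by
      intro S k
      have h4 : (S (ε k)).ofLp k = ((Real.sqrt (d k) : ℝ) : ℂ) • entry S k k Ω := hεT S k k
      conv_lhs => rw [hε]
      rw [sakm_inner]
      rw [hε] at h4
      rw [h4, inner_smul_left, inner_smul_right, Complex.conj_ofReal, ← mul_assoc,
        ← Complex.ofReal_mul, Real.mul_self_sqrt (hd k).le]
    have h5 : ∑ k, ⟪ε k, a (T (ε k))⟫_ℂ = (d j : ℂ) * ⟪Ω, entry a j i (y Ω)⟫_ℂ := by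
      rw [Finset.sum_eq_single j]
      · have := h3 (a * T) j
        rw [entry_mul, Finset.sum_eq_single i, hTe] at this
        · simpa using this
        · intro l _ hl
          rw [hTe]; simp [hl]
        · simp
      · intro k _ hk
        have := h3 (a * T) k
        rw [entry_mul, Finset.sum_eq_zero] at this
        · simpa using this
        · intro l _
          rw [hTe]; simp [hk]
      · simp
    have h6 : ∑ k, ⟪ε k, T (a (ε k))⟫_ℂ = (d i : ℂ) * ⟪Ω, y (entry a j i Ω)⟫_ℂ := by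
      rw [Finset.sum_eq_single i]
      · have := h3 (T * a) i
        rw [entry_mul, Finset.sum_eq_single j, hTe] at this
        · simpa using this
        · intro l _ hl
          rw [hTe]; simp [hl]
        · simp
      · intro k _ hk
        have := h3 (T * a) k
        rw [entry_mul, Finset.sum_eq_zero] at this
        · simpa using this
        · intro l _
          rw [hTe]; simp [hk]
      · simp
    rw [h2, Finset.sum_add_distrib, h5, h6] at h1
    exact h1

end Pool.Agent.Helper67.Inj
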