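import Pool.Agent.Helper67.Inj.Lim
import Pool.Agent.Helper67.Inj.Mat

set_option autoImplicit false

open scoped InnerProductSpace ComplexOrder TensorProduct Topology

namespace Pool.Agent.Helper67.Inj

universe u

variable {K : Type u} [NormedAddCommGroup K] [InnerProductSpace ℂ K] [CompleteSpace K]

/-- real form on operators -/
private noncomputable def bf {m : ℕ} (ε : Fin m → K) (x y : K →L[ℂ] K) : ℝ :=
  ∑ i, (⟪x (ε i), y (ε i)⟫_ℂ).re

private noncomputable def ff (η : K) (y : K →L[ℂ] K) : ℝ := (⟪η, y η⟫_ℂ).re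

private lemma bf_symm {m : ℕ} (ε : Fin m → K) (x y : K →L[ℂ] K) : bf ε x y = bf ε y x := by
  unfold bf
  refine Finset.sum_congr rfl fun i _ => ?_
  exact inner_re_symm (𝕜 := ℂ) _ _

private lemma bf_add_right {m : ℕ} (ε : Fin m → K) (x y z : K →L[ℂ] K) :
    bf ε x (y + z) = bf ε x y + bf ε x z := by
  unfold bf
  rw [← Finset.sum_add_distrib]
  refine Finset.sum_congr rfl fun i _ => ?_
  simp [inner_add_right]

private lemma bf_sub_right {m : ℕ} (ε : Fin m → K) (x y z : K →L[ℂ] K) :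
    bf ε x (y - z) = bf ε x y - bf ε x z := by
  unfold bf
  rw [← Finset.sum_sub_distrib]
  refine Finset.sum_congr rfl fun i _ => ?_
  simp [inner_sub_right]

private lemma bf_smul_right {m : ℕ} (ε : Fin m → K) (x y : K →L[ℂ] K) (t : ℝ) :
    bf ε x ((t : ℂ) • y) = t * bf ε x y := by
  unfold bf
  rw [Finset.mul_sum]
  refine Finset.sum_congr rfl fun i _ => ?_
  simp [inner_smul_right]

private lemma bf_self {m : ℕ} (ε : Fin m → K) (x : K →L[ℂ] K) :
    bf ε x x = ∑ i, ‖x (ε i)‖ ^ 2 := by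
  unfold bf
  refine Finset.sum_congr rfl fun i _ => ?_
  rw [inner_self_eq_norm_sq_to_K]
  norm_cast

private lemma bf_self_nonneg {m : ℕ} (ε : Fin m → K) (x : K →L[ℂ] K) : 0 ≤ bf ε x x := by
  rw [bf_self]; positivity

private lemma bf_add_smul {m : ℕ} (ε : Fin m → K) (x y : K →L[ℂ] K) (t : ℝ) :
    bf ε (x + (t : ℂ) • y) (x + (t : ℂ) • y) =
      bf ε x x + 2 * t * bf ε x y + t ^ 2 * bf ε y y := by
  rw [bf_add_right, bf_smul_right, bf_symm ε _ x, bf_symm ε _ y, bf_add_right, bf_add_right,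
    bf_smul_right, bf_smul_right, bf_symm ε y x]
  ring

/-- Cauchy-Schwarz -/
private lemma bf_cs {m : ℕ} (ε : Fin m → K) (x y : K →L[ℂ] K) :
    |bf ε x y| ≤ Real.sqrt (bf ε x x) * Real.sqrt (bf ε y y) := by
  rw [← Real.sqrt_mul (bf_self_nonneg ε x)]
  apply Real.abs_le_sqrt
  have h : ∀ t : ℝ, 0 ≤ bf ε y y * (t * t) + (2 * bf ε x y) * t + bf ε x x := by
    intro t
    have := bf_self_nonneg ε (x + (t : ℂ) • y)
    rw [bf_add_smul] at this
    linarith
  have := discrim_le_zero h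
  unfold discrim at this
  nlinarith

private lemma ff_add (η : K) (x y : K →L[ℂ] K) : ff η (x + y) = ff η x + ff η y := by
  unfold ff; simp [inner_add_right]

private lemma ff_sub (η : K) (x y : K →L[ℂ] K) : ff η (x - y) = ff η x - ff η y := by
  unfold ff; simp [inner_sub_right]

private lemma ff_smul (η : K) (x : K →L[ℂ] K) (t : ℝ) : ff η ((t : ℂ) • x) = t * ff η x := by
  unfold ff; simp [inner_smul_right]

private lemma ff_nonneg (η : K) (x : K →L[ℂ] K) (hx : 0 ≤ x) : 0 ≤ ff η x := by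
  rw [ContinuousLinearMap.nonneg_iff_isPositive] at hx
  exact hx.re_inner_nonneg_right η

private lemma ff_mono (η : K) {x y : K →L[ℂ] K} (hx : x ≤ y) : ff η x ≤ ff η y := by
  have := ff_nonneg η (y - x) (sub_nonneg.2 hx)
  rw [ff_sub] at this
  linarith

/-- `⟪b ε, y ε⟫ = ⟪ε, (b y) ε⟫` for self-adjoint `b` -/
private lemma bf_eq {m : ℕ} (ε : Fin m → K) (b y : K →L[ℂ] K) (hb : IsSelfAdjoint b) :
    bf ε b y = ∑ i, ff (ε i) (b * y) := by
  unfold bf ff
  refine Finset.sum_congr rfl fun i _ => ?_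
  congr 1
  have h1 : star b = b := hb
  rw [ContinuousLinearMap.star_eq_adjoint] at h1
  conv_lhs => rw [← h1]
  rw [ContinuousLinearMap.adjoint_inner_left]
  rfl

private lemma nonneg_of_inner (T : K →L[ℂ] K) (h : ∀ ζ, 0 ≤ ⟪ζ, T ζ⟫_ℂ) : 0 ≤ T := by
  rw [ContinuousLinearMap.nonneg_iff_isPositive, ContinuousLinearMap.isPositive_iff_complex]
  intro ζ
  have h1 := h ζ
  have h2 : ⟪T ζ, ζ⟫_ℂ = (starRingEnd ℂ) ⟪ζ, T ζ⟫_ℂ := (inner_conj_symm _ _).symm
  rw [Complex.le_def] at h1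
  have him : (⟪ζ, T ζ⟫_ℂ).im = 0 := by simpa using h1.2.symm
  have hre : 0 ≤ (⟪ζ, T ζ⟫_ℂ).re := by simpa using h1.1
  have h3 : (⟪T ζ, ζ⟫_ℂ).im = 0 := by
    rw [h2, Complex.conj_im, him, neg_zero]
  have h4 : 0 ≤ (⟪T ζ, ζ⟫_ℂ).re := by
    rw [h2, Complex.conj_re]; exact hre
  constructor
  · apply Complex.ext
    · simp
    · simp [h3]
  · simpa using h4

section approx

variable (M : VonNeumannAlgebra K) (m : ℕ) (ε : Fin m → K) (η : K) (c : ℝ)

/-- minimiser -/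
private lemma exists_min (hc : 0 ≤ c) :
    ∃ a ∈ M, 0 ≤ a ∧ a ≤ (c : ℂ) • (1 : K →L[ℂ] K) ∧ ∀ b ∈ M, 0 ≤ b → b ≤ (c : ℂ) • (1 : K →L[ℂ] K) →
      bf ε a a - 2 * ff η a ≤ bf ε b b - 2 * ff η b := by
  classical
  set S : Set ℝ := {r | ∃ b ∈ M, 0 ≤ b ∧ b ≤ (c : ℂ) • (1 : K →L[ℂ] K) ∧
    r = bf ε b b - 2 * ff η b} with hS
  have hne : S.Nonempty := by
    refine ⟨_, 0, zero_mem _, le_rfl, ?_, rfl⟩
    rw [ContinuousLinearMap.nonneg_iff_isPositive]
    exact ContinuousLinearMap.isPositive_one.smul_of_nonneg (by exact_mod_cast hc)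
  have hbdd : BddBelow S := by
    refine ⟨-(2 * (c * ff η 1)), ?_⟩
    rintro r ⟨b, -, -, hb, rfl⟩
    have h1 := ff_mono η hb
    rw [ff_smul] at h1
    have h2 := bf_self_nonneg ε b
    linarith
  set I := sInf S with hI
  have hex : ∀ n : ℕ, ∃ b : K →L[ℂ] K, b ∈ M ∧ 0 ≤ b ∧ b ≤ (c : ℂ) • (1 : K →L[ℂ] K) ∧
      bf ε b b - 2 * ff η b < I + 1 / ((n : ℝ) + 1) := by
    intro n
    obtain ⟨r, ⟨b, h1, h2, h3, rfl⟩, h4⟩ := exists_lt_of_csInf_lt hne
      (show sInf S < I + 1 / ((n : ℝ) + 1) by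
        have : (0 : ℝ) < 1 / ((n : ℝ) + 1) := by positivity
        linarith)
    exact ⟨b, h1, h2, h3, h4⟩
  choose x hxM hx0 hxc hxlt using hex
  have hnorm : ∀ n, ‖x n‖ ≤ c := by
    intro n
    have h1 : ‖x n‖ ≤ ‖(c : ℂ) • (1 : K →L[ℂ] K)‖ :=
      CStarAlgebra.norm_le_norm_of_nonneg_of_le (hx0 n) (hxc n)
    refine h1.trans ?_
    rw [norm_smul]
    have h2 : ‖(1 : K →L[ℂ] K)‖ ≤ 1 := ContinuousLinearMap.norm_id_le
    have h3 : ‖(c : ℂ)‖ = c := by simp [abs_of_nonneg hc]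
    rw [h3]
    nlinarith
  set U : Ultrafilter ℕ := Filter.hyperfilter ℕ with hU
  obtain ⟨a, -, ha⟩ := exists_wot_limit U x c hnorm
  have haM : a ∈ M := mem_of_wot_limit U M x a hxM ha
  have hff : ∀ ζ : K, Filter.Tendsto (fun n => ff ζ (x n)) U (𝓝 (ff ζ a)) := by
    intro ζ
    exact (Complex.continuous_re.tendsto _).comp (ha ζ ζ)
  have hbf : Filter.Tendsto (fun n => bf ε a (x n)) U (𝓝 (bf ε a a)) := by
    unfold bf
    refine tendsto_finsetSum _ fun i _ => ?_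
    exact (Complex.continuous_re.tendsto _).comp (ha (a (ε i)) (ε i))
  have ha0 : 0 ≤ a := by
    refine nonneg_of_inner a fun ζ => ge_of_tendsto' (ha ζ ζ) fun n => ?_
    have := hx0 n
    rw [ContinuousLinearMap.nonneg_iff_isPositive] at this
    exact this.inner_nonneg_right ζ
  have hac : a ≤ (c : ℂ) • (1 : K →L[ℂ] K) := by
    rw [← sub_nonneg]
    refine nonneg_of_inner _ fun ζ => ?_
    have hz : ∀ n, 0 ≤ ⟪ζ, ((c : ℂ) • (1 : K →L[ℂ] K) - x n) ζ⟫_ℂ := by
      intro n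
      have := hxc n
      rw [ContinuousLinearMap.le_def] at this
      exact this.inner_nonneg_right ζ
    have ht : Filter.Tendsto (fun n => ⟪ζ, ((c : ℂ) • (1 : K →L[ℂ] K) - x n) ζ⟫_ℂ) U
        (𝓝 ⟪ζ, ((c : ℂ) • (1 : K →L[ℂ] K) - a) ζ⟫_ℂ) := by
      simp only [sub_apply, inner_sub_right]
      exact tendsto_const_nhds.sub (ha ζ ζ)
    exact ge_of_tendsto' ht hz
  refine ⟨a, haM, ha0, hac, fun b hbM hb0 hbc => ?_⟩
  have hIb : I ≤ bf ε b b - 2 * ff η b := csInf_le hbdd ⟨b, hbM, hb0, hbc, rfl⟩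
  have hle : ∀ n, 2 * bf ε a (x n) - bf ε a a - 2 * ff η (x n) ≤ I + 1 / ((n : ℝ) + 1) := by
    intro n
    have h1 := bf_self_nonneg ε (x n - a)
    rw [bf_sub_right, bf_symm ε _ (x n), bf_symm ε _ a, bf_sub_right, bf_sub_right,
      bf_symm ε (x n) a] at h1
    have h2 := (hxlt n).le
    linarith
  have hlim1 : Filter.Tendsto (fun n => 2 * bf ε a (x n) - bf ε a a - 2 * ff η (x n)) U
      (𝓝 (2 * bf ε a a - bf ε a a - 2 * ff η a)) :=
    ((hbf.const_mul 2).sub tendsto_const_nhds).sub ((hff η).const_mul 2)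
  have hlim2 : Filter.Tendsto (fun n : ℕ => I + 1 / ((n : ℝ) + 1)) U (𝓝 (I + 0)) := by
    refine tendsto_const_nhds.add ?_
    exact tendsto_one_div_add_atTop_nhds_zero_nat.mono_left (by
      rw [hU]
      exact Nat.hyperfilter_le_atTop)
  have := le_of_tendsto_of_tendsto' hlim1 hlim2 hle
  linarith

/-- variational inequality -/
private lemma exists_var (hc : 0 ≤ c) :
    ∃ a ∈ M, 0 ≤ a ∧ ∀ b ∈ M, 0 ≤ b → b ≤ (c : ℂ) • (1 : K →L[ℂ] K) →
      ff η b - bf ε a b ≤ ff η a - bf ε a a := by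
  obtain ⟨a, haM, ha0, hac, hmin⟩ := exists_min M m ε η c hc
  refine ⟨a, haM, ha0, fun b hbM hb0 hbc => ?_⟩
  have key : ∀ t : ℝ, 0 < t → t ≤ 1 →
      0 ≤ 2 * (bf ε a (b - a) - ff η (b - a)) + t * bf ε (b - a) (b - a) := by
    intro t ht0 ht1
    have hmem : a + (t : ℂ) • (b - a) ∈ M := by
      have h1 : (t : ℂ) • (b - a) ∈ M.toStarSubalgebra :=
        SMulMemClass.smul_mem (t : ℂ) (sub_mem (S := VonNeumannAlgebra K) hbM haM : b - a ∈ M)
      exact add_mem (S := VonNeumannAlgebra K) haM h1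
    have hconv : a + (t : ℂ) • (b - a) = ((1 - t : ℝ) : ℂ) • a + (t : ℂ) • b := by
      rw [smul_sub]; push_cast; module
    have h0 : 0 ≤ a + (t : ℂ) • (b - a) := by
      rw [hconv]
      have h1 : (0 : ℂ) ≤ ((1 - t : ℝ) : ℂ) := by exact_mod_cast sub_nonneg.2 ht1
      have h2 : (0 : ℂ) ≤ (t : ℂ) := by exact_mod_cast ht0.le
      rw [ContinuousLinearMap.nonneg_iff_isPositive] at *
      exact (ha0.smul_of_nonneg h1).add (hb0.smul_of_nonneg h2)
    have h1' : a + (t : ℂ) • (b - a) ≤ (c : ℂ) • (1 : K →L[ℂ] K) := by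
      rw [hconv]
      have h1 : (0 : ℂ) ≤ ((1 - t : ℝ) : ℂ) := by exact_mod_cast sub_nonneg.2 ht1
      have h2 : (0 : ℂ) ≤ (t : ℂ) := by exact_mod_cast ht0.le
      rw [ContinuousLinearMap.le_def] at *
      have := (hac.smul_of_nonneg h1).add (hbc.smul_of_nonneg h2)
      convert this using 1
      push_cast
      module
    have := hmin _ hmem h0 h1'
    rw [bf_add_smul, ff_add, ff_smul] at this
    have h3 : 0 ≤ t * (2 * (bf ε a (b - a) - ff η (b - a)) + t * bf ε (b - a) (b - a)) := by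
      nlinarith
    exact nonneg_of_mul_nonneg_right h3 ht0
  have hlim : 0 ≤ 2 * (bf ε a (b - a) - ff η (b - a)) := by
    by_contra hneg
    push Not at hneg
    set A := 2 * (bf ε a (b - a) - ff η (b - a)) with hA
    set B := bf ε (b - a) (b - a) with hB
    have hB0 : 0 ≤ B := bf_self_nonneg ε _
    have ht : 0 < min 1 (-A / (2 * (B + 1))) := by
      apply lt_min one_pos
      apply div_pos (by linarith) (by positivity)
    have h1 := key _ ht (min_le_left _ _)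
    have h2 : min 1 (-A / (2 * (B + 1))) * B ≤ (-A / (2 * (B + 1))) * B :=
      mul_le_mul_of_nonneg_right (min_le_right _ _) hB0
    have h3 : (-A / (2 * (B + 1))) * B ≤ -A / 2 := by
      rw [div_mul_eq_mul_div, div_le_div_iff₀ (by positivity) (by norm_num)]
      nlinarith
    linarith
  rw [bf_sub_right, ff_sub] at hlim
  linarith

/-- approximate representing elements -/
private lemma exists_approx (hc : 0 ≤ c)
    (hdom : ∀ y ∈ M, ‖y η‖ ^ 2 ≤ c * ∑ i, ‖y (ε i)‖ ^ 2) (a : K →L[ℂ] K) (δ : ℝ) (hδ : 0 < δ) :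
    ∃ y ∈ M, IsSelfAdjoint y ∧ ∀ z ∈ M, IsSelfAdjoint z →
      |bf ε z y - (ff η z - bf ε a z)| ≤ δ * Real.sqrt (bf ε z z) := by
  classical
  have hf : ∀ y ∈ M, |ff η y| ≤ Real.sqrt c * ‖η‖ * Real.sqrt (bf ε y y) := by
    intro y hy
    have h1 : |ff η y| ≤ ‖η‖ * ‖y η‖ := by
      unfold ff
      exact (Complex.abs_re_le_norm _).trans (norm_inner_le_norm _ _)
    have h2 : ‖y η‖ ≤ Real.sqrt c * Real.sqrt (bf ε y y) := by
      rw [← Real.sqrt_mul hc]
      apply Real.le_sqrt_of_sq_le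
      rw [bf_self]
      exact hdom y hy
    calc |ff η y| ≤ ‖η‖ * ‖y η‖ := h1
      _ ≤ ‖η‖ * (Real.sqrt c * Real.sqrt (bf ε y y)) :=
          mul_le_mul_of_nonneg_left h2 (norm_nonneg _)
      _ = _ := by ring
  set C := Real.sqrt c * ‖η‖ + Real.sqrt (bf ε a a) with hC
  have hC0 : 0 ≤ C := by positivity
  have hL : ∀ y ∈ M, |ff η y - bf ε a y| ≤ C * Real.sqrt (bf ε y y) := by
    intro y hy
    calc |ff η y - bf ε a y| ≤ |ff η y| + |bf ε a y| := abs_sub _ _
      _ ≤ Real.sqrt c * ‖η‖ * Real.sqrt (bf ε y y) +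
          Real.sqrt (bf ε a a) * Real.sqrt (bf ε y y) := add_le_add (hf y hy) (bf_cs ε a y)
      _ = _ := by rw [hC]; ring
  set S : Set ℝ := {r | ∃ y ∈ M, IsSelfAdjoint y ∧
    r = bf ε y y / 2 - (ff η y - bf ε a y)} with hS
  have hne : S.Nonempty := ⟨_, 0, zero_mem _, IsSelfAdjoint.zero _, rfl⟩
  have hbdd : BddBelow S := by
    refine ⟨-(C ^ 2 / 2), ?_⟩
    rintro r ⟨y, hy, -, rfl⟩
    have h1 := (abs_le.1 (hL y hy)).2
    have h2 : Real.sqrt (bf ε y y) ^ 2 = bf ε y y := Real.sq_sqrt (bf_self_nonneg ε y)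
    nlinarith [sq_nonneg (Real.sqrt (bf ε y y) - C)]
  obtain ⟨r, ⟨y, hyM, hysa, rfl⟩, hlt⟩ := exists_lt_of_csInf_lt hne
    (show sInf S < sInf S + δ ^ 2 / 2 by
      have : 0 < δ ^ 2 / 2 := by positivity
      linarith)
  refine ⟨y, hyM, hysa, fun z hzM hzsa => ?_⟩
  have hq : ∀ t : ℝ, 0 ≤ (bf ε z z / 2) * (t * t) +
      (bf ε z y - (ff η z - bf ε a z)) * t + δ ^ 2 / 2 := by
    intro t
    have hmem : y + (t : ℂ) • z ∈ M := by
      have h1 : (t : ℂ) • z ∈ M.toStarSubalgebra := SMulMemClass.smul_mem (t : ℂ) hzM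
      exact add_mem (S := VonNeumannAlgebra K) hyM h1
    have hsa : IsSelfAdjoint (y + (t : ℂ) • z) := by
      refine hysa.add (IsSelfAdjoint.smul ?_ hzsa)
      simp [isSelfAdjoint_iff]
    have h1 : sInf S ≤ bf ε (y + (t : ℂ) • z) (y + (t : ℂ) • z) / 2 -
        (ff η (y + (t : ℂ) • z) - bf ε a (y + (t : ℂ) • z)) :=
      csInf_le hbdd ⟨_, hmem, hsa, rfl⟩
    rw [bf_add_smul, ff_add, ff_smul, bf_add_right, bf_smul_right, bf_symm ε y z] at h1
    linarith
  have h3 := discrim_le_zero hq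
  unfold discrim at h3
  rw [show δ * Real.sqrt (bf ε z z) = Real.sqrt (δ ^ 2 * bf ε z z) by
    rw [Real.sqrt_mul (sq_nonneg δ), Real.sqrt_sq hδ.le]]
  apply Real.abs_le_sqrt
  linarith

private lemma ff_pos_le (hdom : ∀ y ∈ M, ‖y η‖ ^ 2 ≤ c * ∑ i, ‖y (ε i)‖ ^ 2)
    (p : K →L[ℂ] K) (hpM : p ∈ M) (hp : 0 ≤ p) :
    ff η p ≤ c * ∑ i, ff (ε i) p := by
  have hs : CFC.sqrt p * CFC.sqrt p = p := CFC.sqrt_mul_sqrt_self p hp
  have hsa : star (CFC.sqrt p) = CFC.sqrt p :=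
    IsSelfAdjoint.of_nonneg (CFC.sqrt_nonneg p)
  have key : ∀ ζ : K, ff ζ p = ‖CFC.sqrt p ζ‖ ^ 2 := by
    intro ζ
    have h1 : ff ζ p = (⟪CFC.sqrt p ζ, CFC.sqrt p ζ⟫_ℂ).re := by
      unfold ff
      conv_lhs => rw [← hs]
      rw [ContinuousLinearMap.star_eq_adjoint] at hsa
      have : ⟪CFC.sqrt p ζ, CFC.sqrt p ζ⟫_ℂ = ⟪ζ, CFC.sqrt p (CFC.sqrt p ζ)⟫_ℂ := by
        conv_lhs => rw [← hsa]
        rw [ContinuousLinearMap.adjoint_inner_left, hsa]
      rw [this]
      rfl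
    rw [h1, inner_self_eq_norm_sq_to_K]
    norm_cast
  simp only [key]
  exact hdom _ (sqrt_mem M p hpM)

/-- `L y ≤ small` -/
private lemma approx_le (hc : 0 ≤ c) (hdom : ∀ y ∈ M, ‖y η‖ ^ 2 ≤ c * ∑ i, ‖y (ε i)‖ ^ 2)
    (a : K →L[ℂ] K) (haM : a ∈ M) (ha0 : 0 ≤ a)
    (hvar : ∀ b ∈ M, 0 ≤ b → b ≤ (c : ℂ) • (1 : K →L[ℂ] K) →
      ff η b - bf ε a b ≤ ff η a - bf ε a a)
    (δ : ℝ) (hδ : 0 < δ) (y : K →L[ℂ] K) (hyM : y ∈ M) (hysa : IsSelfAdjoint y)
    (hy : ∀ z ∈ M, IsSelfAdjoint z →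
      |bf ε z y - (ff η z - bf ε a z)| ≤ δ * Real.sqrt (bf ε z z)) :
    ff η y - bf ε a y ≤ δ * (c * Real.sqrt (∑ i, ‖ε i‖ ^ 2) + Real.sqrt (bf ε a a)) := by
  set φ : (K →L[ℂ] K) → ℝ := fun z => ∑ i, ff (ε i) z with hφ
  have hφmono : ∀ z w : K →L[ℂ] K, z ≤ w → φ z ≤ φ w := fun z w h =>
    Finset.sum_le_sum fun i _ => ff_mono _ h
  have hφsub : ∀ z w : K →L[ℂ] K, φ (z - w) = φ z - φ w := fun z w => by
    simp only [hφ, ff_sub, Finset.sum_sub_distrib]
  have hφsmul : ∀ (t : ℝ) (z : K →L[ℂ] K), φ ((t : ℂ) • z) = t * φ z := fun t z => by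
    simp only [hφ, ff_smul, Finset.mul_sum]
  have hφ1 : 0 ≤ φ 1 := Finset.sum_nonneg fun i _ => ff_nonneg _ _ (by
    rw [ContinuousLinearMap.nonneg_iff_isPositive]
    exact ContinuousLinearMap.isPositive_one)
  have key : ∀ κ : ℝ, 0 < κ → ff η y - bf ε a y ≤
      δ * (c * Real.sqrt (∑ i, ‖ε i‖ ^ 2) + Real.sqrt (bf ε a a)) + κ * (c * φ 1) := by
    intro κ hκ
    have hden : ∀ t : ℝ, max t 0 + κ ≠ 0 := fun t => by
      have := le_max_right t 0
      positivity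
    set g : ℝ → ℝ := fun t => c * (max t 0 / (max t 0 + κ)) with hg
    have hgc : Continuous g := by
      refine continuous_const.mul ?_
      exact (continuous_id.max continuous_const).div
        ((continuous_id.max continuous_const).add continuous_const) hden
    set b := cfc g y with hb
    have hbM : b ∈ M := cfc_mem M g y hyM
    have hg0 : ∀ t, 0 ≤ g t := fun t => by
      have := le_max_right t 0
      positivity
    have hg1 : ∀ t, g t ≤ c := fun t => by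
      have h0 := le_max_right t 0
      have : max t 0 / (max t 0 + κ) ≤ 1 := by
        rw [div_le_one (by positivity)]
        linarith
      calc g t ≤ c * 1 := mul_le_mul_of_nonneg_left this hc
        _ = c := mul_one c
    have hb0 : 0 ≤ b := cfc_nonneg (fun t _ => hg0 t)
    have hbc : b ≤ (c : ℂ) • (1 : K →L[ℂ] K) := by
      have h1 : cfc (fun _ : ℝ => c) y = (c : ℂ) • (1 : K →L[ℂ] K) := by
        rw [cfc_const c y hysa, Algebra.algebraMap_eq_smul_one]
        rfl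
      rw [← h1]
      exact cfc_mono (fun t _ => hg1 t) (hgc.continuousOn) (continuous_const.continuousOn)
    have hbsa : IsSelfAdjoint b := IsSelfAdjoint.of_nonneg hb0
    set p := cfc (fun t : ℝ => max t 0) y with hp
    have hpM : p ∈ M := cfc_mem M _ y hyM
    have hp0 : 0 ≤ p := cfc_nonneg (fun t _ => le_max_right _ _)
    have hpy : y ≤ p := by
      conv_lhs => rw [← cfc_id ℝ y hysa]
      exact cfc_mono (fun t _ => le_max_left _ _) continuous_id.continuousOn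
        (continuous_id.max continuous_const).continuousOn
    have hby : b * y = cfc (fun t => g t * t) y := by
      rw [cfc_mul g (fun t => t) y hgc.continuousOn continuous_id.continuousOn, cfc_id' ℝ y hysa]
    have hpc : Continuous (fun t : ℝ => max t 0) := continuous_id.max continuous_const
    have hcp : cfc (fun t : ℝ => c * max t 0 - c * κ) y =
        (c : ℂ) • p - ((c * κ : ℝ) : ℂ) • (1 : K →L[ℂ] K) := by
      rw [cfc_sub (fun t : ℝ => c * max t 0) (fun _ => c * κ) y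
        (continuous_const.mul hpc).continuousOn continuous_const.continuousOn,
        cfc_const_mul c (fun t : ℝ => max t 0) y hpc.continuousOn, cfc_const (c * κ) y hysa,
        Algebra.algebraMap_eq_smul_one]
      rfl
    have hle : (c : ℂ) • p - ((c * κ : ℝ) : ℂ) • (1 : K →L[ℂ] K) ≤ b * y := by
      rw [← hcp, hby]
      refine cfc_mono (fun t _ => ?_) ((continuous_const.mul hpc).sub continuous_const).continuousOn
        (hgc.mul continuous_id).continuousOn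
      change c * max t 0 - c * κ ≤ c * (max t 0 / (max t 0 + κ)) * t
      rcases le_total t 0 with ht | ht
      · rw [max_eq_right ht]
        simp only [mul_zero, zero_div, zero_mul]
        nlinarith [mul_nonneg hc hκ.le]
      · rw [max_eq_left ht, mul_assoc, ← mul_sub]
        refine mul_le_mul_of_nonneg_left ?_ hc
        rw [div_mul_eq_mul_div, le_div_iff₀ (by positivity)]
        nlinarith
    have h1 : bf ε b y = φ (b * y) := bf_eq ε b y hbsa
    have h2 : c * φ p - c * κ * φ 1 ≤ φ (b * y) := by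
      have := hφmono _ _ hle
      rw [hφsub, hφsmul, hφsmul] at this
      exact this
    have h3 : ff η p ≤ c * φ p := ff_pos_le M m ε η c hdom p hpM hp0
    have h4 : ff η y ≤ ff η p := ff_mono η hpy
    have h5 := (abs_le.1 (hy b hbM hbsa)).2
    have h6 := hvar b hbM hb0 hbc
    have hasa : IsSelfAdjoint a := IsSelfAdjoint.of_nonneg ha0
    have h7 := (abs_le.1 (hy a haM hasa)).1
    have hbn : ‖b‖ ≤ c := by
      have h1 : ‖b‖ ≤ ‖(c : ℂ) • (1 : K →L[ℂ] K)‖ :=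
        CStarAlgebra.norm_le_norm_of_nonneg_of_le hb0 hbc
      refine h1.trans ?_
      rw [norm_smul]
      have h2 : ‖(1 : K →L[ℂ] K)‖ ≤ 1 := ContinuousLinearMap.norm_id_le
      have h3 : ‖(c : ℂ)‖ = c := by simp [abs_of_nonneg hc]
      rw [h3]
      nlinarith
    have h8 : Real.sqrt (bf ε b b) ≤ c * Real.sqrt (∑ i, ‖ε i‖ ^ 2) := by
      rw [show c * Real.sqrt (∑ i, ‖ε i‖ ^ 2) = Real.sqrt (c ^ 2 * ∑ i, ‖ε i‖ ^ 2) by
        rw [Real.sqrt_mul (sq_nonneg c), Real.sqrt_sq hc]]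
      apply Real.sqrt_le_sqrt
      rw [bf_self, Finset.mul_sum]
      refine Finset.sum_le_sum fun i _ => ?_
      rw [← mul_pow]
      refine pow_le_pow_left₀ (norm_nonneg _) ?_ 2
      exact (b.le_opNorm _).trans (mul_le_mul_of_nonneg_right hbn (norm_nonneg _))
    have h9 : δ * Real.sqrt (bf ε b b) ≤ δ * (c * Real.sqrt (∑ i, ‖ε i‖ ^ 2)) :=
      mul_le_mul_of_nonneg_left h8 hδ.le
    rw [bf_symm ε a a] at *
    nlinarith
  refine le_of_forall_pos_le_add fun κ' hκ' => ?_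
  have h := key (κ' / (c * φ 1 + 1)) (by positivity)
  refine h.trans (add_le_add_right ?_ _)
  rw [div_mul_eq_mul_div, div_le_iff₀ (by positivity)]
  nlinarith [mul_nonneg hc hφ1]

end approx

theorem sakai (M : VonNeumannAlgebra K) (m : ℕ) (ε : Fin m → K) (η : K) (c : ℝ) (hc : 0 ≤ c)
    (hdom : ∀ y ∈ M, ‖y η‖ ^ 2 ≤ c * ∑ i, ‖y (ε i)‖ ^ 2) :
    ∃ a ∈ M, 0 ≤ a ∧ ∀ y ∈ M,
      2 * ⟪η, y η⟫_ℂ = ∑ i, (⟪ε i, a (y (ε i))⟫_ℂ + ⟪ε i, y (a (ε i))⟫_ℂ) := by
  obtain ⟨a, haM, ha0, hvar⟩ := exists_var M m ε η c hc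
  refine ⟨a, haM, ha0, ?_⟩
  have hasa : IsSelfAdjoint a := IsSelfAdjoint.of_nonneg ha0
  set D := c * Real.sqrt (∑ i, ‖ε i‖ ^ 2) + Real.sqrt (bf ε a a) with hD
  have hD0 : 0 ≤ D := by positivity
  -- `L = 0` on self-adjoint elements
  have hL : ∀ z ∈ M, IsSelfAdjoint z → ff η z = bf ε a z := by
    intro z hzM hzsa
    have hsmall : ∀ δ : ℝ, 0 < δ → δ ≤ 1 →
        |ff η z - bf ε a z| ≤ Real.sqrt (bf ε z z) * (2 * Real.sqrt δ * (1 + D) + δ) := by
      intro δ hδ hδ1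
      obtain ⟨y, hyM, hysa, hy⟩ := exists_approx M m ε η c hc hdom a δ hδ
      have h1 := approx_le M m ε η c hc hdom a haM ha0 hvar δ hδ y hyM hysa hy
      have h2 := (abs_le.1 (hy y hyM hysa)).2
      set Y := Real.sqrt (bf ε y y) with hY
      have hY2 : Y ^ 2 = bf ε y y := Real.sq_sqrt (bf_self_nonneg ε y)
      have hY0 : 0 ≤ Y := Real.sqrt_nonneg _
      have h3 : Y ^ 2 ≤ δ * Y + δ * D := by rw [hY2]; linarith
      have hs2 : Real.sqrt δ ^ 2 = δ := Real.sq_sqrt hδ.le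
      have hs0 : 0 < Real.sqrt δ := Real.sqrt_pos.2 hδ
      have hs1 : Real.sqrt δ ≤ 1 := Real.sqrt_le_one.2 hδ1
      have h4 : Y ≤ 2 * Real.sqrt δ * (1 + D) := by
        by_contra hcon
        push Not at hcon
        set s := Real.sqrt δ with hs
        have h5 : δ ≤ s := by nlinarith
        have h6 : δ * Y ≤ Y * Y / 2 := by
          have : δ ≤ Y / 2 := by nlinarith
          nlinarith
        have h7 : δ * D < Y * Y / 2 := by
          have : s * D < Y / 2 := by nlinarith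
          have h8 : s < Y := by nlinarith
          have : s * (s * D) < Y * (Y / 2) := by
            have := mul_nonneg hs0.le hD0
            nlinarith
          nlinarith
        nlinarith
      have h5 := hy z hzM hzsa
      have h6 := bf_cs ε z y
      have h7 : |ff η z - bf ε a z| ≤ |bf ε z y| + δ * Real.sqrt (bf ε z z) := by
        have : ff η z - bf ε a z = bf ε z y - (bf ε z y - (ff η z - bf ε a z)) := by ring
        rw [this]
        refine (abs_sub _ _).trans ?_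
        linarith
      have hZ : 0 ≤ Real.sqrt (bf ε z z) := Real.sqrt_nonneg _
      calc |ff η z - bf ε a z| ≤ |bf ε z y| + δ * Real.sqrt (bf ε z z) := h7
        _ ≤ Real.sqrt (bf ε z z) * Y + δ * Real.sqrt (bf ε z z) := by linarith
        _ ≤ Real.sqrt (bf ε z z) * (2 * Real.sqrt δ * (1 + D)) +
            δ * Real.sqrt (bf ε z z) := by
          have := mul_le_mul_of_nonneg_left h4 hZ
          linarith
        _ = _ := by ring
    have hlim : Filter.Tendsto (fun δ : ℝ => Real.sqrt (bf ε z z) *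
        (2 * Real.sqrt δ * (1 + D) + δ)) (𝓝[>] 0) (𝓝 0) := by
      have hcont : Continuous (fun δ : ℝ => Real.sqrt (bf ε z z) *
        (2 * Real.sqrt δ * (1 + D) + δ)) := by fun_prop
      have := hcont.tendsto 0
      simp only [Real.sqrt_zero, mul_zero, zero_mul, add_zero] at this
      exact this.mono_left nhdsWithin_le_nhds
    have habs : |ff η z - bf ε a z| ≤ 0 := by
      refine ge_of_tendsto hlim ?_
      filter_upwards [Ioc_mem_nhdsGT (show (0 : ℝ) < 1 by norm_num)] with δ hδ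
      exact hsmall δ hδ.1 hδ.2
    have := abs_eq_zero.1 (le_antisymm habs (abs_nonneg _))
    linarith
  -- self-adjoint case
  have hadj : ContinuousLinearMap.adjoint a = a := by
    rw [← ContinuousLinearMap.star_eq_adjoint]; exact hasa
  have hsaC : ∀ z ∈ M, IsSelfAdjoint z →
      2 * ⟪η, z η⟫_ℂ = ∑ i, (⟪ε i, a (z (ε i))⟫_ℂ + ⟪ε i, z (a (ε i))⟫_ℂ) := by
    intro z hzM hzsa
    have hzadj : ContinuousLinearMap.adjoint z = z := by
      rw [← ContinuousLinearMap.star_eq_adjoint]; exact hzsa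
    have h1 : ∀ i, ⟪ε i, a (z (ε i))⟫_ℂ + ⟪ε i, z (a (ε i))⟫_ℂ =
        ((2 * (⟪a (ε i), z (ε i)⟫_ℂ).re : ℝ) : ℂ) := by
      intro i
      have h2 : ⟪ε i, a (z (ε i))⟫_ℂ = ⟪a (ε i), z (ε i)⟫_ℂ := by
        conv_rhs => rw [← hadj]
        rw [ContinuousLinearMap.adjoint_inner_left]
      have h3 : ⟪ε i, z (a (ε i))⟫_ℂ = (starRingEnd ℂ) ⟪a (ε i), z (ε i)⟫_ℂ := by
        rw [inner_conj_symm]
        conv_rhs => rw [← hzadj]
        rw [ContinuousLinearMap.adjoint_inner_left]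
      rw [h2, h3, Complex.add_conj]
    have h4 : ⟪η, z η⟫_ℂ = ((ff η z : ℝ) : ℂ) := by
      apply Complex.ext
      · simp [ff]
      · have h5 : (starRingEnd ℂ) ⟪η, z η⟫_ℂ = ⟪η, z η⟫_ℂ := by
          rw [inner_conj_symm]
          conv_lhs => rw [← hzadj]
          rw [ContinuousLinearMap.adjoint_inner_left]
        simpa using Complex.conj_eq_iff_im.1 h5
    rw [h4, hL z hzM hzsa]
    simp only [h1]
    unfold bf
    push_cast
    rw [Finset.mul_sum]
  intro y hyM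
  -- decompose
  set y1 : K →L[ℂ] K := (1 / 2 : ℂ) • (y + star y) with hy1
  set y2 : K →L[ℂ] K := (-(Complex.I) / 2 : ℂ) • (y - star y) with hy2
  have hstar : star y ∈ M := star_mem hyM
  have hy1M : y1 ∈ M := by
    have : (1 / 2 : ℂ) • (y + star y) ∈ M.toStarSubalgebra :=
      SMulMemClass.smul_mem _ (add_mem (S := VonNeumannAlgebra K) hyM hstar)
    exact this
  have hy2M : y2 ∈ M := by
    have : (-(Complex.I) / 2 : ℂ) • (y - star y) ∈ M.toStarSubalgebra :=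
      SMulMemClass.smul_mem _ (sub_mem (S := VonNeumannAlgebra K) hyM hstar)
    exact this
  have hy1sa : IsSelfAdjoint y1 := by
    rw [isSelfAdjoint_iff, hy1, star_smul, star_add, star_star, add_comm (star y) y]
    congr 1
    simp
  have hy2sa : IsSelfAdjoint y2 := by
    rw [isSelfAdjoint_iff, hy2, star_smul, star_sub, star_star]
    rw [show star (-(Complex.I) / 2 : ℂ) = -(-(Complex.I) / 2 : ℂ) by
      simp [neg_div]]
    rw [neg_smul, ← smul_neg, neg_sub]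
  have hdec : y = y1 + Complex.I • y2 := by
    rw [hy1, hy2, smul_smul]
    have : Complex.I * (-(Complex.I) / 2) = 1 / 2 := by
      rw [neg_div, mul_neg, ← mul_div_assoc, Complex.I_mul_I]
      norm_num
    rw [this]
    module
  have e1 := hsaC y1 hy1M hy1sa
  have e2 := hsaC y2 hy2M hy2sa
  have hsum : ∑ i, (⟪ε i, a (y (ε i))⟫_ℂ + ⟪ε i, y (a (ε i))⟫_ℂ) =
      ∑ i, (⟪ε i, a (y1 (ε i))⟫_ℂ + ⟪ε i, y1 (a (ε i))⟫_ℂ) +
      Complex.I * ∑ i, (⟪ε i, a (y2 (ε i))⟫_ℂ + ⟪ε i, y2 (a (ε i))⟫_ℂ) := by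
    rw [Finset.mul_sum, ← Finset.sum_add_distrib]
    refine Finset.sum_congr rfl fun i _ => ?_
    rw [hdec]
    simp only [add_apply, smul_apply, map_add, map_smul, inner_add_right, inner_smul_right]
    ring
  rw [hsum, ← e1, ← e2]
  conv_lhs => rw [hdec]
  simp only [add_apply, smul_apply, inner_add_right, inner_smul_right]
  ring

end Pool.Agent.Helper67.Inj
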