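import Pool.Agent.Helper67.Inj.Conj
import Pool.Agent.Helper67.Inj.SFex
import Pool.Agent.Helper67.Inj.S5C
import Pool.Agent.Helper67.Inj.HB
import Pool.Agent.Helper67.Inj.Fin

set_option autoImplicit false

open scoped InnerProductSpace ComplexOrder TensorProduct Topology

namespace Pool.Agent.Helper67.Inj

universe u

variable {H : Type u} [NormedAddCommGroup H] [InnerProductSpace ℂ H] [CompleteSpace H]

theorem theoremQ (N : VonNeumannAlgebra H) (Ω : H) (hΩ : ‖Ω‖ = 1)
    (sep : ∀ y ∈ N, y Ω = 0 → y = 0) (hQ : QB N Ω) : InjAt N 1 := by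
  obtain ⟨C, -⟩ := exists_conj (H := H)
  obtain ⟨J, hJ⟩ := exists_SF N Ω hΩ sep
  have : Nontrivial H := ⟨Ω, 0, by rintro rfl; simp at hΩ⟩
  obtain ⟨G, hG, h⟩ := exists_G C N (fun y => (sfm N Ω J y y).re) (by
    intro t y
    simp only [sfm, star_smul, map_smul, map_smulₛₗ, inner_smul_left, inner_smul_right]
    simp
    ring) (fun K y hy l hl => sfm_le_sup N Ω J hJ hQ C K y hy l hl)
  exact injective_of_G N Ω J hJ G hG h

end Pool.Agent.Helper67.Inj
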