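import Pool.Agent.Helper67.Inj.SakM

set_option autoImplicit false

open scoped InnerProductSpace ComplexOrder TensorProduct Topology

namespace Pool.Agent.Helper67.Inj

universe u

variable {K : Type u} [NormedAddCommGroup K] [InnerProductSpace ℂ K] [CompleteSpace K]

private theorem theta_adj (x : K →L[ℂ] K) (ξ η : K) : ⟪star x ξ, η⟫_ℂ = ⟪ξ, x η⟫_ℂ := by
  rw [ContinuousLinearMap.star_eq_adjoint, ContinuousLinearMap.adjoint_inner_left]

private theorem theta_adj' (x : K →L[ℂ] K) (ξ η : K) : ⟪x ξ, η⟫_ℂ = ⟪ξ, star x η⟫_ℂ := by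
  rw [ContinuousLinearMap.star_eq_adjoint, ContinuousLinearMap.adjoint_inner_right]

private theorem theta_sa {a : K →L[ℂ] K} (h : ∀ ξ, 0 ≤ ⟪ξ, a ξ⟫_ℂ) : star a = a := by
  have h1 : (a : K →ₗ[ℂ] K).IsSymmetric := by
    rw [LinearMap.isSymmetric_iff_inner_map_self_real]
    intro ξ
    have h2 := h ξ
    have h3 : (starRingEnd ℂ) ⟪ξ, a ξ⟫_ℂ = ⟪ξ, a ξ⟫_ℂ := by
      rw [Complex.conj_eq_iff_im]
      exact (Complex.nonneg_iff.mp h2).2.symm
    show (starRingEnd ℂ) ⟪a ξ, ξ⟫_ℂ = ⟪a ξ, ξ⟫_ℂ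
    rw [inner_conj_symm]
    rw [inner_conj_symm] at h3
    exact h3.symm
  exact (ContinuousLinearMap.isSelfAdjoint_iff_isSymmetric.mpr h1)

private theorem theta_comm {M : VonNeumannAlgebra K} {b : K →L[ℂ] K} (hb : b ∈ M.commutant)
    {y : K →L[ℂ] K} (hy : y ∈ M) (ξ : K) : y (b ξ) = b (y ξ) := by
  have := VonNeumannAlgebra.mem_commutant_iff.mp hb y hy
  exact congrArg (fun T : K →L[ℂ] K => T ξ) this

private theorem theta_sq {M : VonNeumannAlgebra K} {Ω : K} {R R' : K →L[ℂ] K} {D : K →L⋆[ℂ] K}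
    (h : TT M Ω R R' D) (v : K →L[ℂ] K) (hv : v ∈ M.commutant) :
    ∃ z ∈ M, z Ω = R ((star v * v) Ω) ∧ star z Ω = R ((star (star v * v)) Ω) := by
  obtain ⟨A, hA, hpos, hrel⟩ := sakai_matrix M Ω 1 (fun _ => 1) (fun _ => one_pos)
    (fun _ => v) (fun _ => hv)
  have hpos' : ∀ ξ, 0 ≤ ⟪ξ, A 0 0 ξ⟫_ℂ := fun ξ => by simpa using hpos (fun _ => ξ)
  have hsa := theta_sa hpos'
  have hrel' : ∀ y ∈ M, 2 * ⟪v Ω, y (v Ω)⟫_ℂ = ⟪Ω, A 0 0 (y Ω)⟫_ℂ + ⟪Ω, y (A 0 0 Ω)⟫_ℂ := by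
    intro y hy
    simpa using hrel y hy 0 0
  have haM := hA 0 0
  clear hA hpos hrel
  set a := A 0 0 with ha
  clear_value a
  have hvv : star v * v ∈ M.commutant := mul_mem (star_mem hv) hv
  set c := star v * v with hc
  have hcsa : star c = c := by rw [hc]; simp
  -- ζ = c Ω - a Ω
  have key : D ((Complex.I : ℂ) • (c Ω - a Ω)) = R ((Complex.I : ℂ) • (c Ω - a Ω)) := by
    apply h.comp
    intro y hy hys
    rw [inner_smul_right]
    have h1 : 2 * ⟪y Ω, c Ω⟫_ℂ = ⟪a Ω, y Ω⟫_ℂ + ⟪y Ω, a Ω⟫_ℂ := by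
      have h2 := hrel' y hy
      have h3 : ⟪v Ω, y (v Ω)⟫_ℂ = ⟪y Ω, c Ω⟫_ℂ := by
        rw [← theta_adj y, hys, theta_comm hv hy, theta_adj' v]
        rfl
      have h4 : ⟪Ω, a (y Ω)⟫_ℂ = ⟪a Ω, y Ω⟫_ℂ := by
        rw [← theta_adj a, hsa]
      have h5 : ⟪Ω, y (a Ω)⟫_ℂ = ⟪y Ω, a Ω⟫_ℂ := by
        rw [← theta_adj y, hys]
      rw [h3, h4, h5] at h2
      exact h2
    have h6 : (⟪y Ω, c Ω - a Ω⟫_ℂ).re = 0 := by
      have h7 := congrArg Complex.re h1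
      have h8 : (⟪a Ω, y Ω⟫_ℂ).re = (⟪y Ω, a Ω⟫_ℂ).re := by
        rw [← inner_conj_symm]; exact Complex.conj_re _
      rw [inner_sub_right, Complex.sub_re]
      rw [Complex.add_re, h8] at h7
      simp at h7
      linarith
    simp [Complex.mul_im, h6]
  have key2 : (2 : ℂ) • a Ω = (2 : ℂ) • R (c Ω) := by
    have h1 : D (c Ω) = R (c Ω) := by
      have := h.DM' c hvv
      rwa [hcsa] at this
    have h2 : D (a Ω) = R' (a Ω) := by
      have := h.DM a haM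
      rwa [hsa] at this
    rw [map_smulₛₗ, map_smul, map_sub, map_sub, h1, h2] at key
    have h3 : R (a Ω) + R' (a Ω) = (2 : ℂ) • a Ω := by
      have := congrArg (fun T : K →L[ℂ] K => T (a Ω)) h.sum
      simpa using this
    have h4 : (Complex.I : ℂ) • ((R (a Ω) + R' (a Ω)) - (2 : ℂ) • R (c Ω)) = 0 := by
      have h5 : (starRingEnd ℂ) Complex.I = -Complex.I := Complex.conj_I
      rw [h5] at key
      have h6 : (Complex.I : ℂ) • ((R (a Ω) + R' (a Ω)) - (2 : ℂ) • R (c Ω)) =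
          (-Complex.I) • (R (c Ω) - R' (a Ω)) - (Complex.I : ℂ) • (R (c Ω) - R (a Ω)) := by
        module
      rw [h6, key, sub_self]
    rw [h3] at h4
    have h7 := (smul_eq_zero.mp h4).resolve_left Complex.I_ne_zero
    exact sub_eq_zero.mp h7
  refine ⟨a, haM, ?_, ?_⟩
  · exact smul_right_injective K (two_ne_zero (α := ℂ)) key2
  · rw [hcsa, hsa]
    exact smul_right_injective K (two_ne_zero (α := ℂ)) key2

private theorem theta_fact1 {M : VonNeumannAlgebra K} {Ω : K} {R R' : K →L[ℂ] K}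
    {D : K →L⋆[ℂ] K} (h : TT M Ω R R' D) (c : K →L[ℂ] K) (hc : c ∈ M.commutant) :
    ∃ z ∈ M, z Ω = R (c Ω) ∧ star z Ω = R (star c Ω) := by
  have h1M : (1 : K →L[ℂ] K) ∈ M.commutant := one_mem _
  have hk : ∀ k : ℂ, (1 : K →L[ℂ] K) + k • c ∈ M.commutant := fun k =>
    add_mem h1M (M.commutant.toStarSubalgebra.smul_mem hc k)
  obtain ⟨z0, m0, e0, f0⟩ := theta_sq h _ (hk 1)
  obtain ⟨z1, m1, e1, f1⟩ := theta_sq h _ (hk Complex.I)
  obtain ⟨z2, m2, e2, f2⟩ := theta_sq h _ (hk (-1))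
  obtain ⟨z3, m3, e3, f3⟩ := theta_sq h _ (hk (-Complex.I))
  have sm : ∀ (k : ℂ) (z : K →L[ℂ] K), z ∈ M → k • z ∈ M := fun k z hz =>
    M.toStarSubalgebra.smul_mem hz k
  have pol : c = (1 / 4 : ℂ) • (star ((1 : K →L[ℂ] K) + (1 : ℂ) • c) * (1 + (1 : ℂ) • c)) +
      (-Complex.I / 4 : ℂ) • (star ((1 : K →L[ℂ] K) + Complex.I • c) * (1 + Complex.I • c)) +
      (-1 / 4 : ℂ) • (star ((1 : K →L[ℂ] K) + (-1 : ℂ) • c) * (1 + (-1 : ℂ) • c)) +
      (Complex.I / 4 : ℂ) • (star ((1 : K →L[ℂ] K) + (-Complex.I) • c) *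
        (1 + (-Complex.I) • c)) := by
    simp only [star_add, star_one, star_smul, add_mul, mul_add, one_mul, mul_one, smul_mul_assoc,
      mul_smul_comm, smul_smul, smul_add]
    have e1 : star Complex.I = -Complex.I := Complex.conj_I
    have e2 : star (-Complex.I) = Complex.I := by rw [star_neg, e1, neg_neg]
    have e4 : star (-1 : ℂ) = -1 := by rw [star_neg, star_one]
    rw [e1, e2, e4]
    match_scalars <;> ring_nf <;> simp [Complex.I_sq] <;> ring_nf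
  generalize star ((1 : K →L[ℂ] K) + (1 : ℂ) • c) * (1 + (1 : ℂ) • c) = q0 at e0 f0 pol
  generalize star ((1 : K →L[ℂ] K) + Complex.I • c) * (1 + Complex.I • c) = q1 at e1 f1 pol
  generalize star ((1 : K →L[ℂ] K) + (-1 : ℂ) • c) * (1 + (-1 : ℂ) • c) = q2 at e2 f2 pol
  generalize star ((1 : K →L[ℂ] K) + (-Complex.I) • c) * (1 + (-Complex.I) • c) = q3
    at e3 f3 pol
  refine ⟨(1 / 4 : ℂ) • z0 + (-Complex.I / 4 : ℂ) • z1 + (-1 / 4 : ℂ) • z2 +
    (Complex.I / 4 : ℂ) • z3, add_mem (add_mem (add_mem (sm _ _ m0) (sm _ _ m1)) (sm _ _ m2))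
      (sm _ _ m3), ?_, ?_⟩
  · rw [pol]
    simp only [ContinuousLinearMap.add_apply, ContinuousLinearMap.smul_apply, map_add, map_smul,
      e0, e1, e2, e3]
  · rw [pol]
    simp only [ContinuousLinearMap.add_apply, ContinuousLinearMap.smul_apply, map_add, map_smul,
      star_add, star_smul, f0, f1, f2, f3]

/-- TH -/
theorem theta {M : VonNeumannAlgebra K} {Ω : K} {R R' : K →L[ℂ] K} {D : K →L⋆[ℂ] K}
    (h : TT M Ω R R' D) (m : ℕ) (v : Fin m → (K →L[ℂ] K)) (hv : ∀ i, v i ∈ M.commutant)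
    (τ : Fin m → ℝ) :
    ∃ a : Fin m → Fin m → (K →L[ℂ] K), (∀ i j, a i j ∈ M) ∧
      (∀ ξ : Fin m → K, 0 ≤ ∑ j, ∑ i, ⟪ξ j, a j i (ξ i)⟫_ℂ) ∧
      ∀ i j, ((Real.exp ((τ i - τ j) / 2) : ℝ) : ℂ) • R (a j i Ω) +
        ((Real.exp (-(τ i - τ j) / 2) : ℝ) : ℂ) • R' (a j i Ω) =
          (2 : ℂ) • R ((star (v i) * v j) Ω) := by
  obtain ⟨A, hA, hpos, hrel⟩ := sakai_matrix M Ω m (fun i => Real.exp (τ i))
    (fun i => Real.exp_pos _) v hv
  have hRs : star R = R := (ContinuousLinearMap.nonneg_iff_isPositive R |>.mp h.pos).isSelfAdjoint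
  refine ⟨fun j i => ((Real.exp ((τ j + τ i) / 2) : ℝ) : ℂ) • A j i,
    fun j i => M.toStarSubalgebra.smul_mem (hA j i) _, ?_, ?_⟩
  · intro ξ
    have h1 := hpos (fun j => ((Real.exp (τ j / 2) : ℝ) : ℂ) • ξ j)
    refine le_of_le_of_eq h1 ?_
    refine Finset.sum_congr rfl fun j _ => Finset.sum_congr rfl fun i _ => ?_
    rw [ContinuousLinearMap.smul_apply, map_smul, inner_smul_left, inner_smul_right,
      inner_smul_right, Complex.conj_ofReal, ← mul_assoc, ← Complex.ofReal_mul, ← Real.exp_add]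
    congr 3
    ring_nf
  · intro i j
    have hb : star (v i) * v j ∈ M.commutant := mul_mem (star_mem (hv i)) (hv j)
    have key : (2 : ℂ) • R ((star (v i) * v j) Ω) -
        (((Real.exp (τ j) : ℝ) : ℂ) • R' (A j i Ω) + ((Real.exp (τ i) : ℝ) : ℂ) • R (A j i Ω))
          = 0 := by
      apply h.cyc'
      intro c hc
      obtain ⟨z, hz, ez, fz⟩ := theta_fact1 h c hc
      have h1 := hrel (star z) (star_mem hz) i j
      have h2 : ⟪v i Ω, star z (v j Ω)⟫_ℂ = ⟪c Ω, R ((star (v i) * v j) Ω)⟫_ℂ := by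
        rw [← theta_adj' z, theta_comm (hv i) hz, theta_adj' (v i), ez, theta_adj' R, hRs]
        rfl
      have h3 : ⟪Ω, star z (A j i Ω)⟫_ℂ = ⟪c Ω, R (A j i Ω)⟫_ℂ := by
        rw [← theta_adj' z, ez, theta_adj' R, hRs]
      have h4 : ⟪Ω, A j i (star z Ω)⟫_ℂ = ⟪c Ω, R' (A j i Ω)⟫_ℂ := by
        rw [← theta_adj (A j i), fz, ← h.DM' c hc, ← inner_conj_symm, h.Dsymm,
          h.DM _ (star_mem (hA j i)), star_star, inner_conj_symm]
      rw [h2, h3, h4] at h1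
      rw [inner_sub_right, inner_add_right, inner_smul_right, inner_smul_right, inner_smul_right,
        h1, sub_self]
    have h5 := sub_eq_zero.mp key
    rw [h5, ContinuousLinearMap.smul_apply, map_smul, map_smul, smul_smul, smul_smul,
      ← Complex.ofReal_mul, ← Complex.ofReal_mul, ← Real.exp_add, ← Real.exp_add, add_comm]
    congr 3 <;> ring_nf

end Pool.Agent.Helper67.Inj
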